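import Pool.Agent.MP_95da86_ag.Inner

/-! Dirichlet domains (after Looijenga). -/

namespace Pool.Agent.MP_95da86_ag

lemma DD_aux_smul {V : Type} [AddCommGroup V] [Module ℝ V] (K : Submodule NNReal V) {c : ℝ}
    (hc : 0 ≤ c) {x : V} (hx : x ∈ K) : c • x ∈ K :=
  K.smul_mem (⟨c, hc⟩ : NNReal) hx

lemma DD_aux_nonneg {V : Type} [AddCommGroup V] [Module ℝ V] (T : Set V) (φ : V →ₗ[ℝ] ℝ)
    (hT : ∀ x ∈ T, 0 ≤ φ x) {x : V} (hx : x ∈ Submodule.span NNReal T) : 0 ≤ φ x := by
  induction hx using Submodule.span_induction with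
  | mem x hx => exact hT x hx
  | zero => simp
  | add x y _ _ hx hy => rw [map_add]; exact add_nonneg hx hy
  | smul c x _ hx =>
    rw [NNReal.smul_def, map_smul, smul_eq_mul]; exact mul_nonneg c.2 hx

lemma DD_aux_neg {V : Type} [AddCommGroup V] [Module ℝ V] (T : Set V) (φ : V →ₗ[ℝ] ℝ)
    (hT : ∀ x ∈ T, φ x < 0) {x : V} (hx : x ∈ Submodule.span NNReal T) : x = 0 ∨ φ x < 0 := by
  induction hx using Submodule.span_induction with
  | mem x hx => exact Or.inr (hT x hx)
  | zero => exact Or.inl rfl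
  | add x y _ _ hx hy =>
    rcases hx with rfl | hx
    · simpa using hy
    · rcases hy with rfl | hy
      · right; simpa using hx
      · right; rw [map_add]; linarith
  | smul c x _ hx =>
    rcases hx with rfl | hx
    · left; simp
    · rcases eq_or_lt_of_le c.2 with hc | hc
      · left
        rw [NNReal.smul_def, show (c : ℝ) = 0 from hc.symm, zero_smul]
      · right
        rw [NNReal.smul_def, map_smul, smul_eq_mul]
        exact mul_neg_of_pos_of_neg hc hx

lemma DD_aux_bil {V : Type} [AddCommGroup V] [Module ℝ V] (A B : Set V) (φ : V →ₗ[ℝ] ℝ)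
    (K : Submodule NNReal V) (h : ∀ g ∈ A, ∀ k ∈ B, φ g • k - φ k • g ∈ K) {p n : V}
    (hp : p ∈ Submodule.span NNReal A) (hn : n ∈ Submodule.span NNReal B) :
    φ p • n - φ n • p ∈ K := by
  induction hp using Submodule.span_induction with
  | mem g hg =>
    induction hn using Submodule.span_induction with
    | mem k hk => exact h g hg k hk
    | zero => simp
    | add x y _ _ hx hy =>
      have : φ g • (x + y) - φ (x + y) • g = (φ g • x - φ x • g) + (φ g • y - φ y • g) := by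
        rw [map_add]; module
      rw [this]; exact K.add_mem hx hy
    | smul c x _ hx =>
      have : φ g • (c • x) - φ (c • x) • g = (c : ℝ) • (φ g • x - φ x • g) := by
        rw [NNReal.smul_def, map_smul, smul_eq_mul]; module
      rw [this]; exact DD_aux_smul K c.2 hx
  | zero => simp
  | add x y _ _ hx hy =>
    have : φ (x + y) • n - φ n • (x + y) = (φ x • n - φ n • x) + (φ y • n - φ n • y) := by
      rw [map_add]; module
    rw [this]; exact K.add_mem hx hy
  | smul c x _ hx =>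
    have : φ (c • x) • n - φ n • (c • x) = (c : ℝ) • (φ x • n - φ n • x) := by
      rw [NNReal.smul_def, map_smul, smul_eq_mul]; module
    rw [this]; exact DD_aux_smul K c.2 hx

/-- Double description: cutting a finitely generated cone by a half-space. The new generators are
the old ones with `φ ≥ 0` and the `φ g • h - φ h • g` with `φ g > 0 > φ h`. -/
theorem dd_step {V : Type} [AddCommGroup V] [Module ℝ V] (Λ : AddSubgroup V) (S : Finset V)
    (hS : ∀ x ∈ S, x ∈ Λ) (φ : V →ₗ[ℝ] ℝ) (hφ : ∀ x ∈ Λ, ∃ n : ℤ, φ x = n) :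
    ∃ S' : Finset V, (∀ x ∈ S', x ∈ Λ) ∧ ∀ x, x ∈ Submodule.span NNReal (S' : Set V) ↔
      x ∈ Submodule.span NNReal (S : Set V) ∧ 0 ≤ φ x := by
  classical
  let A : Finset V := S.filter fun x => 0 ≤ φ x
  let B : Finset V := S.filter fun x => φ x < 0
  let C : Finset V := (A ×ˢ B).image fun z => φ z.1 • z.2 - φ z.2 • z.1
  have hA : ∀ x, x ∈ A ↔ x ∈ S ∧ 0 ≤ φ x := fun x => Finset.mem_filter
  have hB : ∀ x, x ∈ B ↔ x ∈ S ∧ φ x < 0 := fun x => Finset.mem_filter
  have hC : ∀ x, x ∈ C ↔ ∃ g ∈ A, ∃ k ∈ B, x = φ g • k - φ k • g := by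
    intro x
    simp only [C, Finset.mem_image, Finset.mem_product]
    constructor
    · rintro ⟨z, ⟨h1, h2⟩, rfl⟩; exact ⟨z.1, h1, z.2, h2, rfl⟩
    · rintro ⟨g, h1, k, h2, rfl⟩; exact ⟨(g, k), ⟨h1, h2⟩, rfl⟩
  refine ⟨A ∪ C, ?_, fun x => ⟨fun hx => ⟨?_, ?_⟩, ?_⟩⟩
  · intro x hx
    rcases Finset.mem_union.1 hx with hx | hx
    · exact hS x ((hA x).1 hx).1
    · obtain ⟨g, hg, k, hk, rfl⟩ := (hC x).1 hx
      have hg' := hS g ((hA g).1 hg).1
      have hk' := hS k ((hB k).1 hk).1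
      obtain ⟨a, ha⟩ := hφ g hg'
      obtain ⟨b, hb⟩ := hφ k hk'
      rw [ha, hb, Int.cast_smul_eq_zsmul, Int.cast_smul_eq_zsmul]
      exact Λ.sub_mem (Λ.zsmul_mem hk' a) (Λ.zsmul_mem hg' b)
  · refine (Submodule.span_le.2 ?_ : _ ≤ Submodule.span NNReal (S : Set V)) hx
    intro y hy
    rcases Finset.mem_union.1 (Finset.mem_coe.1 hy) with hy | hy
    · exact Submodule.subset_span ((hA y).1 hy).1
    · obtain ⟨g, hg, k, hk, rfl⟩ := (hC y).1 hy
      have : φ g • k - φ k • g = φ g • k + (-φ k) • g := by module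
      rw [this]
      exact Submodule.add_mem _
        (DD_aux_smul _ ((hA g).1 hg).2 (Submodule.subset_span ((hB k).1 hk).1))
        (DD_aux_smul _ (neg_nonneg.2 ((hB k).1 hk).2.le) (Submodule.subset_span ((hA g).1 hg).1))
  · refine DD_aux_nonneg _ φ ?_ hx
    intro y hy
    rcases Finset.mem_union.1 (Finset.mem_coe.1 hy) with hy | hy
    · exact ((hA y).1 hy).2
    · obtain ⟨g, hg, k, hk, rfl⟩ := (hC y).1 hy
      rw [map_sub, map_smul, map_smul, smul_eq_mul, smul_eq_mul, mul_comm, sub_self]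
  · rintro ⟨hx, h0⟩
    have hSAB : (S : Set V) = (A : Set V) ∪ (B : Set V) := by
      ext y
      simp only [Set.mem_union, Finset.mem_coe, hA, hB]
      constructor
      · intro hy
        rcases le_or_gt 0 (φ y) with h | h
        · exact Or.inl ⟨hy, h⟩
        · exact Or.inr ⟨hy, h⟩
      · rintro (h | h) <;> exact h.1
    rw [hSAB, Submodule.span_union, Submodule.mem_sup] at hx
    obtain ⟨p, hp, n, hn, rfl⟩ := hx
    have hpK : p ∈ Submodule.span NNReal ((A ∪ C : Finset V) : Set V) :=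
      Submodule.span_mono (by intro y hy; simp only [Finset.coe_union, Set.mem_union]; exact Or.inl hy) hp
    have hb : φ p • n - φ n • p ∈ Submodule.span NNReal ((A ∪ C : Finset V) : Set V) := by
      refine DD_aux_bil _ _ φ _ ?_ hp hn
      intro g hg k hk
      refine Submodule.subset_span ?_
      simp only [Finset.coe_union, Set.mem_union, Finset.mem_coe]
      exact Or.inr ((hC _).2 ⟨g, hg, k, hk, rfl⟩)
    rcases DD_aux_neg _ φ (fun y hy => ((hB y).1 hy).2) hn with rfl | hneg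
    · simpa using hpK
    · rw [map_add] at h0
      have hpos : 0 < φ p := by linarith
      have : p + n = (φ p)⁻¹ • (φ p • n - φ n • p) + ((φ p + φ n) / φ p) • p := by
        have e1 : (φ p)⁻¹ * φ p = 1 := inv_mul_cancel₀ hpos.ne'
        have e2 : (φ p + φ n) / φ p = 1 + (φ p)⁻¹ * φ n := by field_simp
        rw [smul_sub, smul_smul, smul_smul, e1, e2]; module
      rw [this]
      exact Submodule.add_mem _ (DD_aux_smul _ (inv_nonneg.2 hpos.le) hb)
        (DD_aux_smul _ (div_nonneg h0 hpos.le) hpK)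

lemma DD_aux_fin {V ι : Type} [AddCommGroup V] [Module ℝ V] (Λ : AddSubgroup V)
    (S : Finset V) (hS : ∀ x ∈ S, x ∈ Λ) (φ : ι → V →ₗ[ℝ] ℝ) (hφ : ∀ i, ∀ x ∈ Λ, ∃ n : ℤ, φ i x = n)
    (I : Finset ι) :
    ∃ S' : Finset V, (∀ x ∈ S', x ∈ Λ) ∧ ∀ x, x ∈ Submodule.span NNReal (S' : Set V) ↔
      x ∈ Submodule.span NNReal (S : Set V) ∧ ∀ i ∈ I, 0 ≤ φ i x := by
  classical
  induction I using Finset.induction_on with
  | empty => exact ⟨S, hS, fun x => by simp⟩
  | insert j I _ ih =>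
    obtain ⟨S₁, h1, h2⟩ := ih
    obtain ⟨S₂, h3, h4⟩ := dd_step Λ S₁ h1 (φ j) (hφ j)
    refine ⟨S₂, h3, fun x => ?_⟩
    rw [h4, h2, Finset.forall_mem_insert]
    tauto

theorem dd_fin {V ι : Type} [AddCommGroup V] [Module ℝ V] [Finite ι] (Λ : AddSubgroup V)
    (S : Finset V) (hS : ∀ x ∈ S, x ∈ Λ) (φ : ι → V →ₗ[ℝ] ℝ) (hφ : ∀ i, ∀ x ∈ Λ, ∃ n : ℤ, φ i x = n) :
    ∃ S' : Finset V, (∀ x ∈ S', x ∈ Λ) ∧ ∀ x, x ∈ Submodule.span NNReal (S' : Set V) ↔
      x ∈ Submodule.span NNReal (S : Set V) ∧ ∀ i, 0 ≤ φ i x := by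
  have := Fintype.ofFinite ι
  obtain ⟨S', h1, h2⟩ := DD_aux_fin Λ S hS φ hφ Finset.univ
  exact ⟨S', h1, fun x => by rw [h2]; simp⟩

end Pool.Agent.MP_95da86_ag
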