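import Pool.Agent.MP_95da86_ag.Wt
import Pool.Agent.MP_95da86_ag.DD

/-! Dirichlet domains (after Looijenga). -/

namespace Pool.Agent.MP_95da86_ag

lemma Dir_aux_dickson {X ι : Type} [Finite ι] (P : X → Prop) (v : X → ι → ℕ) :
    ∃ T : Finset X, (∀ t ∈ T, P t) ∧ ∀ g, P g → ∃ t ∈ T, v t ≤ v g := by
  classical
  have hf := WellQuasiOrderedLE.finite_of_isAntichain
    (setOfPred_minimal_antichain (fun a : ι → ℕ => ∃ g, P g ∧ v g = a))
  have hex : ∀ a : hf.toFinset, ∃ g, P g ∧ v g = a := fun a => (hf.mem_toFinset.1 a.2).1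
  choose f hf1 hf2 using hex
  refine ⟨Finset.univ.image f, fun t ht => ?_, fun g hg => ?_⟩
  · obtain ⟨a, -, rfl⟩ := Finset.mem_image.1 ht
    exact hf1 a
  · obtain ⟨b, hb, hm⟩ := exists_minimal_le_of_wellFoundedLT
      (fun a : ι → ℕ => ∃ g, P g ∧ v g = a) (v g) ⟨g, hg, rfl⟩
    exact ⟨f ⟨b, hf.mem_toFinset.2 hm⟩, Finset.mem_image_of_mem _ (Finset.mem_univ _),
      by rw [hf2]; exact hb⟩

lemma Dir_aux_nonneg {V : Type} [AddCommGroup V] [Module ℝ V] (φ : V →ₗ[ℝ] ℝ) {S : Set V}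
    (h : ∀ s ∈ S, 0 ≤ φ s) {x : V} (hx : x ∈ Submodule.span NNReal S) : 0 ≤ φ x := by
  induction hx using Submodule.span_induction with
  | mem s hs => exact h s hs
  | zero => simp
  | add a b _ _ ha hb => rw [map_add]; exact add_nonneg ha hb
  | smul a b _ hb =>
    rw [NNReal.smul_def, map_smul]
    exact mul_nonneg a.2 hb

lemma Dir_aux_comp {C : Type} (g : C → C) {S S' : Set (C → ℝ)} (h : ∀ s ∈ S, s ∘ g ∈ S')
    {x : C → ℝ} (hx : x ∈ Submodule.span NNReal S) : x ∘ g ∈ Submodule.span NNReal S' := by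
  induction hx using Submodule.span_induction with
  | mem s hs => exact Submodule.subset_span (h s hs)
  | zero => exact zero_mem _
  | add a b _ _ ha hb => exact add_mem ha hb
  | smul a b _ hb => exact Submodule.smul_mem _ a hb

/-- With `ξ` from `exists_weights`, Dickson's lemma gives finitely many `g j` such that the vectors
`(ξ (u ∘ g j))_u` are below all `(ξ (u ∘ g))_u`. Cut the cone of `U` into the pieces where `g j` is
best among the `g j'` (`dd_fin`), move them by `g j`, and let `S` be the union of the generators.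
Its cone lies in `{x | ∀ g, ξ x ≤ ξ (x ∘ g)}`. -/
theorem dirichlet {C : Type} (Cart : AddSubgroup (C → ℝ))
    (hint : ∀ d ∈ Cart, ∀ c, ∃ n : ℤ, d c = n) (G : Subgroup (Equiv.Perm C))
    (hG : ∀ g ∈ G, ∀ d ∈ Cart, d ∘ g ∈ Cart) (A : Submodule NNReal (C → ℝ))
    (hA0 : ∀ d ∈ A, ∀ c, 0 ≤ d c) (hAG : ∀ g ∈ G, ∀ d ∈ A, d ∘ g ∈ A)
    (U : Finset (C → ℝ)) (hU : ∀ u ∈ U, u ∈ Cart ∧ u ∈ A)
    (hspan : ∀ d ∈ Cart, d ∈ Submodule.span ℝ (U : Set (C → ℝ)))
    (hcov : ∀ d ∈ A, ∃ g ∈ G, d ∘ g ∈ Submodule.span NNReal (U : Set (C → ℝ))) :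
    ∃ S : Finset (C → ℝ), (∀ d ∈ S, d ∈ Cart) ∧
      (∀ d, d ∈ A ↔ ∃ g ∈ G, ∃ e ∈ Submodule.span NNReal (S : Set (C → ℝ)), d = e ∘ g) ∧
      ∀ g ∈ G, (∃ d ∈ Submodule.span ℝ (Cart : Set (C → ℝ)), d ∘ g ≠ d) → ∀ x,
        Absorb (Submodule.span ℝ (Cart : Set (C → ℝ))) (Submodule.span NNReal (S : Set (C → ℝ))) x →
        ¬ Absorb (Submodule.span ℝ (Cart : Set (C → ℝ)))
          {d | ∃ e ∈ Submodule.span NNReal (S : Set (C → ℝ)), d = e ∘ g} x := by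
  classical
  obtain ⟨n, c, w, hw⟩ := exists_weights Cart hint G hG U (fun u hu => (hU u hu).1)
    (fun u hu => hA0 u (hU u hu).2) hspan
  let ξ : Equiv.Perm C → (C → ℝ) →ₗ[ℝ] ℝ := fun g =>
    ∑ k, (w k : ℝ) • LinearMap.proj (g (c k))
  have hξ : ∀ g d, ξ g d = ∑ k, (w k : ℝ) * d (g (c k)) := fun g d => by
    simp [ξ]
  have hξc : ∀ g h : Equiv.Perm C, ∀ d, ξ h (d ∘ g) = ξ (g * h) d := fun g h d => by
    simp [hξ]
  have hξi : ∀ g, ∀ d ∈ Cart, ∃ m : ℤ, ξ g d = m := fun g d hd => by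
    choose m hm using hint d hd
    exact ⟨∑ k, w k * m (g (c k)), by simp [hξ, hm]⟩
  have hξn : ∀ g, ∀ u : U, ∃ m : ℕ, ξ g u = m := fun g u => by
    obtain ⟨m, hm⟩ := hξi g u (hU u u.2).1
    have h0 : 0 ≤ ξ g u := by
      rw [hξ]
      exact Finset.sum_nonneg (fun k _ => mul_nonneg (Nat.cast_nonneg _) (hA0 _ (hU u u.2).2 _))
    rw [hm] at h0
    lift m to ℕ using (by exact_mod_cast h0)
    exact ⟨m, by rw [hm]; simp⟩
  choose v hv using hξn
  obtain ⟨T, hT, hT'⟩ := Dir_aux_dickson (· ∈ G) v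
  have hpiece := fun t : T => dd_fin Cart U (fun u hu => (hU u hu).1)
    (fun t' : T => ξ t' - ξ t) (fun t' x hx => by
      obtain ⟨a, ha⟩ := hξi t' x hx
      obtain ⟨b, hb⟩ := hξi t x hx
      exact ⟨a - b, by simp [ha, hb]⟩)
  choose S hS1 hS2 using hpiece
  have hUA : ∀ x ∈ Submodule.span NNReal (U : Set (C → ℝ)), x ∈ A := fun x hx =>
    (Submodule.span_le.2 (fun u hu => (hU u hu).2) : _ ≤ A) hx
  have hbest : ∀ t : T, ∀ x ∈ Submodule.span NNReal (S t : Set (C → ℝ)), ∀ g ∈ G,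
      ξ t x ≤ ξ g x := fun t x hx g hg => by
    obtain ⟨h1, h2⟩ := (hS2 t x).1 hx
    obtain ⟨t', ht', hle⟩ := hT' g hg
    have h3 := h2 ⟨t', ht'⟩
    have h4 := Dir_aux_nonneg (ξ g - ξ t') (S := U) (fun u hu => by
      have := hle ⟨u, hu⟩
      rw [LinearMap.sub_apply, hv g ⟨u, hu⟩, hv t' ⟨u, hu⟩, sub_nonneg]
      exact_mod_cast this) h1
    simp only [LinearMap.sub_apply] at h3 h4
    linarith
  let S₀ : Finset (C → ℝ) := Finset.univ.biUnion (fun t : T => (S t).image (· ∘ t.1))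
  have hS₀ : ∀ d, d ∈ S₀ ↔ ∃ t : T, ∃ s ∈ S t, s ∘ t.1 = d := fun d => by
    simp only [S₀, Finset.mem_biUnion, Finset.mem_univ, true_and, Finset.mem_image]
  have hD : ∀ x ∈ Submodule.span NNReal (S₀ : Set (C → ℝ)), ∀ g ∈ G, ξ 1 x ≤ ξ g x :=
    fun x hx g hg => by
    have := Dir_aux_nonneg (ξ g - ξ 1) (S := S₀) (fun d hd => by
      obtain ⟨t, s, hs, rfl⟩ := (hS₀ d).1 hd
      rw [LinearMap.sub_apply, hξc, hξc, mul_one, sub_nonneg]
      exact hbest t s (Submodule.subset_span hs) _ (G.mul_mem (hT t t.2) hg)) hx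
    rwa [LinearMap.sub_apply, sub_nonneg] at this
  refine ⟨S₀, fun d hd => ?_, fun d => ⟨fun hd => ?_, ?_⟩, ?_⟩
  · obtain ⟨t, s, hs, rfl⟩ := (hS₀ d).1 hd
    exact hG _ (hT t t.2) s (hS1 t s hs)
  · obtain ⟨g, hg, h1⟩ := hcov d hd
    obtain ⟨t₀, ht₀, -⟩ := hT' 1 G.one_mem
    obtain ⟨t, -, ht⟩ := Finset.exists_min_image (Finset.univ : Finset T)
      (fun t => ξ t (d ∘ g)) ⟨⟨t₀, ht₀⟩, Finset.mem_univ _⟩
    have h2 := (hS2 t _).2 ⟨h1, fun t' => sub_nonneg.2 (ht t' (Finset.mem_univ _))⟩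
    refine ⟨(g * t)⁻¹, G.inv_mem (G.mul_mem hg (hT t t.2)), (d ∘ g) ∘ t.1,
      Dir_aux_comp _ (fun s hs => (hS₀ _).2 ⟨t, s, hs, rfl⟩) h2, ?_⟩
    funext x
    simp
  · rintro ⟨g, hg, e, he, rfl⟩
    refine hAG g hg e ((Submodule.span_le.2 (fun d hd => ?_) : _ ≤ A) he)
    obtain ⟨t, s, hs, rfl⟩ := (hS₀ d).1 hd
    exact hAG _ (hT t t.2) s (hUA s ((hS2 t s).1 (Submodule.subset_span hs)).1)
  · rintro g hg ⟨d, hd, hne⟩ x h1 h2
    obtain ⟨ε, -, e, he, hx⟩ := h2 0 (zero_mem _)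
    rw [smul_zero, add_zero] at hx
    have h3 : ξ g⁻¹ x ≤ ξ 1 x := by
      rw [hx, hξc, hξc, mul_inv_cancel, mul_one]
      exact hD e he g hg
    have h4 : ∀ y ∈ Submodule.span ℝ (Cart : Set (C → ℝ)), ξ 1 y ≤ ξ g⁻¹ y := fun y hy => by
      obtain ⟨δ, hδ, h5⟩ := h1 y hy
      have := hD _ h5 _ (G.inv_mem hg)
      simp only [map_add, map_smul, smul_eq_mul] at this
      nlinarith
    have h6 := hw g⁻¹ (G.inv_mem hg) (fun u hu => by
      have hu' : u ∈ Submodule.span ℝ (Cart : Set (C → ℝ)) := Submodule.subset_span (hU u hu).1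
      have a1 := h4 u hu'
      have a2 := h4 (-u) (neg_mem hu')
      rw [map_neg, map_neg, neg_le_neg_iff] at a2
      have := le_antisymm a2 a1
      rw [hξ, hξ] at this
      exact this)
    have h7 : ∀ y ∈ Submodule.span ℝ (U : Set (C → ℝ)), y ∘ g = y := fun y hy => by
      induction hy using Submodule.span_induction with
      | mem u hu =>
        funext z
        have := congrFun (h6 u hu) (g z)
        simpa using this.symm
      | zero => rfl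
      | add a b _ _ ha hb => rw [show (a + b) ∘ g = a ∘ g + b ∘ g from rfl, ha, hb]
      | smul a b _ hb => rw [show (a • b) ∘ g = a • (b ∘ g) from rfl, hb]
    exact hne (h7 d ((Submodule.span_le.2 (fun y hy => hspan y hy) : _ ≤ _) hd))

end Pool.Agent.MP_95da86_ag
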