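import Pool.Agent.MP_95da86_ag.NefI
import Pool.Agent.MP_95da86_ag.Dir

/-! The cone theorem for the numerical data. -/

namespace Pool.Agent.MP_95da86_ag

variable {C : Type} (Γ : Geo C)

/-- The class with data `(H, a)`. -/
def Geo.cls (H : Herm) (a : F3 → ℝ) (c : C) : ℝ := H (Γ.q c) - ∑ p, a p * Γ.m c p

/-- The effective nef cone. -/
def Geo.cone : Submodule NNReal (C → ℝ) :=
  Submodule.span NNReal Γ.Eff ⊓
    { carrier := {d | ∀ c, 0 ≤ d c}
      add_mem' := fun ha hb c => add_nonneg (ha c) (hb c)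
      zero_mem' := fun _ => le_rfl
      smul_mem' := fun r _ hd c => mul_nonneg r.2 (hd c) }

theorem Geo.cls_comp (H : Herm) (a : F3 → ℝ) (g : GLw) (b : F3) : ∃ γ ∈ Γ.G,
    Γ.cls H a ∘ γ = Γ.cls (H.fr g) fun p => a ((gbar g).mulVec p + b) := by
  obtain ⟨γ, hγ, h⟩ := Γ.aff g b
  refine ⟨γ, hγ, funext fun c => ?_⟩
  obtain ⟨h1, h2⟩ := h c
  have e1 : Γ.q (γ c) = fun l => Γ.q c (vm l g) := funext h1
  have e2 : ∑ p, a p * Γ.m (γ c) p = ∑ p, a ((gbar g).mulVec p + b) * Γ.m c p := by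
    rw [← (aff_bij g b).sum_comp fun p => a p * Γ.m (γ c) p]
    exact Finset.sum_congr rfl fun p _ => by rw [h2]
  simp only [Function.comp_apply, Geo.cls, fr_apply, e1, e2]

theorem AbsMain_aux_line (F : F3 → ℝ) (κ : ℝ) :
    ∑ p : F3, F p * (if p 1 = 0 ∧ p 2 = 0 then κ else 0) =
      κ * ∑ τ : ZMod 3, F (Pi.single 0 τ) := by
  have h1 : (Finset.univ.filter fun p : F3 => p 1 = 0 ∧ p 2 = 0) =
      Finset.univ.image fun τ : ZMod 3 => (Pi.single 0 τ : F3) := by decide +kernel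
  have h2 : Function.Injective fun τ : ZMod 3 => (Pi.single 0 τ : F3) :=
    Pi.single_injective (M := fun _ : Fin 3 => ZMod 3) 0
  simp only [mul_ite, mul_zero]
  rw [← Finset.sum_filter, h1, Finset.sum_image fun x _ y _ h => h2 h, Finset.mul_sum]
  exact Finset.sum_congr rfl fun τ _ => mul_comm _ _

theorem AbsMain_aux_tf (H : Herm) (g : GLw) {q : Lam → ℝ} {κ : ℝ}
    (hq : ∀ l, q l = κ * nm (l 0)) : H.fr g q = κ * H (tf g) := by
  rw [fr_apply]
  have : (fun l => q (vm l g)) = κ • tf g := funext fun l => by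
    rw [hq]; rfl
  rw [this, map_smul, smul_eq_mul]

/-- From `test1`, `test2` and `cls_comp`. -/
theorem Geo.pp_of_nef {H : Herm} {a : F3 → ℝ} (h : ∀ c, 0 ≤ Γ.cls H a c) : PP H a := by
  refine ⟨fun p => ?_, fun g b => ?_⟩
  · obtain ⟨c, κ, hκ, h1, h2⟩ := Γ.test2 p
    have h3 := h c
    have e1 : Γ.q c = 0 := funext h1
    simp only [Geo.cls, e1, map_zero, h2, mul_ite, mul_zero, Finset.sum_ite_eq', Finset.mem_univ,
      if_true] at h3
    by_contra hn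
    push Not at hn
    nlinarith
  · obtain ⟨γ, -, hγ⟩ := Γ.cls_comp H a g b
    obtain ⟨c, κ, hκ, h1, h2⟩ := Γ.test1
    have h3 := h (γ c)
    have h4 := congrFun hγ c
    rw [Function.comp_apply] at h4
    rw [h4] at h3
    simp only [Geo.cls, h2] at h3
    rw [AbsMain_aux_line (fun p => a ((gbar g).mulVec p + b)) κ, AbsMain_aux_tf H g h1,
      ← mul_sub] at h3
    have h5 := nonneg_of_mul_nonneg_right h3 hκ
    linarith

theorem AbsMain_aux_adm_zero : Adm 0 :=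
  ⟨0, Fin.elim0, Fin.elim0, fun i => i.elim0, fun q _ => by simp, fun i => i.elim0⟩

theorem AbsMain_aux_adm_add {H H' : Herm} (h : Adm H) (h' : Adm H') : Adm (H + H') := by
  obtain ⟨n, r, Hi, h1, h2, h3⟩ := h
  obtain ⟨n', r', Hi', h1', h2', h3'⟩ := h'
  refine ⟨n + n', Fin.append r r', Fin.append Hi Hi', ?_, ?_, ?_⟩
  · intro i
    refine Fin.addCases (fun i => ?_) (fun i => ?_) i
    · rw [Fin.append_left]; exact h1 i
    · rw [Fin.append_right]; exact h1' i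
  · intro q hq
    rw [Fin.sum_univ_add, LinearMap.add_apply, h2 q hq, h2' q hq]
    simp only [Fin.append_left, Fin.append_right]
  · intro i
    refine Fin.addCases (fun i => ?_) (fun i => ?_) i
    · rw [Fin.append_left]; exact h3 i
    · rw [Fin.append_right]; exact h3' i

theorem AbsMain_aux_adm_smul {H : Herm} (h : Adm H) {t : ℝ} (ht : 0 ≤ t) : Adm (t • H) := by
  obtain ⟨n, r, Hi, h1, h2, h3⟩ := h
  refine ⟨n, fun i => t * r i, Hi, fun i => mul_nonneg ht (h1 i), ?_, h3⟩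
  intro q hq
  rw [LinearMap.smul_apply, h2 q hq, smul_eq_mul, Finset.mul_sum]
  exact Finset.sum_congr rfl fun i _ => (mul_assoc _ _ _).symm

theorem AbsMain_aux_cls_add (H H' : Herm) (a a' : F3 → ℝ) :
    Γ.cls (H + H') (a + a') = Γ.cls H a + Γ.cls H' a' := by
  funext c
  simp only [Geo.cls, LinearMap.add_apply, Pi.add_apply, add_mul, Finset.sum_add_distrib]
  ring

theorem AbsMain_aux_cls_smul (t : ℝ) (H : Herm) (a : F3 → ℝ) :
    Γ.cls (t • H) (t • a) = t • Γ.cls H a := by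
  funext c
  simp only [Geo.cls, LinearMap.smul_apply, Pi.smul_apply, smul_eq_mul, mul_sub, Finset.mul_sum,
    mul_assoc]

theorem AbsMain_aux_eff {d : C → ℝ} (hd : d ∈ Γ.Eff) : ∃ H a, Adm H ∧ d = Γ.cls H a := by
  obtain ⟨N, n, l, a, hN, h⟩ := Γ.gen d (Γ.eff_sub d hd)
  have hN' : (0 : ℝ) < N := Nat.cast_pos.2 hN
  have hd0 : d = Γ.cls ((N : ℝ)⁻¹ • Hc l fun j => (n j : ℝ)) ((N : ℝ)⁻¹ • fun p => (a p : ℝ)) := by
    rw [AbsMain_aux_cls_smul]
    funext c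
    rw [Pi.smul_apply, Geo.cls, Hc_apply, ← h c, smul_eq_mul, ← mul_assoc,
      inv_mul_cancel₀ hN'.ne', one_mul]
  refine ⟨_, _, ?_, hd0⟩
  refine AbsMain_aux_adm_smul ?_ (inv_nonneg.2 hN'.le)
  refine ⟨1, fun _ => 1, fun _ => Hc l fun j => (n j : ℝ), fun _ => zero_le_one,
    fun q _ => by simp, fun _ => ⟨fun g => ?_, fun q _ hq => ?_⟩⟩
  · obtain ⟨γ, hγ, e⟩ := Γ.cls_comp ((N : ℝ)⁻¹ • Hc l fun j => (n j : ℝ))
      ((N : ℝ)⁻¹ • fun p => (a p : ℝ)) g 0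
    rw [← hd0] at e
    obtain ⟨c, κ, hκ, h1, h2, h3⟩ := Γ.test3 _ (Γ.G_eff γ hγ d hd)
    rw [e] at h3
    simp only [Geo.cls, h2, mul_zero, Finset.sum_const_zero, sub_zero] at h3
    rw [AbsMain_aux_tf _ g h1, LinearMap.smul_apply, smul_eq_mul] at h3
    exact nonneg_of_mul_nonneg_right (nonneg_of_mul_nonneg_right h3 hκ) (inv_pos.2 hN')
  · choose z hz using hq
    refine ⟨∑ j, n j * z (l j), ?_⟩
    rw [Hc_apply]
    push_cast
    exact Finset.sum_congr rfl fun j _ => by rw [hz]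

/-- From `gen`, `test3` (applied to `d ∘ γ`) and `cls_comp`. -/
theorem Geo.adm_of_eff {d : C → ℝ} (hd : d ∈ Submodule.span NNReal Γ.Eff) :
    ∃ H a, Adm H ∧ d = Γ.cls H a := by
  induction hd using Submodule.span_induction with
  | mem x hx => exact AbsMain_aux_eff Γ hx
  | zero =>
    refine ⟨0, 0, AbsMain_aux_adm_zero, funext fun c => ?_⟩
    simp [Geo.cls]
  | add x y _ _ hx hy =>
    obtain ⟨H, a, h1, rfl⟩ := hx
    obtain ⟨H', a', h1', rfl⟩ := hy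
    exact ⟨H + H', a + a', AbsMain_aux_adm_add h1 h1', (AbsMain_aux_cls_add Γ H H' a a').symm⟩
  | smul t x _ hx =>
    obtain ⟨H, a, h1, rfl⟩ := hx
    exact ⟨(t : ℝ) • H, (t : ℝ) • a, AbsMain_aux_adm_smul h1 t.2,
      (AbsMain_aux_cls_smul Γ t H a).symm⟩

theorem AbsMain_aux_smul_mem {V : Type} [AddCommGroup V] [Module ℝ V] (A : Submodule NNReal V)
    {t : ℝ} (ht : 0 ≤ t) {x : V} (hx : x ∈ A) : t • x ∈ A :=
  A.smul_mem (⟨t, ht⟩ : NNReal) hx

theorem Geo.mem_cone {H : Herm} {a : F3 → ℝ} (hH : Adm H) (h : PP H a) : Γ.cls H a ∈ Γ.cone := by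
  refine ⟨?_, fun c => sub_nonneg.2 (nef_ineq hH h (Γ.ax c))⟩
  obtain ⟨n, y, l, τ, hy, hl, h1, h2⟩ := decomp3 hH h
  have e : Γ.cls H a = ∑ j, y j • (fun c => Γ.q c (l j) - ∑ p with dotb (l j) p = τ j, Γ.m c p) +
      ∑ p, (∑ j with dotb (l j) p = τ j, y j - a p) • fun c => Γ.m c p := by
    funext c
    have e1 : ∑ j, y j * ∑ p with dotb (l j) p = τ j, Γ.m c p =
        ∑ p, (∑ j with dotb (l j) p = τ j, y j) * Γ.m c p := by
      simp only [Finset.sum_filter, Finset.mul_sum, Finset.sum_mul]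
      rw [Finset.sum_comm]
      refine Finset.sum_congr rfl fun p _ => Finset.sum_congr rfl fun j _ => ?_
      split_ifs <;> simp
    simp only [Geo.cls, h1 _ (Γ.ax c).qf, Pi.add_apply, Finset.sum_apply, Pi.smul_apply,
      smul_eq_mul, mul_sub, sub_mul, Finset.sum_sub_distrib, e1]
    ring
  rw [e]
  refine Submodule.add_mem _ (Submodule.sum_mem _ fun j _ => ?_) (Submodule.sum_mem _ fun p _ => ?_)
  · refine AbsMain_aux_smul_mem _ (hy j) (Submodule.subset_span (Γ.s_mem _ _ ?_))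
    obtain ⟨g, hg⟩ := hl j
    rw [← hg]
    exact row_bar_ne g 2
  · exact AbsMain_aux_smul_mem _ (sub_nonneg.2 (h2 p)) (Submodule.subset_span (Γ.e_mem p))

theorem AbsMain_aux_orth {ι κ : Type} [Fintype ι] [Finite κ] (φ : κ → (ι → ℝ) →ₗ[ℝ] ℝ)
    (hφ : ∀ i (x : ι → ℝ), (∀ j, ∃ z : ℤ, x j = z) → ∃ z : ℤ, φ i x = z) :
    ∃ S : Finset (ι → ℝ), (∀ x ∈ S, ∀ j, ∃ z : ℤ, x j = z) ∧ ∀ x,
      x ∈ Submodule.span NNReal (S : Set (ι → ℝ)) ↔ (∀ j, 0 ≤ x j) ∧ ∀ i, 0 ≤ φ i x := by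
  classical
  let Λ : AddSubgroup (ι → ℝ) :=
    { carrier := {x | ∀ j, ∃ z : ℤ, x j = z}
      add_mem' := by
        intro x y hx hy j
        obtain ⟨z, hz⟩ := hx j
        obtain ⟨w, hw⟩ := hy j
        exact ⟨z + w, by rw [Pi.add_apply, hz, hw]; push_cast; rfl⟩
      zero_mem' := fun _ => ⟨0, by simp⟩
      neg_mem' := by
        intro x hx j
        obtain ⟨z, hz⟩ := hx j
        exact ⟨-z, by rw [Pi.neg_apply, hz]; push_cast; rfl⟩ }
  obtain ⟨S, hS, h⟩ := dd_fin Λ (Finset.univ.image fun j : ι => (Pi.single j 1 : ι → ℝ)) (by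
    intro x hx j
    obtain ⟨i, -, rfl⟩ := Finset.mem_image.1 hx
    by_cases e : j = i
    · exact ⟨1, by simp [e]⟩
    · exact ⟨0, by simp [e]⟩) φ hφ
  refine ⟨S, hS, fun x => ?_⟩
  rw [h]
  refine and_congr_left' ⟨fun hx => ?_, fun hx => ?_⟩
  · induction hx using Submodule.span_induction with
    | mem x hx =>
      obtain ⟨i, -, rfl⟩ := Finset.mem_image.1 (Finset.mem_coe.1 hx)
      intro j
      by_cases e : j = i <;> simp [e]
    | zero => exact fun _ => le_rfl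
    | add x y _ _ hx hy => exact fun j => add_nonneg (hx j) (hy j)
    | smul t x _ hx => exact fun j => mul_nonneg t.2 (hx j)
  · have e : x = ∑ j, x j • (Pi.single j 1 : ι → ℝ) := by
      funext i
      simp [Finset.sum_apply, Pi.single_apply]
    rw [e]
    refine Submodule.sum_mem _ fun j _ => AbsMain_aux_smul_mem _ (hx j) (Submodule.subset_span ?_)
    exact Finset.mem_coe.2 (Finset.mem_image.2 ⟨j, Finset.mem_univ _, rfl⟩)

theorem AbsMain_aux_sys {n : ℕ} (f : Fin n → Lam) (P : F3 → Prop) [DecidablePred P]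
    (Q : F3 → Fin n → Prop) :
    ∃ S : Finset (Fin n ⊕ F3 → ℝ), (∀ x ∈ S, ∀ j, ∃ z : ℤ, x j = z) ∧ ∀ x,
      x ∈ Submodule.span NNReal (S : Set (Fin n ⊕ F3 → ℝ)) ↔ (∀ k, 0 ≤ x (Sum.inl k)) ∧
        (∀ p, 0 ≤ x (Sum.inr p)) ∧ ∀ (d b : F3) (k₀ : Fin n), Q d k₀ →
          ∑ τ : ZMod 3, x (Sum.inr (τ • d + b)) ≤
            ∑ k with dotb (f k) d ≠ 0, x (Sum.inl k) + if P d then 3 * x (Sum.inl k₀) else 0 := by
  let φ : {t : F3 × F3 × Fin n // Q t.1 t.2.2} → (Fin n ⊕ F3 → ℝ) →ₗ[ℝ] ℝ := fun t =>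
    (∑ k with dotb (f k) t.1.1 ≠ 0, LinearMap.proj (Sum.inl k) +
      if P t.1.1 then (3 : ℝ) • LinearMap.proj (Sum.inl t.1.2.2) else 0) -
      ∑ τ : ZMod 3, LinearMap.proj (Sum.inr (τ • t.1.1 + t.1.2.1))
  have hφ : ∀ t x, φ t x = (∑ k with dotb (f k) t.1.1 ≠ 0, x (Sum.inl k) +
      if P t.1.1 then 3 * x (Sum.inl t.1.2.2) else 0) -
      ∑ τ : ZMod 3, x (Sum.inr (τ • t.1.1 + t.1.2.1)) := by
    intro t x
    simp only [φ, LinearMap.sub_apply, LinearMap.add_apply, LinearMap.sum_apply,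
      LinearMap.proj_apply]
    split_ifs <;> simp
  obtain ⟨S, hS, h⟩ := AbsMain_aux_orth φ (by
    intro t x hx
    choose z hz using hx
    refine ⟨(∑ k with dotb (f k) t.1.1 ≠ 0, z (Sum.inl k) +
      if P t.1.1 then 3 * z (Sum.inl t.1.2.2) else 0) -
      ∑ τ : ZMod 3, z (Sum.inr (τ • t.1.1 + t.1.2.1)), ?_⟩
    rw [hφ]
    simp only [hz]
    push_cast
    rfl)
  refine ⟨S, hS, fun x => ?_⟩
  rw [h]
  constructor
  · rintro ⟨h1, h2⟩
    refine ⟨fun k => h1 _, fun p => h1 _, fun d b k₀ hq => ?_⟩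
    have h3 := h2 ⟨(d, b, k₀), hq⟩
    rw [hφ] at h3
    exact sub_nonneg.1 h3
  · rintro ⟨h1, h2, h3⟩
    refine ⟨fun j => ?_, fun t => ?_⟩
    · rcases j with k | p
      · exact h1 k
      · exact h2 p
    · rw [hφ]
      exact sub_nonneg.2 (h3 _ _ _ t.2)

theorem AbsMain_aux_U {n : ℕ} (f : Fin n → Lam) (Fn : (Fin n → ℝ) → (F3 → ℝ) → Prop)
    (S : Finset (Fin n ⊕ F3 → ℝ)) (hS : ∀ x ∈ S, ∀ j, ∃ z : ℤ, x j = z)
    (h : ∀ x, x ∈ Submodule.span NNReal (S : Set (Fin n ⊕ F3 → ℝ)) ↔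
      (∀ k, 0 ≤ x (Sum.inl k)) ∧ Fn (fun k => x (Sum.inl k)) fun p => x (Sum.inr p))
    (hpp : ∀ c a, (∀ k, 0 ≤ c k) → Fn c a → PP (Hc f c) a) :
    ∃ U : Finset (C → ℝ), (∀ u ∈ U, u ∈ Γ.Cart ∧ u ∈ Γ.cone) ∧ ∀ c a, (∀ k, 0 ≤ c k) → Fn c a →
      Γ.cls (Hc f c) a ∈ Submodule.span NNReal (U : Set (C → ℝ)) := by
  classical
  let T : (Fin n ⊕ F3 → ℝ) → C → ℝ := fun x =>
    Γ.cls (Hc f fun k => x (Sum.inl k)) fun p => x (Sum.inr p)
  have hT : ∀ x, T x = ∑ k, x (Sum.inl k) • (fun c => Γ.q c (f k)) -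
      ∑ p, x (Sum.inr p) • fun c => Γ.m c p := by
    intro x
    funext c
    simp only [T, Geo.cls, Hc_apply, Pi.sub_apply, Finset.sum_apply, Pi.smul_apply, smul_eq_mul]
  refine ⟨S.image T, ?_, ?_⟩
  · intro u hu
    obtain ⟨x, hx, rfl⟩ := Finset.mem_image.1 hu
    obtain ⟨h1, h2⟩ := (h x).1 (Submodule.subset_span hx)
    refine ⟨?_, Γ.mem_cone (adm_Hc f _ h1) (hpp _ _ h1 h2)⟩
    rw [hT]
    choose z hz using hS x hx
    refine Γ.Cart.sub_mem (Γ.Cart.sum_mem fun k _ => ?_) (Γ.Cart.sum_mem fun p _ => ?_)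
    · rw [hz, Int.cast_smul_eq_zsmul]
      exact Γ.Cart.zsmul_mem (Γ.z_mem _) _
    · rw [hz, Int.cast_smul_eq_zsmul]
      exact Γ.Cart.zsmul_mem (Γ.eff_sub _ (Γ.e_mem p)) _
  · intro c a hc hF
    have hx : Sum.elim c a ∈ Submodule.span NNReal (S : Set (Fin n ⊕ F3 → ℝ)) :=
      (h _).2 ⟨hc, hF⟩
    have key : ∀ x ∈ Submodule.span NNReal (S : Set (Fin n ⊕ F3 → ℝ)),
        T x ∈ Submodule.span NNReal ((S.image T : Finset (C → ℝ)) : Set (C → ℝ)) := by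
      intro x hx
      induction hx using Submodule.span_induction with
      | mem x hx =>
        exact Submodule.subset_span (Finset.mem_coe.2 (Finset.mem_image_of_mem T hx))
      | zero =>
        have e : T 0 = 0 := by rw [hT]; simp
        rw [e]; exact Submodule.zero_mem _
      | add x y _ _ hx hy =>
        have e : T (x + y) = T x + T y := by
          simp only [hT, Pi.add_apply, add_smul, Finset.sum_add_distrib]
          abel
        rw [e]; exact Submodule.add_mem _ hx hy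
      | smul t x _ hx =>
        have e : T (t • x) = (t : ℝ) • T x := by
          simp only [hT, Pi.smul_apply, smul_sub, Finset.smul_sum, smul_smul, NNReal.smul_def,
            smul_eq_mul]
        rw [e]; exact AbsMain_aux_smul_mem _ t.2 hx
    exact key _ hx

theorem AbsMain_aux_dir : ∀ d : F3, d ≠ 0 → (∃ k, dotb (f1 k) d ≠ 0) ∨ (d 0 = 0 ∧ d 1 = 0) := by
  decide +kernel

theorem AbsMain_aux_fin1 (p : F3) : Fin1 (fun _ => 3) (Pi.single p 1) := by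
  have h0 : ∀ p' : F3, 0 ≤ (Pi.single p 1 : F3 → ℝ) p' := fun p' => by
    by_cases e : p' = p <;> simp [e]
  have h1 : ∀ p' : F3, (Pi.single p 1 : F3 → ℝ) p' ≤ 1 := fun p' => by
    by_cases e : p' = p <;> simp [e]
  refine ⟨h0, fun d b k₀ hd => ?_⟩
  have h2 : ∑ τ : ZMod 3, (Pi.single p 1 : F3 → ℝ) (τ • d + b) ≤ 3 := by
    refine (Finset.sum_le_sum fun τ _ => h1 _).trans ?_
    simp
  refine h2.trans ?_
  have h3 : (0 : ℝ) ≤ ∑ k with dotb (f1 k) d ≠ 0, (3 : ℝ) :=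
    Finset.sum_nonneg fun _ _ => by norm_num
  rcases AbsMain_aux_dir d hd with ⟨k, hk⟩ | hk
  · have h4 : (3 : ℝ) ≤ ∑ k with dotb (f1 k) d ≠ 0, (3 : ℝ) :=
      Finset.single_le_sum (f := fun _ => (3 : ℝ)) (fun _ _ => by norm_num)
        (Finset.mem_filter.2 ⟨Finset.mem_univ k, hk⟩)
    split_ifs <;> linarith
  · rw [if_pos hk]
    linarith

theorem AbsMain_aux_fin1z (c : Fin 9 → ℝ) (hc : ∀ k, 0 ≤ c k) : Fin1 c 0 := by
  refine ⟨fun _ => le_rfl, fun d b k₀ _ => ?_⟩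
  have h3 : (0 : ℝ) ≤ ∑ k with dotb (f1 k) d ≠ 0, c k := Finset.sum_nonneg fun k _ => hc k
  have h4 := hc k₀
  simp only [Pi.zero_apply, Finset.sum_const_zero]
  split_ifs <;> linarith

theorem AbsMain_aux_le {V : Type} [AddCommGroup V] [Module ℝ V] (s : Set V) {x : V}
    (hx : x ∈ Submodule.span NNReal s) : x ∈ Submodule.span ℝ s :=
  Submodule.span_le_restrictScalars NNReal ℝ s hx

/-- The cones of `Fin0`, `Fin1` in `(c, a)`-space are finitely generated by integral points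
(`dd_fin`, starting from the orthant); add the points `(e k, 0)` and `(1, e p)` of type 1, which
span. -/
theorem Geo.exists_U : ∃ U : Finset (C → ℝ), (∀ u ∈ U, u ∈ Γ.Cart ∧ u ∈ Γ.cone) ∧
    (∀ d ∈ Γ.Cart, d ∈ Submodule.span ℝ (U : Set (C → ℝ))) ∧
    ∀ d ∈ Γ.cone, ∃ g ∈ Γ.G, d ∘ g ∈ Submodule.span NNReal (U : Set (C → ℝ)) := by
  classical
  obtain ⟨S0, hS0, h0⟩ := AbsMain_aux_sys f0 (fun d => d 2 = 0)
    fun d k₀ => d ≠ 0 ∧ (d 2 = 0 → dotb (f0 k₀) d = 0)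
  obtain ⟨S1, hS1, h1⟩ := AbsMain_aux_sys f1 (fun d => d 0 = 0 ∧ d 1 = 0) fun d _ => d ≠ 0
  obtain ⟨U0, hU0, k0⟩ := AbsMain_aux_U Γ f0 Fin0 S0 hS0 (fun x => by
    rw [h0]
    refine and_congr_right' (and_congr_right' ?_)
    exact ⟨fun h d b k₀ a1 a2 => h d b k₀ ⟨a1, a2⟩, fun h d b k₀ a1 => h d b k₀ a1.1 a1.2⟩)
    fun c a hc h => pp_of_fin0 hc h
  obtain ⟨U1, hU1, k1⟩ := AbsMain_aux_U Γ f1 Fin1 S1 hS1 (fun x => by rw [h1]; rfl)
    fun c a hc h => pp_of_fin1 hc h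
  have hs0 : (U0 : Set (C → ℝ)) ⊆ ((U0 ∪ U1 : Finset (C → ℝ)) : Set (C → ℝ)) :=
    Finset.coe_subset.2 Finset.subset_union_left
  have hs1 : (U1 : Set (C → ℝ)) ⊆ ((U0 ∪ U1 : Finset (C → ℝ)) : Set (C → ℝ)) :=
    Finset.coe_subset.2 Finset.subset_union_right
  refine ⟨U0 ∪ U1, ?_, ?_, ?_⟩
  · intro u hu
    rcases Finset.mem_union.1 hu with hu | hu
    · exact hU0 u hu
    · exact hU1 u hu
  · intro d hd
    refine Submodule.span_mono hs1 ?_
    set W := Submodule.span ℝ (U1 : Set (C → ℝ)) with hW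
    have hz : ∀ c : Fin 9 → ℝ, (∀ k, 0 ≤ c k) → (fun x => ∑ k, c k * Γ.q x (f1 k)) ∈ W := by
      intro c hc
      have h2 := AbsMain_aux_le _ (k1 c 0 hc (AbsMain_aux_fin1z c hc))
      have e : Γ.cls (Hc f1 c) 0 = fun x => ∑ k, c k * Γ.q x (f1 k) := by
        funext x
        simp [Geo.cls, Hc_apply]
      rwa [e] at h2
    have hz1 : ∀ k, (fun x => Γ.q x (f1 k)) ∈ W := by
      intro k
      have h2 := hz (Pi.single k 1) fun j => by by_cases e : j = k <;> simp [e]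
      simpa [Pi.single_apply] using h2
    have hq : ∀ l, (fun x => Γ.q x l) ∈ W := by
      intro l
      obtain ⟨c, hc⟩ := exists_coef1 l
      have e : (fun x => Γ.q x l) = ∑ k, c k • fun x => Γ.q x (f1 k) := by
        funext x
        rw [hc _ (Γ.ax x).qf]
        simp [Finset.sum_apply]
      rw [e]
      exact W.sum_mem fun k _ => W.smul_mem _ (hz1 k)
    have hm : ∀ p, (fun x => Γ.m x p) ∈ W := by
      intro p
      have h2 := AbsMain_aux_le _ (k1 _ _ (fun _ => by norm_num) (AbsMain_aux_fin1 p))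
      have h3 := W.sub_mem (hz (fun _ => 3) fun _ => by norm_num) h2
      have e : (fun x => ∑ k, (3 : ℝ) * Γ.q x (f1 k)) -
          Γ.cls (Hc f1 fun _ => 3) (Pi.single p 1) = fun x => Γ.m x p := by
        funext x
        simp [Geo.cls, Hc_apply, Pi.single_apply]
      rwa [e] at h3
    obtain ⟨N, n, l, a, hN, h⟩ := Γ.gen d hd
    have hN' : (N : ℝ) ≠ 0 := Nat.cast_ne_zero.2 hN.ne'
    have e : d = (N : ℝ)⁻¹ • (∑ j, (n j : ℝ) • (fun x => Γ.q x (l j)) -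
        ∑ p, (a p : ℝ) • fun x => Γ.m x p) := by
      funext x
      simp only [Pi.smul_apply, Pi.sub_apply, Finset.sum_apply, smul_eq_mul]
      rw [← h x, ← mul_assoc, inv_mul_cancel₀ hN', one_mul]
    rw [e]
    exact W.smul_mem _ (W.sub_mem (W.sum_mem fun j _ => W.smul_mem _ (hq _))
      (W.sum_mem fun p _ => W.smul_mem _ (hm p)))
  · intro d hd
    obtain ⟨H, a, hH, rfl⟩ := Γ.adm_of_eff hd.1
    have hpp := Γ.pp_of_nef hd.2
    obtain ⟨g, hg⟩ := voronoi3 hH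
    obtain ⟨γ, hγ, e⟩ := Γ.cls_comp H a g 0
    refine ⟨γ, hγ, ?_⟩
    rw [e]
    have hpp' := hpp.fr g 0
    have hcongr : ∀ H' : Herm, (∀ q, IsQF q → H.fr g q = H' q) →
        ∀ a', Γ.cls (H.fr g) a' = Γ.cls H' a' := by
      intro H' h a'
      funext x
      simp only [Geo.cls, h _ (Γ.ax x).qf]
    rcases hg with ⟨c, hc, h⟩ | ⟨c, hc, h⟩
    · rw [hcongr _ h]
      exact Submodule.span_mono hs0
        (k0 c _ hc (fin0_of_pp (hpp'.congr fun q hq => (h q hq).symm)))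
    · rw [hcongr _ h]
      exact Submodule.span_mono hs1
        (k1 c _ hc (fin1_of_pp (hpp'.congr fun q hq => (h q hq).symm)))

theorem Geo.main : ∃ S : Finset (C → ℝ), (∀ d ∈ S, d ∈ Γ.Cart) ∧
    (∀ d, d ∈ Γ.cone ↔ ∃ g ∈ Γ.G, ∃ e ∈ Submodule.span NNReal (S : Set (C → ℝ)), d = e ∘ g) ∧
    ∀ g ∈ Γ.G, (∃ d ∈ Submodule.span ℝ (Γ.Cart : Set (C → ℝ)), d ∘ g ≠ d) → ∀ x,
      Absorb (Submodule.span ℝ (Γ.Cart : Set (C → ℝ))) (Submodule.span NNReal (S : Set (C → ℝ))) x →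
      ¬ Absorb (Submodule.span ℝ (Γ.Cart : Set (C → ℝ)))
        {d | ∃ e ∈ Submodule.span NNReal (S : Set (C → ℝ)), d = e ∘ g} x := by
  obtain ⟨U, hU, hspan, hcov⟩ := Γ.exists_U
  refine dirichlet Γ.Cart Γ.int Γ.G Γ.G_cart Γ.cone (fun d hd => hd.2) ?_ U hU hspan hcov
  intro g hg d hd
  refine ⟨?_, fun c => hd.2 (g c)⟩
  have h1 : d ∈ Submodule.span NNReal Γ.Eff := hd.1
  clear hd
  induction h1 using Submodule.span_induction with
  | mem x hx => exact Submodule.subset_span (Γ.G_eff g hg x hx)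
  | zero => exact Submodule.zero_mem _
  | add x y _ _ hx hy => exact Submodule.add_mem _ hx hy
  | smul t x _ hx => exact Submodule.smul_mem _ t hx

end Pool.Agent.MP_95da86_ag
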