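import Pool.Agent.MP_95da86_ag.QFA

/-! Invariant quadratic forms on `ℤ[ω] ^ 3`. -/

namespace Pool.Agent.MP_95da86_ag

variable {q q' : Lam → ℝ}

theorem IsQF.zero (h : IsQF q) : q 0 = 0 := by
  have := h.par 0 0
  rw [add_zero, sub_zero] at this
  linarith

theorem IsQF.neg (h : IsQF q) (a : Lam) : q (-a) = q a := by
  have := h.par 0 a
  rw [zero_add, zero_sub, h.zero] at this
  linarith

theorem IsQF.add (h : IsQF q) (h' : IsQF q') : IsQF (q + q') :=
  ⟨fun a b => by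
    simp only [Pi.add_apply]
    linarith [h.par a b, h'.par a b],
   fun a => by simp only [Pi.add_apply, h.rot, h'.rot]⟩

theorem IsQF.sub (h : IsQF q) (h' : IsQF q') : IsQF (q - q') :=
  ⟨fun a b => by
    simp only [Pi.sub_apply]
    linarith [h.par a b, h'.par a b],
   fun a => by simp only [Pi.sub_apply, h.rot, h'.rot]⟩

theorem IsQF.const_smul (h : IsQF q) (c : ℝ) : IsQF (c • q) :=
  ⟨fun a b => by
    simp only [Pi.smul_apply, smul_eq_mul]
    linear_combination c * h.par a b,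
   fun a => by simp only [Pi.smul_apply, h.rot]⟩

theorem isQF_sum {ι : Type} (s : Finset ι) (f : ι → Lam → ℝ) (h : ∀ i ∈ s, IsQF (f i)) :
    IsQF (∑ i ∈ s, f i) :=
  Finset.sum_induction f IsQF (fun _ _ ha hb => ha.add hb) ⟨fun _ _ => by simp, fun _ => rfl⟩ h

theorem IsQF.comp_vm (h : IsQF q) (g : GLw) : IsQF fun l => q (vm l g) :=
  ⟨fun a b => by simp only [vm, Matrix.add_vecMul, Matrix.sub_vecMul, h.par],
   fun a => by simp only [vm, Matrix.smul_vecMul, h.rot]⟩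

theorem QF_aux_three (h : IsQF q) (a b c : Lam) :
    q (a + b + c) + q a + q b + q c = q (a + b) + q (a + c) + q (b + c) := by
  have e₁ := h.par (a + c) b
  have e₂ := h.par (b + c) a
  have e₃ := h.par (a - b) c
  have e₄ := h.par a b
  have e₅ := h.neg (a - b - c)
  rw [show a + c + b = a + b + c by abel, show a + c - b = a - b + c by abel] at e₁
  rw [show b + c + a = a + b + c by abel, show b + c - a = -(a - b - c) by abel] at e₂
  linarith

/-- The polar form. -/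
def QF_aux_B (h : IsQF q) : Lam →+ Lam →+ ℝ :=
  AddMonoidHom.mk' (fun a => AddMonoidHom.mk' (fun b => q (a + b) - q a - q b) fun b c => by
    rw [← add_assoc]
    linarith [QF_aux_three h a b c]) fun a b => by
      refine AddMonoidHom.ext fun c => ?_
      simp only [AddMonoidHom.mk'_apply, AddMonoidHom.add_apply]
      linarith [QF_aux_three h a b c]

theorem QF_aux_B_def (h : IsQF q) (a b : Lam) : QF_aux_B h a b = q (a + b) - q a - q b := rfl

theorem QF_aux_B_comm (h : IsQF q) (a b : Lam) : QF_aux_B h a b = QF_aux_B h b a := by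
  rw [QF_aux_B_def, QF_aux_B_def, add_comm a b]
  ring

theorem QF_aux_B_self (h : IsQF q) (a : Lam) : QF_aux_B h a a = 2 * q a := by
  have := h.par a a
  rw [sub_self, h.zero] at this
  rw [QF_aux_B_def]
  linarith

theorem QF_aux_B_om (h : IsQF q) (a b : Lam) : QF_aux_B h (om • a) (om • b) = QF_aux_B h a b := by
  rw [QF_aux_B_def, QF_aux_B_def, ← smul_add, h.rot, h.rot, h.rot]

theorem QF_aux_dec (x : Zw) (a : Lam) : x • a = x.re • a + x.im • (om • a) := by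
  funext i
  simp only [Pi.smul_apply, Pi.add_apply, smul_eq_mul]
  ext <;> simp [om] <;> ring

theorem QF_aux_B_om' (h : IsQF q) (a b : Lam) :
    QF_aux_B h (om • a) b = -QF_aux_B h a b - QF_aux_B h a (om • b) := by
  have e : om • om • a = -a - om • a := by
    funext i
    simp only [Pi.smul_apply, Pi.sub_apply, Pi.neg_apply, smul_eq_mul]
    ext <;> simp [om]
    ring
  rw [← QF_aux_B_om h (om • a) b, e, map_sub, map_neg, AddMonoidHom.sub_apply,
    AddMonoidHom.neg_apply, QF_aux_B_om]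
  ring

theorem QF_aux_B_smul (h : IsQF q) (x y : Zw) (a b : Lam) :
    QF_aux_B h (x • a) (y • b) =
      ((star x * y).re : ℝ) * QF_aux_B h a b + ((star x * y).im : ℝ) * QF_aux_B h a (om • b) := by
  rw [QF_aux_dec x a, QF_aux_dec y b]
  simp only [map_add, map_zsmul, AddMonoidHom.add_apply, AddMonoidHom.smul_apply]
  simp only [zsmul_eq_mul (α := ℝ), QF_aux_B_om, QF_aux_B_om' h a b, QuadraticAlgebra.re_mul,
    QuadraticAlgebra.im_mul, QuadraticAlgebra.re_star, QuadraticAlgebra.im_star]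
  push_cast
  ring

theorem IsQF.smul (h : IsQF q) (a : Zw) (l : Lam) : q (a • l) = nm a * q l := by
  have e := QF_aux_B_smul h a a l l
  have e₁ : (star a * a).re = nm a := by
    simp only [QuadraticAlgebra.re_mul, QuadraticAlgebra.re_star, QuadraticAlgebra.im_star, nm]
    ring
  have e₂ : (star a * a).im = 0 := by
    simp only [QuadraticAlgebra.im_mul, QuadraticAlgebra.re_star, QuadraticAlgebra.im_star]
    ring
  rw [QF_aux_B_self, QF_aux_B_self, e₁, e₂, Int.cast_zero] at e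
  linarith

theorem QF_aux_vec (i : Fin 9) : IsQF fun l => (vec l i : ℝ) := by
  constructor
  · intro a b
    fin_cases i <;> simp [vec, nm] <;> ring
  · intro a
    fin_cases i <;> simp [vec, nm, om] <;> ring

theorem isQF_tf (g : GLw) : IsQF (tf g) := (QF_aux_vec 0).comp_vm g

theorem isQF_qf (γ : List ℤ) : IsQF fun l => (qf γ l : ℝ) := by
  have e := isQF_sum Finset.univ (fun i : Fin 9 => (γ.getD i 0 : ℝ) • fun l => (vec l i : ℝ))
    fun i _ => (QF_aux_vec i).const_smul _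
  convert e using 1
  funext l
  simp only [qf, Finset.sum_apply, Pi.smul_apply, smul_eq_mul, Int.cast_sum, Int.cast_mul]

/-- Coordinates: the polar form `B a b = q (a + b) - q a - q b` is biadditive and
`B (ω a) (ω b) = B a b`; take `γ = (q e₀, q e₁, q e₂, B e₀ e₁, B e₀ (ω e₁), ...)`. -/
theorem IsQF.coords (h : IsQF q) : ∃ γ : Fin 9 → ℝ, ∀ l, q l = ∑ i, γ i * vec l i := by
  let e : Fin 3 → Lam := fun i => Pi.single i 1
  refine ⟨![q (e 0), q (e 1), q (e 2), QF_aux_B h (e 0) (e 1), QF_aux_B h (e 0) (om • e 1),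
    QF_aux_B h (e 0) (e 2), QF_aux_B h (e 0) (om • e 2), QF_aux_B h (e 1) (e 2),
    QF_aux_B h (e 1) (om • e 2)], fun l => ?_⟩
  have d : l = l 0 • e 0 + l 1 • e 1 + l 2 • e 2 := by
    funext i
    fin_cases i <;> simp [e]
  have e₀ := QF_aux_three h (l 0 • e 0) (l 1 • e 1) (l 2 • e 2)
  have e₁ := QF_aux_B_smul h (l 0) (l 1) (e 0) (e 1)
  have e₂ := QF_aux_B_smul h (l 0) (l 2) (e 0) (e 2)
  have e₃ := QF_aux_B_smul h (l 1) (l 2) (e 1) (e 2)
  rw [← d] at e₀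
  rw [QF_aux_B_def h (_ • _) (_ • _)] at e₁ e₂ e₃
  simp only [h.smul] at e₀ e₁ e₂ e₃
  simp only [vec, Fin.sum_univ_succ, Matrix.cons_val_zero, Matrix.cons_val_succ, Fin.sum_univ_zero]
  linarith

theorem IsQF.rel (h : IsQF q) {ι : Type} (s : Finset ι) (n : ι → ℤ) (l : ι → Lam)
    (hrel : ∑ j ∈ s, n j • vec (l j) = 0) : ∑ j ∈ s, n j * q (l j) = 0 := by
  obtain ⟨γ, hγ⟩ := h.coords
  simp only [hγ, Finset.mul_sum]
  rw [Finset.sum_comm]
  refine Finset.sum_eq_zero fun i _ => ?_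
  have e := congrArg (fun v : Fin 9 → ℤ => (v i : ℝ)) hrel
  simp only [Finset.sum_apply, Pi.smul_apply, smul_eq_mul, Int.cast_sum, Int.cast_mul,
    Pi.zero_apply, Int.cast_zero] at e
  rw [← mul_zero (γ i), ← e, Finset.mul_sum]
  exact Finset.sum_congr rfl fun j _ => by ring

theorem QF_aux_coef {n : ℕ} (f : Fin n → Lam) (N : Fin 9 → Fin n → ℤ) (D : ℤ) (hD : D ≠ 0)
    (hN : ∀ i j, ∑ k, N i k * vec (f k) j = if i = j then D else 0) (l : Lam) :
    ∃ c : Fin n → ℝ, ∀ q, IsQF q → q l = ∑ k, c k * q (f k) := by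
  refine ⟨fun k => (∑ i, vec l i * N i k : ℤ) / D, fun q h => ?_⟩
  obtain ⟨γ, hγ⟩ := h.coords
  have hD' : (D : ℝ) ≠ 0 := Int.cast_ne_zero.2 hD
  have e : ∀ j, ∑ k, (∑ i, vec l i * N i k) * vec (f k) j = vec l j * D := fun j => by
    simp only [Finset.sum_mul, mul_assoc]
    rw [Finset.sum_comm]
    simp only [← Finset.mul_sum, hN, mul_ite, mul_zero, Finset.sum_ite_eq', Finset.mem_univ,
      if_true]
  simp only [hγ, Finset.mul_sum]
  rw [Finset.sum_comm]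
  refine Finset.sum_congr rfl fun j _ => ?_
  have e' := congrArg (fun z : ℤ => (z : ℝ)) (e j)
  simp only [Int.cast_mul] at e'
  rw [Int.cast_sum] at e'
  simp only [Int.cast_mul] at e'
  rw [show γ j * vec l j = γ j / D * (vec l j * D) by field_simp, ← e', Finset.mul_sum]
  exact Finset.sum_congr rfl fun k _ => by field_simp

/-- A left inverse for the first table. -/
def QF_aux_N0 (i : Fin 9) (k : Fin 12) : ℤ :=
  (([[0, 0, 0, 1, 0, 0, 0, 0, 0, 0, 0, 0], [1, 0, 0, 0, 0, 0, 0, 0, 0, 0, 0, 0],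
    [1, 1, 0, 0, -1, 0, -1, 0, 0, 1, 1, 0], [-1, 0, 0, -1, 0, 0, 1, 0, 0, 0, 0, 0],
    [0, 0, 0, 0, 0, 0, -1, 0, 0, 1, 0, 0], [0, 0, -1, 2, 0, 0, -1, 0, 0, 1, 1, 0],
    [0, -1, 0, -1, 0, 0, 1, 1, 0, -1, 0, 0], [-2, 0, 0, 0, 1, 0, 1, 0, 0, -1, -1, 0],
    [1, 0, 0, 1, 0, 0, -1, -1, 0, 0, 1, 0]] : List (List ℤ)).getD i []).getD k 0

/-- Twice a left inverse for the second table. -/
def QF_aux_N1 (i : Fin 9) (k : Fin 9) : ℤ :=
  (([[1, -1, 1, 1, 1, -1, 1, 1, -1], [4, -2, 4, 0, 0, 0, 0, 0, 0], [2, 0, 0, 0, 0, 0, 0, 0, 0],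
    [4, -2, 4, 2, 0, -2, 2, 0, -2], [0, 0, 0, -2, 2, 0, -2, 2, 0],
    [3, -1, 1, 1, -1, -1, 1, 1, -1], [0, 0, 0, -2, 2, 0, 0, 0, 0], [6, -2, 2, 0, 0, 0, 0, 0, 0],
    [-3, 1, -1, -1, 1, -1, 1, -1, 1]] : List (List ℤ)).getD i []).getD k 0

theorem QF_aux_inv0 : ∀ i j, ∑ k, QF_aux_N0 i k * vec (f0 k) j = if i = j then 1 else 0 := by
  decide +kernel

theorem QF_aux_inv1 : ∀ i j, ∑ k, QF_aux_N1 i k * vec (f1 k) j = if i = j then 2 else 0 := by
  decide +kernel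

theorem IsQF.ext0 (h : IsQF q) (h0 : ∀ k, q (f0 k) = 0) (l : Lam) : q l = 0 := by
  obtain ⟨c, hc⟩ := QF_aux_coef f0 QF_aux_N0 1 one_ne_zero QF_aux_inv0 l
  simp only [hc q h, h0, mul_zero, Finset.sum_const_zero]

theorem IsQF.ext1 (h : IsQF q) (h0 : ∀ k, q (f1 k) = 0) (l : Lam) : q l = 0 := by
  obtain ⟨c, hc⟩ := QF_aux_coef f1 QF_aux_N1 2 two_ne_zero QF_aux_inv1 l
  simp only [hc q h, h0, mul_zero, Finset.sum_const_zero]

theorem QF_aux_vec2 : vec (f2 0) = ![0, 1, 0, 0, 0, 0, 0, 0, 0] ∧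
    vec (f2 1) = ![1, 0, 0, 0, 0, 0, 0, 0, 0] ∧ vec (f2 2) = ![1, 1, 0, 1, 0, 0, 0, 0, 0] ∧
    vec (f2 3) = ![1, 1, 0, 1, 1, 0, 0, 0, 0] := by decide +kernel

theorem IsQF.ext2 (h : IsQF q) (h2 : ∀ l, q l = q (Function.update l 2 0))
    (h0 : ∀ k, q (f2 k) = 0) (l : Lam) : q l = 0 := by
  obtain ⟨γ, hγ⟩ := h.coords
  obtain ⟨v₀, v₁, v₂, v₃⟩ := QF_aux_vec2
  have e₀ := h0 0
  have e₁ := h0 1
  have e₂ := h0 2
  have e₃ := h0 3
  rw [hγ, v₀] at e₀
  rw [hγ, v₁] at e₁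
  rw [hγ, v₂] at e₂
  rw [hγ, v₃] at e₃
  simp [Fin.sum_univ_succ] at e₀ e₁ e₂ e₃
  have g₃ : γ 3 = 0 := by linarith
  have g₄ : γ 4 = 0 := by linarith
  rw [h2, hγ]
  simp [Fin.sum_univ_succ, vec, nm, e₀, e₁, g₃, g₄]

theorem qf_q2_update (l : Lam) : qf q2 (Function.update l 2 0) = qf q2 l := by
  simp [qf, q2, Fin.sum_univ_succ, vec]

/-- An isotropic vector of a positive semidefinite form lies in the radical. -/
theorem IsQF.radical (h : IsQF q) (hn : ∀ l, 0 ≤ q l) {v : Lam} (hv : q v = 0) (l : Lam) (a : Zw) :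
    q (l + a • v) = q l := by
  have hu : q (a • v) = 0 := by rw [h.smul, hv, mul_zero]
  generalize a • v = u at hu
  have e : ∀ n : ℤ, 0 ≤ q l + n * QF_aux_B h l u := fun n => by
    have e₁ := QF_aux_B_def h l (n • u)
    have e₂ := QF_aux_B_self h (n • u)
    rw [map_zsmul, map_zsmul, AddMonoidHom.smul_apply, QF_aux_B_self, hu, mul_zero, smul_zero,
      smul_zero] at e₂
    rw [map_zsmul, zsmul_eq_mul] at e₁
    have e₃ := hn (l + n • u)
    linarith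
  have e₀ : QF_aux_B h l u = 0 := by
    by_contra c
    obtain ⟨n, hn'⟩ := exists_nat_gt (q l / |QF_aux_B h l u|)
    rw [div_lt_iff₀ (abs_pos.2 c)] at hn'
    have e₁ := e n
    have e₂ := e (-n)
    push_cast at e₁ e₂
    rcases abs_cases (QF_aux_B h l u) with ⟨t, -⟩ | ⟨t, -⟩ <;> rw [t] at hn' <;> linarith
  rw [QF_aux_B_def, hu] at e₀
  linarith

/-- Every form is a combination of the values at the nine forms of type 1. -/
theorem exists_coef1 (l : Lam) : ∃ c : Fin 9 → ℝ, ∀ q, IsQF q → q l = ∑ k, c k * q (f1 k) :=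
  QF_aux_coef f1 QF_aux_N1 2 two_ne_zero QF_aux_inv1 l

theorem Hc_apply {n : ℕ} (f : Fin n → Lam) (c : Fin n → ℝ) (q : Lam → ℝ) :
    Hc f c q = ∑ k, c k * q (f k) := by
  simp only [Hc, LinearMap.sum_apply, LinearMap.smul_apply, LinearMap.proj_apply, smul_eq_mul]

theorem fr_apply (H : Herm) (g : GLw) (q : Lam → ℝ) : H.fr g q = H fun l => q (vm l g) := rfl

theorem QF_aux_tf (g g' : GLw) : (fun l => tf g' (vm l g)) = tf (g * g') := by
  funext l
  simp only [tf, vm_mul]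

theorem adm_Hc {n : ℕ} (f : Fin n → Lam) (c : Fin n → ℝ) (hc : ∀ k, 0 ≤ c k) : Adm (Hc f c) :=
  ⟨n, c, fun i => LinearMap.proj (f i), hc, fun q _ => Hc_apply f c q, fun i =>
    ⟨fun g => Int.cast_nonneg (nm_nonneg (vm (f i) g 0)), fun _ _ hq => hq (f i)⟩⟩

theorem Adm.fr {H : Herm} (h : Adm H) (g : GLw) : Adm (H.fr g) := by
  obtain ⟨n, r, Hi, h₁, h₂, h₃⟩ := h
  refine ⟨n, r, fun i => (Hi i).fr g, h₁, fun q hq => h₂ _ (hq.comp_vm g), fun i =>
    ⟨fun g' => ?_, fun q hq hi => (h₃ i).2 _ (hq.comp_vm g) fun l => hi _⟩⟩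
  rw [fr_apply, QF_aux_tf]
  exact (h₃ i).1 _

theorem Adm.congr {H H' : Herm} (h : Adm H) (e : ∀ q, IsQF q → H' q = H q) : Adm H' := by
  obtain ⟨n, r, Hi, h₁, h₂, h₃⟩ := h
  exact ⟨n, r, Hi, h₁, fun q hq => (e q hq).trans (h₂ q hq), h₃⟩

theorem PP.fr {H : Herm} {a : F3 → ℝ} (h : PP H a) (g : GLw) (b : F3) :
    PP (H.fr g) fun p => a ((gbar g).mulVec p + b) := by
  refine ⟨fun p => h.1 _, fun g' b' => ?_⟩
  have e := h.2 (g * g') ((gbar g).mulVec b' + b)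
  rw [fr_apply, QF_aux_tf]
  simpa only [Matrix.mulVec_add, Matrix.mulVec_mulVec, gbar_mul, add_assoc] using e

theorem PP.congr {H H' : Herm} {a : F3 → ℝ} (h : PP H a) (e : ∀ q, IsQF q → H' q = H q) :
    PP H' a :=
  ⟨h.1, fun g b => (h.2 g b).trans (e _ (isQF_tf g)).ge⟩

theorem CurveAx.fr {m : F3 → ℝ} (h : CurveAx q m) (g : GLw) (b : F3) :
    CurveAx (fun l => q (vm l g⁻¹)) fun p => m ((gbar g).mulVec p + b) := by
  refine ⟨h.qf.comp_vm _, fun l => h.nonneg _, ?_⟩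
  rcases h.alt with ⟨h₁, h₂⟩ | ⟨h₁, h₂, h₃⟩
  · exact Or.inl ⟨fun l => h₁ _, fun p => h₂ _⟩
  refine Or.inr ⟨fun p => h₁ _, fun h₀ p => h₂ (fun l => ?_) _, fun l hl => ?_⟩
  · have e := h₀ (vm l g)
    rwa [← vm_mul, mul_inv_cancel, vm_one] at e
  obtain ⟨τ₀, hτ⟩ := h₃ (vm l g⁻¹) (bar_vm_ne hl _)
  refine ⟨τ₀ - dotb (vm l g⁻¹) b, fun τ ht => ?_⟩
  have e := hτ (τ + dotb (vm l g⁻¹) b) (ht.imp_left fun c c' => c (eq_sub_of_add_eq c'))
  refine le_of_eq_of_le ?_ e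
  refine Finset.sum_bijective _ (aff_bij g b) (fun p => ?_) fun _ _ => rfl
  simp only [Finset.mem_filter, Finset.mem_univ, true_and]
  rw [dotb_add, ← dotb_vm, ← vm_mul, inv_mul_cancel, vm_one, add_left_inj]

end Pool.Agent.MP_95da86_ag
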