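import Pool.Agent.MP_95da86_ag.Ord

/-! Transport of structure along isomorphisms of models. -/

namespace Pool.Agent.MP_95da86_ag

variable {M M' : Type} [Field M] [Algebra ℂ M] [Field M'] [Algebra ℂ M'] (g : M ≃ₐ[ℂ] M')
  {Y : Set (Pt M)} {Y' : Set (Pt M')} {f : Pt M → Mˣ}

theorem exists_resEquiv (ξ : Pt M) : ∃ e : RF ξ ≃ₐ[ℂ] RF (mapPt g ξ),
    ∀ a : M, e (res ξ a) = res (mapPt g ξ) (g a) := by
  refine ⟨IsLocalRing.ResidueField.mapAlgEquiv (S := ξ.1) (T := (mapPt g ξ).1)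
    (g.subalgebraMap ξ.1), fun a => ?_⟩
  by_cases h : a ∈ ξ.1
  · have h' : g a ∈ (mapPt g ξ).1 := mem_mapPt.2 (by simpa using h)
    rw [res_of_mem h, res_of_mem h']
    rfl
  · have h' : g a ∉ (mapPt g ξ).1 := fun h' => h (by simpa using mem_mapPt.1 h')
    rw [res_of_not_mem h, res_of_not_mem h', map_zero]
theorem trdeg_mapPt (ξ : Pt M) :
    Algebra.trdeg ℂ (RF (mapPt g ξ)) = Algebra.trdeg ℂ (RF ξ) := by
  obtain ⟨e, -⟩ := exists_resEquiv g ξ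
  exact e.trdeg_eq.symm
theorem coe_act (f : Pt M → Mˣ) (O : Pt M') : (act g f O : M') = g (f (mapPt g.symm O) : M) := rfl

theorem Transport_aux_mem {O : Pt M} {a : M} : g a ∈ (mapPt g O).1 ↔ a ∈ O.1 := by
  rw [mem_mapPt, g.symm_apply_apply]

theorem Transport_aux_div (f : Pt M → Mˣ) (O O' : Pt M) :
    ((act g f (mapPt g O) / act g f (mapPt g O') : M'ˣ) : M') = g ((f O / f O' : Mˣ) : M) := by
  rw [Units.val_div_eq_div_val, Units.val_div_eq_div_val, coe_act, coe_act, mapPt_symm_mapPt,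
    mapPt_symm_mapPt, map_div₀]

theorem Transport_aux_surj (O : Pt M') : ∃ O₀, O = mapPt g O₀ := ⟨_, (mapPt_mapPt_symm g O).symm⟩

theorem Transport_aux_inj {O O' : Pt M} (h : mapPt g O = mapPt g O') : O = O' := by
  rw [← mapPt_symm_mapPt g O, h, mapPt_symm_mapPt]

theorem IsCartier.to_act (hY : ∀ O, mapPt g O ∈ Y' ↔ O ∈ Y) (hf : IsCartier Y f) :
    IsCartier Y' (act g f) := by
  classical
  intro O hO
  obtain ⟨O, rfl⟩ := Transport_aux_surj g O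
  obtain ⟨S, hS, h⟩ := hf O ((hY O).1 hO)
  refine ⟨S.image g, ?_, fun O' hO' hS' => ?_⟩
  · intro a ha
    obtain ⟨b, hb, rfl⟩ := Finset.mem_image.1 (Finset.mem_coe.1 ha)
    exact (Transport_aux_mem g).2 (hS hb)
  · obtain ⟨O', rfl⟩ := Transport_aux_surj g O'
    have h1 := h O' ((hY O').1 hO') fun b hb =>
      (Transport_aux_mem g).1 (hS' (Finset.mem_coe.2 (Finset.mem_image_of_mem g hb)))
    rw [Transport_aux_div, Transport_aux_div, Transport_aux_mem, Transport_aux_mem]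
    exact h1
theorem eff_act (hY : ∀ O, mapPt g O ∈ Y' ↔ O ∈ Y) (hf : ∀ O ∈ Y, (f O : M) ∈ O.1) :
    ∀ O ∈ Y', (act g f O : M') ∈ O.1 := by
  intro O hO
  obtain ⟨O, rfl⟩ := Transport_aux_surj g O
  rw [coe_act, mapPt_symm_mapPt, Transport_aux_mem]
  exact hf O ((hY O).1 hO)

theorem Transport_aux_branch (hY : ∀ O, mapPt g O ∈ Y' ↔ O ∈ Y) (ξ : Pt M)
    (e : RF ξ ≃ₐ[ℂ] RF (mapPt g ξ)) (he : ∀ a : M, e (res ξ a) = res (mapPt g ξ) (g a))
    (O : Pt M) (V : ValuationSubring (RF ξ)) (V' : ValuationSubring (RF (mapPt g ξ)))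
    (hV : ∀ a, e a ∈ V' ↔ a ∈ V) :
    (mapPt g O, V') ∈ branch Y' (mapPt g ξ) ↔ (O, V) ∈ branch Y ξ := by
  have hn : ∀ a, e a ∈ V'.nonunits ↔ a ∈ V.nonunits := fun a => by
    rw [ValuationSubring.mem_nonunits_iff_or, ValuationSubring.mem_nonunits_iff_or, ← map_inv₀, hV,
      map_eq_zero_iff e e.injective]
  have h2 : (mapPt g O).1 ≤ (mapPt g ξ).1 ↔ O.1 ≤ ξ.1 :=
    ⟨fun h a ha => (Transport_aux_mem g).1 (h ((Transport_aux_mem g).2 ha)),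
      fun h a ha => mem_mapPt.2 (h (mem_mapPt.1 ha))⟩
  have h3 : V' ≠ ⊤ ↔ V ≠ ⊤ := by
    refine not_congr ⟨fun h => ?_, fun h => ?_⟩
    · refine eq_top_iff.2 fun a _ => (hV a).1 ?_
      rw [h]; exact ValuationSubring.mem_top _
    · refine eq_top_iff.2 fun a _ => ?_
      obtain ⟨a, rfl⟩ := e.surjective a
      rw [hV, h]; exact ValuationSubring.mem_top _
  have h4 : (∀ a ∈ (mapPt g O).1, res (mapPt g ξ) a ∈ V') ↔ ∀ a ∈ O.1, res ξ a ∈ V := by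
    refine ⟨fun h a ha => ?_, fun h a ha => ?_⟩
    · rw [← hV, he]; exact h _ ((Transport_aux_mem g).2 ha)
    · obtain ⟨a, rfl⟩ := g.surjective a
      rw [← he, hV]; exact h _ ((Transport_aux_mem g).1 ha)
  have h5 : (∀ a ∈ mx (mapPt g O), res (mapPt g ξ) a ∈ V'.nonunits) ↔
      ∀ a ∈ mx O, res ξ a ∈ V.nonunits := by
    refine ⟨fun h a ha => ?_, fun h a ha => ?_⟩
    · rw [← hn, he]; exact h _ (mem_mx_mapPt.2 (by simpa using ha))
    · obtain ⟨a, rfl⟩ := g.surjective a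
      rw [← he, hn]; exact h _ (by simpa using mem_mx_mapPt.1 ha)
  exact and_congr (hY O) (and_congr h2 (and_congr h3 (and_congr h4 h5)))

/-- The map sending the pair `O, V` to `g O, e V` is a bijection of the sets of branches, see `finsum_mem_eq_of_bijOn`,
`ord_equiv`. -/
theorem deg_act (hY : ∀ O, mapPt g O ∈ Y' ↔ O ∈ Y) (f : Pt M → Mˣ) (ξ : Pt M) :
    deg Y' (act g f) (mapPt g ξ) = deg Y f ξ := by
  obtain ⟨e, he⟩ := exists_resEquiv g ξ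
  let φ : Pt M × ValuationSubring (RF ξ) → Pt M' × ValuationSubring (RF (mapPt g ξ)) :=
    fun p => (mapPt g p.1, p.2.comap (e.symm : RF (mapPt g ξ) →+* RF ξ))
  have hφ : ∀ (V : ValuationSubring (RF ξ)) a,
      e a ∈ V.comap (e.symm : RF (mapPt g ξ) →+* RF ξ) ↔ a ∈ V := fun V a => by
    rw [ValuationSubring.mem_comap]; simp
  unfold deg
  symm
  refine finsum_mem_eq_of_bijOn φ ⟨fun p hp => ?_, fun p _ q _ h => ?_, fun q hq => ?_⟩
    fun p _ => ?_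
  · exact (Transport_aux_branch g hY ξ e he p.1 p.2 _ (hφ p.2)).2 hp
  · have h1 : mapPt g p.1 = mapPt g q.1 := congrArg Prod.fst h
    have h2 : p.2.comap (e.symm : RF (mapPt g ξ) →+* RF ξ) =
      q.2.comap (e.symm : RF (mapPt g ξ) →+* RF ξ) := congrArg Prod.snd h
    refine Prod.ext (Transport_aux_inj g h1) (ValuationSubring.ext _ _ fun a => ?_)
    rw [← hφ, h2, hφ]
  · obtain ⟨O, V'⟩ := q
    obtain ⟨O, rfl⟩ := Transport_aux_surj g O
    refine ⟨(O, V'.comap (e : RF ξ →+* RF (mapPt g ξ))),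
      (Transport_aux_branch g hY ξ e he O _ V' fun a => Iff.rfl).1 hq, Prod.ext rfl ?_⟩
    refine ValuationSubring.ext _ _ fun a => ?_
    obtain ⟨a, rfl⟩ := e.surjective a
    exact hφ _ a
  · change _ = ord (p.2.comap (e.symm : RF (mapPt g ξ) →+* RF ξ))
      (res (mapPt g ξ) ((act g f (mapPt g p.1) / act g f (mapPt g ξ) : M'ˣ) : M'))
    rw [Transport_aux_div, ← he]
    exact (ord_equiv e.toRingEquiv p.2 _ (hφ p.2) _).symm

theorem isAut_iff {g : M ≃ₐ[ℂ] M} : IsAut Y g ↔ ∀ O, mapPt g O ∈ Y ↔ O ∈ Y := by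
  refine ⟨fun h O => h _ _ rfl, fun h O O' hO => ?_⟩
  have : O = mapPt g O' := Subtype.ext hO
  rw [this]; exact h O'

theorem Transport_aux_mul (g h : M ≃ₐ[ℂ] M) (O : Pt M) :
    mapPt (g * h) O = mapPt g (mapPt h O) :=
  Subtype.ext (Subalgebra.ext fun a => by
    rw [mem_mapPt, mem_mapPt, mem_mapPt]; rfl)

theorem Transport_aux_one (O : Pt M) : mapPt (1 : M ≃ₐ[ℂ] M) O = O :=
  Subtype.ext (Subalgebra.ext fun a => by rw [mem_mapPt]; rfl)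

theorem Transport_aux_symm {g : M ≃ₐ[ℂ] M} (hg : IsAut Y g) : IsAut Y g.symm :=
  isAut_iff.2 fun O => by rw [← isAut_iff.1 hg, mapPt_mapPt_symm]

/-- The permutations of the curves induced by automorphisms. -/
def autG (Y : Set (Pt M)) : Subgroup (Equiv.Perm (Curve Y)) where
  carrier := {π | ∃ g, IsAut Y g ∧ ∀ ξ : Curve Y, ξ.1 = mapPt g (π ξ).1}
  mul_mem' := by
    rintro π σ ⟨g, hg, hπ⟩ ⟨h, hh, hσ⟩
    refine ⟨h * g, isAut_iff.2 fun O => ?_, fun ξ => ?_⟩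
    · rw [Transport_aux_mul, isAut_iff.1 hh, isAut_iff.1 hg]
    · rw [Transport_aux_mul, Equiv.Perm.mul_apply, ← hπ, ← hσ]
  one_mem' := ⟨1, isAut_iff.2 fun O => by rw [Transport_aux_one], fun ξ => by
    rw [Transport_aux_one]; rfl⟩
  inv_mem' := by
    rintro π ⟨g, hg, hπ⟩
    refine ⟨g.symm, Transport_aux_symm hg, fun ξ => ?_⟩
    rw [hπ (π⁻¹ ξ), mapPt_symm_mapPt]
    simp

theorem IsAut.exists_perm {g : M ≃ₐ[ℂ] M} (hg : IsAut Y g) :
    ∃ π : Equiv.Perm (Curve Y), ∀ ξ : Curve Y, ξ.1 = mapPt g (π ξ).1 := by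
  refine ⟨⟨fun ξ => ⟨mapPt g.symm ξ.1, (isAut_iff.1 (Transport_aux_symm hg) _).2 ξ.2.1,
      (trdeg_mapPt g.symm ξ.1).trans ξ.2.2⟩,
    fun ξ => ⟨mapPt g ξ.1, (isAut_iff.1 hg _).2 ξ.2.1, (trdeg_mapPt g ξ.1).trans ξ.2.2⟩,
    fun ξ => Subtype.ext (mapPt_mapPt_symm g ξ.1),
    fun ξ => Subtype.ext (mapPt_symm_mapPt g ξ.1)⟩, fun ξ => (mapPt_mapPt_symm g ξ.1).symm⟩
theorem pull_iff {g : M ≃ₐ[ℂ] M} {π : Equiv.Perm (Curve Y)}
    (hπ : ∀ ξ : Curve Y, ξ.1 = mapPt g (π ξ).1) (d e : N1 Y) : Pull g d e ↔ e.1 = d.1 ∘ π := by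
  refine ⟨fun h => funext fun ξ => h ξ (π ξ) (congrArg Subtype.val (hπ ξ)), fun h ξ ξ' hξ => ?_⟩
  have h1 : ξ.1 = mapPt g ξ'.1 := Subtype.ext hξ
  have h2 : π ξ = ξ' := Subtype.ext (Transport_aux_inj g ((hπ ξ).symm.trans h1))
  rw [h, Function.comp_apply, h2]
theorem classes_comp {π : Equiv.Perm (Curve Y)} (hπ : π ∈ autG Y) {d : Curve Y → ℝ}
    (hd : d ∈ classes Y) : d ∘ π ∈ classes Y := by
  obtain ⟨g, hg, hπ⟩ := hπ
  obtain ⟨f, hf, hd⟩ := hd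
  refine ⟨act g f, hf.to_act g (isAut_iff.1 hg), fun ξ => ?_⟩
  rw [Function.comp_apply, hd, ← deg_act g (isAut_iff.1 hg), ← hπ]
theorem effClasses_comp {π : Equiv.Perm (Curve Y)} (hπ : π ∈ autG Y) {d : Curve Y → ℝ}
    (hd : d ∈ effClasses Y) : d ∘ π ∈ effClasses Y := by
  obtain ⟨g, hg, hπ⟩ := hπ
  obtain ⟨f, hf, he, hd⟩ := hd
  refine ⟨act g f, hf.to_act g (isAut_iff.1 hg), eff_act g (isAut_iff.1 hg) he, fun ξ => ?_⟩
  rw [Function.comp_apply, hd, ← deg_act g (isAut_iff.1 hg), ← hπ]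

end Pool.Agent.MP_95da86_ag
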