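import Pool.Agent.MP_95da86_ag.Form
import Pool.Agent.MP_95da86_ag.Transport
import Pool.Agent.MP_95da86_ag.QF

/-! The affine automorphisms on numerical data. -/

namespace Pool.Agent.MP_95da86_ag

variable {L : Type} [Field L] [Algebra ℂ L] {P : Fin 3 → EP L} {σ : L ≃ₐ[ℂ] L}

theorem exists_restrict (γ : L ≃ₐ[ℂ] L) (hγ : ∀ f, γ (σ f) = σ (γ f)) :
    ∃ γK : KK σ ≃ₐ[ℂ] KK σ, (∀ f : KK σ, (γK f : L) = γ f) ∧
      ∀ O, mapPt γK (qpt (KK σ) O) = qpt (KK σ) (mapPt γ O) := by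
  have h1 : ∀ f : KK σ, γ f ∈ KK σ := fun f => mem_KK.2 (by rw [← hγ, mem_KK.1 f.2])
  have h2 : ∀ f : KK σ, γ.symm f ∈ KK σ := fun f => mem_KK.2 (γ.injective (by
    rw [hγ, AlgEquiv.apply_symm_apply, mem_KK.1 f.2]))
  let γK : KK σ ≃ₐ[ℂ] KK σ :=
    { toFun := fun f => ⟨γ f, h1 f⟩
      invFun := fun f => ⟨γ.symm f, h2 f⟩
      left_inv := fun f => Subtype.ext (γ.symm_apply_apply f)
      right_inv := fun f => Subtype.ext (γ.apply_symm_apply f)
      map_mul' := fun f g => Subtype.ext (map_mul γ (f : L) g)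
      map_add' := fun f g => Subtype.ext (map_add γ (f : L) g)
      commutes' := fun c => Subtype.ext (γ.commutes c) }
  refine ⟨γK, fun f => rfl, fun O => Subtype.ext (Subalgebra.ext fun f => ?_)⟩
  rw [mem_mapPt, mem_qpt, mem_qpt, mem_mapPt]
  rfl

theorem Aff_aux_act_zq {M M' : Type} [Field M] [Algebra ℂ M] [Field M'] [Algebra ℂ M']
    (g : M ≃ₐ[ℂ] M') (y : M) : act g (zq y) = zq (g y) := by
  funext O
  apply Units.ext
  rw [coe_act]
  have hm : y ∈ (mapPt g.symm O).1 ↔ g y ∈ O.1 := by rw [mem_mapPt, AlgEquiv.symm_symm]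
  by_cases hy : g y ∈ O.1
  · rw [zq_of_mem hy, zq_of_mem (hm.2 hy)]; simp
  · rw [zq_of_not_mem hy, zq_of_not_mem (fun h => hy (hm.1 h)), map_inv₀]

theorem Aff_aux_lin (P : Fin 3 → EP L) (g : GLw) (b : F3) (l : Lam) :
    lin l (fun i => lin (g.val i) P + tors L (b i)) = lin (vm l g) P + tors L (dotb l b) := by
  rw [← lin_tors]
  simp only [lin, smul_add, Finset.sum_add_distrib, vm, Matrix.vecMul, dotProduct, Finset.sum_smul,
    Finset.smul_sum, mul_smul]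
  rw [Finset.sum_comm]

theorem Aff_aux_fix (h : Cfg P σ) (l : Lam) (τ : ZMod 3) :
    σ (yc (lin l P - tors L τ)) = yc (lin l P - tors L τ) := by
  have := congrArg yc (h.map_lin l τ)
  rw [yc_emap, yc_om] at this
  exact this

theorem Aff_aux_dom {M M' : Type} [Field M] [Algebra ℂ M] [Field M'] [Algebra ℂ M']
    (g : M ≃ₐ[ℂ] M') {O W : Pt M} (h : Dom O W) : Dom (mapPt g O) (mapPt g W) :=
  ⟨fun _ hf => mem_mapPt.2 (h.1 (mem_mapPt.1 hf)),
    fun _ hf => mem_mx_mapPt.2 (h.2 (mem_mx_mapPt.1 hf))⟩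

theorem Aff_aux_gen (h : Cfg P σ) {O : Pt L} (hO : O ∈ blP P σ) {p : F3} (hp : Over O P p) :
    ∃ Op ∈ cubeP P, Over Op P p ∧ Dom Op O ∧ ∃ r ∈ mx Op, r ≠ 0 ∧ ∀ g ∈ mx Op, g / r ∈ O.1 := by
  obtain ⟨Op, hOp, hpp, hd, ⟨i, hi⟩, -⟩ := h.bl_over hO hp
  refine ⟨Op, hOp, hpp, hd, sc (sh P p i), (hpp.sc_mem (cube_intg hOp) i).1,
    div_ne_zero ((h.gen.shift p).xc_ne i) ((h.gen.shift p).yc_ne i), fun f hf => ?_⟩
  obtain ⟨a, ha, rfl⟩ := over_gen hOp hpp hf
  rw [Finset.sum_div]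
  refine sum_mem fun j _ => ?_
  rw [mul_div_assoc]
  exact mul_mem (hd.1 (ha j)) (hi j)

/-- With `γ` from `exists_aff` and `η = γK (π η)`: `act γK (zX ℓ 0) = zX (ℓ g) (- ℓ b)`, and
`act γK (eX (g p + b))` differs from `eX p` by units (`eX_gen` with `r = γ (s i)`); use `deg_act`,
`deg_zX`, `degX_congr`. -/
theorem Cfg.aff (h : Cfg P σ) (g : GLw) (b : F3) : ∃ π ∈ autG (XP P σ), ∀ c,
    (∀ l, qX P σ (π c) l = qX P σ c (vm l g)) ∧
    ∀ p, mX P σ (π c) ((gbar g).mulVec p + b) = mX P σ c p := by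
  obtain ⟨γ, hP, hσ, hc, hb, hov⟩ := h.exists_aff g b
  obtain ⟨γK, hK, hq⟩ := exists_restrict γ hσ
  have hX : ∀ O', mapPt γK O' ∈ XP P σ ↔ O' ∈ XP P σ := by
    intro O'
    constructor
    · intro hO'
      obtain ⟨O, hO, e⟩ := mem_XP.1 hO'
      have hO1 : mapPt γ.symm O ∈ blP P σ := (hb _).1 (by rwa [mapPt_mapPt_symm])
      refine mem_XP.2 ⟨_, hO1, ?_⟩
      rw [← mapPt_symm_mapPt γK O', e, ← mapPt_symm_mapPt γK (qpt _ (mapPt γ.symm O)), hq,
        mapPt_mapPt_symm]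
    · intro hO'
      obtain ⟨O, hO, rfl⟩ := mem_XP.1 hO'
      rw [hq]
      exact mem_XP.2 ⟨_, (hb O).2 hO, rfl⟩
  have hA : IsAut (XP P σ) γK := isAut_iff.2 hX
  obtain ⟨π, hπ⟩ := hA.exists_perm
  refine ⟨π, ⟨γK, hA, hπ⟩, fun c => ⟨fun l => ?_, fun p => ?_⟩⟩
  · have e : act γK (zX P σ l 0) = zX P σ (vm l g) (-dotb l b) := by
      unfold zX
      rw [Aff_aux_act_zq]
      congr 1
      apply Subtype.ext
      rw [hK, coe_toK (Aff_aux_fix h _ _), coe_toK (Aff_aux_fix h _ _)]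
      have : emap (γ : L →ₐ[ℂ] L) (lin l P - tors L 0) = lin (vm l g) P - tors L (-dotb l b) := by
        rw [tors_zero, sub_zero, emap_lin, tors_neg, sub_neg_eq_add, ← Aff_aux_lin]
        exact congrArg (lin l) (funext hP)
      rw [← this, yc_emap]
      rfl
    rw [← h.deg_zX c (vm l g) (-dotb l b), ← e, hπ c, deg_act γK hX]
    rfl
  · unfold mX
    have hT : Triv (XP P σ) (act γK (eX P σ ((gbar g).mulVec p + b)) / eX P σ p) := by
      intro O' hO'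
      obtain ⟨O₀, hO₀, rfl⟩ := mem_XP.1 hO'
      obtain ⟨O, rfl⟩ : ∃ O, O₀ = mapPt γ O := ⟨mapPt γ.symm O₀, (mapPt_mapPt_symm γ O₀).symm⟩
      have hO : O ∈ blP P σ := (hb O).1 hO₀
      have e : ((((act γK (eX P σ ((gbar g).mulVec p + b)) / eX P σ p)
          (qpt (KK σ) (mapPt γ O)) : (KK σ)ˣ) : KK σ) : L) =
          γ (pull σ (eX P σ ((gbar g).mulVec p + b)) O : L) /
            (pull σ (eX P σ p) (mapPt γ O) : L) := by
        rw [Pi.div_apply, Units.val_div_eq_div_val, coe_act, coe_pull, coe_pull, ← hK]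
        conv_lhs => rw [← hq, mapPt_symm_mapPt, hq]
        push_cast
        rfl
      rw [isU_qpt, e]
      have hiff := hov O (h.bl_intg hO) p
      by_cases hp : Over O P ((gbar g).mulVec p + b)
      · obtain ⟨Op, hOp, hpp, hd, r, hr, hr0, hgen⟩ := Aff_aux_gen h hO hp
        have u1 := h.eX_gen hO hOp hpp hd hr hr0 hgen
        have u2 := h.eX_gen hO₀ ((hc Op).2 hOp) ((hov Op (cube_intg hOp) p).2 hpp)
          (Aff_aux_dom γ hd) (r := γ r) (mem_mx_mapPt.2 (by rwa [γ.symm_apply_apply]))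
          (by simpa using hr0) (fun f hf => mem_mapPt.2 (by
            rw [map_div₀, γ.symm_apply_apply]; exact hgen _ (mem_mx_mapPt.1 hf)))
        have u3 : IsU (mapPt γ O)
            (γ (pull σ (eX P σ ((gbar g).mulVec p + b)) O : L) / γ r ^ 3) := by
          rw [isU_mapPt, map_div₀, map_pow, γ.symm_apply_apply, γ.symm_apply_apply]
          exact u1
        have u4 := u3.div u2
        have hr3 : γ r ^ 3 ≠ 0 := pow_ne_zero _ (by simpa using hr0)
        rwa [div_div_div_cancel_right₀ hr3] at u4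
      · rw [h.pull_eX_not hp, h.pull_eX_not (fun h' => hp (hiff.1 h'))]
        simpa using isU_one _
    rw [← h.degX_congr c ((h.eX_cartier _).to_act γK hX) (h.eX_cartier p) hT]
    conv_rhs => rw [hπ c, deg_act γK hX]

end Pool.Agent.MP_95da86_ag
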