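import Pool.Agent.MP_95da86_ag.EC

/-! Local subalgebras of a field: units, residues, domination, centres. -/

namespace Pool.Agent.MP_95da86_ag

open IsLocalRing

noncomputable section

variable {K K' : Type} [Field K] [Algebra ℂ K] [Field K'] [Algebra ℂ K']

/-- The residue field. -/
abbrev RF (O : Pt K) : Type := ResidueField O.1

/-- `f` is a unit of `O`. -/
def IsU (O : Pt K) (f : K) : Prop := f ≠ 0 ∧ f ∈ O.1 ∧ f⁻¹ ∈ O.1

lemma isUnit_iff_sub (A : Subalgebra ℂ K) (f : A) : IsUnit f ↔ (f : K) ≠ 0 ∧ (f : K)⁻¹ ∈ A := by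
  constructor
  · intro h
    obtain ⟨g, hg⟩ := h.exists_right_inv
    have hg' : (f : K) * g = 1 := by exact_mod_cast congrArg Subtype.val hg
    refine ⟨left_ne_zero_of_mul_eq_one hg', ?_⟩
    rw [← eq_inv_of_mul_eq_one_right hg']; exact g.2
  · rintro ⟨h0, h⟩
    exact IsUnit.of_mul_eq_one ⟨_, h⟩ (Subtype.ext (mul_inv_cancel₀ h0))

lemma isLocal_of (A : Subalgebra ℂ K)
    (h : ∀ f ∈ A, (f ≠ 0 ∧ f⁻¹ ∈ A) ∨ (1 - f ≠ 0 ∧ (1 - f)⁻¹ ∈ A)) : IsLocalRing A :=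
  IsLocalRing.of_isUnit_or_isUnit_one_sub_self fun f => by
    rcases h f f.2 with h | h
    · exact Or.inl ((isUnit_iff_sub A f).2 h)
    · exact Or.inr ((isUnit_iff_sub A _).2 h)

lemma mem_mx {O : Pt K} {f : K} : f ∈ mx O ↔ f ∈ O.1 ∧ ¬ IsU O f := by
  constructor
  · rintro ⟨g, hg, rfl⟩
    refine ⟨g.2, fun h => ?_⟩
    exact (mem_maximalIdeal _).1 hg ((isUnit_iff_sub _ g).2 ⟨h.1, h.2.2⟩)
  · rintro ⟨h1, h2⟩
    exact ⟨⟨f, h1⟩, (mem_maximalIdeal _).2 fun h =>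
      h2 ⟨((isUnit_iff_sub _ _).1 h).1, h1, ((isUnit_iff_sub _ _).1 h).2⟩, rfl⟩

lemma coe_mem_mx {O : Pt K} {f : O.1} : (f : K) ∈ mx O ↔ f ∈ maximalIdeal O.1 :=
  ⟨fun ⟨_, hg, e⟩ => Subtype.ext e ▸ hg, fun h => ⟨f, h, rfl⟩⟩

lemma mx_sub {O : Pt K} {f : K} (h : f ∈ mx O) : f ∈ O.1 := (mem_mx.1 h).1
lemma mx_or_isU {O : Pt K} {f : K} (h : f ∈ O.1) : f ∈ mx O ∨ IsU O f := by
  rw [mem_mx]; tauto
lemma isU_of_not_mx {O : Pt K} {f : K} (h : f ∈ O.1) (h' : f ∉ mx O) : IsU O f :=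
  (mx_or_isU h).resolve_left h'
lemma IsU.not_mx {O : Pt K} {f : K} (h : IsU O f) : f ∉ mx O := fun h' => (mem_mx.1 h').2 h
lemma zero_mem_mx (O : Pt K) : (0 : K) ∈ mx O := ⟨0, zero_mem _, rfl⟩
lemma isU_one (O : Pt K) : IsU O 1 := ⟨one_ne_zero, one_mem _, by simp⟩
lemma one_not_mem_mx (O : Pt K) : (1 : K) ∉ mx O := (isU_one O).not_mx
lemma IsU.mul {O : Pt K} {f g : K} (hf : IsU O f) (hg : IsU O g) : IsU O (f * g) :=
  ⟨mul_ne_zero hf.1 hg.1, mul_mem hf.2.1 hg.2.1, by rw [mul_inv]; exact mul_mem hf.2.2 hg.2.2⟩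
lemma IsU.inv {O : Pt K} {f : K} (hf : IsU O f) : IsU O f⁻¹ :=
  ⟨inv_ne_zero hf.1, hf.2.2, by rw [inv_inv]; exact hf.2.1⟩
lemma IsU.div {O : Pt K} {f g : K} (hf : IsU O f) (hg : IsU O g) : IsU O (f / g) := by
  rw [div_eq_mul_inv]; exact hf.mul hg.inv
lemma IsU.pow {O : Pt K} {f : K} (hf : IsU O f) (n : ℕ) : IsU O (f ^ n) :=
  ⟨pow_ne_zero _ hf.1, pow_mem hf.2.1 n, by rw [← inv_pow]; exact pow_mem hf.2.2 n⟩
lemma IsU.zpow {O : Pt K} {f : K} (hf : IsU O f) (n : ℤ) : IsU O (f ^ n) := by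
  rcases n with n | n
  · simpa using hf.pow n
  · rw [zpow_negSucc]; exact (hf.pow _).inv
lemma IsU.neg {O : Pt K} {f : K} (hf : IsU O f) : IsU O (-f) :=
  ⟨neg_ne_zero.2 hf.1, neg_mem hf.2.1, by rw [inv_neg]; exact neg_mem hf.2.2⟩
lemma IsU.mono {O O' : Pt K} (h : O.1 ≤ O'.1) {f : K} (hf : IsU O f) : IsU O' f :=
  ⟨hf.1, h hf.2.1, h hf.2.2⟩
lemma isU_const (O : Pt K) {c : ℂ} (hc : c ≠ 0) : IsU O (algebraMap ℂ K c) :=
  ⟨by simpa using hc, O.1.algebraMap_mem c, by rw [← map_inv₀]; exact O.1.algebraMap_mem _⟩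
lemma mx_add {O : Pt K} {f g : K} (hf : f ∈ mx O) (hg : g ∈ mx O) : f + g ∈ mx O := by
  obtain ⟨f, hf, rfl⟩ := hf; obtain ⟨g, hg, rfl⟩ := hg
  exact ⟨f + g, add_mem hf hg, rfl⟩
lemma mx_neg {O : Pt K} {f : K} (hf : f ∈ mx O) : -f ∈ mx O := by
  obtain ⟨f, hf, rfl⟩ := hf
  exact ⟨-f, neg_mem hf, rfl⟩
lemma mx_sub' {O : Pt K} {f g : K} (hf : f ∈ mx O) (hg : g ∈ mx O) : f - g ∈ mx O := by
  rw [sub_eq_add_neg]; exact mx_add hf (mx_neg hg)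
lemma mx_mul_left {O : Pt K} {f g : K} (hf : f ∈ O.1) (hg : g ∈ mx O) : f * g ∈ mx O := by
  obtain ⟨g, hg, rfl⟩ := hg
  exact ⟨⟨f, hf⟩ * g, Ideal.mul_mem_left _ _ hg, rfl⟩
lemma mx_mul_right {O : Pt K} {f g : K} (hf : f ∈ mx O) (hg : g ∈ O.1) : f * g ∈ mx O := by
  rw [mul_comm]; exact mx_mul_left hg hf
lemma mx_prime {O : Pt K} {f g : K} (hf : f ∈ O.1) (hg : g ∈ O.1) (h : f * g ∈ mx O) :
    f ∈ mx O ∨ g ∈ mx O := by
  by_contra hc
  push Not at hc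
  exact ((isU_of_not_mx hf hc.1).mul (isU_of_not_mx hg hc.2)).not_mx h
lemma mx_of_pow {O : Pt K} {f : K} (hf : f ∈ O.1) {n : ℕ} (h : f ^ n ∈ mx O) : f ∈ mx O := by
  by_contra hc
  exact ((isU_of_not_mx hf hc).pow n).not_mx h
lemma IsU.add_mx {O : Pt K} {f g : K} (hf : IsU O f) (hg : g ∈ mx O) : IsU O (f + g) :=
  isU_of_not_mx (add_mem hf.2.1 (mx_sub hg)) fun h => hf.not_mx (by simpa using mx_sub' h hg)
/-- A non-unit of a larger local ring is a non-unit of a smaller one. -/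
lemma mx_of_le {O O' : Pt K} (h : O.1 ≤ O'.1) {f : K} (hf : f ∈ O.1) (hf' : f ∈ mx O') :
    f ∈ mx O := (mx_or_isU hf).resolve_right fun hu => (hu.mono h).not_mx hf'

lemma res_of_mem {O : Pt K} {g : K} (h : g ∈ O.1) : res O g = residue O.1 ⟨g, h⟩ := dif_pos h
lemma res_of_not_mem {O : Pt K} {g : K} (h : g ∉ O.1) : res O g = 0 := dif_neg h
lemma res_add {O : Pt K} {f g : K} (hf : f ∈ O.1) (hg : g ∈ O.1) :
    res O (f + g) = res O f + res O g := by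
  rw [res_of_mem hf, res_of_mem hg, res_of_mem (add_mem hf hg), ← map_add]; rfl
lemma res_mul {O : Pt K} {f g : K} (hf : f ∈ O.1) (hg : g ∈ O.1) :
    res O (f * g) = res O f * res O g := by
  rw [res_of_mem hf, res_of_mem hg, res_of_mem (mul_mem hf hg), ← map_mul]; rfl
lemma res_neg {O : Pt K} {f : K} (hf : f ∈ O.1) : res O (-f) = -res O f := by
  rw [res_of_mem hf, res_of_mem (neg_mem hf), ← map_neg]; rfl
lemma res_sub {O : Pt K} {f g : K} (hf : f ∈ O.1) (hg : g ∈ O.1) :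
    res O (f - g) = res O f - res O g := by
  rw [res_of_mem hf, res_of_mem hg, res_of_mem (sub_mem hf hg), ← map_sub]; rfl
lemma res_pow {O : Pt K} {f : K} (hf : f ∈ O.1) (n : ℕ) : res O (f ^ n) = res O f ^ n := by
  rw [res_of_mem hf, res_of_mem (pow_mem hf n), ← map_pow]; rfl
lemma res_const (O : Pt K) (c : ℂ) : res O (algebraMap ℂ K c) = algebraMap ℂ (RF O) c := by
  rw [res_of_mem (O.1.algebraMap_mem c)]; rfl
lemma res_one (O : Pt K) : res O 1 = 1 := by simpa using res_const O 1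
lemma res_zero (O : Pt K) : res O 0 = 0 := by simpa using res_const O 0
lemma res_eq_zero {O : Pt K} {f : K} (hf : f ∈ O.1) : res O f = 0 ↔ f ∈ mx O := by
  rw [res_of_mem hf, residue_eq_zero_iff, ← coe_mem_mx]
lemma IsU.res_ne {O : Pt K} {f : K} (hf : IsU O f) : res O f ≠ 0 :=
  fun h => hf.not_mx ((res_eq_zero hf.2.1).1 h)
lemma res_inv {O : Pt K} {f : K} (hf : IsU O f) : res O f⁻¹ = (res O f)⁻¹ := by
  refine eq_inv_of_mul_eq_one_right ?_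
  rw [← res_mul hf.2.1 hf.2.2, mul_inv_cancel₀ hf.1, res_one]
lemma res_div {O : Pt K} {f g : K} (hf : f ∈ O.1) (hg : IsU O g) :
    res O (f / g) = res O f / res O g := by
  rw [div_eq_mul_inv, res_mul hf hg.2.2, res_inv hg, div_eq_mul_inv]
lemma res_surj (O : Pt K) (a : RF O) : ∃ f ∈ O.1, res O f = a := by
  obtain ⟨f, rfl⟩ := residue_surjective a
  exact ⟨f, f.2, res_of_mem f.2⟩

/-- Domination. -/
def Dom (O W : Pt K) : Prop := O.1 ≤ W.1 ∧ mx O ⊆ mx W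

lemma Dom.refl (O : Pt K) : Dom O O := ⟨le_rfl, subset_rfl⟩
lemma Dom.trans {A B C : Pt K} (h : Dom A B) (h' : Dom B C) : Dom A C :=
  ⟨h.1.trans h'.1, h.2.trans h'.2⟩
lemma Dom.isU {O W : Pt K} (h : Dom O W) {f : K} (hf : f ∈ O.1) (hu : IsU W f) : IsU O f :=
  isU_of_not_mx hf fun hm => hu.not_mx (h.2 hm)
lemma Dom.inv_mem {O W : Pt K} (h : Dom O W) {f : K} (hf : f ∈ O.1) (hu : f⁻¹ ∈ W.1) :
    f⁻¹ ∈ O.1 := by
  by_cases h0 : f = 0
  · simp [h0]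
  · exact (h.isU hf ⟨h0, h.1 hf, hu⟩).2.2

/-- A valuation ring containing `ℂ`, as a point. -/
def vpt (V : ValuationSubring K) (hV : ∀ c : ℂ, algebraMap ℂ K c ∈ V) : Pt K :=
  ⟨{ V.toSubring with algebraMap_mem' := hV }, isLocal_of _ fun f hf => by
    by_cases h : f ≠ 0 ∧ f⁻¹ ∈ V
    · exact Or.inl h
    · right
      have hn : f ∈ V.nonunits := by
        rw [ValuationSubring.mem_nonunits_iff_or]; tauto
      have h1 : 1 - f ≠ 0 := by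
        intro h1
        have : f = 1 := by linear_combination -h1
        exact h ⟨by simp [this], by simp [this]⟩
      refine ⟨h1, ?_⟩
      by_contra hc
      have hn' : 1 - f ∈ V.nonunits := by
        rw [ValuationSubring.mem_nonunits_iff_or]; exact Or.inr hc
      have := add_mem hn hn'
      simp [ValuationSubring.mem_nonunits_iff_or] at this⟩

@[simp] lemma mem_vpt {V : ValuationSubring K} {hV} {f : K} : f ∈ (vpt V hV).1 ↔ f ∈ V := Iff.rfl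

lemma mem_mx_vpt {V : ValuationSubring K} {hV} {f : K} : f ∈ mx (vpt V hV) ↔ f ∈ V.nonunits := by
  rw [mem_mx, ValuationSubring.mem_nonunits_iff_or, IsU]
  simp only [mem_vpt]
  constructor
  · tauto
  · rintro (rfl | h)
    · simp
    · have := V.mem_or_inv_mem f
      tauto

/-- The image of a point under an isomorphism. -/
def mapPt (g : K ≃ₐ[ℂ] K') (O : Pt K) : Pt K' :=
  ⟨O.1.map (g : K →ₐ[ℂ] K'), (g.subalgebraMap O.1).toRingEquiv.isLocalRing⟩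

lemma mem_mapPt {g : K ≃ₐ[ℂ] K'} {O : Pt K} {f : K'} : f ∈ (mapPt g O).1 ↔ g.symm f ∈ O.1 :=
  ⟨fun ⟨a, ha, e⟩ => by rw [← e]; simpa using ha, fun h => ⟨_, h, by simp⟩⟩

lemma isU_mapPt {g : K ≃ₐ[ℂ] K'} {O : Pt K} {f : K'} : IsU (mapPt g O) f ↔ IsU O (g.symm f) := by
  simp [IsU, mem_mapPt]

lemma mem_mx_mapPt {g : K ≃ₐ[ℂ] K'} {O : Pt K} {f : K'} :
    f ∈ mx (mapPt g O) ↔ g.symm f ∈ mx O := by
  simp [mem_mx, mem_mapPt, isU_mapPt]

@[simp] lemma mapPt_symm_mapPt (g : K ≃ₐ[ℂ] K') (O : Pt K) : mapPt g.symm (mapPt g O) = O :=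
  Subtype.ext (Subalgebra.ext fun f => by simp [mem_mapPt])

@[simp] lemma mapPt_mapPt_symm (g : K ≃ₐ[ℂ] K') (O : Pt K') : mapPt g (mapPt g.symm O) = O :=
  Subtype.ext (Subalgebra.ext fun f => by simp [mem_mapPt])

/-- The intersection of a point with a subfield. -/
def qpt (F : IntermediateField ℂ K) (O : Pt K) : Pt F :=
  ⟨O.1.comap F.val, isLocal_of _ fun f hf => by
    rcases mx_or_isU (O := O) (f := (f : K)) hf with h | h
    · right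
      have := (isU_one O).add_mx (mx_neg h)
      rw [← sub_eq_add_neg] at this
      exact ⟨fun h0 => this.1 (by exact_mod_cast congrArg Subtype.val h0), this.2.2⟩
    · exact Or.inl ⟨fun h0 => h.1 (by simp [h0]), h.2.2⟩⟩

@[simp] lemma mem_qpt {F : IntermediateField ℂ K} {O : Pt K} {f : F} :
    f ∈ (qpt F O).1 ↔ (f : K) ∈ O.1 := Iff.rfl

lemma isU_qpt {F : IntermediateField ℂ K} {O : Pt K} {f : F} : IsU (qpt F O) f ↔ IsU O (f : K) := by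
  simp [IsU]

lemma mem_mx_qpt {F : IntermediateField ℂ K} {O : Pt K} {f : F} :
    f ∈ mx (qpt F O) ↔ (f : K) ∈ mx O := by
  simp [mem_mx, isU_qpt]

/-- The centre of a local ring `W` on `Spec R`. -/
lemma exists_centre (R : Subalgebra ℂ K) (W : Pt K) (h : R ≤ W.1) : ∃ O ∈ spec R, Dom O W := by
  let A : Subalgebra ℂ K :=
    { carrier := {f | ∃ a ∈ R, ∃ b ∈ R, IsU W b ∧ f = a / b}
      mul_mem' := by
        rintro _ _ ⟨a, ha, b, hb, hu, rfl⟩ ⟨a', ha', b', hb', hu', rfl⟩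
        exact ⟨a * a', mul_mem ha ha', b * b', mul_mem hb hb', hu.mul hu', div_mul_div_comm ..⟩
      add_mem' := by
        rintro _ _ ⟨a, ha, b, hb, hu, rfl⟩ ⟨a', ha', b', hb', hu', rfl⟩
        exact ⟨a * b' + b * a', add_mem (mul_mem ha hb') (mul_mem hb ha'), b * b',
          mul_mem hb hb', hu.mul hu', div_add_div _ _ hu.1 hu'.1⟩
      algebraMap_mem' c := ⟨_, R.algebraMap_mem c, 1, one_mem _, isU_one W, (div_one _).symm⟩ }
  have hAW : A ≤ W.1 := by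
    rintro _ ⟨a, ha, b, hb, hu, rfl⟩
    rw [div_eq_mul_inv]; exact mul_mem (h ha) hu.2.2
  have hinv : ∀ f ∈ A, IsU W f → f⁻¹ ∈ A := by
    rintro _ ⟨a, ha, b, hb, hu, rfl⟩ hf
    refine ⟨b, hb, a, ha, ?_, inv_div _ _⟩
    have := hf.mul hu
    rwa [div_mul_cancel₀ _ hu.1] at this
  have hloc : IsLocalRing A := isLocal_of _ fun f hf => by
    rcases mx_or_isU (hAW hf) with hm | hu
    · have := (isU_one W).add_mx (mx_neg hm)
      rw [← sub_eq_add_neg] at this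
      exact Or.inr ⟨this.1, hinv _ (sub_mem (one_mem _) hf) this⟩
    · exact Or.inl ⟨hu.1, hinv _ hf hu⟩
  refine ⟨⟨A, hloc⟩, ⟨fun a ha => ⟨a, ha, 1, one_mem _, isU_one W, (div_one _).symm⟩, ?_⟩, hAW, ?_⟩
  · rintro _ ⟨a, ha, b, hb, hu, rfl⟩
    exact ⟨a, ha, b, hb, ⟨1, one_mem _, b, hb, hu, (one_div _).symm⟩, rfl⟩
  · intro f hf
    have hf' := mem_mx.1 hf
    exact mem_mx.2 ⟨hAW hf'.1, fun hu => hf'.2 ⟨hu.1, hf'.1, hinv _ hf'.1 hu⟩⟩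

/-- If `R ≤ O'`, `O ∈ Spec R` and both are inside `W`, with `O'` dominated, then `O ≤ O'`. -/
lemma spec_le {R : Subalgebra ℂ K} {O O' W : Pt K} (hO : O ∈ spec R) (hR : R ≤ O'.1)
    (h : O.1 ≤ W.1) (h' : Dom O' W) : O.1 ≤ O'.1 := by
  intro f hf
  obtain ⟨a, ha, b, hb, hb', rfl⟩ := hO.2 f hf
  rw [div_eq_mul_inv]
  exact mul_mem (hR ha) (h'.inv_mem (hR hb) (h hb'))

lemma spec_unique {R : Subalgebra ℂ K} {O O' W : Pt K} (hO : O ∈ spec R) (hO' : O' ∈ spec R)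
    (h : Dom O W) (h' : Dom O' W) : O = O' :=
  Subtype.ext (le_antisymm (spec_le hO hO'.1 h.1 h') (spec_le hO' hO.1 h'.1 h))

/-- Change of chart. -/
lemma spec_of_gens {S : Set K} {R' : Subalgebra ℂ K} {O : Pt K} (hO : O ∈ spec (Algebra.adjoin ℂ S))
    (hR' : R' ≤ O.1) (hS : ∀ g ∈ S, ∃ a ∈ R', ∃ b ∈ R', b⁻¹ ∈ O.1 ∧ g = a / b) : O ∈ spec R' := by
  obtain ⟨O', hO', hd⟩ := exists_centre R' O hR'
  have h1 : Algebra.adjoin ℂ S ≤ O'.1 := by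
    refine Algebra.adjoin_le fun g hg => ?_
    obtain ⟨a, ha, b, hb, hb', rfl⟩ := hS g hg
    rw [div_eq_mul_inv]
    exact mul_mem (hO'.1 ha) (hd.inv_mem (hO'.1 hb) hb')
  have : O = O' := Subtype.ext (le_antisymm (spec_le hO h1 le_rfl hd) hd.1)
  rw [this]; exact hO'

lemma spec_mapPt (g : K ≃ₐ[ℂ] K') {R : Subalgebra ℂ K} {O : Pt K} (hO : O ∈ spec R) :
    mapPt g O ∈ spec (R.map (g : K →ₐ[ℂ] K')) := by
  refine ⟨Subalgebra.map_mono hO.1, ?_⟩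
  rintro _ ⟨f, hf, rfl⟩
  obtain ⟨a, ha, b, hb, hb', rfl⟩ := hO.2 f hf
  exact ⟨g a, ⟨a, ha, rfl⟩, g b, ⟨b, hb, rfl⟩, ⟨b⁻¹, hb', by simp⟩, by simp⟩

/-- Every point is dominated by a valuation ring. -/
lemma exists_val_dom (O : Pt K) : ∃ (V : ValuationSubring K) (hV : _), Dom O (vpt V hV) := by
  let A : LocalSubring K := @LocalSubring.mk K _ O.1.toSubring O.2
  obtain ⟨V, hV⟩ := A.exists_le_valuationSubring
  obtain ⟨h1, h2⟩ := LocalSubring.le_def.1 hV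
  refine ⟨V, fun c => h1 (O.1.algebraMap_mem c), fun f hf => h1 hf, fun f hf => ?_⟩
  have hf' := mem_mx.1 hf
  refine mem_mx.2 ⟨h1 hf'.1, fun hu => hf'.2 ?_⟩
  have hu' : IsUnit (Subring.inclusion h1 ⟨f, hf'.1⟩) :=
    (isUnit_iff_sub (vpt V fun c => h1 (O.1.algebraMap_mem c)).1 ⟨f, h1 hf'.1⟩).2 ⟨hu.1, hu.2.2⟩
  have := (isUnit_iff_sub O.1 ⟨f, hf'.1⟩).1 (h2.map_nonunit _ hu')
  exact ⟨this.1, hf'.1, this.2⟩

/-- The preimage of a point of the residue field. -/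
lemma exists_pre (ξ : Pt K) (V : Pt (RF ξ)) :
    ∃ W : Pt K, (∀ f, f ∈ W.1 ↔ f ∈ ξ.1 ∧ res ξ f ∈ V.1) ∧
      ∀ f, f ∈ mx W ↔ f ∈ ξ.1 ∧ res ξ f ∈ mx V := by
  let A : Subalgebra ℂ K :=
    { carrier := {f | f ∈ ξ.1 ∧ res ξ f ∈ V.1}
      mul_mem' := fun ha hb => ⟨mul_mem ha.1 hb.1, by rw [res_mul ha.1 hb.1]; exact mul_mem ha.2 hb.2⟩
      add_mem' := fun ha hb => ⟨add_mem ha.1 hb.1, by rw [res_add ha.1 hb.1]; exact add_mem ha.2 hb.2⟩
      algebraMap_mem' c := ⟨ξ.1.algebraMap_mem c, by rw [res_const]; exact V.1.algebraMap_mem c⟩ }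
  have hinv : ∀ f ∈ ξ.1, IsU V (res ξ f) → f ≠ 0 ∧ f⁻¹ ∈ A := fun f hf hu => by
    have hu' : IsU ξ f := isU_of_not_mx hf fun hm => hu.1 ((res_eq_zero hf).2 hm)
    exact ⟨hu'.1, hu'.2.2, by rw [res_inv hu']; exact hu.2.2⟩
  have hloc : IsLocalRing A := isLocal_of _ fun f hf => by
    rcases mx_or_isU hf.2 with hm | hu
    · have := (isU_one V).add_mx (mx_neg hm)
      rw [← sub_eq_add_neg, ← res_one ξ, ← res_sub (one_mem _) hf.1] at this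
      exact Or.inr (hinv _ (sub_mem (one_mem _) hf.1) this)
    · exact Or.inl (hinv _ hf.1 hu)
  refine ⟨⟨A, hloc⟩, fun f => Iff.rfl, fun f => ?_⟩
  rw [mem_mx, mem_mx]
  constructor
  · rintro ⟨hf, hn⟩
    exact ⟨hf.1, hf.2, fun hu => hn ⟨(hinv f hf.1 hu).1, hf, (hinv f hf.1 hu).2⟩⟩
  · rintro ⟨hf, hf', hn⟩
    refine ⟨⟨hf, hf'⟩, fun hu => hn ?_⟩
    have hu' : IsU ξ f := ⟨hu.1, hf, hu.2.2.1⟩
    exact ⟨hu'.res_ne, hf', by rw [← res_inv hu']; exact hu.2.2.2⟩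

end

end Pool.Agent.MP_95da86_ag
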