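import Pool.Agent.MP_95da86_ag.BlowA

/-! The blow-up of the 27 fixed points. -/

namespace Pool.Agent.MP_95da86_ag

variable {L : Type} [Field L] [Algebra ℂ L] {P : Fin 3 → EP L} {σ : L ≃ₐ[ℂ] L} {O W : Pt L}

/-- Finite generation by eigenvectors: for points over `p` use the `s j, t j, s j / s i`. -/
theorem Cfg.bl_fin (h : Cfg P σ) (hO : O ∈ blP P σ) : ∃ S : Set L, S.Finite ∧
    (∀ g ∈ S, σ g = g ∨ σ g = zt L * g) ∧ O ∈ spec (Algebra.adjoin ℂ S) := by
  rcases h.bl_iff.1 hO with ⟨hc, -⟩ | ⟨p, Op, hOp, hov, -, i, hi⟩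
  · obtain ⟨c, hc⟩ := Set.mem_iUnion.1 hc
    refine ⟨_, Set.finite_iUnion fun i => ?_, fun g hg => ?_, hc⟩
    · split_ifs <;> exact Set.toFinite _
    · obtain ⟨i, hi⟩ := Set.mem_iUnion.1 hg
      split_ifs at hi
      · rcases hi with rfl | rfl
        · exact Or.inr (h.map_xc i)
        · exact Or.inl (h.map_yc i)
      · rcases hi with rfl | rfl
        · exact Or.inr (by rw [map_div₀, h.map_xc, h.map_yc, mul_div_assoc])
        · exact Or.inl (by rw [map_inv₀, h.map_yc])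
  · have h' := h.shift p
    have hs : ∀ j, σ (sc (sh P p j)) = zt L * sc (sh P p j) := fun j => by
      rw [sc, map_div₀, h'.map_xc, h'.map_yc, mul_div_assoc]
    have ht : ∀ j, σ (tc (sh P p j)) = tc (sh P p j) := fun j => by
      rw [tc, map_inv₀, h'.map_yc]
    have hsp := mem_spec_inf (P := sh P p) (by rw [cube_sh]; exact hOp) hov
    have hle : (Op.1 : Set L) ⊆ O.1 := fun g hg => hi.1 (Algebra.subset_adjoin (Or.inl hg))
    refine ⟨(Set.range (fun j => sc (sh P p j)) ∪ Set.range fun j => tc (sh P p j)) ∪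
      Set.range (ur P p i),
      ((Set.finite_range _).union (Set.finite_range _)).union (Set.finite_range _), ?_, ?_⟩
    · rintro g ((⟨j, rfl⟩ | ⟨j, rfl⟩) | ⟨j, rfl⟩)
      · exact Or.inr (hs j)
      · exact Or.inl (ht j)
      · exact Or.inl (by rw [ur, map_div₀, hs, hs, mul_div_mul_left _ _ zt_ne_zero])
    · refine spec_of_gens hi (Algebra.adjoin_le ?_) ?_
      · rintro g (hg | hg)
        · exact hle (hsp.1 (Algebra.subset_adjoin hg))
        · exact hi.1 (Algebra.subset_adjoin (Or.inr hg))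
      · rintro g (hg | hg)
        · obtain ⟨a, ha, b, hb, hb', e⟩ := hsp.2 g hg
          exact ⟨a, Algebra.adjoin_mono Set.subset_union_left ha, b,
            Algebra.adjoin_mono Set.subset_union_left hb, hle hb', e⟩
        · exact ⟨g, Algebra.subset_adjoin (Or.inr hg), 1, one_mem _, by simp, (div_one _).symm⟩
theorem Cfg.top_mem (h : Cfg P σ) : topPt L ∈ blP P σ :=
  h.bl_iff.2 (Or.inl ⟨h.gen.top_mem, fun _ hp => hp 0 (ValuationSubring.mem_top _)⟩)

theorem Blow_aux_fix (γ : L ≃ₐ[ℂ] L) (hγ : ∀ f, γ (σ f) = σ (γ f))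
    (hc : ∀ O, mapPt γ O ∈ cubeP P ↔ O ∈ cubeP P) (O : Pt L) :
    mapPt γ O ∈ fixP P σ ↔ O ∈ fixP P σ := by
  have e : ∀ f, γ.symm (σ (γ f) - γ f) = σ f - f := fun f => by
    rw [← hγ, ← map_sub, γ.symm_apply_apply]
  refine and_congr (hc O) ⟨fun H f hf => ?_, fun H f hf => ?_⟩
  · have := H (γ f) (mem_mapPt.2 (by rwa [γ.symm_apply_apply]))
    rwa [mem_mx_mapPt, e] at this
  · obtain ⟨f, rfl⟩ := γ.surjective f
    rw [mem_mapPt, γ.symm_apply_apply] at hf
    rw [mem_mx_mapPt, e]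
    exact H f hf

theorem Blow_aux_map (γ : L ≃ₐ[ℂ] L) (hγ : ∀ f, γ (σ f) = σ (γ f))
    (hc : ∀ O, mapPt γ O ∈ cubeP P ↔ O ∈ cubeP P) (hO : O ∈ blP P σ) : mapPt γ O ∈ blP P σ := by
  rcases hO with ⟨h1, h2⟩ | ⟨p, hp, t, ht, ht0, hm, hs⟩
  · exact Or.inl ⟨(hc O).2 h1, fun h => h2 ((Blow_aux_fix γ hγ hc O).1 h)⟩
  · refine Or.inr ⟨mapPt γ p, (Blow_aux_fix γ hγ hc p).2 hp, γ t,
      mem_mx_mapPt.2 (by rwa [γ.symm_apply_apply]), by simpa using ht0,
      fun f hf => mem_mx_mapPt.2 (hm (mem_mx_mapPt.1 hf)), ?_⟩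
    have := spec_mapPt γ hs
    rw [AlgHom.map_adjoin] at this
    convert this using 3
    ext f
    constructor
    · rintro (hf | ⟨a, ha, rfl⟩)
      · exact ⟨γ.symm f, Or.inl (mem_mapPt.1 hf), by simp⟩
      · exact ⟨γ.symm a / t, Or.inr ⟨γ.symm a, mem_mx_mapPt.1 ha, rfl⟩, by simp⟩
    · rintro ⟨g, hg | ⟨a, ha, rfl⟩, rfl⟩
      · exact Or.inl (mem_mapPt.2 (by simpa using hg))
      · exact Or.inr ⟨γ a, mem_mx_mapPt.2 (by simpa using ha), by simp⟩

/-- Transport of structure. -/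
theorem bl_mapPt (γ : L ≃ₐ[ℂ] L) (hγ : ∀ f, γ (σ f) = σ (γ f))
    (hc : ∀ O, mapPt γ O ∈ cubeP P ↔ O ∈ cubeP P) : mapPt γ O ∈ blP P σ ↔ O ∈ blP P σ := by
  refine ⟨fun hO => ?_, Blow_aux_map γ hγ hc⟩
  have := Blow_aux_map γ.symm (σ := σ) (P := P) (fun f => by
    apply γ.injective
    rw [hγ, γ.apply_symm_apply, γ.apply_symm_apply]) (fun O => by
      rw [← hc, mapPt_mapPt_symm]) hO
  rwa [mapPt_symm_mapPt] at this

theorem Blow_aux_om : om * (om * om) = 1 := by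
  ext <;> simp [om, QuadraticAlgebra.re_one, QuadraticAlgebra.im_one]

theorem Cfg.bl_sigma (h : Cfg P σ) : mapPt σ O ∈ blP P σ ↔ O ∈ blP P σ := by
  refine bl_mapPt σ (fun _ => rfl) fun O => ?_
  have e : (cubeP fun i => emap (σ : L →ₐ[ℂ] L) (P i)) = cubeP P := by
    refine cube_eq fun W => forall_congr' fun i => ?_
    rw [h.rot]
    refine ⟨fun H => ?_, fun H => H.smul om⟩
    have := H.smul (om * om)
    rwa [smul_smul, mul_comm, Blow_aux_om, one_smul] at this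
  rw [← cube_mapPt (P := P) (O := O) σ, e]

theorem Blow_aux_lin {M : Type} [Field M] [Algebra ℂ M] (g : GLw) (R : Fin 3 → EP M) (i : Fin 3) :
    lin (g⁻¹.val i) (fun j => lin (g.val j) R) = R i := by
  have e : g⁻¹.val * g.val = 1 := Units.inv_mul g
  have e' : ∀ k, ∑ j, g⁻¹.val i j * g.val j k = (1 : Matrix (Fin 3) (Fin 3) Zw) i k := fun k => by
    rw [← e, Matrix.mul_apply]
  simp only [lin, Finset.smul_sum, smul_smul]
  rw [Finset.sum_comm]
  simp only [← Finset.sum_smul, e', Matrix.one_apply, ite_smul, one_smul, zero_smul]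
  simp

/-- The affine automorphisms. -/
theorem Cfg.exists_aff (h : Cfg P σ) (g : GLw) (b : F3) : ∃ γ : L ≃ₐ[ℂ] L,
    (∀ i, emap (γ : L →ₐ[ℂ] L) (P i) = lin (g.val i) P + tors L (b i)) ∧
    (∀ f, γ (σ f) = σ (γ f)) ∧ (∀ O, mapPt γ O ∈ cubeP P ↔ O ∈ cubeP P) ∧
    (∀ O, mapPt γ O ∈ blP P σ ↔ O ∈ blP P σ) ∧
    ∀ O, (∀ i, Intg O (P i)) → ∀ p,
      (Over (mapPt γ O) P p ↔ Over O P ((gbar g).mulVec p + b)) := by
  have hQ : Gen3 fun i => lin (g.val i) P + cst L (tors ℂ (b i)) := h.gen.aff g _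
  have hcu := cube_aff P g fun i => tors ℂ (b i)
  simp only [cst_tors] at hQ hcu
  obtain ⟨γ, hγ⟩ := h.gen.exists_aut hQ
  have hcomm : ∀ f, γ (σ f) = σ (γ f) := by
    have : (γ : L →ₐ[ℂ] L).comp (σ : L →ₐ[ℂ] L) = (σ : L →ₐ[ℂ] L).comp (γ : L →ₐ[ℂ] L) := by
      refine h.gen.algHom_ext fun i => ?_
      have := h.map_lin (g.val i) (-b i)
      rw [tors_neg, sub_neg_eq_add] at this
      rw [← emap_emap, ← emap_emap, h.rot, map_smul, hγ, this]
    exact fun f => DFunLike.congr_fun this f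
  have hc : ∀ O, mapPt γ O ∈ cubeP P ↔ O ∈ cubeP P := fun O => by
    rw [← cube_mapPt (P := P) (O := O) γ]
    simp only [hγ, hcu]
  refine ⟨γ, hγ, hcomm, hc, fun O => bl_mapPt γ hcomm hc, fun O hI p => ?_⟩
  have hIQ : ∀ i, Intg (mapPt γ O) (lin (g.val i) P + tors L (b i)) := fun i => by
    rw [← hγ]
    exact (intg_mapPt γ).2 (hI i)
  have hIP : ∀ i, Intg (mapPt γ O) (P i) := fun i => by
    rw [← Blow_aux_lin g P i]
    refine intg_lin (fun j => ?_) _
    have := (hIQ j).sub (intg_tors (b j))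
    rwa [add_sub_cancel_right] at this
  have e1 : Over O P ((gbar g).mulVec p + b) ↔
      Over (mapPt γ O) (fun i => lin (g.val i) P + tors L (b i)) ((gbar g).mulVec p + b) := by
    refine forall_congr' fun i => not_congr ?_
    have : yc (sh (fun i => lin (g.val i) P + tors L (b i)) ((gbar g).mulVec p + b) i) =
        γ (yc (sh P ((gbar g).mulVec p + b) i)) := by
      have := yc_emap (γ : L →ₐ[ℂ] L) (sh P ((gbar g).mulVec p + b) i)
      rw [sh, map_sub, hγ, emap_tors] at this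
      exact this
    rw [this, mem_mapPt, γ.symm_apply_apply]
  rw [e1, over_iff_red h.gen hIP, over_iff_red hQ hIQ]
  have e2 : ∀ i, tors (RF (mapPt γ O)) (((gbar g).mulVec p + b) i) =
      lin (g.val i) (fun j => tors (RF (mapPt γ O)) (p j)) + tors (RF (mapPt γ O)) (b i) := by
    intro i
    rw [Pi.add_apply, tors_add, lin_tors]
    rfl
  simp only [e2, red_add (intg_lin hIP _) (intg_tors _), red_lin hIP, red_tors, add_left_inj]
  constructor
  · intro H i
    simp only [H]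
  · intro H i
    rw [← Blow_aux_lin g (fun j => red (mapPt γ O) (P j)) i,
      ← Blow_aux_lin g (fun j => tors (RF (mapPt γ O)) (p j)) i]
    simp only [H]

end Pool.Agent.MP_95da86_ag
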