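import Pool.Agent.MP_95da86_ag.Cube

/-! The blow-up of the 27 fixed points. -/

namespace Pool.Agent.MP_95da86_ag

variable {L : Type} [Field L] [Algebra ℂ L] {P : Fin 3 → EP L} {σ : L ≃ₐ[ℂ] L} {O W : Pt L}

theorem BlowA_aux_ne (h : Cfg P σ) (p : F3) (j : Fin 3) : sc (sh P p j) ≠ 0 :=
  div_ne_zero ((h.gen.shift p).xc_ne j) ((h.gen.shift p).yc_ne j)

theorem BlowA_aux_le (Op : Pt L) (p : F3) (i : Fin 3) : Op.1 ≤ Bl Op P p i :=
  fun _ hf => Algebra.subset_adjoin (Or.inl hf)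

theorem BlowA_aux_ur (Op : Pt L) (p : F3) (i j : Fin 3) : ur P p i j ∈ Bl Op P p i :=
  Algebra.subset_adjoin (Or.inr ⟨j, rfl⟩)

theorem BlowA_aux_bl {Op : Pt L} {p : F3} {i : Fin 3} {A : Subalgebra ℂ L} (h : Op.1 ≤ A)
    (hu : ∀ j, ur P p i j ∈ A) : Bl Op P p i ≤ A := by
  refine Algebra.adjoin_le ?_
  rintro f (hf | ⟨j, rfl⟩)
  exacts [h hf, hu j]

theorem BlowA_aux_div {Op : Pt L} {p : F3} (hOp : Op ∈ cubeP P) (hp : Over Op P p) (i : Fin 3)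
    {f : L} (hf : f ∈ mx Op) : f / sc (sh P p i) ∈ Bl Op P p i := by
  obtain ⟨a, ha, rfl⟩ := over_gen hOp hp hf
  rw [Finset.sum_div]
  refine sum_mem fun j _ => ?_
  rw [mul_div_assoc]
  exact mul_mem (BlowA_aux_le Op p i (ha j)) (BlowA_aux_ur Op p i j)

theorem BlowA_aux_eq {Op : Pt L} {p : F3} (hOp : Op ∈ cubeP P) (hp : Over Op P p) (i : Fin 3) :
    Algebra.adjoin ℂ ((Op.1 : Set L) ∪ (fun a => a / sc (sh P p i)) '' mx Op) = Bl Op P p i := by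
  refine le_antisymm (Algebra.adjoin_le ?_) (BlowA_aux_bl
    (fun _ hf => Algebra.subset_adjoin (Or.inl hf)) fun j => Algebra.subset_adjoin
      (Or.inr ⟨_, (hp.sc_mem (cube_intg hOp) j).1, rfl⟩))
  rintro f (hf | ⟨a, ha, rfl⟩)
  exacts [BlowA_aux_le Op p i hf, BlowA_aux_div hOp hp i ha]

theorem BlowA_aux_chart (h : Cfg P σ) {Op : Pt L} {p : F3} (hOp : Op ∈ cubeP P)
    (hp : Over Op P p) {t : L} (ht : t ∈ mx Op) (t0 : t ≠ 0)
    (hO : O ∈ spec (Algebra.adjoin ℂ ((Op.1 : Set L) ∪ (fun a => a / t) '' mx Op))) :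
    ∃ i, O ∈ spec (Bl Op P p i) := by
  have h1 : Op.1 ≤ O.1 := fun _ hf => hO.1 (Algebra.subset_adjoin (Or.inl hf))
  have h2 : ∀ j, sc (sh P p j) / t ∈ O.1 := fun j =>
    hO.1 (Algebra.subset_adjoin (Or.inr ⟨_, (hp.sc_mem (cube_intg hOp) j).1, rfl⟩))
  obtain ⟨i, hi⟩ : ∃ i, IsU O (sc (sh P p i) / t) := by
    by_contra hc
    push Not at hc
    have h3 : ∀ j, sc (sh P p j) / t ∈ mx O := fun j => (mx_or_isU (h2 j)).resolve_right (hc j)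
    obtain ⟨a, ha, e⟩ := over_gen hOp hp ht
    refine one_not_mem_mx O ?_
    rw [← div_self t0]
    nth_rewrite 1 [e]
    rw [Fin.sum_univ_three, add_div, add_div, mul_div_assoc, mul_div_assoc, mul_div_assoc]
    exact mx_add (mx_add (mx_mul_left (h1 (ha 0)) (h3 0)) (mx_mul_left (h1 (ha 1)) (h3 1)))
      (mx_mul_left (h1 (ha 2)) (h3 2))
  have s0 := BlowA_aux_ne h p i
  refine ⟨i, spec_of_gens hO (BlowA_aux_bl h1 fun j => ?_) ?_⟩
  · have e : ur P p i j = sc (sh P p j) / t * (sc (sh P p i) / t)⁻¹ := by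
      unfold ur
      field_simp
    rw [e]
    exact mul_mem (h2 j) hi.2.2
  · rintro f (hf | ⟨a, ha, rfl⟩)
    · exact ⟨f, BlowA_aux_le Op p i hf, 1, one_mem _, by simp, (div_one f).symm⟩
    · refine ⟨_, BlowA_aux_div hOp hp i ha, _, BlowA_aux_div hOp hp i ht, ?_, ?_⟩
      · rw [inv_div]
        exact hi.2.1
      · field_simp

theorem BlowA_aux_change (h : Cfg P σ) {Op : Pt L} {p : F3} {i i' : Fin 3}
    (hO : O ∈ spec (Bl Op P p i)) (hu : ∀ j, ur P p i' j ∈ O.1) : O ∈ spec (Bl Op P p i') := by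
  refine spec_of_gens hO (BlowA_aux_bl ((BlowA_aux_le Op p i).trans hO.1) hu) ?_
  rintro f (hf | ⟨j, rfl⟩)
  · exact ⟨f, BlowA_aux_le Op p i' hf, 1, one_mem _, by simp, (div_one f).symm⟩
  · refine ⟨_, BlowA_aux_ur Op p i' j, _, BlowA_aux_ur Op p i' i, ?_, ?_⟩
    · rw [ur, inv_div]
      exact hO.1 (BlowA_aux_ur Op p i i')
    · have := BlowA_aux_ne h p i
      have := BlowA_aux_ne h p i'
      unfold ur
      field_simp

theorem BlowA_aux_intg {ξ : Pt L} {V : ValuationSubring (RF ξ)} (hV)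
    (hW : ∀ f, f ∈ W.1 ↔ f ∈ ξ.1 ∧ res ξ f ∈ (vpt V hV).1) {Q : EP L} (hQ : Intg ξ Q) :
    Intg W Q := by
  by_cases hy : yc Q ∈ ξ.1
  · have hx := hQ.xc_mem hy
    have hI := intg_val V hV (red ξ Q)
    by_cases hv : yc (red ξ Q) ∈ (vpt V hV).1
    · exact Or.inl ⟨(hW _).2 ⟨hx, xc_red hQ hy ▸ hI.xc_mem hv⟩, (hW _).2 ⟨hy, yc_red hQ hy ▸ hv⟩⟩
    · have hu : IsU ξ (yc Q) := isU_of_not_mx hy fun hm => hv (by
        rw [yc_red hQ hy, (res_eq_zero hy).2 hm]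
        exact zero_mem _)
      have h1 := mx_sub (hI.sc_mem hv)
      have h2 := mx_sub (hI.tc_mem hv)
      rw [sc, xc_red hQ hy, yc_red hQ hy, ← res_div hx hu] at h1
      rw [tc, yc_red hQ hy, ← res_inv hu] at h2
      refine Or.inr ⟨(hW _).2 ⟨?_, h1⟩, (hW _).2 ⟨hu.2.2, h2⟩⟩
      rw [sc, div_eq_mul_inv]
      exact mul_mem hx hu.2.2
  · have key : ∀ f ∈ mx ξ, f ∈ W.1 := fun f hf => (hW f).2 ⟨mx_sub hf, by
      rw [(res_eq_zero (mx_sub hf)).2 hf]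
      exact zero_mem _⟩
    exact Or.inr ⟨key _ (hQ.sc_mem hy), key _ (hQ.tc_mem hy)⟩

theorem BlowA_aux_min {ξ : Pt L} {V : ValuationSubring (RF ξ)} (hV)
    (hW : ∀ f, f ∈ W.1 ↔ f ∈ ξ.1 ∧ res ξ f ∈ (vpt V hV).1) {v : Fin 3 → L} (hv : ∀ j, v j ∈ ξ.1)
    {k : Fin 3} (hk : IsU ξ (v k)) : ∃ i, ∀ j, v j / v i ∈ W.1 := by
  obtain ⟨i, hi⟩ := Finite.exists_max fun j => V.valuation (res ξ (v j))
  have h0 : V.valuation (res ξ (v i)) ≠ 0 := fun e =>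
    hk.res_ne ((map_eq_zero V.valuation).1 (le_antisymm (e ▸ hi k) zero_le))
  have hu : IsU ξ (v i) := isU_of_not_mx (hv i) fun hm => h0 (by
    rw [(res_eq_zero (hv i)).2 hm, map_zero])
  refine ⟨i, fun j => (hW _).2 ⟨?_, ?_⟩⟩
  · rw [div_eq_mul_inv]
    exact mul_mem (hv j) hu.2.2
  · rw [res_div (hv j) hu, mem_vpt, ← V.valuation_le_one_iff, map_div₀]
    exact div_le_one_of_le₀ (hi j) zero_le

/-- For a chart given by `t`, some `s i / t` is a unit of `O` (write `t = ∑ a j s j`), and then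
`spec_of_gens` changes the chart; conversely `m / s i` generates `Bl i` by `over_gen`. -/
theorem Cfg.bl_iff (h : Cfg P σ) : O ∈ blP P σ ↔ (O ∈ cubeP P ∧ ∀ p, ¬ Over O P p) ∨
    ∃ p, ∃ Op ∈ cubeP P, Over Op P p ∧ mx Op ⊆ mx O ∧ ∃ i, O ∈ spec (Bl Op P p i) := by
  constructor
  · rintro (⟨h1, h2⟩ | ⟨Op, hOp, t, ht, t0, hm, hO⟩)
    · exact Or.inl ⟨h1, fun p hp => h2 (h.fix_iff.2 ⟨h1, p, hp⟩)⟩
    · obtain ⟨h1, p, hp⟩ := h.fix_iff.1 hOp
      exact Or.inr ⟨p, Op, h1, hp, hm, BlowA_aux_chart h h1 hp ht t0 hO⟩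
  · rintro (⟨h1, h2⟩ | ⟨p, Op, hOp, hp, hm, i, hO⟩)
    · exact Or.inl ⟨h1, fun hf => let ⟨p, hp⟩ := (h.fix_iff.1 hf).2; h2 p hp⟩
    · exact Or.inr ⟨Op, h.fix_iff.2 ⟨hOp, p, hp⟩, _, (hp.sc_mem (cube_intg hOp) i).1,
        BlowA_aux_ne h p i, hm, by rwa [BlowA_aux_eq hOp hp i]⟩

theorem Cfg.bl_intg (h : Cfg P σ) (hO : O ∈ blP P σ) (i : Fin 3) : Intg O (P i) := by
  rcases h.bl_iff.1 hO with ⟨h1, -⟩ | ⟨p, Op, hOp, -, -, j, hj⟩
  · exact cube_intg h1 i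
  · exact (cube_intg hOp i).mono ((BlowA_aux_le Op p j).trans hj.1)

theorem Cfg.bl_over (h : Cfg P σ) (hO : O ∈ blP P σ) {p : F3} (hp : Over O P p) :
    ∃ Op ∈ cubeP P, Over Op P p ∧ Dom Op O ∧ (∃ i, ∀ j, ur P p i j ∈ O.1) ∧
      ∀ i, (∀ j, ur P p i j ∈ O.1) → O ∈ spec (Bl Op P p i) := by
  rcases h.bl_iff.1 hO with ⟨-, h2⟩ | ⟨p', Op, hOp, hp', hm, j, hj⟩
  · exact absurd hp (h2 p)
  · have hd : Dom Op O := ⟨(BlowA_aux_le Op p' j).trans hj.1, hm⟩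
    obtain rfl := over_inj h.gen (h.bl_intg hO) hp ((over_dom (cube_intg hOp) hd p').1 hp')
    exact ⟨Op, hOp, hp', hd, ⟨j, fun k => hj.1 (BlowA_aux_ur Op p j k)⟩,
      fun i hi => BlowA_aux_change h hj hi⟩

theorem Cfg.bl_sep (h : Cfg P σ) : Sep (blP P σ) := by
  intro O hO O' hO' W hd hd'
  by_cases hW : ∃ p, Over W P p
  · obtain ⟨p, hp⟩ := hW
    obtain ⟨Op, hOp, h1, -, ⟨i, hi⟩, h2⟩ := h.bl_over hO ((over_dom (h.bl_intg hO) hd p).2 hp)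
    obtain ⟨Op', hOp', h1', -, ⟨i', hi'⟩, h2'⟩ :=
      h.bl_over hO' ((over_dom (h.bl_intg hO') hd' p).2 hp)
    obtain rfl := over_unique hOp hOp' h1 h1'
    refine spec_unique (h2 i hi) (h2' i fun j => ?_) hd hd'
    have e : ur P p i j = ur P p i' j * (ur P p i' i)⁻¹ := by
      have := BlowA_aux_ne h p i
      have := BlowA_aux_ne h p i'
      unfold ur
      field_simp
    rw [e]
    refine mul_mem (hi' j) (hd'.inv_mem (hi' i) ?_)
    rw [ur, inv_div]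
    exact hd.1 (hi i')
  · have key : ∀ O ∈ blP P σ, Dom O W → O ∈ cubeP P := fun O hO hd => by
      rcases h.bl_iff.1 hO with ⟨h1, -⟩ | ⟨p, Op, hOp, hp, hm, j, hj⟩
      · exact h1
      · exact absurd ⟨p, (over_dom (cube_intg hOp)
          (Dom.trans ⟨(BlowA_aux_le Op p j).trans hj.1, hm⟩ hd) p).1 hp⟩ hW
    exact cube_sep P O (key O hO hd) O' (key O' hO' hd') W hd hd'

theorem Cfg.bl_centre (h : Cfg P σ) (hI : ∀ i, Intg W (P i))
    (hO : ∀ p, Over W P p → ∃ i, ∀ j, ur P p i j ∈ W.1) : ∃ O ∈ blP P σ, Dom O W := by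
  obtain ⟨Op, hOp, hd⟩ := cube_centre hI
  by_cases hW : ∃ p, Over W P p
  · obtain ⟨p, hp⟩ := hW
    obtain ⟨i, hi⟩ := hO p hp
    obtain ⟨O, h1, h2⟩ := exists_centre _ W (BlowA_aux_bl hd.1 hi)
    exact ⟨O, h.bl_iff.2 (Or.inr ⟨p, Op, hOp, (over_dom (cube_intg hOp) hd p).2 hp, fun f hf =>
      mx_of_le h2.1 (h1.1 (BlowA_aux_le Op p i (mx_sub hf))) (hd.2 hf), i, h1⟩), h2⟩
  · exact ⟨Op, h.bl_iff.2 (Or.inl ⟨hOp, fun p hp =>
      hW ⟨p, (over_dom (cube_intg hOp) hd p).1 hp⟩⟩), hd⟩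

/-- Apply `bl_centre` to the preimage `W` of `V` (`exists_pre`). If `W` is over `p`, choose `v j`
equal to `s j` (when `ξ` is not over `p`) or `s j / s i₀`; the residues are not all zero; take `i`
with minimal valuation. -/
theorem Cfg.bl_proper (h : Cfg P σ) : Proper (blP P σ) := by
  intro ξ hξ V
  obtain ⟨W, hW, hm⟩ := exists_pre ξ (vpt V.1 V.2.2)
  have hle : W.1 ≤ ξ.1 := fun f hf => ((hW f).1 hf).1
  have hI : ∀ i, Intg W (P i) := fun i => BlowA_aux_intg V.2.2 hW (h.bl_intg hξ i)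
  obtain ⟨O, hO, hd⟩ := h.bl_centre hI fun p hp => by
    by_cases hx : Over ξ P p
    · obtain ⟨-, -, -, -, ⟨k, hk⟩, -⟩ := h.bl_over hξ hx
      obtain ⟨i, hi⟩ := BlowA_aux_min V.2.2 hW hk (k := k) (by
        rw [ur, div_self (BlowA_aux_ne h p k)]
        exact isU_one ξ)
      refine ⟨i, fun j => ?_⟩
      have e : ur P p i j = ur P p k j / ur P p k i := by
        have := BlowA_aux_ne h p i
        have := BlowA_aux_ne h p k
        unfold ur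
        field_simp
      rw [e]
      exact hi j
    · obtain ⟨k, hk⟩ := not_forall.1 hx
      have y0 := (h.gen.shift p).yc_ne k
      have ht := (hp.sc_mem hI k).2
      have hs : ∀ j, sc (sh P p j) ∈ ξ.1 := fun j => hle (mx_sub (hp.sc_mem hI j).1)
      have h1 : IsU ξ (tc (sh P p k)) := IsU.inv ⟨y0, not_not.1 hk, hle (mx_sub ht)⟩
      have h2 : IsU ξ (1 - tc (sh P p k) ^ 2) := by
        rw [sub_eq_add_neg, sq]
        exact ((isU_one W).add_mx (mx_neg (mx_mul_left (mx_sub ht) ht))).mono hle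
      refine BlowA_aux_min V.2.2 hW hs (k := k) (isU_of_not_mx (hs k) fun hm => ?_)
      refine (h1.mul h2).not_mx ?_
      rw [tc_eq y0, pow_succ]
      exact mx_mul_left (pow_mem (hs k) 2) hm
  exact ⟨O, hO, hd.1.trans hle, V.2.1, fun g hg => ((hW g).1 (hd.1 hg)).2,
    fun g hg => mem_mx_vpt.1 ((hm g).1 (hd.2 hg)).2⟩

end Pool.Agent.MP_95da86_ag
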