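import Pool.Agent.MP_95da86_ag.Form
import Pool.Agent.MP_95da86_ag.QF

/-! The numerical constraints on curves. -/

namespace Pool.Agent.MP_95da86_ag

variable {L : Type} [Field L] [Algebra ℂ L] {P : Fin 3 → EP L} {σ : L ≃ₐ[ℂ] L} {ξ : Pt L}

theorem CAx_aux_ht_tors {M : Type} [Field M] [Algebra ℂ M] (hF : IsFF ℂ M) (τ : ZMod 3) :
    ht ℂ (tors M τ) = 0 :=
  (ht_eq_zero hF _).2 ⟨tors ℂ τ, by rw [up_eq_cst, cst_tors]⟩

theorem CAx_aux_lin_single {M : Type} [Field M] [Algebra ℂ M] (Q : Fin 3 → EP M) (i : Fin 3) :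
    lin (Pi.single i 1) Q = Q i := by
  unfold lin
  rw [Finset.sum_eq_single i]
  · simp
  · intro j _ hj
    simp [Pi.single_eq_of_ne hj]
  · simp

theorem CAx_aux_dotb_single (i : Fin 3) (p : F3) : dotb (Pi.single i 1) p = p i := by
  unfold dotb
  rw [Finset.sum_eq_single i]
  · simp
  · intro j _ hj
    simp [Pi.single_eq_of_ne hj]
  · simp

theorem CAx_aux_bar_single (i : Fin 3) : ∃ j, bar ((Pi.single i 1 : Lam) j) ≠ 0 :=
  ⟨i, by simp⟩

theorem CAx_aux_cart (h : Cfg P σ) (p : F3) : IsCartier (blP P σ) (pull σ (eX P σ p)) :=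
  (h.eX_cartier p).to_pull

/-- A strict transform whose equation is a unit at `ξ` meets the curve non-negatively. -/
theorem Cfg.s_ineq (h : Cfg P σ) (hξ : ξ ∈ blP P σ) (hF : IsFF ℂ (RF ξ)) {l : Lam}
    (hl : ∃ i, bar (l i) ≠ 0) (τ : ZMod 3)
    (hu : IsU ξ (((zq (yc (lin l P - tors L τ)) / ∏ p with dotb l p = τ, pull σ (eX P σ p)) ξ : Lˣ) : L)) :
    ∑ p with dotb l p = τ, deg (blP P σ) (pull σ (eX P σ p)) ξ ≤
      ht ℂ (lin l fun i => red ξ (P i)) := by
  have hS := h.bl_sep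
  have hP := h.bl_proper
  have hz : IsCartier (blP P σ) (zq (yc (lin l P - tors L τ))) := by
    have := h.zq_cartier l (tors ℂ τ)
    rwa [cst_tors] at this
  have hdz : deg (blP P σ) (zq (yc (lin l P - tors L τ))) ξ =
      ht ℂ (lin l fun i => red ξ (P i)) := by
    have := h.deg_zq_lin hξ hF l (tors ℂ τ)
    rwa [cst_tors] at this
  have he : IsCartier (blP P σ) (∏ p with dotb l p = τ, pull σ (eX P σ p)) :=
    isCartier_prod _ _ fun p _ => CAx_aux_cart h p
  have hf := hz.div he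
  have h0 := deg_nonneg hS hP hξ hF hf (h.finT hξ hF hf) (fun O hO => h.s_eff hl τ hO) hu
  have h1 := deg_mul hS hP hξ hF hf he (h.finT hξ hF hf) (h.finT hξ hF he)
  rw [div_mul_cancel, hdz,
    deg_prod hS hP hξ hF _ _ (fun p _ => CAx_aux_cart h p) fun p _ => h.finT_eX hξ hF p] at h1
  linarith

/-- A curve in the exceptional plane over `p` does not meet the other planes. -/
theorem Cfg.m_other (h : Cfg P σ) (hξ : ξ ∈ blP P σ) (hF : IsFF ℂ (RF ξ)) {p p' : F3}
    (hp : Over ξ P p) (hne : p' ≠ p) : deg (blP P σ) (pull σ (eX P σ p')) ξ = 0 := by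
  rw [deg_eq_finsum h.bl_sep h.bl_proper hξ]
  refine finsum_eq_zero_of_forall_eq_zero fun V => ?_
  have := hF.dvr V
  have hb := cen_spec h.bl_proper hξ V
  have h1 : ∀ O ∈ blP P σ, O.1 ≤ ξ.1 → pull σ (eX P σ p') O = 1 := fun O hO hle =>
    h.pull_eX_not fun hO' => hne (over_inj h.gen (h.bl_intg hO) hO' (hp.of_le hle))
  rw [term, h1 _ hb.1 hb.2.1, h1 ξ hξ le_rfl, div_one, Units.val_one, res_one, ord_one]

/-- Use `s_ineq` for `ℓ = e i`, `τ = p i`, where `i` is the index of `pull_eX_over` at `ξ`. -/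
theorem Cfg.m_nonpos (h : Cfg P σ) (hξ : ξ ∈ blP P σ) (hF : IsFF ℂ (RF ξ)) {p : F3}
    (hp : Over ξ P p) : deg (blP P σ) (pull σ (eX P σ p)) ξ ≤ 0 := by
  obtain ⟨i, -, hi⟩ := h.pull_eX_over hξ hp
  have hmem : p ∈ Finset.univ.filter fun p' => dotb (Pi.single i 1) p' = p i := by
    simp [CAx_aux_dotb_single]
  have hprod : (∏ p' with dotb (Pi.single i 1) p' = p i, pull σ (eX P σ p')) ξ =
      pull σ (eX P σ p) ξ := by
    rw [Finset.prod_apply]
    refine Finset.prod_eq_single_of_mem p hmem fun p' _ hne => ?_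
    exact h.pull_eX_not fun hO' => hne (over_inj h.gen (h.bl_intg hξ) hO' hp)
  have hu : IsU ξ (((zq (yc (lin (Pi.single i 1) P - tors L (p i))) /
      ∏ p' with dotb (Pi.single i 1) p' = p i, pull σ (eX P σ p')) ξ : Lˣ) : L) := by
    have e : zq (yc (lin (Pi.single i 1) P - tors L (p i))) ξ = pull σ (eX P σ p) ξ := by
      rw [CAx_aux_lin_single]
      refine Units.ext ?_
      rw [hi]
      exact zq_of_not_mem (hp i)
    rw [Pi.div_apply, hprod, e, div_self', Units.val_one]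
    exact isU_one ξ
  have h1 := h.s_ineq hξ hF (CAx_aux_bar_single i) (p i) hu
  rw [CAx_aux_lin_single, (over_iff_red h.gen (h.bl_intg hξ) p).1 hp i, CAx_aux_ht_tors hF,
    Finset.sum_eq_single_of_mem p hmem fun p' _ hne => h.m_other hξ hF hp hne] at h1
  exact h1

theorem Cfg.m_nonneg (h : Cfg P σ) (hξ : ξ ∈ blP P σ) (hF : IsFF ℂ (RF ξ)) {p : F3}
    (hp : ¬ Over ξ P p) : 0 ≤ deg (blP P σ) (pull σ (eX P σ p)) ξ := by
  refine deg_nonneg h.bl_sep h.bl_proper hξ hF (CAx_aux_cart h p) (h.finT_eX hξ hF p)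
    (fun O hO => ?_) ?_
  · rw [coe_pull]
    exact mem_qpt.1 (h.eX_eff p _ (mem_XP.2 ⟨O, hO, rfl⟩))
  · rw [h.pull_eX_not hp, Units.val_one]
    exact isU_one ξ

theorem CAx_aux_ineq (h : Cfg P σ) (hξ : ξ ∈ blP P σ) (hF : IsFF ℂ (RF ξ))
    (hno : ∀ p, ¬ Over ξ P p) {l : Lam} (hl : ∃ i, bar (l i) ≠ 0) (τ : ZMod 3)
    (hne : (lin l fun i => red ξ (P i)) ≠ tors (RF ξ) τ) :
    ∑ p with dotb l p = τ, deg (blP P σ) (pull σ (eX P σ p)) ξ ≤
      ht ℂ (lin l fun i => red ξ (P i)) := by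
  refine h.s_ineq hξ hF hl τ ?_
  have hI := h.bl_intg hξ
  have hI' : Intg ξ (lin l P - tors L τ) := (intg_lin hI l).sub (intg_tors τ)
  have hy : yc (lin l P - tors L τ) ∈ ξ.1 := by
    by_contra hy
    have h0 := (red_eq_zero hI').2 (Or.inr hy)
    rw [red_sub (intg_lin hI l) (intg_tors τ), red_lin hI, red_tors, sub_eq_zero] at h0
    exact hne h0
  have hprod : (∏ p with dotb l p = τ, pull σ (eX P σ p)) ξ = 1 := by
    rw [Finset.prod_apply]
    exact Finset.prod_eq_one fun p _ => h.pull_eX_not (hno p)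
  rw [Pi.div_apply, hprod, zq_of_mem hy, div_one, Units.val_one]
  exact isU_one ξ

/-- If `ξ` is over no fixed point, `s_ineq` applies whenever `ℓ φ ≠ τ T`; this fails for at most
one `τ`, and then `ht (ℓ φ) = 0`. For each `p` some `φ i ≠ p i T`, so `m p ≤ q (e i)`. -/
theorem Cfg.curveAx (h : Cfg P σ) (η : Curve (XP P σ)) : CurveAx (qX P σ η) (mX P σ η) := by
  obtain ⟨ξ, hξ, e⟩ := mem_XP.1 η.2.1
  obtain ⟨hF, n, hn, -, hq, hm⟩ := h.lift_data η hξ e
  have hn' : (0 : ℝ) < n := by exact_mod_cast hn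
  have hI := h.bl_intg hξ
  have hq0 : ∀ l τ, (lin l fun i => red ξ (P i)) = tors (RF ξ) τ → qX P σ η l = 0 := by
    intro l τ hl
    have := hq l
    rw [hl, CAx_aux_ht_tors hF, Int.cast_zero] at this
    exact (mul_eq_zero.1 this).resolve_left hn'.ne'
  refine ⟨?_, fun l => ?_, ?_⟩
  · have := (isQF_ht hF fun i => red ξ (P i)).const_smul (n : ℝ)⁻¹
    have e' : qX P σ η = (n : ℝ)⁻¹ • fun l => (ht ℂ (lin l fun i => red ξ (P i)) : ℝ) := by
      funext l
      rw [Pi.smul_apply, ← hq l, smul_eq_mul, inv_mul_cancel_left₀ hn'.ne']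
    rw [e']
    exact this
  · have h1 : (0 : ℝ) ≤ n * qX P σ η l := by
      rw [hq l]
      exact_mod_cast ht_nonneg _
    exact nonneg_of_mul_nonneg_right h1 hn'
  by_cases hov : ∃ p, Over ξ P p
  · obtain ⟨p, hp⟩ := hov
    refine Or.inl ⟨fun l => hq0 l (dotb l p) ?_, fun p' => ?_⟩
    · rw [← lin_tors]
      congr 1
      funext i
      exact (over_iff_red h.gen hI p).1 hp i
    · have h1 : (n : ℝ) * mX P σ η p' ≤ 0 := by
        rw [hm p']
        by_cases hpp : p' = p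
        · rw [hpp]
          exact_mod_cast h.m_nonpos hξ hF hp
        · rw [h.m_other hξ hF hp hpp, Int.cast_zero]
      by_contra hc
      exact absurd (mul_pos hn' (not_le.1 hc)) (not_lt.2 h1)
  · have hno : ∀ p, ¬ Over ξ P p := fun p hp => hov ⟨p, hp⟩
    have hm0 : ∀ p, 0 ≤ mX P σ η p := fun p => by
      have h1 : (0 : ℝ) ≤ n * mX P σ η p := by
        rw [hm p]
        exact_mod_cast h.m_nonneg hξ hF (hno p)
      by_contra hc
      exact absurd (mul_neg_of_pos_of_neg hn' (not_le.1 hc)) (not_lt.2 h1)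
    have key : ∀ l : Lam, (∃ i, bar (l i) ≠ 0) → ∀ τ,
        (lin l fun i => red ξ (P i)) ≠ tors (RF ξ) τ →
        ∑ p with dotb l p = τ, mX P σ η p ≤ qX P σ η l := by
      intro l hl τ hne
      have h1 := CAx_aux_ineq h hξ hF hno hl τ hne
      refine le_of_mul_le_mul_left ?_ hn'
      rw [hq l, Finset.mul_sum, Finset.sum_congr rfl fun p _ => hm p]
      exact_mod_cast h1
    refine Or.inr ⟨hm0, fun h0 p => ?_, fun l hl => ?_⟩
    · have h1 : ∃ i, red ξ (P i) ≠ tors (RF ξ) (p i) := by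
        by_contra hc
        push Not at hc
        exact hno p ((over_iff_red h.gen hI p).2 hc)
      obtain ⟨i, hi⟩ := h1
      have h2 := key (Pi.single i 1) (CAx_aux_bar_single i) (p i)
        (by rw [CAx_aux_lin_single]; exact hi)
      rw [h0] at h2
      have hmem : p ∈ Finset.univ.filter fun p' => dotb (Pi.single i 1) p' = p i := by
        simp [CAx_aux_dotb_single]
      exact le_antisymm ((Finset.single_le_sum (fun p' _ => hm0 p') hmem).trans h2) (hm0 p)
    · by_cases hex : ∃ τ₀, (lin l fun i => red ξ (P i)) = tors (RF ξ) τ₀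
      · obtain ⟨τ₀, hτ₀⟩ := hex
        refine ⟨τ₀, fun τ hτ => key l hl τ fun hc => ?_⟩
        rcases hτ with hτ | hτ
        · exact hτ (tors_injective (hc.symm.trans hτ₀))
        · exact hτ (hq0 l τ hc)
      · exact ⟨0, fun τ _ => key l hl τ fun hc => hex ⟨τ, hc⟩⟩

end Pool.Agent.MP_95da86_ag
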