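import Pool.Agent.MP_95da86_ag.Blow

/-! Cartier divisors: the group structure and the explicit divisors. -/

namespace Pool.Agent.MP_95da86_ag

section General

variable {M : Type} [Field M] [Algebra ℂ M] {Y : Set (Pt M)} {f g : Pt M → Mˣ}

theorem isCartier_iff : IsCartier Y f ↔ ∀ O ∈ Y, ∃ S : Finset M, (S : Set M) ⊆ O.1 ∧
    ∀ O' ∈ Y, (S : Set M) ⊆ O'.1 → IsU O' ((f O' / f O : Mˣ) : M) := by
  have key : ∀ O O' : Pt M, (((f O' / f O : Mˣ) : M) ∈ O'.1 ∧ ((f O / f O' : Mˣ) : M) ∈ O'.1) ↔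
      IsU O' ((f O' / f O : Mˣ) : M) := by
    intro O O'
    have e : ((f O' / f O : Mˣ) : M)⁻¹ = ((f O / f O' : Mˣ) : M) := by
      rw [← Units.val_inv_eq_inv_val, inv_div]
    rw [IsU, e]
    exact ⟨fun h => ⟨Units.ne_zero _, h⟩, fun h => h.2⟩
  simp only [IsCartier, key]
theorem isCartier_const (u : Mˣ) : IsCartier Y fun _ => u :=
  isCartier_iff.2 fun _ _ => ⟨∅, by simp, fun O' _ _ => by simpa using isU_one O'⟩
theorem isCartier_one : IsCartier Y 1 := isCartier_const 1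
theorem IsCartier.mul (hf : IsCartier Y f) (hg : IsCartier Y g) : IsCartier Y (f * g) := by
  classical
  rw [isCartier_iff] at hf hg ⊢
  intro O hO
  obtain ⟨S, hS, h⟩ := hf O hO
  obtain ⟨T, hT, h'⟩ := hg O hO
  refine ⟨S ∪ T, by rw [Finset.coe_union]; exact Set.union_subset hS hT, fun O' hO' hs => ?_⟩
  rw [Finset.coe_union, Set.union_subset_iff] at hs
  have := (h O' hO' hs.1).mul (h' O' hO' hs.2)
  rwa [← Units.val_mul, div_mul_div_comm] at this
theorem IsCartier.inv (hf : IsCartier Y f) : IsCartier Y f⁻¹ := by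
  rw [isCartier_iff] at hf ⊢
  intro O hO
  obtain ⟨S, hS, h⟩ := hf O hO
  refine ⟨S, hS, fun O' hO' hs => ?_⟩
  have := (h O' hO' hs).inv
  rw [← Units.val_inv_eq_inv_val, inv_div] at this
  rwa [Pi.inv_apply, Pi.inv_apply, inv_div_inv]
theorem IsCartier.div (hf : IsCartier Y f) (hg : IsCartier Y g) : IsCartier Y (f / g) := by
  rw [div_eq_mul_inv]; exact hf.mul hg.inv
theorem IsCartier.zpow (hf : IsCartier Y f) (n : ℤ) : IsCartier Y (f ^ n) := by
  rw [isCartier_iff] at hf ⊢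
  intro O hO
  obtain ⟨S, hS, h⟩ := hf O hO
  refine ⟨S, hS, fun O' hO' hs => ?_⟩
  have := (h O' hO' hs).zpow n
  rwa [← Units.val_zpow_eq_zpow_val, div_zpow] at this
theorem IsCartier.pow (hf : IsCartier Y f) (n : ℕ) : IsCartier Y (f ^ n) := by
  have := hf.zpow n
  rwa [zpow_natCast] at this
theorem isCartier_prod {ι : Type} (s : Finset ι) (F : ι → Pt M → Mˣ)
    (h : ∀ i ∈ s, IsCartier Y (F i)) : IsCartier Y (∏ i ∈ s, F i) :=
  Finset.prod_induction F (IsCartier Y) (fun _ _ ha hb => ha.mul hb) isCartier_one h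
theorem IsCartier.compat (hf : IsCartier Y f) {O O' : Pt M} (hO : O ∈ Y) (hO' : O' ∈ Y)
    (hle : O.1 ≤ O'.1) : IsU O' ((f O / f O' : Mˣ) : M) := by
  obtain ⟨S, hS, h⟩ := isCartier_iff.1 hf O hO
  have := (h O' hO' fun x hx => hle (hS hx)).inv
  rwa [← Units.val_inv_eq_inv_val, inv_div] at this
theorem Triv.isCartier (hf : Triv Y f) : IsCartier Y f := by
  classical
  rw [isCartier_iff]
  intro O hO
  refine ⟨{(f O : M), (f O : M)⁻¹}, ?_, fun O' hO' hs => ?_⟩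
  · intro x hx
    simp only [Finset.coe_insert, Finset.coe_singleton, Set.mem_insert_iff,
      Set.mem_singleton_iff] at hx
    rcases hx with rfl | rfl
    · exact (hf O hO).2.1
    · exact (hf O hO).2.2
  · rw [Units.val_div_eq_div_val]
    exact (hf O' hO').div ⟨Units.ne_zero _, hs (by simp), hs (by simp)⟩
theorem zq_of_mem {y : M} {O : Pt M} (h : y ∈ O.1) : zq y O = 1 := dif_pos h
theorem zq_of_not_mem {y : M} {O : Pt M} (h : y ∉ O.1) : (zq y O : M) = y⁻¹ := by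
  rw [zq, dif_neg h, Units.val_inv_eq_inv_val, Units.val_mk0]
theorem isCartier_zq {y : M} (h : ∀ O ∈ Y, y ∈ O.1 ∨ y⁻¹ ∈ O.1) : IsCartier Y (zq y) := by
  rw [isCartier_iff]
  intro O hO
  by_cases hy : y ∈ O.1
  · refine ⟨{y}, by simpa using hy, fun O' _ hs => ?_⟩
    rw [zq_of_mem hy, zq_of_mem (hs (by simp))]
    simpa using isU_one O'
  · have hy0 : y ≠ 0 := fun h0 => hy (h0 ▸ zero_mem _)
    refine ⟨{y⁻¹}, by simpa using (h O hO).resolve_left hy, fun O' _ hs => ?_⟩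
    have hi : y⁻¹ ∈ O'.1 := hs (by simp)
    rw [Units.val_div_eq_div_val, zq_of_not_mem hy]
    by_cases hy' : y ∈ O'.1
    · rw [zq_of_mem hy', Units.val_one, one_div, inv_inv]
      exact ⟨hy0, hy', hi⟩
    · rw [zq_of_not_mem hy', div_self (inv_ne_zero hy0)]
      exact isU_one O'

theorem Cart_aux_one_sub {O : Pt M} {t : M} (ht : t ∈ mx O) : IsU O (1 - t ^ 2) := by
  have := (isU_one O).add_mx (mx_neg (mx_mul_left (mx_sub ht) ht))
  rwa [← sub_eq_add_neg, ← sq] at this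

theorem Cart_aux_ratio {Q Q' : EP M} (hy : yc Q ≠ 0) (hy' : yc Q' ≠ 0) (hs : sc Q' ≠ 0)
    (h1 : 1 - tc Q ^ 2 ≠ 0) :
    tc Q / tc Q' = (sc Q / sc Q') ^ 3 * (1 - tc Q' ^ 2) * (1 - tc Q ^ 2)⁻¹ := by
  have e := tc_eq hy
  have e' := tc_eq hy'
  have ht : tc Q' ≠ 0 := inv_ne_zero hy'
  rw [div_pow, ← e, ← e']
  have h2 : 1 - tc Q' ^ 2 ≠ 0 := by
    intro h0
    rw [h0, mul_zero] at e'
    exact pow_ne_zero 3 hs e'.symm
  field_simp

theorem Cart_aux_zq_mem {O : Pt M} {Q : EP M} (h : Intg O Q) : yc Q ∈ O.1 ∨ (yc Q)⁻¹ ∈ O.1 := by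
  rcases h with h | h
  · exact Or.inl h.2
  · exact Or.inr h.2

end General

variable {L : Type} [Field L] [Algebra ℂ L] {P : Fin 3 → EP L} {σ : L ≃ₐ[ℂ] L} {O : Pt L}

theorem mem_XP {O' : Pt (KK σ)} : O' ∈ XP P σ ↔ ∃ O ∈ blP P σ, O' = qpt (KK σ) O := by
  constructor
  · rintro ⟨O, hO, h⟩
    exact ⟨O, hO, Subtype.ext (Subalgebra.ext h)⟩
  · rintro ⟨O, hO, rfl⟩
    exact ⟨O, hO, fun _ => Iff.rfl⟩
theorem coe_pull (f : Pt (KK σ) → (KK σ)ˣ) (O : Pt L) :
    (pull σ f O : L) = ((f (qpt (KK σ) O) : KK σ) : L) := rfl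
theorem pull_mul (f g : Pt (KK σ) → (KK σ)ˣ) : pull σ (f * g) = pull σ f * pull σ g :=
  funext fun _ => map_mul _ _ _
theorem pull_inv (f : Pt (KK σ) → (KK σ)ˣ) : pull σ f⁻¹ = (pull σ f)⁻¹ :=
  funext fun _ => map_inv _ _
theorem pull_one : pull σ 1 = 1 := funext fun _ => map_one _
theorem pull_prod {ι : Type} (s : Finset ι) (F : ι → Pt (KK σ) → (KK σ)ˣ) :
    pull σ (∏ i ∈ s, F i) = ∏ i ∈ s, pull σ (F i) := by
  classical
  induction s using Finset.induction_on with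
  | empty => rw [Finset.prod_empty, Finset.prod_empty, pull_one]
  | insert a s ha ih => rw [Finset.prod_insert ha, Finset.prod_insert ha, pull_mul, ih]

theorem Cart_aux_isU_div (f : Pt (KK σ) → (KK σ)ˣ) (O O' : Pt L) :
    IsU (qpt (KK σ) O') ((f (qpt (KK σ) O') / f (qpt (KK σ) O) : (KK σ)ˣ) : KK σ) ↔
      IsU O' ((pull σ f O' / pull σ f O : Lˣ) : L) := by
  rw [isU_qpt, Units.val_div_eq_div_val, Units.val_div_eq_div_val, coe_pull, coe_pull]
  rfl

theorem Cart_aux_xc_ne (hP : Gen3 P) (i : Fin 3) : xc (P i) ≠ 0 := fun h0 =>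
  hP.ind.transcendental i (by rw [h0]; exact isAlgebraic_zero)

theorem Cart_aux_yc_ne (hP : Gen3 P) (i : Fin 3) : yc (P i) ≠ 0 := by
  intro h0
  have e := eqn_of_ne (hP.ne i)
  rw [h0] at e
  refine hP.ind.transcendental i (IsAlgebraic.of_pow (n := 3) (by norm_num) ?_)
  have : xc (P i) ^ 3 = -1 := by linear_combination -e
  rw [this]
  exact isAlgebraic_one.neg

theorem Cart_aux_sc_ne (h : Cfg P σ) (p : F3) (i : Fin 3) : sc (sh P p i) ≠ 0 :=
  div_ne_zero (Cart_aux_xc_ne (h.shift p).gen i) (Cart_aux_yc_ne (h.shift p).gen i)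

theorem Cart_aux_yc_sh (h : Cfg P σ) (p : F3) (i : Fin 3) : yc (sh P p i) ≠ 0 :=
  Cart_aux_yc_ne (h.shift p).gen i

theorem Cart_aux_tc_inv (h : Cfg P σ) (p : F3) (i : Fin 3) :
    σ (tc (sh P p i)) = tc (sh P p i) := by
  rw [tc, map_inv₀, (h.shift p).map_yc]

theorem Cart_aux_ur_inv (h : Cfg P σ) (p : F3) (i j : Fin 3) : σ (ur P p i j) = ur P p i j := by
  have e : ∀ k, σ (sc (sh P p k)) = zt L * sc (sh P p k) := fun k => by
    rw [sc, map_div₀, (h.shift p).map_xc, (h.shift p).map_yc, mul_div_assoc]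
  rw [ur, map_div₀, e, e, mul_div_mul_left _ _ zt_ne_zero]

theorem Cart_aux_yc_inv (h : Cfg P σ) (l : Lam) (τ : ZMod 3) :
    σ (yc (lin l P - tors L τ)) = yc (lin l P - tors L τ) := by
  have := congrArg yc (h.map_lin l τ)
  rwa [yc_emap, yc_om] at this

theorem Cart_aux_intg (h : Cfg P σ) (hO : O ∈ blP P σ) (l : Lam) (τ : ZMod 3) :
    Intg O (lin l P - tors L τ) :=
  (intg_lin (h.bl_intg hO) l).sub (intg_tors τ)

theorem Cart_aux_red (h : Cfg P σ) (hI : ∀ i, Intg O (P i)) {p : F3} (hp : Over O P p) (l : Lam)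
    (τ : ZMod 3) : red O (lin l P - tors L τ) = tors (RF O) (dotb l p - τ) := by
  rw [red_sub (intg_lin hI l) (intg_tors τ), red_lin hI, red_tors, tors_sub, ← lin_tors]
  congr 2
  exact funext ((over_iff_red h.gen hI p).1 hp)

theorem Cart_aux_div_mem {Op : Pt L} {p : F3} (hOp : Op ∈ cubeP P) (hp : Over Op P p)
    (hle : Op.1 ≤ O.1) {i : Fin 3} (hi : ∀ j, ur P p i j ∈ O.1) {r : L} (hr : r ∈ mx Op) :
    r / sc (sh P p i) ∈ O.1 := by
  obtain ⟨a, ha, rfl⟩ := over_gen hOp hp hr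
  rw [Finset.sum_div]
  refine sum_mem fun j _ => ?_
  rw [mul_div_assoc]
  exact mul_mem (hle (ha j)) (hi j)

theorem IsCartier.to_pull {f : Pt (KK σ) → (KK σ)ˣ} (hf : IsCartier (XP P σ) f) :
    IsCartier (blP P σ) (pull σ f) := by
  classical
  rw [isCartier_iff] at hf ⊢
  intro O hO
  obtain ⟨S, hS, h⟩ := hf _ (mem_XP.2 ⟨O, hO, rfl⟩)
  refine ⟨S.image Subtype.val, ?_, fun O' hO' hs => ?_⟩
  · intro x hx
    rw [Finset.coe_image] at hx
    obtain ⟨y, hy, rfl⟩ := hx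
    exact hS hy
  · rw [← Cart_aux_isU_div]
    refine h _ (mem_XP.2 ⟨O', hO', rfl⟩) fun y hy => ?_
    exact hs (by rw [Finset.coe_image]; exact ⟨y, hy, rfl⟩)
theorem Cfg.zq_cartier (h : Cfg P σ) (l : Lam) (c : EP ℂ) :
    IsCartier (blP P σ) (zq (yc (lin l P - cst L c))) :=
  isCartier_zq fun _ hO => Cart_aux_zq_mem ((intg_lin (h.bl_intg hO) l).sub (intg_cst c))
theorem Cfg.pull_zX (h : Cfg P σ) (l : Lam) (τ : ZMod 3) :
    pull σ (zX P σ l τ) = zq (yc (lin l P - tors L τ)) := by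
  funext O
  apply Units.ext
  have e := coe_toK (Cart_aux_yc_inv h l τ)
  rw [coe_pull, zX]
  by_cases hy : yc (lin l P - tors L τ) ∈ O.1
  · rw [zq_of_mem hy, zq_of_mem (by rw [mem_qpt, e]; exact hy)]
    rfl
  · rw [zq_of_not_mem hy, zq_of_not_mem (by rw [mem_qpt, e]; exact hy), ← e]
    rw [e]
    push_cast
    rw [e]
theorem Cfg.zX_cartier (h : Cfg P σ) (l : Lam) (τ : ZMod 3) : IsCartier (XP P σ) (zX P σ l τ) := by
  refine isCartier_zq fun O' hO' => ?_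
  obtain ⟨O, hO, rfl⟩ := mem_XP.1 hO'
  have e := coe_toK (Cart_aux_yc_inv h l τ)
  rw [mem_qpt, mem_qpt]
  push_cast
  rw [e]
  exact Cart_aux_zq_mem (Cart_aux_intg h hO l τ)
theorem Cfg.pull_eX_over (h : Cfg P σ) (hO : O ∈ blP P σ) {p : F3} (hp : Over O P p) :
    ∃ i, (∀ j, ur P p i j ∈ O.1) ∧ (pull σ (eX P σ p) O : L) = tc (sh P p i) := by
  have et := fun i => coe_toK (Cart_aux_tc_inv h p i)
  have eu := fun i j => coe_toK (Cart_aux_ur_inv h p i j)
  obtain ⟨-, -, -, -, ⟨i, hi⟩, -⟩ := h.bl_over hO hp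
  have hex : ∃ i, toK σ (tc (sh P p i)) ≠ 0 ∧
      (∀ j, toK σ (tc (sh P p j)) ∈ mx (qpt (KK σ) O)) ∧
      ∀ j, toK σ (ur P p i j) ∈ (qpt (KK σ) O).1 := by
    refine ⟨i, fun h0 => ?_, fun j => ?_, fun j => ?_⟩
    · have := et i
      rw [h0] at this
      exact inv_ne_zero (Cart_aux_yc_sh h p i) this.symm
    · rw [mem_mx_qpt, et]
      exact (hp.sc_mem (h.bl_intg hO) j).2
    · rw [mem_qpt, eu]
      exact hi j
  refine ⟨hex.choose, fun j => ?_, ?_⟩
  · have := hex.choose_spec.2.2 j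
    rwa [mem_qpt, eu] at this
  · rw [coe_pull, eX, eq3, dif_pos hex, Units.val_mk0, et]
theorem Cfg.pull_eX_not (h : Cfg P σ) {p : F3} (hp : ¬ Over O P p) :
    pull σ (eX P σ p) O = 1 := by
  have et := fun i => coe_toK (Cart_aux_tc_inv h p i)
  apply Units.ext
  rw [coe_pull, eX, eq3, dif_neg]
  · rfl
  · rintro ⟨i, -, hm, -⟩
    refine hp fun j => not_mem_of_tc (Cart_aux_yc_sh h p j) ?_
    have := hm j
    rwa [mem_mx_qpt, et] at this
/-- Near a point over `p` with index `i` use `S = {t j, s j / s i, (1 - t j ^ 2)⁻¹}`; near a point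
with `y j ∈ O` use `S = {y j}`. -/
theorem Cfg.eX_cartier (h : Cfg P σ) (p : F3) : IsCartier (XP P σ) (eX P σ p) := by
  classical
  have et := fun i => coe_toK (Cart_aux_tc_inv h p i)
  have eu := fun i j => coe_toK (Cart_aux_ur_inv h p i j)
  have hy := Cart_aux_yc_sh h p
  have hs := Cart_aux_sc_ne h p
  rw [isCartier_iff]
  intro O' hO'
  obtain ⟨O, hO, rfl⟩ := mem_XP.1 hO'
  by_cases hp : Over O P p
  · obtain ⟨i, hi, e⟩ := h.pull_eX_over hO hp
    have h1 : ∀ j, IsU O (1 - tc (sh P p j) ^ 2) := fun j =>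
      Cart_aux_one_sub (hp.sc_mem (h.bl_intg hO) j).2
    have ev : ∀ j, (((1 - toK σ (tc (sh P p j)) ^ 2)⁻¹ : KK σ) : L) =
        (1 - tc (sh P p j) ^ 2)⁻¹ := fun j => by
      push_cast
      rw [et]
    refine ⟨(Finset.univ.image fun j => toK σ (tc (sh P p j))) ∪
      (Finset.univ.image fun j => toK σ (ur P p i j)) ∪
      Finset.univ.image fun j => (1 - toK σ (tc (sh P p j)) ^ 2)⁻¹, ?_, fun O₂' hO₂' hS => ?_⟩
    · intro x hx
      simp only [Finset.coe_union, Finset.coe_image, Finset.coe_univ, Set.image_univ,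
        Set.mem_union, Set.mem_range] at hx
      rcases hx with (⟨j, rfl⟩ | ⟨j, rfl⟩) | ⟨j, rfl⟩
      · rw [SetLike.mem_coe, mem_qpt, et]
        exact mx_sub (hp.sc_mem (h.bl_intg hO) j).2
      · rw [SetLike.mem_coe, mem_qpt, eu]
        exact hi j
      · rw [SetLike.mem_coe, mem_qpt, ev]
        exact (h1 j).2.2
    · obtain ⟨O₂, hO₂, rfl⟩ := mem_XP.1 hO₂'
      have m1 : ∀ j, tc (sh P p j) ∈ O₂.1 := fun j => by
        rw [← et]
        exact hS (by simp)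
      have m2 : ∀ j, ur P p i j ∈ O₂.1 := fun j => by
        rw [← eu]
        exact hS (by simp)
      have m3 : ∀ j, IsU O₂ (1 - tc (sh P p j) ^ 2) := fun j => by
        refine ⟨(h1 j).1, sub_mem (one_mem _) (pow_mem (m1 j) 2), ?_⟩
        rw [← ev, ← mem_qpt]
        exact hS (by simp)
      rw [Cart_aux_isU_div, Units.val_div_eq_div_val, e]
      by_cases hp₂ : Over O₂ P p
      · obtain ⟨k, hk, e₂⟩ := h.pull_eX_over hO₂ hp₂
        rw [e₂, Cart_aux_ratio (hy k) (hy i) (hs i) (m3 k).1]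
        have hu : IsU O₂ (sc (sh P p k) / sc (sh P p i)) :=
          ⟨div_ne_zero (hs k) (hs i), m2 k, by rw [inv_div]; exact hk i⟩
        exact ((hu.pow 3).mul (m3 i)).mul (m3 k).inv
      · rw [h.pull_eX_not hp₂, Units.val_one, one_div]
        refine IsU.inv ?_
        obtain ⟨k, hk⟩ := not_forall.1 hp₂
        rw [not_not] at hk
        have hu : IsU O₂ (tc (sh P p k)) :=
          ⟨inv_ne_zero (hy k), m1 k, by rw [tc, inv_inv]; exact hk⟩
        refine isU_of_not_mx (m1 i) fun hm => hu.not_mx ?_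
        have hw : tc (sh P p k) / tc (sh P p i) ∈ O₂.1 := by
          rw [Cart_aux_ratio (hy k) (hy i) (hs i) (m3 k).1]
          exact mul_mem (mul_mem (pow_mem (m2 k) 3) (m3 i).2.1) (m3 k).2.2
        have := mx_mul_left hw hm
        rwa [div_mul_cancel₀ _ (show tc (sh P p i) ≠ 0 from inv_ne_zero (hy i))] at this
  · obtain ⟨k, hk⟩ := not_forall.1 hp
    rw [not_not] at hk
    have ey := coe_toK ((h.shift p).map_yc k)
    refine ⟨{toK σ (yc (sh P p k))}, ?_, fun O₂' hO₂' hS => ?_⟩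
    · rw [Finset.coe_singleton, Set.singleton_subset_iff, SetLike.mem_coe, mem_qpt, ey]
      exact hk
    · obtain ⟨O₂, hO₂, rfl⟩ := mem_XP.1 hO₂'
      rw [Finset.coe_singleton, Set.singleton_subset_iff, SetLike.mem_coe, mem_qpt, ey] at hS
      rw [Cart_aux_isU_div, h.pull_eX_not hp, h.pull_eX_not fun hp₂ => hp₂ k hS]
      simpa using isU_one O₂
theorem Cfg.eX_eff (h : Cfg P σ) (p : F3) : ∀ O' ∈ XP P σ, (eX P σ p O' : KK σ) ∈ O'.1 := by
  intro O' hO'
  obtain ⟨O, hO, rfl⟩ := mem_XP.1 hO'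
  rw [mem_qpt, ← coe_pull]
  by_cases hp : Over O P p
  · obtain ⟨i, -, e⟩ := h.pull_eX_over hO hp
    rw [e]
    exact mx_sub (hp.sc_mem (h.bl_intg hO) i).2
  · rw [h.pull_eX_not hp]
    exact one_mem _
/-- For any `r` generating the maximal ideal of `Op` in `O`, the equation is a unit times `r ^ 3`. -/
theorem Cfg.eX_gen (h : Cfg P σ) (hO : O ∈ blP P σ) {p : F3} {Op : Pt L} (hOp : Op ∈ cubeP P)
    (hp : Over Op P p) (hd : Dom Op O) {r : L} (hr : r ∈ mx Op) (hr0 : r ≠ 0)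
    (hgen : ∀ g ∈ mx Op, g / r ∈ O.1) : IsU O ((pull σ (eX P σ p) O : L) / r ^ 3) := by
  have hp' : Over O P p := (over_dom (cube_intg hOp) hd p).1 hp
  obtain ⟨i, hi, e⟩ := h.pull_eX_over hO hp'
  have hs := Cart_aux_sc_ne h p i
  have h1 : IsU O (1 - tc (sh P p i) ^ 2) := Cart_aux_one_sub (hp'.sc_mem (h.bl_intg hO) i).2
  have hu : IsU O (sc (sh P p i) / r) :=
    ⟨div_ne_zero hs hr0, hgen _ (hp.sc_mem (cube_intg hOp) i).1, by
      rw [inv_div]; exact Cart_aux_div_mem hOp hp hd.1 hi hr⟩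
  have e2 : tc (sh P p i) / r ^ 3 = (sc (sh P p i) / r) ^ 3 / (1 - tc (sh P p i) ^ 2) := by
    have h10 := h1.1
    rw [div_pow, ← tc_eq (Cart_aux_yc_sh h p i)]
    field_simp
  rw [e, e2]
  exact (hu.pow 3).div h1

theorem Cart_aux_lin_ne (h : Cfg P σ) {l : Lam} (hl : ∃ i, bar (l i) ≠ 0) (τ : ZMod 3) :
    lin l P - tors L τ ≠ 0 := by
  obtain ⟨i, hi⟩ := hl
  have : ∃ p : F3, dotb l p ≠ τ := by
    by_cases hτ : τ = 0
    · refine ⟨Pi.single i 1, ?_⟩
      rw [hτ, dotb, Finset.sum_eq_single i (fun j _ hj => by simp [hj]) (by simp)]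
      simpa using hi
    · exact ⟨0, by simpa [dotb] using Ne.symm hτ⟩
  obtain ⟨p, hp⟩ := this
  obtain ⟨Op, hOp, hov⟩ := h.gen.exists_over p
  intro h0
  have := Cart_aux_red h (cube_intg hOp) hov l τ
  rw [h0, red_zero] at this
  exact hp (sub_eq_zero.1 (tors_eq_zero.1 this.symm))

/-- The strict transforms are effective. `Q = ℓ P - τ T ≠ 0` (reduce at a fixed point off the
plane); over a point `p` of the plane `Q` reduces to zero at `Op`, so `s Q ∈ mx Op`. -/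
theorem Cfg.s_eff (h : Cfg P σ) {l : Lam} (hl : ∃ i, bar (l i) ≠ 0) (τ : ZMod 3)
    (hO : O ∈ blP P σ) : (((zq (yc (lin l P - tors L τ)) /
      ∏ p with dotb l p = τ, pull σ (eX P σ p)) O : Lˣ) : L) ∈ O.1 := by
  rw [Pi.div_apply, Finset.prod_apply, Units.val_div_eq_div_val]
  by_cases hex : ∃ p, dotb l p = τ ∧ Over O P p
  · obtain ⟨p, hpτ, hp⟩ := hex
    rw [Finset.prod_eq_single p (fun q _ hq => h.pull_eX_not fun hq' =>
      hq (over_inj h.gen (h.bl_intg hO) hq' hp)) (fun hn => absurd (by simp [hpτ]) hn)]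
    obtain ⟨i, hi, e⟩ := h.pull_eX_over hO hp
    obtain ⟨Op, hOp, hov, hd, -⟩ := h.bl_over hO hp
    have hI : Intg Op (lin l P - tors L τ) := (intg_lin (cube_intg hOp) l).sub (intg_tors τ)
    have hz : Zr Op (lin l P - tors L τ) := by
      rw [← red_eq_zero hI, Cart_aux_red h (cube_intg hOp) hov l τ, hpτ, sub_self, tors_zero]
    have hy : yc (lin l P - tors L τ) ∉ Op.1 := hz.resolve_left (Cart_aux_lin_ne h hl τ)
    have hy0 : yc (lin l P - tors L τ) ≠ 0 := fun h0 => hy (h0 ▸ zero_mem _)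
    have ht : tc (lin l P - tors L τ) ∈ mx O := hd.2 (hI.tc_mem hy)
    have h1 := Cart_aux_one_sub ht
    rw [zq_of_not_mem (not_mem_of_tc hy0 ht), e]
    change tc (lin l P - tors L τ) / _ ∈ _
    rw [Cart_aux_ratio hy0 (Cart_aux_yc_sh h p i) (Cart_aux_sc_ne h p i) h1.1]
    exact mul_mem (mul_mem (pow_mem (Cart_aux_div_mem hOp hov hd.1 hi (hI.sc_mem hy)) 3)
      (Cart_aux_one_sub (hp.sc_mem (h.bl_intg hO) i).2).2.1) h1.2.2
  · rw [Finset.prod_eq_one fun q hq => h.pull_eX_not fun hq' =>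
      hex ⟨q, (Finset.mem_filter.1 hq).2, hq'⟩, Units.val_one, div_one]
    by_cases hy : yc (lin l P - tors L τ) ∈ O.1
    · rw [zq_of_mem hy]
      exact one_mem _
    · rw [zq_of_not_mem hy]
      exact (Cart_aux_zq_mem (Cart_aux_intg h hO l τ)).resolve_left hy
theorem Cfg.lin_ne (h : Cfg P σ) {l : Lam} (hl : ∃ i, bar (l i) ≠ 0) (τ : ZMod 3) :
    lin l P - tors L τ ≠ 0 := Cart_aux_lin_ne h hl τ

end Pool.Agent.MP_95da86_ag
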