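import Mathlib

/-! Digits of packed numbers. -/

namespace Pool.Agent.MP_95da86_ag.Cov

open Finset

/-- Evaluate the first argument, then continue. -/
noncomputable def frc {α : Type} (x : ℕ) (k : ℕ → α) : α :=
  Nat.rec (k 0) (fun n _ => k (Nat.succ n)) x

@[simp] lemma frc_eq {α : Type} (x : ℕ) (k : ℕ → α) : frc x k = k x := by cases x <;> rfl

/-- A bounded conjunction. -/
noncomputable def allB (n : ℕ) (f : ℕ → Bool) : Bool := Nat.rec true (fun i r => f i && r) n

lemma allB_iff {n : ℕ} {f : ℕ → Bool} (h : allB n f = true) : ∀ i < n, f i = true := by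
  induction n with
  | zero => simp
  | succ n ih =>
    have h' : (f n && allB n f) = true := h
    rw [Bool.and_eq_true] at h'
    intro i hi
    rcases Nat.lt_succ_iff_lt_or_eq.1 hi with hi | rfl
    · exact ih h'.2 i hi
    · exact h'.1

/-- A field of bits. -/
def fl (N o k : ℕ) : ℕ := Nat.land (Nat.shiftRight N o) k

lemma fl_le (N o k : ℕ) : fl N o k ≤ k := Nat.and_le_right

/-- A digit in base `2 ^ 32`. -/
def dg (N i : ℕ) : ℕ := fl N (Nat.mul 32 i) 4294967295

/-- A bit. -/
def tb (M p : ℕ) : Bool := Nat.beq (fl M p 1) 1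

lemma fl_one (M p : ℕ) : fl M p 1 = if M.testBit p then 1 else 0 := by
  change (M >>> p) &&& 1 = _
  rw [Nat.and_one_is_mod, Nat.testBit_eq_decide_div_mod_eq, Nat.shiftRight_eq_div_pow]
  by_cases h : M / 2 ^ p % 2 = 1
  · simp [h]
  · simp only [h, decide_false]; simp; omega

@[simp] lemma tb_eq (M p : ℕ) : tb M p = M.testBit p := by
  rw [tb, fl_one]; cases M.testBit p <;> rfl

lemma dg_eq (N i : ℕ) : dg N i = N / 4294967296 ^ i % 4294967296 := by
  change (N >>> (32 * i)) &&& (2 ^ 32 - 1) = _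
  rw [Nat.and_two_pow_sub_one_eq_mod, Nat.shiftRight_eq_div_pow, pow_mul]
  norm_num

lemma dg_add {A C : ℕ} (h : ∀ i, dg A i + dg C i < 4294967296) (i : ℕ) :
    dg (A + C) i = dg A i + dg C i := by
  simp only [dg_eq] at h ⊢
  have key : ∀ i, (A + C) / 4294967296 ^ i = A / 4294967296 ^ i + C / 4294967296 ^ i := by
    intro i
    induction i with
    | zero => simp
    | succ i ih =>
      have := h i
      simp only [pow_succ, ← Nat.div_div_eq_div_mul, ih]
      omega
  have := h i
  rw [key]; omega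

lemma dg_mul {z A : ℕ} (h : ∀ i, z * dg A i < 4294967296) (i : ℕ) :
    dg (z * A) i = z * dg A i := by
  simp only [dg_eq] at h ⊢
  have e : ∀ q, z * q = z * (q % 4294967296) + 4294967296 * (z * (q / 4294967296)) := by
    intro q
    conv_lhs => rw [← Nat.mod_add_div q 4294967296]
    ring
  have key : ∀ i, (z * A) / 4294967296 ^ i = z * (A / 4294967296 ^ i) := by
    intro i
    induction i with
    | zero => simp
    | succ i ih =>
      have := h i
      simp only [pow_succ, ← Nat.div_div_eq_div_mul, ih]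
      rw [e]; omega
  have := h i
  rw [key, e]; omega

lemma dg_shr (A n i : ℕ) : dg (A >>> (32 * n)) i = dg A (n + i) := by
  rw [dg_eq, dg_eq, Nat.shiftRight_eq_div_pow, pow_mul, Nat.div_div_eq_div_mul, pow_add]
  norm_num

lemma dg_shl (A n i : ℕ) : dg (A <<< (32 * n)) i = if i < n then 0 else dg A (i - n) := by
  rw [dg_eq, dg_eq, Nat.shiftLeft_eq, pow_mul, show (2 : ℕ) ^ 32 = 4294967296 by norm_num]
  split_ifs with h
  · obtain ⟨k, rfl⟩ := Nat.exists_eq_add_of_lt h
    rw [show A * 4294967296 ^ (i + k + 1) = 4294967296 ^ i * (A * 4294967296 ^ k * 4294967296) by ring,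
      Nat.mul_div_cancel_left _ (by positivity), Nat.mul_mod_left]
  · obtain ⟨k, rfl⟩ := Nat.exists_eq_add_of_le (not_lt.1 h)
    rw [pow_add, mul_comm A, Nat.mul_div_mul_left _ _ (by positivity), Nat.add_sub_cancel_left]

/-- The mask of 64 digits. -/
def MK : ℕ := Nat.sub (Nat.pow 2 2048) 1

lemma dg_mk (A i : ℕ) : dg (Nat.land A MK) i = if i < 64 then dg A i else 0 := by
  have e0 : ∀ n, A &&& (2 ^ (32 * n) - 1) = A % 4294967296 ^ n := fun n => by
    rw [Nat.and_two_pow_sub_one_eq_mod, pow_mul]; norm_num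
  have e1 : MK = 2 ^ (32 * 64) - 1 := by decide +kernel
  have e : Nat.land A MK = A % 4294967296 ^ 64 := by rw [e1]; exact e0 64
  rw [e, dg_eq, dg_eq]
  split_ifs with h
  · obtain ⟨k, hk⟩ := Nat.exists_eq_add_of_lt h
    rw [hk, add_assoc, pow_add, Nat.mod_mul_right_div_self, pow_succ, mul_comm,
      Nat.mod_mul_right_mod]
  · rw [Nat.div_eq_of_lt, Nat.zero_mod]
    exact (Nat.mod_lt _ (by positivity)).trans_le (Nat.pow_le_pow_right (by norm_num) (not_lt.1 h))

/-- An entry of a table of rows. -/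
def ent (T k : ℕ) : ℕ := fl T (Nat.mul 2048 k) MK

lemma dg_ent (T k : ℕ) {i : ℕ} (h : 64 ≤ i) : dg (ent T k) i = 0 := by
  rw [ent, fl, dg_mk, if_neg (by omega)]

/-- The top bits of 64 digits. -/
def HI : ℕ := Nat.mul 2147483648 (Nat.div MK 4294967295)

lemma dg_HI (i : ℕ) : dg HI i = if i < 64 then 2147483648 else 0 := by
  have h : ∀ i < 64, dg HI i = 2147483648 := by decide +kernel
  have e : HI = Nat.land HI MK := by decide +kernel
  split_ifs with hi
  · exact h i hi
  · rw [e, dg_mk, if_neg hi]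

lemma tb_dg (N i : ℕ) : N.testBit (32 * i + 31) = (dg N i).testBit 31 := by
  change _ = ((N >>> (32 * i)) &&& (2 ^ 32 - 1)).testBit 31
  rw [Nat.and_two_pow_sub_one_eq_mod, Nat.testBit_mod_two_pow, Nat.testBit_shiftRight]
  simp

/-- Digitwise comparison of the upper and the lower half, off the mask `O`. -/
def cmp (A e O : ℕ) : Bool :=
  Nat.beq (Nat.land (Nat.lor (Nat.sub (Nat.add A HI)
    (Nat.add (Nat.shiftRight A 2048) (Nat.shiftLeft 1 (Nat.mul 32 e)))) O) HI) HI

lemma dg_one (i : ℕ) : dg 1 i = if i = 0 then 1 else 0 := by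
  rw [dg_eq]
  split_ifs with h
  · simp [h]
  · rw [Nat.div_eq_of_lt (Nat.one_lt_pow h (by norm_num))]

lemma cmp_sound {A e O : ℕ} (hA : ∀ i, dg A i ≤ 1073741824) (h : cmp A e O = true) {i : ℕ}
    (hi : i < 64) (hO : O.testBit (32 * i + 31) = false) :
    dg A (64 + i) + (if i = e then 1 else 0) ≤ dg A i := by
  have h1 : ((A + HI - (A >>> (32 * 64) + 1 <<< (32 * e))) ||| O) &&& HI = HI := Nat.eq_of_beq_eq_true h
  have hb : HI.testBit (32 * i + 31) = true := by rw [tb_dg, dg_HI, if_pos hi]; decide +kernel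
  have h2 := congrArg (fun x => x.testBit (32 * i + 31)) h1
  simp only [Nat.testBit_and, Nat.testBit_or, hO, hb, Bool.or_false, Bool.and_true] at h2
  rw [tb_dg] at h2
  have h3 := Nat.ge_two_pow_of_testBit h2
  have eY : ∀ k, dg (A + HI) k = dg A k + dg HI k := dg_add fun k => by
    have := hA k; rw [dg_HI]; split_ifs <;> omega
  have e1 : ∀ k, dg (1 <<< (32 * e)) k = if k = e then 1 else 0 := fun k => by
    rw [dg_shl, dg_one]; split_ifs <;> omega
  have eL : ∀ k, dg (A >>> (32 * 64) + 1 <<< (32 * e)) k = dg A (64 + k) + if k = e then 1 else 0 :=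
    fun k => by
      rw [dg_add, dg_shr, e1]
      intro k
      have := hA (64 + k)
      rw [dg_shr, e1]; split_ifs <;> omega
  generalize A + HI = Y at *
  generalize A >>> (32 * 64) + 1 <<< (32 * e) = L at *
  have hle : ∀ k < 64, dg L k ≤ dg Y k := fun k hk => by
    have := hA (64 + k)
    rw [eY, eL, dg_HI, if_pos hk]; split_ifs <;> omega
  have key : ∀ k ≤ 64, (Y - L) / 4294967296 ^ k = Y / 4294967296 ^ k - L / 4294967296 ^ k := by
    intro k hk
    induction k with
    | zero => simp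
    | succ k ih =>
      have := hle k hk
      simp only [dg_eq] at this
      simp only [pow_succ, ← Nat.div_div_eq_div_mul, ih (by omega)]
      omega
  have a1 := eY i
  have a2 := eL i
  have a3 := hA (64 + i)
  have a4 := hA i
  rw [dg_HI, if_pos hi] at a1
  rw [dg_eq, key i hi.le] at h3
  rw [← a2]
  rw [dg_eq Y] at a1
  rw [dg_eq L] at a2 ⊢
  split_ifs at a2 <;> omega

/-- Accumulate a combination of rows read from a stream. -/
noncomputable def acc (f : ℕ → ℕ) (g : ℕ → Bool) (k : ℕ → Bool) (n : ℕ) : ℕ → ℕ → Bool :=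
  Nat.rec (fun _ A => k A) (fun _ ih s A => frc (Nat.land s 255) fun x => g x &&
    frc (Nat.add A (Nat.mul (fl s 8 1023) (f x))) fun A' =>
      frc (Nat.shiftRight s 18) fun s' => ih s' A') n

lemma acc_sound {f : ℕ → ℕ} {g k : ℕ → Bool} (Q : (ℕ → ℕ) → Prop)
    (hf : ∀ x, g x = true → ∀ i, dg (f x) i ≤ 128)
    (hQ : ∀ D x z, g x = true → Q D → Q fun i => D i + z * dg (f x) i) :
    ∀ n s A K, acc f g k n s A = true → Q (dg A) → (∀ i, dg A i ≤ K) →
      K + n * 131072 ≤ 1073741824 → ∃ A', Q (dg A') ∧ (∀ i, dg A' i ≤ 1073741824) ∧ k A' = true := by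
  intro n
  induction n with
  | zero => intro s A K h hA hK hb; exact ⟨A, hA, fun i => (hK i).trans (by omega), h⟩
  | succ n ih =>
    intro s A K h hA hK hb
    have h' : (frc (Nat.land s 255) fun x => g x &&
      frc (Nat.add A (Nat.mul (fl s 8 1023) (f x))) fun A' =>
        frc (Nat.shiftRight s 18) fun s' => acc f g k n s' A') = true := h
    simp only [frc_eq, Bool.and_eq_true] at h'
    obtain ⟨hg, h'⟩ := h'
    have hz := fl_le s 8 1023
    generalize fl s 8 1023 = z at *
    generalize Nat.land s 255 = x at *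
    have hm : ∀ i, z * dg (f x) i ≤ 131072 := fun i =>
      (Nat.mul_le_mul hz (hf x hg i)).trans (by norm_num)
    have e : ∀ i, dg (A + z * f x) i = dg A i + z * dg (f x) i := fun i => by
      have e1 := dg_mul (z := z) (A := f x) fun i => (hm i).trans_lt (by norm_num)
      rw [dg_add, e1]
      intro i
      have := hm i; have := hK i
      rw [e1]; omega
    refine ih _ (A + z * f x) (K + 131072) h' ?_ (fun i => ?_) (by omega)
    · rw [funext e]; exact hQ _ _ _ hg hA
    · have := hm i; have := hK i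
      rw [e]; omega

lemma dg_zero (i : ℕ) : dg 0 i = 0 := by simp [dg_eq]

end Pool.Agent.MP_95da86_ag.Cov
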