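import Pool.Agent.MP_95da86_ag.CovA

/-! Covering systems, their bad configurations and the leaves of a certificate. -/

namespace Pool.Agent.MP_95da86_ag.Cov

open Finset

/-- The tables of a covering system. -/
structure Sys where
  nJ : ℕ
  nC : ℕ
  nR : ℕ
  sp : ℕ
  RW : ℕ
  LD : ℕ
  TT : ℕ
  CN : ℕ

namespace Sys

variable (S : Sys)

/-- The row of a generator: 27 coverings, then its loads. -/
def R (j i : ℕ) : ℕ := dg (ent S.RW j) i
/-- A point of a constraint. -/
def pt (c i : ℕ) : ℕ := fl (dg S.CN c) (Nat.mul 5 i) 31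
/-- The load row of a constraint. -/
def rw (c : ℕ) : ℕ := fl (dg S.CN c) 15 63
/-- A coordinate of a combination of generators. -/
def cv (y : ℕ → ℝ) (i : ℕ) : ℝ := ∑ j ∈ range S.nJ, (S.R j i : ℝ) * y j

/-- Consistency of the tables. -/
def OK : Prop :=
  S.nJ ≤ 37 ∧ 0 < S.nR ∧ S.nR ≤ 37 ∧ S.sp ≤ 1 ∧ (∀ j < S.nJ, ∀ i < 64, S.R j i < 32) ∧
  (∀ r < S.nR, ∀ i < 64, dg (ent S.LD r) i = if i < S.nJ then S.R i (27 + r) else 0) ∧
  (∀ p < 27, ∀ b < 2, ∀ i < 64, dg (ent S.TT (2 * p + b)) i =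
    (if i < S.nJ then b * S.R i p else 0) + (if i = 37 then b else 0) +
      if i = 38 + p / 9 ∧ p % 9 = 0 then 1 else 0) ∧
  (∀ c < S.nC, S.pt c 0 < 27 ∧ S.pt c 1 < 27 ∧ S.pt c 2 < 27 ∧ S.rw c < S.nR) ∧
  ∀ j < S.nJ, ∃ r < S.nR, 1 ≤ S.R j (27 + r)

instance decOK : Decidable S.OK := by unfold OK; infer_instance

/-- A nearest point that does not cover. -/
structure Cfg (y a m : ℕ → ℝ) : Prop where
  hy : ∀ j, 0 ≤ y j
  ha : ∀ p, 0 ≤ a p
  hm : ∀ p < 27, m p = max (a p - S.cv y p) 0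
  hc : ∀ c < S.nC, a (S.pt c 0) + a (S.pt c 1) + a (S.pt c 2) ≤ S.cv y (27 + S.rw c)
  hs : S.sp ≠ 0 → S.cv y 27 ≤ a 0 + a 9 + a 18
  kkt : ∀ d : ℕ → ℝ, (∀ r < S.nR, S.cv d (27 + r) = 0) → (∀ j < S.nJ, d j < 0 → 0 < y j) →
    ∑ p ∈ range 27, m p * S.cv d p ≤ 0
  ne : ∃ p < 27, 0 < m p

/-- The column of a point. -/
def col (M p : ℕ) : ℕ := ent S.TT (Nat.add (Nat.mul 2 p) (fl M p 1))

/-- The row of a constraint. -/
noncomputable def row1 (M c : ℕ) : ℕ :=
  cond (Nat.blt c S.nC)
    (frc (dg S.CN c) fun x => Nat.add (Nat.add (Nat.add (frc (fl x 0 31) (S.col M))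
      (frc (fl x 5 31) (S.col M))) (frc (fl x 10 31) (S.col M)))
        (Nat.shiftLeft (ent S.LD (fl x 15 63)) 2048))
    (Nat.add (ent S.LD 0) (Nat.shiftLeft (Nat.add (Nat.add (S.col M 0) (S.col M 9)) (S.col M 18)) 2048))

/-- A leaf by a combination of constraints. -/
noncomputable def leaf1 (M O s : ℕ) : Bool :=
  acc (S.row1 M) (fun c => Nat.blt c (Nat.add S.nC S.sp)) (fun A => cmp A 37 O) (fl s 2 31)
    (Nat.shiftRight s 7) 0

/-- The row of a signed generator. -/
def row2 (x : ℕ) : ℕ :=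
  Nat.shiftLeft (ent S.RW (Nat.shiftRight x 1)) (Nat.mul 2048 (Nat.land x 1))

/-- A leaf by a descent direction. -/
noncomputable def leaf2 (M W I s : ℕ) : Bool :=
  frc (fl s 7 31) fun e => (Nat.blt e 27 && tb M e) &&
    acc S.row2 (fun x => Nat.blt (Nat.shiftRight x 1) S.nJ &&
        (Nat.beq (Nat.land x 1) 0 || tb I (Nat.shiftRight x 1)))
      (fun A => cmp A e W && Nat.beq (Nat.shiftRight (Nat.land A MK) 864) (Nat.shiftRight A 2912))
      (fl s 2 31) (Nat.shiftRight s 12) 0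

variable {S}

lemma dg_pair {A C : ℕ} (hA : ∀ i, dg A i ≤ 128) (hA' : ∀ i, 64 ≤ i → dg A i = 0)
    (hC : ∀ i, dg C i ≤ 128) (i : ℕ) :
    dg (A + C <<< 2048) i = if i < 64 then dg A i else dg C (i - 64) := by
  have e := dg_shl C 64
  rw [dg_add, e]
  · split_ifs with h
    · rfl
    · rw [hA' i (by omega), zero_add]
  · intro i
    have := hA i; have := hC (i - 64)
    rw [e]; split_ifs <;> omega

lemma dg_three {A B C : ℕ} (hA : ∀ i, dg A i ≤ 33) (hB : ∀ i, dg B i ≤ 33) (hC : ∀ i, dg C i ≤ 33)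
    (i : ℕ) : dg (A + B + C) i = dg A i + dg B i + dg C i := by
  have e : ∀ i, dg (A + B) i = dg A i + dg B i := dg_add fun i => by
    have := hA i; have := hB i; omega
  rw [dg_add, e]
  intro i
  have := hA i; have := hB i; have := hC i
  rw [e]; omega

lemma exists_eps (s : Finset ℕ) (f : ℕ → ℝ) (h : ∀ i ∈ s, 0 < f i) :
    ∃ ε > 0, ∀ i ∈ s, ε ≤ f i := by
  rcases s.eq_empty_or_nonempty with rfl | hs
  · exact ⟨1, one_pos, by simp⟩
  · obtain ⟨i, hi, hm⟩ := s.exists_min_image f hs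
    exact ⟨f i, h i hi, hm⟩

lemma sum64 {n : ℕ} (hn : n ≤ 64) (f : ℕ → ℝ) :
    ∑ i ∈ range 64, (if i < n then f i else 0) = ∑ i ∈ range n, f i := by
  rw [← sum_filter]
  congr 1
  ext i; simp; omega

theorem leaf1_sound (hS : S.OK) {y a m : ℕ → ℝ} (h : S.Cfg y a m) {M O s : ℕ}
    (hM : ∀ p < 27, M.testBit p = true → 0 < m p)
    (hO : ∀ i, O.testBit (32 * i + 31) = true → i < S.nJ ∧ y i = 0)
    (hl : S.leaf1 M O s = true) : False := by
  obtain ⟨hJ, hR0, hR, hsp, hb, hL, hT, hC, -⟩ := hS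
  obtain ⟨ε, hε, hle⟩ := exists_eps ((range 27).filter fun p => M.testBit p = true)
    (fun p => a p - S.cv y p) fun p hp => by
      simp only [mem_filter, mem_range] at hp
      have := hM p hp.1 hp.2
      rw [h.hm p hp.1] at this
      simpa using this
  have hle' : ∀ p < 27, (fl M p 1 : ℝ) * (S.cv y p + ε) ≤ a p := fun p hp => by
    rw [fl_one]
    split_ifs with hp'
    · have := hle p (by simp [hp, hp']); push_cast; linarith
    · simpa using h.ha p
  set v : ℕ → ℝ := fun i => if i < S.nJ then y i else if i = 37 then ε else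
    if 38 ≤ i ∧ i ≤ 40 then a (9 * (i - 38)) - fl M (9 * (i - 38)) 1 * (S.cv y (9 * (i - 38)) + ε)
    else 0 with hv
  have hv0 : ∀ i, 0 ≤ v i := fun i => by
    simp only [hv]
    split_ifs with h1 h2 h3
    · exact h.hy i
    · exact hε.le
    · exact sub_nonneg.2 (hle' _ (by omega))
    · exact le_rfl
  have hb1 : ∀ p, fl M p 1 < 2 := fun p => Nat.lt_succ_of_le (fl_le _ _ _)
  have cb : ∀ p < 27, ∀ i, dg (S.col M p) i ≤ 33 := fun p hp i => by
    rcases lt_or_ge i 64 with hi | hi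
    · have h1 := hb1 p
      have : (if i < S.nJ then fl M p 1 * S.R i p else 0) ≤ 31 := by
        split_ifs with h2
        · have := hb i h2 p (by omega)
          nlinarith
        · omega
      have e := hT p hp _ h1 i hi
      change dg (ent S.TT (2 * p + fl M p 1)) i ≤ 33
      rw [e]; split_ifs at this ⊢ <;> omega
    · rw [col, dg_ent _ _ hi]; omega
  have cs : ∀ p < 27, ∑ i ∈ range 64, (dg (S.col M p) i : ℝ) * v i =
      fl M p 1 * (S.cv y p + ε) + if p % 9 = 0 then a p - fl M p 1 * (S.cv y p + ε) else 0 := by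
    intro p hp
    have e : ∀ i ∈ range 64, (dg (S.col M p) i : ℝ) * v i =
        (if i < S.nJ then fl M p 1 * (S.R i p * y i) else 0) + (if i = 37 then fl M p 1 * ε else 0) +
        if i = 38 + p / 9 then (if p % 9 = 0 then a p - fl M p 1 * (S.cv y p + ε) else 0) else 0 := by
      intro i hi
      have e := hT p hp _ (hb1 p) i (mem_range.1 hi)
      change (dg (ent S.TT (2 * p + fl M p 1)) i : ℝ) * _ = _
      rw [e]
      by_cases h1 : i < S.nJ
      · have h2 : i ≠ 37 := by omega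
        have h3 : i ≠ 38 + p / 9 := by omega
        simp [hv, h1, h2, h3, mul_assoc]
      · by_cases h2 : i = 37
        · have h3 : i ≠ 38 + p / 9 := by omega
          simp only [hv, h1, h3]; simp [h2]
        · by_cases h3 : i = 38 + p / 9
          · by_cases h4 : p % 9 = 0
            · have h5 : 38 ≤ i ∧ i ≤ 40 := by omega
              have h6 : 9 * (i - 38) = p := by omega
              simp only [hv, h1, h2, h5, h6, h4]; simp [h3]
            · simp [h1, h2, h4]
          · simp [h1, h2, h3]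
    rw [sum_congr rfl e, sum_add_distrib, sum_add_distrib, sum64 (by omega), sum_ite_eq', sum_ite_eq',
      if_pos (by simp), if_pos (by simp; omega), ← mul_sum, mul_add]
    rfl
  have c1 : ∀ p < 27, ∑ i ∈ range 64, (dg (S.col M p) i : ℝ) * v i ≤ a p := fun p hp => by
    rw [cs p hp]
    split_ifs
    · linarith
    · simpa using hle' p hp
  have c2 : ∀ p < 27, p % 9 = 0 → ∑ i ∈ range 64, (dg (S.col M p) i : ℝ) * v i = a p := fun p hp h9 => by
    rw [cs p hp, if_pos h9]; ring
  have lb : ∀ r < S.nR, ∀ i, dg (ent S.LD r) i ≤ 128 := fun r hr i => by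
    rcases lt_or_ge i 64 with hi | hi
    · rw [hL r hr i hi]
      split_ifs with h1
      · have := hb i h1 (27 + r) (by omega); omega
      · omega
    · rw [dg_ent _ _ hi]; omega
  have ls : ∀ r < S.nR, ∑ i ∈ range 64, (dg (ent S.LD r) i : ℝ) * v i = S.cv y (27 + r) := by
    intro r hr
    rw [cv, ← sum64 (n := S.nJ) (by omega)]
    refine sum_congr rfl fun i hi => ?_
    rw [hL r hr i (mem_range.1 hi)]
    split_ifs with h1 <;> simp [hv, h1]
  have c3 : ∀ p q r, p < 27 → q < 27 → r < 27 → (∀ i, dg (S.col M p + S.col M q + S.col M r) i ≤ 128) ∧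
      (∀ i, 64 ≤ i → dg (S.col M p + S.col M q + S.col M r) i = 0) ∧
      ∑ i ∈ range 64, (dg (S.col M p + S.col M q + S.col M r) i : ℝ) * v i =
        ∑ i ∈ range 64, (dg (S.col M p) i : ℝ) * v i + ∑ i ∈ range 64, (dg (S.col M q) i : ℝ) * v i +
          ∑ i ∈ range 64, (dg (S.col M r) i : ℝ) * v i := by
    intro p q r hp hq hr
    have e := dg_three (cb p hp) (cb q hq) (cb r hr)
    refine ⟨fun i => ?_, fun i hi => ?_, ?_⟩
    · have := cb p hp i; have := cb q hq i; have := cb r hr i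
      rw [e]; omega
    · rw [e]; simp only [col, dg_ent _ _ hi]
    · simp only [e, Nat.cast_add, add_mul, sum_add_distrib]
  have key : ∀ c, Nat.blt c (Nat.add S.nC S.sp) = true → (∀ i, dg (S.row1 M c) i ≤ 128) ∧
      ∑ i ∈ range 64, (dg (S.row1 M c) i : ℝ) * v i ≤
        ∑ i ∈ range 64, (dg (S.row1 M c) (64 + i) : ℝ) * v i := by
    intro c hc
    by_cases hc' : c < S.nC
    · obtain ⟨p0, p1, p2, hr⟩ := hC c hc'
      obtain ⟨b1, b2, b3⟩ := c3 _ _ _ p0 p1 p2
      have e0 : S.row1 M c = S.col M (S.pt c 0) + S.col M (S.pt c 1) + S.col M (S.pt c 2) +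
          ent S.LD (S.rw c) <<< 2048 := by
        have : Nat.blt c S.nC = true := by rw [Nat.blt_eq]; exact hc'
        rw [row1, this]; simp only [cond_true, frc_eq]; rfl
      have e := dg_pair b1 b2 (lb _ hr)
      rw [← e0] at e
      refine ⟨fun i => ?_, ?_⟩
      · rw [e]; split_ifs
        · exact b1 i
        · exact lb _ hr _
      · rw [sum_congr rfl fun i hi => by rw [e, if_pos (mem_range.1 hi)], b3]
        simp only [e, Nat.add_sub_cancel_left, add_lt_iff_neg_left, Nat.not_lt_zero, if_false]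
        rw [ls _ hr]
        linarith [c1 _ p0, c1 _ p1, c1 _ p2, h.hc c hc']
    · have h1 : c < S.nC + S.sp := by rw [Nat.blt_eq] at hc; exact hc
      obtain ⟨b1, b2, b3⟩ := c3 0 9 18 (by omega) (by omega) (by omega)
      have e0 : S.row1 M c = ent S.LD 0 + (S.col M 0 + S.col M 9 + S.col M 18) <<< 2048 := by
        have : Nat.blt c S.nC = false := by
          rw [← Bool.not_eq_true, Nat.blt_eq]; exact hc'
        rw [row1, this]; rfl
      have e := dg_pair (lb _ hR0) (fun i hi => dg_ent _ _ hi) b1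
      rw [← e0] at e
      refine ⟨fun i => ?_, ?_⟩
      · rw [e]; split_ifs
        · exact lb _ hR0 _
        · exact b1 _
      · rw [sum_congr rfl fun i hi => by rw [e, if_pos (mem_range.1 hi)], ls _ hR0]
        simp only [e, Nat.add_sub_cancel_left, add_lt_iff_neg_left, Nat.not_lt_zero, if_false]
        rw [b3, c2 0 (by omega) rfl, c2 9 (by omega) rfl, c2 18 (by omega) rfl]
        exact h.hs (by omega)
  obtain ⟨A, hA, hB, hk⟩ := acc_sound
    (fun D => ∑ i ∈ range 64, (D i : ℝ) * v i ≤ ∑ i ∈ range 64, (D (64 + i) : ℝ) * v i)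
    (fun c hc => (key c hc).1) (fun D c z hc hD => by
      have := mul_le_mul_of_nonneg_left (key c hc).2 (Nat.cast_nonneg (α := ℝ) z)
      simp only [Nat.cast_add, Nat.cast_mul, add_mul, sum_add_distrib, mul_assoc, ← mul_sum]
      linarith) _ _ _ 0 hl (by simp [dg_zero]) (by simp [dg_zero])
    (by have := fl_le s 2 31; omega)
  have e : ∀ i ∈ range 64, (dg A (64 + i) : ℝ) * v i + (if i = 37 then ε else 0) ≤ dg A i * v i := by
    intro i hi
    cases hO' : O.testBit (32 * i + 31)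
    · have h1 : ((dg A (64 + i) : ℝ) + (if i = 37 then 1 else 0)) ≤ dg A i := by
        exact_mod_cast cmp_sound hB hk (mem_range.1 hi) hO'
      have h2 := mul_le_mul_of_nonneg_right h1 (hv0 i)
      split_ifs at h2 ⊢ with h3
      · have : v i = ε := by simp only [hv]; rw [if_neg (by omega), if_pos h3]
        rw [this] at h2 ⊢; linarith
      · linarith
    · obtain ⟨h1, h2⟩ := hO i hO'
      have : v i = 0 := by simp only [hv]; rw [if_pos h1, h2]
      rw [this, if_neg (by omega)]; simp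
  have := sum_le_sum e
  rw [sum_add_distrib, sum_ite_eq', if_pos (by simp)] at this
  linarith

theorem leaf2_sound (hS : S.OK) {y a m : ℕ → ℝ} (h : S.Cfg y a m) {M W I s : ℕ}
    (hM : ∀ p < 27, M.testBit p = true → 0 < m p)
    (hW : ∀ p < 27, W.testBit (32 * p + 31) = true → m p = 0)
    (hI : ∀ j, I.testBit j = true → 0 < y j)
    (hl : S.leaf2 M W I s = true) : False := by
  obtain ⟨hJ, hR0, hR, hsp, hb, -⟩ := hS
  simp only [leaf2, frc_eq, Bool.and_eq_true, tb_eq, Nat.blt_eq] at hl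
  obtain ⟨⟨he, he'⟩, hl⟩ := hl
  generalize fl s 7 31 = e at *
  have rb : ∀ j < S.nJ, ∀ i, S.R j i ≤ 128 := fun j hj i => by
    rcases lt_or_ge i 64 with hi | hi
    · have := hb j hj i hi; omega
    · rw [R, dg_ent _ _ hi]; omega
  have r2 : ∀ x i, dg (S.row2 x) i = if i < 64 * (x % 2) then 0 else S.R (x >>> 1) (i - 64 * (x % 2)) := by
    intro x i
    have : S.row2 x = ent S.RW (x >>> 1) <<< (32 * (64 * (x % 2))) := by
      rw [← Nat.and_one_is_mod, ← mul_assoc]; rfl
    rw [this, dg_shl]; rfl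
  obtain ⟨A, ⟨dp, dn, hn, hA⟩, hB, hk⟩ := acc_sound
    (fun D => ∃ dp dn : ℕ → ℝ, (∀ j, 0 ≤ dp j ∧ (dn j ≠ 0 → 0 < y j)) ∧
      ∀ i < 64, (D i : ℝ) = S.cv dp i ∧ (D (64 + i) : ℝ) = S.cv dn i)
    (fun x hx i => by
      simp only [Bool.and_eq_true, Nat.blt_eq] at hx
      rw [r2]; split_ifs
      · omega
      · exact rb _ hx.1 _)
    (fun D x z hx ⟨dp, dn, hn, hD⟩ => by
      simp only [Bool.and_eq_true, Nat.blt_eq, Bool.or_eq_true, Nat.beq_eq] at hx
      obtain ⟨hj, hx⟩ := hx
      change x >>> 1 < _ at hj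
      change x &&& 1 = 0 ∨ I.testBit (x >>> 1) = true at hx
      rw [Nat.and_one_is_mod] at hx
      have cs : ∀ (d : ℕ → ℝ) i, S.cv (d + Pi.single (x >>> 1) (z : ℝ)) i =
          S.cv d i + z * S.R (x >>> 1) i := fun d i => by
        simp only [cv, Pi.add_apply, mul_add, sum_add_distrib, Pi.single_apply, mul_ite, mul_zero,
          sum_ite_eq', mem_range, hj, if_true, mul_comm (z : ℝ)]
      rcases Nat.mod_two_eq_zero_or_one x with h2 | h2
      · refine ⟨dp + Pi.single (x >>> 1) (z : ℝ), dn, fun j => ⟨?_, (hn j).2⟩, fun i hi => ?_⟩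
        · have := (hn j).1
          simp only [Pi.add_apply, Pi.single_apply]; positivity
        · have : S.R (x >>> 1) (64 + i) = 0 := dg_ent _ _ (by omega)
          simp [r2, h2, cs, hD i hi, this]
      · refine ⟨dp, dn + Pi.single (x >>> 1) (z : ℝ), fun j => ⟨(hn j).1, fun hj => ?_⟩, fun i hi => ?_⟩
        · by_cases h3 : j = x >>> 1
          · exact hI j (by rw [h3]; exact hx.resolve_left (by omega))
          · exact (hn j).2 (by simpa [h3] using hj)
        · simp [r2, h2, cs, hD i hi, hi])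
    _ _ _ 0 hl ⟨0, 0, by simp, by simp [dg_zero, cv]⟩ (by simp [dg_zero])
    (by have := fl_le s 2 31; omega)
  simp only [Bool.and_eq_true, Nat.beq_eq] at hk
  obtain ⟨hk, hq⟩ := hk
  have cs : ∀ i, S.cv (dp - dn) i = S.cv dp i - S.cv dn i := fun i => by
    simp only [cv, Pi.sub_apply, mul_sub, sum_sub_distrib]
  have hK := h.kkt (dp - dn) (fun r hr => ?_) (fun j _ hj => (hn j).2 fun h0 => ?_)
  · have e' : ∀ p ∈ range 27, (if p = e then m p else 0) ≤ m p * S.cv (dp - dn) p := by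
      intro p hp
      have hp := mem_range.1 hp
      cases hW' : W.testBit (32 * p + 31)
      · have h1 : ((dg A (64 + p) : ℝ) + (if p = e then 1 else 0)) ≤ dg A p := by
          exact_mod_cast cmp_sound hB hk (by omega) hW'
        have h0 : 0 ≤ m p := by rw [h.hm p hp]; exact le_max_right _ _
        have h2 := mul_le_mul_of_nonneg_left h1 h0
        rw [cs, ← (hA p (by omega)).1, ← (hA p (by omega)).2]
        split_ifs at h2 ⊢ <;> linarith
      · simp [hW p hp hW']
    have := sum_le_sum e'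
    rw [sum_ite_eq', if_pos (mem_range.2 he)] at this
    linarith [hM e he he']
  · have h1 := dg_shr (Nat.land A MK) 27 r
    have h2 := dg_shr A 91 r
    rw [dg_mk, if_pos (by omega)] at h1
    rw [cs, ← (hA _ (by omega)).1, ← (hA _ (by omega)).2, ← h1, ← add_assoc, ← h2, sub_eq_zero]
    exact congrArg (fun x => (dg x r : ℝ)) hq
  · have := (hn j).1
    simp only [Pi.sub_apply, h0] at hj
    linarith

end Sys

end Pool.Agent.MP_95da86_ag.Cov
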