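import Pool.Agent.MP_95da86_ag.CovB

/-! Trees, symmetries and the covering theorem of a system. -/

namespace Pool.Agent.MP_95da86_ag.Cov

open Finset Filter Topology

/-- The top bits of the digits off a set of points. -/
noncomputable def spr (M n : ℕ) : ℕ :=
  Nat.rec 0 (fun p r => cond (tb M p) r (Nat.lor r (Nat.shiftLeft 1 (Nat.add (Nat.mul 32 p) 31)))) n

lemma tb_lor_shl {r k b : ℕ} (h : (Nat.lor r (Nat.shiftLeft 1 k)).testBit b = true) :
    r.testBit b = true ∨ b = k := by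
  have h' : (r ||| 1 <<< k).testBit b = true := h
  rw [Nat.testBit_or, Nat.one_shiftLeft, Nat.testBit_two_pow, Bool.or_eq_true, decide_eq_true_eq] at h'
  exact h'.imp_right Eq.symm

lemma spr_spec {M n p : ℕ} (h : (spr M n).testBit (32 * p + 31) = true) : M.testBit p = false := by
  induction n with
  | zero => simp [spr] at h
  | succ n ih =>
    have h' : (cond (tb M n) (spr M n) (Nat.lor (spr M n)
      (Nat.shiftLeft 1 (32 * n + 31)))).testBit (32 * p + 31) = true := h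
    rw [tb_eq] at h'
    cases hn : M.testBit n
    · rw [hn] at h'
      rcases tb_lor_shl h' with h' | h'
      · exact ih h'
      · rwa [show p = n by omega]
    · rw [hn] at h'; exact ih h'

/-- A value of a packed map of the points. -/
def d5 (s q : ℕ) : ℕ := fl s (Nat.mul 5 q) 31

/-- An entry of the table of symmetries. -/
def sy (T a : ℕ) : ℕ := fl T (Nat.mul 135 a) 43556142965880123323311949751266331066367

lemma sum_perm {n : ℕ} {f g : ℕ → ℕ} (h : ∀ i < n, f i < n ∧ g i < n ∧ f (g i) = i ∧ g (f i) = i)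
    (F : ℕ → ℝ) : ∑ i ∈ range n, F (f i) = ∑ i ∈ range n, F i :=
  sum_nbij' f g (fun i hi => by simpa using (h i (by simpa using hi)).1)
    (fun i hi => by simpa using (h i (by simpa using hi)).2.1)
    (fun i hi => (h i (by simpa using hi)).2.2.2) (fun i hi => (h i (by simpa using hi)).2.2.1)
    fun _ _ => rfl

namespace Sys

variable (S : Sys)

/-- A branching certificate. -/
noncomputable def tree (M W n : ℕ) : ℕ → ℕ → ℕ → Bool :=
  Nat.rec (fun _ _ _ => false) (fun _ ih s I O => frc (Nat.land s 3) fun t => cond (Nat.beq t 0)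
    (frc (fl s 2 63) fun j => (Nat.blt j S.nJ &&
      frc (Nat.shiftRight s 28) fun s' => frc (Nat.lor I (Nat.shiftLeft 1 j)) fun I' => ih s' I' O) &&
      frc (Nat.shiftRight s (fl s 8 1048575)) fun s' =>
        frc (Nat.lor O (Nat.shiftLeft 1 (Nat.add (Nat.mul 32 j) 31))) fun O' => ih s' I O')
    (cond (Nat.beq t 1) (S.leaf1 M O s) (S.leaf2 M W I s))) n

/-- Residues of bad configurations. -/
def Bad (m : ℕ → ℝ) : Prop := ∃ y a, S.Cfg y a m

/-- No bad configuration has a support containing `M`. -/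
def Dead (M : ℕ) : Prop := ∀ m, S.Bad m → (∀ p < 27, M.testBit p = true → 0 < m p) → False

/-- A symmetry. -/
def IsSym (s : ℕ) : Prop := (∀ q < 27, d5 s q < 27) ∧ ∀ m, S.Bad m → S.Bad fun q => m (d5 s q)

/-- The check of a generating symmetry. -/
def GenOK (σ σ' ρ ρ' κ τ : ℕ → ℕ) : Prop :=
  (∀ p < 27, σ p < 27 ∧ σ' p < 27 ∧ σ (σ' p) = p ∧ σ' (σ p) = p) ∧
  (∀ j < S.nJ, ρ j < S.nJ ∧ ρ' j < S.nJ ∧ ρ (ρ' j) = j ∧ ρ' (ρ j) = j) ∧
  (∀ p < 27, ∀ j < S.nJ, S.R j p = S.R (ρ j) (σ p)) ∧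
  (∀ r < S.nR, ∀ j < S.nJ, S.R j (27 + r) = S.R (ρ j) (27 + τ r)) ∧
  (∀ r < S.nR, ∃ r' < S.nR, τ r' = r) ∧
  (∀ c < S.nC, κ c < S.nC ∧ S.rw c < S.nR ∧ τ (S.rw c) = S.rw (κ c) ∧
    [σ (S.pt c 0), σ (S.pt c 1), σ (S.pt c 2)].Perm [S.pt (κ c) 0, S.pt (κ c) 1, S.pt (κ c) 2]) ∧
  (S.sp ≠ 0 → 0 < S.nR ∧ τ 0 = 0 ∧ [σ 0, σ 9, σ 18].Perm [0, 9, 18])

instance decGenOK (σ σ' ρ ρ' κ τ : ℕ → ℕ) : Decidable (S.GenOK σ σ' ρ ρ' κ τ) := by
  unfold GenOK; infer_instance

/-- The check of one extension. -/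
noncomputable def ext (IT SY nS i N x : ℕ) : Bool :=
  frc (Nat.land x 4095) fun t => frc (fl x 12 1023) fun a => frc (fl x 22 1023) fun b =>
    ((Nat.blt t i && Nat.blt a nS) && Nat.blt b nS) &&
    frc (dg IT t) fun Q => frc (sy SY a) fun sa => frc (sy SY b) fun sb =>
      allB 27 fun q => cond (tb Q q) (tb N (d5 sa (d5 sb q))) true

/-- The check of one item. -/
noncomputable def item (L0 IT SY nS nK i x : ℕ) : Bool :=
  frc (dg IT i) fun M => cond (Nat.blt i nK) (S.leaf1 M 0 x)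
    ((Nat.beq (Nat.land M L0) M || frc (spr M 27) fun W => S.tree M W 40 (Nat.shiftRight x 864) 0 0) &&
      allB 27 fun p => tb M p || frc (Nat.lor M (Nat.shiftLeft 1 p)) fun N =>
        frc (dg x p) (ext IT SY nS i N))

/-- The check of consecutive items. -/
noncomputable def items (L0 IT SY nS nK : ℕ) (l : List ℕ) : ℕ → Bool :=
  List.rec (fun _ => true) (fun x _ ih i => S.item L0 IT SY nS nK i x && frc (Nat.succ i) ih) l

variable {S}

lemma items_sound {L0 IT SY nS nK : ℕ} {l : List ℕ} {k : ℕ} (h : S.items L0 IT SY nS nK l k = true) :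
    ∀ i, k ≤ i → i < k + l.length → ∃ x, S.item L0 IT SY nS nK i x = true := by
  induction l generalizing k with
  | nil => intro i h1 h2; simp at h2; omega
  | cons x l ih =>
    have h' : (S.item L0 IT SY nS nK k x && frc (Nat.succ k) (S.items L0 IT SY nS nK l)) = true := h
    rw [Bool.and_eq_true, frc_eq] at h'
    intro i h1 h2
    rcases h1.eq_or_lt with rfl | h1
    · exact ⟨x, h'.1⟩
    · exact ih h'.2 i h1 (by simp at h2; omega)

theorem tree_sound (hS : S.OK) {y a m : ℕ → ℝ} (h : S.Cfg y a m) {M W : ℕ}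
    (hM : ∀ p < 27, M.testBit p = true → 0 < m p)
    (hW : ∀ p < 27, W.testBit (32 * p + 31) = true → m p = 0) (n : ℕ) : ∀ s I O,
    (∀ j, I.testBit j = true → 0 < y j) →
    (∀ i, O.testBit (32 * i + 31) = true → i < S.nJ ∧ y i = 0) →
    S.tree M W n s I O = true → False := by
  induction n with
  | zero => intro s I O _ _ h; exact Bool.false_ne_true h
  | succ n ih =>
    intro s I O hI hO ht
    have h' : (frc (Nat.land s 3) fun t => cond (Nat.beq t 0)
      (frc (fl s 2 63) fun j => (Nat.blt j S.nJ &&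
        frc (Nat.shiftRight s 28) fun s' => frc (Nat.lor I (Nat.shiftLeft 1 j)) fun I' =>
          S.tree M W n s' I' O) &&
        frc (Nat.shiftRight s (fl s 8 1048575)) fun s' =>
          frc (Nat.lor O (Nat.shiftLeft 1 (Nat.add (Nat.mul 32 j) 31))) fun O' => S.tree M W n s' I O')
      (cond (Nat.beq t 1) (S.leaf1 M O s) (S.leaf2 M W I s))) = true := ht
    simp only [frc_eq] at h'
    generalize fl s 2 63 = j at h'
    cases h0 : Nat.beq (Nat.land s 3) 0
    · rw [h0, cond_false] at h'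
      cases h1 : Nat.beq (Nat.land s 3) 1
      · rw [h1, cond_false] at h'; exact leaf2_sound hS h hM hW hI h'
      · rw [h1, cond_true] at h'; exact leaf1_sound hS h hM hO h'
    · rw [h0, cond_true] at h'
      simp only [Bool.and_eq_true, Nat.blt_eq] at h'
      obtain ⟨⟨hj, h1⟩, h2⟩ := h'
      rcases (h.hy j).eq_or_lt with hy | hy
      · refine ih _ _ _ hI (fun i hi => ?_) h2
        rcases tb_lor_shl hi with hi | hi
        · exact hO i hi
        · have : i = j := by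
            change 32 * i + 31 = 32 * j + 31 at hi
            omega
          exact this ▸ ⟨hj, hy.symm⟩
      · refine ih _ _ _ (fun i hi => ?_) hO h1
        rcases tb_lor_shl hi with hi | hi
        · exact hI i hi
        · exact hi ▸ hy

lemma Bad.congr {m m' : ℕ → ℝ} (h : S.Bad m) (e : ∀ p < 27, m' p = m p) : S.Bad m' := by
  obtain ⟨y, a, h⟩ := h
  refine ⟨y, a, h.hy, h.ha, fun p hp => e p hp ▸ h.hm p hp, h.hc, h.hs, fun d h1 h2 => ?_, ?_⟩
  · rw [sum_congr rfl fun p hp => by rw [e p (mem_range.1 hp)]]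
    exact h.kkt d h1 h2
  · obtain ⟨p, hp, h'⟩ := h.ne
    exact ⟨p, hp, e p hp ▸ h'⟩

lemma IsSym.comp {s a b : ℕ} (ha : S.IsSym a) (hb : S.IsSym b)
    (h : ∀ q < 27, d5 s q = d5 a (d5 b q)) : S.IsSym s :=
  ⟨fun q hq => h q hq ▸ ha.1 _ (hb.1 q hq), fun m hm =>
    (hb.2 _ (ha.2 m hm)).congr fun q hq => by rw [h q hq]⟩

lemma GenOK.isSym {s : ℕ} {σ' ρ ρ' κ τ : ℕ → ℕ} (hg : S.GenOK (d5 s) σ' ρ ρ' κ τ) : S.IsSym s := by
  obtain ⟨hσ, hρ, h1, h2, h3, h4, h5⟩ := hg
  refine ⟨fun q hq => (hσ q hq).1, fun m ⟨y, a, h⟩ => ⟨fun j => y (ρ j), fun q => a (d5 s q), ?_⟩⟩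
  generalize d5 s = σ at *
  have e : ∀ (w : ℕ → ℝ) i i', (∀ j < S.nJ, S.R j i = S.R (ρ j) i') →
      S.cv (fun j => w (ρ j)) i = S.cv w i' := fun w i i' hi => by
    rw [cv, cv, ← sum_perm hρ fun j => (S.R j i' : ℝ) * w j]
    exact sum_congr rfl fun j hj => by rw [hi j (mem_range.1 hj)]
  have p3 : ∀ {u v w u' v' w' : ℕ}, [u, v, w].Perm [u', v', w'] →
      a u + a v + a w = a u' + a v' + a w' := fun h => by
    simpa [add_assoc] using (h.map a).sum_eq
  refine ⟨fun j => h.hy _, fun p => h.ha _, fun p hp => ?_, fun c hc => ?_, fun hs => ?_,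
    fun d hd hd' => ?_, ?_⟩
  · rw [e y p _ (h1 p hp)]; exact h.hm _ (hσ p hp).1
  · obtain ⟨a1, a2, a3, a4⟩ := h4 c hc
    rw [e y _ _ (h2 _ a2), a3, p3 a4]; exact h.hc _ a1
  · obtain ⟨a1, a2, a3⟩ := h5 hs
    have := e y _ _ (h2 0 a1)
    rw [a2] at this
    rw [p3 a3]; exact this ▸ h.hs hs
  · have e' : ∀ i, S.cv d i = S.cv (fun j => d (ρ' (ρ j))) i := fun i =>
      sum_congr rfl fun j hj => by simp only [(hρ j (mem_range.1 hj)).2.2.2]
    have := h.kkt (fun j => d (ρ' j)) (fun r hr => ?_) fun j hj hd => ?_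
    · rw [← sum_perm hσ] at this
      rwa [sum_congr rfl fun p hp => by
        rw [e', e (fun j => d (ρ' j)) p _ (h1 p (mem_range.1 hp))]]
    · obtain ⟨r', hr', rfl⟩ := h3 r hr
      rw [← e (fun j => d (ρ' j)) _ _ (h2 r' hr'), ← e', hd r' hr']
    · simpa [(hρ j hj).2.2.1] using hd' _ (hρ j hj).2.1 hd
  · obtain ⟨p, hp, h'⟩ := h.ne
    exact ⟨σ' p, (hσ p hp).2.1, by rwa [(hσ p hp).2.2.1]⟩

lemma isSym_table {SY PA nG nS : ℕ} (hG : ∀ a < nG, S.IsSym (sy SY a))
    (h : ∀ a < nS, nG ≤ a → dg PA a % 1024 < a ∧ dg PA a / 1024 < a ∧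
      ∀ q < 27, d5 (sy SY a) q = d5 (sy SY (dg PA a % 1024)) (d5 (sy SY (dg PA a / 1024)) q)) :
    ∀ a < nS, S.IsSym (sy SY a) := by
  intro a
  induction a using Nat.strong_induction_on with
  | _ a ih =>
    intro ha
    rcases lt_or_ge a nG with h1 | h1
    · exact hG a h1
    · obtain ⟨a1, a2, a3⟩ := h a ha h1
      exact (ih _ a1 (by omega)).comp (ih _ a2 (by omega)) a3

theorem dead_all (hS : S.OK) {L0 IT SY nS nK n : ℕ} (hY : ∀ a < nS, S.IsSym (sy SY a))
    (hL : ∀ m, S.Bad m → (∀ p < 27, 0 < m p → L0.testBit p = true) → False)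
    (h : ∀ i < n, ∃ x, S.item L0 IT SY nS nK i x = true) : ∀ i < n, S.Dead (dg IT i) := by
  intro i
  induction i using Nat.strong_induction_on with
  | _ i ih =>
    intro hi m ⟨y, a, hc⟩ hM
    obtain ⟨x, hx⟩ := h i hi
    simp only [item, frc_eq] at hx
    generalize dg IT i = M at *
    cases h0 : Nat.blt i nK
    · rw [h0, cond_false, Bool.and_eq_true, Bool.or_eq_true] at hx
      by_cases hE : ∀ p < 27, 0 < m p → M.testBit p = true
      · rcases hx.1 with h1 | h1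
        · refine hL m ⟨y, a, hc⟩ fun p hp h2 => ?_
          have h3 : M &&& L0 = M := Nat.eq_of_beq_eq_true h1
          have h4 := hE p hp h2
          rw [← h3, Nat.testBit_and, Bool.and_eq_true] at h4
          exact h4.2
        · refine tree_sound hS hc hM (fun p hp h2 => ?_) _ _ _ _ (by simp) (by simp) h1
          have h3 : 0 ≤ m p := by rw [hc.hm p hp]; exact le_max_right _ _
          refine h3.eq_or_lt.resolve_right (fun h4 => ?_) |>.symm
          have := hE p hp h4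
          rw [spr_spec h2] at this
          exact Bool.false_ne_true this
      · push Not at hE
        obtain ⟨p, hp, h1, h2⟩ := hE
        have h3 := allB_iff hx.2 p hp
        simp only [tb_eq, Bool.or_eq_true, ext, frc_eq, Bool.and_eq_true, Nat.blt_eq] at h3
        obtain ⟨⟨⟨h3, h4⟩, h5⟩, h6⟩ := h3.resolve_left h2
        have ha := hY _ h4
        have hb := hY _ h5
        refine ih _ h3 (by omega) _ (hb.2 _ (ha.2 m ⟨y, a, hc⟩)) fun q hq h7 => ?_
        have h8 := allB_iff h6 q hq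
        rw [h7, cond_true] at h8
        rcases tb_lor_shl h8 with h8 | h8
        · exact hM _ (ha.1 _ (hb.1 q hq)) h8
        · exact (congrArg m h8).symm ▸ h1
    · rw [h0, cond_true] at hx
      exact leaf1_sound hS hc hM (by simp) hx

/-- The covering theorem. -/
theorem cover (hS : S.OK) (hB : S.Dead 0) {y₀ a : ℕ → ℝ} (hy : ∀ j, 0 ≤ y₀ j) (ha : ∀ p, 0 ≤ a p)
    (hc : ∀ c < S.nC, a (S.pt c 0) + a (S.pt c 1) + a (S.pt c 2) ≤ S.cv y₀ (27 + S.rw c))
    (hs : S.sp ≠ 0 → S.cv y₀ 27 ≤ a 0 + a 9 + a 18) :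
    ∃ y : ℕ → ℝ, (∀ j, 0 ≤ y j) ∧ (∀ r < S.nR, S.cv y (27 + r) = S.cv y₀ (27 + r)) ∧
      ∀ p < 27, a p ≤ S.cv y p := by
  obtain ⟨-, hR0, -, -, -, -, -, hC, hb⟩ := hS
  have cc : ∀ i, Continuous fun y : ℕ → ℝ => S.cv y i := fun i => by unfold cv; fun_prop
  set K : ℕ → ℝ := fun j => if j < S.nJ then ∑ r ∈ range S.nR, S.cv y₀ (27 + r) else y₀ j with hK
  set F : Set (ℕ → ℝ) := Set.Icc 0 K ∩ ⋂ r ∈ range S.nR, {y | S.cv y (27 + r) = S.cv y₀ (27 + r)}
  have hF : IsCompact F := isCompact_Icc.inter_right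
    (isClosed_biInter fun r _ => isClosed_eq (cc _) continuous_const)
  have mem : ∀ y : ℕ → ℝ, (∀ j, 0 ≤ y j) → (∀ j, ¬ j < S.nJ → y j ≤ y₀ j) →
      (∀ r < S.nR, S.cv y (27 + r) = S.cv y₀ (27 + r)) → y ∈ F := by
    intro y h0 h1 h2
    refine ⟨⟨h0, fun j => ?_⟩, by simpa using h2⟩
    simp only [hK]
    split_ifs with hj
    · obtain ⟨r, hr, h3⟩ := hb j hj
      have h4 : (S.R j (27 + r) : ℝ) * y j ≤ S.cv y (27 + r) :=
        single_le_sum (f := fun j => (S.R j (27 + r) : ℝ) * y j)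
          (fun i _ => mul_nonneg (Nat.cast_nonneg _) (h0 i)) (mem_range.2 hj)
      have h5 : S.cv y₀ (27 + r) ≤ ∑ r ∈ range S.nR, S.cv y₀ (27 + r) :=
        single_le_sum (f := fun r => S.cv y₀ (27 + r))
          (fun i _ => sum_nonneg fun j _ => mul_nonneg (Nat.cast_nonneg _) (hy j)) (mem_range.2 hr)
      have h6 : (1 : ℝ) ≤ S.R j (27 + r) := by exact_mod_cast h3
      nlinarith [h0 j, h2 r hr]
    · exact h1 j hj
  obtain ⟨y, ⟨⟨h0, h1⟩, h2⟩, hmin⟩ := hF.exists_isMinOn ⟨y₀, mem y₀ hy (fun _ _ => le_rfl) fun _ _ => rfl⟩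
    (f := fun y => ∑ p ∈ range 27, max (a p - S.cv y p) 0 ^ 2) (by fun_prop)
  have h2' : ∀ r < S.nR, S.cv y (27 + r) = S.cv y₀ (27 + r) := by simpa using h2
  refine ⟨y, h0, h2', fun p hp => ?_⟩
  by_contra hn
  refine hB (fun p => max (a p - S.cv y p) 0) ⟨y, a, h0, ha, fun _ _ => rfl, fun c h => ?_,
    fun h => ?_, fun d hd hd' => ?_, p, hp, ?_⟩ (by simp)
  · rw [h2' _ (hC c h).2.2.2]; exact hc c h
  · exact (h2' 0 hR0).trans_le (hs h)
  · by_contra hg
    set m : ℕ → ℝ := fun p => max (a p - S.cv y p) 0 with hm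
    set g := ∑ p ∈ range 27, m p * S.cv d p
    set u := ∑ p ∈ range 27, S.cv d p ^ 2
    have e1 : ∀ᶠ ε in 𝓝[>] (0 : ℝ), ∀ j ∈ range S.nJ, 0 ≤ y j + ε * d j := by
      refine (eventually_all_finset _).2 fun j hj => ?_
      rcases lt_or_ge (d j) 0 with h | h
      · have : ContinuousAt (fun ε : ℝ => y j + ε * d j) 0 := by fun_prop
        exact (this.eventually (le_mem_nhds (by simpa using hd' j (mem_range.1 hj) h))).filter_mono
          nhdsWithin_le_nhds
      · filter_upwards [self_mem_nhdsWithin] with ε hε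
        exact add_nonneg (h0 j) (mul_nonneg (le_of_lt hε) h)
    have e2 : ∀ᶠ ε in 𝓝[>] (0 : ℝ), ε * u < 2 * g := by
      have : ContinuousAt (fun ε : ℝ => ε * u) 0 := by fun_prop
      exact (this.eventually (gt_mem_nhds (by simpa using hg))).filter_mono nhdsWithin_le_nhds
    obtain ⟨ε, ⟨a1, a2⟩, a3⟩ := ((e1.and e2).and self_mem_nhdsWithin).exists
    have a3 : 0 < ε := a3
    set y' : ℕ → ℝ := fun j => if j < S.nJ then y j + ε * d j else y j with hy'
    have ec : ∀ i, S.cv y' i = S.cv y i + ε * S.cv d i := fun i => by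
      simp only [cv, mul_sum, ← sum_add_distrib]
      exact sum_congr rfl fun j hj => by simp only [hy', mem_range.1 hj, if_true]; ring
    have := hmin (mem y' (fun j => ?_) (fun j hj => ?_) fun r hr => ?_)
    · have a4 : ∑ p ∈ range 27, max (a p - S.cv y' p) 0 ^ 2 ≤
          ∑ p ∈ range 27, (m p ^ 2 - 2 * ε * (m p * S.cv d p) + ε ^ 2 * S.cv d p ^ 2) := by
        refine sum_le_sum fun p _ => ?_
        rw [ec, show m p ^ 2 - 2 * ε * (m p * S.cv d p) + ε ^ 2 * S.cv d p ^ 2 =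
          (m p - ε * S.cv d p) ^ 2 by ring]
        rcases le_total (a p - (S.cv y p + ε * S.cv d p)) 0 with h | h
        · rw [max_eq_right h]; simpa using sq_nonneg _
        · rw [max_eq_left h]
          exact pow_le_pow_left₀ h (by linarith [le_max_left (a p - S.cv y p) 0]) 2
      rw [sum_add_distrib, sum_sub_distrib, ← mul_sum, ← mul_sum] at a4
      have a5 : ∑ p ∈ range 27, m p ^ 2 ≤ _ := this
      nlinarith
    · simp only [hy']
      split_ifs with hj
      · exact a1 j (mem_range.2 hj)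
      · exact h0 j
    · simpa [hy', hK, hj] using h1 j
    · rw [ec, hd r hr, h2' r hr]; ring
  · simpa using hn

end Sys

end Pool.Agent.MP_95da86_ag.Cov
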