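import Pool.Agent.MP_95da86_ag.CovD

/-! The tables are consistent and list symmetries. -/

namespace Pool.Agent.MP_95da86_ag.Cov

lemma ok2 : S2.OK := by decide +kernel

lemma sym2 : ∀ a < 56, S2.IsSym (sy tSY2 a) :=
  have h : ∀ a < 5, S2.GenOK (d5 (sy tSY2 a)) (d8 (ent tGT2 (5 * a))) (d8 (ent tGT2 (5 * a + 1)))
      (d8 (ent tGT2 (5 * a + 2))) (d8 (ent tGT2 (5 * a + 3))) (d8 (ent tGT2 (5 * a + 4))) := by
    decide +kernel
  Sys.isSym_table (PA := tPA2) (fun a ha => (h a ha).isSym) (by decide +kernel)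

lemma ok9 : S9.OK := by decide +kernel

lemma sym9 : ∀ a < 485, S9.IsSym (sy tSY9 a) :=
  have h : ∀ a < 6, S9.GenOK (d5 (sy tSY9 a)) (d8 (ent tGT9 (5 * a))) (d8 (ent tGT9 (5 * a + 1)))
      (d8 (ent tGT9 (5 * a + 2))) (d8 (ent tGT9 (5 * a + 3))) (d8 (ent tGT9 (5 * a + 4))) := by
    decide +kernel
  Sys.isSym_table (PA := tPA9) (fun a ha => (h a ha).isSym) (by decide +kernel)

lemma ok0 : S0.OK := by decide +kernel

lemma sym0 : ∀ a < 323, S0.IsSym (sy tSY0 a) :=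
  have h : ∀ a < 5, S0.GenOK (d5 (sy tSY0 a)) (d8 (ent tGT0 (5 * a))) (d8 (ent tGT0 (5 * a + 1)))
      (d8 (ent tGT0 (5 * a + 2))) (d8 (ent tGT0 (5 * a + 3))) (d8 (ent tGT0 (5 * a + 4))) := by
    decide +kernel
  Sys.isSym_table (PA := tPA0) (fun a ha => (h a ha).isSym) (by decide +kernel)

lemma ok1 : S1.OK := by decide +kernel

lemma sym1 : ∀ a < 101, S1.IsSym (sy tSY1 a) :=
  have h : ∀ a < 5, S1.GenOK (d5 (sy tSY1 a)) (d8 (ent tGT1 (5 * a))) (d8 (ent tGT1 (5 * a + 1)))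
      (d8 (ent tGT1 (5 * a + 2))) (d8 (ent tGT1 (5 * a + 3))) (d8 (ent tGT1 (5 * a + 4))) := by
    decide +kernel
  Sys.isSym_table (PA := tPA1) (fun a ha => (h a ha).isSym) (by decide +kernel)

end Pool.Agent.MP_95da86_ag.Cov
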