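import Pool.Agent.MP_95da86_ag.CovE
import Pool.Agent.MP_95da86_ag.CovF0
import Pool.Agent.MP_95da86_ag.CovF1
import Pool.Agent.MP_95da86_ag.CovF2
import Pool.Agent.MP_95da86_ag.CovF3
import Pool.Agent.MP_95da86_ag.CovF4
import Pool.Agent.MP_95da86_ag.CovF5

/-! The four systems have no bad configuration. -/

namespace Pool.Agent.MP_95da86_ag.Cov

open Finset

lemma skip_zero (S : Sys) (m : ℕ → ℝ) (h : S.Bad m)
    (h0 : ∀ p < 27, 0 < m p → (0 : ℕ).testBit p = true) : False := by
  obtain ⟨y, a, h⟩ := h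
  obtain ⟨p, hp, h'⟩ := h.ne
  simpa using h0 p hp h'

/-- The point of the special line on a plane. -/
def u1 (j : ℕ) : ℕ := S1.R j 9 + 2 * S1.R j 18

lemma skip1 (m : ℕ → ℝ) (h : S1.Bad m) (h0 : ∀ p < 27, 0 < m p → (262657 : ℕ).testBit p = true) :
    False := by
  obtain ⟨y, a, h⟩ := h
  have F0 : ∀ p < 27, (262657 : ℕ).testBit p = true → ∃ i < 3, p = 9 * i := by decide +kernel
  have F1 : ∀ j < 27, u1 j < 3 ∧ ∀ i < 3, S1.R j (9 * i) = if u1 j = i then 1 else 0 := by
    decide +kernel
  have F2 : ∀ j < 27, ∀ i < 3, ∃ j' < 27, u1 j' = i ∧ ∀ r < 31, S1.R j' (27 + r) = S1.R j (27 + r) := by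
    decide +kernel
  have F3 : ∀ i < 3, ∃ c < 189, S1.pt c 0 = 9 * i ∧ (∀ j < 27, S1.R j (27 + S1.rw c) ≤ 1) ∧
      S1.R 27 (27 + S1.rw c) = 12 := by decide +kernel
  have F4 : ∀ k < 9, ∃ c < 189, S1.pt c 0 = 0 ∧ S1.pt c 1 = 9 ∧ S1.pt c 2 = 18 ∧
      (∀ j < 27, j / 3 ≠ k → S1.R j (27 + S1.rw c) ≤ 1) ∧ S1.R 27 (27 + S1.rw c) = 24 := by
    decide +kernel
  have F5 : ∀ i < 3, S1.R 27 (9 * i) = 12 := by decide +kernel
  have F6 : ∀ r < 31, S1.R 27 (27 + r) = 2 * ∑ k ∈ range 9, S1.R (3 * k) (27 + r) ∧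
      ∀ j < 27, S1.R j (27 + r) = S1.R (3 * (j / 3)) (27 + r) := by decide +kernel
  have m0 : ∀ p < 27, 0 ≤ m p := fun p hp => by rw [h.hm p hp]; exact le_max_right _ _
  have m1 : ∀ p < 27, 0 < m p → S1.cv y p < a p := fun p hp h1 => by
    rw [h.hm p hp] at h1; simpa using h1
  have cv1 : ∀ (d : ℕ → ℝ) i, S1.cv d i = ∑ j ∈ range 28, (S1.R j i : ℝ) * d j := fun _ _ => rfl
  set G : ℕ → ℝ := fun j => ∑ i ∈ range 3, m (9 * i) * S1.R j (9 * i) with hG
  have G1 : ∀ j < 27, G j = m (9 * u1 j) := fun j hj => by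
    simp only [hG]
    rw [sum_congr rfl fun i hi => by rw [(F1 j hj).2 i (mem_range.1 hi)]]
    simp [(F1 j hj).1]
  have K : ∀ d : ℕ → ℝ, (∀ r < 31, ∑ j ∈ range 28, (S1.R j (27 + r) : ℝ) * d j = 0) →
      (∀ j < 28, d j < 0 → 0 < y j) → ∑ j ∈ range 28, G j * d j ≤ 0 := by
    intro d h1 h2
    have h3 := h.kkt d h1 h2
    rw [← sum_subset (s₁ := (range 3).image (9 * ·)) (by decide) fun p hp hp' => ?_,
      sum_image (by intro i _ j _ h; simpa using h)] at h3
    · simp only [cv1, mul_sum] at h3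
      rw [sum_comm] at h3
      simpa only [hG, sum_mul, mul_assoc] using h3
    · rcases (m0 p (mem_range.1 hp)).eq_or_lt with h4 | h4
      · rw [← h4, zero_mul]
      · obtain ⟨i, hi, rfl⟩ := F0 p (mem_range.1 hp) (h0 p (mem_range.1 hp) h4)
        exact absurd (mem_image_of_mem _ (mem_range.2 hi)) hp'
  have sg : ∀ (F : ℕ → ℝ) j, j < 28 → ∑ i ∈ range 28, F i * (Pi.single j 1 : ℕ → ℝ) i = F j :=
    fun F j hj => by simp [Pi.single_apply, hj]
  obtain ⟨i0, hi0, hmax⟩ := (range 3).exists_max_image (fun i => m (9 * i)) ⟨0, by simp⟩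
  have hi0 := mem_range.1 hi0
  have hμ : 0 < m (9 * i0) := by
    obtain ⟨p, hp, h1⟩ := h.ne
    obtain ⟨i, hi, rfl⟩ := F0 p hp (h0 p hp h1)
    exact h1.trans_le (hmax i (mem_range.2 hi))
  have st : ∀ j < 27, 0 < y j → m (9 * u1 j) = m (9 * i0) := fun j hj hy => by
    refine (hmax _ (mem_range.2 (F1 j hj).1)).antisymm ?_
    obtain ⟨j', hj', e1, e2⟩ := F2 j hj i0 hi0
    have := K (Pi.single j' 1 - Pi.single j 1) (fun r hr => ?_) fun i _ hi => ?_
    · simp only [Pi.sub_apply, mul_sub, sum_sub_distrib] at this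
      rw [sg G j' (by omega), sg G j (by omega), G1 j hj, G1 j' hj', e1] at this
      linarith
    · simp only [Pi.sub_apply, mul_sub, sum_sub_distrib]
      rw [sg (fun j => (S1.R j (27 + r) : ℝ)) j' (by omega),
        sg (fun j => (S1.R j (27 + r) : ℝ)) j (by omega), e2 r hr, sub_self]
    · by_cases h1 : i = j
      · exact h1 ▸ hy
      · simp only [Pi.sub_apply, Pi.single_apply, h1, if_false] at hi
        split_ifs at hi <;> linarith
  have tw : ∀ (f g : ℕ → ℝ), (∀ j < 27, 0 < y j → f j ≤ g j) → f 27 ≤ g 27 →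
      ∑ j ∈ range 28, f j * y j ≤ ∑ j ∈ range 28, g j * y j := fun f g h1 h2 =>
    sum_le_sum fun j hj => by
      rcases (h.hy j).eq_or_lt with h3 | h3
      · simp [← h3]
      · refine mul_le_mul_of_nonneg_right ?_ h3.le
        rcases Nat.lt_succ_iff_lt_or_eq.1 (mem_range.1 hj) with h4 | rfl
        · exact h1 j h4 h3
        · exact h2
  by_cases hu : ∀ i < 3, m (9 * i) = m (9 * i0) → i = i0
  · obtain ⟨c, hc, e1, e2, e3⟩ := F3 i0 hi0
    have h1 := h.hc c hc
    have h2 := tw (fun j => S1.R j (27 + S1.rw c)) (fun j => S1.R j (9 * i0)) (fun j hj hy => ?_) ?_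
    · rw [e1] at h1
      rw [← cv1, ← cv1] at h2
      linarith [m1 _ (by omega) hμ, h.ha (S1.pt c 1), h.ha (S1.pt c 2)]
    · rw [(F1 j hj).2 i0 hi0, if_pos (hu _ (F1 j hj).1 (st j hj hy))]
      exact_mod_cast e2 j hj
    · rw [e3, F5 i0 hi0]
  push Not at hu
  obtain ⟨i1, hi1, e1, hne⟩ := hu
  have two : ∀ f : ℕ → ℝ, (∀ i < 3, 0 ≤ f i) → f i0 + f i1 ≤ ∑ i ∈ range 3, f i := fun f hf => by
    rw [← sum_pair hne.symm]
    exact sum_le_sum_of_subset_of_nonneg (by simp [subset_iff, hi0, hi1])
      fun i hi _ => hf i (mem_range.1 hi)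
  by_cases hk : ∀ k < 9, ∃ j < 27, j / 3 = k ∧ 0 < y j
  · choose! β b1 b2 b3 using hk
    have ev : ∀ F : ℕ → ℝ, ∑ j ∈ range 28, F j * (Pi.single 27 1 - (2 : ℝ) • ∑ k ∈ range 9,
        Pi.single (β k) 1 : ℕ → ℝ) j = F 27 - 2 * ∑ k ∈ range 9, F (β k) := fun F => by
      simp only [Pi.sub_apply, Pi.smul_apply, Finset.sum_apply, smul_eq_mul, mul_sub, sum_sub_distrib,
        mul_left_comm _ (2 : ℝ), ← mul_sum]
      simp only [mul_sum]
      rw [sg F 27 (by omega), sum_comm]
      congr 1
      refine sum_congr rfl fun k hk => ?_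
      rw [← mul_sum, sg F _ (by have := b1 k (mem_range.1 hk); omega)]
    have := K (Pi.single 27 1 - (2 : ℝ) • ∑ k ∈ range 9, Pi.single (β k) 1) (fun r hr => ?_)
      fun j _ hj => ?_
    · rw [ev, sum_congr rfl fun k hk => (G1 _ (b1 k (mem_range.1 hk))).trans
        (st _ (b1 k (mem_range.1 hk)) (b3 k (mem_range.1 hk)))] at this
      have h2 := two (fun i => m (9 * i) * S1.R 27 (9 * i)) fun i hi =>
        mul_nonneg (m0 _ (by omega)) (Nat.cast_nonneg _)
      simp only [F5 i0 hi0, F5 i1 hi1, e1] at h2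
      simp only [sum_const, card_range, nsmul_eq_mul] at this
      push_cast at h2 this
      linarith
    · rw [ev (fun j => (S1.R j (27 + r) : ℝ)), sum_congr rfl fun k hk => by
        rw [(F6 r hr).2 _ (b1 k (mem_range.1 hk)), b2 k (mem_range.1 hk)], (F6 r hr).1]
      push_cast; ring
    · by_contra hy
      have : ∀ k ∈ range 9, (Pi.single (β k) 1 : ℕ → ℝ) j = 0 := fun k hk =>
        Pi.single_eq_of_ne (fun e : j = β k => hy (e ▸ b3 k (mem_range.1 hk))) _
      rw [Pi.sub_apply, Pi.smul_apply, Finset.sum_apply, sum_eq_zero this, smul_zero,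
        sub_zero, Pi.single_apply] at hj
      split_ifs at hj <;> linarith
  push Not at hk
  obtain ⟨k, hk, hz⟩ := hk
  obtain ⟨c, hc, p0, p1, p2, e2, e3⟩ := F4 k hk
  have h1 := h.hc c hc
  rw [p0, p1, p2] at h1
  set χ : ℕ → ℝ := fun i => if m (9 * i) = m (9 * i0) then 1 else 0 with hχ
  have h2 := tw (fun j => S1.R j (27 + S1.rw c)) (fun j => ∑ i ∈ range 3, χ i * S1.R j (9 * i))
    (fun j hj hy => ?_) ?_
  · have h3 : ∑ i ∈ range 3, χ i * S1.cv y (9 * i) < ∑ i ∈ range 3, a (9 * i) := by
      refine sum_lt_sum (fun i hi => ?_) ⟨i0, mem_range.2 hi0, ?_⟩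
      · simp only [hχ]
        split_ifs with h4
        · simpa using (m1 _ (by have := mem_range.1 hi; omega) (h4 ▸ hμ)).le
        · simpa using h.ha _
      · simpa [hχ] using m1 _ (by omega) hμ
    simp only [cv1, mul_sum] at h3
    rw [sum_comm] at h3
    simp only [sum_mul, mul_assoc] at h2
    rw [← cv1] at h2
    simp only [sum_range_succ, range_zero, sum_empty, zero_add, mul_zero, mul_one] at h3
    simp only [sum_range_succ, range_zero, sum_empty, zero_add, mul_zero, mul_one] at h2
    linarith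
  · rw [sum_congr rfl fun i hi => by rw [(F1 j hj).2 i (mem_range.1 hi)]]
    have : (S1.R j (27 + S1.rw c) : ℝ) ≤ 1 := by
      exact_mod_cast e2 j hj fun e => (hz j hj e).not_gt hy
    simpa [(F1 j hj).1, hχ, st j hj hy] using this
  · have h2 := two (fun i => χ i * S1.R 27 (9 * i)) fun i hi =>
      mul_nonneg (by simp only [hχ]; split_ifs <;> norm_num) (Nat.cast_nonneg _)
    simp only [F5 i0 hi0, F5 i1 hi1, hχ, e1, if_true] at h2
    rw [e3]; push_cast at h2 ⊢
    linarith

lemma dead2 : S2.Dead 0 := by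
  have h : ∀ i < 8, ∃ x, S2.item 0 tIT2 tSY2 56 3 i x = true := fun i hi =>
    it2_0 i (by omega) hi
  have e : dg tIT2 7 = 0 := by decide +kernel
  exact e ▸ Sys.dead_all ok2 sym2 (skip_zero _) h 7 (by norm_num)

lemma dead9 : S9.Dead 0 := by
  have h : ∀ i < 63, ∃ x, S9.item 0 tIT9 tSY9 485 2 i x = true := fun i hi =>
    if h : i < 39 then it9_0 i (by omega) h else
    it9_39 i (by omega) hi
  have e : dg tIT9 62 = 0 := by decide +kernel
  exact e ▸ Sys.dead_all ok9 sym9 (skip_zero _) h 62 (by norm_num)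

lemma dead0 : S0.Dead 0 := by
  have h : ∀ i < 258, ∃ x, S0.item 0 tIT0 tSY0 323 2 i x = true := fun i hi =>
    if h : i < 48 then it0_0 i (by omega) h else
    if h : i < 90 then it0_48 i (by omega) h else
    if h : i < 120 then it0_90 i (by omega) h else
    if h : i < 149 then it0_120 i (by omega) h else
    if h : i < 178 then it0_149 i (by omega) h else
    if h : i < 201 then it0_178 i (by omega) h else
    if h : i < 223 then it0_201 i (by omega) h else
    if h : i < 241 then it0_223 i (by omega) h else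
    it0_241 i (by omega) hi
  have e : dg tIT0 257 = 0 := by decide +kernel
  exact e ▸ Sys.dead_all ok0 sym0 (skip_zero _) h 257 (by norm_num)

lemma dead1 : S1.Dead 0 := by
  have h : ∀ i < 1862, ∃ x, S1.item 262657 tIT1 tSY1 101 8 i x = true := fun i hi =>
    if h : i < 71 then it1_0 i (by omega) h else
    if h : i < 131 then it1_71 i (by omega) h else
    if h : i < 191 then it1_131 i (by omega) h else
    if h : i < 249 then it1_191 i (by omega) h else
    if h : i < 306 then it1_249 i (by omega) h else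
    if h : i < 359 then it1_306 i (by omega) h else
    if h : i < 415 then it1_359 i (by omega) h else
    if h : i < 473 then it1_415 i (by omega) h else
    if h : i < 528 then it1_473 i (by omega) h else
    if h : i < 584 then it1_528 i (by omega) h else
    if h : i < 638 then it1_584 i (by omega) h else
    if h : i < 691 then it1_638 i (by omega) h else
    if h : i < 740 then it1_691 i (by omega) h else
    if h : i < 794 then it1_740 i (by omega) h else
    if h : i < 847 then it1_794 i (by omega) h else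
    if h : i < 902 then it1_847 i (by omega) h else
    if h : i < 955 then it1_902 i (by omega) h else
    if h : i < 1007 then it1_955 i (by omega) h else
    if h : i < 1059 then it1_1007 i (by omega) h else
    if h : i < 1107 then it1_1059 i (by omega) h else
    if h : i < 1158 then it1_1107 i (by omega) h else
    if h : i < 1199 then it1_1158 i (by omega) h else
    if h : i < 1250 then it1_1199 i (by omega) h else
    if h : i < 1302 then it1_1250 i (by omega) h else
    if h : i < 1353 then it1_1302 i (by omega) h else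
    if h : i < 1404 then it1_1353 i (by omega) h else
    if h : i < 1445 then it1_1404 i (by omega) h else
    if h : i < 1490 then it1_1445 i (by omega) h else
    if h : i < 1531 then it1_1490 i (by omega) h else
    if h : i < 1578 then it1_1531 i (by omega) h else
    if h : i < 1627 then it1_1578 i (by omega) h else
    if h : i < 1666 then it1_1627 i (by omega) h else
    if h : i < 1706 then it1_1666 i (by omega) h else
    if h : i < 1746 then it1_1706 i (by omega) h else
    if h : i < 1785 then it1_1746 i (by omega) h else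
    if h : i < 1819 then it1_1785 i (by omega) h else
    if h : i < 1853 then it1_1819 i (by omega) h else
    it1_1853 i (by omega) hi
  have e : dg tIT1 1861 = 0 := by decide +kernel
  exact e ▸ Sys.dead_all ok1 sym1 skip1 h 1861 (by norm_num)

end Pool.Agent.MP_95da86_ag.Cov
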