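import Pool.Agent.MP_95da86_ag.PDefs
import Pool.Agent.MP_95da86_ag.CovG

/-! Covering by planes. -/

namespace Pool.Agent.MP_95da86_ag

open Finset Cov

namespace Cov

/-- The point with a given number. -/
def pn (p : ℕ) : F3 := fun i => ((p / 3 ^ (i : ℕ) : ℕ) : ZMod 3)

lemma pn_surj : ∀ x : F3, ∃ p < 27, pn p = x := by decide +kernel

lemma sum_z3 (F : ZMod 3 → ℝ) : ∑ τ, F τ = F 0 + F 1 + F 2 := Fin.sum_univ_three F

lemma sum3 (n : ℕ) (F : ℕ → ℝ) :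
    ∑ j ∈ range (3 * n), F j = ∑ k : Fin n, ∑ τ : ZMod 3, F (3 * k + τ.val) := by
  rw [Fin.sum_univ_eq_sum_range (fun k => ∑ τ : ZMod 3, F (3 * k + τ.val))]
  induction n with
  | zero => simp
  | succ n ih =>
    rw [sum_range_succ _ n, ← ih, sum_z3, mul_add, mul_one, sum_range_succ, sum_range_succ,
      sum_range_succ, add_assoc, add_assoc, add_assoc]
    rfl

/-- The starting point. -/
noncomputable def st {n : ℕ} (c : Fin n → ℝ) (j : ℕ) : ℝ :=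
  if h : j % 3 = 0 ∧ j / 3 < n then c ⟨j / 3, h.2⟩ else 0

lemma st_nonneg {n : ℕ} {c : Fin n → ℝ} (hc : ∀ k, 0 ≤ c k) (j : ℕ) : 0 ≤ st c j := by
  unfold st; split_ifs
  · exact hc _
  · exact le_rfl

lemma st_sum {n : ℕ} (c : Fin n → ℝ) (k : Fin n) : ∑ τ : ZMod 3, st c (3 * k + τ.val) = c k := by
  have h0 : st c (3 * k + (0 : ZMod 3).val) = c k := by
    have : (3 * (k : ℕ) + (0 : ZMod 3).val) / 3 = k := by simp
    unfold st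
    rw [dif_pos ⟨by simp, by rw [this]; exact k.2⟩]
    congr 1; exact Fin.ext this
  have h1 : st c (3 * k + (1 : ZMod 3).val) = 0 := dif_neg fun h => by
    have : (3 * (k : ℕ) + 1) % 3 = 0 := h.1
    omega
  have h2 : st c (3 * k + (2 : ZMod 3).val) = 0 := dif_neg fun h => by
    have : (3 * (k : ℕ) + 2) % 3 = 0 := h.1
    omega
  rw [sum_z3, h0, h1, h2]; ring

lemma sum_row {n : ℕ} (g : ℕ → ℕ) (w : Fin n → ℕ) (h : ∀ (k : Fin n) (τ : ZMod 3), g (3 * k + τ.val) = w k)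
    (y : ℕ → ℝ) : ∑ j ∈ range (3 * n), (g j : ℝ) * y j =
      ∑ k, (w k : ℝ) * ∑ τ : ZMod 3, y (3 * k + τ.val) := by
  simp only [sum3, h, mul_sum]

lemma sum_col {n : ℕ} (g : ℕ → ℕ) (t : Fin n → ZMod 3)
    (h : ∀ (k : Fin n) (τ : ZMod 3), g (3 * k + τ.val) = if t k = τ then 1 else 0) (y : ℕ → ℝ) :
    ∑ j ∈ range (3 * n), (g j : ℝ) * y j = ∑ k : Fin n, y (3 * k + (t k).val) := by
  simp [sum3, h]

lemma sum_unit {n : ℕ} (k : Fin n) (Y : Fin n → ℝ) :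
    ∑ k', ((if k' = k then 1 else 0 : ℕ) : ℝ) * Y k' = Y k := by simp

lemma sum_line (a : F3 → ℝ) {x y z : F3} (h : (2 : ZMod 3) • (y - x) + x = z) :
    ∑ τ : ZMod 3, a (τ • (y - x) + x) = a x + a y + a z := by
  rw [sum_z3, h]; simp

lemma sum_load {n : ℕ} (P : Fin n → Prop) [DecidablePred P] (Q : Prop) [Decidable Q] (k₀ : Fin n)
    (c : Fin n → ℝ) :
    ∑ k, (((if P k then 1 else 0) + if Q ∧ k = k₀ then 3 else 0 : ℕ) : ℝ) * c k =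
      ∑ k with P k, c k + if Q then 3 * c k₀ else 0 := by
  by_cases h : Q <;> simp [h, add_mul, sum_add_distrib, sum_filter]

end Cov

theorem cover0 {c : Fin 12 → ℝ} {a : F3 → ℝ} (hc : ∀ k, 0 ≤ c k) (h : Fin0 c a) :
    ∃ (y : Fin 12 → ZMod 3 → ℝ) (s : Fin 4 → ℝ), (∀ k τ, 0 ≤ y k τ) ∧ ∑ i, s i = 0 ∧
      (∀ k, ∑ τ, y k τ = c k + s (tri k)) ∧ ∀ p, a p ≤ ∑ k, y k (dotb (f0 k) p) := by
  have T1 : ∀ p < 27, ∀ (k : Fin 12) (τ : ZMod 3),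
      S0.R (3 * k + τ.val) p = if dotb (f0 k) (pn p) = τ then 1 else 0 := by decide +kernel
  have T2 : ∀ r < 21, ∀ (k : Fin 12) (τ : ZMod 3),
      S0.R (3 * k + τ.val) (27 + r) = S0.R (3 * k) (27 + r) := by decide +kernel
  have T3 : ∀ c < 189, pn (S0.pt c 1) - pn (S0.pt c 0) ≠ 0 ∧
      ((pn (S0.pt c 1) - pn (S0.pt c 0)) 2 = 0 →
        dotb (f0 (Fin.ofNat 12 (S0.rw c + 3))) (pn (S0.pt c 1) - pn (S0.pt c 0)) = 0) ∧
      (2 : ZMod 3) • (pn (S0.pt c 1) - pn (S0.pt c 0)) + pn (S0.pt c 0) = pn (S0.pt c 2) ∧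
      S0.rw c < 21 ∧ ∀ k : Fin 12, S0.R (3 * k) (27 + S0.rw c) =
        (if dotb (f0 k) (pn (S0.pt c 1) - pn (S0.pt c 0)) ≠ 0 then 1 else 0) +
        if (pn (S0.pt c 1) - pn (S0.pt c 0)) 2 = 0 ∧ k = Fin.ofNat 12 (S0.rw c + 3) then 3 else 0 := by
    decide +kernel
  have T4 : ∀ k₀ k : Fin 12, S0.R (3 * k) (27 + (9 + k₀)) =
      if (k : ℕ) / 3 = k₀ / 3 then (if k = k₀ then 3 else 0) else 1 := by decide +kernel
  have cv : ∀ (y : ℕ → ℝ) i, S0.cv y i = ∑ j ∈ range (3 * 12), (S0.R j i : ℝ) * y j := fun _ _ => rfl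
  obtain ⟨y, h0, h1, h2⟩ := Sys.cover ok0 dead0 (a := fun p => a (pn p)) (st_nonneg hc)
    (fun p => h.1 _) (fun i hi => by
      obtain ⟨a1, a2, a3, a4, a5⟩ := T3 i hi
      rw [cv, sum_row _ _ fun k τ => (T2 _ a4 k τ).trans (a5 k), ← sum_line a a3]
      simp only [st_sum, sum_load]
      exact h.2 _ _ _ a1 a2) (fun h => absurd rfl h)
  have e : ∀ k₀ : Fin 12, ∑ k : Fin 12, ((if (k : ℕ) / 3 = k₀ / 3 then (if k = k₀ then 3 else 0) else 1 : ℕ) : ℝ) *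
      (∑ τ : ZMod 3, y (3 * k + τ.val) - c k) = 0 := fun k₀ => by
    have hr : 9 + (k₀ : ℕ) < 21 := by omega
    have := h1 _ hr
    rw [cv, cv, sum_row _ _ fun k τ => (T2 _ hr k τ).trans (T4 k₀ k),
      sum_row _ _ fun k τ => (T2 _ hr k τ).trans (T4 k₀ k)] at this
    simp only [st_sum] at this
    simp only [mul_sub, sum_sub_distrib, this, sub_self]
  set δ : Fin 12 → ℝ := fun k => ∑ τ : ZMod 3, y (3 * k + τ.val) - c k with hδ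
  have e' : ∀ k₀ : Fin 12, ∑ k : Fin 12,
    ((if (k : ℕ) / 3 = k₀ / 3 then (if k = k₀ then 3 else 0) else 1 : ℕ) : ℝ) * δ k = 0 := e
  have e0 := e' 0; have e1 := e' 1; have e2 := e' 2; have e3 := e' 3; have e4 := e' 4
  have e5 := e' 5; have e6 := e' 6; have e7 := e' 7; have e8 := e' 8; have e9 := e' 9
  have e10 := e' 10; have e11 := e' 11
  have hs : δ 3 + δ 0 + δ 9 + δ 6 = 0 ∧ ∀ k, δ k = ![δ 3, δ 0, δ 9, δ 6] (tri k) := by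
    clear_value δ
    simp [Fin.sum_univ_succ] at e0 e1 e2 e3 e4 e5 e6 e7 e8 e9 e10 e11
    refine ⟨by linarith, fun k => ?_⟩
    fin_cases k <;> simp [tri] <;> linarith
  refine ⟨fun k τ => y (3 * k + τ.val), ![δ 3, δ 0, δ 9, δ 6], fun _ _ => h0 _, ?_, fun k => ?_,
    fun x => ?_⟩
  · simpa [Fin.sum_univ_four] using hs.1
  · rw [← hs.2 k]; simp [hδ]
  · obtain ⟨p, hp, rfl⟩ := pn_surj x
    have := h2 p hp
    rwa [cv, sum_col _ _ (T1 p hp)] at this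

theorem cover2 {c : Fin 4 → ℝ} {a : F3 → ℝ} (hc : ∀ k, 0 ≤ c k) (h : Fin2 c a) :
    ∃ y : Fin 4 → ZMod 3 → ℝ, (∀ k τ, 0 ≤ y k τ) ∧ (∀ k, ∑ τ, y k τ = c k) ∧
      ∀ p, a p ≤ ∑ k, y k (dotb (f2 k) p) := by
  have T1 : ∀ p < 27, ∀ (k : Fin 4) (τ : ZMod 3),
      S2.R (3 * k + τ.val) p = if dotb (f2 k) (pn p) = τ then 1 else 0 := by decide +kernel
  have T3 : ∀ c < 30, (pn (S2.pt c 0) 2 ≠ 0 ∧ pn (S2.pt c 1) 2 ≠ 0 ∧ pn (S2.pt c 2) 2 ≠ 0) ∨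
      pn (S2.pt c 1) - pn (S2.pt c 0) ≠ 0 ∧ (pn (S2.pt c 1) - pn (S2.pt c 0)) 2 = 0 ∧
      (2 : ZMod 3) • (pn (S2.pt c 1) - pn (S2.pt c 0)) + pn (S2.pt c 0) = pn (S2.pt c 2) ∧
      ∀ (k : Fin 4) (τ : ZMod 3), S2.R (3 * k + τ.val) (27 + S2.rw c) =
        if dotb (f2 k) (pn (S2.pt c 1) - pn (S2.pt c 0)) ≠ 0 then 1 else 0 := by
    decide +kernel
  have T4 : ∀ (k₀ k : Fin 4) (τ : ZMod 3), S2.R (3 * k + τ.val) (27 + k₀) = if k = k₀ then 1 else 0 := by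
    decide +kernel
  have cv : ∀ (y : ℕ → ℝ) i, S2.cv y i = ∑ j ∈ range (3 * 4), (S2.R j i : ℝ) * y j := fun _ _ => rfl
  obtain ⟨y, h0, h1, h2⟩ := Sys.cover ok2 dead2 (a := fun p => a (pn p)) (st_nonneg hc)
    (fun p => h.1 _) (fun i hi => by
      rcases T3 i hi with ⟨a1, a2, a3⟩ | ⟨a1, a2, a3, a4⟩
      · rw [h.2.1 _ a1, h.2.1 _ a2, h.2.1 _ a3, add_zero, add_zero]
        exact sum_nonneg fun j _ => mul_nonneg (Nat.cast_nonneg _) (st_nonneg hc j)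
      · rw [cv, sum_row _ _ a4, ← sum_line a a3]
        simpa [st_sum, sum_filter] using h.2.2 _ _ a1 a2) (fun h => absurd rfl h)
  refine ⟨fun k τ => y (3 * k + τ.val), fun _ _ => h0 _, fun k => ?_, fun x => ?_⟩
  · have := h1 k (by have := k.2; change _ < 9; omega)
    rwa [cv, cv, sum_row _ _ (T4 k), sum_row _ _ (T4 k), sum_unit, sum_unit, st_sum] at this
  · obtain ⟨p, hp, rfl⟩ := pn_surj x
    have := h2 p hp
    rwa [cv, sum_col _ _ (T1 p hp)] at this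

lemma cover1a {c : Fin 9 → ℝ} {a : F3 → ℝ} (hc : ∀ k, 0 ≤ c k) (h : Fin1 c a)
    (hA : ∀ b, ∑ τ : ZMod 3, a (τ • pn 9 + b) ≤ ∑ k, c k) :
    ∃ y : Fin 9 → ZMod 3 → ℝ, (∀ k τ, 0 ≤ y k τ) ∧ (∀ k, ∑ τ, y k τ = c k) ∧
      ∀ p, a p ≤ ∑ k, y k (dotb (f1 k) p) := by
  have T1 : ∀ p < 27, ∀ (k : Fin 9) (τ : ZMod 3),
      S9.R (3 * k + τ.val) p = if dotb (f1 k) (pn p) = τ then 1 else 0 := by decide +kernel
  have T3 : ∀ c < 117,
      (2 : ZMod 3) • (pn (S9.pt c 1) - pn (S9.pt c 0)) + pn (S9.pt c 0) = pn (S9.pt c 2) ∧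
      ((pn (S9.pt c 1) - pn (S9.pt c 0) = pn 9 ∧
        ∀ (k : Fin 9) (τ : ZMod 3), S9.R (3 * k + τ.val) (27 + S9.rw c) = 1) ∨
      pn (S9.pt c 1) - pn (S9.pt c 0) ≠ 0 ∧
      ¬ ((pn (S9.pt c 1) - pn (S9.pt c 0)) 0 = 0 ∧ (pn (S9.pt c 1) - pn (S9.pt c 0)) 1 = 0) ∧
      ∀ (k : Fin 9) (τ : ZMod 3), S9.R (3 * k + τ.val) (27 + S9.rw c) =
        if dotb (f1 k) (pn (S9.pt c 1) - pn (S9.pt c 0)) ≠ 0 then 1 else 0) := by
    decide +kernel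
  have T4 : ∀ (k₀ k : Fin 9) (τ : ZMod 3), S9.R (3 * k + τ.val) (27 + k₀) = if k = k₀ then 1 else 0 := by
    decide +kernel
  have cv : ∀ (y : ℕ → ℝ) i, S9.cv y i = ∑ j ∈ range (3 * 9), (S9.R j i : ℝ) * y j := fun _ _ => rfl
  obtain ⟨y, h0, h1, h2⟩ := Sys.cover ok9 dead9 (a := fun p => a (pn p)) (st_nonneg hc)
    (fun p => h.1 _) (fun i hi => by
      obtain ⟨a3, ⟨a1, a2⟩ | ⟨a1, a2, a4⟩⟩ := T3 i hi
      · rw [cv, sum_row _ _ a2, ← sum_line a a3, a1]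
        simpa [st_sum] using hA _
      · rw [cv, sum_row _ _ a4, ← sum_line a a3]
        have := h.2 _ (pn (S9.pt i 0)) 0 a1
        rw [if_neg a2, add_zero] at this
        simpa [st_sum, sum_filter] using this) (fun h => absurd rfl h)
  refine ⟨fun k τ => y (3 * k + τ.val), fun _ _ => h0 _, fun k => ?_, fun x => ?_⟩
  · have := h1 k (by have := k.2; change _ < 22; omega)
    rwa [cv, cv, sum_row _ _ (T4 k), sum_row _ _ (T4 k), sum_unit, sum_unit, st_sum] at this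
  · obtain ⟨p, hp, rfl⟩ := pn_surj x
    have := h2 p hp
    rwa [cv, sum_col _ _ (T1 p hp)] at this

lemma cover1b {c : Fin 9 → ℝ} {a : F3 → ℝ} (hc : ∀ k, 0 ≤ c k) (h : Fin1 c a)
    (hB : ∑ k, c k ≤ ∑ τ : ZMod 3, a (τ • pn 9 + 0)) :
    ∃ (y : Fin 9 → ZMod 3 → ℝ) (s : ℝ), (∀ k τ, 0 ≤ y k τ) ∧ 0 ≤ s ∧
      (∀ k, ∑ τ, y k τ + 2 * s = c k) ∧
      ∀ p, a p ≤ ∑ k, y k (dotb (f1 k) p) + s * if p 0 = 0 ∧ p 1 = 0 then 12 else 3 := by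
  have T1 : ∀ p < 27, (S1.R 27 p = if pn p 0 = 0 ∧ pn p 1 = 0 then 12 else 3) ∧
      ∀ (k : Fin 9) (τ : ZMod 3),
      S1.R (3 * k + τ.val) p = if dotb (f1 k) (pn p) = τ then 1 else 0 := by decide +kernel
  have T3 : ∀ c < 189, pn (S1.pt c 1) - pn (S1.pt c 0) ≠ 0 ∧
      (2 : ZMod 3) • (pn (S1.pt c 1) - pn (S1.pt c 0)) + pn (S1.pt c 0) = pn (S1.pt c 2) ∧
      ∀ (k : Fin 9) (τ : ZMod 3), S1.R (3 * k + τ.val) (27 + S1.rw c) =
        (if dotb (f1 k) (pn (S1.pt c 1) - pn (S1.pt c 0)) ≠ 0 then 1 else 0) +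
        if ((pn (S1.pt c 1) - pn (S1.pt c 0)) 0 = 0 ∧ (pn (S1.pt c 1) - pn (S1.pt c 0)) 1 = 0) ∧
          k = Fin.ofNat 9 (S1.rw c + 5) then 3 else 0 := by
    decide +kernel
  have T4 : ∀ k₀ : Fin 9, S1.R 27 (27 + (1 + k₀)) = 2 ∧ ∀ (k : Fin 9) (τ : ZMod 3),
      S1.R (3 * k + τ.val) (27 + (1 + k₀)) = if k = k₀ then 1 else 0 := by decide +kernel
  have T5 : (∀ (k : Fin 9) (τ : ZMod 3), S1.R (3 * k + τ.val) 27 = 1) ∧ pn 0 = 0 ∧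
    (2 : ZMod 3) • (pn 9 - pn 0) + pn 0 = pn 18 := by decide +kernel
  have cv : ∀ (y : ℕ → ℝ) i, S1.cv y i = ∑ j ∈ range (3 * 9), (S1.R j i : ℝ) * y j +
      S1.R 27 i * y 27 := fun _ _ => sum_range_succ _ 27
  have s0 : st c 27 = 0 := dif_neg (by norm_num)
  obtain ⟨y, h0, h1, h2⟩ := Sys.cover ok1 dead1 (a := fun p => a (pn p)) (st_nonneg hc)
    (fun p => h.1 _) (fun i hi => by
      obtain ⟨a1, a3, a5⟩ := T3 i hi
      rw [cv, sum_row _ _ a5, ← sum_line a a3, s0, mul_zero, add_zero]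
      simp only [st_sum, sum_load]
      exact h.2 _ _ _ a1) (fun _ => by
      rw [cv, sum_row _ _ T5.1, ← sum_line a T5.2.2, s0, T5.2.1, mul_zero, add_zero]
      simpa [st_sum] using hB)
  refine ⟨fun k τ => y (3 * k + τ.val), y 27, fun _ _ => h0 _, h0 _, fun k => ?_, fun x => ?_⟩
  · have := h1 (1 + k) (by have := k.2; change _ < 31; omega)
    rw [cv, cv, sum_row _ _ (T4 k).2, sum_row _ _ (T4 k).2, sum_unit, sum_unit, st_sum, s0,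
      (T4 k).1] at this
    simpa using this
  · obtain ⟨p, hp, rfl⟩ := pn_surj x
    have := h2 p hp
    rw [cv, sum_col _ _ (T1 p hp).2, (T1 p hp).1, mul_comm] at this
    simpa using this

theorem cover1 {c : Fin 9 → ℝ} {a : F3 → ℝ} (hc : ∀ k, 0 ≤ c k) (h : Fin1 c a) :
    ∃ (y : Fin 9 → ZMod 3 → ℝ) (s : ℝ) (b : F3), (∀ k τ, 0 ≤ y k τ) ∧ 0 ≤ s ∧
      (∀ k, ∑ τ, y k τ + 2 * s = c k) ∧
      ∀ p, a p ≤ ∑ k, y k (dotb (f1 k) p) + s * if p 0 = b 0 ∧ p 1 = b 1 then 12 else 3 := by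
  by_cases hA : ∀ b, ∑ τ : ZMod 3, a (τ • pn 9 + b) ≤ ∑ k, c k
  · obtain ⟨y, h0, h1, h2⟩ := cover1a hc h hA
    exact ⟨y, 0, 0, h0, le_rfl, by simpa using h1, by simpa using h2⟩
  push Not at hA
  obtain ⟨b, hb⟩ := hA
  obtain ⟨y, s, h0, hs, h1, h2⟩ := cover1b (a := fun x => a (x + b)) hc
    ⟨fun p => h.1 _, fun d b' k hd => by simpa only [add_assoc] using h.2 d (b' + b) k hd⟩
    (by simpa using hb.le)
  refine ⟨fun k τ => y k (τ - dotb (f1 k) b), s, b, fun _ _ => h0 _ _, hs, fun k => ?_, fun p => ?_⟩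
  · rw [← h1 k, ← (Equiv.subRight (dotb (f1 k) b)).sum_comp (y k)]; rfl
  · have e : ∀ l, dotb l (p - b) = dotb l p - dotb l b := fun l => by
      simp only [dotb, Pi.sub_apply, mul_sub, sum_sub_distrib]
    simpa only [sub_add_cancel, e, Pi.sub_apply, sub_eq_zero] using h2 (p - b)

end Pool.Agent.MP_95da86_ag
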