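import Pool.Agent.MP_95da86_ag.CubeA

/-! The model `E ^ 3`. -/

namespace Pool.Agent.MP_95da86_ag

variable {L : Type} [Field L] [Algebra ℂ L] {P Q : Fin 3 → EP L} {O O' W : Pt L}

/-! ### The fixed points -/

private theorem Cube_aux_intg (h : ∀ i, Intg O (P i)) (p : F3) (i : Fin 3) : Intg O (sh P p i) :=
  (h i).sub (intg_tors _)

theorem over_iff_red (hP : Gen3 P) (h : ∀ i, Intg O (P i)) (p : F3) :
    Over O P p ↔ ∀ i, red O (P i) = tors (RF O) (p i) := by
  refine forall_congr' fun i => ?_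
  have h1 : red O (sh P p i) = red O (P i) - tors (RF O) (p i) := by
    rw [sh, red_sub (h i) (intg_tors _), red_tors]
  have h2 := red_eq_zero (Cube_aux_intg h p i)
  rw [h1, sub_eq_zero] at h2
  rw [h2]
  exact ⟨Or.inr, fun h' => h'.resolve_left ((hP.shift p).ne i)⟩

theorem over_inj (hP : Gen3 P) (h : ∀ i, Intg O (P i)) {p p' : F3} (hp : Over O P p)
    (hp' : Over O P p') : p = p' := by
  funext i
  exact tors_injective ((((over_iff_red hP h p).1 hp) i).symm.trans (((over_iff_red hP h p').1 hp') i))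

theorem Over.of_le {p : F3} (h : Over O' P p) (hle : O.1 ≤ O'.1) : Over O P p :=
  fun i hi => h i (hle hi)

theorem over_dom (h : ∀ i, Intg O (P i)) (hd : Dom O W) (p : F3) : Over O P p ↔ Over W P p :=
  forall_congr' fun i => not_congr ((Cube_aux_intg h p i).yc_mem_dom hd)

theorem Over.sc_mem {p : F3} (hI : ∀ i, Intg O (P i)) (h : Over O P p) (i : Fin 3) :
    sc (sh P p i) ∈ mx O ∧ tc (sh P p i) ∈ mx O :=
  ⟨(Cube_aux_intg hI p i).sc_mem (h i), (Cube_aux_intg hI p i).tc_mem (h i)⟩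

theorem Gen3.exists_over (hP : Gen3 P) (p : F3) : ∃ O ∈ cubeP P, Over O P p := by
  obtain ⟨O, hO, φ, hφ⟩ := hP.exists_pt (N := ℂ) fun i => tors ℂ (p i)
  refine ⟨O, hO, (over_iff_red hP (cube_intg hO) p).2 fun i => emap_injective φ ?_⟩
  rw [hφ, emap_tors]

/-- Every element of `ℂ[S]` is a constant modulo any `ℂ[S]`-submodule containing `S`. -/
private theorem Cube_aux_const {S : Set L} (M : L → Prop) (h0 : M 0)
    (hadd : ∀ x y, M x → M y → M (x + y))
    (hmul : ∀ r ∈ Algebra.adjoin ℂ S, ∀ x, M x → M (r * x)) (hS : ∀ s ∈ S, M s) :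
    ∀ a ∈ Algebra.adjoin ℂ S, ∃ c : ℂ, M (a - algebraMap ℂ L c) := by
  intro a ha
  induction ha using Algebra.adjoin_induction with
  | mem x hx => exact ⟨0, by simpa using hS x hx⟩
  | algebraMap c => exact ⟨c, by simpa using h0⟩
  | add x y _ _ hx hy =>
    obtain ⟨c, hc⟩ := hx
    obtain ⟨d, hd⟩ := hy
    refine ⟨c + d, ?_⟩
    have := hadd _ _ hc hd
    rw [map_add]
    convert this using 1
    ring
  | mul x y hx' _ hx hy =>
    obtain ⟨c, hc⟩ := hx
    obtain ⟨d, hd⟩ := hy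
    refine ⟨c * d, ?_⟩
    have := hadd _ _ (hmul x hx' _ hd) (hmul _ (Subalgebra.algebraMap_mem _ d) _ hc)
    rw [map_mul]
    convert this using 1
    ring

private theorem Cube_aux_spec {p : F3} (hO : O ∈ cubeP P) (h : Over O P p) :
    O ∈ spec (Algebra.adjoin ℂ
      (Set.range (fun i => sc (sh P p i)) ∪ Set.range fun i => tc (sh P p i))) :=
  mem_spec_inf (by rw [cube_sh]; exact hO) h

private theorem Cube_aux_gen {p : F3} (hO : O ∈ cubeP P) (h : Over O P p) :
    ∀ s ∈ Set.range (fun i => sc (sh P p i)) ∪ Set.range fun i => tc (sh P p i), s ∈ mx O := by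
  rintro _ (⟨i, rfl⟩ | ⟨i, rfl⟩)
  · exact (h.sc_mem (cube_intg hO) i).1
  · exact (h.sc_mem (cube_intg hO) i).2

private theorem Cube_aux_zero {c : ℂ} (h : algebraMap ℂ L c ∈ mx O) : c = 0 := by
  by_contra hc
  exact (isU_const O hc).not_mx h

theorem over_const {p : F3} (hO : O ∈ cubeP P) (h : Over O P p) {f : L} (hf : f ∈ O.1) :
    ∃ c : ℂ, f - algebraMap ℂ L c ∈ mx O := by
  have hs := Cube_aux_spec hO h
  have key := Cube_aux_const (fun x => x ∈ mx O) (zero_mem_mx O) (fun _ _ => mx_add)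
    (fun r hr _ hx => mx_mul_left (hs.1 hr) hx) (Cube_aux_gen hO h)
  obtain ⟨a, ha, b, hb, hb', rfl⟩ := hs.2 f hf
  by_cases hb0 : b = 0
  · exact ⟨0, by simpa [hb0] using zero_mem_mx O⟩
  have hu : IsU O b := ⟨hb0, hs.1 hb, hb'⟩
  obtain ⟨c, hc⟩ := key a ha
  obtain ⟨d, hd⟩ := key b hb
  have hd0 : d ≠ 0 := by
    rintro rfl
    exact hu.not_mx (by simpa using hd)
  have hdu := isU_const O hd0
  refine ⟨c / d, ?_⟩
  have e : a / b - algebraMap ℂ L (c / d) =
      b⁻¹ * ((a - algebraMap ℂ L c) - algebraMap ℂ L (c / d) * (b - algebraMap ℂ L d)) := by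
    have := hdu.1
    rw [map_div₀]
    field_simp
    ring
  rw [e]
  exact mx_mul_left hb' (mx_sub' hc (mx_mul_left (O.1.algebraMap_mem _) hd))

private theorem Cube_aux_le {p : F3} (hO : O ∈ cubeP P) (hO' : O' ∈ cubeP P) (h : Over O P p)
    (h' : Over O' P p) : O.1 ≤ O'.1 := by
  have hs := Cube_aux_spec hO h
  have hs' := Cube_aux_spec hO' h'
  have key := Cube_aux_const (fun x => x ∈ mx O ∧ x ∈ mx O') ⟨zero_mem_mx O, zero_mem_mx O'⟩
    (fun _ _ hx hy => ⟨mx_add hx.1 hy.1, mx_add hx.2 hy.2⟩)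
    (fun r hr _ hx => ⟨mx_mul_left (hs.1 hr) hx.1, mx_mul_left (hs'.1 hr) hx.2⟩)
    (fun s hs => ⟨Cube_aux_gen hO h s hs, Cube_aux_gen hO' h' s hs⟩)
  intro f hf
  obtain ⟨a, ha, b, hb, hb', rfl⟩ := hs.2 f hf
  by_cases hb0 : b = 0
  · simp [hb0]
  have hu : IsU O b := ⟨hb0, hs.1 hb, hb'⟩
  obtain ⟨d, hd, hd'⟩ := key b hb
  have hd0 : d ≠ 0 := by
    rintro rfl
    exact hu.not_mx (by simpa using hd)
  have hu' : IsU O' b := by simpa using (isU_const O' hd0).add_mx hd'
  rw [div_eq_mul_inv]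
  exact mul_mem (hs'.1 ha) hu'.2.2

theorem over_unique {p : F3} (hO : O ∈ cubeP P) (hO' : O' ∈ cubeP P) (h : Over O P p)
    (h' : Over O' P p) : O = O' :=
  Subtype.ext (le_antisymm (Cube_aux_le hO hO' h h') (Cube_aux_le hO' hO h' h))

/-- The maximal ideal is generated by the `s j` (use `mem_spec_inf` for `sh P p` and `tc_eq`). -/
theorem over_gen {p : F3} (hO : O ∈ cubeP P) (h : Over O P p) {f : L} (hf : f ∈ mx O) :
    ∃ a : Fin 3 → L, (∀ j, a j ∈ O.1) ∧ f = ∑ j, a j * sc (sh P p j) := by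
  classical
  have hs := Cube_aux_spec hO h
  let M : L → Prop := fun x => ∃ a : Fin 3 → L, (∀ j, a j ∈ O.1) ∧ x = ∑ j, a j * sc (sh P p j)
  have h0 : M 0 := ⟨0, fun _ => zero_mem _, by simp⟩
  have hmul : ∀ r ∈ O.1, ∀ x, M x → M (r * x) := by
    rintro r hr _ ⟨a, ha, rfl⟩
    exact ⟨fun j => r * a j, fun j => mul_mem hr (ha j), by
      rw [Finset.mul_sum]; exact Finset.sum_congr rfl fun j _ => (mul_assoc _ _ _).symm⟩
  have hsc : ∀ i, M (sc (sh P p i)) := fun i =>
    ⟨Pi.single i 1, fun j => by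
      rw [Pi.single_apply]; split_ifs
      · exact one_mem _
      · exact zero_mem _, by simp [Pi.single_apply]⟩
  have hM : ∀ x, M x → x ∈ mx O := by
    rintro _ ⟨a, ha, rfl⟩
    rw [Fin.sum_univ_three]
    exact mx_add (mx_add (mx_mul_left (ha 0) (h.sc_mem (cube_intg hO) 0).1)
      (mx_mul_left (ha 1) (h.sc_mem (cube_intg hO) 1).1))
      (mx_mul_left (ha 2) (h.sc_mem (cube_intg hO) 2).1)
  have key := Cube_aux_const M h0
    (by
      rintro _ _ ⟨a, ha, rfl⟩ ⟨b, hb, rfl⟩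
      exact ⟨fun j => a j + b j, fun j => add_mem (ha j) (hb j), by
        rw [← Finset.sum_add_distrib]; exact Finset.sum_congr rfl fun j _ => (add_mul _ _ _).symm⟩)
    (fun r hr x hx => hmul r (hs.1 hr) x hx)
    (by
      rintro _ (⟨i, rfl⟩ | ⟨i, rfl⟩)
      · exact hsc i
      · have hy : yc (sh P p i) ≠ 0 := fun h0 => h i (h0 ▸ zero_mem _)
        obtain ⟨hs1, ht1⟩ := h.sc_mem (cube_intg hO) i
        have hu : IsU O (1 - tc (sh P p i) ^ 2) := by
          have := (isU_one O).add_mx (mx_neg (mx_mul_left (mx_sub ht1) ht1))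
          rwa [← sub_eq_add_neg, ← sq] at this
        have e : tc (sh P p i) =
            ((1 - tc (sh P p i) ^ 2)⁻¹ * sc (sh P p i) ^ 2) * sc (sh P p i) := by
          have h1 := tc_eq hy
          have h2 := hu.1
          rw [mul_assoc, ← pow_succ, ← h1]
          field_simp
        change M (tc (sh P p i))
        rw [e]
        exact hmul _ (mul_mem hu.2.2 (pow_mem (mx_sub hs1) 2)) _ (hsc i))
  obtain ⟨a, ha, b, hb, hb', rfl⟩ := hs.2 f (mx_sub hf)
  by_cases hb0 : b = 0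
  · rw [hb0, div_zero]; exact h0
  obtain ⟨c, hc⟩ := key a ha
  have ham : a ∈ mx O := by
    have := mx_mul_right hf (hs.1 hb)
    rwa [div_mul_cancel₀ _ hb0] at this
  have hc0 : c = 0 := Cube_aux_zero (O := O) (by simpa using mx_sub' ham (hM _ hc))
  rw [hc0, map_zero, sub_zero] at hc
  rw [div_eq_inv_mul]
  exact hmul _ hb' _ hc

variable {σ : L ≃ₐ[ℂ] L}

private theorem Cube_aux_om (τ : ZMod 3) : om • tors L τ = tors L τ := by
  rw [smul_tors]
  congr 1
  simp [bar_def, om]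

theorem Cfg.map_lin (h : Cfg P σ) (l : Lam) (τ : ZMod 3) :
    emap (σ : L →ₐ[ℂ] L) (lin l P - tors L τ) = om • (lin l P - tors L τ) := by
  rw [map_sub, emap_lin, emap_tors, smul_sub, Cube_aux_om]
  congr 1
  simp only [lin, h.rot, Finset.smul_sum]
  exact Finset.sum_congr rfl fun i _ => smul_comm _ _ _

theorem Cfg.shift (h : Cfg P σ) (p : F3) : Cfg (sh P p) σ :=
  ⟨h.gen.shift p, fun i => by rw [sh, map_sub, emap_tors, smul_sub, Cube_aux_om, h.rot]⟩

theorem Cfg.map_xc (h : Cfg P σ) (i : Fin 3) : σ (xc (P i)) = zt L * xc (P i) := by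
  simpa using congrArg xc (h.rot i)

theorem Cfg.map_yc (h : Cfg P σ) (i : Fin 3) : σ (yc (P i)) = yc (P i) := by
  simpa using congrArg yc (h.rot i)

theorem Cfg.pow_three (h : Cfg P σ) : σ ^ 3 = 1 := by
  have h3 : om * (om * om) = 1 := by
    ext <;> simp [om, QuadraticAlgebra.re_one, QuadraticAlgebra.im_one]
  have e : (σ : L →ₐ[ℂ] L).comp ((σ : L →ₐ[ℂ] L).comp (σ : L →ₐ[ℂ] L)) = AlgHom.id ℂ L := by
    refine h.gen.algHom_ext fun i => ?_
    rw [← emap_emap, ← emap_emap, h.rot, map_smul, h.rot, map_smul, map_smul, h.rot, emap_id,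
      smul_smul, smul_smul, mul_assoc, h3, one_smul]
  ext f
  have := DFunLike.congr_fun e f
  simpa [pow_succ] using this

theorem mem_KK {f : L} : f ∈ KK σ ↔ σ f = f := by
  rw [IntermediateField.mem_fixedField_iff]
  constructor
  · intro h
    exact h σ (Subgroup.mem_zpowers σ)
  · intro h g hg
    have : Subgroup.zpowers σ ≤ MulAction.stabilizer (L ≃ₐ[ℂ] L) f :=
      Subgroup.zpowers_le_of_mem h
    exact this hg

theorem coe_toK {f : L} (hf : σ f = f) : (toK σ f : L) = f := by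
  rw [toK, dif_pos (mem_KK.2 hf)]

theorem Cfg.fix_iff (h : Cfg P σ) : O ∈ fixP P σ ↔ O ∈ cubeP P ∧ ∃ p, Over O P p := by
  constructor
  · rintro ⟨hO, hfix⟩
    have hO' : O ∈ cubeP P := hO
    have hI := cube_intg hO'
    have hex : ∀ i, ∃ τ, red O (P i) = tors (RF O) τ := fun i => by
      by_cases hy : yc (P i) ∈ O.1
      · have hx := (hI i).xc_mem hy
        have h1 := hfix _ hx
        rw [h.map_xc] at h1
        have hu : IsU O (zt L - 1) := by
          have := isU_const O (sub_ne_zero.2 zeta_ne_one)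
          rwa [map_sub, map_one] at this
        have h2 : xc (P i) ∈ mx O := by
          have e : xc (P i) = (zt L - 1)⁻¹ * (zt L * xc (P i) - xc (P i)) := by
            have := hu.1
            field_simp
          rw [e]
          exact mx_mul_left hu.2.2 h1
        exact eq_tors_of_xc (by rw [xc_red (hI i) hy, res_eq_zero hx]; exact h2)
      · exact ⟨0, by rw [tors_zero]; exact (red_eq_zero (hI i)).2 (Or.inr hy)⟩
    choose p hp using hex
    exact ⟨hO', p, (over_iff_red h.gen hI p).2 hp⟩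
  · rintro ⟨hO, p, hp⟩
    refine ⟨hO, fun f hf => ?_⟩
    have hs := Cube_aux_spec hO hp
    have h' := h.shift p
    have hgen : ∀ s ∈ Set.range (fun i => sc (sh P p i)) ∪ Set.range fun i => tc (sh P p i),
        σ s ∈ mx O := by
      rintro _ (⟨i, rfl⟩ | ⟨i, rfl⟩)
      · have e : σ (sc (sh P p i)) = zt L * sc (sh P p i) := by
          rw [sc, map_div₀, h'.map_xc, h'.map_yc, mul_div_assoc]
        change σ (sc (sh P p i)) ∈ mx O
        rw [e]
        exact mx_mul_left (O.1.algebraMap_mem _) (hp.sc_mem (cube_intg hO) i).1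
      · have e : σ (tc (sh P p i)) = tc (sh P p i) := by
          rw [tc, map_inv₀, h'.map_yc]
        change σ (tc (sh P p i)) ∈ mx O
        rw [e]
        exact (hp.sc_mem (cube_intg hO) i).2
    have hσ : ∀ r ∈ Algebra.adjoin ℂ
        (Set.range (fun i => sc (sh P p i)) ∪ Set.range fun i => tc (sh P p i)), σ r ∈ O.1 := by
      intro r hr
      induction hr using Algebra.adjoin_induction with
      | mem x hx => exact mx_sub (hgen x hx)
      | algebraMap c => rw [AlgEquiv.commutes]; exact O.1.algebraMap_mem c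
      | add x y _ _ hx hy => rw [map_add]; exact add_mem hx hy
      | mul x y _ _ hx hy => rw [map_mul]; exact mul_mem hx hy
    have key := Cube_aux_const (fun x => x ∈ mx O ∧ σ x ∈ mx O)
      ⟨zero_mem_mx O, by rw [map_zero]; exact zero_mem_mx O⟩
      (fun _ _ hx hy => ⟨mx_add hx.1 hy.1, by rw [map_add]; exact mx_add hx.2 hy.2⟩)
      (fun r hr _ hx => ⟨mx_mul_left (hs.1 hr) hx.1, by
        rw [map_mul]; exact mx_mul_left (hσ r hr) hx.2⟩)
      (fun s hs => ⟨Cube_aux_gen hO hp s hs, hgen s hs⟩)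
    have key' : ∀ a ∈ Algebra.adjoin ℂ
        (Set.range (fun i => sc (sh P p i)) ∪ Set.range fun i => tc (sh P p i)),
        σ a - a ∈ mx O := fun a ha => by
      obtain ⟨c, hc, hc'⟩ := key a ha
      rw [map_sub, AlgEquiv.commutes] at hc'
      simpa using mx_sub' hc' hc
    obtain ⟨a, ha, b, hb, hb', rfl⟩ := hs.2 f hf
    by_cases hb0 : b = 0
    · simpa [hb0] using zero_mem_mx O
    have hu : IsU O b := ⟨hb0, hs.1 hb, hb'⟩
    have hu' : IsU O (σ b) := by simpa using hu.add_mx (key' b hb)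
    have e : σ (a / b) - a / b = (σ b * b)⁻¹ * (b * (σ a - a) - a * (σ b - b)) := by
      have := hu'.1
      rw [map_div₀]
      field_simp
      ring
    rw [e]
    exact mx_mul_left (hu'.mul hu).2.2
      (mx_sub' (mx_mul_left hu.2.1 (key' a ha)) (mx_mul_left (hs.1 ha) (key' b hb)))

end Pool.Agent.MP_95da86_ag
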