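import Pool.Agent.MP_95da86_ag.Gen3

/-! The model `E ^ 3`. -/

namespace Pool.Agent.MP_95da86_ag

variable {L : Type} [Field L] [Algebra ℂ L] {P Q : Fin 3 → EP L} {O O' W : Pt L}

/-- The charts of the model. -/
private noncomputable def CubeA_aux_chart (c : Fin 3 → Bool) (P : Fin 3 → EP L) : Subalgebra ℂ L :=
  Algebra.adjoin ℂ (⋃ i, if c i then {xc (P i), yc (P i)} else {xc (P i) / yc (P i), (yc (P i))⁻¹})

private lemma CubeA_aux_mem : O ∈ cubeP P ↔ ∃ c, O ∈ spec (CubeA_aux_chart c P) := by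
  simp only [cubeP, cube, Set.mem_iUnion, CubeA_aux_chart]

private lemma CubeA_aux_le_iff {c : Fin 3 → Bool} {A : Subalgebra ℂ L} :
    CubeA_aux_chart c P ≤ A ↔ ∀ i, (c i = true → xc (P i) ∈ A ∧ yc (P i) ∈ A) ∧
      (c i = false → sc (P i) ∈ A ∧ tc (P i) ∈ A) := by
  rw [CubeA_aux_chart, Algebra.adjoin_le_iff, Set.iUnion_subset_iff]
  refine forall_congr' fun i => ?_
  cases c i <;> simp [Set.insert_subset_iff, sc, tc]

private lemma CubeA_aux_true (P : Fin 3 → EP L) :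
    CubeA_aux_chart (fun _ => true) P = chartA P := by
  rw [CubeA_aux_chart, chartA]
  congr 1
  ext f
  simp only [if_true, Set.mem_iUnion, Set.mem_insert_iff, Set.mem_singleton_iff, Set.mem_union,
    Set.mem_range, exists_or, eq_comm]

private lemma CubeA_aux_false (P : Fin 3 → EP L) :
    CubeA_aux_chart (fun _ => false) P =
      Algebra.adjoin ℂ (Set.range (fun i => sc (P i)) ∪ Set.range fun i => tc (P i)) := by
  rw [CubeA_aux_chart]
  congr 1
  ext f
  simp only [Bool.false_eq_true, if_false, Set.mem_iUnion, Set.mem_insert_iff,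
    Set.mem_singleton_iff, Set.mem_union, Set.mem_range, exists_or, eq_comm, sc, tc]

theorem cube_intg (hO : O ∈ cubeP P) (i : Fin 3) : Intg O (P i) := by
  obtain ⟨c, hc⟩ := CubeA_aux_mem.1 hO
  have h := CubeA_aux_le_iff.1 hc.1 i
  cases hi : c i
  · exact Or.inr (h.2 hi)
  · exact Or.inl (h.1 hi)

theorem cube_centre (h : ∀ i, Intg W (P i)) : ∃ O ∈ cubeP P, Dom O W := by
  classical
  have hle : CubeA_aux_chart (fun i => decide (yc (P i) ∈ W.1)) P ≤ W.1 := by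
    refine CubeA_aux_le_iff.2 fun i => ⟨fun hi => ?_, fun hi => ?_⟩
    · have hy : yc (P i) ∈ W.1 := by simpa using hi
      exact ⟨(h i).xc_mem hy, hy⟩
    · have hy : yc (P i) ∉ W.1 := by simpa using hi
      exact ⟨mx_sub ((h i).sc_mem hy), mx_sub ((h i).tc_mem hy)⟩
  obtain ⟨O, hO, hd⟩ := exists_centre _ W hle
  exact ⟨O, CubeA_aux_mem.2 ⟨_, hO⟩, hd⟩

private lemma CubeA_aux_le_dom {c : Fin 3 → Bool} (h : ∀ i, Intg O (P i)) (hd : Dom O W)
    (hW : CubeA_aux_chart c P ≤ W.1) : CubeA_aux_chart c P ≤ O.1 := by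
  refine CubeA_aux_le_iff.2 fun i => ⟨fun hi => ?_, fun hi => ?_⟩
  · have hy : yc (P i) ∈ O.1 := ((h i).yc_mem_dom hd).2 ((CubeA_aux_le_iff.1 hW i).1 hi).2
    exact ⟨(h i).xc_mem hy, hy⟩
  · by_cases hy : yc (P i) ∈ O.1
    · have ht : (yc (P i))⁻¹ ∈ O.1 := hd.inv_mem hy ((CubeA_aux_le_iff.1 hW i).2 hi).2
      refine ⟨?_, ht⟩
      rw [sc, div_eq_mul_inv]
      exact mul_mem ((h i).xc_mem hy) ht
    · exact ⟨mx_sub ((h i).sc_mem hy), mx_sub ((h i).tc_mem hy)⟩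

/-- If the charts differ in the factor `i`, then `y i` is a unit of `W`, hence of both rings. -/
theorem cube_sep (P : Fin 3 → EP L) : Sep (cubeP P) := by
  have key : ∀ O ∈ cubeP P, ∀ O' ∈ cubeP P, ∀ W, Dom O W → Dom O' W → O.1 ≤ O'.1 := by
    intro O hO O' hO' W hd hd'
    obtain ⟨c, hc⟩ := CubeA_aux_mem.1 hO
    exact spec_le hc (CubeA_aux_le_dom (cube_intg hO') hd' (hc.1.trans hd.1)) hd.1 hd'
  intro O hO O' hO' W hd hd'
  exact Subtype.ext (le_antisymm (key O hO O' hO' W hd hd') (key O' hO' O hO W hd' hd))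

private lemma CubeA_aux_sub (h : ∀ W : Pt L, (∀ i, Intg W (P i)) ↔ ∀ i, Intg W (Q i)) :
    cubeP Q ⊆ cubeP P := by
  intro O hO
  obtain ⟨O₁, hO₁, hd₁⟩ := cube_centre ((h O).2 (cube_intg hO))
  obtain ⟨O₂, hO₂, hd₂⟩ := cube_centre ((h O₁).1 (cube_intg hO₁))
  have e : O₂ = O := cube_sep Q O₂ hO₂ O hO O (hd₂.trans hd₁) (Dom.refl O)
  have e' : O = O₁ := Subtype.ext (le_antisymm (e ▸ hd₂.1) hd₁.1)
  rw [e']; exact hO₁

/-- `O ∈ cube Q` dominates `O₁ ∈ cube P`, which dominates `O₂ ∈ cube Q`, and `O₂ = O`. -/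
theorem cube_eq (h : ∀ W : Pt L, (∀ i, Intg W (P i)) ↔ ∀ i, Intg W (Q i)) : cubeP P = cubeP Q :=
  Set.Subset.antisymm (CubeA_aux_sub fun W => (h W).symm) (CubeA_aux_sub h)

private lemma CubeA_aux_lin_inv (P : Fin 3 → EP L) (g : GLw) (i : Fin 3) :
    lin ((g⁻¹).val i) (fun j => lin (g.val j) P) = P i := by
  have h1 : (g⁻¹).val * g.val = 1 := by rw [← Units.val_mul, inv_mul_cancel, Units.val_one]
  simp only [lin, Finset.smul_sum, smul_smul]
  rw [Finset.sum_comm]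
  have h2 : ∀ k, ∑ j, ((g⁻¹).val i j * g.val j k) • P k = (1 : Matrix (Fin 3) (Fin 3) Zw) i k • P k :=
    fun k => by rw [← Finset.sum_smul, ← h1, Matrix.mul_apply]
  simp only [h2, Matrix.one_apply, ite_smul, one_smul, zero_smul, Finset.sum_ite_eq,
    Finset.mem_univ, if_true]

theorem cube_aff (P : Fin 3 → EP L) (g : GLw) (c : Fin 3 → EP ℂ) :
    (cubeP fun i => lin (g.val i) P + cst L (c i)) = cubeP P := by
  refine cube_eq fun W => ⟨fun h i => ?_, fun h i => (intg_lin h _).add (intg_cst _)⟩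
  have h' : ∀ j, Intg W (lin (g.val j) P) := fun j => by
    simpa using (h j).sub (intg_cst (c j))
  rw [← CubeA_aux_lin_inv P g i]
  exact intg_lin h' _

theorem cube_add_tors (P : Fin 3 → EP L) (a : F3) :
    (cubeP fun i => P i + tors L (a i)) = cubeP P := by
  refine cube_eq fun W => ⟨fun h i => ?_, fun h i => (h i).add (intg_tors _)⟩
  simpa using (h i).sub (intg_tors (a i))

theorem cube_sh (P : Fin 3 → EP L) (p : F3) : cubeP (sh P p) = cubeP P := by
  refine cube_eq fun W => ⟨fun h i => ?_, fun h i => (h i).sub (intg_tors _)⟩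
  simpa [sh] using (h i).add (intg_tors (p i))

theorem spec_chartA_sub (P : Fin 3 → EP L) : spec (chartA P) ⊆ cubeP P := fun _ hO =>
  CubeA_aux_mem.2 ⟨fun _ => true, by rw [CubeA_aux_true]; exact hO⟩

private lemma CubeA_aux_mem_spec {c : Fin 3 → Bool} (hO : O ∈ cubeP P)
    (h : CubeA_aux_chart c P ≤ O.1) : O ∈ spec (CubeA_aux_chart c P) := by
  obtain ⟨O₁, hO₁, hd⟩ := exists_centre _ O h
  have e : O₁ = O := cube_sep P O₁ (CubeA_aux_mem.2 ⟨c, hO₁⟩) O hO O hd (Dom.refl O)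
  rw [← e]; exact hO₁

theorem mem_spec_chartA (hO : O ∈ cubeP P) (h : ∀ i, yc (P i) ∈ O.1) : O ∈ spec (chartA P) := by
  rw [← CubeA_aux_true]
  refine CubeA_aux_mem_spec hO (CubeA_aux_le_iff.2 fun i => ⟨fun _ => ?_, fun hi => ?_⟩)
  · exact ⟨(cube_intg hO i).xc_mem (h i), h i⟩
  · simp at hi

theorem mem_spec_inf (hO : O ∈ cubeP P) (h : ∀ i, yc (P i) ∉ O.1) :
    O ∈ spec (Algebra.adjoin ℂ (Set.range (fun i => sc (P i)) ∪ Set.range fun i => tc (P i))) := by
  rw [← CubeA_aux_false]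
  refine CubeA_aux_mem_spec hO (CubeA_aux_le_iff.2 fun i => ⟨fun hi => ?_, fun _ => ?_⟩)
  · simp at hi
  · exact ⟨mx_sub ((cube_intg hO i).sc_mem (h i)), mx_sub ((cube_intg hO i).tc_mem (h i))⟩

theorem exists_chart (h : ∀ i, Intg W (P i)) :
    ∃ a : F3, chartA (fun i => P i + tors L (a i)) ≤ W.1 := by
  choose a ha using fun i => exists_shift (h i)
  refine ⟨a, Algebra.adjoin_le ?_⟩
  rintro _ (⟨i, rfl⟩ | ⟨i, rfl⟩)
  · exact (ha i).2.1
  · exact (ha i).2.2

private lemma CubeA_aux_map (g : L ≃ₐ[ℂ] L) (hO : O ∈ cubeP P) :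
    mapPt g O ∈ (cubeP fun i => emap (g : L →ₐ[ℂ] L) (P i)) := by
  obtain ⟨c, hc⟩ := CubeA_aux_mem.1 hO
  refine CubeA_aux_mem.2 ⟨c, ?_⟩
  have h := spec_mapPt g hc
  have e : (CubeA_aux_chart c P).map (g : L →ₐ[ℂ] L) =
      CubeA_aux_chart c fun i => emap (g : L →ₐ[ℂ] L) (P i) := by
    rw [CubeA_aux_chart, CubeA_aux_chart, AlgHom.map_adjoin, Set.image_iUnion]
    congr 2
    ext1 i
    cases c i <;> simp [Set.image_insert_eq]
  rwa [e] at h

theorem cube_mapPt (g : L ≃ₐ[ℂ] L) :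
    mapPt g O ∈ (cubeP fun i => emap (g : L →ₐ[ℂ] L) (P i)) ↔ O ∈ cubeP P := by
  refine ⟨fun h => ?_, CubeA_aux_map g⟩
  have h' := CubeA_aux_map g.symm h
  have e : (g.symm : L →ₐ[ℂ] L).comp (g : L →ₐ[ℂ] L) = AlgHom.id ℂ L := by
    ext f; simp
  simpa only [mapPt_symm_mapPt, emap_emap, e, emap_id] using h'

theorem Gen3.top_mem (hP : Gen3 P) : topPt L ∈ cubeP P := by
  refine spec_chartA_sub P ⟨fun f _ => ValuationSubring.mem_top f, fun f _ => ?_⟩
  obtain ⟨a, ha, b, hb, -, e⟩ := hP.frac f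
  exact ⟨a, ha, b, hb, ValuationSubring.mem_top _, e⟩

/-- Localisation at the kernel of a homomorphism to a field. -/
private lemma CubeA_aux_loc (R : Subalgebra ℂ L) {N : Type} [Field N] [Algebra ℂ N]
    (ψ : R →ₐ[ℂ] N) : ∃ O ∈ spec R, ∃ φ : RF O →ₐ[ℂ] N, ∀ b : R, φ (res O b) = ψ b := by
  classical
  have hne : ∀ b : R, ψ b ≠ 0 → (b : L) ≠ 0 := fun b hb h0 =>
    hb (by rw [show b = 0 from Subtype.ext h0, map_zero])
  let A : Subalgebra ℂ L :=
    { carrier := {f | ∃ a b : R, ψ b ≠ 0 ∧ f = a / b}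
      mul_mem' := by
        rintro _ _ ⟨a, b, hb, rfl⟩ ⟨a', b', hb', rfl⟩
        exact ⟨a * a', b * b', by rw [map_mul]; exact mul_ne_zero hb hb',
          by push_cast; exact div_mul_div_comm ..⟩
      add_mem' := by
        rintro _ _ ⟨a, b, hb, rfl⟩ ⟨a', b', hb', rfl⟩
        exact ⟨a * b' + b * a', b * b', by rw [map_mul]; exact mul_ne_zero hb hb',
          by push_cast; exact div_add_div _ _ (hne b hb) (hne b' hb')⟩
      algebraMap_mem' c := ⟨algebraMap ℂ R c, 1, by simp, by simp⟩ }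
  have hA : ∀ f : A, ∃ a b : R, ψ b ≠ 0 ∧ (f : L) = a / b := fun f => f.2
  choose nu de hde hf using hA
  have key : ∀ (f : A) (a b : R), ψ b ≠ 0 → (f : L) = a / b →
      ψ (nu f) / ψ (de f) = ψ a / ψ b := by
    intro f a b hb e
    rw [div_eq_div_iff (hde f) hb, ← map_mul, ← map_mul]
    congr 1
    apply Subtype.ext
    push_cast
    rw [← div_eq_div_iff (hne _ (hde f)) (hne b hb), ← hf f, e]
  let Ψ : A →ₐ[ℂ] N :=
    { toFun := fun f => ψ (nu f) / ψ (de f)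
      map_one' := by rw [key 1 1 1 (by simp) (by simp)]; simp
      map_mul' := fun f g => by
        rw [key (f * g) (nu f * nu g) (de f * de g)
          (by rw [map_mul]; exact mul_ne_zero (hde f) (hde g))
          (by push_cast; rw [hf f, hf g, div_mul_div_comm]), map_mul, map_mul, div_mul_div_comm]
      map_zero' := by rw [key 0 0 1 (by simp) (by simp)]; simp
      map_add' := fun f g => by
        rw [key (f + g) (nu f * de g + de f * nu g) (de f * de g)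
          (by rw [map_mul]; exact mul_ne_zero (hde f) (hde g))
          (by push_cast; rw [hf f, hf g, div_add_div _ _ (hne _ (hde f)) (hne _ (hde g))]),
          map_add, map_mul, map_mul, map_mul, div_add_div _ _ (hde f) (hde g)]
      commutes' := fun c => by
        rw [key (algebraMap ℂ A c) (algebraMap ℂ R c) 1 (by simp) (by simp)]; simp }
  have hunit : ∀ f : A, Ψ f ≠ 0 → (f : L) ≠ 0 ∧ (f : L)⁻¹ ∈ A := by
    intro f h0
    have hn : ψ (nu f) ≠ 0 := fun h => h0 (by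
      show ψ (nu f) / ψ (de f) = 0
      rw [h, zero_div])
    refine ⟨?_, de f, nu f, hn, by rw [hf f, inv_div]⟩
    rw [hf f]
    exact div_ne_zero (hne _ hn) (hne _ (hde f))
  have hloc : IsLocalRing A := isLocal_of _ fun f hfA => by
    by_cases h0 : Ψ ⟨f, hfA⟩ = 0
    · right
      exact hunit (1 - ⟨f, hfA⟩) (by rw [map_sub, map_one, h0, sub_zero]; exact one_ne_zero)
    · exact Or.inl (hunit ⟨f, hfA⟩ h0)
  have hRA : ∀ b : R, (b : L) ∈ A := fun b => ⟨b, 1, by simp, by simp⟩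
  have hker : ∀ f : A, f ∈ IsLocalRing.maximalIdeal A → Ψ f = 0 := fun f hm => by
    by_contra h0
    exact (IsLocalRing.mem_maximalIdeal _).1 hm ((isUnit_iff_sub A f).2 (hunit f h0))
  refine ⟨⟨A, hloc⟩, ⟨fun b hb => hRA ⟨b, hb⟩, ?_⟩,
    Ideal.Quotient.liftₐ (IsLocalRing.maximalIdeal A) Ψ hker, fun b => ?_⟩
  · rintro _ ⟨a, b, hb, rfl⟩
    exact ⟨a, a.2, b, b.2, ⟨1, b, hb, by simp⟩, rfl⟩
  · rw [res_of_mem (O := ⟨A, hloc⟩) (hRA b)]
    show ψ (nu ⟨b, hRA b⟩) / ψ (de ⟨b, hRA b⟩) = ψ b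
    rw [key ⟨b, hRA b⟩ b 1 (by simp) (by simp)]; simp

/-- Points with prescribed values: translate so that all `c i + a i T` are affine, and localise the
chart at the kernel of `exists_ev`. -/
theorem Gen3.exists_pt (hP : Gen3 P) {N : Type} [Field N] [Algebra ℂ N] (c : Fin 3 → EP N) :
    ∃ O ∈ cubeP P, ∃ φ : RF O →ₐ[ℂ] N, ∀ i, emap φ (red O (P i)) = c i := by
  have hex : ∀ i, ∃ τ, c i + tors N τ ≠ 0 := fun i => by
    by_cases h : c i = 0
    · exact ⟨1, by rw [h, zero_add]; exact fun h1 => absurd (tors_eq_zero.1 h1) (by decide)⟩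
    · exact ⟨0, by rwa [tors_zero, add_zero]⟩
  choose a ha using hex
  have hQ := hP.add_tors a
  obtain ⟨ψ, hψ⟩ := hQ.exists_ev (fun i => c i + tors N (a i)) ha
  obtain ⟨O, hO, φ, hφ⟩ := CubeA_aux_loc _ ψ
  have hOP : O ∈ cubeP P := by rw [← cube_add_tors P a]; exact spec_chartA_sub _ hO
  refine ⟨O, hOP, φ, fun i => ?_⟩
  have hx : xc (P i + tors L (a i)) ∈ O.1 := hO.1 (Algebra.subset_adjoin (Or.inl ⟨i, rfl⟩))
  have hy : yc (P i + tors L (a i)) ∈ O.1 := hO.1 (Algebra.subset_adjoin (Or.inr ⟨i, rfl⟩))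
  have hI : Intg O (P i + tors L (a i)) := Or.inl ⟨hx, hy⟩
  have hne : red O (P i + tors L (a i)) ≠ 0 := fun h0 => by
    rcases (red_eq_zero hI).1 h0 with h | h
    · exact hQ.ne i h
    · exact h hy
  have e : emap φ (red O (P i + tors L (a i))) = c i + tors N (a i) := by
    refine EP.ext' (fun h0 => hne ((emap_eq_zero φ).1 h0)) (ha i) ?_ ?_
    · rw [xc_emap, xc_red hI hy]
      exact (hφ ⟨_, Algebra.subset_adjoin (Or.inl ⟨i, rfl⟩)⟩).trans (hψ i).1
    · rw [yc_emap, yc_red hI hy]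
      exact (hφ ⟨_, Algebra.subset_adjoin (Or.inr ⟨i, rfl⟩)⟩).trans (hψ i).2
  rw [red_add (cube_intg hOP i) (intg_tors _), red_tors, map_add, emap_tors] at e
  exact add_right_cancel e

/-- The same inside the affine chart, with control of the units. -/
theorem Gen3.exists_pt_ev (hP : Gen3 P) {N : Type} [Field N] [Algebra ℂ N]
    (ψ : chartA P →ₐ[ℂ] N) : ∃ O ∈ spec (chartA P), ∃ φ : RF O →ₐ[ℂ] N,
      ∀ b : chartA P, φ (res O b) = ψ b :=
  (fun _ => CubeA_aux_loc _ ψ) hP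

end Pool.Agent.MP_95da86_ag
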