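import Mathlib

namespace Pool.Agent.MP_95da86_ag

/-- Points of models of the function field `K`: local `ℂ`-subalgebras of `K`. -/
abbrev Pt (K : Type) [Field K] [Algebra ℂ K] := {O : Subalgebra ℂ K // IsLocalRing O}

variable {K : Type} [Field K] [Algebra ℂ K]

instance ptLocal (O : Pt K) : IsLocalRing O.1 := O.2

/-- The maximal ideal, as a subset of `K`. -/
def mx (O : Pt K) : Set K := Subtype.val '' (IsLocalRing.maximalIdeal O.1 : Set O.1)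

/-- The localisations of `R` at its primes. -/
def spec (R : Subalgebra ℂ K) : Set (Pt K) :=
  {O | R ≤ O.1 ∧ ∀ f ∈ O.1, ∃ a ∈ R, ∃ b ∈ R, b⁻¹ ∈ O.1 ∧ f = a / b}

/-- The local rings of `E × E × E`, glued from the charts `Z ≠ 0` and `Y ≠ 0` of each factor. -/
def cube (x y : Fin 3 → K) : Set (Pt K) :=
  ⋃ c : Fin 3 → Bool,
    spec (Algebra.adjoin ℂ (⋃ i, if c i then {x i, y i} else {x i / y i, (y i)⁻¹}))

/-- The points fixed by `σ`. -/
def fixedPts (x y : Fin 3 → K) (σ : K ≃ₐ[ℂ] K) : Set (Pt K) :=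
  {O | O ∈ cube x y ∧ ∀ f ∈ O.1, σ f - f ∈ mx O}

/-- The blow-up of the fixed points. -/
def blowup (x y : Fin 3 → K) (σ : K ≃ₐ[ℂ] K) : Set (Pt K) :=
  (cube x y \ fixedPts x y σ) ∪
    {O | ∃ p ∈ fixedPts x y σ, ∃ t ∈ mx p, t ≠ 0 ∧ mx p ⊆ mx O ∧
      O ∈ spec (Algebra.adjoin ℂ ((p.1 : Set K) ∪ (fun a => a / t) '' mx p))}

/-- The quotient of the blow-up by `σ`. -/
def quot (x y : Fin 3 → K) (σ : K ≃ₐ[ℂ] K) :
    Set (Pt (IntermediateField.fixedField (Subgroup.zpowers σ))) :=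
  {O' | ∃ O ∈ blowup x y σ, ∀ f, f ∈ O'.1 ↔ (f : K) ∈ O.1}

/-- Cartier divisors: local equations, Zariski-locally given by one function up to units. -/
def IsCartier (X : Set (Pt K)) (f : Pt K → Kˣ) : Prop :=
  ∀ O ∈ X, ∃ S : Finset K, (S : Set K) ⊆ O.1 ∧ ∀ O' ∈ X, (S : Set K) ⊆ O'.1 →
    ((f O' / f O : Kˣ) : K) ∈ O'.1 ∧ ((f O / f O' : Kˣ) : K) ∈ O'.1

open Classical in
/-- The value at a point. -/
noncomputable def res (O : Pt K) (g : K) : IsLocalRing.ResidueField O.1 :=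
  if h : g ∈ O.1 then IsLocalRing.residue O.1 ⟨g, h⟩ else 0

open Classical in
/-- The order of vanishing at a discrete valuation ring. -/
noncomputable def ord {k : Type} [Field k] (V : ValuationSubring k) (f : k) : ℤ :=
  if h : f ∈ V then (Ring.ord V ⟨f, h⟩).toNat
  else -(Ring.ord V ⟨f⁻¹, (V.mem_or_inv_mem f).resolve_left h⟩).toNat

/-- The points of the normalisation of the curve with generic point `ξ`, with their images. -/
def branch (X : Set (Pt K)) (ξ : Pt K) :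
    Set (Pt K × ValuationSubring (IsLocalRing.ResidueField ξ.1)) :=
  {p | p.1 ∈ X ∧ p.1.1 ≤ ξ.1 ∧ p.2 ≠ ⊤ ∧ (∀ g ∈ p.1.1, res ξ g ∈ p.2) ∧
    ∀ g ∈ mx p.1, res ξ g ∈ p.2.nonunits}

/-- The intersection number. -/
noncomputable def deg (X : Set (Pt K)) (f : Pt K → Kˣ) (ξ : Pt K) : ℤ :=
  ∑ᶠ p ∈ branch X ξ, ord p.2 (res ξ ((f p.1 / f ξ : Kˣ) : K))

/-- Integral curves. -/
abbrev Curve (X : Set (Pt K)) :=
  {ξ : Pt K // ξ ∈ X ∧ Algebra.trdeg ℂ (IsLocalRing.ResidueField ξ.1) = 1}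

/-- Numerical classes of Cartier divisors. -/
def classes (X : Set (Pt K)) : Set (Curve X → ℝ) :=
  {d | ∃ f, IsCartier X f ∧ ∀ ξ, d ξ = deg X f ξ.1}

/-- Numerical classes of effective Cartier divisors. -/
def effClasses (X : Set (Pt K)) : Set (Curve X → ℝ) :=
  {d | ∃ f, IsCartier X f ∧ (∀ O ∈ X, (f O : K) ∈ O.1) ∧ ∀ ξ, d ξ = deg X f ξ.1}

/-- The space `N¹`. -/
abbrev N1 (X : Set (Pt K)) := Submodule.span ℝ (classes X)

/-- The effective nef cone. -/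
def nefEff (X : Set (Pt K)) : Set (N1 X) :=
  {d | (∀ ξ, 0 ≤ d.1 ξ) ∧ d.1 ∈ Submodule.span NNReal (effClasses X)}

/-- Automorphisms. -/
def IsAut (X : Set (Pt K)) (g : K ≃ₐ[ℂ] K) : Prop :=
  ∀ O O' : Pt K, O.1 = O'.1.map (g : K →ₐ[ℂ] K) → (O ∈ X ↔ O' ∈ X)

/-- `e` is the pull-back of `d`. -/
def Pull {X : Set (Pt K)} (g : K ≃ₐ[ℂ] K) (d e : N1 X) : Prop :=
  ∀ ξ ξ' : Curve X, ξ.1.1 = ξ'.1.1.map (g : K →ₐ[ℂ] K) → e.1 ξ = d.1 ξ'

end Pool.Agent.MP_95da86_ag
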