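import Pool.Agent.MP_95da86_ag.Height
import Pool.Agent.MP_95da86_ag.Cart

/-! Intersection numbers on a separated and proper model. -/

namespace Pool.Agent.MP_95da86_ag

variable {M : Type} [Field M] [Algebra ℂ M] {Y : Set (Pt M)} {f g : Pt M → Mˣ} {ξ : Pt M}

theorem branch_const {O : Pt M} {V : ValuationSubring (RF ξ)} (h : (O, V) ∈ branch Y ξ) (c : ℂ) :
    algebraMap ℂ (RF ξ) c ∈ V := by
  rw [← res_const ξ c]
  exact h.2.2.2.1 _ (O.1.algebraMap_mem c)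
/-- Both centres are dominated by the preimage of `V` (`exists_pre`). -/
theorem branch_unique (hS : Sep Y) {O O' : Pt M} {V : ValuationSubring (RF ξ)}
    (h : (O, V) ∈ branch Y ξ) (h' : (O', V) ∈ branch Y ξ) : O = O' := by
  obtain ⟨W, h1, h2⟩ := exists_pre ξ (vpt V (branch_const h))
  have key : ∀ A : Pt M, (A, V) ∈ branch Y ξ → Dom A W := fun A hA =>
    ⟨fun g hg => (h1 g).2 ⟨hA.2.1 hg, hA.2.2.2.1 g hg⟩,
      fun g hg => (h2 g).2 ⟨hA.2.1 (mx_sub hg), mem_mx_vpt.2 (hA.2.2.2.2 g hg)⟩⟩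
  exact hS O h.1 O' h'.1 W (key O h) (key O' h')
theorem cen_spec (hP : Proper Y) (hξ : ξ ∈ Y) (V : Pl ℂ (RF ξ)) :
    (cen Y ξ V, V.1) ∈ branch Y ξ := by
  have h := hP ξ hξ V
  rw [cen, dif_pos h]
  exact h.choose_spec
theorem cen_eq (hS : Sep Y) {O : Pt M} {V : Pl ℂ (RF ξ)} (h : (O, V.1) ∈ branch Y ξ) :
    cen Y ξ V = O := by
  have h' : ∃ O, (O, V.1) ∈ branch Y ξ := ⟨O, h⟩
  rw [cen, dif_pos h']
  exact branch_unique hS h'.choose_spec h
theorem deg_eq_finsum (hS : Sep Y) (hP : Proper Y) (hξ : ξ ∈ Y) (f : Pt M → Mˣ) :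
    deg Y f ξ = ∑ᶠ V, term Y f ξ V := by
  have hr : branch Y ξ = Set.range fun V : Pl ℂ (RF ξ) => (cen Y ξ V, V.1) := by
    ext ⟨O, V⟩
    constructor
    · intro h
      exact ⟨⟨V, h.2.2.1, branch_const h⟩, Prod.ext (cen_eq hS h) rfl⟩
    · rintro ⟨W, hW⟩
      rw [← hW]
      exact cen_spec hP hξ W
  have hi : Function.Injective fun V : Pl ℂ (RF ξ) => (cen Y ξ V, V.1) :=
    fun V W h => Subtype.ext (congrArg Prod.snd h)
  rw [deg, hr, finsum_mem_range hi]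
  rfl

theorem Deg_aux_zpow {u : M} (hu : IsU ξ u) (n : ℤ) : res ξ (u ^ n) = res ξ u ^ n := by
  rcases n with n | n
  · simpa using res_pow hu.2.1 n
  · rw [zpow_negSucc, zpow_negSucc, res_inv (hu.pow _), res_pow hu.2.1]

theorem Deg_aux_unit {O : Pt M} {V : ValuationSubring (RF ξ)} [IsDiscreteValuationRing V]
    (h : (O, V) ∈ branch Y ξ) {u : M} (hu : IsU O u) : ord V (res ξ u) = 0 := by
  rw [ord_eq_zero_iff, ← res_inv (hu.mono h.2.1)]
  exact ⟨h.2.2.2.1 _ hu.2.1, h.2.2.2.1 _ hu.2.2⟩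

theorem Deg_aux_compat (hP : Proper Y) (hξ : ξ ∈ Y) (hf : IsCartier Y f) (V : Pl ℂ (RF ξ)) :
    IsU ξ ((f (cen Y ξ V) / f ξ : Mˣ) : M) :=
  hf.compat (cen_spec hP hξ V).1 hξ (cen_spec hP hξ V).2.1

theorem Deg_aux_sub (hP : Proper Y) (hξ : ξ ∈ Y) (hF : IsFF ℂ (RF ξ)) (hf : IsCartier Y f)
    (hu : IsU ξ (f ξ)) (V : Pl ℂ (RF ξ)) :
    term Y f ξ V = ord V.1 (res ξ (f (cen Y ξ V) : M)) - ord V.1 (res ξ (f ξ : M)) := by
  have := hF.dvr V
  have h1 := (Deg_aux_compat hP hξ hf V).mul hu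
  rw [Units.val_div_eq_div_val, div_mul_cancel₀ _ hu.1] at h1
  rw [term, Units.val_div_eq_div_val, res_div h1.2.1 hu, ord_div _ h1.res_ne hu.res_ne]

section
variable (hS : Sep Y) (hP : Proper Y) (hξ : ξ ∈ Y) (hF : IsFF ℂ (RF ξ))
include hS hP hξ hF

theorem term_mul (hf : IsCartier Y f) (hg : IsCartier Y g) (V) :
    term Y (f * g) ξ V = term Y f ξ V + term Y g ξ V := by
  have := hF.dvr V
  have h1 := Deg_aux_compat hP hξ hf V
  have h2 := Deg_aux_compat hP hξ hg V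
  rw [term, term, term, Pi.mul_apply, Pi.mul_apply, mul_div_mul_comm, Units.val_mul,
    res_mul h1.2.1 h2.2.1, ord_mul _ h1.res_ne h2.res_ne]
theorem term_zpow (hf : IsCartier Y f) (n : ℤ) (V) : term Y (f ^ n) ξ V = n * term Y f ξ V := by
  have := hF.dvr V
  have h1 := Deg_aux_compat hP hξ hf V
  rw [term, term, Pi.pow_apply, Pi.pow_apply, ← div_zpow, Units.val_zpow_eq_zpow_val,
    Deg_aux_zpow h1, ord_zpow]
theorem term_const (u : Mˣ) (V) : term Y (fun _ => u) ξ V = 0 := by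
  have := hF.dvr V
  rw [term, div_self', Units.val_one, res_one, ord_one]
theorem FinT.mul (hf : IsCartier Y f) (hg : IsCartier Y g) (h : FinT Y f ξ) (h' : FinT Y g ξ) :
    FinT Y (f * g) ξ := by
  refine (h.union h').subset fun V hV => ?_
  by_contra hc
  simp only [Set.mem_union, Function.mem_support, not_or, not_not] at hc
  exact hV (by rw [term_mul hS hP hξ hF hf hg, hc.1, hc.2, add_zero])
theorem FinT.zpow (hf : IsCartier Y f) (h : FinT Y f ξ) (n : ℤ) : FinT Y (f ^ n) ξ := by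
  refine Set.Finite.subset h fun V hV h0 => hV ?_
  rw [term_zpow hS hP hξ hF hf, h0, mul_zero]
theorem FinT.of_pow (hf : IsCartier Y f) {n : ℕ} (hn : 0 < n) (h : FinT Y (f ^ n) ξ) :
    FinT Y f ξ := by
  refine Set.Finite.subset h fun V hV h0 => hV ?_
  rw [← zpow_natCast, term_zpow hS hP hξ hF hf] at h0
  exact (mul_eq_zero.1 h0).resolve_left (by exact_mod_cast hn.ne')
theorem finT_const (u : Mˣ) : FinT Y (fun _ => u) ξ :=
  Set.finite_empty.subset fun V hV => hV (term_const hS hP hξ hF u V)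
theorem finT_prod {ι : Type} (s : Finset ι) (F : ι → Pt M → Mˣ) (h : ∀ i ∈ s, IsCartier Y (F i))
    (h' : ∀ i ∈ s, FinT Y (F i) ξ) : FinT Y (∏ i ∈ s, F i) ξ :=
  (Finset.prod_induction F (fun a => IsCartier Y a ∧ FinT Y a ξ)
    (fun _ _ ha hb => ⟨ha.1.mul hb.1, FinT.mul hS hP hξ hF ha.1 hb.1 ha.2 hb.2⟩)
    ⟨isCartier_one, finT_const hS hP hξ hF 1⟩ fun i hi => ⟨h i hi, h' i hi⟩).2
/-- Local equations taking finitely many values. -/
theorem finT_of_finite (hf : IsCartier Y f) (h : (Set.range f).Finite) : FinT Y f ξ := by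
  refine (h.biUnion fun u _ => hF.ord_fin (res ξ ((u / f ξ : Mˣ) : M))).subset fun V hV => ?_
  exact Set.mem_biUnion (Set.mem_range_self (cen Y ξ V)) hV
theorem deg_mul (hf : IsCartier Y f) (hg : IsCartier Y g) (h : FinT Y f ξ) (h' : FinT Y g ξ) :
    deg Y (f * g) ξ = deg Y f ξ + deg Y g ξ := by
  rw [deg_eq_finsum hS hP hξ, deg_eq_finsum hS hP hξ, deg_eq_finsum hS hP hξ,
    ← finsum_add_distrib h h']
  exact finsum_congr (term_mul hS hP hξ hF hf hg)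
theorem deg_zpow (hf : IsCartier Y f) (n : ℤ) : deg Y (f ^ n) ξ = n * deg Y f ξ := by
  rw [deg_eq_finsum hS hP hξ, deg_eq_finsum hS hP hξ, ← smul_eq_mul, smul_finsum]
  exact finsum_congr (term_zpow hS hP hξ hF hf n)
theorem deg_const (u : Mˣ) : deg Y (fun _ => u) ξ = 0 := by
  rw [deg_eq_finsum hS hP hξ]
  exact finsum_eq_zero_of_forall_eq_zero (term_const hS hP hξ hF u)
theorem deg_prod {ι : Type} (s : Finset ι) (F : ι → Pt M → Mˣ) (h : ∀ i ∈ s, IsCartier Y (F i))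
    (h' : ∀ i ∈ s, FinT Y (F i) ξ) : deg Y (∏ i ∈ s, F i) ξ = ∑ i ∈ s, deg Y (F i) ξ := by
  classical
  induction s using Finset.induction_on with
  | empty =>
    rw [Finset.prod_empty, Finset.sum_empty]
    exact deg_const hS hP hξ hF 1
  | insert a s ha ih =>
    have h1 : ∀ i ∈ s, IsCartier Y (F i) := fun i hi => h i (Finset.mem_insert_of_mem hi)
    have h2 : ∀ i ∈ s, FinT Y (F i) ξ := fun i hi => h' i (Finset.mem_insert_of_mem hi)
    rw [Finset.prod_insert ha, Finset.sum_insert ha,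
      deg_mul hS hP hξ hF (h a (Finset.mem_insert_self a s)) (isCartier_prod s F h1)
        (h' a (Finset.mem_insert_self a s)) (finT_prod hS hP hξ hF s F h1 h2), ih h1 h2]
omit hS in
theorem Deg_aux_triv (hf : Triv Y f) (V : Pl ℂ (RF ξ)) :
    term Y f ξ V = -ord V.1 (res ξ (f ξ : M)) := by
  have := hF.dvr V
  rw [Deg_aux_sub hP hξ hF hf.isCartier (hf ξ hξ),
    Deg_aux_unit (cen_spec hP hξ V) (hf _ (cen_spec hP hξ V).1), zero_sub]
theorem Triv.finT (hf : Triv Y f) : FinT Y f ξ := by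
  refine (hF.ord_fin (res ξ (f ξ : M))).subset fun V hV h0 => hV ?_
  rw [Deg_aux_triv hP hξ hF hf, neg_eq_zero]
  exact h0
/-- The product formula. -/
theorem Triv.deg_eq_zero (hf : Triv Y f) : deg Y f ξ = 0 := by
  rw [deg_eq_finsum hS hP hξ, finsum_congr (Deg_aux_triv hP hξ hF hf), finsum_neg_distrib,
    hF.sum_ord, neg_zero]
/-- An effective divisor not containing the curve. -/
theorem deg_eff (hf : IsCartier Y f) (h : FinT Y f ξ) (he : ∀ O ∈ Y, (f O : M) ∈ O.1)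
    (hu : IsU ξ (f ξ)) :
    (∀ V : Pl ℂ (RF ξ), 0 ≤ ord V.1 (res ξ (f (cen Y ξ V) : M))) ∧
    (Function.support fun V : Pl ℂ (RF ξ) => ord V.1 (res ξ (f (cen Y ξ V) : M))).Finite ∧
    deg Y f ξ = ∑ᶠ V : Pl ℂ (RF ξ), ord V.1 (res ξ (f (cen Y ξ V) : M)) := by
  have hb := hF.ord_fin (res ξ (f ξ : M))
  have e : ∀ V : Pl ℂ (RF ξ), ord V.1 (res ξ (f (cen Y ξ V) : M)) =
      term Y f ξ V + ord V.1 (res ξ (f ξ : M)) := fun V => by
    rw [Deg_aux_sub hP hξ hF hf hu, sub_add_cancel]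
  refine ⟨fun V => ?_, ?_, ?_⟩
  · have := hF.dvr V
    rw [ord_nonneg_iff]
    exact (cen_spec hP hξ V).2.2.2.1 _ (he _ (cen_spec hP hξ V).1)
  · refine (h.union hb).subset fun V hV => ?_
    by_contra hc
    simp only [Set.mem_union, Function.mem_support, not_or, not_not] at hc
    exact hV ((e V).trans (by rw [hc.1, hc.2, add_zero]))
  · rw [finsum_congr e, finsum_add_distrib h hb, hF.sum_ord, add_zero, deg_eq_finsum hS hP hξ]
theorem deg_nonneg (hf : IsCartier Y f) (h : FinT Y f ξ) (he : ∀ O ∈ Y, (f O : M) ∈ O.1)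
    (hu : IsU ξ (f ξ)) : 0 ≤ deg Y f ξ := by
  obtain ⟨h1, -, h3⟩ := deg_eff hS hP hξ hF hf h he hu
  rw [h3]
  exact finsum_nonneg h1
theorem term_zq {Q : EP M} (hQ : ∀ O ∈ Y, Intg O Q) (V) :
    term Y (zq (yc Q)) ξ V = lam V.1 (red ξ Q) := by
  have := hF.dvr V
  have hb := cen_spec hP hξ V
  rw [term, lam]
  by_cases hy : yc Q ∈ ξ.1
  · rw [zq_of_mem hy, div_one, yc_red (hQ ξ hξ) hy]
    by_cases hO : yc Q ∈ (cen Y ξ V).1
    · have h1 := (ord_nonneg_iff V.1 _).2 (hb.2.2.2.1 _ hO)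
      rw [zq_of_mem hO, Units.val_one, res_one, ord_one]
      omega
    · have ht : (yc Q)⁻¹ ∈ mx (cen Y ξ V) := (hQ _ hb.1).tc_mem hO
      have hu : IsU ξ (yc Q) := ⟨Red_aux_y0 hO, hy, hb.2.1 (mx_sub ht)⟩
      have h1 := (ord_nonneg_iff V.1 _).2 (hb.2.2.2.1 _ (mx_sub ht))
      rw [zq_of_not_mem hO]
      rw [res_inv hu, ord_inv] at h1 ⊢
      omega
  · have hO : yc Q ∉ (cen Y ξ V).1 := fun h => hy (hb.2.1 h)
    rw [Units.val_div_eq_div_val, zq_of_not_mem hO, zq_of_not_mem hy,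
      div_self (inv_ne_zero (Red_aux_y0 hy)), res_one, ord_one,
      (red_eq_zero (hQ ξ hξ)).2 (Or.inr hy), yc_zero, ord_zero]
    simp
theorem finT_zq (y : M) (hy : IsCartier Y (zq y)) : FinT Y (zq y) ξ := by
  refine finT_of_finite hS hP hξ hF hy ?_
  refine Set.Finite.of_finite_image (f := Units.val) ?_ Units.val_injective.injOn
  refine ((Set.finite_singleton y⁻¹).insert 1).subset ?_
  rintro _ ⟨_, ⟨O, rfl⟩, rfl⟩
  by_cases h : y ∈ O.1
  · rw [zq_of_mem h]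
    exact Or.inl rfl
  · exact Or.inr (zq_of_not_mem h)
theorem deg_zq {Q : EP M} (hQ : ∀ O ∈ Y, Intg O Q) :
    deg Y (zq (yc Q)) ξ = ht ℂ (red ξ Q) := by
  rw [deg_eq_finsum hS hP hξ, ht]
  exact finsum_congr (term_zq hS hP hξ hF hQ)
end

end Pool.Agent.MP_95da86_ag
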