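import Pool.Agent.MP_95da86_ag.Gen

/-! The invariant derivation. -/

namespace Pool.Agent.MP_95da86_ag

variable {k M : Type} [Field k] [Field M] [Algebra ℂ k] [Algebra ℂ M] [Algebra k M]
  [IsScalarTower ℂ k M] {P : EP M}

theorem Der_aux_eq (D : Derivation k M M) (Q : EP M) :
    2 * yc Q * D (yc Q) = 3 * xc Q ^ 2 * D (xc Q) := by
  by_cases hQ : Q = 0
  · simp [hQ]
  · have h1 := congrArg D (eqn_of_ne hQ)
    simp only [map_add, Derivation.leibniz_pow, Derivation.map_one_eq_zero, smul_eq_mul,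
      nsmul_eq_mul] at h1
    push_cast at h1
    linear_combination h1

theorem Der_aux_ne {Q : EP M} (hQ : Q ≠ 0) (hy : yc Q = 0) : xc Q ≠ 0 := fun hx => by
  have h1 := eqn_of_ne hQ
  simp [hx, hy] at h1

theorem Der_aux_zero (D : Derivation k M M) : dl D (0 : EP M) = 0 := by
  unfold dl
  rw [yc_zero, div_zero]

theorem Der_aux_char (D : Derivation k M M) {Q : EP M} (hQ : Q ≠ 0) {d : M}
    (hx : D (xc Q) = d * yc Q) (hy : 2 * D (yc Q) = d * (3 * xc Q ^ 2)) : dl D Q = d := by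
  have := charZero_of M
  unfold dl
  by_cases h : yc Q = 0
  · rw [h, map_zero, mul_zero] at hy
    rw [h, div_zero]
    have h2 : (3 : M) * xc Q ^ 2 ≠ 0 :=
      mul_ne_zero (by norm_num) (pow_ne_zero _ (Der_aux_ne hQ h))
    exact ((mul_eq_zero.1 hy.symm).resolve_right h2).symm
  · rw [hx, mul_div_cancel_right₀ _ h]

theorem Der_aux_zt (D : Derivation k M M) : D (zt M) = 0 := by
  rw [zt, IsScalarTower.algebraMap_apply ℂ k M, Derivation.map_algebraMap]

theorem dl_xc (D : Derivation k M M) (Q : EP M) : D (xc Q) = dl D Q * yc Q := by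
  have := charZero_of M
  unfold dl
  by_cases hy : yc Q = 0
  · rw [hy, mul_zero]
    by_cases hQ : Q = 0
    · rw [hQ, xc_zero, map_zero]
    · have h1 := Der_aux_eq D Q
      rw [hy, mul_zero, zero_mul] at h1
      have h2 : (3 : M) * xc Q ^ 2 ≠ 0 :=
        mul_ne_zero (by norm_num) (pow_ne_zero _ (Der_aux_ne hQ hy))
      exact (mul_eq_zero.1 h1.symm).resolve_left h2
  · rw [div_mul_cancel₀ _ hy]

theorem dl_yc (D : Derivation k M M) (Q : EP M) : 2 * D (yc Q) = dl D Q * (3 * xc Q ^ 2) := by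
  by_cases hy : yc Q = 0
  · unfold dl
    rw [hy, map_zero, div_zero, mul_zero, zero_mul]
  · refine mul_left_cancel₀ hy ?_
    have h1 := Der_aux_eq D Q
    have h2 := dl_xc D Q
    linear_combination h1 + 3 * xc Q ^ 2 * h2

/-- Show `D x₃ = (δ₁ + δ₂) y₃` and `2 D y₃ = 3 (δ₁ + δ₂) x₃ ^ 2` (chord and tangent separately);
`x₃` and `y₃` do not both vanish. -/
theorem dl_add (D : Derivation k M M) (Q Q' : EP M) : dl D (Q + Q') = dl D Q + dl D Q' := by
  have := charZero_of M
  rcases Q.cases with rfl | ⟨a₁, b₁, h₁, rfl⟩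
  · rw [zero_add, Der_aux_zero, zero_add]
  rcases Q'.cases with rfl | ⟨a₂, b₂, h₂, rfl⟩
  · rw [add_zero, Der_aux_zero, add_zero]
  by_cases hne : a₁ = a₂ ∧ b₁ = -b₂
  · rw [pt_add_neg h₁ h₂ hne.1 hne.2, Der_aux_zero]
    unfold dl
    rw [xc_pt, yc_pt, xc_pt, yc_pt, hne.1, hne.2, div_neg, neg_add_cancel]
  · obtain ⟨l, hl₁, hl₂⟩ := exists_slope h₁ h₂ hne
    obtain ⟨h, e⟩ := pt_add h₁ h₂ hne l hl₁ hl₂
    have x1 := dl_xc D (pt a₁ b₁ h₁)
    have y1 := dl_yc D (pt a₁ b₁ h₁)
    have x2 := dl_xc D (pt a₂ b₂ h₂)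
    have y2 := dl_yc D (pt a₂ b₂ h₂)
    simp only [xc_pt, yc_pt] at x1 y1 x2 y2
    generalize dl D (pt a₁ b₁ h₁) = d₁ at x1 y1 ⊢
    generalize dl D (pt a₂ b₂ h₂) = d₂ at x2 y2 ⊢
    have k1 := congrArg D hl₁
    have k2 := congrArg D hl₂
    simp only [pow_two, Derivation.leibniz, map_sub, map_add, smul_eq_mul] at k1 k2
    have i1 : 3 * a₁ ^ 2 - 2 * l * b₁ = (a₁ - a₂) * (2 * a₁ + a₂ - l ^ 2) := by
      linear_combination l * hl₁ - hl₂
    have i2 : 3 * a₂ ^ 2 - 2 * l * b₂ = (a₂ - a₁) * (a₁ + 2 * a₂ - l ^ 2) := by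
      linear_combination -l * hl₁ - hl₂
    have j1 : -3 * l * a₁ ^ 2 + 2 * (2 * a₁ + a₂) * b₁ = (b₁ + b₂) * (2 * a₁ + a₂ - l ^ 2) := by
      linear_combination -(2 * a₁ + a₂) * hl₁ + l * hl₂
    have j2 : -3 * l * a₂ ^ 2 + 2 * (a₁ + 2 * a₂) * b₂ = (b₁ + b₂) * (a₁ + 2 * a₂ - l ^ 2) := by
      linear_combination (a₁ + 2 * a₂) * hl₁ + l * hl₂
    have hE : 2 * D l = d₁ * (2 * a₁ + a₂ - l ^ 2) + d₂ * (a₁ + 2 * a₂ - l ^ 2) := by
      by_cases ha : a₁ - a₂ = 0
      · have hb : b₁ + b₂ ≠ 0 := fun hb =>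
          hne ⟨by linear_combination ha, by linear_combination hb⟩
        refine mul_left_cancel₀ hb ?_
        linear_combination 2 * k2 - l * y1 - l * y2 + 2 * (2 * a₁ + a₂) * x1 +
          2 * (a₁ + 2 * a₂) * x2 + d₁ * j1 + d₂ * j2
      · refine mul_left_cancel₀ ha ?_
        linear_combination 2 * k1 + y1 - y2 - 2 * l * x1 + 2 * l * x2 + d₁ * i1 - d₂ * i2
    have hx : D (l ^ 2 - a₁ - a₂) = (d₁ + d₂) * -(l * (l ^ 2 - a₁ - a₂ - a₁) + b₁) := by
      simp only [pow_two, Derivation.leibniz, map_sub, smul_eq_mul]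
      linear_combination l * hE - x1 - x2 - d₂ * hl₁
    rw [e]
    refine Der_aux_char D (pt_ne_zero _ _ _) hx ?_
    rw [xc_pt, yc_pt, map_neg, map_add, Derivation.leibniz, map_sub D _ a₁, hx, smul_eq_mul,
      smul_eq_mul]
    linear_combination -(l ^ 2 - a₁ - a₂ - a₁) * hE + 2 * l * x1 - y1 - (2 * d₁ + d₂) * i1

theorem dl_neg (D : Derivation k M M) (Q : EP M) : dl D (-Q) = -dl D Q := by
  unfold dl
  rw [xc_neg, yc_neg, div_neg]

theorem dl_om (D : Derivation k M M) (Q : EP M) : dl D (om • Q) = zt M * dl D Q := by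
  unfold dl
  rw [xc_om, yc_om, Derivation.leibniz, Der_aux_zt, smul_zero, add_zero, smul_eq_mul, mul_div_assoc]

theorem dl_up (D : Derivation k M M) (c : EP k) : dl D (up k M c) = 0 := by
  unfold dl up
  rw [xc_emap, IsScalarTower.toAlgHom_apply, Derivation.map_algebraMap, zero_div]

theorem dl_smul (D : Derivation k M M) (a : Zw) (Q : EP M) :
    dl D (a • Q) = (a.re + a.im * zt M) * dl D Q := by
  let H : EP M →+ M := AddMonoidHom.mk' (dl D) (dl_add D)
  have h1 : ∀ (n : ℤ) (R : EP M), dl D (n • R) = n * dl D R := fun n R => by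
    rw [← zsmul_eq_mul]
    exact map_zsmul H n R
  rw [zw_smul_def, dl_add, h1, h1, ← om_smul, dl_om]
  ring


theorem Der_aux_y (hP : Gen k P) : yc P ≠ 0 := fun h => hP.yc_tr (h ▸ isAlgebraic_zero)

theorem Der_aux_tors (D : Derivation k M M) (τ : ZMod 3) : dl D (tors M τ) = 0 := by
  have h : up k M (tors k τ) = tors M τ := emap_tors _ τ
  rw [← h, dl_up]

theorem Der_aux_c (V : Pl k M) (c : ℂ) : algebraMap ℂ M c ∈ V.1 := by
  rw [IsScalarTower.algebraMap_apply ℂ k M]
  exact V.2.2 _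

theorem Der_aux_crd {D : Derivation k M M} (hD : dl D P = 1) {f : M} (hf : f ∈ crd k P) :
    D f ∈ crd k P := by
  have := charZero_of M
  have hx : xc P ∈ crd k P := Algebra.subset_adjoin (by simp)
  have hy : yc P ∈ crd k P := Algebra.subset_adjoin (by simp)
  refine Algebra.adjoin_induction (p := fun g _ => D g ∈ crd k P) ?_ ?_ ?_ ?_ hf
  · rintro _ (rfl | rfl)
    · rw [dl_xc, hD, one_mul]
      exact hy
    · have h3 : algebraMap k M (algebraMap ℂ k (3 / 2)) = 3 / 2 := by
        rw [map_div₀, map_div₀, map_ofNat, map_ofNat, map_ofNat, map_ofNat]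
      have e : D (yc P) = algebraMap k M (algebraMap ℂ k (3 / 2)) * xc P ^ 2 := by
        have h1 := dl_yc D P
        rw [hD] at h1
        rw [h3]
        linear_combination h1 / 2
      rw [e]
      exact mul_mem (Subalgebra.algebraMap_mem _ _) (pow_mem hx 2)
  · intro c
    rw [D.map_algebraMap]
    exact zero_mem _
  · intro a b _ _ ha hb
    rw [map_add]
    exact add_mem ha hb
  · intro a b ha' hb' ha hb
    rw [Derivation.leibniz, smul_eq_mul, smul_eq_mul]
    exact add_mem (mul_mem ha' hb) (mul_mem hb' ha)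

/-- Use `exists_ev` into `TrivSqZeroExt M M`, `x ↦ x + y ε`, `y ↦ y + (3 x ^ 2 / 2) ε`, and extend
to the fraction field. -/
theorem Gen.exists_der (hP : Gen k P) : ∃ D : Derivation k M M, dl D P = 1 := by
  have := charZero_of M
  have := hP.isFractionRing
  have hy : yc P ≠ 0 := Der_aux_y hP
  obtain ⟨φ, hx, hy'⟩ := hP.exists_ev (A := TrivSqZeroExt M M)
    (TrivSqZeroExt.inl (xc P) + TrivSqZeroExt.inr (yc P))
    (TrivSqZeroExt.inl (yc P) + TrivSqZeroExt.inr (3 * xc P ^ 2 / 2)) (by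
      refine TrivSqZeroExt.ext ?_ ?_
      · simpa using eqn_of_ne hP.ne
      · simp
        ring)
  have h1 : ∀ (g : M) (hg : g ∈ crd k P), (φ ⟨g, hg⟩).fst = g := fun g hg => by
    refine Algebra.adjoin_induction (p := fun g hg => (φ ⟨g, hg⟩).fst = g) ?_ ?_ ?_ ?_ hg
    · rintro _ (rfl | rfl)
      · rw [hx]
        simp
      · rw [hy']
        simp
    · intro c
      have h2 := (TrivSqZeroExt.fstHom k M M).comp φ |>.commutes c
      exact h2
    · intro a b ha' hb' ha hb
      have h2 := map_add φ ⟨a, ha'⟩ ⟨b, hb'⟩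
      exact (congrArg TrivSqZeroExt.fst h2).trans (by rw [TrivSqZeroExt.fst_add, ha, hb])
    · intro a b ha' hb' ha hb
      have h2 := map_mul φ ⟨a, ha'⟩ ⟨b, hb'⟩
      exact (congrArg TrivSqZeroExt.fst h2).trans (by rw [TrivSqZeroExt.fst_mul, ha, hb])
  have hu : ∀ g : nonZeroDivisors (crd k P), IsUnit (φ g) := fun g => by
    rw [TrivSqZeroExt.isUnit_iff_isUnit_fst, h1 _ g.1.2, isUnit_iff_ne_zero]
    exact fun h0 => nonZeroDivisors.coe_ne_zero g (Subtype.ext h0)
  let Φ : M →ₐ[k] TrivSqZeroExt M M := IsLocalization.liftAlgHom hu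
  have h2 : ∀ g : crd k P, Φ g = φ g := fun g => IsLocalization.lift_eq hu g
  have h3 : ∀ g : M, (Φ g).fst = g := fun g => by
    obtain ⟨a, b, hb, rfl⟩ := IsFractionRing.div_surjective (A := crd k P) g
    have h4 := map_div₀ ((TrivSqZeroExt.fstHom k M M).comp Φ) (a : M) (b : M)
    have h5 : ∀ c : crd k P, ((TrivSqZeroExt.fstHom k M M).comp Φ) c = c := fun c =>
      (congrArg TrivSqZeroExt.fst (h2 c)).trans (h1 _ c.2)
    rw [h5, h5] at h4
    exact h4
  let D : Derivation k M M := Derivation.mk'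
    (((TrivSqZeroExt.sndHom M M).restrictScalars k).comp Φ.toLinearMap) fun a b => by
      change (Φ (a * b)).snd = a * (Φ b).snd + b * (Φ a).snd
      rw [map_mul, TrivSqZeroExt.snd_mul, h3, h3]
      simp [mul_comm]
  refine ⟨D, ?_⟩
  have h6 : D (xc P) = yc P := by
    change (Φ (xc P)).snd = yc P
    have h7 := h2 ⟨xc P, Algebra.subset_adjoin (by simp)⟩
    rw [hx] at h7
    exact (congrArg TrivSqZeroExt.snd h7).trans (by simp)
  unfold dl
  rw [h6, div_self hy]


/-- `D` preserves every place: choose `τ` with `P' = P + τ T` affine at `V`; `dl D P' = 1`, so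
`D` preserves `k[x', y']` and its localisation `V`. -/
theorem Gen.der_mem (hP : Gen k P) {D : Derivation k M M} (hD : dl D P = 1) (V : Pl k M) {f : M}
    (hf : f ∈ V.1) : D f ∈ V.1 := by
  have := charZero_of M
  obtain ⟨τ, -, hx, -⟩ := exists_shift (intg_val V.1 (Der_aux_c V) P)
  rw [mem_vpt] at hx
  have hP' := hP.add_tors τ
  have hD' : dl D (P + tors M τ) = 1 := by rw [dl_add, Der_aux_tors, add_zero, hD]
  obtain ⟨a, ha, b, hb, hb', rfl⟩ := hP'.val_loc V hx f hf
  have hc := hP'.crd_le V hx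
  have e : D (a / b) = b⁻¹ * D a - a * b⁻¹ ^ 2 * D b := by
    rw [div_eq_mul_inv, Derivation.leibniz, Derivation.leibniz_inv, smul_eq_mul, smul_eq_mul,
      smul_eq_mul]
    ring
  rw [e]
  exact sub_mem (mul_mem hb' (hc _ (Der_aux_crd hD' ha)))
    (mul_mem (mul_mem (hc _ ha) (pow_mem hb' 2)) (hc _ (Der_aux_crd hD' hb)))

/-- Translate `Q` to be affine at `V`; `x` or `y` is a unit. -/
theorem Gen.dl_mem (hP : Gen k P) {D : Derivation k M M} (hD : dl D P = 1) (V : Pl k M)
    (Q : EP M) : dl D Q ∈ V.1 := by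
  have := charZero_of M
  obtain ⟨τ, h0, hx, hy⟩ := exists_shift (intg_val V.1 (Der_aux_c V) Q)
  rw [mem_vpt] at hx hy
  have e0 : dl D (Q + tors M τ) = dl D Q := by rw [dl_add, Der_aux_tors, add_zero]
  rw [← e0]
  generalize Q + tors M τ = R at h0 hx hy ⊢
  have h3 : algebraMap ℂ M (2 / 3) = 2 / 3 := by rw [map_div₀, map_ofNat, map_ofNat]
  have e : dl D R = D (xc R) * yc R - algebraMap ℂ M (2 / 3) * xc R * D (yc R) := by
    rw [h3]
    linear_combination -(dl D R) * eqn_of_ne h0 - yc R * dl_xc D R + xc R / 3 * dl_yc D R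
  rw [e]
  exact sub_mem (mul_mem (hP.der_mem hD V hx) hy)
    (mul_mem (mul_mem (Der_aux_c V _) hx) (hP.der_mem hD V hy))

/-- If `D f = 0` with `f` transcendental then `x` is algebraic over `k(f)` and `D x = 0`. -/
theorem Gen.alg_of_der (hP : Gen k P) {D : Derivation k M M} (hD : dl D P = 1) {f : M}
    (hf : D f = 0) : IsAlgebraic k f := by
  have := charZero_of M
  by_contra ht
  have hfin := hP.isFF.finite_of_tr (t := f) ht
  let K := IntermediateField.adjoin k {f}
  have hK : ∀ g ∈ K, D g = 0 := fun g hg => by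
    refine IntermediateField.adjoin_induction k (p := fun g _ => D g = 0) ?_ ?_ ?_ ?_ ?_ hg
    · rintro _ rfl
      exact hf
    · exact fun c => D.map_algebraMap c
    · intro a b _ _ ha hb
      rw [map_add, ha, hb, add_zero]
    · intro a _ ha
      rw [Derivation.leibniz_inv, ha, smul_zero]
    · intro a b _ _ ha hb
      rw [Derivation.leibniz, ha, hb, smul_zero, smul_zero, add_zero]
  let D' : Derivation K M M := Derivation.mk'
    { toFun := D
      map_add' := map_add D
      map_smul' := fun c g => by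
        change D ((c : M) * g) = (c : M) * D g
        rw [Derivation.leibniz, hK c c.2, smul_zero, add_zero, smul_eq_mul] } D.leibniz
  have hi : IsIntegral K (xc P) := IsIntegral.of_finite K _
  have h1 := D'.map_aeval (minpoly K (xc P)) (xc P)
  rw [minpoly.aeval, map_zero, smul_eq_mul] at h1
  have h2 := (minpoly.irreducible hi).separable.aeval_derivative_ne_zero (minpoly.aeval K (xc P))
  have h3 : D (xc P) = 0 := (mul_eq_zero.1 h1.symm).resolve_left h2
  rw [dl_xc, hD, one_mul] at h3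
  exact Der_aux_y hP h3

theorem Gen.up_of_dl (hP : Gen k P) {D : Derivation k M M} (hD : dl D P = 1) {Q : EP M}
    (hQ : dl D Q = 0) : ∃ c : EP k, Q = up k M c := by
  have := charZero_of M
  have hx : D (xc Q) = 0 := by rw [dl_xc, hQ, zero_mul]
  have hy : D (yc Q) = 0 := by
    have h1 := dl_yc D Q
    rw [hQ, zero_mul] at h1
    exact (mul_eq_zero.1 h1).resolve_left (by norm_num)
  exact exists_up (hP.algClosed (hP.alg_of_der hD hx)) (hP.algClosed (hP.alg_of_der hD hy))

/-- The chain rule. -/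
theorem Gen.der_comp (hP : Gen k P) {D : Derivation k M M} (hD : dl D P = 1) (φ : M →ₐ[k] M)
    (f : M) : D (φ f) = dl D (emap (φ.restrictScalars ℂ) P) * φ (D f) := by
  have := charZero_of M
  have hx := dl_xc D (emap (φ.restrictScalars ℂ) P)
  have hy := dl_yc D (emap (φ.restrictScalars ℂ) P)
  rw [xc_emap, yc_emap] at hx hy
  simp only [AlgHom.restrictScalars_apply] at hx hy
  generalize dl D (emap (φ.restrictScalars ℂ) P) = d at hx hy ⊢
  have hf : f ∈ IntermediateField.adjoin k {xc P, yc P} := by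
    rw [hP.gen]
    exact IntermediateField.mem_top
  refine IntermediateField.adjoin_induction k (p := fun g _ => D (φ g) = d * φ (D g))
    ?_ ?_ ?_ ?_ ?_ hf
  · rintro _ (rfl | rfl)
    · rw [hx, dl_xc, hD, one_mul]
    · have h1 := congrArg φ (dl_yc D P)
      rw [hD, one_mul, map_mul, map_mul, map_pow, map_ofNat, map_ofNat] at h1
      refine mul_left_cancel₀ (two_ne_zero (α := M)) ?_
      linear_combination hy - d * h1
  · intro c
    rw [φ.commutes, D.map_algebraMap, map_zero, mul_zero]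
  · intro a b _ _ ha hb
    rw [map_add, map_add, map_add, map_add, ha, hb, mul_add]
  · intro a _ ha
    rw [map_inv₀, Derivation.leibniz_inv, Derivation.leibniz_inv, ha, smul_eq_mul, smul_eq_mul,
      map_mul, map_neg, map_pow, map_inv₀]
    ring
  · intro a b _ _ ha hb
    rw [map_mul, Derivation.leibniz, Derivation.leibniz, ha, hb]
    simp only [smul_eq_mul, map_add, map_mul]
    ring


end Pool.Agent.MP_95da86_ag
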