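import Pool.Agent.MP_95da86_ag.Defs

/-! The curve `y ^ 2 = x ^ 3 + 1` over fields containing `ℂ`, as a module over `ℤ[ω]`. -/

namespace Pool.Agent.MP_95da86_ag

open WeierstrassCurve WeierstrassCurve.Affine

noncomputable section

/-- The cube root of unity. -/
def zeta : ℂ := Complex.exp (2 * Real.pi * Complex.I / 3)

lemma zeta_prim : IsPrimitiveRoot zeta 3 := by
  have := Complex.isPrimitiveRoot_exp 3 (by norm_num)
  simpa [zeta] using this

lemma zeta_pow : zeta ^ 3 = 1 := zeta_prim.pow_eq_one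

lemma zeta_ne_one : zeta ≠ 1 := zeta_prim.ne_one (by norm_num)

lemma zeta_quad : zeta ^ 2 + zeta + 1 = 0 := by
  have h : (zeta - 1) * (zeta ^ 2 + zeta + 1) = 0 := by linear_combination zeta_pow
  exact (mul_eq_zero.1 h).resolve_left (sub_ne_zero.2 zeta_ne_one)

/-- The Eisenstein integers, `ω ^ 2 = -1 - ω`. -/
abbrev Zw := QuadraticAlgebra ℤ (-1) (-1)

/-- The element `ω`. -/
def om : Zw := ⟨0, 1⟩

/-- The norm form. -/
def nm (a : Zw) : ℤ := a.re ^ 2 - a.re * a.im + a.im ^ 2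

/-- Reduction modulo `1 - ω`. -/
def bar : Zw →+* ZMod 3 where
  toFun a := (a.re : ZMod 3) + (a.im : ZMod 3)
  map_one' := by simp [QuadraticAlgebra.re_one, QuadraticAlgebra.im_one]
  map_mul' a b := by
    have h3 : (3 : ZMod 3) = 0 := rfl
    simp only [QuadraticAlgebra.re_mul, QuadraticAlgebra.im_mul]
    push_cast
    linear_combination (-(a.im : ZMod 3) * b.im) * h3
  map_zero' := by simp
  map_add' a b := by simp only [QuadraticAlgebra.re_add, QuadraticAlgebra.im_add]; push_cast; ring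

lemma bar_def (a : Zw) : bar a = (a.re : ZMod 3) + (a.im : ZMod 3) := rfl

/-- The Weierstrass curve. -/
def W0 : WeierstrassCurve.Affine ℂ := ⟨0, 0, 0, 0, 1⟩

/-- The group of points over `M`. -/
def EP (M : Type) [Field M] [Algebra ℂ M] : Type := (W0⁄M).Point

variable {M N : Type} [Field M] [Algebra ℂ M] [Field N] [Algebra ℂ N]

lemma charZero_of (M : Type) [Field M] [Algebra ℂ M] : CharZero M :=
  charZero_of_injective_algebraMap (algebraMap ℂ M).injective

instance : AddCommGroup (EP M) :=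
  letI := Classical.decEq M
  inferInstanceAs (AddCommGroup (W0⁄M).Point)

lemma nonsing_iff (a b : M) : (W0⁄M).Nonsingular a b ↔ b ^ 2 = a ^ 3 + 1 := by
  have := charZero_of M
  rw [nonsingular_iff']
  simp only [equation_iff, W0, WeierstrassCurve.Affine.baseChange, WeierstrassCurve.baseChange,
    map_a₁, map_a₂, map_a₃, map_a₄, map_a₆, map_zero, map_one]
  constructor
  · rintro ⟨h, -⟩; linear_combination h
  · intro h
    refine ⟨by linear_combination h, ?_⟩
    by_contra hc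
    push Not at hc
    obtain ⟨h1, h2⟩ := hc
    have ha : a ^ 2 = 0 := by
      have : (3 : M) * a ^ 2 = 0 := by linear_combination -h1
      simpa using this
    have hb : b = 0 := by
      have : (2 : M) * b = 0 := by linear_combination h2
      simpa using this
    have ha' : a = 0 := by simpa using ha
    simp [ha', hb] at h

/-- An affine point. -/
def pt (a b : M) (h : b ^ 2 = a ^ 3 + 1) : EP M := Point.some a b ((nonsing_iff a b).2 h)

/-- The `x`-coordinate (`0` at the origin). -/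
def xc : EP M → M
  | Point.zero => 0
  | Point.some a _ _ => a

/-- The `y`-coordinate (`0` at the origin). -/
def yc : EP M → M
  | Point.zero => 0
  | Point.some _ b _ => b

@[simp] lemma xc_pt (a b : M) (h) : xc (pt a b h) = a := rfl
@[simp] lemma yc_pt (a b : M) (h) : yc (pt a b h) = b := rfl
@[simp] lemma xc_zero : xc (0 : EP M) = 0 := rfl
@[simp] lemma yc_zero : yc (0 : EP M) = 0 := rfl

lemma pt_ne_zero (a b : M) (h) : pt a b h ≠ 0 := Point.some_ne_zero _

lemma EP.cases (P : EP M) : P = 0 ∨ ∃ a b h, P = pt a b h := by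
  rcases P with _ | ⟨a, b, h⟩
  · exact Or.inl rfl
  · exact Or.inr ⟨a, b, (nonsing_iff a b).1 h, rfl⟩

lemma pt_congr {a b a' b' : M} {h h'} (ha : a = a') (hb : b = b') : pt a b h = pt a' b' h' := by
  subst ha hb; rfl

lemma pt_inj {a b a' b' : M} {h h'} : pt a b h = pt a' b' h' ↔ a = a' ∧ b = b' :=
  ⟨fun e => ⟨congrArg xc e, congrArg yc e⟩, fun e => pt_congr e.1 e.2⟩

lemma eqn_of_ne {P : EP M} (hP : P ≠ 0) : yc P ^ 2 = xc P ^ 3 + 1 := by
  rcases P.cases with rfl | ⟨a, b, h, rfl⟩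
  · exact absurd rfl hP
  · exact h

lemma pt_xc_yc {P : EP M} (hP : P ≠ 0) : pt (xc P) (yc P) (eqn_of_ne hP) = P := by
  rcases P.cases with rfl | ⟨a, b, h, rfl⟩
  · exact absurd rfl hP
  · rfl

lemma EP.ext' {P Q : EP M} (hP : P ≠ 0) (hQ : Q ≠ 0) (hx : xc P = xc Q) (hy : yc P = yc Q) :
    P = Q := by
  rw [← pt_xc_yc hP, ← pt_xc_yc hQ]; exact pt_congr hx hy

lemma negY_eq (a b : M) : (W0⁄M).negY a b = -b := by
  simp [negY, W0, WeierstrassCurve.Affine.baseChange, WeierstrassCurve.baseChange]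

lemma neg_pt (a b : M) (h) : -pt a b h = pt a (-b) (by rw [neg_sq]; exact h) := by
  have : -pt a b h = Point.some a ((W0⁄M).negY a b) _ := Point.neg_some _
  rw [this]; exact pt_congr (h := (nonsing_iff _ _).1 (by
    rw [negY_eq]; exact (nonsing_iff _ _).2 (by rw [neg_sq]; exact h))) rfl (negY_eq a b)

@[simp] lemma xc_neg (P : EP M) : xc (-P) = xc P := by
  rcases P.cases with rfl | ⟨a, b, h, rfl⟩
  · simp
  · simp [neg_pt]

@[simp] lemma yc_neg (P : EP M) : yc (-P) = -yc P := by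
  rcases P.cases with rfl | ⟨a, b, h, rfl⟩
  · simp
  · simp [neg_pt]

lemma pt_add_neg {a₁ b₁ a₂ b₂ : M} (h₁ h₂) (ha : a₁ = a₂) (hb : b₁ = -b₂) :
    pt a₁ b₁ h₁ + pt a₂ b₂ h₂ = 0 := by
  let := Classical.decEq M
  exact Point.add_of_Y_eq ha (by rw [negY_eq]; exact hb)

/-- The addition law, for any `l` that is the slope of the chord or tangent. -/
lemma pt_add {a₁ b₁ a₂ b₂ : M} (h₁ h₂) (hne : ¬ (a₁ = a₂ ∧ b₁ = -b₂)) (l : M)
    (hl₁ : l * (a₁ - a₂) = b₁ - b₂) (hl₂ : l * (b₁ + b₂) = a₁ ^ 2 + a₁ * a₂ + a₂ ^ 2) :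
    ∃ h, pt a₁ b₁ h₁ + pt a₂ b₂ h₂ =
      pt (l ^ 2 - a₁ - a₂) (-(l * (l ^ 2 - a₁ - a₂ - a₁) + b₁)) h := by
  let := Classical.decEq M
  have hne' : ¬ (a₁ = a₂ ∧ b₁ = (W0⁄M).negY a₂ b₂) := by rw [negY_eq]; exact hne
  have hs : (W0⁄M).slope a₁ a₂ b₁ b₂ = l := by
    by_cases ha : a₁ = a₂
    · have hb : b₁ ≠ (W0⁄M).negY a₂ b₂ := fun h => hne' ⟨ha, h⟩
      rw [slope_of_Y_ne ha hb, negY_eq]
      rw [negY_eq] at hb
      have hb' : b₁ = b₂ := by rw [ha, sub_self, mul_zero] at hl₁; linear_combination -hl₁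
      subst ha hb'
      have hb2 : b₁ - -b₁ ≠ 0 := sub_ne_zero.2 hb
      rw [div_eq_iff hb2]
      simp only [W0, WeierstrassCurve.Affine.baseChange, WeierstrassCurve.baseChange,
        map_a₁, map_a₂, map_a₄, map_zero]
      linear_combination -hl₂
    · rw [slope_of_X_ne ha, div_eq_iff (sub_ne_zero.2 ha), hl₁]
  have e : pt a₁ b₁ h₁ + pt a₂ b₂ h₂ = Point.some _ _ _ := Point.add_some hne'
  have hx : (W0⁄M).addX a₁ a₂ ((W0⁄M).slope a₁ a₂ b₁ b₂) = l ^ 2 - a₁ - a₂ := by
    rw [hs]; simp [addX, W0, WeierstrassCurve.Affine.baseChange, WeierstrassCurve.baseChange]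
  have hy : (W0⁄M).addY a₁ a₂ b₁ ((W0⁄M).slope a₁ a₂ b₁ b₂) =
      -(l * (l ^ 2 - a₁ - a₂ - a₁) + b₁) := by
    rw [addY, negY_eq, negAddY, hx, hs]
  have hn := nonsingular_add ((nonsing_iff _ _).2 h₁) ((nonsing_iff _ _).2 h₂) hne'
  rw [hx, hy] at hn
  refine ⟨(nonsing_iff _ _).1 hn, e.trans ?_⟩
  exact pt_congr (h := (nonsing_iff _ _).1 (nonsingular_add ((nonsing_iff _ _).2 h₁)
    ((nonsing_iff _ _).2 h₂) hne')) hx hy

omit [Algebra ℂ M] in
/-- A slope always exists. -/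
lemma exists_slope {a₁ b₁ a₂ b₂ : M} (h₁ : b₁ ^ 2 = a₁ ^ 3 + 1) (h₂ : b₂ ^ 2 = a₂ ^ 3 + 1)
    (hne : ¬ (a₁ = a₂ ∧ b₁ = -b₂)) :
    ∃ l : M, l * (a₁ - a₂) = b₁ - b₂ ∧ l * (b₁ + b₂) = a₁ ^ 2 + a₁ * a₂ + a₂ ^ 2 := by
  have key : (b₁ - b₂) * (b₁ + b₂) = (a₁ - a₂) * (a₁ ^ 2 + a₁ * a₂ + a₂ ^ 2) := by
    linear_combination h₁ - h₂
  by_cases ha : a₁ = a₂
  · have hb : b₁ + b₂ ≠ 0 := fun h => hne ⟨ha, by linear_combination h⟩
    refine ⟨(a₁ ^ 2 + a₁ * a₂ + a₂ ^ 2) / (b₁ + b₂), ?_, div_mul_cancel₀ _ hb⟩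
    rw [ha, sub_self, zero_mul] at key
    rw [ha, sub_self, mul_zero]
    exact ((mul_eq_zero.1 key).resolve_right hb).symm
  · have ha' : a₁ - a₂ ≠ 0 := sub_ne_zero.2 ha
    refine ⟨(b₁ - b₂) / (a₁ - a₂), div_mul_cancel₀ _ ha', ?_⟩
    rw [div_mul_eq_mul_div, key, mul_div_cancel_left₀ _ ha']

/-- The image of `ζ` in `M`. -/
def zt (M : Type) [Field M] [Algebra ℂ M] : M := algebraMap ℂ M zeta

lemma zt_pow : zt M ^ 3 = 1 := by rw [zt, ← map_pow, zeta_pow, map_one]
lemma zt_quad : zt M ^ 2 + zt M + 1 = 0 := by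
  have := congrArg (algebraMap ℂ M) zeta_quad
  simpa [zt] using this
lemma zt_ne_zero : zt M ≠ 0 := fun h => by simpa [h] using (zt_pow (M := M))
lemma zt_ne_one : zt M ≠ 1 := fun h =>
  zeta_ne_one ((algebraMap ℂ M).injective (by rw [map_one]; exact h))

/-- The automorphism `(x, y) ↦ (ζ x, y)`. -/
def rotFun : EP M → EP M
  | Point.zero => 0
  | Point.some a b h => pt (zt M * a) b (by rw [mul_pow, zt_pow, one_mul]; exact (nonsing_iff a b).1 h)

lemma rotFun_pt (a b : M) (h) :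
    rotFun (pt a b h) = pt (zt M * a) b (by rw [mul_pow, zt_pow, one_mul]; exact h) := rfl

lemma rotFun_zero : rotFun (0 : EP M) = 0 := rfl

/-- The automorphism `(x, y) ↦ (ζ x, y)` as a homomorphism. -/
def rot : EP M →+ EP M where
  toFun := rotFun
  map_zero' := rfl
  map_add' P Q := by
    rcases P.cases with rfl | ⟨a₁, b₁, h₁, rfl⟩
    · simp [rotFun_zero]
    rcases Q.cases with rfl | ⟨a₂, b₂, h₂, rfl⟩
    · simp [rotFun_zero]
    by_cases hne : a₁ = a₂ ∧ b₁ = -b₂
    · rw [pt_add_neg h₁ h₂ hne.1 hne.2, rotFun_pt, rotFun_pt, rotFun_zero,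
        pt_add_neg _ _ (by rw [hne.1]) hne.2]
    · obtain ⟨l, hl₁, hl₂⟩ := exists_slope h₁ h₂ hne
      obtain ⟨h, e⟩ := pt_add h₁ h₂ hne l hl₁ hl₂
      have z3 := zt_pow (M := M)
      obtain ⟨h', e'⟩ := pt_add (a₁ := zt M * a₁) (a₂ := zt M * a₂)
        (by rw [mul_pow, zt_pow, one_mul]; exact h₁) (by rw [mul_pow, zt_pow, one_mul]; exact h₂)
        (fun hh => hne ⟨mul_left_cancel₀ zt_ne_zero hh.1, hh.2⟩) (zt M ^ 2 * l)
        (by linear_combination hl₁ + (l * (a₁ - a₂)) * z3) (by linear_combination zt M ^ 2 * hl₂)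
      rw [e, rotFun_pt, rotFun_pt, rotFun_pt, e']
      refine pt_congr (by linear_combination (-(zt M) * l ^ 2) * z3) ?_
      linear_combination (l ^ 3 * (zt M ^ 3 + 1) - l * (2 * a₁ + a₂)) * z3

lemma rot_pt (a b : M) (h) :
    rot (pt a b h) = pt (zt M * a) b (by rw [mul_pow, zt_pow, one_mul]; exact h) := rfl

lemma rot_rot (P : EP M) : rot (rot P) = -P - rot P := by
  rcases P.cases with rfl | ⟨a, b, h, rfl⟩
  · simp
  have q := zt_quad (M := M)
  have z3 := zt_pow (M := M)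
  rw [eq_sub_iff_add_eq, rot_pt, rot_pt, neg_pt]
  have hb : a = 0 → b ≠ 0 := fun ha hb => by simp [ha, hb] at h
  have := charZero_of M
  have hne : ¬ (zt M * (zt M * a) = zt M * a ∧ b = -b) := by
    rintro ⟨h1, h2⟩
    have h3 : (zt M - 1) * a = 0 := by
      have := mul_left_cancel₀ zt_ne_zero h1
      linear_combination this
    have ha : a = 0 := (mul_eq_zero.1 h3).resolve_left (sub_ne_zero.2 zt_ne_one)
    have : (2 : M) * b = 0 := by linear_combination h2
    exact hb ha (by simpa using this)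
  obtain ⟨h', e⟩ := pt_add (a₁ := zt M * (zt M * a)) (a₂ := zt M * a)
    (by rw [mul_pow, mul_pow, zt_pow, one_mul, one_mul]; exact h)
    (by rw [mul_pow, zt_pow, one_mul]; exact h) hne 0 (by ring)
    (by linear_combination (-(zt M ^ 2 * a ^ 2)) * q)
  rw [e]
  exact pt_congr (by linear_combination (-a) * q) (by ring)

instance : SMul Zw (EP M) := ⟨fun a P => a.re • P + a.im • rot P⟩

lemma zw_smul_def (a : Zw) (P : EP M) : a • P = a.re • P + a.im • rot P := rfl

instance : Module Zw (EP M) where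
  one_smul P := by simp [zw_smul_def, QuadraticAlgebra.re_one, QuadraticAlgebra.im_one]
  mul_smul a b P := by
    simp only [zw_smul_def, QuadraticAlgebra.re_mul, QuadraticAlgebra.im_mul, map_add, map_zsmul,
      rot_rot]
    module
  smul_zero a := by simp [zw_smul_def]
  smul_add a P Q := by simp only [zw_smul_def, map_add]; module
  add_smul a b P := by
    simp only [zw_smul_def, QuadraticAlgebra.re_add, QuadraticAlgebra.im_add]; module
  zero_smul P := by simp [zw_smul_def]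

lemma om_smul (P : EP M) : om • P = rot P := by simp [zw_smul_def, om]

@[simp] lemma xc_om (P : EP M) : xc (om • P) = zt M * xc P := by
  rw [om_smul]
  rcases P.cases with rfl | ⟨a, b, h, rfl⟩
  · simp
  · simp [rot_pt]

@[simp] lemma yc_om (P : EP M) : yc (om • P) = yc P := by
  rw [om_smul]
  rcases P.cases with rfl | ⟨a, b, h, rfl⟩
  · simp
  · simp [rot_pt]

/-- The map on points along a field homomorphism, additive version. -/
def emap0 (f : M →ₐ[ℂ] N) : EP M →+ EP N :=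
  letI := Classical.decEq M
  letI := Classical.decEq N
  Point.map (W' := W0) f

lemma emap0_pt (f : M →ₐ[ℂ] N) (a b : M) (h) : emap0 f (pt a b h) =
    pt (f a) (f b) (by rw [← map_pow, h, map_add, map_pow, map_one]) := rfl

lemma emap0_rot (f : M →ₐ[ℂ] N) (P : EP M) : emap0 f (rot P) = rot (emap0 f P) := by
  rcases P.cases with rfl | ⟨a, b, h, rfl⟩
  · simp
  · rw [rot_pt, emap0_pt, emap0_pt, rot_pt]
    exact pt_congr (by simp [zt]) rfl

/-- The map on points along a field homomorphism. -/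
def emap (f : M →ₐ[ℂ] N) : EP M →ₗ[Zw] EP N where
  toFun := emap0 f
  map_add' := map_add _
  map_smul' a P := by simp [zw_smul_def, emap0_rot]

lemma emap_pt (f : M →ₐ[ℂ] N) (a b : M) (h) : emap f (pt a b h) =
    pt (f a) (f b) (by rw [← map_pow, h, map_add, map_pow, map_one]) := rfl

@[simp] lemma xc_emap (f : M →ₐ[ℂ] N) (P : EP M) : xc (emap f P) = f (xc P) := by
  rcases P.cases with rfl | ⟨a, b, h, rfl⟩
  · simp
  · simp [emap_pt]

@[simp] lemma yc_emap (f : M →ₐ[ℂ] N) (P : EP M) : yc (emap f P) = f (yc P) := by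
  rcases P.cases with rfl | ⟨a, b, h, rfl⟩
  · simp
  · simp [emap_pt]

lemma emap_eq_zero (f : M →ₐ[ℂ] N) {P : EP M} : emap f P = 0 ↔ P = 0 := by
  rcases P.cases with rfl | ⟨a, b, h, rfl⟩
  · simp
  · simp [emap_pt, pt_ne_zero]

lemma emap_injective (f : M →ₐ[ℂ] N) : Function.Injective (emap f) :=
  (injective_iff_map_eq_zero _).2 fun _ h => (emap_eq_zero f).1 h

lemma emap_emap {N' : Type} [Field N'] [Algebra ℂ N'] (f : M →ₐ[ℂ] N) (g : N →ₐ[ℂ] N')
    (P : EP M) : emap g (emap f P) = emap (g.comp f) P := by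
  rcases P.cases with rfl | ⟨a, b, h, rfl⟩
  · simp
  · rfl

lemma emap_id (P : EP M) : emap (AlgHom.id ℂ M) P = P := by
  rcases P.cases with rfl | ⟨a, b, h, rfl⟩
  · simp
  · rfl

/-- Points defined over a subfield `F`. -/
def up (F M : Type) [Field F] [Algebra ℂ F] [Field M] [Algebra ℂ M] [Algebra F M]
    [IsScalarTower ℂ F M] : EP F →ₗ[Zw] EP M := emap (IsScalarTower.toAlgHom ℂ F M)

/-- Constant points. -/
def cst (M : Type) [Field M] [Algebra ℂ M] : EP ℂ →ₗ[Zw] EP M := emap (Algebra.ofId ℂ M)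

@[simp] lemma emap_cst (f : M →ₐ[ℂ] N) (c : EP ℂ) : emap f (cst M c) = cst N c := by
  rw [cst, cst, emap_emap]; congr 2; ext

/-- The point `T = (0, 1)` of order three. -/
def tT (M : Type) [Field M] [Algebra ℂ M] : EP M := pt 0 1 (by ring)

/-- The three points fixed by `ω`: `0, T, -T`. -/
def tors (M : Type) [Field M] [Algebra ℂ M] (τ : ZMod 3) : EP M := τ.val • tT M

@[simp] lemma emap_tT (f : M →ₐ[ℂ] N) : emap f (tT M) = tT N := by
  rw [tT, emap_pt]; exact pt_congr (map_zero _) (map_one _)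

@[simp] lemma emap_tors (f : M →ₐ[ℂ] N) (τ : ZMod 3) : emap f (tors M τ) = tors N τ := by
  rw [tors, tors, map_nsmul, emap_tT]

@[simp] lemma cst_tors (τ : ZMod 3) : cst M (tors ℂ τ) = tors M τ := emap_tors _ τ

lemma tT_add_tT : tT M + tT M = -tT M := by
  have := charZero_of M
  obtain ⟨h, e⟩ := pt_add (a₁ := (0 : M)) (a₂ := 0) (b₁ := 1) (b₂ := 1) (by ring) (by ring)
    (by rintro ⟨-, h⟩; have : (2 : M) = 0 := by linear_combination h
        simp at this) 0 (by ring) (by ring)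
  rw [tT, e, neg_pt]; exact pt_congr (by ring) (by ring)

@[simp] lemma tors_zero : tors M 0 = 0 := by simp [tors]
lemma tors_one : tors M 1 = tT M := by
  rw [tors, show (1 : ZMod 3).val = 1 from rfl, one_smul]
lemma tors_two : tors M 2 = -tT M := by
  rw [tors, show (2 : ZMod 3).val = 2 from rfl, two_smul, tT_add_tT]

lemma three_tT : (3 : ℕ) • tT M = 0 := by
  rw [show (3 : ℕ) = 2 + 1 from rfl, add_smul, two_smul, one_smul, tT_add_tT, neg_add_cancel]

lemma tors_natCast (n : ℕ) : tors M (n : ZMod 3) = n • tT M := by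
  rw [tors, ZMod.val_natCast]
  conv_rhs => rw [← Nat.mod_add_div n 3, add_smul, mul_comm, mul_smul, three_tT, smul_zero, add_zero]

lemma tors_add (a b : ZMod 3) : tors M (a + b) = tors M a + tors M b := by
  rw [← ZMod.natCast_zmod_val a, ← ZMod.natCast_zmod_val b, ← Nat.cast_add, tors_natCast,
    tors_natCast, tors_natCast, add_smul]

/-- `tors` as a homomorphism. -/
def torsHom (M : Type) [Field M] [Algebra ℂ M] : ZMod 3 →+ EP M where
  toFun := tors M
  map_zero' := tors_zero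
  map_add' := tors_add

lemma tors_neg (a : ZMod 3) : tors M (-a) = -tors M a := map_neg (torsHom M) a
lemma tors_sub (a b : ZMod 3) : tors M (a - b) = tors M a - tors M b := map_sub (torsHom M) a b

lemma tors_eq_zero {a : ZMod 3} : tors M a = 0 ↔ a = 0 := by
  refine ⟨fun h => ?_, fun h => by rw [h, tors_zero]⟩
  have : a = 0 ∨ a = 1 ∨ a = 2 := by clear h; revert a; decide
  rcases this with rfl | rfl | rfl
  · rfl
  · rw [tors_one] at h; exact absurd h (pt_ne_zero _ _ _)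
  · rw [tors_two, neg_eq_zero] at h; exact absurd h (pt_ne_zero _ _ _)

lemma tors_injective : Function.Injective (tors M) :=
  (injective_iff_map_eq_zero (torsHom M)).2 fun _ h => tors_eq_zero.1 h

lemma rot_tT : rot (tT M) = tT M := by rw [tT, rot_pt]; exact pt_congr (by ring) rfl

lemma smul_tors (a : Zw) (τ : ZMod 3) : a • tors M τ = tors M (bar a * τ) := by
  have h1 : rot (tors M τ) = tors M τ := by rw [tors, map_nsmul, rot_tT]
  have h2 : ∀ n : ℤ, n • tors M τ = tors M ((n : ZMod 3) * τ) := fun n => by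
    rw [← zsmul_eq_mul]; exact (map_zsmul (torsHom M) n τ).symm
  rw [zw_smul_def, h1, h2, h2, ← tors_add, bar_def, add_mul]

/-- A point with `x = 0` is `T` or `-T`. -/
lemma eq_tors_of_xc {P : EP M} (h : xc P = 0) : ∃ τ, P = tors M τ := by
  rcases P.cases with rfl | ⟨a, b, hab, rfl⟩
  · exact ⟨0, tors_zero.symm⟩
  simp only [xc_pt] at h
  subst h
  have : (b - 1) * (b + 1) = 0 := by linear_combination hab
  rcases mul_eq_zero.1 this with h | h
  · exact ⟨1, by rw [tors_one, tT]; exact pt_congr rfl (by linear_combination h)⟩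
  · exact ⟨2, by rw [tors_two, tT, neg_pt]; exact pt_congr rfl (by linear_combination h)⟩

/-- Translation by `T` is a linear fractional map. -/
lemma pt_add_tT (a b : M) (h) (hb : b + 1 ≠ 0) :
    ∃ h', pt a b h + tT M = pt (-2 * a / (b + 1)) ((b - 3) / (b + 1)) h' := by
  have hne : ¬ (a = 0 ∧ b = -1) := fun hh => hb (by rw [hh.2]; ring)
  obtain ⟨h', e⟩ := pt_add h (show (1 : M) ^ 2 = 0 ^ 3 + 1 by ring) hne (a ^ 2 / (b + 1))
    (by field_simp; linear_combination -h) (by field_simp; ring)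
  have e1 : (a ^ 2 / (b + 1)) ^ 2 - a - 0 = -2 * a / (b + 1) := by
    field_simp; linear_combination (-a) * h
  have e2 : -(a ^ 2 / (b + 1) * ((a ^ 2 / (b + 1)) ^ 2 - a - 0 - a) + b) = (b - 3) / (b + 1) := by
    rw [e1]; field_simp; linear_combination (-(b + 3)) * h
  exact ⟨by rw [← e1, ← e2]; exact h', by rw [tT, e]; exact pt_congr e1 e2⟩

lemma pt_add_tT_eq_zero (a b : M) (h) (hb : b + 1 = 0) : pt a b h + tT M = 0 := by
  have hb' : b = -1 := by linear_combination hb
  have ha : a ^ 3 = 0 := by rw [hb'] at h; linear_combination -h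
  exact pt_add_neg _ _ (by simpa using ha) hb'

/-- The point `∑ ℓ i • P i`. -/
def lin (l : Fin 3 → Zw) (P : Fin 3 → EP M) : EP M := ∑ i, l i • P i

/-- The value of the reduction of `ℓ` at a point of `𝔽₃ ^ 3`. -/
def dotb (l : Fin 3 → Zw) (p : Fin 3 → ZMod 3) : ZMod 3 := ∑ i, bar (l i) * p i

lemma lin_tors (l : Fin 3 → Zw) (p : Fin 3 → ZMod 3) :
    lin l (fun i => tors M (p i)) = tors M (dotb l p) := by
  simp only [lin, dotb, smul_tors]
  exact (map_sum (torsHom M) _ _).symm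

lemma emap_lin (f : M →ₐ[ℂ] N) (l : Fin 3 → Zw) (P : Fin 3 → EP M) :
    emap f (lin l P) = lin l (fun i => emap f (P i)) := by
  simp [lin, map_sum]

end

end Pool.Agent.MP_95da86_ag
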