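import Mathlib

/-! A commutative composition ring containing a cube root of unity is `ℤ[ω]`. -/

namespace Pool.Agent.MP_95da86_ag

/-- A rational root of a monic integer quadratic is an integer. -/
theorem EndAlg_aux_root (r : ℚ) (a b : ℤ) (h : r ^ 2 + a * r + b = 0) : ∃ m : ℤ, r = m := by
  have hi : IsIntegral ℤ r := by
    refine ⟨Polynomial.X ^ 2 + Polynomial.C a * Polynomial.X + Polynomial.C b, ?_, ?_⟩
    · monicity!
    · simp only [Polynomial.eval₂_add, Polynomial.eval₂_mul, Polynomial.eval₂_pow,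
        Polynomial.eval₂_X, Polynomial.eval₂_C]
      simpa using h
  obtain ⟨m, hm⟩ := IsIntegrallyClosed.algebraMap_eq_of_integral hi
  exact ⟨m, by simpa using hm.symm⟩

/-- `1` and `z` are independent over `ℚ`. -/
theorem EndAlg_aux_indep {k : Type} [Field k] [CharZero k] (z : k) (hz : z ^ 2 + z + 1 = 0)
    (p q : ℚ) (h : (p : k) + q * z = 0) : p = 0 ∧ q = 0 := by
  have h1 : ((p ^ 2 - p * q + q ^ 2 : ℚ) : k) = 0 := by
    push_cast
    linear_combination ((p : k) - q - q * z) * h + (q : k) ^ 2 * hz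
  have h2 : p ^ 2 - p * q + q ^ 2 = 0 := by exact_mod_cast h1
  have hq : q = 0 := by nlinarith [sq_nonneg (2 * p - q), sq_nonneg q]
  subst hq
  constructor
  · simpa using h2
  · rfl

/-- Every element satisfies a monic quadratic equation over `ℤ`. -/
theorem EndAlg_aux_quad {k : Type} [Field k] (S : Subring k) (N : k → ℤ)
    (hpar : ∀ a ∈ S, ∀ b ∈ S, N (a + b) + N (a - b) = 2 * N a + 2 * N b)
    (hmul : ∀ a ∈ S, ∀ b ∈ S, N (a * b) = N a * N b)
    (hdef : ∀ a ∈ S, N a = 0 → a = 0) (x : k) (hx : x ∈ S) :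
    ∃ t n : ℤ, x ^ 2 - t * x + n = 0 := by
  have h0 : N 0 = 0 := by
    have := hpar 0 S.zero_mem 0 S.zero_mem
    simp only [add_zero, sub_zero] at this
    omega
  have hneg : ∀ a ∈ S, N (-a) = N a := by
    intro a ha
    have := hpar 0 S.zero_mem a ha
    simp only [zero_add, zero_sub, h0] at this
    omega
  have hcube : ∀ u ∈ S, ∀ v ∈ S, ∀ w ∈ S,
      N (u + v + w) + N u + N v + N w = N (u + v) + N (u + w) + N (v + w) := by
    intro u hu v hv w hw
    have e1 := hpar (u + v) (S.add_mem hu hv) w hw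
    have e2 := hpar (u + w) (S.add_mem hu hw) v hv
    have e3 := hpar u hu (v - w) (S.sub_mem hv hw)
    have e4 := hpar v hv w hw
    rw [show u + w + v = u + v + w by ring] at e2
    rw [show u + (v - w) = u + v - w by ring, show u - (v - w) = u + w - v by ring] at e3
    omega
  set b : k → k → ℤ := fun u v => N (u + v) - N u - N v with hb
  have bsymm : ∀ u v, b u v = b v u := by
    intro u v
    simp only [hb]
    rw [add_comm v u]
    ring
  have badd : ∀ u ∈ S, ∀ v ∈ S, ∀ w ∈ S, b (u + v) w = b u w + b v w := by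
    intro u hu v hv w hw
    have := hcube u hu v hv w hw
    simp only [hb]
    omega
  have bzero : ∀ w, b 0 w = 0 := by
    intro w
    simp only [hb, zero_add, h0]
    ring
  have bneg : ∀ u ∈ S, ∀ w ∈ S, b (-u) w = - b u w := by
    intro u hu w hw
    have := badd u hu (-u) (S.neg_mem hu) w hw
    rw [add_neg_cancel, bzero] at this
    omega
  have bsmul : ∀ (m : ℤ), ∀ u ∈ S, ∀ w ∈ S, b (m * u) w = m * b u w := by
    intro m u hu w hw
    induction m using Int.induction_on with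
    | zero => simp [bzero]
    | succ i ih =>
      have hm : ((i : ℤ) : k) * u ∈ S := S.mul_mem (intCast_mem S _) hu
      rw [show (((i : ℤ) + 1 : ℤ) : k) * u = ((i : ℤ) : k) * u + u by push_cast; ring,
        badd _ hm u hu w hw, ih]
      ring
    | pred i ih =>
      have hm : ((-(i : ℤ) : ℤ) : k) * u ∈ S := S.mul_mem (intCast_mem S _) hu
      rw [show ((-(i : ℤ) - 1 : ℤ) : k) * u = ((-(i : ℤ) : ℤ) : k) * u + -u by push_cast; ring,
        badd _ hm (-u) (S.neg_mem hu) w hw, ih, bneg u hu w hw]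
      ring
  have pol1 : ∀ u ∈ S, ∀ y ∈ S, ∀ w ∈ S, b (u * y) (u * w) = N u * b y w := by
    intro u hu y hy w hw
    simp only [hb]
    rw [← mul_add, hmul u hu _ (S.add_mem hy hw), hmul u hu y hy, hmul u hu w hw]
    ring
  have pol2 : ∀ u ∈ S, ∀ v ∈ S, ∀ y ∈ S, ∀ w ∈ S,
      b (u * y) (v * w) + b (v * y) (u * w) = b u v * b y w := by
    intro u hu v hv y hy w hw
    have e := pol1 (u + v) (S.add_mem hu hv) y hy w hw
    have huy := S.mul_mem hu hy
    have hvy := S.mul_mem hv hy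
    have huw := S.mul_mem hu hw
    have hvw := S.mul_mem hv hw
    rw [add_mul, add_mul, badd _ huy _ hvy _ (S.add_mem huw hvw), bsymm (u * y), bsymm (v * y),
      badd _ huw _ hvw _ huy, badd _ huw _ hvw _ hvy, bsymm (u * w) (u * y), bsymm (v * w) (v * y),
      pol1 u hu y hy w hw, pol1 v hv y hy w hw, bsymm (v * w) (u * y), bsymm (u * w) (v * y)] at e
    have : b u v = N (u + v) - N u - N v := rfl
    rw [this]
    linear_combination e
  refine ⟨b x 1, N x, ?_⟩
  set p : k := x ^ 2 - (b x 1 : ℤ) * x + (N x : ℤ) with hp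
  have hxx : x * x ∈ S := S.mul_mem hx hx
  have htx : ((-(b x 1) : ℤ) : k) * x ∈ S := S.mul_mem (intCast_mem S _) hx
  have hn1 : ((N x : ℤ) : k) * 1 ∈ S := S.mul_mem (intCast_mem S _) S.one_mem
  have hp' : p = x * x + ((-(b x 1) : ℤ) : k) * x + ((N x : ℤ) : k) * 1 := by
    rw [hp]; push_cast; ring
  have hpS : p ∈ S := by
    rw [hp']; exact S.add_mem (S.add_mem hxx htx) hn1
  have key : ∀ w ∈ S, b p w = 0 := by
    intro w hw
    rw [hp', badd _ (S.add_mem hxx htx) _ hn1 w hw, badd _ hxx _ htx w hw,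
      bsmul _ x hx w hw, bsmul _ 1 S.one_mem w hw]
    have e1 := pol2 x hx 1 S.one_mem x hx w hw
    have e2 := pol1 x hx 1 S.one_mem w hw
    simp only [one_mul, mul_one] at e1 e2
    linear_combination e1 - e2
  have e := key p hpS
  have e2 := hpar p hpS p hpS
  simp only [sub_self, h0] at e2
  have : b p p = N (p + p) - N p - N p := rfl
  apply hdef p hpS
  omega

/-- With `b u v = N (u + v) - N u - N v` (biadditive by the parallelogram law), polarising
`N (x y) = N x N y` twice gives `b (x y) (w z) + b (w y) (x z) = b x w * b y z` and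
`b (x y) (x z) = N x * b y z`, hence `b (x ^ 2 - b x 1 * x + N x) z = 0` for all `z`, so
`x ^ 2 - t x + n = 0`. The equations for `x`, `z` and `x + z` give `x ∈ ℚ + ℚ z`; then
`x = r + s z` with `s ≠ 0` has `t = 2 r - s`, `4 n = t ^ 2 + 3 s ^ 2`, so `s` and `r` are integers. -/
theorem end_alg {k : Type} [Field k] [CharZero k] (z : k) (hz : z ^ 2 + z + 1 = 0) (S : Subring k)
    (hzS : z ∈ S) (N : k → ℤ)
    (hpar : ∀ a ∈ S, ∀ b ∈ S, N (a + b) + N (a - b) = 2 * N a + 2 * N b)
    (hmul : ∀ a ∈ S, ∀ b ∈ S, N (a * b) = N a * N b) (hone : N 1 = 1)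
    (hdef : ∀ a ∈ S, N a = 0 → a = 0) : ∀ a ∈ S, ∃ m n : ℤ, a = m + n * z := by
  intro x hx
  obtain ⟨t, n, h1⟩ := EndAlg_aux_quad S N hpar hmul hdef x hx
  obtain ⟨t', n', h2⟩ := EndAlg_aux_quad S N hpar hmul hdef (x + z) (S.add_mem hx hzS)
  set c : ℤ := t - t' with hc
  have hD : (0 : ℤ) < c ^ 2 - 2 * c + 4 := by nlinarith [sq_nonneg (c - 1)]
  have hDq : ((c ^ 2 - 2 * c + 4 : ℤ) : ℚ) ≠ 0 := by exact_mod_cast hD.ne'
  have hDk : ((c ^ 2 - 2 * c + 4 : ℤ) : k) ≠ 0 := by exact_mod_cast hD.ne'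
  have h3 : x * ((c : k) + 2 * z) = ((n + 1 - n' : ℤ) : k) + ((t' + 1 : ℤ) : k) * z := by
    rw [hc]; push_cast
    linear_combination h2 - h1 - hz
  set A : ℤ := n + 1 - n' with hA
  set B : ℤ := t' + 1 with hB
  have h4 : x * ((c ^ 2 - 2 * c + 4 : ℤ) : k) =
      ((A * (c - 2) + 2 * B : ℤ) : k) + ((B * c - 2 * A : ℤ) : k) * z := by
    push_cast
    linear_combination ((c : k) - 2 - 2 * z) * h3 + (4 * x - 2 * (B : k)) * hz
  obtain ⟨r, s, hrs⟩ : ∃ r s : ℚ, x = r + s * z := by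
    refine ⟨((A * (c - 2) + 2 * B : ℤ) : ℚ) / ((c ^ 2 - 2 * c + 4 : ℤ) : ℚ),
      ((B * c - 2 * A : ℤ) : ℚ) / ((c ^ 2 - 2 * c + 4 : ℤ) : ℚ), ?_⟩
    rw [Rat.cast_div, Rat.cast_div, Rat.cast_intCast, Rat.cast_intCast, Rat.cast_intCast]
    field_simp
    linear_combination h4
  have h5 : ((r ^ 2 - s ^ 2 - t * r + n : ℚ) : k) + ((2 * r * s - s ^ 2 - t * s : ℚ) : k) * z
      = 0 := by
    push_cast
    rw [hrs] at h1
    linear_combination h1 - (s : k) ^ 2 * hz
  obtain ⟨e1, e2⟩ := EndAlg_aux_indep z hz _ _ h5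
  by_cases hs : s = 0
  · subst hs
    obtain ⟨m, hm⟩ := EndAlg_aux_root r (-t) n (by push_cast; linear_combination e1)
    exact ⟨m, 0, by rw [hrs, hm]; simp⟩
  · have e3 : (t : ℚ) = 2 * r - s := by
      have : s * (2 * r - s - t) = 0 := by linear_combination e2
      rcases mul_eq_zero.mp this with h | h
      · exact absurd h hs
      · linear_combination -h
    have e4 : 3 * s ^ 2 = 4 * (n : ℚ) - t ^ 2 := by
      linear_combination (-4) * e1 + ((t : ℚ) - 2 * r - s) * e3
    obtain ⟨m, hm⟩ := EndAlg_aux_root (3 * s) 0 (-(3 * (4 * n - t ^ 2)))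
      (by push_cast; linear_combination 3 * e4)
    have e5 : m ^ 2 = 3 * (4 * n - t ^ 2) := by
      have : (m : ℚ) ^ 2 = 3 * (4 * n - t ^ 2) := by rw [← hm]; linear_combination 3 * e4
      exact_mod_cast this
    have e6 : (3 : ℤ) ∣ m := Int.Prime.dvd_pow' (by norm_num : Nat.Prime 3) ⟨_, e5⟩
    obtain ⟨s', hs'⟩ := e6
    have e7 : s = s' := by
      rw [hs'] at hm
      push_cast at hm
      linear_combination hm / 3
    obtain ⟨m', hm'⟩ := EndAlg_aux_root r (-t) (n - s' ^ 2)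
      (by push_cast; rw [← e7]; linear_combination e1)
    exact ⟨m', s', by rw [hrs, hm', e7]; simp⟩

end Pool.Agent.MP_95da86_ag
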