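import Pool.Agent.MP_95da86_ag.Place

/-! The fundamental equality and the product formula over an algebraically closed field. -/

namespace Pool.Agent.MP_95da86_ag

open IsDedekindDomain IsDedekindDomain.HeightOneSpectrum WithZero Polynomial

section aux

/-- The order function of a normalised discrete valuation. -/
theorem Fund_aux_val {L : Type} [Field L] (v : Valuation L (WithZero (Multiplicative ℤ))) (π : L)
    (hπ : v π = exp (-1 : ℤ)) :
    ∀ f : L, f ≠ 0 → v f = exp (-ord v.valuationSubring f) := by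
  have h0 : π ≠ 0 := by
    rintro rfl
    rw [map_zero] at hπ
    exact exp_ne_zero hπ.symm
  have key : ∀ f : L, f ≠ 0 → v (f / π ^ (-log (v f))) = 1 := by
    intro f hf
    have hv : v f ≠ 0 := by simpa using hf
    rw [map_div₀, map_zpow₀, hπ, ← exp_zsmul, smul_eq_mul, neg_mul_neg, mul_one, exp_log hv,
      div_self hv]
  have key' : ∀ f : L, f ≠ 0 → f / π ^ (-log (v f)) ∈ v.valuationSubring ∧
      π ^ (-log (v f)) / f ∈ v.valuationSubring := by
    intro f hf
    refine ⟨(key f hf).le, ?_⟩
    rw [← inv_div, Valuation.mem_valuationSubring_iff, map_inv₀, key f hf, inv_one]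
  have hn : π ∈ v.valuationSubring.nonunits := by
    rw [ValuationSubring.mem_nonunits_iff_or]
    right
    rw [Valuation.mem_valuationSubring_iff, map_inv₀, hπ, ← exp_neg, ← exp_zero, exp_le_exp]
    norm_num
  obtain ⟨hd, h1⟩ := dvr_of_unif v.valuationSubring π h0 hn fun f hf => ⟨_, key' f hf⟩
  intro f hf
  have hv : v f ≠ 0 := by simpa using hf
  have h2 : ord v.valuationSubring (f / π ^ (-log (v f))) = 0 :=
    (ord_eq_zero_iff _ _).2 ⟨(key' f hf).1, by rw [inv_div]; exact (key' f hf).2⟩
  rw [ord_div _ hf (zpow_ne_zero _ h0), ord_zpow, h1, mul_one, sub_eq_zero] at h2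
  rw [h2, neg_neg, exp_log hv]

/-- A proper valuation ring containing a Dedekind domain is one of its localisations. -/
theorem Fund_aux_centre {B L : Type} [CommRing B] [IsDedekindDomain B] [Field L] [Algebra B L]
    [IsFractionRing B L] (W : ValuationSubring L) (hW : W ≠ ⊤) (hB : ∀ b : B, algebraMap B L b ∈ W) :
    ∃ w : HeightOneSpectrum B, W = (w.valuation L).valuationSubring := by
  let φ : B →+* W := (algebraMap B L).codRestrict W hB
  let P : Ideal B := (IsLocalRing.maximalIdeal W).comap φ
  have hP : ∀ b : B, b ∉ P → (algebraMap B L b)⁻¹ ∈ W := by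
    intro b hb
    by_contra hc
    apply hb
    have : algebraMap B L b ∈ W.nonunits := by
      rw [ValuationSubring.mem_nonunits_iff_or]; exact Or.inr hc
    exact (ValuationSubring.coe_mem_nonunits_iff (a := φ b)).1 this
  have hP0 : P ≠ ⊥ := by
    intro h0
    apply hW
    rw [eq_top_iff]
    intro x _
    obtain ⟨a, b, hb, rfl⟩ := IsFractionRing.div_surjective (A := B) x
    rw [div_eq_mul_inv]
    refine mul_mem (hB a) (hP b ?_)
    rw [h0]
    exact nonZeroDivisors.ne_zero hb
  let w : HeightOneSpectrum B := ⟨P, Ideal.comap_isPrime φ _, hP0⟩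
  refine ⟨w, ?_⟩
  rw [← valuationSubringAtPrime_eq_valuationSubring]
  refine (ValuationSubring.eq_of_le_of_ne_top _ ?_ hW).symm
  rintro x ⟨a, s, hs, rfl⟩
  exact mul_mem (hB a) (hP s hs)

theorem Fund_aux_nonunits {L L' : Type} [Field L] [Field L'] (φ : L →+* L')
    (V : ValuationSubring L) (V' : ValuationSubring L') (h : ∀ f, φ f ∈ V' ↔ f ∈ V) (f : L) :
    φ f ∈ V'.nonunits ↔ f ∈ V.nonunits := by
  rw [ValuationSubring.mem_nonunits_iff_or, ValuationSubring.mem_nonunits_iff_or, ← map_inv₀, h,
    map_eq_zero]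

theorem Fund_aux_lt {L : Type} [Field L] (v : Valuation L (WithZero (Multiplicative ℤ))) (f : L) :
    f ∈ v.valuationSubring.nonunits ↔ v f < 1 := by
  rw [ValuationSubring.mem_nonunits_iff, ← (Valuation.isEquiv_valuation_valuationSubring v).lt_one_iff_lt_one]

end aux

variable {k M : Type} [Field k] [Field M] [Algebra k M] [CharZero k] [IsAlgClosed k]

/-- The fundamental equality `∑ e = n` (`Ideal.sum_ramification_inertia` for the integral closure
of the discrete valuation ring `V` in `M'`; all residue fields are `k`). -/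
theorem fund_eq {M' : Type} [Field M'] [Algebra k M'] [Algebra M M'] [IsScalarTower k M M']
    (h : IsFF k M) (h' : IsFF k M') (V : Pl k M) :
    ∃ S : Finset (Pl k M'), (∀ V' : Pl k M', V' ∈ S ↔ ∀ f, algebraMap M M' f ∈ V'.1 ↔ f ∈ V.1) ∧
      ∀ f : M, ∑ V' ∈ S, ord V'.1 (algebraMap M M' f) = Module.finrank M M' * ord V.1 f := by
  classical
  have := h.dvr V
  have := h.finite_tower h'
  have : CharZero M := charZero_of_injective_algebraMap (algebraMap k M).injective
  let A := V.1
  let B := integralClosure A M'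
  have : IsDedekindDomain B := integralClosure.isDedekindDomain A M M'
  have : Module.Finite A B := IsIntegralClosure.finite A M M' B
  have : IsFractionRing B M' := IsIntegralClosure.isFractionRing_of_finite_extension A M M' B
  have : Module.IsTorsionFree A M' := .trans_faithfulSMul A M M'
  have : Module.IsTorsionFree A B := IsIntegralClosure.isTorsionFree A M'
  have hrank : Module.finrank A B = Module.finrank M M' := IsIntegralClosure.rank A M M' B
  obtain ⟨v, hv⟩ := Fund_aux_centre (B := A) V.1 V.2.1 fun b => b.2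
  have hvm : v.asIdeal.IsMaximal := v.isMaximal
  have : Fintype (v.asIdeal.primesOver B) := Fintype.ofFinite _
  have hsum := Ideal.sum_ramification_inertia_eq_finrank v.asIdeal B
  let w : v.asIdeal.primesOver B → HeightOneSpectrum B := fun q =>
    ⟨q.1, q.2.1, Ideal.ne_bot_of_mem_primesOver v.ne_bot q.2⟩
  have hover : ∀ q, (w q).asIdeal.LiesOver v.asIdeal := fun q => q.2.2
  have hval : ∀ q (f : M), (w q).valuation M' (algebraMap M M' f) =
      v.valuation M f ^ q.1.ramificationIdx A := by
    intro q f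
    have := hover q
    have := q.2.1
    rw [← valuation_liesOver M' v (w q) f,
      Ideal.ramificationIdx'_eq_ramificationIdx v.asIdeal (w q).asIdeal v.ne_bot]
  have hmem : ∀ q (f : M), algebraMap M M' f ∈ ((w q).valuation M').valuationSubring ↔ f ∈ V.1 := by
    intro q f
    have := q.2.1
    have he : q.1.ramificationIdx A ≠ 0 := (Ideal.ramificationIdx_pos q.1 A).ne'
    rw [Valuation.mem_valuationSubring_iff, hval, pow_le_one_iff he]
    conv_rhs => rw [hv]
    rfl
  let Φ : v.asIdeal.primesOver B → Pl k M' := fun q =>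
    ⟨((w q).valuation M').valuationSubring,
      by simp only [ne_eq, Valuation.valuationSubring_eq_top_iff, not_not]; infer_instance,
      fun c => by rw [IsScalarTower.algebraMap_apply k M M', hmem]; exact V.2.2 c⟩
  have hinj : Function.Injective Φ := by
    intro q q' hq
    have h1 : ((w q).valuation M').valuationSubring = ((w q').valuation M').valuationSubring :=
      congrArg Subtype.val hq
    have h2 := eq_of_valuation_isEquiv_valuation
      ((Valuation.isEquiv_iff_valuationSubring _ _).2 h1)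
    exact Subtype.ext (congrArg HeightOneSpectrum.asIdeal h2)
  have hf1 : ∀ q : v.asIdeal.primesOver B, q.1.inertiaDeg A = 1 := by
    intro q
    have := hover q
    have hqm : q.1.IsMaximal := (w q).isMaximal
    have : q.1.LiesOver v.asIdeal := q.2.2
    rw [Ideal.inertiaDeg_eq_of_isMaximal v.asIdeal q.1]
    refine Module.finrank_of_bijective_algebraMap ⟨FaithfulSMul.algebraMap_injective _ _, ?_⟩
    intro b
    obtain ⟨b, rfl⟩ := Ideal.Quotient.mk_surjective b
    obtain ⟨c, hc⟩ := h'.exists_const (Φ q) (f := algebraMap B M' b)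
      ((w q).valuation_le_one b)
    let a : A := ⟨algebraMap k M c, V.2.2 c⟩
    refine ⟨Ideal.Quotient.mk _ a, ?_⟩
    have h1 : b - algebraMap A B a ∈ (w q).asIdeal := by
      rw [← valuation_lt_one_iff_mem (K := M'), ← Fund_aux_lt]
      rw [IsScalarTower.algebraMap_apply k M M'] at hc
      exact hc
    exact (Ideal.Quotient.eq.2 h1).symm
  refine ⟨Finset.univ.image Φ, fun V' => ⟨?_, fun hV' => ?_⟩, fun f => ?_⟩
  · intro hV'
    obtain ⟨q, -, rfl⟩ := Finset.mem_image.1 hV'
    exact hmem q
  · have hB : ∀ b : B, algebraMap B M' b ∈ V'.1 := by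
      intro b
      let φ : A →+* V'.1 := (algebraMap A M').codRestrict V'.1 fun a => (hV' a).2 a.2
      have hint : IsIntegral V'.1 (algebraMap B M' b) := by
        obtain ⟨p, hp, hb⟩ := b.2
        refine ⟨p.map φ, hp.map φ, ?_⟩
        rw [eval₂_map]
        exact hb
      obtain ⟨y, hy⟩ := IsIntegrallyClosed.isIntegral_iff.1 hint
      rw [← hy]
      exact y.2
    obtain ⟨w', hw'⟩ := Fund_aux_centre V'.1 V'.2.1 hB
    have hl : w'.asIdeal.LiesOver v.asIdeal := by
      refine ⟨Ideal.ext fun a => ?_⟩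
      rw [Ideal.mem_under, ← valuation_lt_one_iff_mem (K := M), ← valuation_lt_one_iff_mem (K := M'),
        ← Fund_aux_lt, ← Fund_aux_lt, ← hw', ← hv]
      exact (Fund_aux_nonunits _ _ _ hV' (a : M)).symm
    exact Finset.mem_image.2 ⟨⟨w'.asIdeal, w'.isPrime, hl⟩, Finset.mem_univ _, Subtype.ext hw'.symm⟩
  · rw [Finset.sum_image fun q _ q' _ e => hinj e, ← hrank, ← hsum]
    push_cast
    rw [Finset.sum_mul]
    refine Finset.sum_congr rfl fun q _ => ?_
    rw [hf1, Nat.cast_one, mul_one]
    by_cases hf : f = 0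
    · have := h'.dvr (Φ q)
      rw [hf, map_zero, ord_zero, ord_zero, mul_zero]
    · obtain ⟨π, hπ⟩ := v.valuation_exists_uniformizer M
      obtain ⟨π', hπ'⟩ := (w q).valuation_exists_uniformizer M'
      have h1 := Fund_aux_val _ π hπ f hf
      have h2 := Fund_aux_val _ π' hπ' (algebraMap M M' f) (by simpa using hf)
      rw [hval, h1, ← hv, ← exp_nsmul, exp_inj, nsmul_eq_mul] at h2
      change ord ((w q).valuation M').valuationSubring _ = _
      linear_combination h2

/-- Sums over places upstairs. -/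
theorem finsum_ext {M' : Type} [Field M'] [Algebra k M'] [Algebra M M'] [IsScalarTower k M M']
    (h : IsFF k M) (h' : IsFF k M') (u : Pl k M' → Pl k M)
    (hu : ∀ V' f, algebraMap M M' f ∈ V'.1 ↔ f ∈ (u V').1) (F : Pl k M → M) :
    ((Function.support fun V' : Pl k M' => ord V'.1 (algebraMap M M' (F (u V')))).Finite ↔
      (Function.support fun V : Pl k M => ord V.1 (F V)).Finite) ∧
    ∑ᶠ V' : Pl k M', ord V'.1 (algebraMap M M' (F (u V'))) =
      Module.finrank M M' * ∑ᶠ V : Pl k M, ord V.1 (F V) := by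
  classical
  choose S hS hsum using fund_eq (M' := M') h h'
  have hS' : ∀ V V', V' ∈ S V ↔ u V' = V := by
    intro V V'
    rw [hS]
    constructor
    · intro e
      exact Subtype.ext (ValuationSubring.ext _ _ fun f => (hu V' f).symm.trans (e f))
    · rintro rfl
      exact hu V'
  have hsupp : (Function.support fun V' : Pl k M' => ord V'.1 (algebraMap M M' (F (u V')))) =
      u ⁻¹' (Function.support fun V : Pl k M => ord V.1 (F V)) := by
    ext V'
    have := h.dvr (u V')
    have := h'.dvr V'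
    obtain ⟨e, he, hr⟩ := exists_ram (algebraMap M M') (u V').1 V'.1 (hu V')
    simp [hr, he.ne']
  have hsurj : Function.Surjective u := by
    intro V
    obtain ⟨V', hV'⟩ := exists_over (M' := M') V
    exact ⟨V', (hS' V V').1 ((hS V V').2 hV')⟩
  have hiff : (Function.support fun V' : Pl k M' => ord V'.1 (algebraMap M M' (F (u V')))).Finite ↔
      (Function.support fun V : Pl k M => ord V.1 (F V)).Finite := by
    rw [hsupp]
    refine ⟨fun hf => hf.of_preimage hsurj, fun hf => hf.preimage' fun V _ => ?_⟩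
    exact (S V).finite_toSet.subset fun V' hV' => (hS' V V').2 hV'
  refine ⟨hiff, ?_⟩
  by_cases hf : (Function.support fun V : Pl k M => ord V.1 (F V)).Finite
  · rw [finsum_eq_sum _ hf, finsum_eq_sum_of_support_subset _ (s := hf.toFinset.biUnion S) ?_,
      Finset.sum_biUnion ?_, Finset.mul_sum]
    · refine Finset.sum_congr rfl fun V _ => ?_
      rw [← hsum]
      refine Finset.sum_congr rfl fun V' hV' => ?_
      rw [(hS' V V').1 hV']
    · intro V _ W _ hne
      refine Finset.disjoint_left.2 fun V' h1 h2 => hne ?_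
      rw [← (hS' V V').1 h1, ← (hS' W V').1 h2]
    · rw [hsupp]
      intro V' hV'
      exact Finset.mem_coe.2 (Finset.mem_biUnion.2 ⟨u V', hf.mem_toFinset.2 hV', (hS' _ _).2 rfl⟩)
  · rw [finsum_of_infinite_support hf, finsum_of_infinite_support (fun h1 => hf (hiff.1 h1)),
      mul_zero]

omit [CharZero k] [IsAlgClosed k] in
/-- A polynomial in `t` is a power of `t` times a unit at every zero of `t`. -/
theorem Fund_aux_poly {t : M} (ht : Transcendental k t) {p : k[X]} (hp : p ≠ 0) :
    ∃ (n : ℕ) (g : M), g ≠ 0 ∧ aeval t p = t ^ n * g ∧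
      ∀ V : Pl k M, t ∈ V.1.nonunits → g ∈ V.1 ∧ g⁻¹ ∈ V.1 := by
  obtain ⟨q, hq, hd⟩ := exists_eq_pow_rootMultiplicity_mul_and_not_dvd p hp 0
  rw [map_zero, sub_zero] at hq hd
  have hq0 : q ≠ 0 := by rintro rfl; exact hd (dvd_zero _)
  refine ⟨p.rootMultiplicity 0, aeval t q, fun h0 => ht ⟨q, hq0, h0⟩, ?_, fun V hV => ?_⟩
  · conv_lhs => rw [hq]
    simp
  · have htV : t ∈ V.1 := V.1.nonunits_subset hV
    have hall : ∀ r : k[X], aeval t r ∈ V.1 := by
      intro r
      induction r using Polynomial.induction_on' with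
      | add a b ha hb => rw [map_add]; exact add_mem ha hb
      | monomial n c => rw [aeval_monomial]; exact mul_mem (V.2.2 c) (pow_mem htV n)
    refine ⟨hall q, ?_⟩
    by_contra hc
    have h1 : aeval t q ∈ V.1.nonunits := by
      rw [ValuationSubring.mem_nonunits_iff_or]; exact Or.inr hc
    have h2 : aeval t q.divX * t ∈ V.1.nonunits := by
      rw [ValuationSubring.mem_nonunits_iff, map_mul]
      exact mul_lt_one_of_nonneg_of_lt_one_right ((V.1.valuation_le_one_iff _).2 (hall _))
        zero_le (V.1.mem_nonunits_iff.1 hV)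
    have h3 : algebraMap k M (q.coeff 0) = aeval t q - aeval t q.divX * t := by
      conv_rhs => enter [1]; rw [← divX_mul_X_add q]
      simp
    have h4 := sub_mem h1 h2
    rw [← h3, ValuationSubring.mem_nonunits_iff_or, ← map_inv₀] at h4
    rcases h4 with h4 | h4
    · exact hd (X_dvd_iff.2 (by simpa using h4))
    · exact h4 (V.2.2 _)

omit [CharZero k] [IsAlgClosed k] in
/-- In `k(t)` the function `t` has exactly one zero, and it is simple. -/
theorem Fund_aux_zero {t : M} (ht : Transcendental k t)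
    (hgen : IntermediateField.adjoin k {t} = ⊤) :
    ∃ V₀ : Pl k M, ord V₀.1 t = 1 ∧ ∀ V : Pl k M, t ∈ V.1.nonunits → V = V₀ := by
  have ht0 : t ≠ 0 := by rintro rfl; exact ht isAlgebraic_zero
  have key : ∀ f : M, f ≠ 0 → ∃ n : ℤ, ∀ V : Pl k M, t ∈ V.1.nonunits →
      f / t ^ n ∈ V.1 ∧ t ^ n / f ∈ V.1 := by
    intro f hf
    obtain ⟨r, s, rfl⟩ := (IntermediateField.mem_adjoin_simple_iff k (α := t) f).1
      (hgen ▸ IntermediateField.mem_top)
    have hr : r ≠ 0 := by rintro rfl; simp at hf
    have hs : s ≠ 0 := by rintro rfl; simp at hf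
    obtain ⟨a, g, hg0, hg, hgV⟩ := Fund_aux_poly ht hr
    obtain ⟨b, g', hg0', hg', hgV'⟩ := Fund_aux_poly ht hs
    refine ⟨a - b, fun V hV => ?_⟩
    have e : aeval t r / aeval t s / t ^ ((a : ℤ) - b) = g * g'⁻¹ := by
      rw [hg, hg', zpow_sub₀ ht0, zpow_natCast, zpow_natCast]
      field_simp
    refine ⟨by rw [e]; exact mul_mem (hgV V hV).1 (hgV' V hV).2, ?_⟩
    rw [← inv_div, e, mul_inv, inv_inv]
    exact mul_mem (hgV V hV).2 (hgV' V hV).1
  have hone : ∀ V : Pl k M, t ∈ V.1.nonunits →
      IsDiscreteValuationRing V.1 ∧ ord V.1 t = 1 := fun V hV =>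
    dvr_of_unif V.1 t ht0 hV fun f hf => (key f hf).imp fun n hn => hn V hV
  have hmem : ∀ f : M, f ≠ 0 → ∃ n : ℤ, ∀ V : Pl k M, t ∈ V.1.nonunits → (f ∈ V.1 ↔ 0 ≤ n) := by
    intro f hf
    obtain ⟨n, hn⟩ := key f hf
    refine ⟨n, fun V hV => ?_⟩
    obtain ⟨hd, h1⟩ := hone V hV
    have h2 : ord V.1 (f / t ^ n) = 0 :=
      (ord_eq_zero_iff _ _).2 ⟨(hn V hV).1, by rw [inv_div]; exact (hn V hV).2⟩
    rw [ord_div _ hf (zpow_ne_zero _ ht0), ord_zpow, h1, mul_one, sub_eq_zero] at h2
    rw [← ord_nonneg_iff, h2]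
  obtain ⟨V₀, hV₀⟩ := exists_pole (k := k) (f := t⁻¹) fun ha => ht (IsAlgebraic.inv_iff.1 ha)
  have hn : t ∈ V₀.1.nonunits := by
    rw [ValuationSubring.mem_nonunits_iff_or]; exact Or.inr hV₀
  refine ⟨V₀, (hone V₀ hn).2, fun V hV => Subtype.ext (ValuationSubring.ext _ _ fun f => ?_)⟩
  by_cases hf : f = 0
  · simp [hf]
  · obtain ⟨n, h1⟩ := hmem f hf
    rw [h1 V hV, h1 V₀ hn]

omit [IsAlgClosed k] in
theorem Fund_aux_rat (h : IsFF k M) {t : M} (ht : Transcendental k t)
    (hgen : IntermediateField.adjoin k {t} = ⊤) : ∑ᶠ V : Pl k M, ord V.1 t = 0 := by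
  classical
  have ht0 : t ≠ 0 := by rintro rfl; exact ht isAlgebraic_zero
  have hgen' : IntermediateField.adjoin k {t⁻¹} = ⊤ := by
    rw [eq_top_iff, ← hgen, IntermediateField.adjoin_simple_le_iff]
    simpa using inv_mem (IntermediateField.mem_adjoin_simple_self k t⁻¹)
  obtain ⟨V₀, h0, hu0⟩ := Fund_aux_zero ht hgen
  obtain ⟨V₁, h1, hu1⟩ := Fund_aux_zero (t := t⁻¹) (fun ha => ht (IsAlgebraic.inv_iff.1 ha)) hgen'
  have := h.dvr V₁
  rw [ord_inv] at h1
  have hne : V₀ ≠ V₁ := by
    rintro rfl
    omega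
  rw [finsum_eq_sum_of_support_subset _ (s := {V₀, V₁}) ?_, Finset.sum_pair hne]
  · omega
  · intro V hV
    have := h.dvr V
    have hV' : ord V.1 t ≠ 0 := hV
    rcases lt_or_gt_of_ne hV' with h2 | h2
    · have : 0 < ord V.1 t⁻¹ := by rw [ord_inv]; omega
      rw [hu1 V ((ord_pos_iff _ (inv_ne_zero ht0)).1 this)]
      simp
    · rw [hu0 V ((ord_pos_iff _ ht0).1 h2)]
      simp

/-- The product formula: for `f` transcendental apply `finsum_ext` to `k(f) ⊂ M`; in `k(f)` the
element `f` has exactly one zero and one pole, both simple. -/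
theorem IsFF.sum_ord (h : IsFF k M) (f : M) : ∑ᶠ V : Pl k M, ord V.1 f = 0 := by
  by_cases hf : IsAlgebraic k f
  · obtain ⟨c, rfl⟩ := (IsAlgClosed.algebraMap_bijective_of_isIntegral (k := k)
      (K := algebraicClosure k M)).2 ⟨f, (mem_algebraicClosure_iff).2 hf⟩ |>.imp
        fun c hc => congrArg Subtype.val hc
    refine finsum_eq_zero_of_forall_eq_zero fun V => ?_
    have := h.dvr V
    refine (ord_eq_zero_iff _ _).2 ⟨V.2.2 c, ?_⟩
    have := V.2.2 c⁻¹
    rwa [map_inv₀] at this
  · let N := IntermediateField.adjoin k {f}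
    let t : N := IntermediateField.AdjoinSimple.gen k f
    have ht : Transcendental k t := fun ha => hf (ha.algHom N.val)
    have hN : IsFF k N := h.of_algHom N.val ht
    have := hN.finite_tower h
    choose u hu using exists_under (k := k) (M := N) (M' := M)
    have hgen : IntermediateField.adjoin k {t} = ⊤ := by
      apply IntermediateField.map_injective N.val
      rw [IntermediateField.adjoin_map, ← AlgHom.fieldRange_eq_map, IntermediateField.fieldRange_val,
        Set.image_singleton]
      rfl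
    have := (finsum_ext hN h u hu fun _ => t).2
    rw [Fund_aux_rat hN ht hgen, mul_zero] at this
    exact this

end Pool.Agent.MP_95da86_ag
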