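import Pool.Agent.MP_95da86_ag.HeightA
import Pool.Agent.MP_95da86_ag.Fund
import Pool.Agent.MP_95da86_ag.QF

/-! Heights of points over function fields: the exact parallelogram law. -/

namespace Pool.Agent.MP_95da86_ag

variable {M : Type} [Field M] [Algebra ℂ M]

variable {k : Type} [Field k] [Algebra ℂ k] [Algebra k M] [IsScalarTower ℂ k M]

theorem IsFF.lam_fin (h : IsFF k M) (Q : EP M) :
    (Function.support fun V : Pl k M => lam V.1 Q).Finite := by
  have := charZero_of k
  refine (h.ord_fin (yc Q)).subset fun V hV h0 => hV ?_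
  simp only [lam] at h0 ⊢
  rw [h0]; rfl

theorem ht_nonneg (Q : EP M) : 0 ≤ ht k Q := finsum_nonneg fun V => lam_nonneg V.1 Q

theorem Height_aux_zero (h : IsFF k M) {Q : EP M} (hQ : ∀ V : Pl k M, yc Q ∈ V.1) :
    ht k Q = 0 := by
  have := charZero_of k
  refine finsum_eq_zero_of_forall_eq_zero fun V => ?_
  have := h.dvr V
  exact le_antisymm (not_lt.1 fun hp => (lam_pos_iff V.1 Q).1 hp (hQ V)) (lam_nonneg V.1 Q)

theorem ht_zero (h : IsFF k M) : ht k (0 : EP M) = 0 :=
  Height_aux_zero h fun V => by rw [yc_zero]; exact zero_mem _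

theorem ht_neg (h : IsFF k M) (Q : EP M) : ht k (-Q) = ht k Q := by
  have := charZero_of k
  refine finsum_congr fun V => ?_
  have := h.dvr V
  rw [lam, lam, yc_neg, ord_neg]

theorem ht_om (Q : EP M) : ht k (om • Q) = ht k Q :=
  finsum_congr fun V => by rw [lam, lam, yc_om]

theorem Height_aux_const (V : Pl k M) (c : ℂ) : algebraMap ℂ M c ∈ V.1 := by
  rw [IsScalarTower.algebraMap_apply ℂ k M]; exact V.2.2 _

theorem Height_aux_sum {ι : Type} {f g : ι → ℤ} (hf : (Function.support f).Finite)
    (hg : (Function.support g).Finite) (a b : ℤ) :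
    (Function.support fun i => a * f i + b * g i).Finite ∧
      ∑ᶠ i, (a * f i + b * g i) = a * ∑ᶠ i, f i + b * ∑ᶠ i, g i := by
  have h1 : (Function.support fun i => a * f i).Finite :=
    hf.subset fun i hi h0 => hi (by simp only [h0, mul_zero])
  have h2 : (Function.support fun i => b * g i).Finite :=
    hg.subset fun i hi h0 => hi (by simp only [h0, mul_zero])
  refine ⟨(h1.union h2).subset (Function.support_add _ _), ?_⟩
  rw [finsum_add_distrib h1 h2, mul_finsum f a, mul_finsum g b]

theorem Height_aux_ord {N : Type} [Field N] (V : ValuationSubring N) [IsDiscreteValuationRing V]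
    (y : N) [Decidable (y ∈ V)] : ord V (if y ∈ V then 1 else y⁻¹) = max 0 (-ord V y) := by
  have := ord_nonneg_iff V y
  split_ifs with hy
  · rw [ord_one, max_eq_left (by simpa using this.2 hy)]
  · rw [ord_inv, max_eq_right (by have := this.not.2 hy; omega)]

variable [IsAlgClosed k]

theorem Height_aux_dbl (h : IsFF k M) (P : EP M) : ht k (P + P) = 4 * ht k P := by
  have := charZero_of k
  by_cases hy : yc P = 0
  · have h1 : P + P = 0 := by
      by_cases hP : P = 0
      · simp [hP]
      · rw [add_eq_zero_iff_eq_neg]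
        exact EP.ext' hP (neg_ne_zero.2 hP) (xc_neg P).symm (by rw [yc_neg, hy, neg_zero])
    rw [h1, ht_zero h, Height_aux_zero h fun V => by rw [hy]; exact zero_mem _, mul_zero]
  · have h1 := (Height_aux_sum (h.lam_fin P) (h.ord_fin (yc P)) 4 3).2
    rw [h.sum_ord, mul_zero, add_zero] at h1
    rw [ht, ht, ← h1]
    refine finsum_congr fun V => ?_
    have := h.dvr V
    exact lam_dbl V.1 (Height_aux_const V) hy

theorem ht_par (h : IsFF k M) (P Q : EP M) :
    ht k (P + Q) + ht k (P - Q) = 2 * ht k P + 2 * ht k Q := by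
  have := charZero_of k
  by_cases hP : P = 0
  · rw [hP, zero_add, zero_sub, ht_neg h, ht_zero h]; ring
  by_cases hQ : Q = 0
  · rw [hQ, add_zero, sub_zero, ht_zero h]; ring
  by_cases hx : xc P = xc Q
  · have h1 : (yc P - yc Q) * (yc P + yc Q) = 0 := by
      have e1 := eqn_of_ne hP
      have e2 := eqn_of_ne hQ
      rw [hx] at e1
      linear_combination e1 - e2
    rcases mul_eq_zero.1 h1 with h2 | h2
    · obtain rfl : P = Q := EP.ext' hP hQ hx (sub_eq_zero.1 h2)
      rw [sub_self, ht_zero h, Height_aux_dbl h]; ring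
    · obtain rfl : P = -Q := EP.ext' hP (neg_ne_zero.2 hQ) (by rw [xc_neg, hx])
        (by rw [yc_neg]; linear_combination h2)
      rw [neg_add_cancel, ht_zero h, sub_eq_add_neg, Height_aux_dbl h, ht_neg h]; ring
  · obtain ⟨h1, h2⟩ := Height_aux_sum (h.lam_fin P) (h.lam_fin Q) 2 2
    have h3 := (Height_aux_sum h1 (h.ord_fin (xc P - xc Q)) 1 3).2
    have h4 := (Height_aux_sum (h.lam_fin (P + Q)) (h.lam_fin (P - Q)) 1 1).2
    rw [h.sum_ord, h2] at h3
    simp only [one_mul, mul_zero, add_zero] at h3 h4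
    rw [ht, ht, ht, ht, ← h3, ← h4]
    refine finsum_congr fun V => ?_
    have := h.dvr V
    exact lam_par V.1 (Height_aux_const V) hP hQ hx

theorem ht_eq_zero (h : IsFF k M) (Q : EP M) : ht k Q = 0 ↔ ∃ c : EP k, Q = up k M c := by
  have := charZero_of k
  constructor
  · intro h0
    have h1 : ∀ V : Pl k M, lam V.1 Q = 0 := fun V => le_antisymm
      (h0 ▸ single_le_finsum V (h.lam_fin Q) fun W => lam_nonneg W.1 Q) (lam_nonneg V.1 Q)
    obtain ⟨a, ha⟩ := const_of_no_pole (k := k) (f := xc Q) fun V => by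
      have := h.dvr V
      have h2 := two_lam V.1 Q
      rw [h1] at h2
      rw [← ord_nonneg_iff]
      omega
    obtain ⟨b, hb⟩ := const_of_no_pole (k := k) (f := yc Q) fun V => by
      have := h.dvr V
      by_contra hc
      exact ((lam_pos_iff V.1 Q).2 hc).ne' (h1 V)
    exact exists_up ⟨a, ha.symm⟩ ⟨b, hb.symm⟩
  · rintro ⟨c, rfl⟩
    exact Height_aux_zero h fun V => by rw [up, yc_emap]; exact V.2.2 _

theorem Height_aux_le (h : IsFF k M) (Q : EP M) (c : EP k) : ht k Q ≤ ht k (Q + up k M c) := by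
  set C := up k M c with hC
  have h0 : ht k C = 0 := (ht_eq_zero h C).2 ⟨c, rfl⟩
  have h1 : ∀ n : ℕ, ht k (Q + n • C) = ht k Q + n * (ht k (Q + C) - ht k Q) ∧
      ht k (Q + (n + 1) • C) = ht k Q + (n + 1) * (ht k (Q + C) - ht k Q) := by
    intro n
    induction n with
    | zero => simp
    | succ n ih =>
      refine ⟨by rw [ih.2]; push_cast; ring, ?_⟩
      have h2 := ht_par h (Q + (n + 1) • C) C
      rw [show Q + (n + 1) • C + C = Q + (n + 1 + 1) • C by rw [succ_nsmul C (n + 1), add_assoc],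
        show Q + (n + 1) • C - C = Q + n • C by rw [succ_nsmul]; abel, ih.1, ih.2, h0] at h2
      push_cast
      linear_combination h2
  by_contra hc
  have h2 := (h1 ((ht k Q).toNat + 1)).1
  have h3 := ht_nonneg (k := k) (Q + ((ht k Q).toNat + 1) • C)
  have h4 := ht_nonneg (k := k) Q
  rw [h2] at h3
  push_cast at h3
  rw [Int.toNat_of_nonneg h4] at h3
  nlinarith

/-- `n ↦ ht (Q + n c)` is a non-negative affine function of `n ∈ ℤ`. -/
theorem ht_add_up (h : IsFF k M) (Q : EP M) (c : EP k) : ht k (Q + up k M c) = ht k Q := by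
  have h1 := Height_aux_le h (Q + up k M c) (-c)
  rw [map_neg, add_neg_cancel_right] at h1
  exact le_antisymm h1 (Height_aux_le h Q c)

theorem Height_aux_qf (h : IsFF k M) (φ : Fin 3 → EP M) :
    IsQF fun l => (ht k (lin l φ) : ℝ) where
  par a b := by
    have e1 : lin (a + b) φ = lin a φ + lin b φ := by
      simp only [lin, Pi.add_apply, add_smul, Finset.sum_add_distrib]
    have e2 : lin (a - b) φ = lin a φ - lin b φ := by
      simp only [lin, Pi.sub_apply, sub_smul, Finset.sum_sub_distrib]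
    rw [e1, e2]
    exact_mod_cast ht_par h _ _
  rot a := by
    have e : lin (om • a) φ = om • lin a φ := by
      simp only [lin, Pi.smul_apply, smul_eq_mul, mul_smul, Finset.smul_sum]
    rw [e, ht_om]

theorem ht_smul (h : IsFF k M) (a : Zw) (Q : EP M) : ht k (a • Q) = nm a * ht k Q := by
  have h1 := (Height_aux_qf h fun _ => Q).smul a (Pi.single 0 1)
  have e1 : lin (a • Pi.single 0 1) (fun _ => Q) = a • Q := by simp [lin, Fin.sum_univ_three]
  have e2 : lin (Pi.single 0 1) (fun _ => Q) = Q := by simp [lin]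
  simp only [e1, e2] at h1
  exact_mod_cast h1

theorem ht_up {M' : Type} [Field M'] [Algebra ℂ M'] [Algebra k M'] [Algebra M M']
    [IsScalarTower ℂ k M'] [IsScalarTower ℂ M M'] [IsScalarTower k M M'] (h : IsFF k M)
    (h' : IsFF k M') (Q : EP M) : ht k (up M M' Q) = Module.finrank M M' * ht k Q := by
  classical
  have := charZero_of k
  have := h.finite_tower h'
  choose u hu using fun V' : Pl k M' => exists_under (M := M) V'
  have h1 := (finsum_ext h h' u hu fun V => if yc Q ∈ V.1 then 1 else (yc Q)⁻¹).2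
  have e1 : ∀ V : Pl k M, ord V.1 (if yc Q ∈ V.1 then 1 else (yc Q)⁻¹) = lam V.1 Q := fun V => by
    have := h.dvr V
    exact Height_aux_ord V.1 _
  have e2 : ∀ V' : Pl k M', ord V'.1 (algebraMap M M'
      (if yc Q ∈ (u V').1 then 1 else (yc Q)⁻¹)) = lam V'.1 (up M M' Q) := fun V' => by
    have := h'.dvr V'
    have e : yc (up M M' Q) = algebraMap M M' (yc Q) := yc_emap _ _
    rw [lam, e, ← Height_aux_ord]
    simp only [hu, apply_ite (algebraMap M M'), map_one, map_inv₀]
  simp only [e1, e2] at h1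
  exact h1

theorem isQF_ht (h : IsFF k M) (φ : Fin 3 → EP M) : IsQF fun l => (ht k (lin l φ) : ℝ) :=
  Height_aux_qf h φ

end Pool.Agent.MP_95da86_ag
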