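import Pool.Agent.MP_95da86_ag.Der
import Pool.Agent.MP_95da86_ag.Height
import Pool.Agent.MP_95da86_ag.EndAlg

/-! The points of the curve over its function field. -/

namespace Pool.Agent.MP_95da86_ag

variable {F M : Type} [Field F] [Field M] [Algebra ℂ F] [Algebra ℂ M] [Algebra F M]
  [IsScalarTower ℂ F M] {P : EP M}

theorem End_aux_xc (c : EP F) : xc (up F M c) = algebraMap F M (xc c) := xc_emap _ _

theorem End_aux_yc (c : EP F) : yc (up F M c) = algebraMap F M (yc c) := yc_emap _ _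

theorem End_aux_up (hP : Gen F P) {Q : EP M} (hx : IsAlgebraic F (xc Q)) :
    ∃ c : EP F, Q = up F M c := by
  refine exists_up (hP.algClosed hx) (hP.algClosed ?_)
  by_cases h : Q = 0
  · rw [h, yc_zero]; exact isAlgebraic_zero
  · have h2 : IsAlgebraic F (yc Q ^ 2) := by
      rw [eqn_of_ne h]
      exact (hx.pow 3).add isAlgebraic_one
    exact h2.of_pow (by norm_num)

theorem End_aux_lift (hP : Gen F P) (Q : EP M) : (∃ c : EP F, Q = up F M c) ∨
    ∃ φ : M →ₐ[F] M, emap (φ.restrictScalars ℂ) P = Q := by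
  by_cases hx : IsAlgebraic F (xc Q)
  · exact Or.inl (End_aux_up hP hx)
  · refine Or.inr (hP.lift (fun h => hx ?_) hx)
    rw [h, xc_zero]; exact isAlgebraic_zero

theorem End_aux_ht [IsAlgClosed F] (h : IsFF F M) (φ : M →ₐ[F] M) :
    ∃ n : ℤ, ∀ R : EP M, ht F (emap (φ.restrictScalars ℂ) R) = n * ht F R := by
  let A : Algebra M M := φ.toRingHom.toAlgebra
  have t1 : @IsScalarTower ℂ M M _ A.toSMul _ :=
    @IsScalarTower.of_algebraMap_eq ℂ M M _ _ _ _ A _ fun c =>
      ((φ.restrictScalars ℂ).commutes c).symm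
  have t2 : @IsScalarTower F M M _ A.toSMul _ :=
    @IsScalarTower.of_algebraMap_eq F M M _ _ _ _ A _ fun c => (φ.commutes c).symm
  exact ⟨_, fun R => @ht_up M _ _ F _ _ _ _ _ M _ _ _ A _ t1 t2 h h R⟩

theorem End_aux_dl (hP : Gen F P) {D : Derivation F M M} (hD : dl D P = 1) (φ : M →ₐ[F] M)
    (R : EP M) : dl D (emap (φ.restrictScalars ℂ) R) =
      dl D (emap (φ.restrictScalars ℂ) P) * φ (dl D R) := by
  have e : dl D (emap (φ.restrictScalars ℂ) R) = D (φ (xc R)) / φ (yc R) := by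
    rw [dl, xc_emap, yc_emap]; rfl
  rw [e, hP.der_comp hD, dl.eq_1 D R, map_div₀, mul_div_assoc]

theorem End_aux_dl_zero (D : Derivation F M M) : dl D (0 : EP M) = 0 := by simp [dl]

theorem End_aux_dl_sub (D : Derivation F M M) (Q R : EP M) : dl D (Q - R) = dl D Q - dl D R := by
  rw [sub_eq_add_neg, dl_add, dl_neg, sub_eq_add_neg]

/-- `dl D Q` has no pole, so it is a constant `c Q ∈ F`. The constants form a subring `S`
(for non-constant `Q` take `φ` with `φ P = Q` from `Gen.lift`; `c (φ R) = c Q * c R` by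
`der_comp`). `N (c Q) = ht Q / ht P` is well defined (`up_of_dl`, `ht_add_up`), an integer
(`ht (φ R) = [M : φ M] ht R` by `ht_up` for the algebra structure given by `φ`), multiplicative,
and satisfies the parallelogram law. Apply `end_alg`. -/
theorem Gen.end_closed [IsAlgClosed F] (hP : Gen F P) (Q : EP M) :
    ∃ (a : Zw) (c : EP F), Q = a • P + up F M c := by
  classical
  have := charZero_of F
  obtain ⟨D, hD⟩ := hP.exists_der
  have hF := hP.isFF
  have inj := (algebraMap F M).injective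
  have h0 : ht F P ≠ 0 := fun h => by
    obtain ⟨c, hc⟩ := (ht_eq_zero hF P).1 h
    refine hP.tr ?_
    rw [hc, End_aux_xc]
    exact isAlgebraic_algebraMap _
  have mul : ∀ (φ : M →ₐ[F] M) (R : EP M) (a b : F),
      dl D (emap (φ.restrictScalars ℂ) P) = algebraMap F M a → dl D R = algebraMap F M b →
      dl D (emap (φ.restrictScalars ℂ) R) = algebraMap F M (a * b) := fun φ R a b ha hb => by
    rw [End_aux_dl hP hD, ha, hb, φ.commutes, map_mul]
  have cst0 : ∀ (c : EP F) (a : F), dl D (up F M c) = algebraMap F M a → a = 0 := fun c a h =>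
    inj (by rw [← h, dl_up, map_zero])
  let S : Subring F :=
    { carrier := {a | ∃ R : EP M, dl D R = algebraMap F M a}
      mul_mem' := by
        rintro a b ⟨R, hR⟩ ⟨R', hR'⟩
        rcases End_aux_lift hP R with ⟨c, rfl⟩ | ⟨φ, rfl⟩
        · exact ⟨0, by rw [cst0 c a hR, zero_mul, map_zero, End_aux_dl_zero]⟩
        · exact ⟨_, mul φ R' a b hR hR'⟩
      one_mem' := ⟨P, by rw [hD, map_one]⟩
      add_mem' := by
        rintro a b ⟨R, hR⟩ ⟨R', hR'⟩
        exact ⟨R + R', by rw [dl_add, hR, hR', map_add]⟩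
      zero_mem' := ⟨0, by rw [End_aux_dl_zero, map_zero]⟩
      neg_mem' := by
        rintro a ⟨R, hR⟩
        exact ⟨-R, by rw [dl_neg, hR, map_neg]⟩ }
  have hN : ∀ a : F, ∃ n : ℤ, ∀ R : EP M, dl D R = algebraMap F M a → ht F R = n * ht F P := by
    intro a
    by_cases ha : ∃ R : EP M, dl D R = algebraMap F M a
    · obtain ⟨R₀, hR₀⟩ := ha
      have h1 : ∃ n : ℤ, ht F R₀ = n * ht F P := by
        rcases End_aux_lift hP R₀ with ⟨c, hc⟩ | ⟨φ, rfl⟩
        · exact ⟨0, by rw [zero_mul]; exact (ht_eq_zero hF R₀).2 ⟨c, hc⟩⟩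
        · obtain ⟨n, hn⟩ := End_aux_ht hF φ
          exact ⟨n, hn P⟩
      obtain ⟨n, hn⟩ := h1
      refine ⟨n, fun R hR => ?_⟩
      obtain ⟨c, hc⟩ := hP.up_of_dl hD (Q := R - R₀) (by rw [End_aux_dl_sub, hR, hR₀, sub_self])
      rw [show R = R₀ + up F M c by rw [← hc]; abel, ht_add_up hF, hn]
    · exact ⟨0, fun R hR => absurd ⟨R, hR⟩ ha⟩
  choose N hN using hN
  have N0 : N 0 = 0 := by
    have := hN 0 0 (by rw [End_aux_dl_zero, map_zero])
    rw [ht_zero hF] at this
    exact (mul_eq_zero.1 this.symm).resolve_right h0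
  have hz : zt M = algebraMap F M (zt F) := by
    rw [zt, zt, ← IsScalarTower.algebraMap_apply]
  have key := end_alg (zt F) zt_quad S ⟨om • P, by rw [dl_om, hD, mul_one, hz]⟩ N
    (by
      rintro a ⟨R, hR⟩ b ⟨R', hR'⟩
      have e := ht_par hF R R'
      rw [hN (a + b) (R + R') (by rw [dl_add, hR, hR', map_add]),
        hN (a - b) (R - R') (by rw [End_aux_dl_sub, hR, hR', map_sub]), hN a R hR,
        hN b R' hR'] at e
      exact mul_right_cancel₀ h0 (by linear_combination e))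
    (by
      rintro a ⟨R, hR⟩ b ⟨R', hR'⟩
      rcases End_aux_lift hP R with ⟨c, rfl⟩ | ⟨φ, rfl⟩
      · rw [cst0 c a hR, zero_mul, N0, zero_mul]
      · obtain ⟨n, hn⟩ := End_aux_ht hF φ
        have e₁ := hN a _ hR
        have e₂ := hN (a * b) _ (mul φ R' a b hR hR')
        rw [hn] at e₁ e₂
        rw [hN b R' hR', mul_right_cancel₀ h0 e₁, ← mul_assoc] at e₂
        exact (mul_right_cancel₀ h0 e₂).symm)
    (by
      have e := hN 1 P (by rw [hD, map_one])
      exact mul_right_cancel₀ h0 (by rw [← e, one_mul]))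
    (by
      rintro a ⟨R, hR⟩ ha
      have e := hN a R hR
      rw [ha, zero_mul] at e
      obtain ⟨c, rfl⟩ := (ht_eq_zero hF R).1 e
      exact cst0 c a hR)
  obtain ⟨a, ha⟩ := const_of_no_pole (k := F) fun V => hP.dl_mem hD V Q
  obtain ⟨m, n, hmn⟩ := key a ⟨Q, ha⟩
  obtain ⟨c, hc⟩ := hP.up_of_dl hD (Q := Q - (⟨m, n⟩ : Zw) • P) (by
    rw [End_aux_dl_sub, dl_smul, hD, ha, hmn, hz]
    simp)
  exact ⟨⟨m, n⟩, c, by rw [← hc]; abel⟩

theorem End_aux_any {F' M' : Type} [Field F'] [Field M'] [Algebra ℂ F'] [Algebra ℂ M']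
    [Algebra F' M'] [IsScalarTower ℂ F' M'] [Algebra F F'] [IsScalarTower ℂ F F']
    [Algebra.IsAlgebraic F F'] [IsAlgClosed F'] {P' : EP M'} (hP' : Gen F' P')
    (hP : Gen F P) (Q : EP M) : ∃ (a : Zw) (c : EP F), Q = a • P + up F M c := by
  let A : Algebra F M' := ((algebraMap F' M').comp (algebraMap F F')).toAlgebra
  have t1 : IsScalarTower F F' M' := IsScalarTower.of_algebraMap_eq fun _ => rfl
  have t2 : IsScalarTower ℂ F M' := IsScalarTower.of_algebraMap_eq fun c => by
    rw [IsScalarTower.algebraMap_apply F F' M', ← IsScalarTower.algebraMap_apply ℂ F F',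
      ← IsScalarTower.algebraMap_apply ℂ F' M']
  obtain ⟨φ, hφ⟩ := hP.lift hP'.ne (hP'.tr.of_tower_top F)
  obtain ⟨a, c, hc⟩ := hP'.end_closed (emap (φ.restrictScalars ℂ) Q)
  have e : emap (φ.restrictScalars ℂ) (Q - a • P) = up F' M' c := by
    rw [map_sub, map_smul, hφ, hc]; abel
  have hx : IsAlgebraic F (xc (Q - a • P)) := by
    refine (isAlgebraic_algHom_iff φ φ.toRingHom.injective).1 ?_
    have e' : φ (xc (Q - a • P)) = algebraMap F' M' (xc c) := by
      rw [← End_aux_xc, ← e, xc_emap]; rfl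
    rw [e']
    exact (Algebra.IsAlgebraic.isAlgebraic (R := F) (xc c)).algebraMap
  obtain ⟨c₀, hc₀⟩ := End_aux_up hP hx
  exact ⟨a, c₀, by rw [← hc₀]; abel⟩

/-- Embed `M` over `F` into the function field over an algebraic closure (`exists_gen`,
`Gen.lift`); the coordinates of `Q - a • P` are algebraic over `F`; use `algClosed`, `exists_up`. -/
theorem Gen.end_any (hP : Gen F P) (Q : EP M) : ∃ (a : Zw) (c : EP F), Q = a • P + up F M c := by
  obtain ⟨P', hP'⟩ := exists_gen (AlgebraicClosure F)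
  exact End_aux_any hP' hP Q

end Pool.Agent.MP_95da86_ag
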