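import Pool.Agent.MP_95da86_ag.Gen
import Pool.Agent.MP_95da86_ag.Height

/-! Riemann-Roch on the generic fibre. -/

namespace Pool.Agent.MP_95da86_ag

variable {F M : Type} [Field F] [Field M] [Algebra ℂ F] [Algebra ℂ M] [Algebra F M]
  [IsScalarTower ℂ F M] {P : EP M}

open Polynomial WeierstrassCurve.Affine in
theorem RR_aux_codim {F : Type} [Field F] (W : WeierstrassCurve.Affine F)
    (I : Ideal W.CoordinateRing) (hI : I ≠ ⊥) :
    ∃ g ∈ I, g ≠ 0 ∧ ∀ a ∈ I, ¬ g ∣ a → ∀ b ∈ I, ∃ c : F, g ∣ b - c • a := by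
  have : FiniteDimensional F (W.CoordinateRing ⧸ I) :=
    Module.Finite.equiv (Ideal.quotientEquivDirectSum F (CoordinateRing.basis W) hI).symm
  obtain ⟨n, hn⟩ : ∃ n, n = Module.finrank F (W.CoordinateRing ⧸ I) := ⟨_, rfl⟩
  let ψ : (degreeLT F ((n + 1) / 2 + 1) × degreeLT F (n / 2)) →ₗ[F] W.CoordinateRing :=
    { toFun := fun z => (z.1 : F[X]) • 1 + (z.2 : F[X]) • CoordinateRing.mk W X
      map_add' := fun z w => by
        simp only [Prod.fst_add, Prod.snd_add, Submodule.coe_add, add_smul]; abel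
      map_smul' := fun c z => by
        simp only [Prod.smul_fst, Prod.smul_snd, Submodule.coe_smul, RingHom.id_apply, smul_add,
          smul_assoc] }
  let φ := (Ideal.Quotient.mkₐ F I).toLinearMap ∘ₗ ψ
  have hfin : ∀ m, Module.finrank F (degreeLT F m) = m := fun m => by
    rw [(degreeLTEquiv F m).finrank_eq]; simp
  have : ∀ m, Module.Finite F (degreeLT F m) := fun m =>
    Module.Finite.equiv (degreeLTEquiv F m).symm
  have hk : LinearMap.ker φ ≠ ⊥ := LinearMap.ker_ne_bot_of_finrank_lt (by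
    rw [Module.finrank_prod, hfin, hfin, ← hn]; omega)
  obtain ⟨z, hz, hz0⟩ := Submodule.exists_mem_ne_zero_of_ne_bot hk
  have hg0 : ψ z ≠ 0 := fun h => by
    obtain ⟨h1, h2⟩ := CoordinateRing.smul_basis_eq_zero h
    exact hz0 (Prod.ext (Subtype.ext h1) (Subtype.ext h2))
  have hgI : ψ z ∈ I := Ideal.Quotient.eq_zero_iff_mem.1 hz
  have hdeg : Module.finrank F (W.CoordinateRing ⧸ Ideal.span {ψ z}) ≤ n + 1 := by
    rw [finrank_quotient_span_eq_natDegree_norm (CoordinateRing.basis W) hg0]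
    refine natDegree_le_iff_degree_le.2 ?_
    have h := CoordinateRing.degree_norm_smul_basis (W' := W) (z.1 : F[X]) (z.2 : F[X])
    change (Algebra.norm F[X] ((z.1 : F[X]) • 1 + (z.2 : F[X]) • CoordinateRing.mk W X)).degree ≤ _
    rw [h]
    have h1 := mem_degreeLT.1 z.1.2
    have h2 := mem_degreeLT.1 z.2.2
    refine max_le ?_ ?_
    · generalize (z.1 : F[X]).degree = d at h1
      induction d using WithBot.recBotCoe with
      | bot => simp
      | coe d =>
        have : d < (n + 1) / 2 + 1 := WithBot.coe_lt_coe.1 h1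
        have h3 : 2 • d ≤ n + 1 := by rw [smul_eq_mul]; omega
        exact WithBot.coe_le_coe.2 h3
    · generalize (z.2 : F[X]).degree = d at h2
      induction d using WithBot.recBotCoe with
      | bot => simp
      | coe d =>
        have : d < n / 2 := WithBot.coe_lt_coe.1 h2
        have h3 : 2 • d + 3 ≤ n + 1 := by rw [smul_eq_mul]; omega
        exact WithBot.coe_le_coe.2 h3
  have hsp : Ideal.span {ψ z} ≠ ⊥ := fun h => hg0 (Ideal.span_singleton_eq_bot.1 h)
  have : FiniteDimensional F (W.CoordinateRing ⧸ Ideal.span {ψ z}) :=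
    Module.Finite.equiv (Ideal.quotientEquivDirectSum F (CoordinateRing.basis W) hsp).symm
  have hle : Ideal.span {ψ z} ≤ I := (Ideal.span_singleton_le_iff_mem _).2 hgI
  let θ : (W.CoordinateRing ⧸ Ideal.span {ψ z}) →ₐ[F] W.CoordinateRing ⧸ I :=
    Ideal.Quotient.liftₐ _ (Ideal.Quotient.mkₐ F I) fun a ha =>
      Ideal.Quotient.eq_zero_iff_mem.2 (hle ha)
  have hθ : ∀ a, θ (Ideal.Quotient.mk _ a) = Ideal.Quotient.mk I a := fun a => rfl
  have hsurj : LinearMap.range θ.toLinearMap = ⊤ := by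
    rw [LinearMap.range_eq_top]
    intro u
    obtain ⟨a, rfl⟩ := Ideal.Quotient.mk_surjective u
    exact ⟨Ideal.Quotient.mk _ a, hθ a⟩
  have hker : Module.finrank F (LinearMap.ker θ.toLinearMap) ≤ 1 := by
    have := LinearMap.finrank_range_add_finrank_ker θ.toLinearMap
    rw [hsurj, finrank_top, ← hn] at this
    omega
  refine ⟨ψ z, hgI, hg0, fun a ha hna b hb => ?_⟩
  have hm : ∀ u ∈ I, Ideal.Quotient.mk (Ideal.span {ψ z}) u ∈ LinearMap.ker θ.toLinearMap :=
    fun u hu => (hθ u).trans (Ideal.Quotient.eq_zero_iff_mem.2 hu)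
  have ha0 : (⟨_, hm a ha⟩ : LinearMap.ker θ.toLinearMap) ≠ 0 := fun h =>
    hna (Ideal.mem_span_singleton.1 (Ideal.Quotient.eq_zero_iff_mem.1 (congrArg Subtype.val h)))
  have h1 : Module.finrank F (LinearMap.ker θ.toLinearMap) = 1 := by
    have : 0 < Module.finrank F (LinearMap.ker θ.toLinearMap) :=
      Module.finrank_pos_iff_exists_ne_zero.2 ⟨_, ha0⟩
    omega
  obtain ⟨c, hc⟩ := exists_smul_eq_of_finrank_eq_one h1 ha0 ⟨_, hm b hb⟩
  refine ⟨c, Ideal.mem_span_singleton.1 (Ideal.Quotient.eq.1 ?_)⟩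
  have h2 := congrArg Subtype.val hc
  exact h2.symm


theorem RR_aux_ded {F A : Type} [Field F] [CommRing A] [IsDedekindDomain A] [Algebra F A]
    {I : Ideal A} (hI : I ≠ ⊥) {g : A} (hgI : g ∈ I)
    (h : ∀ a ∈ I, ¬ g ∣ a → ∀ b ∈ I, ∃ c : F, g ∣ b - c • a) (hg0 : g ≠ 0) :
    ∃ J : Ideal A, Ideal.span {g} = I * J ∧
      (J = ⊤ ∨ (J.IsMaximal ∧ ∀ r : A, ∃ c : F, r - algebraMap F A c ∈ J)) := by
  obtain ⟨J, hJ⟩ : I ∣ Ideal.span {g} :=
    Ideal.dvd_iff_le.2 ((Ideal.span_singleton_le_iff_mem _).2 hgI)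
  refine ⟨J, hJ, ?_⟩
  by_cases hT : J = ⊤
  · exact Or.inl hT
  right
  have hsp : Ideal.span {g} ≠ ⊥ := fun h => hg0 (Ideal.span_singleton_eq_bot.1 h)
  obtain ⟨a, ha⟩ := IsDedekindDomain.exists_sup_span_eq
    ((Ideal.span_singleton_le_iff_mem I).2 hgI) hsp
  have haI : a ∈ I := ha ▸ Ideal.mem_sup_right (Ideal.mem_span_singleton_self a)
  have hna : ¬ g ∣ a := fun hd => by
    have h1 : Ideal.span {g} = I := by
      rw [← ha]
      exact (sup_eq_left.2 (Ideal.span_singleton_le_span_singleton.2 hd)).symm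
    have h2 : I * J = I * ⊤ := by rw [← hJ, Ideal.mul_top, h1]
    exact hT (mul_left_cancel₀ hI h2)
  have key : ∀ r : A, ∃ c : F, r - algebraMap F A c ∈ J := fun r => by
    obtain ⟨c, hc⟩ := h a haI hna (r * a) (I.mul_mem_left r haI)
    refine ⟨c, ?_⟩
    have h1 : I * Ideal.span {r - algebraMap F A c} ≤ I * J := by
      rw [← hJ, ← ha, Ideal.sup_mul]
      refine sup_le Ideal.mul_le_left ?_
      rw [Ideal.span_singleton_mul_span_singleton, Ideal.span_singleton_le_span_singleton]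
      have : a * (r - algebraMap F A c) = r * a - c • a := by rw [Algebra.smul_def]; ring
      rw [this]; exact hc
    have h2 : J ∣ Ideal.span {r - algebraMap F A c} :=
      (mul_dvd_mul_iff_left hI).1 (Ideal.dvd_iff_le.2 h1)
    exact (Ideal.span_singleton_le_iff_mem _).1 (Ideal.dvd_iff_le.1 h2)
  refine ⟨Ideal.isMaximal_iff.2 ⟨fun h1 => hT ((Ideal.eq_top_iff_one _).2 h1), ?_⟩, key⟩
  intro K x hJK hxJ hxK
  obtain ⟨c, hc⟩ := key x
  have hc0 : c ≠ 0 := fun h0 => hxJ (by simpa [h0] using hc)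
  have h1 : algebraMap F A c ∈ K := by
    have := K.sub_mem hxK (hJK hc)
    simpa using this
  have h2 := K.mul_mem_left (algebraMap F A c⁻¹) h1
  rwa [← map_mul, inv_mul_cancel₀ hc0, map_one] at h2

/-- Every non-zero ideal `I` of `A = F[x, y]` contains `g ≠ 0` with `(g) = I J` and `J` of
codimension at most one: if `I` has codimension `n`, the span of the monomials `x ^ i`,
`x ^ i y` of pole order `2 i`, `2 i + 3` at most `n + 1` has dimension `n + 1` (for `n ≥ 0` count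
`0, 2, 3, ..., n + 1`), so it meets `I`; the codimension of `(g)` is the degree of the norm
(`CoordinateRing.degree_norm_smul_basis`, `finrank_quotient_span_eq_natDegree_norm`). -/
theorem Gen.ideal_class (hP : Gen F P) (I : Ideal (crd F P)) (hI : I ≠ ⊥) :
    ∃ (g : crd F P) (J : Ideal (crd F P)), g ≠ 0 ∧ Ideal.span {g} = I * J ∧
      (J = ⊤ ∨ (J.IsMaximal ∧ ∃ a b : F, b ^ 2 = a ^ 3 + 1 ∧
        (⟨xc P, Algebra.subset_adjoin (by simp)⟩ : crd F P) - algebraMap F _ a ∈ J ∧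
        (⟨yc P, Algebra.subset_adjoin (by simp)⟩ : crd F P) - algebraMap F _ b ∈ J)) := by
  obtain ⟨e, -⟩ := hP.exists_equiv
  have := hP.dedekind
  have hI' : I.comap e ≠ ⊥ := fun h => hI (by
    refine eq_bot_iff.2 fun a ha => ?_
    have h1 : e.symm a ∈ I.comap e := by
      rw [Ideal.mem_comap, AlgEquiv.apply_symm_apply]; exact ha
    rw [h, Ideal.mem_bot] at h1
    rw [Ideal.mem_bot, ← e.apply_symm_apply a, h1, map_zero])
  obtain ⟨g, hgI, hg0, hg⟩ := RR_aux_codim _ _ hI'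
  have hg0' : e g ≠ 0 := fun h => hg0 (e.injective (h.trans (map_zero e).symm))
  obtain ⟨J, hJ, h⟩ := RR_aux_ded (F := F) hI (g := e g) hgI (fun a ha hna b hb => by
    obtain ⟨a, rfl⟩ := e.surjective a
    obtain ⟨b, rfl⟩ := e.surjective b
    obtain ⟨c, hc⟩ := hg a ha (fun hd => hna (map_dvd e hd)) b hb
    refine ⟨c, ?_⟩
    have := map_dvd e hc
    rwa [map_sub, map_smul] at this) hg0'
  refine ⟨e g, J, hg0', hJ, h.imp id fun ⟨hm, hr⟩ => ⟨hm, ?_⟩⟩
  obtain ⟨a, ha⟩ := hr ⟨xc P, Algebra.subset_adjoin (by simp)⟩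
  obtain ⟨b, hb⟩ := hr ⟨yc P, Algebra.subset_adjoin (by simp)⟩
  refine ⟨a, b, ?_, ha, hb⟩
  by_contra hne
  have hu : IsUnit (algebraMap F (crd F P) (b ^ 2 - (a ^ 3 + 1))) :=
    (IsUnit.mk0 _ (sub_ne_zero.2 hne)).map _
  refine hm.ne_top (Ideal.eq_top_of_isUnit_mem _ ?_ hu)
  generalize hx : (⟨xc P, Algebra.subset_adjoin (by simp)⟩ : crd F P) = x at ha
  generalize hy : (⟨yc P, Algebra.subset_adjoin (by simp)⟩ : crd F P) = y at hb
  have heq : y ^ 2 = x ^ 3 + 1 := by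
    rw [← hx, ← hy]; exact Subtype.ext (eqn_of_ne hP.ne)
  have h1 : algebraMap F (crd F P) (b ^ 2 - (a ^ 3 + 1)) =
      (x ^ 2 + x * algebraMap F _ a + algebraMap F _ a ^ 2) * (x - algebraMap F _ a) -
        (y + algebraMap F _ b) * (y - algebraMap F _ b) := by
    rw [map_sub, map_add, map_pow, map_pow, map_one]
    linear_combination heq
  rw [h1]
  exact J.sub_mem (J.mul_mem_left _ ha) (J.mul_mem_left _ hb)

theorem RR_aux_xc (V : ValuationSubring M) [IsDiscreteValuationRing V] {Q : EP M}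
    (hy : yc Q ∈ V) : xc Q ∈ V := by
  have h1 : ¬ 0 < lam V Q := fun h => (lam_pos_iff V Q).1 h hy
  have h2 := two_lam V Q
  have h3 := lam_nonneg V Q
  rw [← ord_nonneg_iff]
  have := le_max_right 0 (-ord V (xc Q))
  omega

theorem RR_aux_eq (V V' : ValuationSubring M) [IsDiscreteValuationRing V] (hle : ∀ f ∈ V, f ∈ V')
    (hT : V' ≠ ⊤) : V = V' := by
  refine SetLike.ext fun f => ⟨hle f, fun hf => ?_⟩
  by_contra hn
  refine hT (SetLike.ext fun u => ⟨fun _ => ValuationSubring.mem_top _, fun _ => ?_⟩)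
  have hf0 : f ≠ 0 := fun h => hn (h ▸ zero_mem _)
  have h1 : ¬ 0 ≤ ord V f := fun h => hn ((ord_nonneg_iff V f).1 h)
  by_cases hu : u = 0
  · exact hu ▸ zero_mem _
  have h2 : u / f ^ (ord V u).natAbs ∈ V := by
    rw [← ord_nonneg_iff, ord_div V hu (pow_ne_zero _ hf0), ord_pow]
    have h3 : -ord V u ≤ ((ord V u).natAbs : ℤ) := by omega
    have h4 : (0 : ℤ) ≤ ((ord V u).natAbs : ℤ) := by omega
    nlinarith
  have h3 : u = u / f ^ (ord V u).natAbs * f ^ (ord V u).natAbs :=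
    (div_mul_cancel₀ _ (pow_ne_zero _ hf0)).symm
  rw [h3]
  exact mul_mem (hle _ h2) (pow_mem hf _)

theorem RR_aux_dvr (hP : Gen F P) (V : Pl F M) : IsDiscreteValuationRing V.1 :=
  haveI := charZero_of F
  hP.isFF.dvr V

theorem RR_aux_nn (hP : Gen F P) (V : Pl F M) (hx : xc P ∈ V.1) {f : M} (hf : f ∈ crd F P) :
    0 ≤ ord V.1 f :=
  haveI := RR_aux_dvr hP V
  (ord_nonneg_iff V.1 f).2 (hP.crd_le V hx f hf)

theorem RR_aux_sep (hP : Gen F P) {V V' : Pl F M} (hx : xc P ∈ V.1) (hx' : xc P ∈ V'.1)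
    (hne : V ≠ V') : ∃ s ∈ crd F P, s ≠ 0 ∧ ord V.1 s = 0 ∧ 1 ≤ ord V'.1 s := by
  have := RR_aux_dvr hP V
  have := RR_aux_dvr hP V'
  by_contra hc
  refine hne (Subtype.ext (RR_aux_eq V.1 V'.1 (fun f hf => ?_) V'.2.1))
  obtain ⟨a, ha, b, hb, hb', rfl⟩ := hP.val_loc V hx f hf
  by_cases hb0 : b = 0
  · rw [hb0, div_zero]; exact zero_mem _
  have h1 : ord V.1 b = 0 := (ord_eq_zero_iff V.1 b).2 ⟨hP.crd_le V hx b hb, hb'⟩
  have h2 : ¬ 1 ≤ ord V'.1 b := fun h => hc ⟨b, hb, hb0, h1, h⟩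
  have h3 := RR_aux_nn hP V' hx' hb
  have h4 : ord V'.1 b = 0 := by omega
  rw [div_eq_mul_inv]
  exact mul_mem (hP.crd_le V' hx' a ha) ((ord_eq_zero_iff V'.1 b).1 h4).2

theorem RR_aux_unif (hP : Gen F P) {V : Pl F M} (hx : xc P ∈ V.1) :
    ∃ s ∈ crd F P, s ≠ 0 ∧ ord V.1 s = 1 := by
  have := RR_aux_dvr hP V
  obtain ⟨π, h0, h1⟩ := exists_ord_eq_one V.1
  obtain ⟨a, ha, b, hb, hb', rfl⟩ := hP.val_loc V hx π ((ord_nonneg_iff V.1 π).1 (by omega))
  obtain ⟨ha0, hb0⟩ := div_ne_zero_iff.1 h0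
  have h2 : ord V.1 b = 0 := (ord_eq_zero_iff V.1 b).2 ⟨hP.crd_le V hx b hb, hb'⟩
  rw [ord_div V.1 ha0 hb0, h2, sub_zero] at h1
  exact ⟨a, ha, ha0, h1⟩

theorem RR_aux_big (hP : Gen F P) (m : Pl F M → ℤ) (S : Finset (Pl F M)) :
    ∃ a ∈ crd F P, a ≠ 0 ∧ ∀ W ∈ S, xc P ∈ W.1 → m W ≤ ord W.1 a := by
  classical
  induction S using Finset.induction_on with
  | empty => exact ⟨1, one_mem _, one_ne_zero, by simp⟩
  | insert W S _ ih =>
    obtain ⟨a, ha, ha0, h⟩ := ih
    by_cases hW : xc P ∈ W.1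
    · obtain ⟨s, hs, hs0, hs1⟩ := RR_aux_unif hP hW
      refine ⟨a * s ^ (m W).toNat, mul_mem ha (pow_mem hs _), mul_ne_zero ha0 (pow_ne_zero _ hs0),
        fun U hU hx => ?_⟩
      have := RR_aux_dvr hP U
      rw [ord_mul U.1 ha0 (pow_ne_zero _ hs0)]
      rcases Finset.mem_insert.1 hU with rfl | hU
      · have h1 := RR_aux_nn hP U hx ha
        rw [ord_pow, hs1]
        omega
      · have h1 := h U hU hx
        have h2 := RR_aux_nn hP U hx (pow_mem hs (m W).toNat)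
        omega
    · refine ⟨a, ha, ha0, fun U hU hx => ?_⟩
      rcases Finset.mem_insert.1 hU with rfl | hU
      · exact absurd hx hW
      · exact h U hU hx

theorem RR_aux_appr (hP : Gen F P) (m : Pl F M → ℤ) (S : Finset (Pl F M)) {V : Pl F M}
    (hV : xc P ∈ V.1) (hm : 0 ≤ m V) :
    ∃ a ∈ crd F P, a ≠ 0 ∧ ord V.1 a = m V ∧ ∀ W ∈ S, xc P ∈ W.1 → m W ≤ ord W.1 a := by
  classical
  have := RR_aux_dvr hP V
  induction S using Finset.induction_on with
  | empty =>
    obtain ⟨s, hs, hs0, hs1⟩ := RR_aux_unif hP hV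
    refine ⟨s ^ (m V).toNat, pow_mem hs _, pow_ne_zero _ hs0, ?_, by simp⟩
    rw [ord_pow, hs1]
    omega
  | insert W S _ ih =>
    obtain ⟨a, ha, ha0, haV, h⟩ := ih
    by_cases hW : xc P ∈ W.1 ∧ V ≠ W
    · obtain ⟨s, hs, hs0, hs1, hs2⟩ := RR_aux_sep hP hV hW.1 hW.2
      refine ⟨a * s ^ (m W).toNat, mul_mem ha (pow_mem hs _), mul_ne_zero ha0 (pow_ne_zero _ hs0),
        ?_, fun U hU hx => ?_⟩
      · rw [ord_mul V.1 ha0 (pow_ne_zero _ hs0), ord_pow, hs1, haV, mul_zero, add_zero]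
      have := RR_aux_dvr hP U
      rw [ord_mul U.1 ha0 (pow_ne_zero _ hs0)]
      rcases Finset.mem_insert.1 hU with rfl | hU
      · have h1 := RR_aux_nn hP U hx ha
        rw [ord_pow]
        have h2 : m U ≤ ((m U).toNat : ℤ) := by omega
        have h3 : (0 : ℤ) ≤ ((m U).toNat : ℤ) := by omega
        nlinarith
      · have h1 := h U hU hx
        have h2 := RR_aux_nn hP U hx (pow_mem hs (m W).toNat)
        omega
    · refine ⟨a, ha, ha0, haV, fun U hU hx => ?_⟩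
      rcases Finset.mem_insert.1 hU with rfl | hU
      · have : V = U := by
          by_contra hne
          exact hW ⟨hx, hne⟩
        subst this
        exact haV.ge
      · exact h U hU hx

theorem RR_aux_red (hP : Gen F P) (V : Pl F M) (hy : yc P ∈ V.1) {a b : F} (h : b ^ 2 = a ^ 3 + 1)
    (ha : xc P - algebraMap F M a ∈ V.1.nonunits) (hb : yc P - algebraMap F M b ∈ V.1.nonunits) :
    yc (P - up F M (pt a b h)) ∉ V.1 := by
  have := RR_aux_dvr hP V
  have hV : ∀ c : ℂ, algebraMap ℂ M c ∈ V.1 := fun c => by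
    rw [IsScalarTower.algebraMap_apply ℂ F M]; exact V.2.2 _
  have hx := RR_aux_xc V.1 hy
  have e1 : xc (up F M (pt a b h)) = algebraMap F M a := xc_emap _ _
  have e2 : yc (up F M (pt a b h)) = algebraMap F M b := yc_emap _ _
  have hy' : yc (up F M (pt a b h)) ∈ V.1 := e2 ▸ V.2.2 b
  have i1 := intg_val V.1 hV P
  have i2 := intg_val V.1 hV (up F M (pt a b h))
  have n1 : red (vpt V.1 hV) P ≠ 0 := fun h0 =>
    ((red_eq_zero i1).1 h0).elim hP.ne fun h1 => h1 hy
  have n2 : red (vpt V.1 hV) (up F M (pt a b h)) ≠ 0 := fun h0 =>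
    ((red_eq_zero i2).1 h0).elim (fun h1 => pt_ne_zero a b h ((emap_eq_zero _).1 h1))
      fun h1 => h1 hy'
  have heq : red (vpt V.1 hV) P = red (vpt V.1 hV) (up F M (pt a b h)) := by
    refine EP.ext' n1 n2 ?_ ?_
    · rw [xc_red i1 hy, xc_red i2 hy', e1, ← sub_eq_zero,
        ← res_sub (O := vpt V.1 hV) hx (V.2.2 a),
        res_eq_zero (O := vpt V.1 hV) (sub_mem hx (V.2.2 a)), mem_mx_vpt]
      exact ha
    · rw [yc_red i1 hy, yc_red i2 hy', e2, ← sub_eq_zero,
        ← res_sub (O := vpt V.1 hV) hy (V.2.2 b),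
        res_eq_zero (O := vpt V.1 hV) (sub_mem hy (V.2.2 b)), mem_mx_vpt]
      exact hb
  have h0 : red (vpt V.1 hV) (P - up F M (pt a b h)) = 0 := by rw [red_sub i1 i2, heq, sub_self]
  rcases (red_eq_zero (i1.sub i2)).1 h0 with h1 | h1
  · refine absurd ?_ (hP.add_up (-pt a b h)).ne
    rw [map_neg, ← sub_eq_add_neg]; exact h1
  · exact h1

theorem RR_aux_main (hP : Gen F P) (n : Pl F M → ℤ) (hn : (Function.support n).Finite) :
    ∃ (h : M) (c : EP F), h ≠ 0 ∧ ∀ V : Pl F M, yc P ∈ V.1 → yc (P - up F M c) ∈ V.1 →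
      n V = ord V.1 h := by
  have := charZero_of F
  have hd := RR_aux_dvr hP
  obtain ⟨f, hf, hf0, hfn⟩ := RR_aux_big hP (fun V => -n V) hn.toFinset
  obtain ⟨m, hm⟩ : ∃ m : Pl F M → ℤ, ∀ V, m V = n V + ord V.1 f := ⟨_, fun _ => rfl⟩
  have hm0 : ∀ V : Pl F M, xc P ∈ V.1 → 0 ≤ m V := fun V hx => by
    rw [hm]
    by_cases h0 : n V = 0
    · have := RR_aux_nn hP V hx hf
      omega
    · have := hfn V (hn.mem_toFinset.2 h0) hx
      omega
  have hmf : (Function.support m).Finite := by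
    refine (hn.union (hP.isFF.ord_fin f)).subset fun V hV => ?_
    by_contra hc
    rw [Set.mem_union, not_or, Function.notMem_support, Function.notMem_support] at hc
    exact hV (by rw [hm, hc.1, hc.2, add_zero])
  let I : Ideal (crd F P) :=
    { carrier := {a | a = 0 ∨ ∀ V : Pl F M, xc P ∈ V.1 → m V ≤ ord V.1 (a : M)}
      zero_mem' := Or.inl rfl
      add_mem' := fun {a b} ha hb => by
        by_cases ha0 : a = 0
        · rw [ha0, zero_add]; exact hb
        by_cases hb0 : b = 0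
        · rw [hb0, add_zero]; exact ha
        by_cases hab : a + b = 0
        · exact Or.inl hab
        refine Or.inr fun V hx => ?_
        have h1 := ha.resolve_left ha0 V hx
        have h2 := hb.resolve_left hb0 V hx
        have h3 := ord_add V.1 (f := (a : M)) (g := (b : M)) (fun h => ha0 (Subtype.ext h))
          (fun h => hb0 (Subtype.ext h)) (fun h => hab (Subtype.ext h))
        exact (le_min h1 h2).trans h3
      smul_mem' := fun r a ha => by
        by_cases ha0 : a = 0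
        · rw [ha0, smul_zero]; exact Or.inl rfl
        by_cases hr0 : r = 0
        · rw [hr0, zero_smul]; exact Or.inl rfl
        refine Or.inr fun V hx => ?_
        have h1 := ha.resolve_left ha0 V hx
        have h2 := RR_aux_nn hP V hx r.2
        have h3 := ord_mul V.1 (f := (r : M)) (g := (a : M)) (fun h => hr0 (Subtype.ext h))
          (fun h => ha0 (Subtype.ext h))
        change m V ≤ ord V.1 ((r : M) * (a : M))
        omega }
  have hI : ∀ a : crd F P, (∀ W ∈ hmf.toFinset, xc P ∈ W.1 → m W ≤ ord W.1 (a : M)) → a ∈ I :=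
    fun a h => Or.inr fun V hx => by
      by_cases h0 : m V = 0
      · rw [h0]; exact RR_aux_nn hP V hx a.2
      · exact h V (hmf.mem_toFinset.2 h0) hx
  have hI0 : I ≠ ⊥ := by
    obtain ⟨a, ha, ha0, h⟩ := RR_aux_big hP m hmf.toFinset
    intro h0
    have h1 := hI ⟨a, ha⟩ h
    rw [h0, Ideal.mem_bot] at h1
    exact ha0 (congrArg Subtype.val h1)
  obtain ⟨g, J, hg0, hJ, hc⟩ := hP.ideal_class I hI0
  have hg0' : (g : M) ≠ 0 := fun h => hg0 (Subtype.ext h)
  have hgI : g ∈ I := Ideal.mul_le_left (hJ ▸ Ideal.mem_span_singleton_self g)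
  have key : ∀ V : Pl F M, xc P ∈ V.1 → ∀ j ∈ J, (j : M) ∉ V.1.nonunits →
      n V = ord V.1 ((g : M) / f) := fun V hx j hj hu => by
    have hj0 : (j : M) ≠ 0 := fun h => hu (h ▸ zero_mem _)
    have h1 : ¬ 0 < ord V.1 (j : M) := fun h => hu ((ord_pos_iff V.1 hj0).1 h)
    obtain ⟨a, ha, ha0, haV, h⟩ := RR_aux_appr hP m hmf.toFinset hx (hm0 V hx)
    have h2 : (⟨a, ha⟩ : crd F P) * j ∈ Ideal.span {g} :=
      hJ ▸ Ideal.mul_mem_mul (hI ⟨a, ha⟩ h) hj
    obtain ⟨r, hr⟩ := Ideal.mem_span_singleton.1 h2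
    have h3 : a * (j : M) = (g : M) * (r : M) := congrArg Subtype.val hr
    have hr0 : (r : M) ≠ 0 := fun h0 => mul_ne_zero ha0 hj0 (by rw [h3, h0, mul_zero])
    have h4 := ord_mul V.1 ha0 hj0
    have h5 := ord_mul V.1 hg0' hr0
    have h6 := RR_aux_nn hP V hx r.2
    have h7 := hgI.resolve_left hg0 V hx
    have h8 := hm V
    rw [h3] at h4
    rw [ord_div V.1 hg0' hf0]
    omega
  rcases hc with rfl | ⟨-, a, b, hab, ha, hb⟩
  · refine ⟨g / f, 0, div_ne_zero hg0' hf0, fun V hy _ => ?_⟩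
    refine key V (RR_aux_xc V.1 hy) 1 Submodule.mem_top fun h => ?_
    have h1 := (ord_pos_iff V.1 (one_ne_zero (α := M))).2 h
    rw [ord_one] at h1
    exact lt_irrefl _ h1
  · refine ⟨g / f, pt a b hab, div_ne_zero hg0' hf0, fun V hy hy' => ?_⟩
    by_cases h1 : xc P - algebraMap F M a ∈ V.1.nonunits
    · by_cases h2 : yc P - algebraMap F M b ∈ V.1.nonunits
      · exact absurd hy' (RR_aux_red hP V hy hab h1 h2)
      · exact key V (RR_aux_xc V.1 hy) _ hb h2
    · exact key V (RR_aux_xc V.1 hy) _ ha h1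

/-- A multiple of any divisor is linearly equivalent to a combination of the origin and one rational
point. Use `pl_unique` for the place at infinity (`c = 0`) and for the place of `J`. -/
theorem Gen.rr (hP : Gen F P) (n : Pl F M → ℤ) (hn : (Function.support n).Finite) :
    ∃ (N : ℕ) (h : M) (c : EP F) (α β : ℤ), 0 < N ∧ h ≠ 0 ∧ ∀ V : Pl F M,
      N * n V = ord V.1 h + α * lam V.1 P + β * lam V.1 (P - up F M c) := by
  classical
  have hd := RR_aux_dvr hP
  obtain ⟨h, c, h0, hh⟩ := RR_aux_main hP n hn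
  have hQ : Gen F (P - up F M c) := by
    have := hP.add_up (-c)
    rwa [map_neg, ← sub_eq_add_neg] at this
  obtain ⟨U, hU⟩ := exists_pole hP.yc_tr
  obtain ⟨W, hW⟩ := exists_pole hQ.yc_tr
  have uU : ∀ V : Pl F M, V ≠ U → yc P ∈ V.1 := fun V hV => by
    by_contra hc
    refine hV (hP.pl_unique 0 ?_ ?_)
    · rwa [map_zero, sub_zero]
    · rwa [map_zero, sub_zero]
  have uW : ∀ V : Pl F M, V ≠ W → yc (P - up F M c) ∈ V.1 := fun V hV => by
    by_contra hc
    exact hV (hP.pl_unique c hc hW)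
  have lz : ∀ (V : Pl F M) (Q : EP M), yc Q ∈ V.1 → lam V.1 Q = 0 := fun V Q hy => by
    have h1 : ¬ 0 < lam V.1 Q := fun h => (lam_pos_iff V.1 Q).1 h hy
    have h2 := lam_nonneg V.1 Q
    omega
  obtain ⟨a, ha⟩ := Int.eq_ofNat_of_zero_le (lam_nonneg U.1 P)
  obtain ⟨b, hb⟩ := Int.eq_ofNat_of_zero_le (lam_nonneg W.1 (P - up F M c))
  have ha0 : 0 < a := by have := (lam_pos_iff U.1 P).2 hU; omega
  have hb0 : 0 < b := by have := (lam_pos_iff W.1 _).2 hW; omega
  refine ⟨a * b, h ^ (a * b), c, b * (n U - ord U.1 h),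
    if W = U then 0 else a * (n W - ord W.1 h), Nat.mul_pos ha0 hb0, pow_ne_zero _ h0, fun V => ?_⟩
  rw [ord_pow]
  by_cases hVU : V = U
  · subst hVU
    by_cases hWV : W = V
    · rw [if_pos hWV, ha]; push_cast; ring
    · rw [lz V _ (uW V fun h => hWV h.symm), ha]; push_cast; ring
  · rw [lz V _ (uU V hVU)]
    by_cases hVW : V = W
    · subst hVW
      rw [if_neg hVU, hb]; push_cast; ring
    · rw [lz V _ (uW V hVW), hh V (uU V hVU) (uW V hVW)]; ring

end Pool.Agent.MP_95da86_ag
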