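import Pool.Agent.MP_95da86_ag.Hart
import Pool.Agent.MP_95da86_ag.Cart
import Pool.Agent.MP_95da86_ag.RR
import Pool.Agent.MP_95da86_ag.End

/-! Every Cartier divisor on the blow-up is, up to a multiple and linear equivalence, a
combination of the explicit divisors. -/

namespace Pool.Agent.MP_95da86_ag

variable {L : Type} [Field L] [Algebra ℂ L] {P : Fin 3 → EP L} {σ : L ≃ₐ[ℂ] L}

/-- The multiplicity of local equations along a valuation ring. -/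
noncomputable def Elim_aux_mu (V : ValuationSubring L) (hV : ∀ c : ℂ, algebraMap ℂ L c ∈ V)
    (f : Pt L → Lˣ) : ℤ := ord V (f (vpt V hV) : L)

section Mu

variable (V : ValuationSubring L) (hV : ∀ c : ℂ, algebraMap ℂ L c ∈ V) [IsDiscreteValuationRing V]

theorem Elim_aux_mul (f g : Pt L → Lˣ) :
    Elim_aux_mu V hV (f * g) = Elim_aux_mu V hV f + Elim_aux_mu V hV g := by
  simp only [Elim_aux_mu, Pi.mul_apply, Units.val_mul]
  exact ord_mul V (Units.ne_zero _) (Units.ne_zero _)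

theorem Elim_aux_div (f g : Pt L → Lˣ) :
    Elim_aux_mu V hV (f / g) = Elim_aux_mu V hV f - Elim_aux_mu V hV g := by
  simp only [Elim_aux_mu, Pi.div_apply, Units.val_div_eq_div_val]
  exact ord_div V (Units.ne_zero _) (Units.ne_zero _)

theorem Elim_aux_pow (f : Pt L → Lˣ) (n : ℕ) :
    Elim_aux_mu V hV (f ^ n) = n * Elim_aux_mu V hV f := by
  simp only [Elim_aux_mu, Pi.pow_apply, Units.val_pow_eq_pow_val]
  exact ord_pow V _ _

theorem Elim_aux_zpow (f : Pt L → Lˣ) (n : ℤ) :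
    Elim_aux_mu V hV (f ^ n) = n * Elim_aux_mu V hV f := by
  simp only [Elim_aux_mu, Pi.pow_apply, Units.val_zpow_eq_zpow_val]
  exact ord_zpow V _ _

theorem Elim_aux_prod {ι : Type} (s : Finset ι) (F : ι → Pt L → Lˣ) :
    Elim_aux_mu V hV (∏ i ∈ s, F i) = ∑ i ∈ s, Elim_aux_mu V hV (F i) := by
  simp only [Elim_aux_mu, Finset.prod_apply, Units.coe_prod]
  exact ord_prod V s _ fun i _ => Units.ne_zero _

theorem Elim_aux_stage (f z z' : Pt L → Lˣ) (u : Lˣ) (N : ℕ) (α β : ℤ) :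
    Elim_aux_mu V hV (f ^ N / ((fun _ => u) * z ^ α * z' ^ β)) = N * Elim_aux_mu V hV f -
      (ord V (u : L) + α * Elim_aux_mu V hV z + β * Elim_aux_mu V hV z') := by
  rw [Elim_aux_div, Elim_aux_pow, Elim_aux_mul, Elim_aux_mul, Elim_aux_zpow, Elim_aux_zpow]
  rfl

theorem Elim_aux_one {f : Pt L → Lˣ} (h : f (vpt V hV) = 1) : Elim_aux_mu V hV f = 0 := by
  rw [Elim_aux_mu, h, Units.val_one, ord_one]

theorem Elim_aux_unit {Y : Set (Pt L)} {w : Pt L → Lˣ} (hw : IsCartier Y w) {O : Pt L}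
    (hO : O ∈ Y) (hY : vpt V hV ∈ Y) (hle : ∀ g ∈ O.1, g ∈ V) (h0 : Elim_aux_mu V hV w = 0) :
    (w O : L) ∈ V ∧ (w O : L)⁻¹ ∈ V := by
  have h1 := hw.compat hO hY (fun g hg => hle g hg)
  have h2 := (ord_eq_zero_iff V _).1 h0
  have h3 := h1.mul (g := (w (vpt V hV) : L)) ⟨Units.ne_zero _, h2.1, h2.2⟩
  rw [Units.val_div_eq_div_val, div_mul_cancel₀ _ (Units.ne_zero _)] at h3
  exact ⟨h3.2.1, h3.2.2⟩

variable {M : Type} [Field M] [Algebra ℂ M] [Algebra M L] [IsScalarTower ℂ M L]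

omit [IsDiscreteValuationRing V] in
theorem Elim_aux_yc (Q : EP M) : yc (up M L Q) = algebraMap M L (yc Q) := by
  rw [up, yc_emap]; rfl

/-- Functions from a subfield contained in `V` do not change the multiplicity. -/
theorem Elim_aux_sub (hM : ∀ c : M, algebraMap M L c ∈ V) {f : Pt L → Lˣ}
    (h0 : Elim_aux_mu V hV f = 0) (u : Mˣ) (Q Q' : EP M) (N : ℕ) (α β : ℤ) :
    Elim_aux_mu V hV (f ^ N / ((fun _ => Units.map (algebraMap M L : M →* L) u) *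
      zq (yc (up M L Q)) ^ α * zq (yc (up M L Q')) ^ β)) = 0 := by
  have hz : ∀ R : EP M, Elim_aux_mu V hV (zq (yc (up M L R))) = 0 := fun R =>
    Elim_aux_one V hV (zq_of_mem (by rw [Elim_aux_yc]; exact hM _))
  have hu : ord V ((Units.map (algebraMap M L : M →* L) u : Lˣ) : L) = 0 := by
    refine (ord_eq_zero_iff V _).2 ⟨hM _, ?_⟩
    have := hM (u : M)⁻¹
    rwa [map_inv₀] at this
  rw [Elim_aux_stage, h0, hz, hz, hu]
  simp

end Mu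

theorem Elim_aux_up_up {F M : Type} [Field F] [Field M] [Algebra ℂ F] [Algebra ℂ M] [Algebra F M]
    [IsScalarTower ℂ F M] [Algebra M L] [IsScalarTower ℂ M L] [Algebra F L] [IsScalarTower ℂ F L]
    [IsScalarTower F M L] (c : EP F) : up M L (up F M c) = up F L c := by
  rw [up, up, up, emap_emap]
  congr 2
  exact AlgHom.ext fun x => (IsScalarTower.algebraMap_apply F M L x).symm

theorem Elim_aux_up_self (c : EP L) : up L L c = c := emap_id c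

theorem Elim_aux_up_cst {F : Type} [Field F] [Algebra ℂ F] [Algebra F L] [IsScalarTower ℂ F L]
    (c : EP ℂ) : up F L (up ℂ F c) = cst L c := by
  rw [up_eq_cst, up, emap_cst]

theorem Elim_aux_comb {G : Type} [CommGroup G] (f U₃ U₂ U₁ z₀ z₁ z₂ z₃ z₄ z₅ e : G)
    (N₃ N₂ N₁ N₀ : ℕ) (α₃ β₃ α₂ β₂ α₁ β₁ : ℤ) :
    f ^ (N₃ * N₂ * N₁ * N₀) =
      (((f ^ N₃ / (U₃ * z₀ ^ α₃ * z₁ ^ β₃)) ^ N₂ / (U₂ * z₂ ^ α₂ * z₃ ^ β₂)) ^ N₁ /
        (U₁ * z₄ ^ α₁ * z₅ ^ β₁)) ^ N₀ / e * (U₃ ^ (N₂ * N₁ * N₀) * U₂ ^ (N₁ * N₀) * U₁ ^ N₀) *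
      (z₀ ^ (α₃ * N₂ * N₁ * N₀) * z₁ ^ (β₃ * N₂ * N₁ * N₀) * z₂ ^ (α₂ * N₁ * N₀) *
        z₃ ^ (β₂ * N₁ * N₀) * z₄ ^ (α₁ * N₀) * z₅ ^ (β₁ * N₀)) * e := by
  apply Additive.ofMul.injective
  simp only [ofMul_mul, ofMul_div, ofMul_pow, ofMul_zpow]
  module

/-- The multiplicities vanish for almost all `V`: use the neighbourhood `S` of the generic point
`topPt L` and `Tower.fin`. -/
theorem Tower.mult_fin (T : Tower P) (h : Cfg P σ) {f : Pt L → Lˣ} (hf : IsCartier (blP P σ) f) :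
    {V : ValuationSubring L | ∃ hV : V ∈ T.VV, ord V (f (vpt V (T.const_mem hV)) : L) ≠ 0}.Finite := by
  classical
  obtain ⟨S, -, hS⟩ := hf _ h.top_mem
  have hfin : (⋃ s ∈ insert (f (topPt L) : L) (insert (f (topPt L) : L)⁻¹ S),
      {V | V ∈ T.VV ∧ s ∉ V}).Finite := Set.Finite.biUnion (Finset.finite_toSet _) fun s _ => T.fin s
  refine hfin.subset ?_
  rintro V ⟨hV, hne⟩
  by_contra hc
  simp only [Set.mem_iUnion, Set.mem_ofPred_eq, not_exists, not_and, not_not] at hc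
  have := T.dvr hV
  have h1 := hS _ (T.mem_bl h hV).1 fun s hs => hc s (by simp [Finset.mem_coe.1 hs]) hV
  have h2 : ord V ((f (vpt V (T.const_mem hV)) / f (topPt L) : Lˣ) : L) = 0 := by
    refine (ord_eq_zero_iff V _).2 ⟨h1.1, ?_⟩
    rw [← Units.val_inv_eq_inv_val, inv_div]
    exact h1.2
  have h3 : ord V (f (topPt L) : L) = 0 :=
    (ord_eq_zero_iff V _).2 ⟨hc _ (by simp) hV, hc _ (by simp) hV⟩
  rw [Units.val_div_eq_div_val, ord_div V (Units.ne_zero _) (Units.ne_zero _), h3, sub_zero] at h2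
  exact hne h2

/-- One step: kill the multiplicities along a family `E W` of members of `VV` indexed by the places
of a subfield `M / F`. -/
theorem Tower.step (T : Tower P) (h : Cfg P σ) {F M : Type} [Field F] [Field M] [Algebra ℂ F]
    [Algebra ℂ M] [Algebra F M] [IsScalarTower ℂ F M] [Algebra M L] [IsScalarTower ℂ M L]
    {Q : EP M} (hQ : Gen F Q) (E : Pl F M → ValuationSubring L) (hE : ∀ W, E W ∈ T.VV)
    (hinj : Function.Injective E) (hmem : ∀ W c, algebraMap M L c ∈ E W ↔ c ∈ W.1)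
    (hord : ∀ W c, ord (E W) (algebraMap M L c) = ord W.1 c)
    {f : Pt L → Lˣ} (hf : IsCartier (blP P σ) f) :
    ∃ (N : ℕ) (u : Mˣ) (c : EP F) (α β : ℤ), 0 < N ∧ ∀ W,
      N * ord (E W) (f (vpt (E W) (T.const_mem (hE W))) : L) = ord (E W) (algebraMap M L u) +
        α * ord (E W) (zq (yc (up M L Q)) (vpt (E W) (T.const_mem (hE W))) : L) +
        β * ord (E W) (zq (yc (up M L (Q - up F M c))) (vpt (E W) (T.const_mem (hE W))) : L) := by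
  have _ := hmem
  have hfin : (Function.support fun W => ord (E W) (f (vpt (E W) (T.const_mem (hE W))) : L)).Finite :=
    ((T.mult_fin h hf).preimage hinj.injOn).subset fun W hW => ⟨hE W, hW⟩
  obtain ⟨N, g, c, α, β, hN, hg, H⟩ := hQ.rr _ hfin
  refine ⟨N, Units.mk0 g hg, c, α, β, hN, fun W => ?_⟩
  have := T.dvr (hE W)
  have hl : ∀ R : EP M, ord (E W) (zq (yc (up M L R)) (vpt (E W) (T.const_mem (hE W))) : L) =
      lam W.1 R := fun R => by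
    rw [← lam_eq_ord_zq, lam, lam, Elim_aux_yc, hord]
  rw [hl, hl, hord, H W, Units.val_mk0]

/-- Subtracting the exceptional planes. -/
theorem Elim_aux_exc (T : Tower P) (h : Cfg P σ) {f₁ : Pt L → Lˣ} (k₁ : IsCartier (blP P σ) f₁)
    (z₁ : ∀ V (hV : V ∈ T.VV), Elim_aux_mu V (T.const_mem hV) f₁ = 0) :
    ∃ (N₀ : ℕ) (a : F3 → ℤ), 0 < N₀ ∧
      Triv (blP P σ) (f₁ ^ N₀ / ∏ p, pull σ (eX P σ p) ^ a p) := by
  classical
  obtain ⟨W, hW, w₁, w₂⟩ := T.exists_Wfam h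
  have hm : ∀ p, ∃ m : ℕ, 0 < m ∧ Elim_aux_mu (W p) (hW p) (pull σ (eX P σ p)) = m := fun p => by
    have := (w₁ p).1
    obtain ⟨i, -, e⟩ := h.pull_eX_over (w₁ p).2.1 (w₁ p).2.2
    have h1 : 0 < Elim_aux_mu (W p) (hW p) (pull σ (eX P σ p)) := by
      refine (ord_pos_iff _ (Units.ne_zero _)).2 ?_
      rw [e]
      exact mem_mx_vpt.1 (Over.sc_mem (fun j => intg_val _ _ _) (w₁ p).2.2 i).2
    obtain ⟨m, hm⟩ := Int.eq_ofNat_of_zero_le h1.le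
    exact ⟨m, by rw [hm] at h1; exact_mod_cast h1, hm⟩
  choose m m₀ hm using hm
  obtain ⟨N₀, hN₀, hk⟩ : ∃ N₀ : ℕ, 0 < N₀ ∧ ∀ p, ∃ k : ℕ, N₀ = m p * k :=
    ⟨∏ q, m q, Finset.prod_pos fun q _ => m₀ q,
      fun p => Finset.dvd_prod_of_mem m (Finset.mem_univ p)⟩
  choose k hk using hk
  obtain ⟨a, ha⟩ : ∃ a : F3 → ℤ, ∀ p, a p = Elim_aux_mu (W p) (hW p) f₁ * k p := ⟨_, fun _ => rfl⟩
  refine ⟨N₀, a, hN₀, ?_⟩
  obtain ⟨w, hw⟩ : ∃ w, w = f₁ ^ N₀ / ∏ p, pull σ (eX P σ p) ^ a p := ⟨_, rfl⟩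
  rw [← hw]
  have k₀ : IsCartier (blP P σ) w := hw ▸ (k₁.pow _).div
    (isCartier_prod _ _ fun p _ => (h.eX_cartier p).to_pull.zpow _)
  have z₀ : ∀ V (hV : V ∈ T.VV), Elim_aux_mu V (T.const_mem hV) w = 0 := by
    intro V hV
    have := T.dvr hV
    rw [hw, Elim_aux_div, Elim_aux_pow, Elim_aux_prod, z₁ V hV, mul_zero, zero_sub, neg_eq_zero]
    refine Finset.sum_eq_zero fun p _ => ?_
    rw [Elim_aux_zpow, Elim_aux_one V _ (h.pull_eX_not ((T.mem_bl h hV).2 p)), mul_zero]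
  have z₀' : ∀ p, Elim_aux_mu (W p) (hW p) w = 0 := by
    intro p
    have := (w₁ p).1
    have e : ∑ q, Elim_aux_mu (W p) (hW p) (pull σ (eX P σ q) ^ a q) =
        Elim_aux_mu (W p) (hW p) (pull σ (eX P σ p) ^ a p) := by
      refine Finset.sum_eq_single_of_mem p (Finset.mem_univ p) fun q _ hq => ?_
      rw [Elim_aux_zpow, Elim_aux_one _ _ (h.pull_eX_not fun ho =>
        hq (over_inj h.gen (fun j => intg_val _ _ _) ho (w₁ p).2.2)), mul_zero]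
    rw [hw, Elim_aux_div, Elim_aux_pow, Elim_aux_prod, e, Elim_aux_zpow, hm, ha, hk p]
    push_cast
    ring
  intro O hO
  have a₁ : ∀ V ∈ T.VV, (∀ g ∈ O.1, g ∈ V) → (w O : L) ∈ V ∧ (w O : L)⁻¹ ∈ V := fun V hV hle =>
    have := T.dvr hV
    Elim_aux_unit V _ k₀ hO (T.mem_bl h hV).1 hle (z₀ V hV)
  have a₂ : ∀ p, Over O P p → (w O : L) ∈ W p ∧ (w O : L)⁻¹ ∈ W p := fun p hp =>
    have := (w₁ p).1
    Elim_aux_unit _ _ k₀ hO (w₁ p).2.1 ((w₂ O hO).1 p hp) (z₀' p)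
  exact ⟨Units.ne_zero _, (w₂ O hO).2 _ (fun V hV hle => (a₁ V hV hle).1) fun p hp => (a₂ p hp).1,
    (w₂ O hO).2 _ (fun V hV hle => (a₁ V hV hle).2) fun p hp => (a₂ p hp).2⟩

/-- Apply the step to `L / F2` (the point `c` is `a₀ P 0 + a₁ P 1 + const` by `end_any` twice),
then to `F2 / F1` and `F1 / ℂ` along the Gauss extensions (functions from the smaller fields are
units along the families treated before), then subtract the exceptional planes, whose equations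
are `1` along `VV`. A Cartier divisor with zero multiplicities is trivial by `exists_Wfam` and
`IsCartier.compat`. -/
theorem Cfg.elim (h : Cfg P σ) {f : Pt L → Lˣ} (hf : IsCartier (blP P σ) f) :
    ∃ (N : ℕ) (u : Lˣ) (n : Fin 6 → ℤ) (l : Fin 6 → Lam) (c : Fin 6 → EP ℂ) (a : F3 → ℤ)
      (w : Pt L → Lˣ), 0 < N ∧ Triv (blP P σ) w ∧
      f ^ N = w * (fun _ => u) * (∏ j, zq (yc (lin (l j) P - cst L (c j))) ^ n j) *
        ∏ p, pull σ (eX P σ p) ^ a p := by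
  classical
  obtain ⟨T⟩ := h.gen.tower
  have := charZero_of T.F1
  have hz : ∀ {Q : EP L} (l : Lam) (c : EP ℂ), Q = lin l P - cst L c →
      IsCartier (blP P σ) (zq (yc Q)) := fun l c e => e ▸ h.zq_cartier l c
  -- the first step
  obtain ⟨N₃, u₃, c₃, α₃, β₃, hN₃, H₃⟩ := T.step h (F := T.F2) (M := L) T.g3 (fun W => W.1)
    (fun W => Or.inl (Or.inl W.2)) Subtype.val_injective (fun _ _ => Iff.rfl) (fun _ _ => rfl) hf
  obtain ⟨a₁, c₃', rfl⟩ := T.g2.end_any c₃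
  obtain ⟨a₀, d₃, rfl⟩ := T.g1.end_any c₃'
  have e₀ : up L L (P 2) = lin ![0, 0, 1] P - cst L 0 := by
    simp [Elim_aux_up_self, lin, Fin.sum_univ_three]
  have e₁ : up L L (P 2 - up T.F2 L (a₁ • T.P2 + up T.F1 T.F2 (a₀ • T.P1 + up ℂ T.F1 d₃))) =
      lin ![-a₀, -a₁, 1] P - cst L d₃ := by
    rw [Elim_aux_up_self, map_add, map_smul, T.e2, Elim_aux_up_up, map_add, map_smul, T.e1,
      Elim_aux_up_cst]
    simp [lin, Fin.sum_univ_three]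
    abel
  obtain ⟨f₃, hf₃⟩ : ∃ g, g = f ^ N₃ / ((fun _ => u₃) * zq (yc (up L L (P 2))) ^ α₃ * zq (yc (up L L
    (P 2 - up T.F2 L (a₁ • T.P2 + up T.F1 T.F2 (a₀ • T.P1 + up ℂ T.F1 d₃))))) ^ β₃) := ⟨_, rfl⟩
  have k₃ : IsCartier (blP P σ) f₃ := hf₃ ▸ (hf.pow _).div
    (((isCartier_const _).mul ((hz _ _ e₀).zpow _)).mul ((hz _ _ e₁).zpow _))
  have z₃ : ∀ V (hV : V ∈ T.VV), V ∈ T.V3 → Elim_aux_mu V (T.const_mem hV) f₃ = 0 := by
    intro V hV hV3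
    have := T.dvr hV
    rw [hf₃, Elim_aux_stage, sub_eq_zero]
    exact H₃ ⟨V, hV3⟩
  -- the second step
  choose G₃ hG₃ using T.g3.exists_gauss
  choose G₂ hG₂ using T.g2.exists_gauss
  have d₂ : ∀ W : Pl T.F1 T.F2, IsDiscreteValuationRing W.1 := T.g2.isFF.dvr
  obtain ⟨N₂, u₂, c₂, α₂, β₂, hN₂, H₂⟩ := T.step h (F := T.F1) (M := T.F2) T.g2
    (fun W => G₃ W.1) (fun W => Or.inl (Or.inr ⟨W, hG₃ _⟩))
    (fun W W' e => Subtype.ext (ValuationSubring.ext _ _ fun x => by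
      rw [← (hG₃ W.1).1, ← (hG₃ W'.1).1]; exact Iff.of_eq (congrArg (_ ∈ ·) e)))
    (fun W c => (hG₃ W.1).1 c) (fun W c => have := d₂ W; ((hG₃ W.1).dvr T.g3).2 c) k₃
  obtain ⟨b₀, d₂', rfl⟩ := T.g1.end_any c₂
  have e₂ : up T.F2 L T.P2 = lin ![0, 1, 0] P - cst L 0 := by
    simp [T.e2, lin, Fin.sum_univ_three]
  have e₃ : up T.F2 L (T.P2 - up T.F1 T.F2 (b₀ • T.P1 + up ℂ T.F1 d₂')) =
      lin ![-b₀, 1, 0] P - cst L d₂' := by
    rw [map_sub, T.e2, Elim_aux_up_up, map_add, map_smul, T.e1, Elim_aux_up_cst]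
    simp [lin, Fin.sum_univ_three]
    abel
  obtain ⟨f₂, hf₂⟩ : ∃ g, g = f₃ ^ N₂ / ((fun _ => Units.map (algebraMap T.F2 L : T.F2 →* L) u₂) *
    zq (yc (up T.F2 L T.P2)) ^ α₂ *
    zq (yc (up T.F2 L (T.P2 - up T.F1 T.F2 (b₀ • T.P1 + up ℂ T.F1 d₂')))) ^ β₂) := ⟨_, rfl⟩
  have k₂ : IsCartier (blP P σ) f₂ := hf₂ ▸ (k₃.pow _).div
    (((isCartier_const _).mul ((hz _ _ e₂).zpow _)).mul ((hz _ _ e₃).zpow _))
  have z₂ : ∀ V (hV : V ∈ T.VV), V ∈ T.V3 ∪ T.V2 → Elim_aux_mu V (T.const_mem hV) f₂ = 0 := by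
    intro V hV hV'
    have := T.dvr hV
    rcases hV' with hV3 | ⟨W, hW⟩
    · rw [hf₂]
      exact Elim_aux_sub V _ hV3.2 (z₃ V hV hV3) _ _ _ _ _ _
    · obtain rfl := hW.unique T.g3 (hG₃ W.1)
      rw [hf₂, Elim_aux_stage, sub_eq_zero]
      exact H₂ W
  -- the third step
  have d₁ : ∀ W : Pl ℂ T.F1, IsDiscreteValuationRing W.1 := T.g1.isFF.dvr
  have m₁ : ∀ (W : ValuationSubring T.F1) (c : T.F1), algebraMap T.F1 L c ∈ G₃ (G₂ W) ↔ c ∈ W :=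
    fun W c => by
      rw [IsScalarTower.algebraMap_apply T.F1 T.F2 L, (hG₃ _).1, (hG₂ _).1]
  obtain ⟨N₁, u₁, c₁, α₁, β₁, hN₁, H₁⟩ := T.step h (F := ℂ) (M := T.F1) T.g1
    (fun W => G₃ (G₂ W.1)) (fun W => Or.inr ⟨W, _, hG₂ _, hG₃ _⟩)
    (fun W W' e => Subtype.ext (ValuationSubring.ext _ _ fun x => by
      rw [← m₁ W.1, ← m₁ W'.1]; exact Iff.of_eq (congrArg (_ ∈ ·) e)))
    (fun W c => m₁ W.1 c) (fun W c => by
      have := d₁ W
      have h2 := (hG₂ W.1).dvr T.g2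
      have := h2.1
      rw [IsScalarTower.algebraMap_apply T.F1 T.F2 L, ((hG₃ _).dvr T.g3).2, h2.2]) k₂
  have e₄ : up T.F1 L T.P1 = lin ![1, 0, 0] P - cst L 0 := by
    simp [T.e1, lin, Fin.sum_univ_three]
  have e₅ : up T.F1 L (T.P1 - up ℂ T.F1 c₁) = lin ![1, 0, 0] P - cst L c₁ := by
    rw [map_sub, T.e1, Elim_aux_up_cst]
    simp [lin, Fin.sum_univ_three]
  obtain ⟨f₁, hf₁⟩ : ∃ g, g = f₂ ^ N₁ / ((fun _ => Units.map (algebraMap T.F1 L : T.F1 →* L) u₁) *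
    zq (yc (up T.F1 L T.P1)) ^ α₁ * zq (yc (up T.F1 L (T.P1 - up ℂ T.F1 c₁))) ^ β₁) := ⟨_, rfl⟩
  have k₁ : IsCartier (blP P σ) f₁ := hf₁ ▸ (k₂.pow _).div
    (((isCartier_const _).mul ((hz _ _ e₄).zpow _)).mul ((hz _ _ e₅).zpow _))
  have z₁ : ∀ V (hV : V ∈ T.VV), Elim_aux_mu V (T.const_mem hV) f₁ = 0 := by
    intro V hV
    have := T.dvr hV
    rcases id hV with hV' | ⟨W, W', hW, hW'⟩
    · rw [hf₁]
      refine Elim_aux_sub V _ (fun c => ?_) (z₂ V hV hV') _ _ _ _ _ _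
      rw [IsScalarTower.algebraMap_apply T.F1 T.F2 L]
      rcases hV' with hV3 | ⟨W, hW⟩
      · exact hV3.2 _
      · exact (hW.1 _).2 (W.2.2 c)
    · obtain rfl := hW.unique T.g2 (hG₂ W.1)
      obtain rfl := hW'.unique T.g3 (hG₃ _)
      rw [hf₁, Elim_aux_stage, sub_eq_zero]
      exact H₁ W
  -- the exceptional planes
  obtain ⟨N₀, a, hN₀, hT⟩ := Elim_aux_exc T h k₁ z₁
  refine ⟨N₃ * N₂ * N₁ * N₀, u₃ ^ (N₂ * N₁ * N₀) *
      Units.map (algebraMap T.F2 L : T.F2 →* L) u₂ ^ (N₁ * N₀) *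
      Units.map (algebraMap T.F1 L : T.F1 →* L) u₁ ^ N₀,
    ![α₃ * N₂ * N₁ * N₀, β₃ * N₂ * N₁ * N₀, α₂ * N₁ * N₀, β₂ * N₁ * N₀, α₁ * N₀, β₁ * N₀],
    ![![0, 0, 1], ![-a₀, -a₁, 1], ![0, 1, 0], ![-b₀, 1, 0], ![1, 0, 0], ![1, 0, 0]],
    ![0, d₃, 0, d₂', 0, c₁], a, _,
    Nat.mul_pos (Nat.mul_pos (Nat.mul_pos hN₃ hN₂) hN₁) hN₀, hT, ?_⟩
  rw [Fin.prod_univ_six, hf₁, hf₂, hf₃, e₀, e₁, e₂, e₃, e₄, e₅]
  generalize (∏ p, pull σ (eX P σ p) ^ a p) = e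
  exact Elim_aux_comb f (fun _ => u₃) (fun _ => Units.map (algebraMap T.F2 L : T.F2 →* L) u₂)
    (fun _ => Units.map (algebraMap T.F1 L : T.F1 →* L) u₁) _ _ _ _ _ _ e N₃ N₂ N₁ N₀
    α₃ β₃ α₂ β₂ α₁ β₁

end Pool.Agent.MP_95da86_ag
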