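import Pool.Agent.MP_95da86_ag.Tests
import Pool.Agent.MP_95da86_ag.Aff
import Pool.Agent.MP_95da86_ag.AbsMain

/-! Assembly. -/

namespace Pool.Agent.MP_95da86_ag

variable {L : Type} [Field L] [Algebra ℂ L] {P : Fin 3 → EP L} {σ : L ≃ₐ[ℂ] L}

/-- The numerical data of the threefold. -/
noncomputable def Cfg.geo (h : Cfg P σ) : Geo (Curve (XP P σ)) where
  Cart := h.cart
  Eff := effClasses (XP P σ)
  G := autG (XP P σ)
  q := qX P σ
  m := mX P σ
  int := by rintro d ⟨f, -, hf⟩ c; exact ⟨_, hf c⟩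
  eff_sub := by rintro d ⟨f, hf, -, hd⟩; exact ⟨f, hf, hd⟩
  G_cart g hg d hd := classes_comp hg hd
  G_eff g hg d hd := effClasses_comp hg hd
  ax := h.curveAx
  gen := h.gen_classes
  z_mem := h.z_mem
  e_mem := h.e_mem
  s_mem := h.s_mem
  aff := h.aff
  test1 := h.test1
  test2 := h.test2
  test3 := h.test3

theorem Final_aux_absorb {C : Type} (N : Submodule ℝ (C → ℝ)) (A : Set N) (B : Set (C → ℝ))
    (hAB : ∀ a ∈ A, a.1 ∈ B) (x : N) (hx : x ∈ interior A) : Absorb N B x.1 := by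
  intro v hv
  have hc : Continuous fun ε : ℝ => x + ε • (⟨v, hv⟩ : N) := by fun_prop
  have h0 : ∀ᶠ ε in nhds (0 : ℝ), x + ε • (⟨v, hv⟩ : N) ∈ A := by
    apply hc.continuousAt.preimage_mem_nhds
    simpa using mem_interior_iff_mem_nhds.1 hx
  have h1 : ∀ᶠ ε in nhdsWithin (0 : ℝ) (Set.Ioi 0), x + ε • (⟨v, hv⟩ : N) ∈ A :=
    h0.filter_mono nhdsWithin_le_nhds
  obtain ⟨ε, hε, hε'⟩ := (h1.and self_mem_nhdsWithin).exists
  exact ⟨ε, hε', hAB _ hε⟩

theorem Final_aux_span {C : Type} (N : Submodule ℝ (C → ℝ)) (S : Set N) (d : C → ℝ) :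
    d ∈ Submodule.span NNReal (Subtype.val '' S) ↔ ∃ e ∈ Submodule.span NNReal S, e.1 = d := by
  have h := Submodule.map_span (N.subtype.restrictScalars NNReal) S
  have h' : (N.subtype.restrictScalars NNReal) '' S = Subtype.val '' S := rfl
  rw [h'] at h
  rw [← h, Submodule.mem_map]
  rfl

/-- Translation of the abstract statement for any model: lift `S` to the subtype `N1 Y`
(`Submodule.map_span` along the inclusion), use `pull_iff`, and note that an interior point is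
absorbing by continuity of `ε ↦ x + ε • v`. -/
theorem cone_of_geo {M : Type} [Field M] [Algebra ℂ M] {Y : Set (Pt M)} (Γ : Geo (Curve Y))
    (h1 : (Γ.Cart : Set (Curve Y → ℝ)) = classes Y) (h2 : Γ.Eff = effClasses Y) (h3 : Γ.G = autG Y) :
    ∃ S : Finset (N1 Y), (∀ d ∈ S, d.1 ∈ classes Y) ∧
      nefEff Y = ⋃ g ∈ {g | IsAut Y g},
        {e | ∃ d ∈ Submodule.span NNReal (S : Set (N1 Y)), Pull g d e} ∧
      ∀ g, IsAut Y g → (¬ ∀ d : N1 Y, Pull g d d) →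
        interior (Submodule.span NNReal (S : Set (N1 Y)) : Set (N1 Y)) ∩
          interior {e | ∃ d ∈ Submodule.span NNReal (S : Set (N1 Y)), Pull g d e} = ∅ := by
  classical
  obtain ⟨S, hS, hc, hi⟩ := Γ.main
  rw [h1] at hi
  have hSN : ∀ d ∈ S, d ∈ classes Y := fun d hd => h1 ▸ (hS d hd)
  let S' : Finset (N1 Y) := S.subtype (· ∈ N1 Y)
  have hS' : Subtype.val '' (S' : Set (N1 Y)) = (S : Set (Curve Y → ℝ)) := by
    ext d
    constructor
    · rintro ⟨e, he, rfl⟩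
      exact Finset.mem_coe.2 (Finset.mem_subtype.1 (Finset.mem_coe.1 he))
    · intro hd
      exact ⟨⟨d, Submodule.subset_span (hSN d hd)⟩,
        Finset.mem_coe.2 (Finset.mem_subtype.2 (Finset.mem_coe.1 hd)), rfl⟩
  have hsp : ∀ d, d ∈ Submodule.span NNReal (S : Set (Curve Y → ℝ)) ↔
      ∃ e ∈ Submodule.span NNReal (S' : Set (N1 Y)), e.1 = d := fun d => by
    rw [← hS']; exact Final_aux_span _ _ _
  have hcone : ∀ d : N1 Y, d ∈ nefEff Y ↔ d.1 ∈ Γ.cone := fun d => by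
    rw [Geo.cone, Submodule.mem_inf, h2]
    exact and_comm
  refine ⟨S', fun d hd => hSN _ (Finset.mem_subtype.1 hd), ?_, fun g hg hne => ?_⟩
  · ext e
    rw [hcone, hc, h3]
    simp only [Set.mem_iUnion, Set.mem_ofPred_eq]
    constructor
    · rintro ⟨π, ⟨g, hg, hπ⟩, d, hd, he⟩
      obtain ⟨d', hd', rfl⟩ := (hsp d).1 hd
      exact ⟨g, hg, d', hd', (pull_iff hπ _ _).2 he⟩
    · rintro ⟨g, hg, d, hd, he⟩
      obtain ⟨π, hπ⟩ := hg.exists_perm
      exact ⟨π, ⟨g, hg, hπ⟩, d.1, (hsp _).2 ⟨d, hd, rfl⟩, (pull_iff hπ _ _).1 he⟩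
  · obtain ⟨π, hπ⟩ := hg.exists_perm
    have hG : π ∈ Γ.G := by rw [h3]; exact ⟨g, hg, hπ⟩
    have hmove : ∃ d ∈ Submodule.span ℝ (classes Y), d ∘ π ≠ d := by
      by_contra hcon
      push Not at hcon
      exact hne fun d => (pull_iff hπ _ _).2 (hcon d.1 d.2).symm
    refine Set.eq_empty_of_forall_notMem fun x hx => hi π hG hmove x.1 ?_ ?_
    · exact Final_aux_absorb _ _ _ (fun a ha => (hsp _).2 ⟨a, ha, rfl⟩) x hx.1
    · refine Final_aux_absorb _ _ _ ?_ x hx.2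
      rintro a ⟨d, hd, he⟩
      exact ⟨d.1, (hsp _).2 ⟨d, hd, rfl⟩, (pull_iff hπ _ _).1 he⟩

theorem cfg_of (x y : Fin 3 → L) (σ : L ≃ₐ[ℂ] L) (hx : AlgebraicIndependent ℂ x)
    (hE : ∀ i, y i ^ 2 = x i ^ 3 + 1)
    (hL : IntermediateField.adjoin ℂ (Set.range x ∪ Set.range y) = ⊤)
    (hσ : ∀ i, σ (x i) = Complex.exp (2 * Real.pi * Complex.I / 3) • x i ∧ σ (y i) = y i) :
    Cfg (fun i => pt (x i) (y i) (hE i)) σ where
  gen := ⟨fun _ => pt_ne_zero _ _ _, hx, hL⟩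
  rot i := by
    rw [emap_pt, om_smul, rot_pt]
    exact pt_congr (((hσ i).1).trans (Algebra.smul_def _ _)) (hσ i).2

end Pool.Agent.MP_95da86_ag
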