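import Pool.Agent.MP_95da86_ag.Quot
import Pool.Agent.MP_95da86_ag.Elim

/-! Numerical classes on the threefold. -/

namespace Pool.Agent.MP_95da86_ag

variable {L : Type} [Field L] [Algebra ℂ L] {P : Fin 3 → EP L} {σ : L ≃ₐ[ℂ] L}

theorem Form_aux_fin {M : Type} [Field M] [Algebra ℂ M] (t : Fin 3 → M)
    (u : Fin 3 → Fin 3 → M) : (Set.range (eq3 t u)).Finite := by
  refine (((Set.finite_range t).insert 1).preimage Units.val_injective.injOn).subset ?_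
  rintro _ ⟨O, rfl⟩
  unfold eq3
  split_ifs with h
  · exact Or.inr ⟨_, rfl⟩
  · exact Or.inl rfl

theorem Cfg.finT_eX (h : Cfg P σ) {ξ : Pt L} (hξ : ξ ∈ blP P σ) (hF : IsFF ℂ (RF ξ)) (p : F3) :
    FinT (blP P σ) (pull σ (eX P σ p)) ξ := by
  refine finT_of_finite h.bl_sep h.bl_proper hξ hF (h.eX_cartier p).to_pull ?_
  refine ((Form_aux_fin (fun i => toK σ (tc (sh P p i))) fun i j => toK σ (ur P p i j)).image
    (Units.map ((KK σ).val : KK σ →* L))).subset ?_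
  rintro _ ⟨O, rfl⟩
  exact ⟨_, ⟨_, rfl⟩, rfl⟩

theorem Form_aux_elim (h : Cfg P σ) {ξ : Pt L} (hξ : ξ ∈ blP P σ) (hF : IsFF ℂ (RF ξ))
    (u : Lˣ) (n : Fin 6 → ℤ) (l : Fin 6 → Lam) (c : Fin 6 → EP ℂ) (a : F3 → ℤ)
    {w : Pt L → Lˣ} (hw : Triv (blP P σ) w) :
    FinT (blP P σ) (w * (fun _ => u) * (∏ j, zq (yc (lin (l j) P - cst L (c j))) ^ n j) *
      ∏ p, pull σ (eX P σ p) ^ a p) ξ ∧
    deg (blP P σ) (w * (fun _ => u) * (∏ j, zq (yc (lin (l j) P - cst L (c j))) ^ n j) *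
      ∏ p, pull σ (eX P σ p) ^ a p) ξ =
      ∑ j, n j * deg (blP P σ) (zq (yc (lin (l j) P - cst L (c j)))) ξ +
        ∑ p, a p * deg (blP P σ) (pull σ (eX P σ p)) ξ := by
  have hS := h.bl_sep
  have hP := h.bl_proper
  have c1 := hw.isCartier
  have c2 := isCartier_const (Y := blP P σ) u
  have c3 := fun j => h.zq_cartier (l j) (c j)
  have c4 := fun p => (h.eX_cartier p).to_pull
  have f1 := hw.finT hS hP hξ hF
  have f2 := finT_const hS hP hξ hF u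
  have f3 := fun j => (finT_zq hS hP hξ hF _ (c3 j)).zpow hS hP hξ hF (c3 j) (n j)
  have f4 := fun p => (h.finT_eX hξ hF p).zpow hS hP hξ hF (c4 p) (a p)
  have C3 := isCartier_prod Finset.univ _ fun j _ => (c3 j).zpow (n j)
  have C4 := isCartier_prod Finset.univ _ fun p _ => (c4 p).zpow (a p)
  have F3' := finT_prod hS hP hξ hF Finset.univ _ (fun j _ => (c3 j).zpow (n j)) fun j _ => f3 j
  have F4 := finT_prod hS hP hξ hF Finset.univ _ (fun p _ => (c4 p).zpow (a p)) fun p _ => f4 p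
  have g1 := f1.mul hS hP hξ hF c1 c2 f2
  have g2 := g1.mul hS hP hξ hF (c1.mul c2) C3 F3'
  refine ⟨g2.mul hS hP hξ hF ((c1.mul c2).mul C3) C4 F4, ?_⟩
  rw [deg_mul hS hP hξ hF ((c1.mul c2).mul C3) C4 g2 F4, deg_mul hS hP hξ hF (c1.mul c2) C3 g1 F3',
    deg_mul hS hP hξ hF c1 c2 f1 f2, hw.deg_eq_zero hS hP hξ hF, deg_const hS hP hξ hF,
    deg_prod hS hP hξ hF Finset.univ _ (fun j _ => (c3 j).zpow (n j)) fun j _ => f3 j,
    deg_prod hS hP hξ hF Finset.univ _ (fun p _ => (c4 p).zpow (a p)) fun p _ => f4 p,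
    add_zero, zero_add]
  congr 1
  · exact Finset.sum_congr rfl fun j _ => deg_zpow hS hP hξ hF (c3 j) (n j)
  · exact Finset.sum_congr rfl fun p _ => deg_zpow hS hP hξ hF (c4 p) (a p)

/-- From `elim`. -/
theorem Cfg.finT (h : Cfg P σ) {ξ : Pt L} (hξ : ξ ∈ blP P σ) (hF : IsFF ℂ (RF ξ))
    {f : Pt L → Lˣ} (hf : IsCartier (blP P σ) f) : FinT (blP P σ) f ξ := by
  obtain ⟨N, u, n, l, c, a, w, hN, hw, e⟩ := h.elim hf
  refine FinT.of_pow h.bl_sep h.bl_proper hξ hF hf hN ?_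
  rw [e]
  exact (Form_aux_elim h hξ hF u n l c a hw).1

theorem Cfg.deg_zq_lin (h : Cfg P σ) {ξ : Pt L} (hξ : ξ ∈ blP P σ) (hF : IsFF ℂ (RF ξ))
    (l : Lam) (c : EP ℂ) : deg (blP P σ) (zq (yc (lin l P - cst L c))) ξ =
      ht ℂ (lin l fun i => red ξ (P i)) := by
  rw [deg_zq h.bl_sep h.bl_proper hξ hF fun O hO => (intg_lin (h.bl_intg hO) l).sub (intg_cst c),
    red_sub (intg_lin (h.bl_intg hξ) l) (intg_cst c), red_lin (h.bl_intg hξ), red_cst,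
    sub_eq_add_neg, ← map_neg, ← up_eq_cst, ht_add_up hF]

theorem Form_aux_zX (h : Cfg P σ) {ξ : Pt L} (hξ : ξ ∈ blP P σ) (hF : IsFF ℂ (RF ξ))
    (l : Lam) (τ : ZMod 3) : deg (blP P σ) (pull σ (zX P σ l τ)) ξ =
      ht ℂ (lin l fun i => red ξ (P i)) := by
  have e : tors L τ = cst L (tors ℂ τ) := (emap_tors _ τ).symm
  rw [h.pull_zX, e, h.deg_zq_lin hξ hF]

/-- The data of a curve, computed on any lift. -/
theorem Cfg.lift_data (h : Cfg P σ) (η : Curve (XP P σ)) {ξ : Pt L} (hξ : ξ ∈ blP P σ)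
    (e : η.1 = qpt (KK σ) ξ) : IsFF ℂ (RF ξ) ∧ ∃ n : ℕ, 0 < n ∧
      (∀ f, IsCartier (XP P σ) f → deg (blP P σ) (pull σ f) ξ = n * deg (XP P σ) f η.1) ∧
      (∀ l, (n : ℝ) * qX P σ η l = ht ℂ (lin l fun i => red ξ (P i))) ∧
      ∀ p, (n : ℝ) * mX P σ η p = deg (blP P σ) (pull σ (eX P σ p)) ξ := by
  have hF : IsFF ℂ (RF ξ) := (h.curve_iff hξ).1 (e ▸ η.2.2)
  obtain ⟨n, hn, hd⟩ := h.deg_pull hξ hF
  rw [← e] at hd
  refine ⟨hF, n, hn, hd, fun l => ?_, fun p => ?_⟩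
  · rw [← Form_aux_zX h hξ hF l 0, hd _ (h.zX_cartier l 0), qX]
    push_cast
    rfl
  · rw [hd _ (h.eX_cartier p), mX]
    push_cast
    rfl

theorem Cfg.deg_zX (h : Cfg P σ) (η : Curve (XP P σ)) (l : Lam) (τ : ZMod 3) :
    (deg (XP P σ) (zX P σ l τ) η.1 : ℝ) = qX P σ η l := by
  obtain ⟨ξ, hξ, e⟩ := mem_XP.1 η.2.1
  obtain ⟨hF, n, hn, hd, hq, -⟩ := h.lift_data η hξ e
  apply mul_left_cancel₀ (Nat.cast_ne_zero.2 hn.ne' : (n : ℝ) ≠ 0)
  rw [hq, ← Form_aux_zX h hξ hF l τ, hd _ (h.zX_cartier l τ)]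
  push_cast
  rfl

theorem Cfg.degX_mul (h : Cfg P σ) (η : Curve (XP P σ)) {f g : Pt (KK σ) → (KK σ)ˣ}
    (hf : IsCartier (XP P σ) f) (hg : IsCartier (XP P σ) g) :
    deg (XP P σ) (f * g) η.1 = deg (XP P σ) f η.1 + deg (XP P σ) g η.1 := by
  obtain ⟨ξ, hξ, e⟩ := mem_XP.1 η.2.1
  obtain ⟨hF, n, hn, hd, -⟩ := h.lift_data η hξ e
  apply mul_left_cancel₀ (Nat.cast_ne_zero.2 hn.ne' : (n : ℤ) ≠ 0)
  rw [mul_add, ← hd _ hf, ← hd _ hg, ← hd _ (hf.mul hg), pull_mul,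
    deg_mul h.bl_sep h.bl_proper hξ hF hf.to_pull hg.to_pull (h.finT hξ hF hf.to_pull)
      (h.finT hξ hF hg.to_pull)]

theorem Form_aux_triv (h : Cfg P σ) (η : Curve (XP P σ)) {f : Pt (KK σ) → (KK σ)ˣ}
    (hf : Triv (XP P σ) f) : deg (XP P σ) f η.1 = 0 := by
  obtain ⟨ξ, hξ, e⟩ := mem_XP.1 η.2.1
  obtain ⟨hF, n, hn, hd, -⟩ := h.lift_data η hξ e
  apply mul_left_cancel₀ (Nat.cast_ne_zero.2 hn.ne' : (n : ℤ) ≠ 0)
  rw [← hd _ hf.isCartier, mul_zero]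
  refine Triv.deg_eq_zero h.bl_sep h.bl_proper hξ hF fun O hO => ?_
  rw [coe_pull, ← isU_qpt]
  exact hf _ (mem_XP.2 ⟨O, hO, rfl⟩)

theorem Form_aux_one (h : Cfg P σ) (η : Curve (XP P σ)) : deg (XP P σ) 1 η.1 = 0 :=
  Form_aux_triv h η fun O _ => isU_one O

theorem Cfg.degX_inv (h : Cfg P σ) (η : Curve (XP P σ)) {f : Pt (KK σ) → (KK σ)ˣ}
    (hf : IsCartier (XP P σ) f) : deg (XP P σ) f⁻¹ η.1 = -deg (XP P σ) f η.1 := by
  have := h.degX_mul η hf.inv hf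
  rw [inv_mul_cancel, Form_aux_one h η] at this
  omega

theorem Cfg.degX_congr (h : Cfg P σ) (η : Curve (XP P σ)) {f g : Pt (KK σ) → (KK σ)ˣ}
    (hf : IsCartier (XP P σ) f) (hg : IsCartier (XP P σ) g) (hfg : Triv (XP P σ) (f / g)) :
    deg (XP P σ) f η.1 = deg (XP P σ) g η.1 := by
  have := h.degX_mul η (hf.div hg) hg
  rwa [div_mul_cancel, Form_aux_triv h η hfg, zero_add] at this

theorem Form_aux_prod (h : Cfg P σ) (η : Curve (XP P σ)) {ι : Type} (s : Finset ι)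
    (F : ι → Pt (KK σ) → (KK σ)ˣ) (hF : ∀ i, IsCartier (XP P σ) (F i)) :
    deg (XP P σ) (∏ i ∈ s, F i) η.1 = ∑ i ∈ s, deg (XP P σ) (F i) η.1 := by
  classical
  induction s using Finset.induction_on with
  | empty => rw [Finset.prod_empty, Finset.sum_empty, Form_aux_one h η]
  | insert a s ha ih =>
    rw [Finset.prod_insert ha, Finset.sum_insert ha,
      h.degX_mul η (hF a) (isCartier_prod s F fun i _ => hF i), ih]

/-- The classes of Cartier divisors form a group. -/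
def Cfg.cart (h : Cfg P σ) : AddSubgroup (Curve (XP P σ) → ℝ) where
  carrier := classes (XP P σ)
  add_mem' := by
    rintro a b ⟨f, hf, ha⟩ ⟨g, hg, hb⟩
    refine ⟨f * g, hf.mul hg, fun η => ?_⟩
    rw [Pi.add_apply, ha, hb, h.degX_mul η hf hg, Int.cast_add]
  zero_mem' := ⟨1, isCartier_one, fun η => by rw [Form_aux_one h η, Int.cast_zero]; rfl⟩
  neg_mem' := by
    rintro a ⟨f, hf, ha⟩
    refine ⟨f⁻¹, hf.inv, fun η => ?_⟩
    rw [Pi.neg_apply, ha, h.degX_inv η hf, Int.cast_neg]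

theorem Cfg.gen_classes (h : Cfg P σ) : ∀ d ∈ classes (XP P σ),
    ∃ (N : ℕ) (n : Fin 6 → ℤ) (l : Fin 6 → Lam) (a : F3 → ℤ), 0 < N ∧
      ∀ c, N * d c = ∑ j, n j * qX P σ c (l j) - ∑ p, a p * mX P σ c p := by
  rintro d ⟨f, hf, hd⟩
  obtain ⟨N, u, n, l, c, a, w, hN, hw, e⟩ := h.elim hf.to_pull
  refine ⟨N, n, l, -a, hN, fun η => ?_⟩
  obtain ⟨ξ, hξ, e'⟩ := mem_XP.1 η.2.1
  obtain ⟨hF, k, hk, h1, h2, h3⟩ := h.lift_data η hξ e'
  have h4 := (Form_aux_elim h hξ hF u n l c a hw).2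
  rw [← e, ← zpow_natCast, deg_zpow h.bl_sep h.bl_proper hξ hF hf.to_pull, h1 f hf] at h4
  simp only [h.deg_zq_lin hξ hF] at h4
  have h5 := congrArg (Int.cast : ℤ → ℝ) h4
  push_cast at h5
  simp only [← h2, ← h3] at h5
  apply mul_left_cancel₀ (Nat.cast_ne_zero.2 hk.ne' : (k : ℝ) ≠ 0)
  rw [hd, mul_left_comm, h5, mul_sub, Finset.mul_sum, Finset.mul_sum, sub_eq_add_neg,
    ← Finset.sum_neg_distrib]
  congr 1
  · exact Finset.sum_congr rfl fun j _ => by ring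
  · exact Finset.sum_congr rfl fun p _ => by rw [Pi.neg_apply, Int.cast_neg]; ring

theorem Cfg.z_mem (h : Cfg P σ) (l : Lam) : (fun c => qX P σ c l) ∈ classes (XP P σ) :=
  ⟨_, h.zX_cartier l 0, fun _ => rfl⟩
theorem Cfg.e_mem (h : Cfg P σ) (p : F3) : (fun c => mX P σ c p) ∈ effClasses (XP P σ) :=
  ⟨_, h.eX_cartier p, h.eX_eff p, fun _ => rfl⟩
theorem Cfg.s_mem (h : Cfg P σ) (l : Lam) (τ : ZMod 3) (hl : ∃ i, bar (l i) ≠ 0) :
    (fun c => qX P σ c l - ∑ p with dotb l p = τ, mX P σ c p) ∈ effClasses (XP P σ) := by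
  have hc := isCartier_prod (Finset.univ.filter fun p => dotb l p = τ) (eX P σ)
    fun p _ => h.eX_cartier p
  refine ⟨zX P σ l τ * (∏ p with dotb l p = τ, eX P σ p)⁻¹, (h.zX_cartier l τ).mul hc.inv,
    fun O' hO' => ?_, fun η => ?_⟩
  · obtain ⟨O, hO, rfl⟩ := mem_XP.1 hO'
    have := h.s_eff hl τ hO
    rw [← h.pull_zX, ← pull_prod, div_eq_mul_inv, ← pull_inv, ← pull_mul, coe_pull] at this
    exact this
  · rw [h.degX_mul η (h.zX_cartier l τ) hc.inv, h.degX_inv η hc,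
      Form_aux_prod h η _ _ h.eX_cartier, Int.cast_add, h.deg_zX, Int.cast_neg, Int.cast_sum]
    rfl

end Pool.Agent.MP_95da86_ag
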