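import Pool.Agent.MP_95da86_ag.GenA

/-! The function field of the curve over a field `F`. -/

namespace Pool.Agent.MP_95da86_ag

open Polynomial WeierstrassCurve.Affine

theorem Gen_aux_dvd {F M : Type} [Field F] [Field M] [Algebra F M] {x : M}
    (hx : Transcendental F x) {r s : F[X]} (hs : s ≠ 0)
    (h : IsIntegral (Algebra.adjoin F {x}) (aeval x r / aeval x s)) : s ∣ r := by
  let φ : F[X] →ₐ[F] Algebra.adjoin F {x} :=
    aeval (⟨x, Algebra.subset_adjoin (by simp)⟩ : Algebra.adjoin F {x})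
  have hφ : ∀ p, (φ p : M) = aeval x p := fun p =>
    (aeval_algHom_apply (Algebra.adjoin F {x}).val _ p).symm
  have hsurj : Function.Surjective φ := by
    rintro ⟨z, hz⟩
    rw [Algebra.adjoin_singleton_eq_range_aeval] at hz
    obtain ⟨p, rfl⟩ := hz
    exact ⟨p, Subtype.ext (hφ p)⟩
  let : Algebra F[X] (Algebra.adjoin F {x}) := φ.toRingHom.toAlgebra
  let : Algebra F[X] M := (aeval x : F[X] →ₐ[F] M).toRingHom.toAlgebra
  have : IsScalarTower F[X] (Algebra.adjoin F {x}) M :=
    IsScalarTower.of_algebraMap_eq fun p => (hφ p).symm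
  have : Algebra.IsIntegral F[X] (Algebra.adjoin F {x}) := Algebra.isIntegral_of_surjective hsurj
  have h1 : IsIntegral F[X] (aeval x r / aeval x s) := isIntegral_trans _ h
  have hinj : Function.Injective (algebraMap F[X] M) := transcendental_iff_injective.1 hx
  let ψ : FractionRing F[X] →+* M := IsFractionRing.lift hinj
  let : Algebra (FractionRing F[X]) M := ψ.toAlgebra
  have : IsScalarTower F[X] (FractionRing F[X]) M :=
    IsScalarTower.of_algebraMap_eq fun p => (IsFractionRing.lift_algebraMap hinj p).symm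
  have e : aeval x r / aeval x s = algebraMap (FractionRing F[X]) M
      (algebraMap F[X] _ r / algebraMap F[X] _ s) := by
    rw [map_div₀, ← IsScalarTower.algebraMap_apply, ← IsScalarTower.algebraMap_apply]; rfl
  rw [e, isIntegral_algebraMap_iff (algebraMap (FractionRing F[X]) M).injective] at h1
  obtain ⟨c, hc⟩ := IsIntegrallyClosed.isIntegral_iff.1 h1
  have hs' : algebraMap F[X] (FractionRing F[X]) s ≠ 0 := by simpa using hs
  rw [eq_div_iff hs', ← map_mul] at hc
  exact ⟨c, by rw [← IsFractionRing.injective F[X] (FractionRing F[X]) hc, mul_comm]⟩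

theorem Gen_aux_sq {F : Type} [Field F] [CharZero F] {b q : F[X]} (hb : b ≠ 0)
    (h : b ^ 2 ∣ q ^ 2 * (X ^ 3 + 1)) : b ∣ q := by
  classical
  have hsq : Squarefree (X ^ 3 + 1 : F[X]) := by
    have := (separable_X_pow_sub_C (F := F) (n := 3) (-1) (by norm_num) (by norm_num)).squarefree
    simpa using this
  obtain ⟨g, b', q', rfl, rfl, hc⟩ : ∃ g b' q', b = g * b' ∧ q = g * q' ∧ IsCoprime b' q' := by
    obtain ⟨b', q', h1, h2, h3⟩ := extract_gcd b q
    exact ⟨_, b', q', h1, h2, (gcd_isUnit_iff_isRelPrime.1 h3).isCoprime⟩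
  have hg : g ≠ 0 := left_ne_zero_of_mul hb
  have h1 : b' ^ 2 ∣ q' ^ 2 * (X ^ 3 + 1) := by
    rw [mul_pow, mul_pow, mul_assoc] at h
    exact (mul_dvd_mul_iff_left (pow_ne_zero 2 hg)).1 h
  have h2 : b' * b' ∣ (X ^ 3 + 1) := by
    rw [← sq]; exact (hc.pow (m := 2) (n := 2)).dvd_of_dvd_mul_left h1
  exact mul_dvd_mul_left g (hsq _ h2).dvd

variable {F M : Type} [Field F] [Field M] [Algebra ℂ F] [Algebra ℂ M] [Algebra F M]
  [IsScalarTower ℂ F M] {P : EP M}

theorem Gen_aux_conj (hP : Gen F P) : ∃ σ : M →ₐ[F] M, σ (xc P) = xc P ∧ σ (yc P) = -yc P := by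
  obtain ⟨σ, hσ⟩ := hP.lift (Q := -P) (neg_ne_zero.2 hP.ne) (by simpa using hP.tr)
  exact ⟨σ, by simpa using congrArg xc hσ, by simpa using congrArg yc hσ⟩

/-- `x ^ 3 + 1` is squarefree, so `F[x, y]` is the integral closure of `F[x]`. -/
theorem Gen.mem_crd_of_integral (hP : Gen F P) {f : M}
    (hf : IsIntegral (Algebra.adjoin F {xc P}) f) : f ∈ crd F P := by
  have := charZero_of F
  obtain ⟨σ, hx, hy⟩ := Gen_aux_conj hP
  have hσ : ∀ p : F[X], σ (aeval (xc P) p) = aeval (xc P) p := fun p => by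
    rw [← aeval_algHom_apply, hx]
  let σ' : M →ₐ[Algebra.adjoin F {xc P}] M :=
    { σ.toRingHom with
      commutes' := by
        rintro ⟨z, hz⟩
        rw [Algebra.adjoin_singleton_eq_range_aeval] at hz
        obtain ⟨p, rfl⟩ := hz
        exact hσ p }
  have hf' : IsIntegral (Algebra.adjoin F {xc P}) (σ f) := hf.map σ'
  obtain ⟨a, ha, b, hb, rfl⟩ := hP.frac f
  obtain ⟨p, q, rfl⟩ := hP.repr ha
  have hb' : aeval (xc P) b ≠ 0 := fun h => hb (transcendental_iff.1 hP.tr _ h)
  rw [map_div₀, map_add, map_mul, hσ, hσ, hσ, hy] at hf'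
  have h1 := hf.add hf'
  have h2 := hf.mul hf'
  have e1 : (aeval (xc P) p + aeval (xc P) q * yc P) / aeval (xc P) b +
      (aeval (xc P) p + aeval (xc P) q * -yc P) / aeval (xc P) b =
      aeval (xc P) (C 2 * p) / aeval (xc P) b := by
    rw [← add_div, map_mul, aeval_C, map_ofNat]; ring
  have e2 : (aeval (xc P) p + aeval (xc P) q * yc P) / aeval (xc P) b *
      ((aeval (xc P) p + aeval (xc P) q * -yc P) / aeval (xc P) b) =
      aeval (xc P) (p ^ 2 - q ^ 2 * (X ^ 3 + 1)) / aeval (xc P) (b ^ 2) := by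
    rw [div_mul_div_comm, map_pow, sq (aeval (xc P) b)]
    congr 1
    simp only [map_sub, map_mul, map_pow, map_add, aeval_X, map_one]
    linear_combination (-(aeval (xc P) q) ^ 2) * eqn_of_ne hP.ne
  rw [e1] at h1
  rw [e2] at h2
  have d1 : b ∣ p :=
    ((isUnit_C.2 (IsUnit.mk0 (2 : F) two_ne_zero)).dvd_mul_left).1 (Gen_aux_dvd hP.tr hb h1)
  have d2 : b ∣ q := by
    refine Gen_aux_sq hb ?_
    have := dvd_sub (pow_dvd_pow_of_dvd d1 2) (Gen_aux_dvd hP.tr (pow_ne_zero 2 hb) h2)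
    simpa using this
  obtain ⟨p', rfl⟩ := d1
  obtain ⟨q', rfl⟩ := d2
  have e : (aeval (xc P) (b * p') + aeval (xc P) (b * q') * yc P) / aeval (xc P) b =
      aeval (xc P) p' + aeval (xc P) q' * yc P := by
    rw [map_mul, map_mul]; field_simp
  rw [e]
  exact add_mem (GenA_aux_mem _ _ _) (mul_mem (GenA_aux_mem _ _ _) (Algebra.subset_adjoin (by simp)))

omit [IsScalarTower ℂ F M] [Algebra ℂ F] in
theorem Gen_aux_int (hP : Gen F P) {z : M} (hz : z ∈ crd F P) :
    IsIntegral (Algebra.adjoin F {xc P}) z := by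
  have hx : IsIntegral (Algebra.adjoin F {xc P}) (xc P) :=
    isIntegral_algebraMap (x := (⟨xc P, Algebra.subset_adjoin (by simp)⟩ : Algebra.adjoin F {xc P}))
  have hy : IsIntegral (Algebra.adjoin F {xc P}) (yc P) := by
    refine IsIntegral.of_pow two_pos ?_
    rw [eqn_of_ne hP.ne]
    exact (hx.pow 3).add isIntegral_one
  have : crd F P ≤ (integralClosure (Algebra.adjoin F {xc P}) M).restrictScalars F := by
    refine Algebra.adjoin_le ?_
    rintro z (rfl | rfl)
    · exact hx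
    · exact hy
  exact this hz

theorem Gen_aux_closed (hP : Gen F P) {f : M} (hf : IsIntegral (crd F P) f) : f ∈ crd F P := by
  have hle : Algebra.adjoin F {xc P} ≤ crd F P := Algebra.adjoin_mono (by simp)
  let : Algebra (Algebra.adjoin F {xc P}) (crd F P) :=
    (Subalgebra.inclusion hle).toRingHom.toAlgebra
  have : IsScalarTower (Algebra.adjoin F {xc P}) (crd F P) M :=
    IsScalarTower.of_algebraMap_eq fun _ => rfl
  have : Algebra.IsIntegral (Algebra.adjoin F {xc P}) (crd F P) :=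
    ⟨fun z => (isIntegral_algebraMap_iff (B := M) Subtype.val_injective).1 (Gen_aux_int hP z.2)⟩
  exact hP.mem_crd_of_integral (isIntegral_trans _ hf)

theorem Gen.dedekind (hP : Gen F P) : IsDedekindDomain (crd F P) := by
  classical
  have := hP.isFractionRing
  refine (isDedekindDomain_iff _ M).2 ⟨inferInstance, ?_, ?_, fun hf => ⟨⟨_, Gen_aux_closed hP hf⟩, rfl⟩⟩
  · exact isNoetherianRing_of_fg ⟨{xc P, yc P}, by simp⟩
  · have hle : Algebra.adjoin F {xc P} ≤ crd F P := Algebra.adjoin_mono (by simp)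
    let : Algebra (Algebra.adjoin F {xc P}) (crd F P) :=
      (Subalgebra.inclusion hle).toRingHom.toAlgebra
    have : IsScalarTower (Algebra.adjoin F {xc P}) (crd F P) M :=
      IsScalarTower.of_algebraMap_eq fun _ => rfl
    have : Algebra.IsIntegral (Algebra.adjoin F {xc P}) (crd F P) :=
      ⟨fun z => (isIntegral_algebraMap_iff (B := M) Subtype.val_injective).1 (Gen_aux_int hP z.2)⟩
    have : Ring.DimensionLEOne (Algebra.adjoin F {xc P}) :=
      Ring.DimensionLEOne.of_ringEquiv (algEquivOfTranscendental F _ hP.tr).symm.toRingEquiv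
    exact Ring.DimensionLEOne.of_isIntegral (Algebra.adjoin F {xc P}) _

theorem Gen_aux_sub (K : IntermediateField F M) {Q Q' : EP M} (hx : xc Q ∈ K) (hy : yc Q ∈ K)
    (hx' : xc Q' ∈ K) (hy' : yc Q' ∈ K) : xc (Q - Q') ∈ K ∧ yc (Q - Q') ∈ K := by
  have : IsScalarTower ℂ K M := IsScalarTower.of_algebraMap_eq fun _ => rfl
  obtain ⟨c, rfl⟩ := exists_up (F := K) (Q := Q) ⟨⟨_, hx⟩, rfl⟩ ⟨⟨_, hy⟩, rfl⟩
  obtain ⟨c', rfl⟩ := exists_up (F := K) (Q := Q') ⟨⟨_, hx'⟩, rfl⟩ ⟨⟨_, hy'⟩, rfl⟩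
  rw [← map_sub, up, xc_emap, yc_emap]
  exact ⟨(xc (c - c')).2, (yc (c - c')).2⟩

theorem Gen.add_up (hP : Gen F P) (c : EP F) : Gen F (P + up F M c) := by
  have key : ∀ K : IntermediateField F M, xc (P + up F M c) ∈ K → yc (P + up F M c) ∈ K →
      xc P ∈ K ∧ yc P ∈ K := fun K hx hy => by
    have := Gen_aux_sub K (Q' := up F M c) hx hy (by rw [up, xc_emap]; exact K.algebraMap_mem _)
      (by rw [up, yc_emap]; exact K.algebraMap_mem _)
    rwa [add_sub_cancel_right] at this
  have htr : Transcendental F (xc (P + up F M c)) := fun hx => by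
    refine hP.tr (mem_algebraicClosure_iff.1 (key (algebraicClosure F M)
      (mem_algebraicClosure_iff.2 hx) (mem_algebraicClosure_iff.2 ?_)).1)
    by_cases h0 : P + up F M c = 0
    · rw [h0]; exact isAlgebraic_zero
    · refine IsAlgebraic.of_pow two_pos ?_
      rw [eqn_of_ne h0]
      exact ((hx.isIntegral.pow 3).add isIntegral_one).isAlgebraic
  refine ⟨fun h0 => htr (by rw [h0]; exact isAlgebraic_zero), htr, ?_⟩
  rw [eq_top_iff, ← hP.gen, IntermediateField.adjoin_le_iff]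
  have := key (IntermediateField.adjoin F {xc (P + up F M c), yc (P + up F M c)})
    (IntermediateField.subset_adjoin _ _ (by simp)) (IntermediateField.subset_adjoin _ _ (by simp))
  rintro z (rfl | rfl)
  · exact this.1
  · exact this.2

theorem Gen.add_tors (hP : Gen F P) (τ : ZMod 3) : Gen F (P + tors M τ) := by
  have := hP.add_up (tors F τ)
  rwa [up, emap_tors] at this

theorem Gen.crd_le (hP : Gen F P) (V : Pl F M) (hx : xc P ∈ V.1) : ∀ f ∈ crd F P, f ∈ V.1 := by
  have h2 : yc P ^ 2 ∈ V.1 := by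
    rw [eqn_of_ne hP.ne]; exact add_mem (pow_mem hx 3) (one_mem _)
  have hy : yc P ∈ V.1 := by
    rcases V.1.mem_or_inv_mem (yc P) with h | h
    · exact h
    · by_cases h0 : yc P = 0
      · rw [h0]; exact zero_mem _
      · have := mul_mem h2 h
        rwa [sq, mul_assoc, mul_inv_cancel₀ h0, mul_one] at this
  have : crd F P ≤ ({ V.1.toSubring with algebraMap_mem' := V.2.2 } : Subalgebra F M) := by
    refine Algebra.adjoin_le ?_
    rintro z (rfl | rfl)
    · exact hx
    · exact hy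
  exact fun f hf => this hf

theorem Gen.val_loc (hP : Gen F P) (V : Pl F M) (hx : xc P ∈ V.1) :
    ∀ f ∈ V.1, ∃ a ∈ crd F P, ∃ b ∈ crd F P, b⁻¹ ∈ V.1 ∧ f = a / b := by
  intro f hf
  have := hP.dedekind
  have hle := hP.crd_le V hx
  let φ : crd F P →+* V.1 := (crd F P).val.toRingHom.codRestrict V.1 fun z => hle _ z.2
  let 𝔭 : Ideal (crd F P) := (IsLocalRing.maximalIdeal V.1).comap φ
  have : 𝔭.IsPrime := Ideal.comap_isPrime _ _
  have hm : ∀ z : crd F P, z ∈ 𝔭 ↔ (z : M) ∈ V.1.nonunits := fun z => by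
    rw [Ideal.mem_comap, ← ValuationSubring.coe_mem_nonunits_iff]; rfl
  have hu : ∀ z : crd F P, z ∉ 𝔭 → (z : M) ≠ 0 ∧ (z : M)⁻¹ ∈ V.1 := fun z hz => by
    rw [hm, ValuationSubring.mem_nonunits_iff_or] at hz
    tauto
  have := IsLocalization.AtPrime.isDedekindDomain (crd F P) 𝔭 (Localization.AtPrime 𝔭)
  have : ValuationRing (Localization.AtPrime 𝔭) :=
    ((tfae_of_isNoetherianRing_of_isLocalRing_of_isDomain (Localization.AtPrime 𝔭)).out 2 1).1 this
  have hinj : Function.Injective (algebraMap (crd F P) (Localization.AtPrime 𝔭)) :=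
    IsLocalization.injective _ 𝔭.primeCompl_le_nonZeroDivisors
  obtain ⟨a, ha, b, hb, rfl⟩ := hP.frac f
  have hb' : aeval (xc P) b ≠ 0 := fun h => hb (transcendental_iff.1 hP.tr _ h)
  set B : crd F P := ⟨aeval (xc P) b, GenA_aux_mem _ _ b⟩
  set A : crd F P := ⟨a, ha⟩
  obtain ⟨c, hc⟩ := ValuationRing.cond (algebraMap _ (Localization.AtPrime 𝔭) A) (algebraMap _ _ B)
  obtain ⟨⟨c1, c2⟩, rfl⟩ := IsLocalization.mk'_surjective 𝔭.primeCompl c
  have h2 := hu c2 c2.2
  rcases hc with hc | hc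
  · dsimp only at hc
    rw [IsLocalization.mul_mk'_eq_mk'_of_mul, IsLocalization.mk'_eq_iff_eq_mul, ← map_mul] at hc
    have e : a * (c1 : M) = aeval (xc P) b * (c2 : crd F P) := congrArg Subtype.val (hinj hc)
    by_cases h1 : c1 ∈ 𝔭
    · exfalso
      refine c2.2 ((hm _).2 ?_)
      have e' : ((c2 : crd F P) : M) = a / aeval (xc P) b * c1 := by
        field_simp; linear_combination -e
      rw [e', ValuationSubring.mem_nonunits_iff, map_mul]
      exact mul_lt_one_of_nonneg_of_lt_one_right ((V.1.valuation_le_one_iff _).2 hf) zero_le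
        ((ValuationSubring.mem_nonunits_iff _).1 ((hm _).1 h1))
    · have h1' := hu c1 h1
      refine ⟨_, (c2 : crd F P).2, _, c1.2, h1'.2, ?_⟩
      rw [div_eq_div_iff hb' h1'.1]; linear_combination e
  · dsimp only at hc
    rw [IsLocalization.mul_mk'_eq_mk'_of_mul, IsLocalization.mk'_eq_iff_eq_mul, ← map_mul] at hc
    have e : aeval (xc P) b * (c1 : M) = a * (c2 : crd F P) := congrArg Subtype.val (hinj hc)
    refine ⟨_, c1.2, _, (c2 : crd F P).2, h2.2, ?_⟩
    rw [div_eq_div_iff hb' h2.1]; linear_combination -e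

/-- An element of `M` without poles at the affine places lies in the coordinate ring. -/
theorem Gen.mem_crd (hP : Gen F P) {f : M} (hf : ∀ V : Pl F M, xc P ∈ V.1 → f ∈ V.1) :
    f ∈ crd F P := by
  by_contra hn
  have : IsIntegrallyClosedIn (crd F P).toSubring M :=
    Subring.isIntegrallyClosedIn_iff.2 fun _ h => Gen_aux_closed hP h
  obtain ⟨V, hV, hfV⟩ := Subring.exists_le_valuationSubring_of_isIntegrallyClosedIn
    (R := (crd F P).toSubring) hn
  exact hfV (hf ⟨V, fun h => hfV (h ▸ ValuationSubring.mem_top _),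
    fun c => hV ((crd F P).algebraMap_mem c)⟩ (hV (Algebra.subset_adjoin (by simp))))

theorem Gen_aux_hV (V : Pl F M) (c : ℂ) : algebraMap ℂ M c ∈ V.1 := by
  rw [IsScalarTower.algebraMap_apply ℂ F M]; exact V.2.2 _

theorem Gen_aux_red (V : Pl F M) {Q : EP M} (h : yc Q ∉ V.1) :
    xc (Q + tors M 1) ∈ mx (vpt V.1 (Gen_aux_hV V)) ∧
      yc (Q + tors M 1) - 1 ∈ mx (vpt V.1 (Gen_aux_hV V)) := by
  set O := vpt V.1 (Gen_aux_hV V)
  have hI : ∀ Q, Intg O Q := intg_val _ _
  have hr : red O (Q + tors M 1) = tT (RF O) := by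
    rw [red_add (hI _) (hI _), (red_eq_zero (hI _)).2 (Or.inr h), red_tors, zero_add, tors_one]
  have hy : yc (Q + tors M 1) ∈ O.1 := by
    by_contra hn
    rw [(red_eq_zero (hI _)).2 (Or.inr hn)] at hr
    exact pt_ne_zero _ _ _ hr.symm
  have hx := (hI _).xc_mem hy
  constructor
  · rw [← res_eq_zero hx, ← xc_red (hI _) hy, hr]; rfl
  · rw [← res_eq_zero (sub_mem hy (one_mem _)), res_sub hy (one_mem _), ← yc_red (hI _) hy, hr,
      res_one]
    exact sub_self _

omit [Algebra ℂ F] [IsScalarTower ℂ F M] in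
theorem Gen_aux_const {O : Pt M} (hO : ∀ c : F, algebraMap F M c ∈ O.1) {x y : M} (hx : x ∈ mx O)
    (hy : y - 1 ∈ mx O) (p q : F[X]) :
    aeval x p + aeval x q * y - algebraMap F M (p.coeff 0 + q.coeff 0) ∈ mx O := by
  have hp : ∀ p : F[X], aeval x p ∈ O.1 := fun p => by
    rw [aeval_eq_sum_range]
    exact sum_mem fun i _ => by
      rw [Algebra.smul_def]; exact mul_mem (hO _) (pow_mem (mx_sub hx) _)
  have h0 : ∀ p : F[X], aeval x p - algebraMap F M (p.coeff 0) ∈ mx O := fun p => by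
    have e := congrArg (aeval x) (X_mul_divX_add p)
    rw [map_add, map_mul, aeval_X, aeval_C] at e
    rw [← e, add_sub_cancel_right]
    exact mx_mul_right hx (hp _)
  have := mx_add (mx_add (h0 p) (h0 q)) (mx_mul_left (hp q) hy)
  convert this using 1
  rw [map_add]; ring

theorem Gen_aux_le (hP : Gen F P) {V V' : Pl F M}
    (hx : xc P ∈ mx (vpt V.1 (Gen_aux_hV V))) (hy : yc P - 1 ∈ mx (vpt V.1 (Gen_aux_hV V)))
    (hx' : xc P ∈ mx (vpt V'.1 (Gen_aux_hV V'))) (hy' : yc P - 1 ∈ mx (vpt V'.1 (Gen_aux_hV V'))) :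
    V.1 ≤ V'.1 := by
  intro f hf
  obtain ⟨a, ha, b, hb, hb', rfl⟩ := hP.val_loc V (mx_sub hx) f hf
  by_cases h0 : b = 0
  · rw [h0, div_zero]; exact zero_mem _
  have hu : IsU (vpt V.1 (Gen_aux_hV V)) b := ⟨h0, hP.crd_le V (mx_sub hx) b hb, hb'⟩
  obtain ⟨p, q, rfl⟩ := hP.repr hb
  have h1 := Gen_aux_const (O := vpt V.1 (Gen_aux_hV V)) V.2.2 hx hy p q
  have h2 := Gen_aux_const (O := vpt V'.1 (Gen_aux_hV V')) V'.2.2 hx' hy' p q
  have hk : p.coeff 0 + q.coeff 0 ≠ 0 := fun hk => by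
    rw [hk, map_zero, sub_zero] at h1
    exact hu.not_mx h1
  have hk' : IsU (vpt V'.1 (Gen_aux_hV V')) (algebraMap F M (p.coeff 0 + q.coeff 0)) :=
    ⟨(_root_.map_ne_zero _).2 hk, V'.2.2 _, by rw [← map_inv₀]; exact V'.2.2 _⟩
  have := hk'.add_mx h2
  rw [add_sub_cancel] at this
  rw [div_eq_mul_inv]
  exact mul_mem (hP.crd_le V' (mx_sub hx') a ha) this.2.2

/-- At most one place lies over a rational point: `P' = P - c + T` is generic and reduces to `T`,
so the centre of `V` on `F[x', y']` is the maximal ideal `(x', y' - 1)`. -/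
theorem Gen.pl_unique (hP : Gen F P) (c : EP F) {V V' : Pl F M}
    (h : yc (P - up F M c) ∉ V.1) (h' : yc (P - up F M c) ∉ V'.1) : V = V' := by
  have h1 : Gen F (P - up F M c + tors M 1) := by
    have := (hP.add_up (-c)).add_tors 1
    rwa [map_neg, ← sub_eq_add_neg] at this
  obtain ⟨hx, hy⟩ := Gen_aux_red V h
  obtain ⟨hx', hy'⟩ := Gen_aux_red V' h'
  exact Subtype.ext (le_antisymm (Gen_aux_le h1 hx hy hx' hy') (Gen_aux_le h1 hx' hy' hx hy))

theorem Gen.algClosed (hP : Gen F P) {f : M} (hf : IsAlgebraic F f) :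
    f ∈ (algebraMap F M).range := by
  have := charZero_of F
  have hc : ∀ p : F[X], IsAlgebraic F (aeval (xc P) p) → p.natDegree = 0 := fun p hp => by
    by_contra hn
    exact hP.tr.aeval p hn (mem_nonZeroDivisors_of_ne_zero
      (leadingCoeff_ne_zero.2 fun h => hn (by simp [h]))) hp
  obtain ⟨σ, hx, hy⟩ := Gen_aux_conj hP
  have hσ : ∀ p : F[X], σ (aeval (xc P) p) = aeval (xc P) p := fun p => by
    rw [← aeval_algHom_apply, hx]
  have hf' : IsIntegral F (σ f) := hf.isIntegral.map σ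
  obtain ⟨p, q, rfl⟩ := hP.repr (hP.mem_crd_of_integral (hf.isIntegral.tower_top))
  rw [map_add, map_mul, hσ, hσ, hy] at hf'
  have h1 := (hf.isIntegral.sub hf').pow 2
  have e : (aeval (xc P) p + aeval (xc P) q * yc P - (aeval (xc P) p + aeval (xc P) q * -yc P)) ^ 2
      = aeval (xc P) (C 4 * (q ^ 2 * (X ^ 3 + 1))) := by
    simp only [map_mul, map_pow, map_add, aeval_X, map_one, aeval_C]
    rw [map_ofNat]
    linear_combination (4 * (aeval (xc P) q) ^ 2) * eqn_of_ne hP.ne
  rw [e] at h1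
  have h3 : (X ^ 3 + 1 : F[X]).natDegree = 3 := by
    rw [← C_1, natDegree_X_pow_add_C]
  have hq : q = 0 := by
    by_contra hq
    have h4 := hc _ h1.isAlgebraic
    rw [natDegree_C_mul (by norm_num),
      natDegree_mul (pow_ne_zero 2 hq) (by rintro h0; simp [h0] at h3), h3] at h4
    omega
  subst hq
  rw [map_zero, zero_mul, add_zero] at hf ⊢
  rw [eq_C_of_natDegree_eq_zero (hc p hf), aeval_C]
  exact ⟨_, rfl⟩

theorem exists_gen (F : Type) [Field F] [Algebra ℂ F] :
    ∃ P : EP (W0⁄F).FunctionField, Gen F P := by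
  let ι := IsScalarTower.toAlgHom F (W0⁄F).CoordinateRing (W0⁄F).FunctionField
  let x := ι (CoordinateRing.mk (W0⁄F) (C X))
  let y := ι (CoordinateRing.mk (W0⁄F) X)
  have hι : Function.Injective ι := IsFractionRing.injective (W0⁄F).CoordinateRing _
  have hp : ∀ p : F[X], ι (CoordinateRing.mk (W0⁄F) (C p)) = aeval x p := fun p => by
    rw [aeval_algHom_apply]
    congr 1
    exact (aeval_algHom_apply (IsScalarTower.toAlgHom F F[X] (W0⁄F).CoordinateRing) X p).trans
      (by rw [aeval_X_left_apply]; rfl) |>.symm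
  have hψ : ∀ p q : F[X], ι (p • 1 + q • CoordinateRing.mk (W0⁄F) X) =
      aeval x p + aeval x q * y := fun p q => by
    rw [CoordinateRing.smul, CoordinateRing.smul, map_add, map_mul, map_mul, map_one, mul_one,
      hp, hp]
  have hxy : y ^ 2 = x ^ 3 + 1 := by
    have h0 : CoordinateRing.mk (W0⁄F) (W0⁄F).polynomial = 0 := AdjoinRoot.mk_self
    have h1 : (W0⁄F).polynomial = X ^ 2 - (C X ^ 3 + 1) := by
      simp [WeierstrassCurve.Affine.polynomial, W0, WeierstrassCurve.Affine.baseChange,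
        WeierstrassCurve.baseChange]
    have := congrArg ι ((congrArg (CoordinateRing.mk (W0⁄F)) h1).symm.trans h0)
    simp only [map_sub, map_pow, map_add, map_one, map_zero] at this
    exact sub_eq_zero.1 this
  refine ⟨pt x y hxy, pt_ne_zero _ _ _, ?_, ?_⟩
  · refine transcendental_iff.2 fun p h => ?_
    have := hψ p 0
    rw [xc_pt] at h
    rw [h, map_zero, zero_mul, add_zero, ← map_zero ι] at this
    exact (CoordinateRing.smul_basis_eq_zero (hι this)).1
  · rw [eq_top_iff]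
    intro f _
    obtain ⟨a, b, -, rfl⟩ := IsFractionRing.div_surjective (A := (W0⁄F).CoordinateRing) f
    have hm : ∀ a, ι a ∈ IntermediateField.adjoin F {x, y} := fun a => by
      apply IntermediateField.algebra_adjoin_le_adjoin
      rw [← GenA_aux_range hψ]
      exact ⟨a, rfl⟩
    exact div_mem (hm a) (hm b)

end Pool.Agent.MP_95da86_ag
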