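import Pool.Agent.MP_95da86_ag.Gen3A

/-! Generic points of `E ^ 3`. -/

namespace Pool.Agent.MP_95da86_ag

variable {L : Type} [Field L] [Algebra ℂ L] {P Q : Fin 3 → EP L}

theorem Gen3_aux_step {F M F' M' : Type} [Field F] [Field M] [Field F'] [Field M'] [Algebra ℂ F]
    [Algebra ℂ M] [Algebra ℂ F'] [Algebra ℂ M'] [Algebra F M] [Algebra F' M']
    [IsScalarTower ℂ F M] [IsScalarTower ℂ F' M'] {P : EP M} {P' : EP M'} (hP : Gen F P)
    (hP' : Gen F' P') (φ : F →ₐ[ℂ] F') : ∃ ψ : M →ₐ[ℂ] M',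
      (∀ a, ψ (algebraMap F M a) = algebraMap F' M' (φ a)) ∧ emap ψ P = P' := by
  let : Algebra F M' := ((algebraMap F' M').comp (φ : F →+* F')).toAlgebra
  have hmap : ∀ a, algebraMap F M' a = algebraMap F' M' (φ a) := fun _ => rfl
  have : IsScalarTower ℂ F M' := IsScalarTower.of_algebraMap_eq fun z => by
    rw [hmap, φ.commutes, ← IsScalarTower.algebraMap_apply]
  have ht : Transcendental F (xc P') := by
    rintro ⟨p, hp, h0⟩
    refine hP'.tr ⟨p.map (φ : F →+* F'), (Polynomial.map_ne_zero_iff φ.injective).2 hp, ?_⟩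
    rw [Polynomial.aeval_def, Polynomial.eval₂_map]
    exact h0
  obtain ⟨ψ, hψ⟩ := hP.lift hP'.ne ht
  exact ⟨ψ.restrictScalars ℂ, fun a => ψ.commutes a, hψ⟩

theorem Gen3_aux_hom (hP : Gen3 P) (hQ : Gen3 Q) :
    ∃ φ : L →ₐ[ℂ] L, ∀ i, emap φ (P i) = Q i := by
  obtain ⟨T⟩ := hP.tower
  obtain ⟨T'⟩ := hQ.tower
  obtain ⟨φ1, h1⟩ := T.g1.lift T'.g1.ne T'.g1.tr
  obtain ⟨φ2, c2, h2⟩ := Gen3_aux_step T.g2 T'.g2 (φ1.restrictScalars ℂ)
  obtain ⟨φ3, c3, h3⟩ := Gen3_aux_step T.g3 T'.g3 φ2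
  have k2 : φ3.comp (IsScalarTower.toAlgHom ℂ T.F2 L) =
      (IsScalarTower.toAlgHom ℂ T'.F2 L).comp φ2 := AlgHom.ext c3
  have k1 : φ3.comp (IsScalarTower.toAlgHom ℂ T.F1 L) =
      (IsScalarTower.toAlgHom ℂ T'.F1 L).comp (φ1.restrictScalars ℂ) := AlgHom.ext fun a => by
    change φ3 (algebraMap T.F1 L a) = algebraMap T'.F1 L (φ1.restrictScalars ℂ a)
    rw [IsScalarTower.algebraMap_apply T.F1 T.F2 L, c3, c2, ← IsScalarTower.algebraMap_apply]
  refine ⟨φ3, fun i => ?_⟩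
  fin_cases i
  · change emap φ3 (P 0) = Q 0
    rw [← T.e1, ← T'.e1, up, up, emap_emap, k1, ← emap_emap, h1]
  · change emap φ3 (P 1) = Q 1
    rw [← T.e2, ← T'.e2, up, up, emap_emap, k2, ← emap_emap, h2]
  · exact h3

/-- Three applications of `Gen.lift` along the tower; surjective since `Q` generates. -/
theorem Gen3.exists_aut (hP : Gen3 P) (hQ : Gen3 Q) :
    ∃ γ : L ≃ₐ[ℂ] L, ∀ i, emap (γ : L →ₐ[ℂ] L) (P i) = Q i := by
  obtain ⟨φ, hφ⟩ := Gen3_aux_hom hP hQ
  obtain ⟨ψ, hψ⟩ := Gen3_aux_hom hQ hP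
  refine ⟨AlgEquiv.ofAlgHom φ ψ (hQ.algHom_ext fun i => ?_) (hP.algHom_ext fun i => ?_), hφ⟩
  · rw [← emap_emap, hψ, hφ, emap_id]
  · rw [← emap_emap, hφ, hψ, emap_id]

theorem Gen3_aux_sign (hP : Gen3 P) (k : Fin 3) : ∃ σ : L →ₐ[ℂ] L,
    (∀ i, σ (xc (P i)) = xc (P i)) ∧ (∀ i, i ≠ k → σ (yc (P i)) = yc (P i)) ∧
      σ (yc (P k)) = -yc (P k) := by
  have hx : (fun i => xc (Function.update P k (-P k) i)) = fun i => xc (P i) := by
    funext i
    by_cases h : i = k
    · subst h; simp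
    · rw [Function.update_of_ne h]
  have hQ : Gen3 (Function.update P k (-P k)) := by
    refine ⟨fun i => ?_, hx ▸ hP.ind, ?_⟩
    · by_cases h : i = k
      · subst h; simpa using hP.ne i
      · rw [Function.update_of_ne h]; exact hP.ne i
    · rw [eq_top_iff, ← hP.gen, IntermediateField.adjoin_le_iff, hx]
      rintro z (hz | ⟨i, rfl⟩)
      · exact IntermediateField.subset_adjoin _ _ (Or.inl hz)
      · by_cases h : i = k
        · subst h
          have : yc (P i) = -yc (Function.update P i (-P i) i) := by simp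
          change yc (P i) ∈ _
          rw [this]
          exact neg_mem (IntermediateField.subset_adjoin _ _ (Or.inr ⟨i, rfl⟩))
        · refine IntermediateField.subset_adjoin _ _ (Or.inr ⟨i, ?_⟩)
          change yc _ = yc _
          rw [Function.update_of_ne h]
  obtain ⟨σ, hσ⟩ := Gen3_aux_hom hP hQ
  refine ⟨σ, fun i => ?_, fun i hi => ?_, ?_⟩
  · rw [← xc_emap, hσ]; exact congrFun hx i
  · rw [← yc_emap, hσ, Function.update_of_ne hi]
  · rw [← yc_emap, hσ]; simp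

theorem Gen3_aux_quad {A : Type} [CommRing A] [Algebra ℂ A] (S : Subalgebra ℂ A) (u : A)
    (hu : u * u ∈ S) {g : A} (hg : g ∈ Algebra.adjoin ℂ (insert u (S : Set A))) :
    ∃ a ∈ S, ∃ b ∈ S, g = a + b * u := by
  induction hg using Algebra.adjoin_induction with
  | mem z hz =>
    rcases hz with rfl | hz
    · exact ⟨0, S.zero_mem, 1, S.one_mem, by ring⟩
    · exact ⟨z, hz, 0, S.zero_mem, by ring⟩
  | algebraMap r => exact ⟨_, S.algebraMap_mem r, 0, S.zero_mem, by ring⟩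
  | add z w _ _ hz hw =>
    obtain ⟨a, ha, b, hb, rfl⟩ := hz
    obtain ⟨a', ha', b', hb', rfl⟩ := hw
    exact ⟨a + a', S.add_mem ha ha', b + b', S.add_mem hb hb', by ring⟩
  | mul z w _ _ hz hw =>
    obtain ⟨a, ha, b, hb, rfl⟩ := hz
    obtain ⟨a', ha', b', hb', rfl⟩ := hw
    exact ⟨a * a' + b * b' * (u * u), S.add_mem (S.mul_mem ha ha') (S.mul_mem (S.mul_mem hb hb') hu),
      a * b' + b * a', S.add_mem (S.mul_mem ha hb') (S.mul_mem hb ha'), by ring⟩

theorem Gen3_aux_graph (hP : Gen3 P) {N : Type} [Field N] [Algebra ℂ N] (c : Fin 3 → EP N)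
    (hc : ∀ i, c i ≠ 0) (s : Finset (Fin 3)) : ∀ g ∈ Algebra.adjoin ℂ
      (Set.range (fun i => (xc (P i), xc (c i))) ∪ (fun i => (yc (P i), yc (c i))) '' s),
      g.1 = 0 → g.2 = 0 := by
  have := charZero_of L
  induction s using Finset.induction_on with
  | empty =>
    intro g hg h0
    rw [Finset.coe_empty, Set.image_empty, Set.union_empty,
      Algebra.adjoin_range_eq_range_aeval] at hg
    obtain ⟨p, rfl⟩ := hg
    have h1 : MvPolynomial.aeval (fun i => xc (P i)) p = 0 := by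
      rw [← h0]
      exact (DFunLike.congr_fun (MvPolynomial.comp_aeval (fun i => (xc (P i), xc (c i)))
        (AlgHom.fst ℂ L N)) p).symm
    have hp : p = 0 := hP.ind (by rw [h1, map_zero])
    subst hp
    simp
  | insert k s hk ih =>
    intro g hg h0
    rw [Finset.coe_insert, Set.image_insert_eq, Set.union_insert,
      ← Algebra.adjoin_insert_adjoin] at hg
    obtain ⟨σ, hx, hy, hk'⟩ := Gen3_aux_sign hP k
    have hfix : Algebra.adjoin ℂ (Set.range (fun i => (xc (P i), xc (c i))) ∪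
        (fun i => (yc (P i), yc (c i))) '' s) ≤
        AlgHom.equalizer (σ.comp (AlgHom.fst ℂ L N)) (AlgHom.fst ℂ L N) := by
      refine Algebra.adjoin_le ?_
      rintro z (⟨i, rfl⟩ | ⟨i, hi, rfl⟩)
      · exact hx i
      · exact hy i fun h => hk (h ▸ hi)
    have hsq : (yc (P k), yc (c k)) * (yc (P k), yc (c k)) = (xc (P k), xc (c k)) ^ 3 + 1 := by
      rw [← sq]
      exact Prod.ext (eqn_of_ne (hP.ne k)) (eqn_of_ne (hc k))
    have hxk : (xc (P k), xc (c k)) ∈ Algebra.adjoin ℂ (Set.range (fun i => (xc (P i), xc (c i))) ∪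
        (fun i => (yc (P i), yc (c i))) '' s) := Algebra.subset_adjoin (Or.inl ⟨k, rfl⟩)
    obtain ⟨a, ha, b, hb, rfl⟩ := Gen3_aux_quad _ _ (by
      rw [hsq]
      exact add_mem (pow_mem hxk 3) (one_mem _)) hg
    have fa : σ a.1 = a.1 := hfix ha
    have fb : σ b.1 = b.1 := hfix hb
    have e1 : a.1 + b.1 * yc (P k) = 0 := h0
    have e2 := congrArg σ e1
    rw [map_add, map_mul, fa, fb, hk', map_zero] at e2
    have ea : a.1 = 0 := by linear_combination (e1 + e2) / 2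
    have eb : b.1 = 0 := by
      rw [ea, zero_add] at e1
      exact (mul_eq_zero.1 e1).resolve_right (hP.yc_ne k)
    change a.2 + b.2 * yc (c k) = 0
    rw [ih a ha ea, ih b hb eb, zero_mul, add_zero]

/-- The universal property of the affine chart. The graph of the correspondence is generated by
the pairs of coordinates, and its first projection is injective. -/
theorem Gen3.exists_ev (hP : Gen3 P) {N : Type} [Field N] [Algebra ℂ N] (c : Fin 3 → EP N)
    (hc : ∀ i, c i ≠ 0) : ∃ φ : chartA P →ₐ[ℂ] N, ∀ i,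
      φ ⟨xc (P i), Algebra.subset_adjoin (Or.inl ⟨i, rfl⟩)⟩ = xc (c i) ∧
      φ ⟨yc (P i), Algebra.subset_adjoin (Or.inr ⟨i, rfl⟩)⟩ = yc (c i) := by
  have hG := Gen3_aux_graph hP c hc Finset.univ
  rw [Finset.coe_univ, Set.image_univ] at hG
  set G := Algebra.adjoin ℂ (Set.range (fun i => (xc (P i), xc (c i))) ∪
    Set.range fun i => (yc (P i), yc (c i))) with hGdef
  have hmap : G.map (AlgHom.fst ℂ L N) = chartA P := by
    rw [hGdef, AlgHom.map_adjoin, Set.image_union, ← Set.range_comp, ← Set.range_comp]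
    rfl
  let f : G →ₐ[ℂ] chartA P := ((AlgHom.fst ℂ L N).comp G.val).codRestrict (chartA P)
    fun g => hmap ▸ ⟨g.1, g.2, rfl⟩
  have hf : Function.Bijective f := by
    refine ⟨(injective_iff_map_eq_zero f).2 fun g hg => ?_, fun b => ?_⟩
    · have h1 : g.1.1 = 0 := congrArg Subtype.val hg
      exact Subtype.ext (Prod.ext h1 (hG g.1 g.2 h1))
    · obtain ⟨g, hg, e⟩ : b.1 ∈ G.map (AlgHom.fst ℂ L N) := by
        rw [hmap]; exact b.2
      exact ⟨⟨g, hg⟩, Subtype.ext e⟩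
  let e := AlgEquiv.ofBijective f hf
  have key : ∀ (g : G) (b : chartA P), g.1.1 = b.1 →
      (((AlgHom.snd ℂ L N).comp G.val).comp (e.symm : chartA P →ₐ[ℂ] G)) b = g.1.2 := by
    intro g b h
    have : b = e g := Subtype.ext h.symm
    subst this
    change (e.symm (e g)).1.2 = _
    rw [e.symm_apply_apply]
  exact ⟨_, fun i => ⟨key ⟨_, Algebra.subset_adjoin (Or.inl ⟨i, rfl⟩)⟩ _ rfl,
    key ⟨_, Algebra.subset_adjoin (Or.inr ⟨i, rfl⟩)⟩ _ rfl⟩⟩

/-- A non-zero function does not vanish at some complex point (Nullstellensatz). -/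
theorem Gen3.exists_ev_ne (hP : Gen3 P) (b : chartA P) (hb : b ≠ 0) :
    ∃ φ : chartA P →ₐ[ℂ] ℂ, φ b ≠ 0 := by
  have : Algebra.FiniteType ℂ (chartA P) :=
    Algebra.FiniteType.adjoin_of_finite ((Set.finite_range _).union (Set.finite_range _))
  have : IsJacobsonRing (chartA P) := isJacobsonRing_of_finiteType (A := ℂ)
  have hj : b ∉ Ideal.jacobson (⊥ : Ideal (chartA P)) := by
    rw [IsJacobsonRing.out inferInstance (Ideal.isRadical_bot (R := chartA P))]
    exact hb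
  rw [Ideal.jacobson, Ideal.mem_sInf] at hj
  push Not at hj
  obtain ⟨m, ⟨-, hm⟩, hbm⟩ := hj
  let : Field (chartA P ⧸ m) := Ideal.Quotient.field m
  have : Module.Finite ℂ (chartA P ⧸ m) := finite_of_finite_type_of_isJacobsonRing _ _
  let ψ : (chartA P ⧸ m) →ₐ[ℂ] ℂ := IsAlgClosed.lift
  refine ⟨ψ.comp (Ideal.Quotient.mkₐ ℂ m), fun h => hbm ?_⟩
  exact Ideal.Quotient.eq_zero_iff_mem.1 ((map_eq_zero ψ).1 h)

end Pool.Agent.MP_95da86_ag
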