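import Pool.Agent.MP_95da86_ag.Gen

/-! Generic points of `E ^ 3`. -/

namespace Pool.Agent.MP_95da86_ag

variable {L : Type} [Field L] [Algebra ℂ L] {P Q : Fin 3 → EP L}

theorem Gen3A_aux_y {R : Type} [CommRing R] [Algebra R L] (q : EP L)
    (hx : xc q ∈ Set.range (algebraMap R L)) : IsIntegral R (yc q) := by
  by_cases hq : q = 0
  · rw [hq, yc_zero]
    exact isIntegral_zero
  · obtain ⟨a, ha⟩ := hx
    refine IsIntegral.of_pow (n := 2) (by norm_num) ?_
    rw [eqn_of_ne hq, ← ha]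
    exact (isIntegral_algebraMap.pow 3).add isIntegral_one

theorem Gen3A_aux_alg (E : IntermediateField ℂ L) {T : Set L} (hT : ∀ t ∈ T, IsAlgebraic E t)
    {f : L} (hf : f ∈ IntermediateField.adjoin ℂ T) : IsAlgebraic E f := by
  have h : IntermediateField.adjoin ℂ T ≤ (algebraicClosure E L).restrictScalars ℂ :=
    IntermediateField.adjoin_le_iff.2 fun t ht => mem_algebraicClosure_iff.2 (hT t ht)
  exact mem_algebraicClosure_iff.1 (h hf)

omit [Algebra ℂ L] in
theorem Gen3A_aux_tr {E K : Type} [Field E] [Field K] [Algebra E L] [Algebra K L]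
    (h : ∀ c : K, IsAlgebraic E (algebraMap K L c)) {t : L} (ht : Transcendental E t) :
    Transcendental K t := fun halg => by
  let f : K →+* algebraicClosure E L :=
    (algebraMap K L).codRestrict (algebraicClosure E L) fun c => mem_algebraicClosure_iff.2 (h c)
  have h1 : IsAlgebraic (algebraicClosure E L) (RingHom.id L t) :=
    halg.ringHom_of_comp_eq f (RingHom.id L) f.injective (by ext c; rfl)
  exact ht (h1.restrictScalars E)

instance Gen3A_aux_tower {F : Type} [Field F] [Algebra ℂ F] [Algebra F L] [IsScalarTower ℂ F L]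
    (K : IntermediateField F L) : IsScalarTower ℂ K L :=
  IsScalarTower.of_algebraMap_eq fun _ => rfl

theorem Gen3A_aux_step (F : Type) [Field F] [Algebra ℂ F] [Algebra F L] [IsScalarTower ℂ F L]
    {q : EP L} (hq : q ≠ 0) (ht : Transcendental F (xc q)) :
    ∃ q' : EP (IntermediateField.adjoin F {xc q, yc q}), Gen F q' ∧ up _ L q' = q := by
  set K := IntermediateField.adjoin F {xc q, yc q} with hK
  have hx : xc q ∈ K := IntermediateField.subset_adjoin _ _ (by simp)
  have hy : yc q ∈ K := IntermediateField.subset_adjoin _ _ (by simp)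
  refine ⟨pt ⟨xc q, hx⟩ ⟨yc q, hy⟩ (Subtype.ext (eqn_of_ne hq)), ⟨pt_ne_zero _ _ _, ?_, ?_⟩, ?_⟩
  · exact (transcendental_algebraMap_iff (algebraMap K L).injective).1 ht
  · apply IntermediateField.map_injective K.val
    rw [IntermediateField.adjoin_map, ← AlgHom.fieldRange_eq_map, IntermediateField.fieldRange_val,
      Set.image_pair]
    rfl
  · rw [up, emap_pt]
    exact pt_xc_yc hq

theorem Gen3A_aux_pt (E : IntermediateField ℂ L) {q : EP L} (hx : xc q ∈ E) :
    ∀ t ∈ ({xc q, yc q} : Set L), IsAlgebraic E t := by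
  rintro t (rfl | rfl)
  · exact isAlgebraic_algebraMap (⟨_, hx⟩ : E)
  · exact (Gen3A_aux_y _ ⟨(⟨_, hx⟩ : E), rfl⟩).isAlgebraic

/-- Take `F1 = ℂ(x₀, y₀)`, `F2 = ℂ(x₀, y₀, x₁, y₁)` as intermediate fields. -/
theorem Gen3.tower (hP : Gen3 P) : Nonempty (Tower P) := by
  have htr : ∀ (s : Set (Fin 3)) (i : Fin 3), i ∉ s → Transcendental
      (IntermediateField.adjoin ℂ ((fun i => xc (P i)) '' s)) (xc (P i)) := fun s i hi =>
    IntermediateField.transcendental_adjoin_iff.2 (hP.ind.transcendental_adjoin hi)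
  have hmem : ∀ (s : Set (Fin 3)) (i : Fin 3), i ∈ s →
      xc (P i) ∈ IntermediateField.adjoin ℂ ((fun i => xc (P i)) '' s) := fun s i hi =>
    IntermediateField.subset_adjoin _ _ ⟨i, hi, rfl⟩
  let K1 := IntermediateField.adjoin ℂ {xc (P 0), yc (P 0)}
  obtain ⟨P1, g1, e1⟩ : ∃ q' : EP K1, Gen ℂ q' ∧ up K1 L q' = P 0 :=
    Gen3A_aux_step ℂ (hP.ne 0) (hP.ind.transcendental 0)
  have t1 : Transcendental K1 (xc (P 1)) :=
    Gen3A_aux_tr (fun c => Gen3A_aux_alg _ (Gen3A_aux_pt _ (hmem {0} 0 rfl)) c.2)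
      (htr {0} 1 (by simp))
  let K2 := IntermediateField.adjoin K1 {xc (P 1), yc (P 1)}
  obtain ⟨P2, g2, e2⟩ : ∃ q' : EP K2, Gen K1 q' ∧ up K2 L q' = P 1 :=
    Gen3A_aux_step K1 (hP.ne 1) t1
  have t2 : Transcendental K2 (xc (P 2)) := by
    refine Gen3A_aux_tr (fun c => ?_) (htr {0, 1} 2 (by simp))
    have hc : (c : L) ∈ IntermediateField.adjoin ℂ
        ({xc (P 0), yc (P 0)} ∪ {xc (P 1), yc (P 1)} : Set L) := by
      rw [← IntermediateField.adjoin_adjoin_left]
      exact c.2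
    refine Gen3A_aux_alg _ (fun t ht => ?_) hc
    rcases ht with ht | ht
    · exact Gen3A_aux_pt _ (hmem _ 0 (by simp)) t ht
    · exact Gen3A_aux_pt _ (hmem _ 1 (by simp)) t ht
  have g3 : Gen K2 (P 2) := by
    refine ⟨hP.ne 2, t2, eq_top_iff.2 fun f _ => ?_⟩
    set K3 := IntermediateField.adjoin K2 {xc (P 2), yc (P 2)} with hK3
    have h2 : ∀ f ∈ K2, f ∈ K3 := fun f hf => K3.algebraMap_mem (⟨f, hf⟩ : K2)
    have h1 : ∀ f ∈ K1, f ∈ K3 := fun f hf => h2 f (K2.algebraMap_mem (⟨f, hf⟩ : K1))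
    have h : ∀ i, xc (P i) ∈ K3 ∧ yc (P i) ∈ K3 := fun i => by
      fin_cases i
      · exact ⟨h1 _ (IntermediateField.subset_adjoin _ _ (by simp)),
          h1 _ (IntermediateField.subset_adjoin _ _ (by simp))⟩
      · exact ⟨h2 _ (IntermediateField.subset_adjoin _ _ (by simp)),
          h2 _ (IntermediateField.subset_adjoin _ _ (by simp))⟩
      · exact ⟨IntermediateField.subset_adjoin _ _ (by simp),
          IntermediateField.subset_adjoin _ _ (by simp)⟩
    have hle : (⊤ : IntermediateField ℂ L) ≤ K3.restrictScalars ℂ := by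
      rw [← hP.gen, IntermediateField.adjoin_le_iff]
      rintro t (⟨i, rfl⟩ | ⟨i, rfl⟩)
      · exact (h i).1
      · exact (h i).2
    exact hle IntermediateField.mem_top
  exact ⟨
    { F1 := K1
      F2 := K2
      P1 := P1
      P2 := P2
      g1 := g1
      g2 := g2
      g3 := g3
      e1 := e1
      e2 := e2 }⟩

theorem Gen3A_aux_isAlg (hgen : IntermediateField.adjoin ℂ
    (Set.range (fun i => xc (Q i)) ∪ Set.range fun i => yc (Q i)) = ⊤) :
    Algebra.IsAlgebraic (Algebra.adjoin ℂ (Set.range fun i => xc (Q i))) L := by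
  refine IntermediateField.isAlgebraic_adjoin_iff_top.1 ⟨fun f => ?_⟩
  have hf : f ∈ IntermediateField.adjoin ℂ
      (Set.range (fun i => xc (Q i)) ∪ Set.range fun i => yc (Q i)) := by
    rw [hgen]
    exact IntermediateField.mem_top
  refine Gen3A_aux_alg _ ?_ hf
  have hx : ∀ i, xc (Q i) ∈ IntermediateField.adjoin ℂ (Set.range fun i => xc (Q i)) := fun i =>
    IntermediateField.subset_adjoin _ _ ⟨i, rfl⟩
  rintro t (⟨i, rfl⟩ | ⟨i, rfl⟩)
  · exact Gen3A_aux_pt _ (hx i) _ (by simp)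
  · exact Gen3A_aux_pt _ (hx i) _ (by simp)

theorem Gen3.trdeg (hP : Gen3 P) : Algebra.trdeg ℂ L = 3 := by
  have h : IsTranscendenceBasis ℂ fun i => xc (P i) :=
    hP.ind.isTranscendenceBasis_iff_isAlgebraic.2 (Gen3A_aux_isAlg hP.gen)
  rw [← h.cardinalMk_eq_trdeg]
  simp

theorem Gen3.frac (hP : Gen3 P) (f : L) :
    ∃ a ∈ chartA P, ∃ b ∈ chartA P, b ≠ 0 ∧ f = a / b := by
  have hf : f ∈ IntermediateField.adjoin ℂ
      (Set.range (fun i => xc (P i)) ∪ Set.range fun i => yc (P i)) := by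
    rw [hP.gen]
    exact IntermediateField.mem_top
  obtain ⟨a, ha, b, hb, e⟩ := IntermediateField.mem_adjoin_iff_div.1 hf
  by_cases h0 : b = 0
  · exact ⟨0, zero_mem _, 1, one_mem _, one_ne_zero, by rw [e, h0]; simp⟩
  · exact ⟨a, ha, b, hb, h0, e⟩

/-- Every element of the chart is integral over `ℂ[x₀, x₁, x₂]`. -/
theorem Gen3.integral (hP : Gen3 P) {f : L} (hf : f ∈ chartA P) :
    IsIntegral (Algebra.adjoin ℂ (Set.range fun i => xc (P i))) f := by
  have _ := hP
  set A := Algebra.adjoin ℂ (Set.range fun i => xc (P i)) with hA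
  have hx : ∀ i, xc (P i) ∈ A := fun i => Algebra.subset_adjoin ⟨i, rfl⟩
  have h : chartA P ≤ (integralClosure A L).restrictScalars ℂ := by
    refine Algebra.adjoin_le ?_
    rintro t (⟨i, rfl⟩ | ⟨i, rfl⟩)
    · exact isIntegral_algebraMap (x := (⟨_, hx i⟩ : A))
    · exact Gen3A_aux_y (R := A) _ ⟨⟨_, hx i⟩, rfl⟩
  exact h hf

theorem Gen3.algHom_ext (hP : Gen3 P) {N : Type} [Field N] [Algebra ℂ N] {φ ψ : L →ₐ[ℂ] N}
    (h : ∀ i, emap φ (P i) = emap ψ (P i)) : φ = ψ := by
  have hle : chartA P ≤ AlgHom.equalizer φ ψ := by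
    refine Algebra.adjoin_le ?_
    rintro t (⟨i, rfl⟩ | ⟨i, rfl⟩)
    · have := congrArg xc (h i)
      rwa [xc_emap, xc_emap] at this
    · have := congrArg yc (h i)
      rwa [yc_emap, yc_emap] at this
  ext f
  obtain ⟨a, ha, b, hb, -, rfl⟩ := hP.frac f
  have h1 : φ a = ψ a := hle ha
  have h2 : φ b = ψ b := hle hb
  rw [map_div₀, map_div₀, h1, h2]

theorem Gen3A_aux_ind (hP : Gen3 P) (hgen : IntermediateField.adjoin ℂ
    (Set.range (fun i => xc (Q i)) ∪ Set.range fun i => yc (Q i)) = ⊤) :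
    AlgebraicIndependent ℂ fun i => xc (Q i) := by
  have := Gen3A_aux_isAlg hgen
  exact (Algebra.IsAlgebraic.isTranscendenceBasis_of_le_trdeg_of_finite ℂ (fun i => xc (Q i))
    (by rw [hP.trdeg]; simp)).1

/-- If the coordinates of `Q` generate `L`, then `Q` is generic (transcendence degree). -/
theorem Gen3.of_gen (hP : Gen3 P) (hQ : ∀ i, Q i ≠ 0) (hgen : IntermediateField.adjoin ℂ
    (Set.range (fun i => xc (Q i)) ∪ Set.range fun i => yc (Q i)) = ⊤) : Gen3 Q :=
  ⟨hQ, Gen3A_aux_ind hP hgen, hgen⟩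

theorem Gen3A_aux_lin (g h : Matrix (Fin 3) (Fin 3) Zw) (P : Fin 3 → EP L) (j : Fin 3) :
    lin (h j) (fun i => lin (g i) P) = lin ((h * g) j) P := by
  simp only [lin, Finset.smul_sum, smul_smul, Matrix.mul_apply, Finset.sum_smul]
  exact Finset.sum_comm

theorem Gen3A_aux_one (P : Fin 3 → EP L) (j : Fin 3) :
    lin ((1 : Matrix (Fin 3) (Fin 3) Zw) j) P = P j := by
  simp [lin, Matrix.one_apply]

/-- The points `P i` are combinations of the new points and constants, so their coordinates lie in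
the field generated by the new coordinates (`exists_up`), even if a new point were zero; then
the transcendence degree excludes that case. -/
theorem Gen3.aff (hP : Gen3 P) (g : GLw) (c : Fin 3 → EP ℂ) :
    Gen3 fun i => lin (g.val i) P + cst L (c i) := by
  set Q : Fin 3 → EP L := fun i => lin (g.val i) P + cst L (c i) with hQ
  set K := IntermediateField.adjoin ℂ
    (Set.range (fun i => xc (Q i)) ∪ Set.range fun i => yc (Q i)) with hK
  have h1 : ∀ i, lin (g.val i) P ∈ LinearMap.range (up K L) := fun i => by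
    obtain ⟨q, hq⟩ := exists_up (F := K) (Q := Q i)
      ⟨⟨_, IntermediateField.subset_adjoin _ _ (Or.inl ⟨i, rfl⟩)⟩, rfl⟩
      ⟨⟨_, IntermediateField.subset_adjoin _ _ (Or.inr ⟨i, rfl⟩)⟩, rfl⟩
    refine ⟨q - cst K (c i), ?_⟩
    rw [map_sub, ← hq, up, emap_cst]
    exact add_sub_cancel_right _ _
  have h2 : ∀ j, P j ∈ LinearMap.range (up K L) := fun j => by
    rw [← Gen3A_aux_one P j, ← g.inv_mul, ← Gen3A_aux_lin]
    exact Submodule.sum_mem _ fun i _ => Submodule.smul_mem _ _ (h1 i)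
  have hgen : K = ⊤ := by
    rw [eq_top_iff, ← hP.gen, IntermediateField.adjoin_le_iff]
    rintro t (⟨i, rfl⟩ | ⟨i, rfl⟩)
    · obtain ⟨q, hq⟩ := h2 i
      simp only [← hq, up, xc_emap]
      exact (xc q).2
    · obtain ⟨q, hq⟩ := h2 i
      simp only [← hq, up, yc_emap]
      exact (yc q).2
  have hind := Gen3A_aux_ind hP hgen
  refine ⟨fun i h0 => hind.transcendental i ?_, hind, hgen⟩
  rw [h0, xc_zero]
  exact isAlgebraic_zero

theorem Gen3.add_tors (hP : Gen3 P) (a : F3) : Gen3 fun i => P i + tors L (a i) := by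
  have h := hP.aff 1 fun i => tors ℂ (a i)
  simpa only [Units.val_one, Gen3A_aux_one, cst_tors] using h

theorem Gen3.shift (hP : Gen3 P) (p : F3) : Gen3 (sh P p) := by
  have e : sh P p = fun i => P i + tors L ((-p) i) := by
    funext i
    rw [sh, Pi.neg_apply, tors_neg, sub_eq_add_neg]
  rw [e]
  exact hP.add_tors (-p)

theorem Gen3.yc_ne (hP : Gen3 P) (i : Fin 3) : yc (P i) ≠ 0 := fun h => by
  have e := eqn_of_ne (hP.ne i)
  rw [h] at e
  refine hP.ind.transcendental i (IsIntegral.isAlgebraic (IsIntegral.of_pow (n := 3)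
    (by norm_num) ?_))
  have : xc (P i) ^ 3 = -1 := by linear_combination -e
  rw [this]
  exact isIntegral_one.neg

theorem Gen3.xc_ne (hP : Gen3 P) (i : Fin 3) : xc (P i) ≠ 0 := fun h =>
  hP.ind.transcendental i (by rw [h]; exact isAlgebraic_zero)

end Pool.Agent.MP_95da86_ag
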