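import Pool.Agent.MP_95da86_ag.Inner

/-! Reduction of points modulo the maximal ideal of a local ring. -/

namespace Pool.Agent.MP_95da86_ag

variable {M : Type} [Field M] [Algebra ℂ M] {O : Pt M} {Q Q' : EP M}

theorem Red_aux_zt (O : Pt M) : zt M ∈ O.1 := O.1.algebraMap_mem _

theorem Red_aux_ne (hy : yc Q ≠ 0) : Q ≠ 0 := fun e => hy (by rw [e, yc_zero])

theorem Red_aux_y0 (hy : yc Q ∉ O.1) : yc Q ≠ 0 := fun e => hy (e ▸ zero_mem _)

theorem Intg.xc_mem (h : Intg O Q) (hy : yc Q ∈ O.1) : xc Q ∈ O.1 := by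
  rcases h with h | h
  · exact h.1
  by_cases h0 : yc Q = 0
  · by_cases hQ : Q = 0
    · rw [hQ, xc_zero]
      exact zero_mem _
    have e := eqn_of_ne hQ
    have z := Red_aux_zt O
    have : (xc Q + 1) * (xc Q + zt M) * (xc Q + zt M ^ 2) = 0 := by
      rw [h0] at e
      linear_combination -e + (xc Q ^ 2 + xc Q * zt M) * zt_quad (M := M) + zt_pow (M := M)
    rcases mul_eq_zero.1 this with a | a
    · rcases mul_eq_zero.1 a with a | a
      · rw [eq_neg_of_add_eq_zero_left a]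
        exact neg_mem (one_mem _)
      · rw [eq_neg_of_add_eq_zero_left a]
        exact neg_mem z
    · rw [eq_neg_of_add_eq_zero_left a]
      exact neg_mem (pow_mem z 2)
  · have := mul_mem h.1 hy
    rwa [sc, div_mul_cancel₀ _ h0] at this
/-- `t - t ^ 3 = s ^ 3`. -/
theorem tc_eq (hy : yc Q ≠ 0) : tc Q * (1 - tc Q ^ 2) = sc Q ^ 3 := by
  have e := eqn_of_ne (Red_aux_ne hy)
  rw [tc, sc]
  field_simp
  linear_combination e
theorem Intg.tc_mem (h : Intg O Q) (hy : yc Q ∉ O.1) : tc Q ∈ mx O := by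
  rcases h with h | h
  · exact absurd h.2 hy
  · exact mem_mx.2 ⟨h.2, fun u => hy (by simpa [tc] using u.2.2)⟩
theorem Intg.sc_mem (h : Intg O Q) (hy : yc Q ∉ O.1) : sc Q ∈ mx O := by
  have ht := h.tc_mem hy
  rcases h with h | h
  · exact absurd h.2 hy
  · refine mx_of_pow h.1 (n := 3) ?_
    rw [← tc_eq (Red_aux_y0 hy)]
    exact mx_mul_right ht (sub_mem (one_mem _) (pow_mem h.2 2))
theorem not_mem_of_tc (h0 : yc Q ≠ 0) (h : tc Q ∈ mx O) : yc Q ∉ O.1 := fun hy =>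
  (IsU.inv ⟨h0, hy, mx_sub h⟩).not_mx h
theorem intg_zero : Intg O 0 := Or.inl ⟨zero_mem _, zero_mem _⟩
theorem Intg.mono {O' : Pt M} (h : Intg O Q) (hle : O.1 ≤ O'.1) : Intg O' Q :=
  h.imp (fun a => ⟨hle a.1, hle a.2⟩) fun a => ⟨hle a.1, hle a.2⟩

omit [Algebra ℂ M] in
theorem Red_aux_cube (V : ValuationSubring M) {f : M} (h : f ^ 3 ∈ V) : f ∈ V := by
  rcases V.mem_or_inv_mem f with a | a
  · exact a
  by_cases h0 : f = 0
  · rw [h0]
    exact zero_mem _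
  have := mul_mem h (pow_mem a 2)
  rwa [show f ^ 3 * f⁻¹ ^ 2 = f by field_simp] at this

theorem intg_val (V : ValuationSubring M) (hV) (Q : EP M) : Intg (vpt V hV) Q := by
  by_cases hQ : Q = 0
  · rw [hQ]
    exact intg_zero
  by_cases hy : yc Q ∈ V
  · refine Or.inl ⟨Red_aux_cube V ?_, hy⟩
    rw [show xc Q ^ 3 = yc Q ^ 2 - 1 by linear_combination -eqn_of_ne hQ]
    exact sub_mem (pow_mem hy 2) (one_mem _)
  · have ht : tc Q ∈ V := (V.mem_or_inv_mem _).resolve_left hy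
    refine Or.inr ⟨Red_aux_cube V ?_, ht⟩
    rw [← tc_eq fun e => hy (e ▸ zero_mem _)]
    exact mul_mem ht (sub_mem (one_mem _) (pow_mem ht 2))
theorem intg_cst (c : EP ℂ) : Intg O (cst M c) := by
  refine Or.inl ⟨?_, ?_⟩
  · rw [cst, xc_emap]
    exact O.1.algebraMap_mem _
  · rw [cst, yc_emap]
    exact O.1.algebraMap_mem _
theorem intg_tors (τ : ZMod 3) : Intg O (tors M τ) := by
  rw [← cst_tors]
  exact intg_cst _
theorem red_zero : red O 0 = 0 := dif_neg fun h => h.1 rfl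

theorem Red_aux_eqn {a b : M} (h : b ^ 2 = a ^ 3 + 1) (ha : a ∈ O.1) (hb : b ∈ O.1) :
    res O b ^ 2 = res O a ^ 3 + 1 := by
  rw [← res_pow hb, h, res_add (pow_mem ha 3) (one_mem _), res_pow ha, res_one]

theorem Red_aux_pt {a b : M} (h) (ha : a ∈ O.1) (hb : b ∈ O.1) :
    red O (pt a b h) = pt (res O a) (res O b) (Red_aux_eqn h ha hb) :=
  dif_pos (⟨pt_ne_zero a b h, ha, hb⟩ : pt a b h ≠ 0 ∧ xc (pt a b h) ∈ O.1 ∧ yc (pt a b h) ∈ O.1)

theorem red_cst (c : EP ℂ) : red O (cst M c) = cst (RF O) c := by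
  rcases c.cases with rfl | ⟨a, b, h, rfl⟩
  · rw [map_zero, map_zero, red_zero]
  · rw [cst, cst, emap_pt, emap_pt]
    exact (Red_aux_pt _ (O.1.algebraMap_mem a) (O.1.algebraMap_mem b)).trans
      (pt_congr (res_const O a) (res_const O b))
theorem red_tors (τ : ZMod 3) : red O (tors M τ) = tors (RF O) τ := by
  rw [← cst_tors, red_cst, cst_tors]
theorem red_eq_zero (h : Intg O Q) : red O Q = 0 ↔ Zr O Q := by
  constructor
  · intro e
    by_contra hz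
    rw [Zr, not_or, not_not] at hz
    rw [red, dif_pos ⟨hz.1, h.xc_mem hz.2, hz.2⟩] at e
    exact pt_ne_zero _ _ _ e
  · intro hz
    exact dif_neg fun a => hz.elim a.1 fun b => b a.2.2
theorem xc_red (h : Intg O Q) (hy : yc Q ∈ O.1) : xc (red O Q) = res O (xc Q) := by
  by_cases hQ : Q = 0
  · rw [hQ, red_zero, xc_zero, xc_zero, res_zero]
  · rw [red, dif_pos ⟨hQ, h.xc_mem hy, hy⟩, xc_pt]
theorem yc_red (h : Intg O Q) (hy : yc Q ∈ O.1) : yc (red O Q) = res O (yc Q) := by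
  by_cases hQ : Q = 0
  · rw [hQ, red_zero, yc_zero, yc_zero, res_zero]
  · rw [red, dif_pos ⟨hQ, h.xc_mem hy, hy⟩, yc_pt]

theorem Red_aux_res_eq {f g : M} (hf : f ∈ O.1) (hg : g ∈ O.1) :
    res O f = res O g ↔ f - g ∈ mx O := by
  rw [← res_eq_zero (sub_mem hf hg), res_sub hf hg, sub_eq_zero]

/-- Both points are affine over `O`. -/
theorem Red_aux_aff {a₁ b₁ a₂ b₂ : M} (h₁ h₂) (ha₁ : a₁ ∈ O.1) (hb₁ : b₁ ∈ O.1) (ha₂ : a₂ ∈ O.1)
    (hb₂ : b₂ ∈ O.1) : Intg O (pt a₁ b₁ h₁ + pt a₂ b₂ h₂) ∧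
      red O (pt a₁ b₁ h₁ + pt a₂ b₂ h₂) = red O (pt a₁ b₁ h₁) + red O (pt a₂ b₂ h₂) := by
  rw [Red_aux_pt h₁ ha₁ hb₁, Red_aux_pt h₂ ha₂ hb₂]
  have hq : a₁ ^ 2 + a₁ * a₂ + a₂ ^ 2 ∈ O.1 :=
    add_mem (add_mem (pow_mem ha₁ 2) (mul_mem ha₁ ha₂)) (pow_mem ha₂ 2)
  have rq : res O (a₁ ^ 2 + a₁ * a₂ + a₂ ^ 2) =
      res O a₁ ^ 2 + res O a₁ * res O a₂ + res O a₂ ^ 2 := by
    rw [res_add (add_mem (pow_mem ha₁ 2) (mul_mem ha₁ ha₂)) (pow_mem ha₂ 2),
      res_add (pow_mem ha₁ 2) (mul_mem ha₁ ha₂), res_pow ha₁, res_pow ha₂, res_mul ha₁ ha₂]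
  by_cases hne : a₁ = a₂ ∧ b₁ = -b₂
  · rw [pt_add_neg h₁ h₂ hne.1 hne.2, red_zero,
      pt_add_neg _ _ (by rw [hne.1]) (by rw [hne.2, res_neg hb₂])]
    exact ⟨intg_zero, rfl⟩
  obtain ⟨l, hl₁, hl₂⟩ := exists_slope h₁ h₂ hne
  obtain ⟨h₃, e⟩ := pt_add h₁ h₂ hne l hl₁ hl₂
  rw [e]
  by_cases hr : res O a₁ = res O a₂ ∧ res O b₁ = -res O b₂
  · rw [pt_add_neg _ _ hr.1 hr.2]
    have m1 : a₁ - a₂ ∈ mx O := (Red_aux_res_eq ha₁ ha₂).1 hr.1
    have m2 : b₁ + b₂ ∈ mx O := by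
      rw [← res_eq_zero (add_mem hb₁ hb₂), res_add hb₁ hb₂, hr.2, neg_add_cancel]
    have hu : l ≠ 0 ∧ l⁻¹ ∈ mx O := by
      rcases mx_or_isU (sub_mem hb₁ hb₂) with u | u
      · rcases mx_or_isU hq with v | v
        · exfalso
          have := charZero_of (RF O)
          have e1 := (Red_aux_res_eq hb₁ hb₂).2 u
          have e2 := (res_eq_zero hq).2 v
          have e3 := Red_aux_eqn h₂ ha₂ hb₂
          rw [rq, hr.1] at e2
          have e4 : res O b₂ = 0 := by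
            have : (2 : RF O) * res O b₂ = 0 := by linear_combination hr.2 - e1
            simpa using this
          have e5 : res O a₂ = 0 := by
            have : (3 : RF O) * res O a₂ ^ 2 = 0 := by linear_combination e2
            simpa using this
          simp [e4, e5] at e3
        · have l0 : l ≠ 0 := fun z => v.1 (by rw [← hl₂, z, zero_mul])
          refine ⟨l0, ?_⟩
          have : l⁻¹ = (b₁ + b₂) * (a₁ ^ 2 + a₁ * a₂ + a₂ ^ 2)⁻¹ := by
            rw [eq_mul_inv_iff_mul_eq₀ v.1, ← hl₂, inv_mul_cancel_left₀ l0]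
          rw [this]
          exact mx_mul_right m2 v.2.2
      · have l0 : l ≠ 0 := fun z => u.1 (by rw [← hl₁, z, zero_mul])
        refine ⟨l0, ?_⟩
        have : l⁻¹ = (a₁ - a₂) * (b₁ - b₂)⁻¹ := by
          rw [eq_mul_inv_iff_mul_eq₀ u.1, ← hl₁, inv_mul_cancel_left₀ l0]
        rw [this]
        exact mx_mul_right m1 u.2.2
    obtain ⟨l0, hu⟩ := hu
    have hu' := mx_sub hu
    have hw : IsU O (1 + l⁻¹ * (l⁻¹ * (l⁻¹ * b₁ - (a₁ + a₁ + a₂)))) :=
      (isU_one O).add_mx (mx_mul_right hu (mul_mem hu'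
        (sub_mem (mul_mem hu' hb₁) (add_mem (add_mem ha₁ ha₁) ha₂))))
    set w := 1 + l⁻¹ * (l⁻¹ * (l⁻¹ * b₁ - (a₁ + a₁ + a₂))) with hwdef
    have ey : -(l * (l ^ 2 - a₁ - a₂ - a₁) + b₁) = -(l ^ 3 * w) := by
      rw [hwdef]
      field_simp
      ring
    have w0 := hw.1
    have et : tc (pt _ _ h₃) = -(l⁻¹ * (l⁻¹ ^ 2 * w⁻¹)) := by
      rw [tc, yc_pt, ey]
      field_simp
    have es : sc (pt _ _ h₃) = -(l⁻¹ * ((1 - l⁻¹ ^ 2 * (a₁ + a₂)) * w⁻¹)) := by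
      rw [sc, yc_pt, xc_pt, ey]
      field_simp
      ring
    have mt : tc (pt _ _ h₃) ∈ mx O := by
      rw [et]
      exact mx_neg (mx_mul_right hu (mul_mem (pow_mem hu' 2) hw.2.2))
    have hI : Intg O (pt _ _ h₃) := Or.inr ⟨by
      rw [es]
      exact neg_mem (mul_mem hu' (mul_mem (sub_mem (one_mem _)
        (mul_mem (pow_mem hu' 2) (add_mem ha₁ ha₂))) hw.2.2)), mx_sub mt⟩
    refine ⟨hI, (red_eq_zero hI).2 (Or.inr (not_mem_of_tc ?_ mt))⟩
    rw [yc_pt, ey]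
    exact neg_ne_zero.2 (mul_ne_zero (pow_ne_zero 3 l0) w0)
  · have hl : l ∈ O.1 := by
      rcases mx_or_isU (sub_mem ha₁ ha₂) with u | u
      · rcases mx_or_isU (add_mem hb₁ hb₂) with v | v
        · refine absurd ⟨(Red_aux_res_eq ha₁ ha₂).2 u, ?_⟩ hr
          have := (res_eq_zero (add_mem hb₁ hb₂)).2 v
          rw [res_add hb₁ hb₂] at this
          linear_combination this
        · rw [(eq_mul_inv_iff_mul_eq₀ v.1).2 hl₂]
          exact mul_mem hq v.2.2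
      · rw [(eq_mul_inv_iff_mul_eq₀ u.1).2 hl₁]
        exact mul_mem (sub_mem hb₁ hb₂) u.2.2
    have hx : l ^ 2 - a₁ - a₂ ∈ O.1 := sub_mem (sub_mem (pow_mem hl 2) ha₁) ha₂
    have hy : l * (l ^ 2 - a₁ - a₂ - a₁) + b₁ ∈ O.1 := add_mem (mul_mem hl (sub_mem hx ha₁)) hb₁
    obtain ⟨h₄, e'⟩ := pt_add (Red_aux_eqn h₁ ha₁ hb₁) (Red_aux_eqn h₂ ha₂ hb₂) hr (res O l)
      (by rw [← res_sub ha₁ ha₂, ← res_mul hl (sub_mem ha₁ ha₂), hl₁, res_sub hb₁ hb₂])
      (by rw [← res_add hb₁ hb₂, ← res_mul hl (add_mem hb₁ hb₂), hl₂, rq])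
    have rx : res O (l ^ 2 - a₁ - a₂) = res O l ^ 2 - res O a₁ - res O a₂ := by
      rw [res_sub (sub_mem (pow_mem hl 2) ha₁) ha₂, res_sub (pow_mem hl 2) ha₁, res_pow hl]
    refine ⟨Or.inl ⟨hx, neg_mem hy⟩, ?_⟩
    rw [Red_aux_pt h₃ hx (neg_mem hy), e']
    refine pt_congr rx ?_
    rw [res_neg hy, res_add (mul_mem hl (sub_mem hx ha₁)) hb₁, res_mul hl (sub_mem hx ha₁),
      res_sub hx ha₁, rx]

theorem Red_aux_tT : red O (tT M) = tT (RF O) := by
  rw [← tors_one, red_tors, tors_one]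

theorem Red_aux_T (h : Intg O Q) : Intg O (Q + tT M) ∧ red O (Q + tT M) = red O Q + tT (RF O) := by
  rcases Q.cases with rfl | ⟨a, b, hab, rfl⟩
  · rw [zero_add, red_zero, zero_add]
    exact ⟨tors_one (M := M) ▸ intg_tors 1, Red_aux_tT⟩
  by_cases hy : b ∈ O.1
  · rw [← Red_aux_tT]
    exact Red_aux_aff hab _ (h.xc_mem hy) hy (zero_mem _) (one_mem _)
  have ht : b⁻¹ ∈ mx O := h.tc_mem hy
  have hs : a / b ∈ mx O := h.sc_mem hy
  have b0 : b ≠ 0 := fun e => hy (e ▸ zero_mem _)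
  have b1 : b + 1 ≠ 0 := fun e => hy (by
    rw [eq_neg_of_add_eq_zero_left e]
    exact neg_mem (one_mem _))
  obtain ⟨h', e⟩ := pt_add_tT a b hab b1
  have hu : IsU O (1 + b⁻¹) := (isU_one O).add_mx ht
  have u0 := hu.1
  have m1 : -2 * a / (b + 1) ∈ mx O := by
    rw [show -2 * a / (b + 1) = -((a / b + a / b) * (1 + b⁻¹)⁻¹) by field_simp; ring]
    exact mx_neg (mx_mul_right (mx_add hs hs) hu.2.2)
  have m2 : (b - 3) / (b + 1) - 1 ∈ mx O := by
    rw [show (b - 3) / (b + 1) - 1 = -((b⁻¹ + b⁻¹ + (b⁻¹ + b⁻¹)) * (1 + b⁻¹)⁻¹) by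
      field_simp; ring]
    exact mx_neg (mx_mul_right (mx_add (mx_add ht ht) (mx_add ht ht)) hu.2.2)
  have m3 : (b - 3) / (b + 1) ∈ O.1 := by simpa using add_mem (mx_sub m2) (one_mem O.1)
  rw [e, (red_eq_zero h).2 (Or.inr hy), zero_add, Red_aux_pt h' (mx_sub m1) m3]
  refine ⟨Or.inl ⟨mx_sub m1, m3⟩, pt_congr ((res_eq_zero (mx_sub m1)).2 m1) ?_⟩
  rw [(Red_aux_res_eq m3 (one_mem _)).2 m2, res_one]

theorem Red_aux_tors (h : Intg O Q) (τ : ZMod 3) :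
    Intg O (Q + tors M τ) ∧ red O (Q + tors M τ) = red O Q + tors (RF O) τ := by
  rw [tors, tors]
  induction τ.val with
  | zero => simpa using h
  | succ n ih =>
    rw [succ_nsmul, succ_nsmul, ← add_assoc, ← add_assoc, ← ih.2]
    exact Red_aux_T ih.1

theorem Red_aux_shift (h : Intg O Q) :
    ∃ τ, Q + tors M τ ≠ 0 ∧ xc (Q + tors M τ) ∈ O.1 ∧ yc (Q + tors M τ) ∈ O.1 := by
  have key : ∀ τ, red O Q + tors (RF O) τ ≠ 0 →
      Q + tors M τ ≠ 0 ∧ xc (Q + tors M τ) ∈ O.1 ∧ yc (Q + tors M τ) ∈ O.1 := by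
    intro τ hτ
    obtain ⟨a, b⟩ := Red_aux_tors h τ
    rw [← b, Ne, red_eq_zero a, Zr, not_or, not_not] at hτ
    exact ⟨hτ.1, a.xc_mem hτ.2, hτ.2⟩
  by_cases h0 : red O Q = 0
  · refine ⟨1, key 1 ?_⟩
    rw [h0, zero_add, tors_one]
    exact pt_ne_zero _ _ _
  · exact ⟨0, key 0 (by simpa using h0)⟩

/-- The main lemma. Both points affine over `O`: the slope is `(b₁ - b₂) / (a₁ - a₂) =
(a₁ ^ 2 + a₁ a₂ + a₂ ^ 2) / (b₁ + b₂)` and one of the four elements is a unit, so `l ∈ O` or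
`1 / l ∈ mx O`. In general translate by multiples of `T`, a linear map `(X : Y : Z) ↦
(-2 X : Y - 3 Z : Y + Z)` (`pt_add_tT`), to make both points affine. -/
theorem Intg.add_red (h : Intg O Q) (h' : Intg O Q') :
    Intg O (Q + Q') ∧ red O (Q + Q') = red O Q + red O Q' := by
  obtain ⟨τ, a1, a2, a3⟩ := Red_aux_shift h
  obtain ⟨σ, b1, b2, b3⟩ := Red_aux_shift h'
  have k := Red_aux_aff (eqn_of_ne a1) (eqn_of_ne b1) a2 a3 b2 b3
  rw [pt_xc_yc a1, pt_xc_yc b1, (Red_aux_tors h τ).2, (Red_aux_tors h' σ).2] at k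
  have k' := Red_aux_tors k.1 (-(τ + σ))
  rw [k.2, tors_neg, tors_neg, tors_add, tors_add,
    show Q + tors M τ + (Q' + tors M σ) + -(tors M τ + tors M σ) = Q + Q' by abel] at k'
  exact ⟨k'.1, k'.2.trans (by abel)⟩

theorem Intg.add (h : Intg O Q) (h' : Intg O Q') : Intg O (Q + Q') := (h.add_red h').1
theorem Intg.neg (h : Intg O Q) : Intg O (-Q) := by
  refine h.imp (fun a => ?_) fun a => ?_
  · rw [xc_neg, yc_neg]
    exact ⟨a.1, neg_mem a.2⟩
  · rw [sc, tc, xc_neg, yc_neg, div_neg, inv_neg]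
    exact ⟨neg_mem a.1, neg_mem a.2⟩
theorem Intg.sub (h : Intg O Q) (h' : Intg O Q') : Intg O (Q - Q') := by
  rw [sub_eq_add_neg]
  exact h.add h'.neg

theorem Red_aux_rot (h : Intg O Q) : Intg O (rot Q) ∧ red O (rot Q) = rot (red O Q) := by
  have z := Red_aux_zt O
  have hI : Intg O (rot Q) := by
    rw [← om_smul]
    refine h.imp (fun a => ?_) fun a => ?_
    · rw [xc_om, yc_om]
      exact ⟨mul_mem z a.1, a.2⟩
    · rw [sc, tc, xc_om, yc_om, mul_div_assoc]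
      exact ⟨mul_mem z a.1, a.2⟩
  refine ⟨hI, ?_⟩
  rcases Q.cases with rfl | ⟨a, b, hab, rfl⟩
  · rw [map_zero, red_zero, map_zero]
  by_cases hy : b ∈ O.1
  · have hx : a ∈ O.1 := h.xc_mem hy
    rw [rot_pt, Red_aux_pt _ (mul_mem z hx) hy, Red_aux_pt _ hx hy, rot_pt]
    refine pt_congr ?_ rfl
    rw [res_mul z hx, zt, res_const, zt]
  · rw [(red_eq_zero h).2 (Or.inr hy), map_zero]
    exact (red_eq_zero hI).2 (Or.inr hy)

theorem Red_aux_neg (h : Intg O Q) : red O (-Q) = -red O Q := by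
  have := (h.add_red h.neg).2
  rw [add_neg_cancel, red_zero] at this
  exact eq_neg_of_add_eq_zero_right this.symm

theorem Red_aux_zsmul (h : Intg O Q) (n : ℤ) : Intg O (n • Q) ∧ red O (n • Q) = n • red O Q := by
  induction n using Int.induction_on with
  | zero => rw [zero_smul, zero_smul]; exact ⟨intg_zero, red_zero⟩
  | succ n ih =>
    rw [add_smul, add_smul, one_smul, one_smul, ← ih.2]
    exact ih.1.add_red h
  | pred n ih =>
    rw [sub_smul, sub_smul, one_smul, one_smul, ← ih.2, sub_eq_add_neg, sub_eq_add_neg,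
      ← Red_aux_neg h]
    exact ih.1.add_red h.neg

theorem Red_aux_smul (h : Intg O Q) (a : Zw) : Intg O (a • Q) ∧ red O (a • Q) = a • red O Q := by
  have r := Red_aux_rot h
  have a1 := Red_aux_zsmul h a.re
  have a2 := Red_aux_zsmul r.1 a.im
  rw [zw_smul_def, zw_smul_def, ← r.2, ← a1.2, ← a2.2]
  exact a1.1.add_red a2.1

theorem Intg.smul (h : Intg O Q) (a : Zw) : Intg O (a • Q) := (Red_aux_smul h a).1
theorem intg_lin {P : Fin 3 → EP M} (h : ∀ i, Intg O (P i)) (l : Lam) : Intg O (lin l P) := by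
  rw [lin, Fin.sum_univ_three]
  exact (((h 0).smul _).add ((h 1).smul _)).add ((h 2).smul _)
theorem red_add (h : Intg O Q) (h' : Intg O Q') : red O (Q + Q') = red O Q + red O Q' :=
  (h.add_red h').2
theorem red_neg (h : Intg O Q) : red O (-Q) = -red O Q := Red_aux_neg h
theorem red_sub (h : Intg O Q) (h' : Intg O Q') : red O (Q - Q') = red O Q - red O Q' := by
  rw [sub_eq_add_neg, red_add h h'.neg, red_neg h', sub_eq_add_neg]
theorem red_smul (h : Intg O Q) (a : Zw) : red O (a • Q) = a • red O Q := (Red_aux_smul h a).2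
theorem red_lin {P : Fin 3 → EP M} (h : ∀ i, Intg O (P i)) (l : Lam) :
    red O (lin l P) = lin l fun i => red O (P i) := by
  rw [lin, lin, Fin.sum_univ_three, Fin.sum_univ_three,
    red_add (((h 0).smul _).add ((h 1).smul _)) ((h 2).smul _),
    red_add ((h 0).smul _) ((h 1).smul _), red_smul (h 0), red_smul (h 1), red_smul (h 2)]

theorem exists_shift (h : Intg O Q) :
    ∃ τ, Q + tors M τ ≠ 0 ∧ xc (Q + tors M τ) ∈ O.1 ∧ yc (Q + tors M τ) ∈ O.1 := Red_aux_shift h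
theorem Intg.yc_mem_dom {W : Pt M} (h : Intg O Q) (hd : Dom O W) : yc Q ∈ O.1 ↔ yc Q ∈ W.1 :=
  ⟨fun a => hd.1 a, fun a => by_contra fun b =>
    not_mem_of_tc (Red_aux_y0 b) (hd.2 (h.tc_mem b)) a⟩

/-- Reduction in stages. -/
theorem Intg.yc_mem_branch {ξ : Pt M} (h : Intg O Q) (hle : O.1 ≤ ξ.1)
    (V : ValuationSubring (RF ξ)) (h1 : ∀ g ∈ O.1, res ξ g ∈ V)
    (h2 : ∀ g ∈ mx O, res ξ g ∈ V.nonunits) (hy : yc Q ∈ ξ.1) :
    yc Q ∈ O.1 ↔ res ξ (yc Q) ∈ V := by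
  refine ⟨h1 _, fun a => by_contra fun b => ?_⟩
  have ht := h.tc_mem b
  have hu : IsU ξ (yc Q) := ⟨Red_aux_y0 b, hy, hle (mx_sub ht)⟩
  have := h2 _ ht
  rw [tc, res_inv hu, ValuationSubring.mem_nonunits_iff_or, inv_inv] at this
  exact this.elim (inv_ne_zero hu.res_ne) fun c => c a

theorem intg_mapPt {M' : Type} [Field M'] [Algebra ℂ M'] (g : M ≃ₐ[ℂ] M') :
    Intg (mapPt g O) (emap (g : M →ₐ[ℂ] M') Q) ↔ Intg O Q := by
  simp [Intg, sc, tc, mem_mapPt]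

theorem up_eq_cst (c : EP ℂ) : up ℂ M c = cst M c := by
  rw [up, cst]
  congr 2

/-- Points with coordinates in a subfield. -/
theorem exists_up {F : Type} [Field F] [Algebra ℂ F] [Algebra F M] [IsScalarTower ℂ F M]
    (hx : xc Q ∈ (algebraMap F M).range) (hy : yc Q ∈ (algebraMap F M).range) :
    ∃ c : EP F, Q = up F M c := by
  rcases Q.cases with rfl | ⟨a, b, h, rfl⟩
  · exact ⟨0, (map_zero _).symm⟩
  obtain ⟨a', rfl⟩ : ∃ a', algebraMap F M a' = a := hx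
  obtain ⟨b', rfl⟩ : ∃ b', algebraMap F M b' = b := hy
  exact ⟨pt a' b' ((algebraMap F M).injective (by simpa using h)), rfl⟩

end Pool.Agent.MP_95da86_ag
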