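import Pool.Agent.MP_95da86_ag.Place
import Pool.Agent.MP_95da86_ag.Red

/-! The function field of the curve over a field `F`. -/

namespace Pool.Agent.MP_95da86_ag

open Polynomial WeierstrassCurve.Affine

theorem GenA_aux_indep {F N : Type} [Field F] [Field N] [Algebra F N] {a b : N}
    (ha : Transcendental F a) (hab : b ^ 2 = a ^ 3 + 1) {p q : F[X]}
    (h : aeval a p + aeval a q * b = 0) : p = 0 ∧ q = 0 := by
  have h1 : aeval a (p ^ 2 - q ^ 2 * (X ^ 3 + 1)) = 0 := by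
    simp only [map_sub, map_mul, map_pow, map_add, aeval_X, map_one]
    linear_combination (aeval a p - aeval a q * b) * h + (aeval a q) ^ 2 * hab
  have h2 : p ^ 2 = q ^ 2 * (X ^ 3 + 1) := sub_eq_zero.1 (transcendental_iff.1 ha _ h1)
  have h3 : (X ^ 3 + 1 : F[X]).natDegree = 3 := by
    rw [← C_1, natDegree_X_pow_add_C]
  have hq : q = 0 := by
    by_contra hq
    have h4 := congrArg natDegree h2
    rw [natDegree_mul (pow_ne_zero 2 hq) (by rintro h0; simp [h0] at h3), natDegree_pow,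
      natDegree_pow, h3] at h4
    omega
  rw [hq] at h2
  exact ⟨by simpa using h2, hq⟩

theorem GenA_aux_ev (F : Type) [Field F] [Algebra ℂ F] {A : Type} [CommRing A] [Algebra F A]
    (a b : A) (h : b ^ 2 = a ^ 3 + 1) : ∃ ψ : (W0⁄F).CoordinateRing →ₐ[F] A,
      ∀ p q : F[X], ψ (p • 1 + q • CoordinateRing.mk (W0⁄F) X) = aeval a p + aeval a q * b := by
  have h0 : (W0⁄F).polynomial.eval₂ (aeval a : F[X] →ₐ[F] A) b = 0 := by
    simp only [WeierstrassCurve.Affine.polynomial, W0, WeierstrassCurve.Affine.baseChange,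
      WeierstrassCurve.baseChange, WeierstrassCurve.map_a₁, WeierstrassCurve.map_a₂,
      WeierstrassCurve.map_a₃, WeierstrassCurve.map_a₄, WeierstrassCurve.map_a₆, map_zero, map_one,
      eval₂_sub, eval₂_pow, eval₂_C, eval₂_X, zero_mul, add_zero]
    simp [h]
  refine ⟨AdjoinRoot.liftAlgHom _ (aeval a) b h0, fun p q => ?_⟩
  rw [CoordinateRing.smul, CoordinateRing.smul, map_add, map_mul, map_mul, map_one,
    AdjoinRoot.liftAlgHom_mk, AdjoinRoot.liftAlgHom_mk, AdjoinRoot.liftAlgHom_mk]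
  simp

theorem GenA_aux_inj {F N : Type} [Field F] [Algebra ℂ F] [Field N] [Algebra F N] {a b : N}
    (ha : Transcendental F a) (hab : b ^ 2 = a ^ 3 + 1) {ψ : (W0⁄F).CoordinateRing →ₐ[F] N}
    (hψ : ∀ p q : F[X], ψ (p • 1 + q • CoordinateRing.mk (W0⁄F) X) = aeval a p + aeval a q * b) :
    Function.Injective ψ := by
  refine (injective_iff_map_eq_zero ψ).2 fun z hz => ?_
  obtain ⟨p, q, rfl⟩ := CoordinateRing.exists_smul_basis_eq z
  obtain ⟨rfl, rfl⟩ := GenA_aux_indep ha hab ((hψ p q).symm.trans hz)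
  simp

theorem GenA_aux_mem {F N : Type} [Field F] [Field N] [Algebra F N] (a b : N) (p : F[X]) :
    aeval a p ∈ Algebra.adjoin F {a, b} :=
  Algebra.adjoin_mono (by simp) (aeval_mem_adjoin_singleton F a)

theorem GenA_aux_range {F N : Type} [Field F] [Algebra ℂ F] [Field N] [Algebra F N] {a b : N}
    {ψ : (W0⁄F).CoordinateRing →ₐ[F] N}
    (hψ : ∀ p q : F[X], ψ (p • 1 + q • CoordinateRing.mk (W0⁄F) X) = aeval a p + aeval a q * b) :
    ψ.range = Algebra.adjoin F {a, b} := by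
  apply le_antisymm
  · rintro _ ⟨z, rfl⟩
    obtain ⟨p, q, rfl⟩ := CoordinateRing.exists_smul_basis_eq z
    have e := hψ p q
    change ψ _ ∈ _
    rw [e]
    exact add_mem (GenA_aux_mem a b p)
      (mul_mem (GenA_aux_mem a b q) (Algebra.subset_adjoin (by simp)))
  · refine Algebra.adjoin_le ?_
    rintro z (rfl | rfl)
    · exact ⟨_, (hψ X 0).trans (by simp)⟩
    · exact ⟨_, (hψ 0 1).trans (by simp)⟩

variable {F M : Type} [Field F] [Field M] [Algebra ℂ F] [Algebra ℂ M] [Algebra F M]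
  [IsScalarTower ℂ F M] {P : EP M}

theorem Gen.isFF (hP : Gen F P) : IsFF F M := by
  refine ⟨xc P, hP.tr, ?_⟩
  have hi : IsIntegral (IntermediateField.adjoin F {xc P}) (yc P) := by
    refine IsIntegral.of_pow two_pos ?_
    rw [eqn_of_ne hP.ne]
    exact ((isIntegral_algebraMap (R := IntermediateField.adjoin F {xc P}) (A := M)
      (x := ⟨xc P, IntermediateField.mem_adjoin_simple_self F _⟩)).pow 3).add isIntegral_one
  have ht : IntermediateField.adjoin (IntermediateField.adjoin F {xc P}) {yc P} = ⊤ := by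
    apply IntermediateField.restrictScalars_injective F
    rw [IntermediateField.adjoin_adjoin_left, IntermediateField.restrictScalars_top]
    exact hP.gen
  have := IntermediateField.adjoin.finiteDimensional hi
  rw [ht] at this
  exact IntermediateField.topEquiv.toLinearEquiv.finiteDimensional

theorem Gen.yc_tr (hP : Gen F P) : Transcendental F (yc P) := by
  intro hy
  refine hP.tr (IsAlgebraic.of_pow (n := 3) (by norm_num) ?_)
  have : xc P ^ 3 = yc P ^ 2 - 1 := by rw [eqn_of_ne hP.ne]; ring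
  rw [this]
  exact ((hy.isIntegral.pow 2).sub isIntegral_one).isAlgebraic

theorem Gen.repr (hP : Gen F P) {f : M} (hf : f ∈ crd F P) :
    ∃ p q : F[X], f = aeval (xc P) p + aeval (xc P) q * yc P := by
  obtain ⟨ψ, hψ⟩ := GenA_aux_ev F (xc P) (yc P) (eqn_of_ne hP.ne)
  rw [crd, ← GenA_aux_range hψ] at hf
  obtain ⟨z, rfl⟩ := hf
  obtain ⟨p, q, rfl⟩ := CoordinateRing.exists_smul_basis_eq z
  exact ⟨p, q, hψ p q⟩

/-- `x ^ 3 + 1` has odd degree, so it is not a square in `F(x)`. -/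
theorem Gen.indep (hP : Gen F P) {p q : F[X]}
    (h : aeval (xc P) p + aeval (xc P) q * yc P = 0) : p = 0 ∧ q = 0 :=
  GenA_aux_indep hP.tr (eqn_of_ne hP.ne) h

theorem Gen.frac (hP : Gen F P) (f : M) :
    ∃ a ∈ crd F P, ∃ b : F[X], b ≠ 0 ∧ f = a / aeval (xc P) b := by
  have hf : f ∈ IntermediateField.adjoin F {xc P, yc P} := by
    rw [hP.gen]; exact IntermediateField.mem_top
  obtain ⟨r, hr, s, hs, rfl⟩ := IntermediateField.mem_adjoin_iff_div.1 hf
  by_cases h0 : s = 0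
  · exact ⟨0, zero_mem _, 1, one_ne_zero, by simp [h0]⟩
  obtain ⟨p, q, rfl⟩ := hP.repr hs
  have h1 : aeval (xc P) p + aeval (xc P) (-q) * yc P ≠ 0 := fun h => by
    obtain ⟨rfl, h2⟩ := hP.indep h
    obtain rfl := neg_eq_zero.1 h2
    simp at h0
  have h2 : aeval (xc P) (p ^ 2 - q ^ 2 * (X ^ 3 + 1)) =
      (aeval (xc P) p + aeval (xc P) q * yc P) * (aeval (xc P) p + aeval (xc P) (-q) * yc P) := by
    simp only [map_sub, map_mul, map_pow, map_add, aeval_X, map_one, map_neg]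
    linear_combination (aeval (xc P) q) ^ 2 * eqn_of_ne hP.ne
  refine ⟨r * (aeval (xc P) p + aeval (xc P) (-q) * yc P), mul_mem hr (add_mem
    (GenA_aux_mem _ _ _) (mul_mem (GenA_aux_mem _ _ _) (Algebra.subset_adjoin (by simp)))),
    p ^ 2 - q ^ 2 * (X ^ 3 + 1), fun h => ?_, ?_⟩
  · rw [h, map_zero] at h2
    exact mul_ne_zero h0 h1 h2.symm
  · rw [h2, mul_div_mul_right _ _ h1]

theorem Gen.isFractionRing (hP : Gen F P) : IsFractionRing (crd F P) M := by
  refine IsFractionRing.of_field _ _ fun z => ?_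
  obtain ⟨a, ha, b, -, rfl⟩ := hP.frac z
  exact ⟨⟨a, ha⟩, ⟨_, GenA_aux_mem _ _ b⟩, rfl⟩

theorem Gen.exists_equiv (hP : Gen F P) : ∃ e : (W0⁄F).CoordinateRing ≃ₐ[F] crd F P,
    ∀ p q : F[X], (e (p • 1 + q • CoordinateRing.mk (W0⁄F) X) : M) =
      aeval (xc P) p + aeval (xc P) q * yc P := by
  obtain ⟨ψ, hψ⟩ := GenA_aux_ev F (xc P) (yc P) (eqn_of_ne hP.ne)
  exact ⟨(AlgEquiv.ofInjective ψ (GenA_aux_inj hP.tr (eqn_of_ne hP.ne) hψ)).trans
    (Subalgebra.equivOfEq _ _ (GenA_aux_range hψ)), fun p q => hψ p q⟩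

theorem GenA_aux_symm (e : (W0⁄F).CoordinateRing ≃ₐ[F] crd F P)
    (he : ∀ p q : F[X], (e (p • 1 + q • CoordinateRing.mk (W0⁄F) X) : M) =
      aeval (xc P) p + aeval (xc P) q * yc P) {A : Type} [CommRing A] [Algebra F A] {a b : A}
    {ψ : (W0⁄F).CoordinateRing →ₐ[F] A}
    (hψ : ∀ p q : F[X], ψ (p • 1 + q • CoordinateRing.mk (W0⁄F) X) = aeval a p + aeval a q * b) :
    ψ (e.symm ⟨xc P, Algebra.subset_adjoin (by simp)⟩) = a ∧
      ψ (e.symm ⟨yc P, Algebra.subset_adjoin (by simp)⟩) = b := by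
  constructor
  · rw [e.symm_apply_eq.2 (Subtype.ext ((he X 0).trans (by simp)).symm), hψ]
    simp
  · rw [e.symm_apply_eq.2 (Subtype.ext ((he 0 1).trans (by simp)).symm), hψ]
    simp

/-- Homomorphisms out of the coordinate ring. -/
theorem Gen.exists_ev (hP : Gen F P) {A : Type} [CommRing A] [Algebra F A] (a b : A)
    (h : b ^ 2 = a ^ 3 + 1) : ∃ φ : crd F P →ₐ[F] A,
      φ ⟨xc P, Algebra.subset_adjoin (by simp)⟩ = a ∧ φ ⟨yc P, Algebra.subset_adjoin (by simp)⟩ = b := by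
  obtain ⟨e, he⟩ := hP.exists_equiv
  obtain ⟨ψ, hψ⟩ := GenA_aux_ev F a b h
  exact ⟨ψ.comp e.symm.toAlgHom, GenA_aux_symm e he hψ⟩

theorem Gen.lift (hP : Gen F P) {N : Type} [Field N] [Algebra ℂ N] [Algebra F N]
    [IsScalarTower ℂ F N] {Q : EP N} (hQ : Q ≠ 0) (ht : Transcendental F (xc Q)) :
    ∃ φ : M →ₐ[F] N, emap (φ.restrictScalars ℂ) P = Q := by
  obtain ⟨e, he⟩ := hP.exists_equiv
  obtain ⟨ψ, hψ⟩ := GenA_aux_ev F (xc Q) (yc Q) (eqn_of_ne hQ)
  have hi : Function.Injective (ψ.comp e.symm.toAlgHom) :=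
    (GenA_aux_inj ht (eqn_of_ne hQ) hψ).comp e.symm.injective
  have := hP.isFractionRing
  obtain ⟨h1, h2⟩ := GenA_aux_symm e he hψ
  refine ⟨IsFractionRing.liftAlgHom hi,
    EP.ext' (fun h => hP.ne ((emap_eq_zero _).1 h)) hQ ?_ ?_⟩
  · rw [xc_emap, ← h1]
    exact IsFractionRing.lift_algebraMap hi ⟨xc P, Algebra.subset_adjoin (by simp)⟩
  · rw [yc_emap, ← h2]
    exact IsFractionRing.lift_algebraMap hi ⟨yc P, Algebra.subset_adjoin (by simp)⟩

end Pool.Agent.MP_95da86_ag
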