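import Pool.Agent.MP_95da86_ag.WpA

/-! The valuation of an exceptional plane. -/

namespace Pool.Agent.MP_95da86_ag

variable {L : Type} [Field L] [Algebra ℂ L] {P : Fin 3 → EP L} {Op : Pt L} {p : F3}

open MvPolynomial in
theorem Wp_aux_hom {A : Type} [CommRing A] [Algebra ℂ A] {H : MvPolynomial (Fin 3) ℂ} {d : ℕ}
    (hH : H.IsHomogeneous d) (c : A) (u : Fin 3 → A) :
    aeval (fun j => c * u j) H = c ^ d * aeval u H := by
  rw [aeval_def, aeval_def, eval₂_eq, eval₂_eq, Finset.mul_sum]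
  refine Finset.sum_congr rfl fun m hm => ?_
  rw [hH.degree_eq_sum_deg_support hm, ← Finset.prod_pow_eq_pow_sum]
  simp only [mul_pow, Finset.prod_mul_distrib]
  ring

open MvPolynomial in
theorem Wp_aux_res (O : Pt L) {u : Fin 3 → L} (hu : ∀ j, u j ∈ O.1) (H : MvPolynomial (Fin 3) ℂ) :
    aeval u H ∈ O.1 ∧ res O (aeval u H) = aeval (fun j => res O (u j)) H := by
  induction H using MvPolynomial.induction_on with
  | C a =>
    rw [aeval_C, aeval_C]
    exact ⟨O.1.algebraMap_mem a, res_const O a⟩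
  | add f g hf hg =>
    rw [map_add, map_add]
    exact ⟨add_mem hf.1 hg.1, by rw [res_add hf.1 hg.1, hf.2, hg.2]⟩
  | mul_X f j hf =>
    rw [map_mul, map_mul, aeval_X, aeval_X]
    exact ⟨mul_mem hf.1 (hu j), by rw [res_mul hf.1 (hu j), hf.2]⟩

theorem Wp_aux_res1 (O : Pt L) {u : L} (hu : u ∈ O.1) (q : Polynomial ℂ) :
    Polynomial.aeval u q ∈ O.1 ∧ res O (Polynomial.aeval u q) = Polynomial.aeval (res O u) q := by
  induction q using Polynomial.induction_on with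
  | C a =>
    rw [Polynomial.aeval_C, Polynomial.aeval_C]
    exact ⟨O.1.algebraMap_mem a, res_const O a⟩
  | add f g hf hg =>
    rw [map_add, map_add]
    exact ⟨add_mem hf.1 hg.1, by rw [res_add hf.1 hg.1, hf.2, hg.2]⟩
  | monomial n a hf =>
    rw [pow_succ, ← mul_assoc, map_mul _ _ Polynomial.X, map_mul _ _ Polynomial.X,
      Polynomial.aeval_X, Polynomial.aeval_X]
    exact ⟨mul_mem hf.1 hu, by rw [res_mul hf.1 hu, hf.2]⟩

open MvPolynomial in
theorem Wp_aux_ne {A : Type} [CommRing A] [Algebra ℂ A] {a b : A}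
    (hab : AlgebraicIndependent ℂ ![a, b]) {H : MvPolynomial (Fin 3) ℂ} {d : ℕ}
    (hH : H.IsHomogeneous d) (h0 : H ≠ 0) : aeval ![1, a, b] H ≠ 0 := by
  intro h
  have key : ∀ {B : Type} [CommRing B] [Algebra ℂ B] (x y : B),
      aeval ![x, y] (aeval (![1, X 0, X 1] : Fin 3 → MvPolynomial (Fin 2) ℂ) H) =
        aeval ![1, x, y] H := by
    intro B _ _ x y
    rw [← AlgHom.comp_apply, comp_aeval]
    congr 2
    ext j
    fin_cases j <;> simp
  have h1 : aeval (![1, X 0, X 1] : Fin 3 → MvPolynomial (Fin 2) ℂ) H = 0 :=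
    hab (by rw [key, h, map_zero])
  have h2 : X 0 * H = 0 := by
    refine MvPolynomial.funext fun z => ?_
    rw [map_mul, eval_X, map_zero]
    by_cases hz : z 0 = 0
    · rw [hz, zero_mul]
    · have e : z = fun j => z 0 * (![1, z 1 / z 0, z 2 / z 0] : Fin 3 → ℂ) j := by
        ext j
        fin_cases j <;> simp <;> field_simp
      have e2 : eval z H = aeval z H := rfl
      rw [e2, e, Wp_aux_hom hH, ← key, h1]
      simp
  exact h0 ((mul_eq_zero.1 h2).resolve_left (X_ne_zero 0))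

theorem Wp_aux_s_ne (hP : Gen3 P) (p : F3) (i : Fin 3) : sc (sh P p i) ≠ 0 :=
  div_ne_zero ((hP.shift p).xc_ne i) ((hP.shift p).yc_ne i)

theorem Wp_aux_s_mx (hO : Op ∈ cubeP P) (h : Over Op P p) (i : Fin 3) : sc (sh P p i) ∈ mx Op :=
  (Over.sc_mem (cube_intg hO) h i).1

theorem Wp_aux_Bl_le {W : Pt L} (hle : Op.1 ≤ W.1) {i : Fin 3} (hu : ∀ j, ur P p i j ∈ W.1) :
    Bl Op P p i ≤ W.1 :=
  Algebra.adjoin_le (Set.union_subset hle (Set.range_subset_iff.2 hu))

theorem Wp_aux_Op_le (i : Fin 3) : Op.1 ≤ Bl Op P p i :=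
  fun _ hf => Algebra.subset_adjoin (Or.inl hf)

theorem Wp_aux_ur_mem (i j : Fin 3) : ur P p i j ∈ Bl Op P p i :=
  Algebra.subset_adjoin (Or.inr ⟨j, rfl⟩)

theorem Wp_aux_pow_mx {W : Pt L} {s f : L} (hs : s ∈ mx W) (h0 : s ≠ 0) {d N : ℕ} (hd : d < N)
    (hf : f / s ^ N ∈ W.1) : f / s ^ d ∈ mx W := by
  obtain ⟨e, rfl⟩ := Nat.exists_eq_add_of_lt hd
  have : f / s ^ d = f / s ^ (d + e + 1) * s ^ e * s := by field_simp; ring
  rw [this]
  exact mx_mul_left (mul_mem hf (pow_mem (mx_sub hs) e)) hs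

open MvPolynomial in
theorem Wp_aux_init (hP : Gen3 P) (hO : Op ∈ cubeP P) (h : Over Op P p) {W : Pt L} (hd : Dom Op W)
    (hu : ∀ j, ur P p 0 j ∈ W.1)
    (hi : AlgebraicIndependent ℂ ![res W (ur P p 0 1), res W (ur P p 0 2)])
    {G : MvPolynomial (Fin 3) ℂ} (hG : G ≠ 0) :
    ∃ d ≤ G.totalDegree, IsU W (aeval (fun j => sc (sh P p j)) G / sc (sh P p 0) ^ d) := by
  classical
  have h0 := Wp_aux_s_ne hP p 0
  have hm := hd.2 (Wp_aux_s_mx hO h 0)
  have hex : ∃ d, homogeneousComponent d G ≠ 0 := by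
    by_contra hc
    push Not at hc
    exact hG (by rw [← sum_homogeneousComponent G]; simp [hc])
  have hdle : Nat.find hex ≤ G.totalDegree := by
    by_contra hc
    exact Nat.find_spec hex (homogeneousComponent_eq_zero _ _ (not_le.1 hc))
  refine ⟨Nat.find hex, hdle, ?_⟩
  have es : (fun j => sc (sh P p j)) = fun j => sc (sh P p 0) * ur P p 0 j := by
    ext j
    rw [ur]
    field_simp
  have ec : ∀ e, aeval (fun j => sc (sh P p j)) (homogeneousComponent e G) / sc (sh P p 0) ^ e =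
      aeval (ur P p 0) (homogeneousComponent e G) := by
    intro e
    rw [es, Wp_aux_hom (homogeneousComponent_isHomogeneous e G)]
    exact mul_div_cancel_left₀ _ (pow_ne_zero _ h0)
  have hmem : Nat.find hex ∈ Finset.range (G.totalDegree + 1) :=
    Finset.mem_range.2 (Nat.lt_succ_of_le hdle)
  conv => enter [2, 1, 2]; rw [← sum_homogeneousComponent G]
  rw [map_sum, Finset.sum_div, ← Finset.add_sum_erase _ _ hmem]
  refine IsU.add_mx ?_ ?_
  · rw [ec]
    have hr := Wp_aux_res W hu (homogeneousComponent (Nat.find hex) G)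
    refine isU_of_not_mx hr.1 fun hc => ?_
    rw [← res_eq_zero hr.1, hr.2] at hc
    have e1 : (fun j => res W (ur P p 0 j)) = ![1, res W (ur P p 0 1), res W (ur P p 0 2)] := by
      ext j
      fin_cases j
      · simp [ur, div_self h0, res_one]
      · rfl
      · rfl
    rw [e1] at hc
    exact Wp_aux_ne hi (homogeneousComponent_isHomogeneous _ G) (Nat.find_spec hex) hc
  · refine Finset.sum_induction _ (· ∈ mx W) (fun _ _ => mx_add) (zero_mem_mx W) fun e he => ?_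
    rcases lt_or_gt_of_ne (Finset.ne_of_mem_erase he) with hlt | hlt
    · have : homogeneousComponent e G = 0 := not_not.1 (Nat.find_min hex hlt)
      rw [this, map_zero, zero_div]
      exact zero_mem_mx W
    · refine Wp_aux_pow_mx hm h0 hlt ?_
      rw [ec]
      exact (Wp_aux_res W hu _).1

theorem Wp_aux_div_mem (hP : Gen3 P) (hO : Op ∈ cubeP P) (h : Over Op P p) (i : Fin 3) {N : ℕ}
    {r : Op.1} (hr : r ∈ IsLocalRing.maximalIdeal Op.1 ^ N) :
    (r : L) / sc (sh P p i) ^ N ∈ Bl Op P p i :=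
  (mem_Bl_iff hP hO h i _).2 ⟨N, r, hr, rfl⟩

open MvPolynomial in
theorem Wp_aux_sep (hP : Gen3 P) (hO : Op ∈ cubeP P) (h : Over Op P p) {W : Pt L} (hd : Dom Op W)
    (hu : ∀ j, ur P p 0 j ∈ W.1)
    (hi : AlgebraicIndependent ℂ ![res W (ur P p 0 1), res W (ur P p 0 2)])
    {r : Op.1} (hr : ∀ N, r ∈ IsLocalRing.maximalIdeal Op.1 ^ N) : r = 0 := by
  by_contra h0
  have hind : AlgebraicIndependent ℂ fun j => sc (sh P p j) := by
    rw [algebraicIndependent_iff]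
    intro G hG
    by_contra hne
    obtain ⟨d, -, hd'⟩ := Wp_aux_init hP hO h hd hu hi hne
    exact hd'.1 (by rw [hG, zero_div])
  have hb := hind.isTranscendenceBasis_of_trdeg_le_of_finite (by rw [hP.trdeg]; simp)
  have halg := hb.isAlgebraic.isAlgebraic (r : L)
  obtain ⟨t, ht, c, hc, e⟩ := halg.exists_nonzero_eq_adjoin_mul
    (mem_nonZeroDivisors_of_ne_zero fun h1 => h0 (Subtype.ext h1))
  have hle : Algebra.adjoin ℂ (Set.range fun j => sc (sh P p j)) ≤ Op.1 :=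
    Algebra.adjoin_le (Set.range_subset_iff.2 fun j => mx_sub (Wp_aux_s_mx hO h j))
  have htO : t ∈ Op.1 := by
    refine Algebra.adjoin_induction (p := fun x _ => x ∈ Op.1) ?_ ?_ ?_ ?_ ht
    · rintro _ rfl
      exact r.2
    · exact fun x => hle x.2
    · exact fun _ _ _ _ => add_mem
    · exact fun _ _ _ _ => mul_mem
  obtain ⟨c, hc'⟩ := c
  have hc2 := hc'
  rw [Algebra.adjoin_range_eq_range_aeval] at hc2
  obtain ⟨G, rfl⟩ := hc2
  have hG : G ≠ 0 := fun hG => hc (Subtype.ext (by simp [hG]))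
  obtain ⟨d, -, hd'⟩ := Wp_aux_init hP hO h hd hu hi hG
  refine hd'.not_mx (Wp_aux_pow_mx (hd.2 (Wp_aux_s_mx hO h 0)) (Wp_aux_s_ne hP p 0)
    (Nat.lt_succ_self d) ?_)
  have := Wp_aux_div_mem hP hO h 0 (Ideal.mul_mem_right ⟨t, htO⟩ _ (hr (d + 1)))
  have e' : ((r * ⟨t, htO⟩ : Op.1) : L) = aeval (fun j => sc (sh P p j)) G := e
  rw [e'] at this
  exact Wp_aux_Bl_le hd.1 hu this

theorem Wp_aux_unit (hP : Gen3 P) (hO : Op ∈ cubeP P) (h : Over Op P p) {W : Pt L} (hd : Dom Op W)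
    (hu : ∀ j, ur P p 0 j ∈ W.1)
    (hi : AlgebraicIndependent ℂ ![res W (ur P p 0 1), res W (ur P p 0 2)])
    {r : Op.1} (hr : r ≠ 0) :
    ∃ n : ℕ, r ∈ IsLocalRing.maximalIdeal Op.1 ^ n ∧ IsU W (r / sc (sh P p 0) ^ n) := by
  classical
  have h0 := Wp_aux_s_ne hP p 0
  have hm := hd.2 (Wp_aux_s_mx hO h 0)
  have hex : ∃ N, r ∉ IsLocalRing.maximalIdeal Op.1 ^ N := by
    by_contra hc
    push Not at hc
    exact hr (Wp_aux_sep hP hO h hd hu hi hc)
  have hpos : Nat.find hex ≠ 0 := fun hz => Nat.find_spec hex (by rw [hz]; simp)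
  obtain ⟨n, hn⟩ := Nat.exists_eq_succ_of_ne_zero hpos
  have h1 : r ∈ IsLocalRing.maximalIdeal Op.1 ^ n :=
    not_not.1 (Nat.find_min hex (by omega))
  have h2 : r ∉ IsLocalRing.maximalIdeal Op.1 ^ (n + 1) := by
    have := Nat.find_spec hex
    rwa [hn] at this
  refine ⟨n, h1, ?_⟩
  obtain ⟨G, r', hG, hr', e⟩ := taylor hP hO h r (n + 1)
  have hG0 : G ≠ 0 := by
    rintro rfl
    rw [map_zero, zero_add] at e
    exact h2 (by rw [Subtype.ext e]; exact hr')
  obtain ⟨d, hdle, hd'⟩ := Wp_aux_init hP hO h hd hu hi hG0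
  have hlt := hG.resolve_left hG0
  have hU : IsU W (r / sc (sh P p 0) ^ d) := by
    rw [e, add_div]
    exact hd'.add_mx (Wp_aux_pow_mx hm h0 (hdle.trans_lt hlt)
      (Wp_aux_Bl_le hd.1 hu (Wp_aux_div_mem hP hO h 0 hr')))
  rcases (show d < n ∨ d = n by omega) with hdn | rfl
  · exact absurd (Wp_aux_pow_mx hm h0 hdn (Wp_aux_Bl_le hd.1 hu (Wp_aux_div_mem hP hO h 0 h1)))
      hU.not_mx
  · exact hU

theorem Wp_aux_frac (hP : Gen3 P) (hO : Op ∈ cubeP P) (h : Over Op P p) (f : L) :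
    ∃ a b : Op.1, f = a / b := by
  have h1 : IntermediateField.adjoin ℂ (Op.1 : Set L) = ⊤ := by
    rw [eq_top_iff, ← (hP.shift p).gen, IntermediateField.adjoin_le_iff]
    have hs : ∀ i, sc (sh P p i) ∈ IntermediateField.adjoin ℂ (Op.1 : Set L) := fun i =>
      IntermediateField.subset_adjoin _ _ (mx_sub (Over.sc_mem (cube_intg hO) h i).1)
    have ht : ∀ i, yc (sh P p i) ∈ IntermediateField.adjoin ℂ (Op.1 : Set L) := fun i => by
      have := inv_mem (IntermediateField.subset_adjoin ℂ (Op.1 : Set L)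
        (mx_sub (Over.sc_mem (cube_intg hO) h i).2))
      rwa [tc, inv_inv] at this
    rintro _ (⟨i, rfl⟩ | ⟨i, rfl⟩)
    · have := mul_mem (hs i) (ht i)
      rwa [sc, div_mul_cancel₀ _ ((hP.shift p).yc_ne i)] at this
    · exact ht i
  have h2 : f ∈ IntermediateField.adjoin ℂ (Op.1 : Set L) := h1 ▸ IntermediateField.mem_top
  obtain ⟨a, ha, b, hb, e⟩ := IntermediateField.mem_adjoin_iff_div.1 h2
  rw [Algebra.adjoin_eq] at ha hb
  exact ⟨⟨a, ha⟩, ⟨b, hb⟩, e⟩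

theorem Wp_aux_uU (hP : Gen3 P) {W : Pt L} (hu : ∀ j, ur P p 0 j ∈ W.1)
    (hi : AlgebraicIndependent ℂ ![res W (ur P p 0 1), res W (ur P p 0 2)]) (j : Fin 3) :
    IsU W (ur P p 0 j) := by
  refine isU_of_not_mx (hu j) fun hc => ?_
  rw [← res_eq_zero (hu j)] at hc
  fin_cases j
  · simp [ur, div_self (Wp_aux_s_ne hP p 0), res_one] at hc
  · exact hi.ne_zero 0 hc
  · exact hi.ne_zero 1 hc

/-- With `taylor`: a non-zero `r ∈ Op` is `s 0 ^ n` times a unit of `W` lying in `Bl 0`, where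
`n` is the degree of its initial form (an `r` in all powers of the maximal ideal would divide a
non-zero polynomial in the `s j`, being algebraic over them). Use `dvr_of_unif`. -/
theorem exists_W (hP : Gen3 P) (hO : Op ∈ cubeP P) (h : Over Op P p) :
    ∃ (W : ValuationSubring L) (hW : ∀ c : ℂ, algebraMap ℂ L c ∈ W),
      IsDiscreteValuationRing W ∧ Dom Op (vpt W hW) ∧ (∀ i, ord W (sc (sh P p i)) = 1) ∧
      (∀ i, vpt W hW ∈ spec (Bl Op P p i)) ∧
      (∀ (N : ℕ) (r : Op.1), (N : ℤ) ≤ ord W r → r ∈ IsLocalRing.maximalIdeal Op.1 ^ N) ∧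
      (∀ i, ∀ O ∈ spec (Bl Op P p i), mx Op ⊆ mx O → ∀ g ∈ O.1, g ∈ W) ∧
      AlgebraicIndependent ℂ ![res (vpt W hW) (ur P p 0 1), res (vpt W hW) (ur P p 0 2)] := by
  obtain ⟨W, hW, hd, hu, hi⟩ := exists_W0 hP hO h
  have h0 := Wp_aux_s_ne hP p
  have hm := hd.2 (Wp_aux_s_mx hO h 0)
  have huU := Wp_aux_uU (W := vpt W hW) hP hu hi
  have hunit := fun (r : Op.1) (hr : r ≠ 0) => Wp_aux_unit hP hO h hd hu hi hr
  obtain ⟨hdvr, hord⟩ := dvr_of_unif W (sc (sh P p 0)) (h0 0) (mem_mx_vpt.1 hm) fun f hf => by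
    obtain ⟨a, b, rfl⟩ := Wp_aux_frac hP hO h f
    have ha : a ≠ 0 := fun e => hf (by simp [e])
    have hb : b ≠ 0 := fun e => hf (by simp [e])
    obtain ⟨n, -, hn⟩ := hunit a ha
    obtain ⟨k, -, hk⟩ := hunit b hb
    have hq := hn.div hk
    have e : (a : L) / sc (sh P p 0) ^ n / (b / sc (sh P p 0) ^ k) =
        a / b / sc (sh P p 0) ^ ((n : ℤ) - k) := by
      rw [zpow_sub₀ (h0 0), zpow_natCast, zpow_natCast]
      have := h0 0
      field_simp
    rw [e] at hq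
    exact ⟨(n : ℤ) - k, hq.2.1, by rw [← inv_div]; exact hq.2.2⟩
  have hordU : ∀ f, IsU (vpt W hW) f → ord W f = 0 := fun f hf =>
    (ord_eq_zero_iff W f).2 ⟨hf.2.1, hf.2.2⟩
  have hs : ∀ i, ord W (sc (sh P p i)) = 1 := fun i => by
    have := hordU _ (huU i)
    rw [ur, ord_div W (h0 i) (h0 0), hord] at this
    omega
  have hdiv : ∀ (i : Fin 3) (f : L) (n : ℕ), f ≠ 0 → ord W (f / sc (sh P p i) ^ n) = ord W f - n :=
    fun i f n hf => by rw [ord_div W hf (pow_ne_zero _ (h0 i)), ord_pow, hs, mul_one]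
  have hpow : ∀ (N : ℕ) (r : Op.1), (N : ℤ) ≤ ord W r →
      r ∈ IsLocalRing.maximalIdeal Op.1 ^ N := fun N r hN => by
    by_cases hr : r = 0
    · rw [hr]
      exact zero_mem _
    · obtain ⟨n, hn, hU⟩ := hunit r hr
      have := hordU _ hU
      rw [hdiv 0 r n fun e => hr (Subtype.ext e)] at this
      exact Ideal.pow_le_pow_right (by omega) hn
  have hle : ∀ i, Bl Op P p i ≤ (vpt W hW).1 := fun i => Wp_aux_Bl_le hd.1 fun j => by
    have := ((huU j).div (huU i)).2.1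
    rwa [ur, ur, div_div_div_cancel_right₀ (h0 0)] at this
  refine ⟨W, hW, hdvr, hd, hs, fun i => ⟨hle i, fun f hf => ?_⟩, hpow, ?_, hi⟩
  · by_cases hf0 : f = 0
    · exact ⟨0, zero_mem _, 1, one_mem _, by simp, by simp [hf0]⟩
    obtain ⟨a, b, rfl⟩ := Wp_aux_frac hP hO h f
    have ha : (a : L) ≠ 0 := fun e => hf0 (by simp [e])
    have hb : (b : L) ≠ 0 := fun e => hf0 (by simp [e])
    have h1 : 0 ≤ ord W (a / b) := (ord_nonneg_iff W _).2 hf
    rw [ord_div W ha hb] at h1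
    obtain ⟨k, hk⟩ := Int.eq_ofNat_of_zero_le ((ord_nonneg_iff W (b : L)).2 (hd.1 b.2))
    refine ⟨_, Wp_aux_div_mem hP hO h i (hpow k a (by omega)), _,
      Wp_aux_div_mem hP hO h i (hpow k b (by omega)), ?_, ?_⟩
    · refine ((ord_eq_zero_iff W _).1 ?_).2
      rw [hdiv i b k hb]
      omega
    · rw [div_div_div_cancel_right₀ (pow_ne_zero _ (h0 i))]
  · intro i O hOs hmx g hg
    obtain ⟨a, ha, b, hb, hb', rfl⟩ := hOs.2 g hg
    by_cases hb0 : b = 0
    · simp [hb0]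
    rw [div_eq_mul_inv]
    refine mul_mem (hle i ha) (isU_of_not_mx (O := vpt W hW) (hle i hb) fun hc => ?_).2.2
    have h1 := (ord_pos_iff W hb0).2 (mem_mx_vpt.1 hc)
    obtain ⟨N, r, -, rfl⟩ := (mem_Bl_iff hP hO h i b).1 hb
    have hr : (r : L) ≠ 0 := fun e => hb0 (by simp [e])
    rw [hdiv i r N hr] at h1
    have h2 := hOs.1 (Wp_aux_div_mem hP hO h i (hpow (N + 1) r (by push_cast; omega)))
    exact IsU.not_mx ⟨hb0, hOs.1 hb, hb'⟩
      (Wp_aux_pow_mx (hmx (Wp_aux_s_mx hO h i)) (h0 i) (Nat.lt_succ_self N) h2)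

theorem Wp_aux_const (hO : Op ∈ cubeP P) (h : Over Op P p) {W : Pt L} (hd : Dom Op W) {f : L}
    (hf : f ∈ Op.1) : ∃ c : ℂ, res W f = algebraMap ℂ (RF W) c := by
  obtain ⟨c, hc⟩ := over_const hO h hf
  refine ⟨c, ?_⟩
  have := (res_eq_zero (mx_sub (hd.2 hc))).2 (hd.2 hc)
  rwa [res_sub (hd.1 hf) (W.1.algebraMap_mem c), res_const, sub_eq_zero] at this

/-- The local ring of a fixed point is not a valuation ring. -/
theorem ur_not_mem (hP : Gen3 P) (hO : Op ∈ cubeP P) (h : Over Op P p) :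
    ur P p 0 1 ∉ Op.1 ∧ ur P p 1 0 ∉ Op.1 := by
  obtain ⟨W, hW, hd, hu, hi⟩ := exists_W0 hP hO h
  have ht : Transcendental ℂ (res (vpt W hW) (ur P p 0 1)) := hi.transcendental 0
  constructor
  · intro hc
    obtain ⟨c, e⟩ := Wp_aux_const hO h hd hc
    exact ht (e ▸ isAlgebraic_algebraMap c)
  · intro hc
    obtain ⟨c, e⟩ := Wp_aux_const hO h hd hc
    have e1 : ur P p 1 0 = (ur P p 0 1)⁻¹ := by rw [ur, ur, inv_div]
    rw [e1, res_inv (Wp_aux_uU (W := vpt W hW) hP hu hi 1)] at e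
    refine ht ?_
    rw [← inv_inv (res _ _), e, ← map_inv₀]
    exact isAlgebraic_algebraMap _

/-- The line `s 2 = 0` of the exceptional plane. Every element of `Bl 0` is a polynomial in
`u 1, u 2` modulo the maximal ideal of `W`; map `u 1 ↦ X`, `u 2 ↦ 0` into `RatFunc ℂ`. -/
theorem exists_line (hP : Gen3 P) (hO : Op ∈ cubeP P) (h : Over Op P p) :
    ∃ ξ ∈ spec (Bl Op P p 0), mx Op ⊆ mx ξ ∧ IsFF ℂ (RF ξ) ∧
      Transcendental ℂ (res ξ (ur P p 0 1)) := by
  obtain ⟨W, hW, hd, hu, hi⟩ := exists_W0 hP hO h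
  set Wp := vpt W hW
  set a := res Wp (ur P p 0 1) with ha
  set b := res Wp (ur P p 0 2) with hb
  have hta : Transcendental ℂ a := hi.transcendental 0
  have htb : Transcendental (IntermediateField.adjoin ℂ {a}) b⁻¹ := by
    have := hi.transcendental_adjoin (s := {0}) (i := 1) (by simp)
    rw [Set.image_singleton, ← IntermediateField.transcendental_adjoin_iff] at this
    exact fun hc => this (IsAlgebraic.inv_iff.1 hc)
  obtain ⟨V, hV⟩ := exists_pole htb
  have hVa : ∀ x ∈ IntermediateField.adjoin ℂ {a}, x ∈ V.1 := fun x hx => V.2.2 ⟨x, hx⟩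
  have hVc : ∀ c : ℂ, algebraMap ℂ (RF Wp) c ∈ V.1 := fun c =>
    hVa _ (IntermediateField.algebraMap_mem _ c)
  have hbm : b ∈ mx (vpt V.1 hVc) := by
    rw [mem_mx_vpt, ValuationSubring.mem_nonunits_iff_or]
    exact Or.inr hV
  obtain ⟨W', hW1, hW2⟩ := exists_pre Wp (vpt V.1 hVc)
  have hle : Bl Op P p 0 ≤ W'.1 := by
    refine Wp_aux_Bl_le (fun f hf => (hW1 f).2 ⟨hd.1 hf, ?_⟩) fun j => (hW1 _).2 ⟨hu j, ?_⟩
    · obtain ⟨c, e⟩ := Wp_aux_const hO h hd hf
      rw [e]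
      exact hVc c
    · fin_cases j
      · simp [ur, div_self (Wp_aux_s_ne hP p 0), res_one]
      · exact hVa _ (IntermediateField.mem_adjoin_simple_self ℂ a)
      · exact mx_sub hbm
  obtain ⟨ξ, hξ, hdξ⟩ := exists_centre _ W' hle
  have hmx : mx Op ⊆ mx ξ := fun f hf => by
    refine mx_of_le hdξ.1 (hξ.1 (Wp_aux_Op_le 0 (mx_sub hf))) ((hW2 f).2 ⟨mx_sub (hd.2 hf), ?_⟩)
    rw [(res_eq_zero (mx_sub (hd.2 hf))).2 (hd.2 hf)]
    exact zero_mem_mx _
  have hdO : Dom Op ξ := ⟨fun f hf => hξ.1 (Wp_aux_Op_le 0 hf), hmx⟩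
  have hu1 : ur P p 0 1 ∈ ξ.1 := hξ.1 (Wp_aux_ur_mem 0 1)
  have htr : Transcendental ℂ (res ξ (ur P p 0 1)) := by
    rw [transcendental_iff]
    intro q hq
    have h1 := Wp_aux_res1 ξ hu1 q
    rw [← h1.2, res_eq_zero h1.1] at hq
    have h2 := ((hW2 _).1 (hdξ.2 hq)).2
    rw [(Wp_aux_res1 Wp (hu 1) q).2] at h2
    by_contra hq0
    have h3 : Polynomial.aeval a q ∈ IntermediateField.adjoin ℂ {a} :=
      IntermediateField.algebra_adjoin_le_adjoin ℂ _ (Polynomial.aeval_mem_adjoin_singleton ℂ a)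
    exact IsU.not_mx ⟨fun e => hq0 (transcendental_iff.1 hta q e), hVa _ h3, hVa _ (inv_mem h3)⟩ h2
  refine ⟨ξ, hξ, hmx, ⟨_, htr, ?_⟩, htr⟩
  have hgen : ∀ g ∈ Bl Op P p 0, res ξ g ∈ IntermediateField.adjoin ℂ {res ξ (ur P p 0 1)} := by
    intro g hg
    refine Algebra.adjoin_induction
      (p := fun x _ => res ξ x ∈ IntermediateField.adjoin ℂ {res ξ (ur P p 0 1)}) ?_ ?_ ?_ ?_ hg
    · rintro x (hx | ⟨j, rfl⟩)
      · obtain ⟨c, e⟩ := Wp_aux_const hO h hdO hx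
        rw [e]
        exact IntermediateField.algebraMap_mem _ c
      · fin_cases j
        · simp [ur, div_self (Wp_aux_s_ne hP p 0), res_one]
        · exact IntermediateField.mem_adjoin_simple_self ℂ _
        · have h2 : ur P p 0 2 ∈ ξ.1 := hξ.1 (Wp_aux_ur_mem 0 2)
          have := (res_eq_zero h2).2 (mx_of_le hdξ.1 h2 ((hW2 _).2 ⟨hu 2, hbm⟩))
          exact this ▸ zero_mem _
    · intro c
      rw [res_const]
      exact IntermediateField.algebraMap_mem _ c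
    · intro x y hx hy h1 h2
      rw [res_add (hξ.1 hx) (hξ.1 hy)]
      exact add_mem h1 h2
    · intro x y hx hy h1 h2
      rw [res_mul (hξ.1 hx) (hξ.1 hy)]
      exact mul_mem h1 h2
  have htop : IntermediateField.adjoin ℂ {res ξ (ur P p 0 1)} = ⊤ := by
    rw [eq_top_iff]
    intro z _
    obtain ⟨f, hf, rfl⟩ := res_surj ξ z
    obtain ⟨x, hx, y, hy, hy', rfl⟩ := hξ.2 f hf
    by_cases hy0 : y = 0
    · rw [hy0, div_zero, res_zero]
      exact zero_mem _
    · rw [res_div (hξ.1 hx) ⟨hy0, hξ.1 hy, hy'⟩]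
      exact div_mem (hgen x hx) (hgen y hy)
  rw [htop]
  exact Module.Finite.of_surjective (Algebra.linearMap _ _) fun z => ⟨⟨z, trivial⟩, rfl⟩

end Pool.Agent.MP_95da86_ag
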