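import Pool.Agent.MP_95da86_ag.Krull
import Pool.Agent.MP_95da86_ag.Wp
import Pool.Agent.MP_95da86_ag.Blow

/-! A function on the blow-up without poles along prime divisors is regular. -/

namespace Pool.Agent.MP_95da86_ag

variable {L : Type} [Field L] [Algebra ℂ L] {P : Fin 3 → EP L} {σ : L ≃ₐ[ℂ] L}

theorem Tower.const_mem (T : Tower P) {V : ValuationSubring L} (hV : V ∈ T.VV) (c : ℂ) :
    algebraMap ℂ L c ∈ V := by
  rw [IsScalarTower.algebraMap_apply ℂ T.F2 L]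
  rcases hV with (hV | ⟨W, hG⟩) | ⟨W, W', hG, hG'⟩
  · exact hV.2 _
  · rw [hG.1, IsScalarTower.algebraMap_apply ℂ T.F1 T.F2]
    exact W.2.2 _
  · rw [hG'.1, IsScalarTower.algebraMap_apply ℂ T.F1 T.F2, hG.1]
    exact W.2.2 _

private theorem Hart_aux_gauss {F M : Type} [Field F] [Field M] [Algebra ℂ F] [Algebra ℂ M]
    [Algebra F M] [IsScalarTower ℂ F M] {Q : EP M} {W : ValuationSubring F}
    {V : ValuationSubring M} (hQ : Gen F Q) (hW : ∀ c : ℂ, algebraMap ℂ F c ∈ W) (τ : ZMod 3) :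
    IsGauss W V (xc (Q + tors M τ)) ↔ IsGauss W V (xc Q) := by
  refine ⟨fun hG => ?_, fun hG => hG.shift hQ hW τ⟩
  have := hG.shift (hQ.add_tors τ) hW (-τ)
  rwa [tors_neg, add_neg_cancel_right] at this

private theorem Hart_aux_up {F : Type} [Field F] [Algebra ℂ F] [Algebra F L]
    [IsScalarTower ℂ F L] {Q : EP F} {R : EP L} (e : up F L Q = R) (τ : ZMod 3) :
    algebraMap F L (xc (Q + tors F τ)) = xc (R + tors L τ) ∧
      algebraMap F L (yc (Q + tors F τ)) = yc (R + tors L τ) := by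
  have : R + tors L τ = emap (IsScalarTower.toAlgHom ℂ F L) (Q + tors F τ) := by
    rw [map_add, emap_tors, ← e]; rfl
  rw [this, xc_emap, yc_emap]
  exact ⟨rfl, rfl⟩

private theorem Hart_aux_x (P : Fin 3 → EP L) (i : Fin 3) : xc (P i) ∈ chartA P :=
  Algebra.subset_adjoin (Or.inl ⟨i, rfl⟩)

private theorem Hart_aux_y (P : Fin 3 → EP L) (i : Fin 3) : yc (P i) ∈ chartA P :=
  Algebra.subset_adjoin (Or.inr ⟨i, rfl⟩)

/-- `Krull.step` three times for the generic points `P1 + a₀ T`, `P2 + a₁ T`, `P 2 + a₂ T`, and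
`IsGauss.shift` to identify the family. -/
theorem Tower.krull (T : Tower P) (a : F3) :
    Krull (chartA fun i => P i + tors L (a i))
      {V | V ∈ T.VV ∧ ∀ g ∈ chartA fun i => P i + tors L (a i), g ∈ V} := by
  have K3 := ((krull_base.step (T.g1.add_tors (a 0))).step (T.g2.add_tors (a 1))).step
    (T.g3.add_tors (a 2))
  obtain ⟨x1, y1⟩ := Hart_aux_up T.e1 (a 0)
  obtain ⟨x2, y2⟩ := Hart_aux_up T.e2 (a 1)
  have hx := Hart_aux_x fun i => P i + tors L (a i)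
  have hy := Hart_aux_y fun i => P i + tors L (a i)
  rw [IsScalarTower.algebraMap_apply T.F1 T.F2 L] at x1 y1
  have hB : Algebra.adjoin ℂ (algebraMap T.F2 L '' (Algebra.adjoin ℂ (algebraMap T.F1 T.F2 ''
      (Algebra.adjoin ℂ (algebraMap ℂ T.F1 '' (⊤ : Subalgebra ℂ ℂ) ∪
        {xc (T.P1 + tors T.F1 (a 0)), yc (T.P1 + tors T.F1 (a 0))}) : Subalgebra ℂ T.F1) ∪
        {xc (T.P2 + tors T.F2 (a 1)), yc (T.P2 + tors T.F2 (a 1))}) : Subalgebra ℂ T.F2) ∪
        {xc (P 2 + tors L (a 2)), yc (P 2 + tors L (a 2))}) =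
      chartA fun i => P i + tors L (a i) := by
    apply le_antisymm
    · refine Algebra.adjoin_le ?_
      rintro g (⟨g, hg, rfl⟩ | rfl | rfl)
      · refine (Algebra.adjoin_le (S := (chartA fun i => P i + tors L (a i)).comap
          (IsScalarTower.toAlgHom ℂ T.F2 L)) ?_ : _ ≤ _) hg
        rintro g (⟨g, hg, rfl⟩ | rfl | rfl)
        · refine (Algebra.adjoin_le (S := ((chartA fun i => P i + tors L (a i)).comap
            (IsScalarTower.toAlgHom ℂ T.F2 L)).comap (IsScalarTower.toAlgHom ℂ T.F1 T.F2)) ?_ :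
              _ ≤ _) hg
          rintro g (⟨g, -, rfl⟩ | rfl | rfl)
          · exact Subalgebra.algebraMap_mem _ g
          · have := hx 0
            rw [← x1] at this
            exact this
          · have := hy 0
            rw [← y1] at this
            exact this
        · have := hx 1
          rw [← x2] at this
          exact this
        · have := hy 1
          rw [← y2] at this
          exact this
      · exact hx 2
      · exact hy 2
    · refine Algebra.adjoin_le ?_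
      rintro g (⟨i, rfl⟩ | ⟨i, rfl⟩) <;> refine Algebra.subset_adjoin ?_ <;> fin_cases i
      · exact Or.inl ⟨_, Algebra.subset_adjoin (Or.inl ⟨_, Algebra.subset_adjoin
          (Or.inr (Or.inl rfl)), rfl⟩), x1⟩
      · exact Or.inl ⟨_, Algebra.subset_adjoin (Or.inr (Or.inl rfl)), x2⟩
      · exact Or.inr (Or.inl rfl)
      · exact Or.inl ⟨_, Algebra.subset_adjoin (Or.inl ⟨_, Algebra.subset_adjoin
          (Or.inr (Or.inr rfl)), rfl⟩), y1⟩
      · exact Or.inl ⟨_, Algebra.subset_adjoin (Or.inr (Or.inr rfl)), y2⟩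
      · exact Or.inr (Or.inr rfl)
  rw [hB] at K3
  have c2 : ∀ {W : ValuationSubring T.F2}, (∀ c : T.F1, algebraMap T.F1 T.F2 c ∈ W) →
      ∀ c : ℂ, algebraMap ℂ T.F2 c ∈ W := fun hW c => by
    rw [IsScalarTower.algebraMap_apply ℂ T.F1 T.F2]; exact hW _
  have c2' : ∀ {W : ValuationSubring T.F1} {W' : ValuationSubring T.F2} {x : T.F2},
      (∀ c : ℂ, algebraMap ℂ T.F1 c ∈ W) → IsGauss W W' x →
      ∀ c : ℂ, algebraMap ℂ T.F2 c ∈ W' := fun hW hG c => by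
    rw [IsScalarTower.algebraMap_apply ℂ T.F1 T.F2, hG.1]; exact hW _
  convert K3 using 1
  ext V
  refine ⟨?_, fun hV => ⟨?_, K3.le V hV⟩⟩
  · rintro ⟨(hV | ⟨W, hG⟩) | ⟨W, W', hG, hG'⟩, hle⟩
    · exact Or.inl ⟨hV.1, hV.2, hle _ (hx 2)⟩
    · refine Or.inr ⟨W.1, Or.inl ⟨W.2.1, W.2.2, ?_⟩, (Hart_aux_gauss T.g3 (c2 W.2.2) _).2 hG⟩
      rw [← hG.1, x2]; exact hle _ (hx 1)
    · refine Or.inr ⟨W', Or.inr ⟨W.1, Or.inl ⟨W.2.1, W.2.2, ?_⟩,
        (Hart_aux_gauss T.g2 W.2.2 _).2 hG⟩, (Hart_aux_gauss T.g3 (c2' W.2.2 hG) _).2 hG'⟩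
      rw [← hG.1, ← hG'.1, x1]; exact hle _ (hx 0)
  · rcases hV with hV | ⟨W', hW' | ⟨W, hW | ⟨_, h0, -⟩, hG⟩, hG'⟩
    · exact Or.inl (Or.inl ⟨hV.1, hV.2.1⟩)
    · exact Or.inl (Or.inr ⟨⟨W', hW'.1, hW'.2.1⟩, (Hart_aux_gauss T.g3 (c2 hW'.2.1) _).1 hG'⟩)
    · exact Or.inr ⟨⟨W, hW.1, hW.2.1⟩, W', (Hart_aux_gauss T.g2 hW.2.1 _).1 hG,
        (Hart_aux_gauss T.g3 (c2' hW.2.1 hG) _).1 hG'⟩
    · exact h0.elim

theorem Tower.dvr (T : Tower P) {V : ValuationSubring L} (hV : V ∈ T.VV) :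
    IsDiscreteValuationRing V := by
  have := charZero_of T.F1
  have := charZero_of T.F2
  rcases hV with (hV | ⟨W, hG⟩) | ⟨W, W', hG, hG'⟩
  · exact T.g3.isFF.dvr ⟨V, hV⟩
  · have := T.g2.isFF.dvr W
    exact (hG.dvr T.g3).1
  · have := T.g1.isFF.dvr W
    have := (hG.dvr T.g2).1
    exact (hG'.dvr T.g3).1

private theorem Hart_aux_chart (T : Tower P) {V : ValuationSubring L} (hV : V ∈ T.VV) :
    ∃ a : F3, ∀ g ∈ chartA fun i => P i + tors L (a i), g ∈ V := by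
  obtain ⟨a, ha⟩ := exists_chart (P := P) fun i => intg_val V (T.const_mem hV) (P i)
  exact ⟨a, fun g hg => ha hg⟩

theorem Tower.fin (T : Tower P) (f : L) : {V | V ∈ T.VV ∧ f ∉ V}.Finite := by
  refine (Set.finite_iUnion fun a : F3 => (T.krull a).fin' f).subset ?_
  rintro V ⟨hV, hf⟩
  obtain ⟨a, ha⟩ := Hart_aux_chart T hV
  exact Set.mem_iUnion.2 ⟨a, ⟨hV, ha⟩, hf⟩

theorem Tower.mem_bl (T : Tower P) (h : Cfg P σ) {V : ValuationSubring L} (hV : V ∈ T.VV) :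
    vpt V (T.const_mem hV) ∈ blP P σ ∧ ∀ p, ¬ Over (vpt V (T.const_mem hV)) P p := by
  obtain ⟨a, ha⟩ := Hart_aux_chart T hV
  have hc : vpt V (T.const_mem hV) ∈ cubeP P := by
    rw [← cube_add_tors P a]
    exact spec_chartA_sub _ ⟨fun g hg => ha g hg, (T.krull a).loc V ⟨hV, ha⟩⟩
  have hn : ∀ p, ¬ Over (vpt V (T.const_mem hV)) P p := fun p hp => by
    obtain ⟨h1, h2⟩ := ur_not_mem h.gen hc hp
    rcases V.mem_or_inv_mem (ur P p 0 1) with h3 | h3
    · exact h1 h3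
    · rw [ur, inv_div] at h3
      exact h2 h3
  exact ⟨h.bl_iff.2 (Or.inl ⟨hc, hn⟩), hn⟩

private theorem Hart_aux_coord (hP : Gen3 P) {O : Pt L} {p : F3} (hI : ∀ i, Intg O (P i))
    (hp : Over O P p) (j : Fin 3) :
    (∃ u, IsU O u ∧ xc (P j + tors L ((1 - p) j)) = u * sc (sh P p j)) ∧
      yc (P j + tors L ((1 - p) j)) ∈ O.1 := by
  have hy0 : yc (sh P p j) ≠ 0 := (hP.shift p).yc_ne j
  have hy1 : yc (sh P p j) + 1 ≠ 0 := fun h0 => hp j (by
    rw [eq_neg_of_add_eq_zero_left h0]; exact neg_mem (one_mem _))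
  have e : P j + tors L ((1 - p) j) = sh P p j + tT L := by
    rw [Pi.sub_apply, Pi.one_apply, tors_sub, tors_one, sh]; abel
  obtain ⟨h', e'⟩ := pt_add_tT _ _ (eqn_of_ne ((hP.shift p).ne j)) hy1
  rw [pt_xc_yc ((hP.shift p).ne j)] at e'
  have ht := (hp.sc_mem hI j).2
  have hu : IsU O (1 + tc (sh P p j)) := (isU_one O).add_mx ht
  have h2 : IsU O (-2) := by
    have := (isU_const O (c := -2) (by norm_num))
    rwa [map_neg, map_ofNat] at this
  have hu0 := hu.1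
  rw [e, e', xc_pt, yc_pt]
  refine ⟨⟨_, h2.div hu, ?_⟩, ?_⟩
  · rw [sc, tc]; field_simp
  · have : (yc (sh P p j) - 3) / (yc (sh P p j) + 1) =
        (1 - 3 * tc (sh P p j)) * (1 + tc (sh P p j))⁻¹ := by
      rw [tc]; field_simp
    rw [this]
    refine mul_mem (sub_mem (one_mem _) (mul_mem ?_ (mx_sub ht))) hu.2.2
    exact ofNat_mem _ 3

/-- For `O` over `p` use the chart `a = 1 - p`, whose coordinate `x' i = -2 s i / (1 + t i)` is a
unit multiple of `s i` in `Op`, and `Krull.hartogs'` with `t = x' i`, `S = {x' j / x' i}`. -/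
theorem Tower.exists_Wfam (T : Tower P) (h : Cfg P σ) :
    ∃ (W : F3 → ValuationSubring L) (hW : ∀ p (c : ℂ), algebraMap ℂ L c ∈ W p),
      (∀ p, IsDiscreteValuationRing (W p) ∧ vpt (W p) (hW p) ∈ blP P σ ∧
        Over (vpt (W p) (hW p)) P p) ∧
      ∀ O ∈ blP P σ, (∀ p, Over O P p → ∀ g ∈ O.1, g ∈ W p) ∧
        ∀ f, (∀ V ∈ T.VV, (∀ g ∈ O.1, g ∈ V) → f ∈ V) → (∀ p, Over O P p → f ∈ W p) → f ∈ O.1 := by
  choose Op hOp hov using h.gen.exists_over
  choose W hW hdvr hdom hord hspec hpow hle _ using fun p => exists_W h.gen (hOp p) (hov p)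
  have key : ∀ O ∈ blP P σ, ∀ p, Over O P p → Dom (Op p) O ∧ ∃ i, O ∈ spec (Bl (Op p) P p i) := by
    intro O hO p hp
    obtain ⟨Op', h1, h2, h3, ⟨i, hi⟩, h4⟩ := h.bl_over hO hp
    rw [← over_unique h1 (hOp p) h2 (hov p)]
    exact ⟨h3, i, h4 i hi⟩
  have hOW : ∀ O ∈ blP P σ, ∀ p, Over O P p → ∀ g ∈ O.1, g ∈ W p := fun O hO p hp => by
    obtain ⟨hd, i, hi⟩ := key O hO p hp
    exact hle p i O hi hd.2
  refine ⟨W, hW, fun p => ⟨hdvr p, h.bl_iff.2 (Or.inr ⟨p, Op p, hOp p, hov p, (hdom p).2, 0,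
    hspec p 0⟩), (over_dom (cube_intg (hOp p)) (hdom p) p).1 (hov p)⟩,
    fun O hO => ⟨hOW O hO, fun f hf hf' => ?_⟩⟩
  by_cases hex : ∃ p, Over O P p
  swap
  · have hc : O ∈ cubeP P := by
      rcases h.bl_iff.1 hO with h1 | ⟨p, O', h1, h2, h3, i, h4⟩
      · exact h1.1
      · exact absurd ⟨p, (over_dom (cube_intg h1) ⟨fun g hg => h4.1
          (Algebra.subset_adjoin (Or.inl hg)), h3⟩ p).1 h2⟩ hex
    obtain ⟨a, ha⟩ := exists_chart (cube_intg hc)
    rw [← cube_add_tors P a] at hc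
    exact (T.krull a).hartogs (mem_spec_chartA hc fun i => ha (Hart_aux_y _ i))
      fun V hV => hf V hV.1
  obtain ⟨p, hp⟩ := hex
  obtain ⟨hd, i, hi⟩ := key O hO p hp
  have hco := Hart_aux_coord h.gen (cube_intg (hOp p)) (hov p)
  choose u hu hx using fun j => (hco j).1
  have hs0 : ∀ j, sc (sh P p j) ≠ 0 := fun j =>
    div_ne_zero ((h.gen.shift p).xc_ne j) ((h.gen.shift p).yc_ne j)
  have hc : Op p ∈ spec (chartA fun j => P j + tors L ((1 - p) j)) :=
    mem_spec_chartA (by rw [cube_add_tors]; exact hOp p) fun j => (hco j).2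
  have ht0 : xc (P i + tors L ((1 - p) i)) ≠ 0 := (h.gen.add_tors (1 - p)).xc_ne i
  have hO' : O ∈ spec (Algebra.adjoin ℂ (((chartA fun j => P j + tors L ((1 - p) j)) : Set L) ∪
      Set.range fun j => xc (P j + tors L ((1 - p) j)) / xc (P i + tors L ((1 - p) i)))) := by
    have hr : ∀ j, xc (P j + tors L ((1 - p) j)) / xc (P i + tors L ((1 - p) i)) =
        ur P p i j * (u j / u i) := fun j => by
      rw [hx, hx, ur, mul_div_mul_comm, mul_comm]
    refine spec_of_gens hi (Algebra.adjoin_le ?_) ?_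
    · rintro g (hg | ⟨j, rfl⟩)
      · exact hd.1 (hc.1 hg)
      · show _ / _ ∈ O.1
        rw [hr]
        exact mul_mem (hi.1 (Algebra.subset_adjoin (Or.inr ⟨j, rfl⟩)))
          (hd.1 ((hu j).div (hu i)).2.1)
    · rintro g (hg | ⟨j, rfl⟩)
      · obtain ⟨a, ha, b, hb, hb', rfl⟩ := hc.2 g hg
        exact ⟨a, Algebra.subset_adjoin (Or.inl ha), b, Algebra.subset_adjoin (Or.inl hb),
          hd.1 hb', rfl⟩
      · obtain ⟨a, ha, b, hb, hb', e⟩ := hc.2 _ ((hu i).div (hu j)).2.1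
        refine ⟨_, mul_mem (Algebra.subset_adjoin (Or.inr ⟨j, rfl⟩))
          (Algebra.subset_adjoin (Or.inl ha)), b, Algebra.subset_adjoin (Or.inl hb),
          hd.1 hb', ?_⟩
        have h1 := (hu i).1
        have h2 := (hu j).1
        rw [mul_div_assoc, ← e]
        beta_reduce
        rw [hr]
        field_simp
  obtain ⟨b, N, hb, hr⟩ := (T.krull (1 - p)).hartogs' (Hart_aux_x _ i) ht0 (by
    rintro g ⟨j, rfl⟩
    rw [mul_div_cancel₀ _ ht0]
    exact Hart_aux_x (fun j => P j + tors L ((1 - p) j)) j) hO' (f := f) fun V hV => hf V hV.1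
  by_cases hf0 : f = 0
  · rw [hf0]; exact zero_mem _
  have hr' : sc (sh P p i) ^ N * (b * f) ∈ (Op p).1 := by
    have := mul_mem ((hu i).inv.pow N).2.1 (hc.1 hr)
    convert this using 1
    have h1 := (hu i).1
    show _ = _ * (xc (P i + tors L ((1 - p) i)) ^ N * b * f)
    rw [hx, mul_pow, inv_pow]
    field_simp
  have := hdvr p
  have hm := hpow p N ⟨_, hr'⟩ (by
    show (N : ℤ) ≤ ord (W p) (sc (sh P p i) ^ N * (b * f))
    have : 0 ≤ ord (W p) (b * f) :=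
      (ord_nonneg_iff _ _).2 (mul_mem (hOW O hO p hp b hb.2.1) (hf' p hp))
    rw [ord_mul _ (pow_ne_zero _ (hs0 i)) (mul_ne_zero hb.1 hf0), ord_pow, hord]
    omega)
  have hbf : b * f ∈ O.1 := hi.1 ((mem_Bl_iff h.gen (hOp p) (hov p) i _).2 ⟨N, _, hm, by
    rw [mul_div_cancel_left₀ _ (pow_ne_zero _ (hs0 i))]⟩)
  have := mul_mem hb.2.2 hbf
  rwa [inv_mul_cancel_left₀ hb.1] at this

end Pool.Agent.MP_95da86_ag
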