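import Pool.Agent.MP_95da86_ag.Ord
import Pool.Agent.MP_95da86_ag.Red

/-! Heights of points over function fields: the exact parallelogram law. -/

namespace Pool.Agent.MP_95da86_ag

variable {M : Type} [Field M] [Algebra ℂ M]

section Aux

variable {k Γ : Type} [Field k] [LinearOrderedCommGroupWithZero Γ] (v : Valuation k Γ)

theorem HeightA_aux_gauss (a b : k) :
    max (max 1 (v (a + b))) (v (a * b)) = max 1 (v a) * max 1 (v b) := by
  rw [map_mul]
  rcases le_or_gt (v a) 1 with ha | ha <;> rcases le_or_gt (v b) 1 with hb | hb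
  · rw [max_eq_left ha, max_eq_left hb, one_mul, max_eq_left (v.map_add_le ha hb),
      max_eq_left (mul_le_one' ha hb)]
  · rw [max_eq_left ha, max_eq_right hb.le, one_mul, v.map_add_eq_of_lt_right (ha.trans_lt hb),
      max_eq_right hb.le, max_eq_left (mul_le_of_le_one_left' ha)]
  · rw [max_eq_left hb, max_eq_right ha.le, mul_one, v.map_add_eq_of_lt_left (hb.trans_lt ha),
      max_eq_right ha.le, max_eq_left (mul_le_of_le_one_right' hb)]
  · rw [max_eq_right ha.le, max_eq_right hb.le]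
    refine max_eq_right (max_le (one_le_mul ha.le hb.le) (v.map_add_le ?_ ?_))
    · exact le_mul_of_one_le_right' hb.le
    · exact le_mul_of_one_le_left' ha.le

theorem HeightA_aux_nat (n : ℕ) : v (n : k) ≤ 1 := by
  induction n with
  | zero => simp
  | succ n ih => rw [Nat.cast_succ]; exact v.map_add_le ih v.map_one.le

theorem HeightA_aux_quad (h144 : v 144 = 1) (s p : k) :
    max (max (v (s ^ 2 - 4 * p)) (v (2 * p * s + 4))) (v (p ^ 2 - 4 * s)) =
      max (max 1 (v s)) (v p) ^ 2 := by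
  have n2 : v 2 ≤ 1 := by simpa using HeightA_aux_nat v 2
  have n4 : v 4 ≤ 1 := by simpa using HeightA_aux_nat v 4
  have n16 : v 16 ≤ 1 := by simpa using HeightA_aux_nat v 16
  have n40 : v 40 ≤ 1 := by simpa using HeightA_aux_nat v 40
  set m := max (max 1 (v s)) (v p) with hm
  have h1 : 1 ≤ m := (le_max_left _ _).trans (le_max_left _ _)
  have hs : v s ≤ m := (le_max_right _ _).trans (le_max_left _ _)
  have hp : v p ≤ m := le_max_right _ _
  have hmm : m ≤ m ^ 2 := by rw [sq]; exact le_mul_of_one_le_right' h1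
  have h4p : v (4 * p) ≤ m := by rw [map_mul]; exact (mul_le_of_le_one_left' n4).trans hp
  have h4s : v (4 * s) ≤ m := by rw [map_mul]; exact (mul_le_of_le_one_left' n4).trans hs
  apply le_antisymm
  · refine max_le (max_le (v.map_sub_le ?_ (h4p.trans hmm)) (v.map_add_le ?_ ?_))
      (v.map_sub_le ?_ (h4s.trans hmm))
    · rw [map_pow]; exact pow_le_pow_left' hs 2
    · rw [map_mul, map_mul, sq]
      exact mul_le_mul' ((mul_le_of_le_one_left' n2).trans hp) hs
    · exact n4.trans (h1.trans hmm)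
    · rw [map_pow]; exact pow_le_pow_left' hp 2
  · rcases h1.eq_or_lt with h | h
    · rw [← h] at hs hp ⊢
      rw [one_pow]
      by_contra hc
      simp only [not_le, max_lt_iff] at hc
      obtain ⟨⟨hA, hB⟩, hC⟩ := hc
      have e : (144 : k) = (4 * (p ^ 2 - 4 * s) + 16 * s) * (s ^ 2 - 4 * p) +
          (16 * p) * (p ^ 2 - 4 * s) + (40 - (2 * p * s + 4)) * (2 * p * s + 4) := by ring
      have : v (144 : k) < 1 := by
        rw [e]
        refine v.map_add_lt (v.map_add_lt ?_ ?_) ?_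
        · rw [map_mul]
          refine (mul_le_of_le_one_left' (v.map_add_le ?_ ?_)).trans_lt hA
          · rw [map_mul]; exact mul_le_one' n4 hC.le
          · rw [map_mul]; exact mul_le_one' n16 hs
        · rw [map_mul, map_mul]
          exact (mul_le_of_le_one_left' (mul_le_one' n16 hp)).trans_lt hC
        · rw [map_mul]
          exact (mul_le_of_le_one_left' (v.map_sub_le n40 hB.le)).trans_lt hB
      exact this.ne h144
    · have hlt : m < m ^ 2 := by
        rw [sq]; exact lt_mul_of_one_lt_right (zero_lt_one.trans h) h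
      have : m = v s ∨ m = v p := by
        rcases max_choice (max 1 (v s)) (v p) with h2 | h2
        · rcases max_choice 1 (v s) with h3 | h3
          · exact absurd (hm.trans (h2.trans h3)) h.ne'
          · exact Or.inl (hm.trans (h2.trans h3))
        · exact Or.inr (hm.trans h2)
      rcases this with h2 | h2
      · refine le_trans (le_of_eq ?_) ((le_max_left _ _).trans (le_max_left _ _))
        rw [v.map_sub_eq_of_lt_left (by rw [map_pow, ← h2]; exact h4p.trans_lt hlt), map_pow, ← h2]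
      · refine le_trans (le_of_eq ?_) (le_max_right _ _)
        rw [v.map_sub_eq_of_lt_left (by rw [map_pow, ← h2]; exact h4s.trans_lt hlt), map_pow, ← h2]

theorem HeightA_aux_dbl (h9 : v 9 = 1) (x : k) :
    max (v (x ^ 3 + 1)) (v (x ^ 4 - 8 * x)) = max 1 (v x) ^ 4 := by
  have n8 : v 8 ≤ 1 := by simpa using HeightA_aux_nat v 8
  rcases le_or_gt (v x) 1 with h | h
  · have hp : ∀ n : ℕ, v (x ^ n) ≤ 1 := fun n => by rw [map_pow]; exact pow_le_one' h n
    rw [max_eq_left h, one_pow]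
    apply le_antisymm
    · refine max_le (v.map_add_le (hp 3) v.map_one.le) (v.map_sub_le (hp 4) ?_)
      rw [map_mul]; exact mul_le_one' n8 h
    · by_contra hc
      simp only [not_le, max_lt_iff] at hc
      have e : (9 : k) = (9 - x ^ 3) * (x ^ 3 + 1) + x ^ 2 * (x ^ 4 - 8 * x) := by ring
      have : v (9 : k) < 1 := by
        rw [e]
        refine v.map_add_lt ?_ ?_
        · rw [map_mul]
          exact (mul_le_of_le_one_left' (v.map_sub_le h9.le (hp 3))).trans_lt hc.1
        · rw [map_mul]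
          exact (mul_le_of_le_one_left' (hp 2)).trans_lt hc.2
      exact this.ne h9
  · have h1 : v (8 * x) < v (x ^ 4) := by
      rw [map_mul, map_pow]
      refine (mul_le_of_le_one_left' n8).trans_lt ?_
      simpa using pow_lt_pow_right₀ h (show 1 < 4 by norm_num)
    rw [max_eq_right h.le, v.map_sub_eq_of_lt_left h1, map_pow]
    refine max_eq_right (v.map_add_le ?_ ?_)
    · rw [map_pow]; exact pow_le_pow_right₀ h.le (by norm_num)
    · rw [v.map_one]; exact one_le_pow₀ h.le

theorem HeightA_aux_eqn {x y : k} (h : y ^ 2 = x ^ 3 + 1) :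
    max 1 (v y) ^ 2 = max 1 (v x) ^ 3 := by
  rcases le_or_gt (v x) 1 with hx | hx
  · have : v y ^ 2 ≤ 1 := by
      rw [← map_pow, h]
      exact v.map_add_le (by rw [map_pow]; exact pow_le_one' hx 3) v.map_one.le
    rw [max_eq_left hx, max_eq_left ((pow_le_one_iff (by norm_num)).1 this), one_pow, one_pow]
  · have h1 : v y ^ 2 = v x ^ 3 := by
      rw [← map_pow, h, v.map_add_eq_of_lt_left, map_pow]
      rw [v.map_one, map_pow]
      exact one_lt_pow₀ hx (by norm_num)
    have h2 : 1 ≤ v y := by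
      by_contra hc
      have := pow_le_one' (not_le.1 hc).le 2
      rw [h1] at this
      exact absurd this (not_le.2 (one_lt_pow₀ hx (by norm_num)))
    rw [max_eq_right hx.le, max_eq_right h2, h1]

end Aux

section Bridge

variable {k : Type} [Field k] (V : ValuationSubring k) [IsDiscreteValuationRing V]

theorem HeightA_aux_ord {f g : k} (hf : f ≠ 0) (hg : g ≠ 0)
    (h : V.valuation f = V.valuation g) : ord V f = ord V g := by
  have h0 : V.valuation g ≠ 0 := by simpa using hg
  have : ord V (f / g) = 0 := by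
    rw [ord_eq_zero_iff, ← V.valuation_le_one_iff, ← V.valuation_le_one_iff, map_inv₀, map_div₀, h,
      div_self h0]
    simp
  rw [ord_div V hf hg] at this
  omega

theorem HeightA_aux_pole (f : k) :
    ∃ z : k, z ≠ 0 ∧ V.valuation z = max 1 (V.valuation f) ∧ ord V z = -max 0 (-ord V f) := by
  by_cases h : f ∈ V
  · refine ⟨1, one_ne_zero, ?_, ?_⟩
    · rw [max_eq_left ((V.valuation_le_one_iff f).2 h), map_one]
    · have := (ord_nonneg_iff V f).2 h
      rw [ord_one]
      omega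
  · refine ⟨f, fun h0 => h (h0 ▸ V.zero_mem), ?_, ?_⟩
    · rw [max_eq_right (not_le.1 fun h' => h ((V.valuation_le_one_iff f).1 h')).le]
    · have := (ord_nonneg_iff V f).not.2 h
      omega

end Bridge

theorem HeightA_aux_unit (V : ValuationSubring M) (hV : ∀ c : ℂ, algebraMap ℂ M c ∈ V) (n : ℕ)
    (hn : n ≠ 0) : V.valuation (n : M) = 1 := by
  have := charZero_of M
  have h1 := (V.valuation_le_one_iff _).2 (hV (n : ℂ)⁻¹)
  rw [map_inv₀, map_natCast, map_inv₀] at h1
  have h0 : 0 < V.valuation (n : M) := by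
    rw [zero_lt_iff]
    simpa using hn
  exact le_antisymm (HeightA_aux_nat _ n) ((inv_le_one₀ h0).1 h1)

theorem lam_nonneg (V : ValuationSubring M) (Q : EP M) : 0 ≤ lam V Q := le_max_left _ _
theorem lam_pos_iff (V : ValuationSubring M) [IsDiscreteValuationRing V] (Q : EP M) :
    0 < lam V Q ↔ yc Q ∉ V := by
  rw [← ord_nonneg_iff, lam]
  omega
theorem lam_eq_ord_zq (V : ValuationSubring M) [IsDiscreteValuationRing V] (hV) (Q : EP M) :
    lam V Q = ord V (zq (yc Q) (vpt V hV) : M) := by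
  rw [lam, zq]
  split_ifs with h
  · have := (ord_nonneg_iff V _).2 (mem_vpt.1 h)
    rw [Units.val_one, ord_one]
    omega
  · have := (ord_nonneg_iff V _).not.2 (mem_vpt.not.1 h)
    rw [Units.val_inv_eq_inv_val, Units.val_mk0, ord_inv]
    omega
/-- From `y ^ 2 = x ^ 3 + 1`. -/
theorem two_lam (V : ValuationSubring M) [IsDiscreteValuationRing V] (Q : EP M) :
    2 * lam V Q = 3 * max 0 (-ord V (xc Q)) := by
  by_cases hQ : Q = 0
  · subst hQ
    simp [lam, ord_zero]
  obtain ⟨z, z0, z1, z2⟩ := HeightA_aux_pole V (xc Q)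
  obtain ⟨w, w0, w1, w2⟩ := HeightA_aux_pole V (yc Q)
  have := HeightA_aux_ord V (pow_ne_zero 2 w0) (pow_ne_zero 3 z0) (by
    rw [map_pow, map_pow, z1, w1]
    exact HeightA_aux_eqn _ (eqn_of_ne hQ))
  rw [ord_pow, ord_pow, z2, w2] at this
  rw [lam]
  push_cast at this
  omega
/-- The local parallelogram law. With `x₃, x₄` the abscissae of `P ± Q`:
`(1 : x₃ + x₄ : x₃ x₄) = ((x₁ - x₂) ^ 2 : 2 x₁ x₂ (x₁ + x₂) + 4 : x₁ ^ 2 x₂ ^ 2 - 4 (x₁ + x₂))`;
the three quadratic forms in `(1 : x₁ + x₂ : x₁ x₂)` have no common zero, and `2, 3` are units. -/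
theorem lam_par (V : ValuationSubring M) [IsDiscreteValuationRing V]
    (hV : ∀ c : ℂ, algebraMap ℂ M c ∈ V) {P Q : EP M} (hP : P ≠ 0) (hQ : Q ≠ 0)
    (hx : xc P ≠ xc Q) :
    lam V (P + Q) + lam V (P - Q) = 2 * lam V P + 2 * lam V Q + 3 * ord V (xc P - xc Q) := by
  have t1 := two_lam V P
  have t2 := two_lam V Q
  have t3 := two_lam V (P + Q)
  have t4 := two_lam V (P - Q)
  obtain rfl | ⟨a, b, h, rfl⟩ := P.cases
  · exact absurd rfl hP
  obtain rfl | ⟨c, d, h', rfl⟩ := Q.cases
  · exact absurd rfl hQ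
  simp only [xc_pt] at hx t1 t2 ⊢
  have hd : a - c ≠ 0 := sub_ne_zero.2 hx
  obtain ⟨l, l1, l2⟩ := exists_slope h h' fun hh => hx hh.1
  obtain ⟨_, e3⟩ := pt_add h h' (fun hh => hx hh.1) l l1 l2
  have h'' : (-d) ^ 2 = c ^ 3 + 1 := by rw [neg_sq]; exact h'
  obtain ⟨m, m1, m2⟩ := exists_slope h h'' fun hh => hx hh.1
  obtain ⟨_, e4⟩ := pt_add h h'' (fun hh => hx hh.1) m m1 m2
  have x3 : xc (pt a b h + pt c d h') = l ^ 2 - a - c := by rw [e3, xc_pt]
  have x4 : xc (pt a b h - pt c d h') = m ^ 2 - a - c := by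
    rw [sub_eq_add_neg, neg_pt, e4, xc_pt]
  rw [x3] at t3
  rw [x4] at t4
  have hlm : l * m * (a - c) = a ^ 2 + a * c + c ^ 2 := by linear_combination l * m1 + l2
  have hsq : (l ^ 2 + m ^ 2) * (a - c) ^ 2 = 2 * (a ^ 3 + c ^ 3 + 2) := by
    linear_combination (l * (a - c) + b - d) * l1 + (m * (a - c) + b + d) * m1 + 2 * h + 2 * h'
  have eB : (l ^ 2 - a - c + (m ^ 2 - a - c)) * (a - c) ^ 2 = 2 * (a * c) * (a + c) + 4 := by
    linear_combination hsq
  have eC : (l ^ 2 - a - c) * (m ^ 2 - a - c) * (a - c) ^ 2 = (a * c) ^ 2 - 4 * (a + c) := by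
    linear_combination (l * m * (a - c) + a ^ 2 + a * c + c ^ 2) * hlm - (a + c) * hsq
  have eA : (a - c) ^ 2 = (a + c) ^ 2 - 4 * (a * c) := by ring
  have key := HeightA_aux_quad V.valuation
    (by simpa using HeightA_aux_unit V hV 144 (by norm_num)) (a + c) (a * c)
  rw [← eA, ← eB, ← eC, HeightA_aux_gauss, map_mul _ _ ((a - c) ^ 2), map_mul _ _ ((a - c) ^ 2)]
    at key
  nth_rw 1 [← one_mul (V.valuation ((a - c) ^ 2))] at key
  rw [← max_mul, ← max_mul, HeightA_aux_gauss] at key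
  obtain ⟨z1, p1, q1, r1⟩ := HeightA_aux_pole V a
  obtain ⟨z2, p2, q2, r2⟩ := HeightA_aux_pole V c
  obtain ⟨z3, p3, q3, r3⟩ := HeightA_aux_pole V (l ^ 2 - a - c)
  obtain ⟨z4, p4, q4, r4⟩ := HeightA_aux_pole V (m ^ 2 - a - c)
  rw [← q1, ← q2, ← q3, ← q4, ← map_mul, ← map_mul, ← map_mul, ← map_pow] at key
  have := HeightA_aux_ord V (mul_ne_zero (mul_ne_zero p3 p4) (pow_ne_zero 2 hd))
    (pow_ne_zero 2 (mul_ne_zero p1 p2)) key
  rw [ord_mul V (mul_ne_zero p3 p4) (pow_ne_zero 2 hd), ord_mul V p3 p4, ord_pow, ord_pow,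
    ord_mul V p1 p2, r1, r2, r3, r4] at this
  push_cast at this
  omega
/-- The local duplication law. -/
theorem lam_dbl (V : ValuationSubring M) [IsDiscreteValuationRing V]
    (hV : ∀ c : ℂ, algebraMap ℂ M c ∈ V) {P : EP M} (hy : yc P ≠ 0) :
    lam V (P + P) = 4 * lam V P + 3 * ord V (yc P) := by
  have t1 := two_lam V P
  have t3 := two_lam V (P + P)
  have := charZero_of M
  obtain rfl | ⟨a, b, h, rfl⟩ := P.cases
  · exact absurd rfl hy
  simp only [xc_pt, yc_pt] at hy t1 ⊢
  have hne : ¬ (a = a ∧ b = -b) := fun hh => hy (by linear_combination (1 / 2 : M) * hh.2)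
  obtain ⟨l, l1, l2⟩ := exists_slope h h hne
  obtain ⟨_, e3⟩ := pt_add h h hne l l1 l2
  have x3 : xc (pt a b h + pt a b h) = l ^ 2 - a - a := by rw [e3, xc_pt]
  rw [x3] at t3
  have eB : 4 * ((l ^ 2 - a - a) * b ^ 2) = a ^ 4 - 8 * a := by
    linear_combination (2 * l * b + 3 * a ^ 2) * l2 - 8 * a * h
  have key := HeightA_aux_dbl V.valuation
    (by simpa using HeightA_aux_unit V hV 9 (by norm_num)) a
  have h4 : V.valuation 4 = 1 := by simpa using HeightA_aux_unit V hV 4 (by norm_num)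
  rw [← h, ← eB, map_mul, h4, one_mul, map_mul] at key
  nth_rw 1 [← one_mul (V.valuation (b ^ 2))] at key
  rw [← max_mul] at key
  obtain ⟨z1, p1, q1, r1⟩ := HeightA_aux_pole V a
  obtain ⟨z3, p3, q3, r3⟩ := HeightA_aux_pole V (l ^ 2 - a - a)
  rw [← q1, ← q3, ← map_mul, ← map_pow] at key
  have := HeightA_aux_ord V (mul_ne_zero p3 (pow_ne_zero 2 hy)) (pow_ne_zero 4 p1) key
  rw [ord_mul V p3 (pow_ne_zero 2 hy), ord_pow, ord_pow, r1, r3] at this
  push_cast at this
  omega

end Pool.Agent.MP_95da86_ag
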