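import Pool.Agent.MP_95da86_ag.Base

/-! Internal definitions. -/

namespace Pool.Agent.MP_95da86_ag

open Polynomial

noncomputable section

/-- Rows `ℓ ∈ ℤ[ω] ^ 3`. -/
abbrev Lam := Fin 3 → Zw
/-- The 27 fixed points. -/
abbrev F3 := Fin 3 → ZMod 3
/-- The group `GL₃(ℤ[ω])`. -/
abbrev GLw := GL (Fin 3) Zw

/-- The row `ℓ g`. -/
def vm (l : Lam) (g : GLw) : Lam := Matrix.vecMul l g.val

/-- Function fields in one variable. -/
def IsFF (k M : Type) [Field k] [Field M] [Algebra k M] : Prop :=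
  ∃ t : M, Transcendental k t ∧ FiniteDimensional (IntermediateField.adjoin k {t}) M

/-- Places. -/
def Pl (k M : Type) [Field k] [Field M] [Algebra k M] : Type :=
  {V : ValuationSubring M // V ≠ ⊤ ∧ ∀ c : k, algebraMap k M c ∈ V}

section Points

variable {M : Type} [Field M] [Algebra ℂ M]

/-- Local height: the pole order of `y`. -/
def lam (V : ValuationSubring M) (Q : EP M) : ℤ := max 0 (-ord V (yc Q))

/-- Height: the degree of `y` (three times the usual height). -/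
def ht (k : Type) [Field k] [Algebra k M] (Q : EP M) : ℤ := ∑ᶠ V : Pl k M, lam V.1 Q

/-- The coordinate `x / y` at the origin. -/
def sc (Q : EP M) : M := xc Q / yc Q
/-- The coordinate `1 / y` at the origin. -/
def tc (Q : EP M) : M := (yc Q)⁻¹

/-- `Q` extends to an `O`-point. -/
def Intg (O : Pt M) (Q : EP M) : Prop :=
  (xc Q ∈ O.1 ∧ yc Q ∈ O.1) ∨ (sc Q ∈ O.1 ∧ tc Q ∈ O.1)

open Classical in
/-- The reduction of `Q`. -/
def red (O : Pt M) (Q : EP M) : EP (RF O) :=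
  if h : Q ≠ 0 ∧ xc Q ∈ O.1 ∧ yc Q ∈ O.1 then
    pt (res O (xc Q)) (res O (yc Q)) (by
      rw [← res_pow h.2.2, eqn_of_ne h.1, res_add (pow_mem h.2.1 3) (one_mem _), res_pow h.2.1,
        res_one])
  else 0

/-- `Q` reduces to the origin. -/
def Zr (O : Pt M) (Q : EP M) : Prop := Q = 0 ∨ yc Q ∉ O.1

/-- `M` is the function field of the curve over `F`, with generic point `P`. -/
structure Gen (F : Type) [Field F] [Algebra F M] (P : EP M) : Prop where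
  ne : P ≠ 0
  tr : Transcendental F (xc P)
  gen : IntermediateField.adjoin F {xc P, yc P} = ⊤

/-- The affine coordinate ring. -/
abbrev crd (F : Type) [Field F] [Algebra F M] (P : EP M) : Subalgebra F M :=
  Algebra.adjoin F {xc P, yc P}

/-- The logarithmic derivative. -/
def dl {k : Type} [Field k] [Algebra k M] (D : Derivation k M M) (Q : EP M) : M :=
  D (xc Q) / yc Q

open Classical in
/-- Local equation of the polar divisor of `y`. -/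
def zq (y : M) (O : Pt M) : Mˣ :=
  if h : y ∈ O.1 then 1 else (Units.mk0 y fun h0 => h (h0 ▸ zero_mem _))⁻¹

open Classical in
/-- Local equation of an exceptional divisor. -/
def eq3 (t : Fin 3 → M) (u : Fin 3 → Fin 3 → M) (O : Pt M) : Mˣ :=
  if h : ∃ i, t i ≠ 0 ∧ (∀ j, t j ∈ mx O) ∧ ∀ j, u i j ∈ O.1 then
    Units.mk0 (t h.choose) h.choose_spec.1 else 1

/-- The generic point. -/
def topPt (M : Type) [Field M] [Algebra ℂ M] : Pt M := vpt ⊤ fun _ => ValuationSubring.mem_top _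

/-- Local equations that are units everywhere. -/
def Triv (Y : Set (Pt M)) (f : Pt M → Mˣ) : Prop := ∀ O ∈ Y, IsU O (f O)

/-- Separatedness. -/
def Sep (Y : Set (Pt M)) : Prop := ∀ O ∈ Y, ∀ O' ∈ Y, ∀ W, Dom O W → Dom O' W → O = O'

/-- Existence of centres. -/
def Proper (Y : Set (Pt M)) : Prop := ∀ ξ ∈ Y, ∀ V : Pl ℂ (RF ξ), ∃ O, (O, V.1) ∈ branch Y ξ

open Classical in
/-- The centre of a place of a curve. -/
def cen (Y : Set (Pt M)) (ξ : Pt M) (V : Pl ℂ (RF ξ)) : Pt M :=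
  if h : ∃ O, (O, V.1) ∈ branch Y ξ then h.choose else ξ

/-- The local intersection number. -/
def term (Y : Set (Pt M)) (f : Pt M → Mˣ) (ξ : Pt M) (V : Pl ℂ (RF ξ)) : ℤ :=
  ord V.1 (res ξ ((f (cen Y ξ V) / f ξ : Mˣ) : M))

/-- Finiteness of the local intersection numbers. -/
def FinT (Y : Set (Pt M)) (f : Pt M → Mˣ) (ξ : Pt M) : Prop :=
  (Function.support (term Y f ξ)).Finite

/-- Transport of local equations. -/
def act {M' : Type} [Field M'] [Algebra ℂ M'] (g : M ≃ₐ[ℂ] M') (f : Pt M → Mˣ) (O : Pt M') : M'ˣ :=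
  Units.map (g : M →* M') (f (mapPt g.symm O))

end Points

/-- `V` is the Gauss extension of `W` with respect to `x`. -/
def IsGauss {F M : Type} [Field F] [Field M] [Algebra F M] (W : ValuationSubring F)
    (V : ValuationSubring M) (x : M) : Prop :=
  (∀ f : F, algebraMap F M f ∈ V ↔ f ∈ W) ∧ x ∈ V ∧
    ∀ p : F[X], (∀ i, p.coeff i ∈ W) → aeval x p ∈ V.nonunits → ∀ i, p.coeff i ∈ W.nonunits

/-- `B` is a Krull domain with the family `𝒲` of discrete valuation rings. -/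
structure Krull {F : Type} [Field F] [Algebra ℂ F] (B : Subalgebra ℂ F)
    (𝒲 : Set (ValuationSubring F)) : Prop where
  frac : ∀ f : F, ∃ a ∈ B, ∃ b ∈ B, b ≠ 0 ∧ f = a / b
  le : ∀ W ∈ 𝒲, ∀ b ∈ B, b ∈ W
  dvr : ∀ W ∈ 𝒲, IsDiscreteValuationRing W
  loc : ∀ W ∈ 𝒲, ∀ f ∈ W, ∃ a ∈ B, ∃ b ∈ B, b⁻¹ ∈ W ∧ f = a / b
  fin : ∀ b ∈ B, b ≠ 0 → {W ∈ 𝒲 | b⁻¹ ∉ W}.Finite
  inter : ∀ f : F, (∀ W ∈ 𝒲, f ∈ W) → f ∈ B

section Cube

variable {L : Type} [Field L] [Algebra ℂ L]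

/-- `L` is the function field of `E ^ 3`, with generic point `P`. -/
structure Gen3 (P : Fin 3 → EP L) : Prop where
  ne : ∀ i, P i ≠ 0
  ind : AlgebraicIndependent ℂ fun i => xc (P i)
  gen : IntermediateField.adjoin ℂ
    (Set.range (fun i => xc (P i)) ∪ Set.range fun i => yc (P i)) = ⊤

/-- The standing hypotheses. -/
structure Cfg (P : Fin 3 → EP L) (σ : L ≃ₐ[ℂ] L) : Prop where
  gen : Gen3 P
  rot : ∀ i, emap (σ : L →ₐ[ℂ] L) (P i) = om • P i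

/-- The affine chart. -/
def chartA (P : Fin 3 → EP L) : Subalgebra ℂ L :=
  Algebra.adjoin ℂ (Set.range (fun i => xc (P i)) ∪ Set.range fun i => yc (P i))

/-- `E ^ 3`. -/
def cubeP (P : Fin 3 → EP L) : Set (Pt L) := cube (fun i => xc (P i)) fun i => yc (P i)
/-- The fixed points. -/
def fixP (P : Fin 3 → EP L) (σ : L ≃ₐ[ℂ] L) : Set (Pt L) :=
  fixedPts (fun i => xc (P i)) (fun i => yc (P i)) σ
/-- The blow-up. -/
def blP (P : Fin 3 → EP L) (σ : L ≃ₐ[ℂ] L) : Set (Pt L) :=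
  blowup (fun i => xc (P i)) (fun i => yc (P i)) σ
/-- The invariant field. -/
abbrev KK (σ : L ≃ₐ[ℂ] L) : IntermediateField ℂ L :=
  IntermediateField.fixedField (Subgroup.zpowers σ)
/-- The Calabi-Yau threefold. -/
def XP (P : Fin 3 → EP L) (σ : L ≃ₐ[ℂ] L) : Set (Pt (KK σ)) :=
  quot (fun i => xc (P i)) (fun i => yc (P i)) σ

/-- The generic point moved so that `p` becomes the origin. -/
def sh (P : Fin 3 → EP L) (p : F3) (i : Fin 3) : EP L := P i - tors L (p i)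

/-- `O` lies over the fixed point `p`. -/
def Over (O : Pt L) (P : Fin 3 → EP L) (p : F3) : Prop := ∀ i, yc (sh P p i) ∉ O.1

/-- The ratio `s j / s i` of local coordinates at `p`. -/
def ur (P : Fin 3 → EP L) (p : F3) (i j : Fin 3) : L := sc (sh P p j) / sc (sh P p i)

/-- The `i`-th chart of the blow-up of the point `Op`. -/
def Bl (Op : Pt L) (P : Fin 3 → EP L) (p : F3) (i : Fin 3) : Subalgebra ℂ L :=
  Algebra.adjoin ℂ ((Op.1 : Set L) ∪ Set.range (ur P p i))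

open Classical in
/-- An invariant function, as an element of the invariant field. -/
def toK (σ : L ≃ₐ[ℂ] L) (f : L) : KK σ := if h : f ∈ KK σ then ⟨f, h⟩ else 0

/-- Pull-back of local equations to the blow-up. -/
def pull (σ : L ≃ₐ[ℂ] L) (f : Pt (KK σ) → (KK σ)ˣ) (O : Pt L) : Lˣ :=
  Units.map ((KK σ).val : KK σ →* L) (f (qpt (KK σ) O))

/-- The divisor with pull-back `3 {ℓ P = τ T}`. -/
def zX (P : Fin 3 → EP L) (σ : L ≃ₐ[ℂ] L) (l : Lam) (τ : ZMod 3) : Pt (KK σ) → (KK σ)ˣ :=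
  zq (toK σ (yc (lin l P - tors L τ)))

/-- The exceptional plane over `p`. -/
def eX (P : Fin 3 → EP L) (σ : L ≃ₐ[ℂ] L) (p : F3) : Pt (KK σ) → (KK σ)ˣ :=
  eq3 (fun i => toK σ (tc (sh P p i))) fun i j => toK σ (ur P p i j)

/-- The quadratic form of a curve. -/
def qX (P : Fin 3 → EP L) (σ : L ≃ₐ[ℂ] L) (η : Curve (XP P σ)) (l : Lam) : ℝ :=
  deg (XP P σ) (zX P σ l 0) η.1

/-- The multiplicities of a curve. -/
def mX (P : Fin 3 → EP L) (σ : L ≃ₐ[ℂ] L) (η : Curve (XP P σ)) (p : F3) : ℝ :=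
  deg (XP P σ) (eX P σ p) η.1

/-- The tower `ℂ ⊂ ℂ(E) ⊂ ℂ(E ^ 2) ⊂ L`. -/
structure Tower (P : Fin 3 → EP L) where
  F1 : Type
  F2 : Type
  [f1 : Field F1]
  [f2 : Field F2]
  [a1 : Algebra ℂ F1]
  [a2 : Algebra ℂ F2]
  [a12 : Algebra F1 F2]
  [a2L : Algebra F2 L]
  [a1L : Algebra F1 L]
  [t12 : IsScalarTower ℂ F1 F2]
  [t2L : IsScalarTower ℂ F2 L]
  [t1L : IsScalarTower ℂ F1 L]
  [t12L : IsScalarTower F1 F2 L]
  P1 : EP F1
  P2 : EP F2
  g1 : Gen ℂ P1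
  g2 : Gen F1 P2
  g3 : Gen F2 (P 2)
  e1 : up F1 L P1 = P 0
  e2 : up F2 L P2 = P 1

attribute [instance] Tower.f1 Tower.f2 Tower.a1 Tower.a2 Tower.a12 Tower.a2L Tower.a1L Tower.t12
  Tower.t2L Tower.t1L Tower.t12L

/-- Prime divisors dominating `E ^ 2`. -/
def Tower.V3 {P : Fin 3 → EP L} (T : Tower P) : Set (ValuationSubring L) :=
  {V | V ≠ ⊤ ∧ ∀ c : T.F2, algebraMap T.F2 L c ∈ V}
/-- Pull-backs of prime divisors of `E ^ 2` dominating `E`. -/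
def Tower.V2 {P : Fin 3 → EP L} (T : Tower P) : Set (ValuationSubring L) :=
  {V | ∃ W : Pl T.F1 T.F2, IsGauss W.1 V (xc (P 2))}
/-- Pull-backs of points of `E`. -/
def Tower.V1 {P : Fin 3 → EP L} (T : Tower P) : Set (ValuationSubring L) :=
  {V | ∃ (W : Pl ℂ T.F1) (W' : ValuationSubring T.F2),
    IsGauss W.1 W' (xc T.P2) ∧ IsGauss W' V (xc (P 2))}
/-- All prime divisors of `E ^ 3`. -/
def Tower.VV {P : Fin 3 → EP L} (T : Tower P) : Set (ValuationSubring L) := T.V3 ∪ T.V2 ∪ T.V1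

end Cube

/-! ### The numerical side -/

/-- `ω`-invariant quadratic forms. -/
structure IsQF (q : Lam → ℝ) : Prop where
  par : ∀ a b, q (a + b) + q (a - b) = 2 * q a + 2 * q b
  rot : ∀ a, q (om • a) = q a

/-- Reduction of a matrix. -/
def gbar (g : GLw) : Matrix (Fin 3) (Fin 3) (ZMod 3) := g.val.map bar

/-- What is known about the numerical data of a curve. -/
structure CurveAx (q : Lam → ℝ) (m : F3 → ℝ) : Prop where
  qf : IsQF q
  nonneg : ∀ l, 0 ≤ q l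
  alt : ((∀ l, q l = 0) ∧ ∀ p, m p ≤ 0) ∨
    ((∀ p, 0 ≤ m p) ∧ ((∀ l, q l = 0) → ∀ p, m p = 0) ∧
      ∀ l : Lam, (∃ i, bar (l i) ≠ 0) → ∃ τ₀, ∀ τ, τ ≠ τ₀ ∨ q l ≠ 0 →
        ∑ p with dotb l p = τ, m p ≤ q l)

/-- The numerical data of the threefold. -/
structure Geo (C : Type) where
  Cart : AddSubgroup (C → ℝ)
  Eff : Set (C → ℝ)
  G : Subgroup (Equiv.Perm C)
  q : C → Lam → ℝ
  m : C → F3 → ℝ
  int : ∀ d ∈ Cart, ∀ c, ∃ n : ℤ, d c = n
  eff_sub : ∀ d ∈ Eff, d ∈ Cart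
  G_cart : ∀ g ∈ G, ∀ d ∈ Cart, d ∘ g ∈ Cart
  G_eff : ∀ g ∈ G, ∀ d ∈ Eff, d ∘ g ∈ Eff
  ax : ∀ c, CurveAx (q c) (m c)
  gen : ∀ d ∈ Cart, ∃ (N : ℕ) (n : Fin 6 → ℤ) (l : Fin 6 → Lam) (a : F3 → ℤ), 0 < N ∧
    ∀ c, N * d c = ∑ j, n j * q c (l j) - ∑ p, a p * m c p
  z_mem : ∀ l, (fun c => q c l) ∈ Cart
  e_mem : ∀ p, (fun c => m c p) ∈ Eff
  s_mem : ∀ (l : Lam) τ, (∃ i, bar (l i) ≠ 0) →
    (fun c => q c l - ∑ p with dotb l p = τ, m c p) ∈ Eff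
  aff : ∀ (g : GLw) (b : F3), ∃ γ ∈ G, ∀ c,
    (∀ l, q (γ c) l = q c (vm l g)) ∧ ∀ p, m (γ c) ((gbar g).mulVec p + b) = m c p
  test1 : ∃ c, ∃ κ : ℝ, 0 < κ ∧ (∀ l, q c l = κ * nm (l 0)) ∧
    ∀ p, m c p = if p 1 = 0 ∧ p 2 = 0 then κ else 0
  test2 : ∀ p₀, ∃ c, ∃ κ : ℝ, 0 < κ ∧ (∀ l, q c l = 0) ∧ ∀ p, m c p = if p = p₀ then -κ else 0
  test3 : ∀ d ∈ Eff, ∃ c, ∃ κ : ℝ, 0 < κ ∧ (∀ l, q c l = κ * nm (l 0)) ∧ (∀ p, m c p = 0) ∧ 0 ≤ d c

/-- Linear functionals on functions of `ℓ`: the Hermitian part of a divisor class. -/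
abbrev Herm := (Lam → ℝ) →ₗ[ℝ] ℝ

/-- The test form of the first column of `g`. -/
def tf (g : GLw) (l : Lam) : ℝ := nm (vm l g 0)

/-- Non-negative combinations of integral positive semidefinite forms. -/
def Adm (H : Herm) : Prop :=
  ∃ (n : ℕ) (r : Fin n → ℝ) (Hi : Fin n → Herm), (∀ i, 0 ≤ r i) ∧
    (∀ q, IsQF q → H q = ∑ i, r i * Hi i q) ∧ ∀ i, (∀ g, 0 ≤ Hi i (tf g)) ∧
      ∀ q, IsQF q → (∀ l, ∃ n : ℤ, q l = n) → ∃ n : ℤ, Hi i q = n

/-- The inequalities given by the test curves. -/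
def PP (H : Herm) (a : F3 → ℝ) : Prop :=
  (∀ p, 0 ≤ a p) ∧ ∀ (g : GLw) (b : F3),
    ∑ τ : ZMod 3, a ((gbar g).mulVec (Pi.single 0 τ) + b) ≤ H (tf g)

/-- The functional `∑ c k • ev (f k)`. -/
def Hc {n : ℕ} (f : Fin n → Lam) (c : Fin n → ℝ) : Herm := ∑ k, c k • LinearMap.proj (f k)

/-- Change of frame. -/
def Herm.fr (H : Herm) (g : GLw) : Herm :=
  H ∘ₗ LinearMap.funLeft ℝ ℝ fun l : Lam => vm l g

/-- Decomposition into abelian surfaces and exceptional planes. -/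
def Decomp (H : Herm) (a : F3 → ℝ) : Prop :=
  ∃ (n : ℕ) (y : Fin n → ℝ) (l : Fin n → Lam) (τ : Fin n → ZMod 3), (∀ j, 0 ≤ y j) ∧
    (∀ j, ∃ g : GLw, g.val 2 = l j) ∧
    (∀ q, IsQF q → H q = ∑ j, y j * q (l j)) ∧ ∀ p, a p ≤ ∑ j with dotb (l j) p = τ j, y j

/-- Algebraic interior relative to a subspace. -/
def Absorb {C : Type} (N : Submodule ℝ (C → ℝ)) (A : Set (C → ℝ)) (x : C → ℝ) : Prop :=
  ∀ v ∈ N, ∃ ε : ℝ, 0 < ε ∧ x + ε • v ∈ A

end

end Pool.Agent.MP_95da86_ag
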