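import Pool.Agent.MP_95da86_ag.Gauss

/-! Krull families. -/

namespace Pool.Agent.MP_95da86_ag

open Polynomial

theorem krull_base : Krull (⊤ : Subalgebra ℂ ℂ) ∅ where
  frac f := ⟨f, Algebra.mem_top, 1, Algebra.mem_top, one_ne_zero, (div_one f).symm⟩
  le _ h := h.elim
  dvr _ h := h.elim
  loc _ h := h.elim
  fin _ _ _ := Set.finite_empty.subset fun _ h => h.1
  inter _ _ := Algebra.mem_top

theorem Krull_aux_fin {F : Type} [Field F] [Algebra ℂ F] {B : Subalgebra ℂ F}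
    {𝒲 : Set (ValuationSubring F)} (hK : Krull B 𝒲) (f : F) : {W ∈ 𝒲 | f ∉ W}.Finite := by
  obtain ⟨a, ha, b, hb, hb0, rfl⟩ := hK.frac f
  refine (hK.fin b hb hb0).subset fun W hW => ⟨hW.1, fun h => hW.2 ?_⟩
  rw [div_eq_mul_inv]
  exact mul_mem (hK.le W hW.1 a ha) h

/-- A common denominator for the coefficients of a polynomial. -/
theorem Krull_aux_denom {F : Type} [Field F] [Algebra ℂ F] {B : Subalgebra ℂ F} (D : Submonoid F)
    (hD : ∀ d ∈ D, d ∈ B) (p : F[X]) (hp : ∀ i, ∃ d ∈ D, d * p.coeff i ∈ B) :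
    ∃ d ∈ D, ∀ i, d * p.coeff i ∈ B := by
  classical
  choose e he he' using hp
  refine ⟨∏ i ∈ p.support, e i, prod_mem fun i _ => he i, fun i => ?_⟩
  by_cases hi : i ∈ p.support
  · rw [← Finset.mul_prod_erase _ _ hi, mul_comm (e i), mul_assoc]
    exact mul_mem (prod_mem fun j _ => hD _ (he j)) (he' i)
  · rw [notMem_support_iff.1 hi, mul_zero]
    exact zero_mem _

section Step

variable {F M : Type} [Field F] [Field M] [Algebra ℂ F] [Algebra ℂ M] [Algebra F M]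
  [IsScalarTower ℂ F M] {P : EP M} {B : Subalgebra ℂ F}

omit [IsScalarTower ℂ F M] in
theorem Krull_aux_const {c : F} (hc : c ∈ B) :
    algebraMap F M c ∈ Algebra.adjoin ℂ (algebraMap F M '' B ∪ {xc P, yc P}) :=
  Algebra.subset_adjoin (Or.inl ⟨c, hc, rfl⟩)

omit [IsScalarTower ℂ F M] in
theorem Krull_aux_aeval {d : F} {p : F[X]} (hp : ∀ i, d * p.coeff i ∈ B) :
    algebraMap F M d * aeval (xc P) p ∈ Algebra.adjoin ℂ (algebraMap F M '' B ∪ {xc P, yc P}) := by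
  rw [aeval_eq_sum_range, Finset.mul_sum]
  refine sum_mem fun i _ => ?_
  rw [Algebra.smul_def, ← mul_assoc, ← map_mul]
  have hx : xc P ∈ Algebra.adjoin ℂ (algebraMap F M '' B ∪ {xc P, yc P}) :=
    Algebra.subset_adjoin (Or.inr (by simp))
  exact mul_mem (Krull_aux_const (hp i)) (pow_mem hx i)

omit [IsScalarTower ℂ F M] in
theorem Krull_aux_aeval2 {d : F} {p q : F[X]} (hp : ∀ i, d * p.coeff i ∈ B)
    (hq : ∀ i, d * q.coeff i ∈ B) :
    algebraMap F M d * (aeval (xc P) p + aeval (xc P) q * yc P) ∈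
      Algebra.adjoin ℂ (algebraMap F M '' B ∪ {xc P, yc P}) := by
  rw [mul_add, ← mul_assoc]
  exact add_mem (Krull_aux_aeval hp)
    (mul_mem (Krull_aux_aeval hq) (Algebra.subset_adjoin (Or.inr (by simp))))

theorem Krull_aux_crd {f : M} (hf : f ∈ Algebra.adjoin ℂ (algebraMap F M '' B ∪ {xc P, yc P})) :
    f ∈ crd F P := by
  have : Algebra.adjoin ℂ (algebraMap F M '' B ∪ {xc P, yc P}) ≤ (crd F P).restrictScalars ℂ := by
    refine Algebra.adjoin_le ?_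
    rintro g (⟨c, _, rfl⟩ | hg)
    · exact (crd F P).algebraMap_mem c
    · exact Algebra.subset_adjoin hg
  exact this hf

/-- Three polynomials at once. -/
theorem Krull_aux_denom3 (D : Submonoid F) (hD : ∀ d ∈ D, d ∈ B) (p q b : F[X])
    (hp : ∀ i, ∃ d ∈ D, d * p.coeff i ∈ B) (hq : ∀ i, ∃ d ∈ D, d * q.coeff i ∈ B)
    (hb : ∀ i, ∃ d ∈ D, d * b.coeff i ∈ B) :
    ∃ d ∈ D, (∀ i, d * p.coeff i ∈ B) ∧ (∀ i, d * q.coeff i ∈ B) ∧ ∀ i, d * b.coeff i ∈ B := by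
  obtain ⟨d1, h1, h1'⟩ := Krull_aux_denom D hD p hp
  obtain ⟨d2, h2, h2'⟩ := Krull_aux_denom D hD q hq
  obtain ⟨d3, h3, h3'⟩ := Krull_aux_denom D hD b hb
  refine ⟨d1 * d2 * d3, mul_mem (mul_mem h1 h2) h3, fun i => ?_, fun i => ?_, fun i => ?_⟩
  · rw [show d1 * d2 * d3 * p.coeff i = d2 * d3 * (d1 * p.coeff i) by ring]
    exact mul_mem (mul_mem (hD _ h2) (hD _ h3)) (h1' i)
  · rw [show d1 * d2 * d3 * q.coeff i = d1 * d3 * (d2 * q.coeff i) by ring]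
    exact mul_mem (mul_mem (hD _ h1) (hD _ h3)) (h2' i)
  · rw [show d1 * d2 * d3 * b.coeff i = d1 * d2 * (d3 * b.coeff i) by ring]
    exact mul_mem (mul_mem (hD _ h1) (hD _ h2)) (h3' i)

/-- The non-zero elements of `B` whose inverse lies in `W`. -/
def Krull_aux_mon (B : Subalgebra ℂ F) (W : ValuationSubring F) : Submonoid F where
  carrier := {d | d ∈ B ∧ d ≠ 0 ∧ d⁻¹ ∈ W}
  one_mem' := ⟨one_mem _, one_ne_zero, by simp⟩
  mul_mem' := fun ha hb => ⟨mul_mem ha.1 hb.1, mul_ne_zero ha.2.1 hb.2.1, by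
    rw [mul_inv]; exact mul_mem ha.2.2 hb.2.2⟩

theorem Krull_aux_top {𝒲 : Set (ValuationSubring F)} (hK : Krull B 𝒲) (c : F) :
    ∃ d ∈ Krull_aux_mon B ⊤, d * c ∈ B := by
  obtain ⟨a, ha, b, hb, hb0, rfl⟩ := hK.frac c
  exact ⟨b, ⟨hb, hb0, ValuationSubring.mem_top _⟩, by rwa [mul_div_cancel₀ _ hb0]⟩

theorem Krull_aux_loc {𝒲 : Set (ValuationSubring F)} (hK : Krull B 𝒲) {W : ValuationSubring F}
    (hW : W ∈ 𝒲) {c : F} (hc : c ∈ W) : ∃ d ∈ Krull_aux_mon B W, d * c ∈ B := by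
  obtain ⟨a, ha, b, hb, hb', rfl⟩ := hK.loc W hW c hc
  by_cases hb0 : b = 0
  · exact ⟨1, one_mem _, by simp [hb0]⟩
  · exact ⟨b, ⟨hb, hb0, hb'⟩, by rwa [mul_div_cancel₀ _ hb0]⟩

theorem Krull_aux_clear {𝒲 : Set (ValuationSubring F)} (hK : Krull B 𝒲) (hP : Gen F P) {a : M}
    (ha : a ∈ crd F P) : ∃ d ∈ B, d ≠ 0 ∧
      algebraMap F M d * a ∈ Algebra.adjoin ℂ (algebraMap F M '' B ∪ {xc P, yc P}) := by
  obtain ⟨p, q, rfl⟩ := hP.repr ha
  obtain ⟨d, hd, h1, h2, -⟩ := Krull_aux_denom3 (Krull_aux_mon B ⊤) (fun d hd => hd.1) p q p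
    (fun i => Krull_aux_top hK _) (fun i => Krull_aux_top hK _) fun i => Krull_aux_top hK _
  exact ⟨d, hd.1, hd.2.1, Krull_aux_aeval2 h1 h2⟩

end Step

/-- Adjoining a generic point. `inter`: no pole at the affine places gives `f ∈ F[x, y]`
(`mem_crd`), and `coeff_mem` at the Gauss extensions puts the coefficients in `B`. -/
theorem Krull.step {F M : Type} [Field F] [Field M] [Algebra ℂ F] [Algebra ℂ M] [Algebra F M]
    [IsScalarTower ℂ F M] {P : EP M} {B : Subalgebra ℂ F} {𝒲 : Set (ValuationSubring F)}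
    (hK : Krull B 𝒲) (hP : Gen F P) :
    Krull (Algebra.adjoin ℂ (algebraMap F M '' B ∪ {xc P, yc P}))
      ({V | V ≠ ⊤ ∧ (∀ c : F, algebraMap F M c ∈ V) ∧ xc P ∈ V} ∪
        {V | ∃ W ∈ 𝒲, IsGauss W V (xc P)}) := by
  have : CharZero F := charZero_of F
  have hle : ∀ V ∈ ({V | V ≠ ⊤ ∧ (∀ c : F, algebraMap F M c ∈ V) ∧ xc P ∈ V} ∪
        {V | ∃ W ∈ 𝒲, IsGauss W V (xc P)} : Set (ValuationSubring M)),
      ∀ b ∈ Algebra.adjoin ℂ (algebraMap F M '' B ∪ {xc P, yc P}), b ∈ V := by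
    rintro V (⟨h1, h2, h3⟩ | ⟨W, hW, hG⟩) b hb
    · exact hP.crd_le ⟨V, h1, h2⟩ h3 b (Krull_aux_crd hb)
    · have hC : ∀ c : ℂ, algebraMap ℂ M c ∈ V := fun c => by
        rw [IsScalarTower.algebraMap_apply ℂ F M]
        exact (hG.1 _).2 (hK.le W hW _ (B.algebraMap_mem c))
      have : Algebra.adjoin ℂ (algebraMap F M '' B ∪ {xc P, yc P}) ≤ (vpt V hC).1 := by
        refine Algebra.adjoin_le ?_
        rintro g (⟨c, hc, rfl⟩ | rfl | rfl)
        · exact (hG.1 c).2 (hK.le W hW c hc)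
        · exact hG.2.1
        · exact hG.yc_mem hP
      exact this hb
  refine ⟨fun f => ?_, hle, ?_, ?_, fun b hb hb0 => ?_, fun f hf => ?_⟩
  · obtain ⟨a, ha, b, hb0, rfl⟩ := hP.frac f
    have hb1 : aeval (xc P) b ≠ 0 := fun h => hP.tr ⟨b, hb0, h⟩
    obtain ⟨d, hd, hd0, hda⟩ := Krull_aux_clear hK hP ha
    obtain ⟨e, he, he'⟩ := Krull_aux_denom (Krull_aux_mon B ⊤) (fun d hd => hd.1) b
      fun i => Krull_aux_top hK _
    have hd1 : algebraMap F M d ≠ 0 := by simpa using hd0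
    have he1 : algebraMap F M e ≠ 0 := by simpa using he.2.1
    refine ⟨_, mul_mem (Krull_aux_const he.1) hda, _,
      mul_mem (Krull_aux_const hd) (Krull_aux_aeval he'),
      mul_ne_zero hd1 (mul_ne_zero he1 hb1), ?_⟩
    field_simp
  · rintro V (⟨h1, h2, -⟩ | ⟨W, hW, hG⟩)
    · exact hP.isFF.dvr ⟨V, h1, h2⟩
    · have := hK.dvr W hW
      exact (hG.dvr hP).1
  · rintro V (⟨h1, h2, h3⟩ | ⟨W, hW, hG⟩) f hf
    · obtain ⟨a, ha, b, hb, hb', rfl⟩ := hP.val_loc ⟨V, h1, h2⟩ h3 f hf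
      obtain ⟨d, hd, hd0, hda⟩ := Krull_aux_clear hK hP ha
      obtain ⟨e, he, he0, heb⟩ := Krull_aux_clear hK hP hb
      have hd1 : algebraMap F M d ≠ 0 := by simpa using hd0
      have he1 : algebraMap F M e ≠ 0 := by simpa using he0
      refine ⟨_, mul_mem (Krull_aux_const he) hda, _, mul_mem (Krull_aux_const hd) heb, ?_, ?_⟩
      · rw [mul_inv, mul_inv, ← map_inv₀, ← map_inv₀]
        exact mul_mem (h2 _) (mul_mem (h2 _) hb')
      · rw [← mul_assoc, ← mul_assoc, mul_comm (algebraMap F M e),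
          mul_div_mul_left _ _ (mul_ne_zero hd1 he1)]
    · obtain ⟨p, q, b, hp, hq, hb, ⟨i, hi⟩, rfl⟩ := hG.repr hP hf
      obtain ⟨d, hd, h1, h2, h3⟩ := Krull_aux_denom3 (Krull_aux_mon B W) (fun d hd => hd.1) p q b
        (fun i => Krull_aux_loc hK hW (hp i)) (fun i => Krull_aux_loc hK hW (hq i))
        fun i => Krull_aux_loc hK hW (hb i)
      have hd1 : algebraMap F M d ≠ 0 := by simpa using hd.2.1
      have hb1 : (aeval (xc P) b)⁻¹ ∈ V := by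
        by_contra hc
        exact hi (hG.2.2 b hb ((ValuationSubring.mem_nonunits_iff_or _).2 (Or.inr hc)) i)
      refine ⟨_, Krull_aux_aeval2 h1 h2, _, Krull_aux_aeval h3, ?_, ?_⟩
      · rw [mul_inv, ← map_inv₀]
        exact mul_mem ((hG.1 _).2 hd.2.2) hb1
      · rw [mul_div_mul_left _ _ hd1]
  · obtain ⟨p, q, hpq⟩ := hP.repr (Krull_aux_crd hb)
    obtain ⟨c, hc0, hc⟩ : ∃ c : F, c ≠ 0 ∧ ((∃ i, c = p.coeff i) ∨ ∃ i, c = q.coeff i) := by
      by_contra hn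
      push Not at hn
      have hp : p = 0 := Polynomial.ext fun i => by
        by_contra h
        exact (hn _ h).1 i rfl
      have hq : q = 0 := Polynomial.ext fun i => by
        by_contra h
        exact (hn _ h).2 i rfl
      exact hb0 (by simp [hpq, hp, hq])
    have h1 : (Subtype.val '' Function.support fun V : Pl F M => ord V.1 b).Finite :=
      (hP.isFF.ord_fin b).image _
    have h2 : (⋃ W ∈ {W ∈ 𝒲 | c⁻¹ ∉ W}, {V | IsGauss W V (xc P)}).Finite :=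
      (Krull_aux_fin hK c⁻¹).biUnion fun W _ =>
        Set.Subsingleton.finite fun V hV V' hV' => IsGauss.unique hP hV hV'
    refine (h1.union h2).subset ?_
    rintro V ⟨hV, hV'⟩
    have hbV := hle V hV b hb
    rcases hV with ⟨k1, k2, -⟩ | ⟨W, hW, hG⟩
    · left
      have : IsDiscreteValuationRing V := hP.isFF.dvr ⟨V, k1, k2⟩
      exact ⟨⟨V, k1, k2⟩, fun h0 => hV' ((ord_eq_zero_iff V b).1 h0).2, rfl⟩
    · right
      have hn : b ∈ V.nonunits := (ValuationSubring.mem_nonunits_iff_or _).2 (Or.inr hV')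
      rw [hpq] at hbV hn
      obtain ⟨k1, k2⟩ := hG.coeff_mem hP hbV
      obtain ⟨k3, k4⟩ := hG.coeff_nonunits hP k1 k2 hn
      have hcn : c ∈ W.nonunits := by
        rcases hc with ⟨i, rfl⟩ | ⟨i, rfl⟩
        · exact k3 i
        · exact k4 i
      exact Set.mem_biUnion (x := W)
        ⟨hW, ((ValuationSubring.mem_nonunits_iff_or _).1 hcn).resolve_left hc0⟩ hG
  · have h1 : f ∈ crd F P := hP.mem_crd fun V hx => hf V.1 (Or.inl ⟨V.2.1, V.2.2, hx⟩)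
    obtain ⟨p, q, rfl⟩ := hP.repr h1
    have h2 : ∀ W ∈ 𝒲, (∀ i, p.coeff i ∈ W) ∧ ∀ i, q.coeff i ∈ W := fun W hW => by
      obtain ⟨V, hG⟩ := hP.exists_gauss W
      exact hG.coeff_mem hP (hf V (Or.inr ⟨W, hW, hG⟩))
    have := Krull_aux_aeval2 (P := P) (B := B) (d := 1) (p := p) (q := q)
      (fun i => by rw [one_mul]; exact hK.inter _ fun W hW => (h2 W hW).1 i)
      fun i => by rw [one_mul]; exact hK.inter _ fun W hW => (h2 W hW).2 i
    rwa [map_one, one_mul] at this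

variable {F : Type} [Field F] [Algebra ℂ F] {B : Subalgebra ℂ F} {𝒲 : Set (ValuationSubring F)}

theorem Krull.fin' (hK : Krull B 𝒲) (f : F) : {W ∈ 𝒲 | f ∉ W}.Finite := Krull_aux_fin hK f

omit [Algebra ℂ F] in
theorem Krull_aux_pow (W : ValuationSubring F) [IsDiscreteValuationRing W] {c : F}
    (hc : c ∈ W.nonunits) (f : F) : ∃ k : ℕ, c ^ k * f ∈ W := by
  by_cases hc0 : c = 0
  · exact ⟨1, by simp [hc0]⟩
  by_cases hf0 : f = 0
  · exact ⟨0, by simp [hf0]⟩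
  have h1 := (ord_pos_iff W hc0).2 hc
  refine ⟨(ord W f).natAbs, (ord_nonneg_iff W _).1 ?_⟩
  rw [ord_mul W (pow_ne_zero _ hc0) hf0, ord_pow]
  have h2 : -ord W f ≤ ((ord W f).natAbs : ℤ) := by omega
  have h3 : (0 : ℤ) ≤ ((ord W f).natAbs : ℤ) := by omega
  nlinarith

/-- Clearing all poles by elements of a submonoid. -/
theorem Krull_aux_poles (hK : Krull B 𝒲) (D : Submonoid F) (hD : ∀ d ∈ D, d ∈ B) {f : F}
    (h : ∀ W ∈ 𝒲, f ∉ W → ∃ c ∈ D, c ∈ W.nonunits) : ∃ c ∈ D, c * f ∈ B := by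
  classical
  have h' : ∀ W : ValuationSubring F, ∃ c ∈ D, W ∈ 𝒲 → c * f ∈ W := fun W => by
    by_cases hW : W ∈ 𝒲
    · by_cases hf : f ∈ W
      · exact ⟨1, one_mem _, fun _ => by rwa [one_mul]⟩
      · obtain ⟨c, hc, hc'⟩ := h W hW hf
        have := hK.dvr W hW
        obtain ⟨k, hk⟩ := Krull_aux_pow W hc' f
        exact ⟨c ^ k, pow_mem hc k, fun _ => hk⟩
    · exact ⟨1, one_mem _, fun h => absurd h hW⟩
  choose e he he' using h'
  refine ⟨∏ W ∈ (hK.fin' f).toFinset, e W, prod_mem fun W _ => he W, hK.inter _ fun W hW => ?_⟩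
  by_cases hf : f ∈ W
  · exact mul_mem (hK.le W hW _ (prod_mem fun W _ => hD _ (he W))) hf
  · have hm : W ∈ (hK.fin' f).toFinset := (Set.Finite.mem_toFinset _).2 ⟨hW, hf⟩
    rw [← Finset.mul_prod_erase _ _ hm, mul_comm (e W), mul_assoc]
    exact mul_mem (hK.le W hW _ (prod_mem fun W _ => hD _ (he W))) (he' W hW)

theorem Krull_aux_adjoin {t : F} (ht : t ∈ B) {S : Set F} (hS : ∀ g ∈ S, t * g ∈ B) {b : F}
    (hb : b ∈ Algebra.adjoin ℂ ((B : Set F) ∪ S)) : ∃ n : ℕ, t ^ n * b ∈ B := by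
  induction hb using Algebra.adjoin_induction with
  | mem x hx =>
    rcases hx with hx | hx
    · exact ⟨0, by simpa using hx⟩
    · exact ⟨1, by simpa using hS x hx⟩
  | algebraMap r => exact ⟨0, by simp⟩
  | add x y _ _ hx hy =>
    obtain ⟨m, hm⟩ := hx
    obtain ⟨n, hn⟩ := hy
    refine ⟨m + n, ?_⟩
    rw [show t ^ (m + n) * (x + y) = t ^ n * (t ^ m * x) + t ^ m * (t ^ n * y) by ring]
    exact add_mem (mul_mem (pow_mem ht n) hm) (mul_mem (pow_mem ht m) hn)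
  | mul x y _ _ hx hy =>
    obtain ⟨m, hm⟩ := hx
    obtain ⟨n, hn⟩ := hy
    refine ⟨m + n, ?_⟩
    rw [show t ^ (m + n) * (x * y) = (t ^ m * x) * (t ^ n * y) by ring]
    exact mul_mem hm hn

/-- Clearing the finitely many poles of `f`: at a pole `W` with `t` a unit, `B[S] ⊆ W` and some
`b ∈ B[S]` is a unit of `O` but not of `W`; the poles of the result have `t` in the maximal ideal. -/
theorem Krull.hartogs' (hK : Krull B 𝒲) {t : F} (ht : t ∈ B) (ht0 : t ≠ 0) {S : Set F}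
    (hS : ∀ g ∈ S, t * g ∈ B) {O : Pt F} (hO : O ∈ spec (Algebra.adjoin ℂ ((B : Set F) ∪ S)))
    {f : F} (hf : ∀ W ∈ 𝒲, (∀ g ∈ O.1, g ∈ W) → f ∈ W) :
    ∃ b, ∃ N : ℕ, IsU O b ∧ t ^ N * b * f ∈ B := by
  let D : Submonoid F :=
    { carrier := {c | c ∈ B ∧ ∃ b, ∃ N : ℕ, IsU O b ∧ c = t ^ N * b}
      one_mem' := ⟨one_mem _, 1, 0, isU_one O, by simp⟩
      mul_mem' := by
        rintro _ _ ⟨ha, a, m, hu, rfl⟩ ⟨hb, b, n, hu', rfl⟩
        exact ⟨mul_mem ha hb, a * b, m + n, hu.mul hu', by ring⟩ }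
  obtain ⟨c, ⟨-, b, N, hu, rfl⟩, hc⟩ := Krull_aux_poles hK D (fun d hd => hd.1) (f := f) (by
    intro W hW hfW
    by_cases htW : t⁻¹ ∈ W
    · have hC : ∀ c : ℂ, algebraMap ℂ F c ∈ W := fun c => hK.le W hW _ (B.algebraMap_mem c)
      have hR : Algebra.adjoin ℂ ((B : Set F) ∪ S) ≤ (vpt W hC).1 := by
        refine Algebra.adjoin_le ?_
        rintro g (hg | hg)
        · exact hK.le W hW g hg
        · have : t⁻¹ * (t * g) ∈ W := mul_mem htW (hK.le W hW _ (hS g hg))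
          rwa [inv_mul_cancel_left₀ ht0] at this
      obtain ⟨g, hg, hgW⟩ : ∃ g ∈ O.1, g ∉ W := by
        by_contra hn
        push Not at hn
        exact hfW (hf W hW hn)
      obtain ⟨a, ha, b, hb, hb', rfl⟩ := hO.2 g hg
      have hb0 : b ≠ 0 := fun h => hgW (by simp [h])
      have hbW : b⁻¹ ∉ W := fun h => hgW (by
        rw [div_eq_mul_inv]; exact mul_mem (hR ha) h)
      obtain ⟨n, hn⟩ := Krull_aux_adjoin ht hS hb
      refine ⟨t ^ n * b, ⟨hn, b, n, ⟨hb0, hO.1 hb, hb'⟩, rfl⟩, ?_⟩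
      refine (ValuationSubring.mem_nonunits_iff_or _).2 (Or.inr fun h => hbW ?_)
      have : t ^ n * (t ^ n * b)⁻¹ ∈ W := mul_mem (pow_mem (hK.le W hW t ht) n) h
      rwa [mul_inv, mul_inv_cancel_left₀ (pow_ne_zero n ht0)] at this
    · exact ⟨t, ⟨ht, 1, 1, isU_one O, by simp⟩,
        (ValuationSubring.mem_nonunits_iff_or _).2 (Or.inr htW)⟩)
  exact ⟨b, N, hu, hc⟩

theorem Krull.hartogs (hK : Krull B 𝒲) {O : Pt F} (hO : O ∈ spec B) {f : F}
    (hf : ∀ W ∈ 𝒲, (∀ g ∈ O.1, g ∈ W) → f ∈ W) : f ∈ O.1 := by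
  obtain ⟨b, N, hu, h⟩ := hK.hartogs' (t := 1) (S := ∅) (O := O) (one_mem _) one_ne_zero
    (fun _ h => h.elim) (by rwa [Set.union_empty, Algebra.adjoin_eq]) hf
  have : b⁻¹ * (1 ^ N * b * f) ∈ O.1 := mul_mem hu.2.2 (hO.1 h)
  rwa [one_pow, one_mul, inv_mul_cancel_left₀ hu.1] at this

end Pool.Agent.MP_95da86_ag
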