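import Pool.Agent.MP_95da86_ag.PFin

/-! The test inequalities imply nefness. -/

namespace Pool.Agent.MP_95da86_ag

theorem NefI_aux_dotb_single (i : Fin 3) (p : F3) : dotb (Pi.single i 1) p = p i := by
  unfold dotb
  rw [Finset.sum_eq_single i]
  · simp
  · intro j _ hj
    simp [Pi.single_eq_of_ne hj]
  · simp

theorem NefI_aux_bar_single (i : Fin 3) : ∃ j, bar ((Pi.single i 1 : Lam) j) ≠ 0 :=
  ⟨i, by simp⟩

theorem NefI_aux_lam (l : Lam) :
    l = l 0 • (Pi.single 0 1 : Lam) + l 1 • (Pi.single 1 1 : Lam) + l 2 • (Pi.single 2 1 : Lam) := by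
  funext i
  fin_cases i <;> simp

theorem NefI_aux_upd (l : Lam) :
    l = Function.update l 2 0 + l 2 • (Pi.single 2 1 : Lam) := by
  funext i
  fin_cases i <;> simp

/-- The case `q = 0`. -/
theorem NefI_aux_zero {H : Herm} {a : F3 → ℝ} (h : PP H a) {q : Lam → ℝ} {m : F3 → ℝ}
    (hc : CurveAx q m) (hq : ∀ l, q l = 0) : ∑ p, a p * m p ≤ H q := by
  have e : q = 0 := funext hq
  have hm : ∀ p, m p ≤ 0 := by
    rcases hc.alt with h1 | h2
    · exact h1.2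
    · exact fun p => (h2.2.1 hq p).le
  rw [e, map_zero]
  exact Finset.sum_nonpos fun p _ => mul_nonpos_of_nonneg_of_nonpos (h.1 p) (hm p)

/-- The second alternative holds when `q` does not vanish identically. -/
theorem NefI_aux_alt {q : Lam → ℝ} {m : F3 → ℝ} (hc : CurveAx q m) (hq : ¬ ∀ l, q l = 0) :
    (∀ p, 0 ≤ m p) ∧ ∀ l : Lam, (∃ i, bar (l i) ≠ 0) → ∃ τ₀, ∀ τ, τ ≠ τ₀ ∨ q l ≠ 0 →
      ∑ p with dotb l p = τ, m p ≤ q l := by
  rcases hc.alt with h1 | h2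
  · exact absurd h1.1 hq
  · exact ⟨h2.1, h2.2.2⟩

/-- Adding up the inequalities. -/
theorem NefI_aux_sum {a m : F3 → ℝ} {q : Lam → ℝ} {n : ℕ} (y : Fin n → ℝ) (l : Fin n → Lam)
    (τ : Fin n → ZMod 3) (hy : ∀ j, 0 ≤ y j) (hm : ∀ p, 0 ≤ m p)
    (hle : ∀ p, m p ≠ 0 → a p ≤ ∑ j with dotb (l j) p = τ j, y j)
    (hq : ∀ j, ∑ p with dotb (l j) p = τ j, m p ≤ q (l j)) :
    ∑ p, a p * m p ≤ ∑ j, y j * q (l j) := by
  calc ∑ p, a p * m p ≤ ∑ p, (∑ j with dotb (l j) p = τ j, y j) * m p := by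
        refine Finset.sum_le_sum fun p _ => ?_
        by_cases h0 : m p = 0
        · simp [h0]
        · exact mul_le_mul_of_nonneg_right (hle p h0) (hm p)
    _ = ∑ p, ∑ j, if dotb (l j) p = τ j then y j * m p else 0 := by
        refine Finset.sum_congr rfl fun p _ => ?_
        rw [Finset.sum_mul, Finset.sum_filter]
    _ = ∑ j, y j * ∑ p with dotb (l j) p = τ j, m p := by
        rw [Finset.sum_comm]
        refine Finset.sum_congr rfl fun j _ => ?_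
        rw [Finset.mul_sum, Finset.sum_filter]
    _ ≤ ∑ j, y j * q (l j) :=
        Finset.sum_le_sum fun j _ => mul_le_mul_of_nonneg_left (hq j) (hy j)

/-- An isotropic row confines the support of `m` to a plane. -/
theorem NefI_aux_supp {q : Lam → ℝ} {m : F3 → ℝ} (hc : CurveAx q m) (hq : ¬ ∀ l, q l = 0)
    {l : Lam} (hl : ∃ i, bar (l i) ≠ 0) (h0 : q l = 0) :
    ∃ τ₀, ∀ p, m p ≠ 0 → dotb l p = τ₀ := by
  obtain ⟨hm, h2⟩ := NefI_aux_alt hc hq
  obtain ⟨τ₀, hτ⟩ := h2 l hl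
  refine ⟨τ₀, fun p hp => ?_⟩
  by_contra hne
  have h1 := hτ (dotb l p) (Or.inl hne)
  rw [h0] at h1
  have h3 : m p ≤ ∑ p' with dotb l p' = dotb l p, m p' :=
    Finset.single_le_sum (f := m) (fun p' _ => hm p') (by simp)
  exact hp (le_antisymm (h3.trans h1) (hm p))

/-- Change of frame. -/
theorem NefI_aux_fr {H : Herm} {a : F3 → ℝ} {q : Lam → ℝ} {m : F3 → ℝ} (g : GLw) (b : F3)
    (h : ∑ p, a ((gbar g).mulVec p + b) * m ((gbar g).mulVec p + b) ≤
      H.fr g fun l => q (vm l g⁻¹)) : ∑ p, a p * m p ≤ H q := by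
  rw [fr_apply] at h
  have e : (fun l => q (vm (vm l g) g⁻¹)) = q := by
    funext l
    rw [← vm_mul, mul_inv_cancel, vm_one]
  rw [e] at h
  rwa [Function.Bijective.sum_comp (aff_bij g b) fun p => a p * m p] at h

theorem NefI_aux_dotb_row (g : GLw) (i : Fin 3) (p : F3) :
    dotb (g.val i) ((gbar g⁻¹).mulVec p) = p i := by
  rw [← dotb_vm, ← vm_single, ← vm_mul, mul_inv_cancel, vm_one, NefI_aux_dotb_single]

theorem NefI_aux_blk_row {g : GLw} (hg : Blk g) : g.val 2 = Pi.single 2 1 := by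
  funext i
  rw [(hg i).1, Pi.single_apply]

/-- Rank one. -/
theorem NefI_aux_one {H : Herm} {a : F3 → ℝ} (h : PP H a) {q : Lam → ℝ} {m : F3 → ℝ}
    (hc : CurveAx q m) (h1 : q (Pi.single 1 1) = 0) (h2 : q (Pi.single 2 1) = 0)
    (hs : ∀ p, m p ≠ 0 → p 1 = 0 ∧ p 2 = 0) : ∑ p, a p * m p ≤ H q := by
  have hq : ∀ l : Lam, q l = nm (l 0) * q (Pi.single 0 1) := fun l => by
    conv_lhs => rw [NefI_aux_lam l]
    rw [hc.qf.radical hc.nonneg h2, hc.qf.radical hc.nonneg h1, hc.qf.smul]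
  by_cases h0 : q (Pi.single 0 1) = 0
  · exact NefI_aux_zero h hc fun l => by rw [hq, h0, mul_zero]
  obtain ⟨hm, h3⟩ := NefI_aux_alt hc fun h' => h0 (h' _)
  obtain ⟨τ₀, hτ⟩ := h3 _ (NefI_aux_bar_single 0)
  have hle : ∀ p, m p ≤ q (Pi.single 0 1) := fun p =>
    (Finset.single_le_sum (f := m) (fun p' _ => hm p') (by simp)).trans
      (hτ (dotb (Pi.single 0 1) p) (Or.inr h0))
  have e : q = q (Pi.single 0 1) • tf 1 := by
    funext l
    rw [Pi.smul_apply, smul_eq_mul, tf, vm_one, mul_comm]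
    exact hq l
  have hp := h.2 1 0
  simp only [gbar_one, Matrix.one_mulVec, add_zero] at hp
  have hinj : Function.Injective fun τ : ZMod 3 => (Pi.single 0 τ : F3) := fun τ τ' e' => by
    simpa using congrFun e' 0
  calc ∑ p, a p * m p
      = ∑ p ∈ Finset.univ.image fun τ : ZMod 3 => (Pi.single 0 τ : F3), a p * m p := by
        refine (Finset.sum_subset (Finset.subset_univ _) fun p _ hp' => ?_).symm
        by_cases hm0 : m p = 0
        · rw [hm0, mul_zero]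
        · exfalso
          refine hp' (Finset.mem_image.2 ⟨p 0, Finset.mem_univ _, ?_⟩)
          obtain ⟨e1, e2⟩ := hs p hm0
          funext i
          fin_cases i <;> simp [e1, e2]
    _ = ∑ τ : ZMod 3, a (Pi.single 0 τ) * m (Pi.single 0 τ) :=
        Finset.sum_image fun τ _ τ' _ e' => hinj e'
    _ ≤ ∑ τ : ZMod 3, a (Pi.single 0 τ) * q (Pi.single 0 1) :=
        Finset.sum_le_sum fun τ _ => mul_le_mul_of_nonneg_left (hle _) (h.1 _)
    _ = q (Pi.single 0 1) * ∑ τ : ZMod 3, a (Pi.single 0 τ) := by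
        rw [← Finset.sum_mul, mul_comm]
    _ ≤ q (Pi.single 0 1) * H (tf 1) := mul_le_mul_of_nonneg_left hp (hc.nonneg _)
    _ = H q := by
        conv_rhs => rw [e]
        rw [map_smul, smul_eq_mul]

/-- Rank two. -/
theorem NefI_aux_two {H : Herm} {a : F3 → ℝ} (hH : Adm H) (h : PP H a) {q : Lam → ℝ} {m : F3 → ℝ}
    (hc : CurveAx q m) (h2 : q (Pi.single 2 1) = 0) (hs : ∀ p, m p ≠ 0 → p 2 = 0) :
    ∑ p, a p * m p ≤ H q := by
  by_cases hq : ∀ l, q l = 0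
  · exact NefI_aux_zero h hc hq
  obtain ⟨n, y, l, τ, hy, hl, hHq, ha⟩ := decomp2 hH h
  have hu : ∀ l : Lam, q l = q (Function.update l 2 0) := fun l => by
    conv_lhs => rw [NefI_aux_upd l]
    rw [hc.qf.radical hc.nonneg h2]
  have hbar : ∀ j, ∃ i, bar (l j i) ≠ 0 := fun j => by
    obtain ⟨g, -, e⟩ := hl j
    rw [← e]
    exact row_bar_ne g 1
  by_cases h0 : ∀ j, q (l j) ≠ 0
  · obtain ⟨hm, h3⟩ := NefI_aux_alt hc hq
    rw [hHq q hc.qf hu]
    refine NefI_aux_sum y l τ hy hm (fun p hp => ha p (hs p hp)) fun j => ?_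
    obtain ⟨τ₀, hτ⟩ := h3 _ (hbar j)
    exact hτ _ (Or.inr (h0 j))
  push Not at h0
  obtain ⟨j, hj⟩ := h0
  obtain ⟨τ₀, hτ⟩ := NefI_aux_supp hc hq (hbar j) hj
  obtain ⟨g, hg, e⟩ := hl j
  refine NefI_aux_fr g⁻¹ ((gbar g⁻¹).mulVec (Pi.single 1 τ₀)) ?_
  refine NefI_aux_one (h.fr g⁻¹ _) (hc.fr g⁻¹ _) ?_ ?_ fun p hp => ?_
  · rw [inv_inv, vm_single, e, hj]
  · rw [inv_inv, vm_single, NefI_aux_blk_row hg, h2]
  · have e1 := hτ _ hp
    have e2 := hs _ hp
    rw [← Matrix.mulVec_add] at e1 e2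
    rw [← e, NefI_aux_dotb_row] at e1
    have e3 := NefI_aux_dotb_row g 2 (p + Pi.single 1 τ₀)
    rw [NefI_aux_blk_row hg, NefI_aux_dotb_single, e2] at e3
    constructor
    · simpa using e1
    · simpa using e3.symm

/-- In the first alternative `H q = H 0 = 0`. Otherwise take `decomp3`; if no `q (l j)` vanishes,
add up. If `q (l j) = 0`, change the frame (`CurveAx.fr`, `PP.fr`, `Adm.fr`) so that `l j = e 2`
and `τ₀ = 0`: then `q` does not depend on the last coordinate (`radical`) and `m` is supported on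
`p 2 = 0`. Repeat with `decomp2`; in the last case `q l = nm (l 0) * q (e 0)`, so
`H q = q (e 0) * H (tf 1)`, `m` is supported on the line `p 1 = p 2 = 0`, and `m p ≤ q (e 0)`. -/
theorem nef_ineq {H : Herm} {a : F3 → ℝ} (hH : Adm H) (h : PP H a) {q : Lam → ℝ} {m : F3 → ℝ}
    (hc : CurveAx q m) : ∑ p, a p * m p ≤ H q := by
  by_cases hq : ∀ l, q l = 0
  · exact NefI_aux_zero h hc hq
  obtain ⟨n, y, l, τ, hy, hl, hHq, ha⟩ := decomp3 hH h
  have hbar : ∀ j, ∃ i, bar (l j i) ≠ 0 := fun j => by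
    obtain ⟨g, e⟩ := hl j
    rw [← e]
    exact row_bar_ne g 2
  by_cases h0 : ∀ j, q (l j) ≠ 0
  · obtain ⟨hm, h3⟩ := NefI_aux_alt hc hq
    rw [hHq q hc.qf]
    refine NefI_aux_sum y l τ hy hm (fun p _ => ha p) fun j => ?_
    obtain ⟨τ₀, hτ⟩ := h3 _ (hbar j)
    exact hτ _ (Or.inr (h0 j))
  push Not at h0
  obtain ⟨j, hj⟩ := h0
  obtain ⟨τ₀, hτ⟩ := NefI_aux_supp hc hq (hbar j) hj
  obtain ⟨g, e⟩ := hl j
  refine NefI_aux_fr g⁻¹ ((gbar g⁻¹).mulVec (Pi.single 2 τ₀)) ?_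
  refine NefI_aux_two (hH.fr g⁻¹) (h.fr g⁻¹ _) (hc.fr g⁻¹ _) ?_ fun p hp => ?_
  · rw [inv_inv, vm_single, e, hj]
  · have e1 := hτ _ hp
    rw [← Matrix.mulVec_add, ← e, NefI_aux_dotb_row] at e1
    simpa using e1

end Pool.Agent.MP_95da86_ag
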