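import Pool.Agent.MP_95da86_ag.Inner

/-! The order function of a discrete valuation ring. -/

namespace Pool.Agent.MP_95da86_ag

theorem Ord_aux_unit {k : Type} [Field k] (V : ValuationSubring k) {u : k} (h0 : u ≠ 0)
    (h1 : u ∈ V) (h2 : u⁻¹ ∈ V) : IsUnit (⟨u, h1⟩ : V) :=
  IsUnit.of_mul_eq_one ⟨u⁻¹, h2⟩ (Subtype.ext (mul_inv_cancel₀ h0))

theorem Ord_aux_of_unit {k : Type} [Field k] (V : ValuationSubring k) (U : Vˣ) :
    ((U : V) : k) ≠ 0 ∧ ((U : V) : k)⁻¹ ∈ V := by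
  have h : ((U : V) : k) * ((U⁻¹ : Vˣ) : V) = 1 := by
    rw [← MulMemClass.coe_mul, U.mul_inv]; rfl
  refine ⟨left_ne_zero_of_mul_eq_one h, ?_⟩
  rw [← eq_inv_of_mul_eq_one_right h]
  exact SetLike.coe_mem _

theorem Ord_aux_mem {k : Type} [Field k] (V : ValuationSubring k) {π u : k} (p0 : π ≠ 0)
    (p1 : π ∈ V) (p2 : π⁻¹ ∉ V) (h0 : u ≠ 0) (h1 : u ∈ V) (h2 : u⁻¹ ∈ V) (n : ℤ) :
    u * π ^ n ∈ V ↔ 0 ≤ n := by
  constructor
  · intro h
    by_contra hn
    obtain ⟨m, hm⟩ : ∃ m : ℕ, n = -((m : ℤ) + 1) := ⟨(-n - 1).toNat, by omega⟩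
    apply p2
    have e : π⁻¹ = (u * π ^ n) * u⁻¹ * π ^ m := by
      rw [hm, zpow_neg, zpow_add₀ p0, zpow_natCast, zpow_one]
      field_simp
    rw [e]
    exact mul_mem (mul_mem h h2) (pow_mem p1 m)
  · intro h
    obtain ⟨m, rfl⟩ := Int.eq_ofNat_of_zero_le h
    rw [zpow_natCast]
    exact mul_mem h1 (pow_mem p1 m)

theorem Ord_aux_irr {k : Type} [Field k] (V : ValuationSubring k) {ϖ : V}
    (hϖ : Irreducible ϖ) : (ϖ : k) ≠ 0 ∧ (ϖ : k)⁻¹ ∉ V := by
  have h0 : (ϖ : k) ≠ 0 := fun h => hϖ.ne_zero (Subtype.ext h)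
  exact ⟨h0, fun h => hϖ.not_isUnit (Ord_aux_unit V h0 ϖ.2 h)⟩

theorem Ord_aux_nat {k : Type} [Field k] (V : ValuationSubring k) [IsDiscreteValuationRing V]
    {ϖ : V} (hϖ : Irreducible ϖ) {u : k} (h0 : u ≠ 0) (h1 : u ∈ V) (h2 : u⁻¹ ∈ V) (m : ℕ)
    {f : k} (hf : f ∈ V) (e : f = u * (ϖ : k) ^ m) : (Ring.ord V ⟨f, hf⟩).toNat = m := by
  obtain ⟨U, hU⟩ := Ord_aux_unit V h0 h1 h2
  have e' : (⟨f, hf⟩ : V) = U * ϖ ^ m := by
    rw [hU]
    exact Subtype.ext (by simpa using e)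
  rw [Ring.ord_eq_addVal, IsDiscreteValuationRing.addVal_def _ U hϖ m e']
  simp

theorem Ord_aux_val {k : Type} [Field k] (V : ValuationSubring k) [IsDiscreteValuationRing V]
    {ϖ : V} (hϖ : Irreducible ϖ) {u : k} (h0 : u ≠ 0) (h1 : u ∈ V) (h2 : u⁻¹ ∈ V) (n : ℤ) :
    ord V (u * (ϖ : k) ^ n) = n := by
  obtain ⟨p0, p2⟩ := Ord_aux_irr V hϖ
  have hm := Ord_aux_mem V p0 ϖ.2 p2 h0 h1 h2 n
  unfold ord
  split_ifs with h
  · obtain ⟨m, rfl⟩ := Int.eq_ofNat_of_zero_le (hm.1 h)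
    rw [Ord_aux_nat V hϖ h0 h1 h2 m h (by rw [zpow_natCast])]
  · have hn : n < 0 := by
      by_contra hn
      exact h (hm.2 (by omega))
    obtain ⟨m, rfl⟩ : ∃ m : ℕ, n = -(m : ℤ) := ⟨(-n).toNat, by omega⟩
    rw [Ord_aux_nat V hϖ (inv_ne_zero h0) h2 (by rwa [inv_inv]) m _
      (by rw [mul_inv, zpow_neg, inv_inv, zpow_natCast])]

theorem Ord_aux_dec {k : Type} [Field k] (V : ValuationSubring k) [IsDiscreteValuationRing V]
    {ϖ : V} (hϖ : Irreducible ϖ) {f : k} (hf : f ≠ 0) :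
    ∃ (u : k) (n : ℤ), u ≠ 0 ∧ u ∈ V ∧ u⁻¹ ∈ V ∧ f = u * (ϖ : k) ^ n := by
  have key : ∀ g : k, g ≠ 0 → g ∈ V →
      ∃ (u : k) (n : ℕ), u ≠ 0 ∧ u ∈ V ∧ u⁻¹ ∈ V ∧ g = u * (ϖ : k) ^ n := by
    intro g g0 hg
    have g0' : (⟨g, hg⟩ : V) ≠ 0 := fun h => g0 (congrArg Subtype.val h)
    obtain ⟨n, U, hU⟩ := IsDiscreteValuationRing.eq_unit_mul_pow_irreducible g0' hϖ
    obtain ⟨a, b⟩ := Ord_aux_of_unit V U
    refine ⟨((U : V) : k), n, a, SetLike.coe_mem _, b, ?_⟩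
    simpa using congrArg Subtype.val hU
  rcases V.mem_or_inv_mem f with h | h
  · obtain ⟨u, n, a, b, c, d⟩ := key f hf h
    exact ⟨u, n, a, b, c, by rw [zpow_natCast]; exact d⟩
  · obtain ⟨u, n, a, b, c, d⟩ := key f⁻¹ (inv_ne_zero hf) h
    refine ⟨u⁻¹, -(n : ℤ), inv_ne_zero a, c, by rwa [inv_inv], ?_⟩
    rw [zpow_neg, zpow_natCast, ← mul_inv, ← d, inv_inv]

theorem Ord_aux_ring {R S : Type} [CommRing R] [CommRing S] (e : R ≃+* S) (x : R) :
    Ring.ord S (e x) = Ring.ord R x := by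
  unfold Ring.ord
  rw [Module.length_quotient, Module.length_quotient]
  have h := Order.coheight_orderIso (Ideal.relIsoOfBijective (e : R →+* S) e.bijective)
    (Ideal.span {e x})
  rw [← h]
  congr 1
  change Ideal.comap (e : R →+* S) (Ideal.span {e x}) = Ideal.span {x}
  ext y
  rw [Ideal.mem_comap, Ideal.mem_span_singleton, Ideal.mem_span_singleton]
  exact map_dvd_iff e

section
variable {k : Type} [Field k] (V : ValuationSubring k) [IsDiscreteValuationRing V]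

theorem ord_zero : ord V 0 = 0 := by
  unfold ord
  rw [dif_pos V.zero_mem]
  have : (⟨0, V.zero_mem⟩ : V) = 0 := rfl
  rw [this, Ring.ord_eq_addVal, IsDiscreteValuationRing.addVal_zero]
  simp
theorem ord_one : ord V 1 = 0 := by
  obtain ⟨ϖ, hϖ⟩ := IsDiscreteValuationRing.exists_irreducible V
  simpa using Ord_aux_val V hϖ one_ne_zero V.one_mem (by simp) 0
theorem ord_mul {f g : k} (hf : f ≠ 0) (hg : g ≠ 0) : ord V (f * g) = ord V f + ord V g := by
  obtain ⟨ϖ, hϖ⟩ := IsDiscreteValuationRing.exists_irreducible V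
  obtain ⟨p0, -⟩ := Ord_aux_irr V hϖ
  obtain ⟨u, n, a, b, c, rfl⟩ := Ord_aux_dec V hϖ hf
  obtain ⟨u', n', a', b', c', rfl⟩ := Ord_aux_dec V hϖ hg
  have e : u * (ϖ : k) ^ n * (u' * (ϖ : k) ^ n') = (u * u') * (ϖ : k) ^ (n + n') := by
    rw [zpow_add₀ p0]; ring
  rw [e, Ord_aux_val V hϖ a b c, Ord_aux_val V hϖ a' b' c',
    Ord_aux_val V hϖ (mul_ne_zero a a') (mul_mem b b') (by rw [mul_inv]; exact mul_mem c c')]
theorem ord_inv (f : k) : ord V f⁻¹ = -ord V f := by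
  by_cases hf : f = 0
  · subst hf
    simp [ord_zero]
  have h := ord_mul V hf (inv_ne_zero hf)
  rw [mul_inv_cancel₀ hf, ord_one] at h
  omega
theorem ord_div {f g : k} (hf : f ≠ 0) (hg : g ≠ 0) : ord V (f / g) = ord V f - ord V g := by
  rw [div_eq_mul_inv, ord_mul V hf (inv_ne_zero hg), ord_inv, sub_eq_add_neg]
theorem ord_neg (f : k) : ord V (-f) = ord V f := by
  by_cases hf : f = 0
  · subst hf
    simp
  have m0 : (-1 : k) ≠ 0 := neg_ne_zero.2 one_ne_zero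
  have h := ord_mul V m0 m0
  rw [neg_one_mul, neg_neg, ord_one] at h
  rw [← neg_one_mul, ord_mul V m0 hf]
  omega
theorem ord_pow (f : k) (n : ℕ) : ord V (f ^ n) = n * ord V f := by
  by_cases hf : f = 0
  · subst hf
    rcases n with _ | n
    · simp [ord_one]
    · simp [ord_zero]
  induction n with
  | zero => simp [ord_one]
  | succ n ih =>
    rw [pow_succ, ord_mul V (pow_ne_zero n hf) hf, ih]
    push_cast
    ring
theorem ord_zpow (f : k) (n : ℤ) : ord V (f ^ n) = n * ord V f := by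
  obtain ⟨m, rfl | rfl⟩ := Int.eq_nat_or_neg n
  · rw [zpow_natCast, ord_pow]
  · rw [zpow_neg, zpow_natCast, ord_inv, ord_pow]
    ring
theorem ord_prod {ι : Type} (s : Finset ι) (f : ι → k) (hf : ∀ i ∈ s, f i ≠ 0) :
    ord V (∏ i ∈ s, f i) = ∑ i ∈ s, ord V (f i) := by
  classical
  induction s using Finset.induction_on with
  | empty => simp [ord_one]
  | insert a s ha ih =>
    have hs : ∀ i ∈ s, f i ≠ 0 := fun i hi => hf i (Finset.mem_insert_of_mem hi)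
    rw [Finset.prod_insert ha, Finset.sum_insert ha,
      ord_mul V (hf a (Finset.mem_insert_self a s)) (Finset.prod_ne_zero_iff.2 hs), ih hs]
theorem ord_nonneg_iff (f : k) : 0 ≤ ord V f ↔ f ∈ V := by
  by_cases hf : f = 0
  · subst hf
    simp [ord_zero]
  obtain ⟨ϖ, hϖ⟩ := IsDiscreteValuationRing.exists_irreducible V
  obtain ⟨p0, p2⟩ := Ord_aux_irr V hϖ
  obtain ⟨u, n, a, b, c, rfl⟩ := Ord_aux_dec V hϖ hf
  rw [Ord_aux_val V hϖ a b c, Ord_aux_mem V p0 ϖ.2 p2 a b c]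
theorem ord_pos_iff {f : k} (hf : f ≠ 0) : 0 < ord V f ↔ f ∈ V.nonunits := by
  rw [ValuationSubring.mem_nonunits_iff_or, ← ord_nonneg_iff, ord_inv]
  constructor
  · intro h
    right
    omega
  · rintro (h | h)
    · exact absurd h hf
    · omega
theorem ord_eq_zero_iff (f : k) : ord V f = 0 ↔ f ∈ V ∧ f⁻¹ ∈ V := by
  rw [← ord_nonneg_iff, ← ord_nonneg_iff, ord_inv]
  omega
theorem ord_add {f g : k} (hf : f ≠ 0) (hg : g ≠ 0) (h : f + g ≠ 0) :
    min (ord V f) (ord V g) ≤ ord V (f + g) := by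
  have key : ∀ f g : k, f ≠ 0 → g ≠ 0 → f + g ≠ 0 → ord V f ≤ ord V g →
      ord V f ≤ ord V (f + g) := by
    intro f g hf hg h hle
    have h1 : g / f ∈ V := by
      rw [← ord_nonneg_iff, ord_div V hg hf]
      omega
    have h2 : (f + g) / f ∈ V := by
      rw [add_div, div_self hf]
      exact add_mem V.one_mem h1
    rw [← ord_nonneg_iff, ord_div V h hf] at h2
    omega
  rcases le_total (ord V f) (ord V g) with hle | hle
  · exact (min_le_left _ _).trans (key f g hf hg h hle)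
  · rw [add_comm] at h ⊢
    exact (min_le_right _ _).trans (key g f hg hf h hle)
theorem ord_add_of_lt {f g : k} (hf : f ≠ 0) (hg : g ≠ 0) (h : ord V f < ord V g) :
    f + g ≠ 0 ∧ ord V (f + g) = ord V f := by
  have h0 : f + g ≠ 0 := by
    intro e
    rw [eq_neg_of_add_eq_zero_left e, ord_neg] at h
    exact lt_irrefl _ h
  refine ⟨h0, ?_⟩
  have h1 := ord_add V hf hg h0
  have h2 := ord_add V h0 (neg_ne_zero.2 hg) (by rwa [add_neg_cancel_right])
  rw [add_neg_cancel_right, ord_neg] at h2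
  omega
theorem exists_ord_eq_one : ∃ π : k, π ≠ 0 ∧ ord V π = 1 := by
  obtain ⟨ϖ, hϖ⟩ := IsDiscreteValuationRing.exists_irreducible V
  refine ⟨ϖ, (Ord_aux_irr V hϖ).1, ?_⟩
  simpa using Ord_aux_val V hϖ one_ne_zero V.one_mem (by simp) 1
theorem ne_top_of_dvr : V ≠ ⊤ := by
  obtain ⟨ϖ, hϖ⟩ := IsDiscreteValuationRing.exists_irreducible V
  intro h
  apply (Ord_aux_irr V hϖ).2
  generalize (ϖ : k)⁻¹ = y
  rw [h]
  exact ValuationSubring.mem_top y
end

/-- A valuation ring in which every non-zero element is a unit times a power of a non-unit. -/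
theorem dvr_of_unif {k : Type} [Field k] (V : ValuationSubring k) (π : k) (h0 : π ≠ 0)
    (hπ : π ∈ V.nonunits) (h : ∀ f : k, f ≠ 0 → ∃ n : ℤ, f / π ^ n ∈ V ∧ π ^ n / f ∈ V) :
    IsDiscreteValuationRing V ∧ ord V π = 1 := by
  have p1 : π ∈ V := V.nonunits_le hπ
  have p2 : π⁻¹ ∉ V := (V.mem_nonunits_iff_or.1 hπ).resolve_left h0
  have key : ∀ x : V, x ≠ 0 → ∃ (m : ℕ) (U : Vˣ), (⟨π, p1⟩ : V) ^ m * U = x := by
    intro x hx
    have x0 : (x : k) ≠ 0 := fun e => hx (Subtype.ext e)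
    obtain ⟨n, a, b⟩ := h x x0
    have pn : π ^ n ≠ 0 := zpow_ne_zero n h0
    have u0 : (x : k) / π ^ n ≠ 0 := div_ne_zero x0 pn
    have b' : ((x : k) / π ^ n)⁻¹ ∈ V := by rwa [inv_div]
    have e : (x : k) / π ^ n * π ^ n = x := div_mul_cancel₀ _ pn
    have hn : 0 ≤ n := (Ord_aux_mem V h0 p1 p2 u0 a b' n).1 (by rw [e]; exact x.2)
    obtain ⟨m, rfl⟩ := Int.eq_ofNat_of_zero_le hn
    obtain ⟨U, hU⟩ := Ord_aux_unit V u0 a b'
    refine ⟨m, U, Subtype.ext ?_⟩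
    rw [hU, mul_comm]
    simpa using e
  have hirr : Irreducible (⟨π, p1⟩ : V) := by
    have q0 : (⟨π, p1⟩ : V) ≠ 0 := fun e => h0 (congrArg Subtype.val e)
    have qn : (⟨π, p1⟩ : V) ∈ IsLocalRing.maximalIdeal V := V.coe_mem_nonunits_iff.1 hπ
    apply IsDiscreteValuationRing.irreducible_of_span_eq_maximalIdeal _ q0
    apply le_antisymm
    · intro x hx
      by_cases x0 : x = 0
      · rw [x0]
        exact zero_mem _
      obtain ⟨m, U, rfl⟩ := key x x0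
      rcases m with _ | m
      · exact absurd (by simp) ((IsLocalRing.mem_maximalIdeal _).1 hx)
      · rw [Ideal.mem_span_singleton, pow_succ', mul_assoc]
        exact dvd_mul_right _ _
    · rwa [Ideal.span_singleton_le_iff_mem]
  have hD : IsDiscreteValuationRing V :=
    IsDiscreteValuationRing.ofHasUnitMulPowIrreducibleFactorization
      ⟨_, hirr, fun {x} hx => by
        obtain ⟨m, U, e⟩ := key x hx
        exact ⟨m, U, e⟩⟩
  refine ⟨hD, ?_⟩
  simpa using Ord_aux_val V hirr one_ne_zero V.one_mem (by simp) 1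

/-- Invariance under isomorphisms (no hypothesis on `V`). -/
theorem ord_equiv {k k' : Type} [Field k] [Field k'] (e : k ≃+* k') (V : ValuationSubring k)
    (V' : ValuationSubring k') (h : ∀ f, e f ∈ V' ↔ f ∈ V) (f : k) : ord V' (e f) = ord V f := by
  let E : V ≃+* V' :=
    { toFun := fun x => ⟨e x, (h x).2 x.2⟩
      invFun := fun y => ⟨e.symm y, (h _).1 (by rw [e.apply_symm_apply]; exact y.2)⟩
      left_inv := fun x => Subtype.ext (e.symm_apply_apply _)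
      right_inv := fun y => Subtype.ext (e.apply_symm_apply _)
      map_mul' := fun x y => Subtype.ext (by simp)
      map_add' := fun x y => Subtype.ext (by simp) }
  unfold ord
  by_cases hf : f ∈ V
  · rw [dif_pos hf, dif_pos ((h f).2 hf), ← Ord_aux_ring E ⟨f, hf⟩]
    rfl
  · rw [dif_neg hf, dif_neg (fun g => hf ((h f).1 g)), ← Ord_aux_ring E ⟨f⁻¹, _⟩]
    congr 4
    exact Subtype.ext (map_inv₀ e f).symm

/-- The ramification index. -/
theorem exists_ram {k k' : Type} [Field k] [Field k'] (φ : k →+* k') (V : ValuationSubring k)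
    (V' : ValuationSubring k') [IsDiscreteValuationRing V] [IsDiscreteValuationRing V']
    (h : ∀ f, φ f ∈ V' ↔ f ∈ V) : ∃ e : ℕ, 0 < e ∧ ∀ f, ord V' (φ f) = e * ord V f := by
  obtain ⟨ϖ, hϖ⟩ := IsDiscreteValuationRing.exists_irreducible V
  obtain ⟨p0, p2⟩ := Ord_aux_irr V hϖ
  have hpos : 0 < ord V' (φ ϖ) := by
    rw [← h, map_inv₀, ← ord_nonneg_iff, ord_inv] at p2
    omega
  obtain ⟨m, hm⟩ := Int.eq_ofNat_of_zero_le hpos.le
  refine ⟨m, by omega, fun f => ?_⟩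
  by_cases hf : f = 0
  · subst hf
    simp [ord_zero]
  obtain ⟨u, n, a, b, c, rfl⟩ := Ord_aux_dec V hϖ hf
  have hu : ord V' (φ u) = 0 :=
    (ord_eq_zero_iff V' _).2 ⟨(h u).2 b, by rw [← map_inv₀]; exact (h _).2 c⟩
  rw [Ord_aux_val V hϖ a b c, map_mul, map_zpow₀,
    ord_mul V' ((map_ne_zero φ).2 a) (zpow_ne_zero n ((map_ne_zero φ).2 p0)), hu, ord_zpow, hm]
  ring

end Pool.Agent.MP_95da86_ag
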