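import Pool.Agent.MP_95da86_ag.Tab

/-! The finite systems of inequalities on the Voronoi domains. -/

namespace Pool.Agent.MP_95da86_ag

/-- Type 0. -/
def Fin0 (c : Fin 12 → ℝ) (a : F3 → ℝ) : Prop :=
  (∀ p, 0 ≤ a p) ∧ ∀ (d b : F3) (k₀ : Fin 12), d ≠ 0 → (d 2 = 0 → dotb (f0 k₀) d = 0) →
    ∑ τ : ZMod 3, a (τ • d + b) ≤
      ∑ k with dotb (f0 k) d ≠ 0, c k + if d 2 = 0 then 3 * c k₀ else 0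

/-- Type 1. -/
def Fin1 (c : Fin 9 → ℝ) (a : F3 → ℝ) : Prop :=
  (∀ p, 0 ≤ a p) ∧ ∀ (d b : F3) (k₀ : Fin 9), d ≠ 0 →
    ∑ τ : ZMod 3, a (τ • d + b) ≤
      ∑ k with dotb (f1 k) d ≠ 0, c k + if d 0 = 0 ∧ d 1 = 0 then 3 * c k₀ else 0

/-- Rank two. -/
def Fin2 (c : Fin 4 → ℝ) (a : F3 → ℝ) : Prop :=
  (∀ p, 0 ≤ a p) ∧ (∀ p, p 2 ≠ 0 → a p = 0) ∧ ∀ d b : F3, d ≠ 0 → d 2 = 0 →
    ∑ τ : ZMod 3, a (τ • d + b) ≤ ∑ k with dotb (f2 k) d ≠ 0, c k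

end Pool.Agent.MP_95da86_ag
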