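import Pool.Agent.MP_95da86_ag.QF

/-! Voronoi reduction. -/

namespace Pool.Agent.MP_95da86_ag

/-- A non-negative combination of finitely many functions with values in `ℕ` attains its minimum. -/
theorem exists_min_comb {ι : Type} [Nonempty ι] {n : ℕ} (r : Fin n → ℝ) (hr : ∀ i, 0 ≤ r i)
    (v : ι → Fin n → ℕ) : ∃ x, ∀ y, ∑ i, r i * v x i ≤ ∑ i, r i * v y i := by
  have hmono : Monotone fun w : Fin n → ℕ => ∑ i, r i * (w i : ℝ) := fun w w' h =>
    Finset.sum_le_sum fun i _ => mul_le_mul_of_nonneg_left (by exact_mod_cast h i) (hr i)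
  have hwf := ((Set.isPWO_of_wellQuasiOrderedLE (Set.range v)).image_of_monotone hmono).isWF
  have hne : ((fun w : Fin n → ℕ => ∑ i, r i * (w i : ℝ)) '' Set.range v).Nonempty :=
    (Set.range_nonempty v).image _
  obtain ⟨w, ⟨x, rfl⟩, hx⟩ := hwf.min_mem hne
  refine ⟨x, fun y => ?_⟩
  have h := hwf.min_le hne ⟨v y, ⟨y, rfl⟩, rfl⟩
  rw [← hx] at h
  exact h

/-- An admissible functional attains its minimum on a family of integral forms that are
non-negative combinations of test forms. -/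
theorem Vor_aux_min {H : Herm} (hH : Adm H) {ι : Type} [Nonempty ι] (Q : ι → Lam → ℝ)
    (hQ : ∀ x, IsQF (Q x)) (hZ : ∀ x l, ∃ n : ℤ, Q x l = n)
    (hP : ∀ x, ∃ (m : ℕ) (c : ℝ) (g : Fin m → GLw), 0 ≤ c ∧ Q x = c • ∑ j, tf (g j)) :
    ∃ x, ∀ y, H (Q x) ≤ H (Q y) := by
  obtain ⟨n, r, Hi, hr, hsum, hi⟩ := hH
  have hv : ∀ x i, ∃ k : ℕ, Hi i (Q x) = k := by
    intro x i
    obtain ⟨z, hz⟩ := (hi i).2 (Q x) (hQ x) (hZ x)
    obtain ⟨m, c, g, hc, hg⟩ := hP x
    have h0 : 0 ≤ Hi i (Q x) := by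
      rw [hg, map_smul, map_sum]
      exact smul_nonneg hc (Finset.sum_nonneg fun j _ => (hi i).1 _)
    have hz0 : 0 ≤ z := by
      rw [hz] at h0
      exact_mod_cast h0
    refine ⟨z.toNat, ?_⟩
    rw [hz]
    exact_mod_cast (Int.toNat_of_nonneg hz0).symm
  choose v hv using hv
  obtain ⟨x, hx⟩ := exists_min_comb r hr v
  refine ⟨x, fun y => ?_⟩
  rw [hsum _ (hQ x), hsum _ (hQ y)]
  simpa only [hv] using hx y

/-- The form `qf γ ∘ g`. -/
def Vor_aux_Q (γ : List ℤ) (g : GLw) : Lam → ℝ := fun l => (qf γ (vm l g) : ℝ)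

theorem Vor_aux_Q_qf (γ : List ℤ) (g : GLw) : IsQF (Vor_aux_Q γ g) := (isQF_qf γ).comp_vm g

theorem Vor_aux_Q_one (γ : List ℤ) (l : Lam) : Vor_aux_Q γ 1 l = qf γ l := by
  simp only [Vor_aux_Q, vm_one]

theorem Vor_aux_fr (H : Herm) (γ : List ℤ) (g g' : GLw) :
    H.fr g (Vor_aux_Q γ g') = H (Vor_aux_Q γ (g * g')) := by
  rw [fr_apply]
  congr 1
  funext l
  simp only [Vor_aux_Q, vm_mul]

theorem Vor_aux_shift {γ : List ℤ} {m : ℕ} {c : ℝ} {t : Fin m → GLw}
    (h : ∀ l, (qf γ l : ℝ) = c * ∑ j, tf (t j) l) (g : GLw) :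
    Vor_aux_Q γ g = c • ∑ j, tf (g * t j) := by
  funext l
  simp only [Vor_aux_Q, h, Pi.smul_apply, Finset.sum_apply, tf, vm_mul, smul_eq_mul]

theorem Vor_aux_diff (γ : List ℤ) {m : ℕ} (c : ℝ) (t : Fin m → GLw) :
    IsQF ((fun l => (qf γ l : ℝ)) - c • ∑ j, tf (t j)) :=
  (isQF_qf γ).sub ((isQF_sum _ _ fun j _ => isQF_tf (t j)).const_smul c)

theorem Vor_aux_sum0 : ∃ t : Fin 9 → GLw, ∀ l, (qf q0 l : ℝ) = (1 / 3) * ∑ j, tf (t j) l := by
  obtain ⟨t, ht⟩ := sum_q0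
  refine ⟨t, fun l => ?_⟩
  have h := (Vor_aux_diff q0 (1 / 3) t).ext0 (fun k => by
    have h1 : (3 : ℝ) * qf q0 (f0 k) = ∑ j, (nm (vm (f0 k) (t j) 0) : ℝ) := by
      exact_mod_cast ht k
    simp only [Pi.sub_apply, Pi.smul_apply, Finset.sum_apply, tf, smul_eq_mul]
    linarith) l
  simp only [Pi.sub_apply, Pi.smul_apply, Finset.sum_apply, smul_eq_mul] at h
  linarith

theorem Vor_aux_sum1 : ∃ t : Fin 12 → GLw, ∀ l, (qf q1 l : ℝ) = (1 / 4) * ∑ j, tf (t j) l := by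
  obtain ⟨t, ht⟩ := sum_q1
  refine ⟨t, fun l => ?_⟩
  have h := (Vor_aux_diff q1 (1 / 4) t).ext1 (fun k => by
    have h1 : (4 : ℝ) * qf q1 (f1 k) = ∑ j, (nm (vm (f1 k) (t j) 0) : ℝ) := by
      exact_mod_cast ht k
    simp only [Pi.sub_apply, Pi.smul_apply, Finset.sum_apply, tf, smul_eq_mul]
    linarith) l
  simp only [Pi.sub_apply, Pi.smul_apply, Finset.sum_apply, smul_eq_mul] at h
  linarith

theorem Vor_aux_tf_update {g : GLw} (hg : Blk g) (l : Lam) :
    tf g (Function.update l 2 0) = tf g l := by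
  simp only [tf, hg.vm_update]
  rw [Function.update_of_ne (by decide)]

theorem Vor_aux_Q_update {g : GLw} (hg : Blk g) (l : Lam) :
    Vor_aux_Q q2 g (Function.update l 2 0) = Vor_aux_Q q2 g l := by
  simp only [Vor_aux_Q, hg.vm_update, qf_q2_update]

theorem Vor_aux_sum2 : ∃ t : Fin 4 → GLw,
    ∀ l, (qf q2 l : ℝ) = (2 / 3) * ∑ j, tf (t j) l := by
  obtain ⟨t, hb, ht⟩ := sum_q2
  refine ⟨t, fun l => ?_⟩
  have h := (Vor_aux_diff q2 (2 / 3) t).ext2 (fun l => by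
    simp only [Pi.sub_apply, Pi.smul_apply, Finset.sum_apply, qf_q2_update,
      Vor_aux_tf_update (hb _)]) (fun k => by
    have h1 : (3 : ℝ) * qf q2 (f2 k) = 2 * ∑ j, (nm (vm (f2 k) (t j) 0) : ℝ) := by
      exact_mod_cast ht k
    simp only [Pi.sub_apply, Pi.smul_apply, Finset.sum_apply, tf, smul_eq_mul]
    linarith) l
  simp only [Pi.sub_apply, Pi.smul_apply, Finset.sum_apply, smul_eq_mul] at h
  linarith

/-- The value of a combination of dual forms. -/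
theorem Vor_aux_dual {n : ℕ} (f : Fin n → Lam) (F : Fin n → Lam → ℝ)
    (hF : ∀ k₀ k, F k₀ (f k) = if k = k₀ then 2 else 0) (q : Lam → ℝ) (k : Fin n) :
    (q - ∑ k₀, (q (f k₀) / 2) • F k₀) (f k) = 0 := by
  simp only [Pi.sub_apply, Finset.sum_apply, Pi.smul_apply, hF, smul_eq_mul, mul_ite, mul_zero,
    Finset.sum_ite_eq, Finset.mem_univ, if_true]
  ring

theorem Vor_aux_eval {n : ℕ} (H : Herm) (f : Fin n → Lam) (F : Fin n → Lam → ℝ) (q : Lam → ℝ)
    (h : ∀ l, (q - ∑ k₀, (q (f k₀) / 2) • F k₀) l = 0) :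
    H q = Hc f (fun k => H (F k) / 2) q := by
  have e : q = ∑ k₀, (q (f k₀) / 2) • F k₀ := sub_eq_zero.1 (funext h)
  rw [Hc_apply]
  conv_lhs => rw [e]
  rw [map_sum]
  refine Finset.sum_congr rfl fun k _ => ?_
  rw [map_smul, smul_eq_mul]
  ring

theorem Vor_aux_sum12 (φ : Fin 12 → ℝ) : ∑ k, φ k = ∑ i, ∑ j, φ (triEl i j) := by
  simp only [Fin.sum_univ_succ, Fin.sum_univ_zero, triEl, Matrix.cons_val_zero,
    Matrix.cons_val_succ]
  simp only [Fin.succ_zero_eq_one, Fin.succ_one_eq_two, Fin.reduceSucc]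
  ring

theorem Vor_aux_tri {q : Lam → ℝ} (hq : IsQF q) (i : Fin 4) :
    ∑ j, q (f0 (triEl i j)) = ∑ j, q (f0 (triEl 0 j)) := by
  obtain ⟨γ, hγ⟩ := hq.coords
  have h : ∀ i' : Fin 4, ∑ j, q (f0 (triEl i' j)) =
      ∑ a, γ a * (((∑ j, vec (f0 (triEl i' j))) a : ℤ) : ℝ) := by
    intro i'
    simp only [hγ, Finset.sum_apply, Int.cast_sum, Finset.mul_sum]
    exact Finset.sum_comm
  rw [h, h, rel_tri i 0]

/-- The domain of type 0. -/
theorem Vor_aux_type0 (H : Herm) (G : (Fin 4 → Fin 3) → Lam → ℝ) (hG : ∀ ch, IsQF (G ch))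
    (hv : ∀ ch i j, G ch (f0 (triEl i j)) = if j = ch i then 1 else 0)
    (hpos : ∀ ch, 0 ≤ H (G ch)) :
    ∃ c : Fin 12 → ℝ, (∀ k, 0 ≤ c k) ∧ ∀ q, IsQF q → H q = Hc f0 c q := by
  choose pos hpos' using exists_triEl
  have hp : ∀ i j, pos (triEl i j) = j := fun i j => by
    have h := hpos' (triEl i j)
    rw [tri_triEl] at h
    exact (triEl_inj _ _ _ h).symm
  have ext : ∀ q : Lam → ℝ, IsQF q → (∀ i j, q (f0 (triEl i j)) = 0) → q = 0 := fun q hq h =>
    funext (hq.ext0 fun k => by rw [hpos' k]; exact h _ _)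
  set A : Fin 4 → Fin 3 → Lam → ℝ := fun i j => G (Function.update 0 i j) - G 0 with hA
  have hAq : ∀ i j, IsQF (A i j) := fun i j => (hG _).sub (hG _)
  have hAv : ∀ i j i' j', A i j (f0 (triEl i' j')) =
      if i' = i then (if j' = j then 1 else 0) - (if j' = 0 then 1 else 0) else 0 := by
    intro i j i' j'
    simp only [hA, Pi.sub_apply, hv, Pi.zero_apply]
    by_cases h : i' = i
    · subst h
      simp
    · simp [h]
  have hch : ∀ ch, H (G ch) = H (G 0) + ∑ i, H (A i (ch i)) := by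
    intro ch
    have h := ext (G ch - (G 0 + ∑ i, A i (ch i)))
      ((hG ch).sub ((hG 0).add (isQF_sum _ _ fun i _ => hAq i _))) (fun i j => by
        simp only [Pi.sub_apply, Pi.add_apply, Finset.sum_apply, hAv, hv, Finset.sum_ite_eq,
          Finset.mem_univ, if_true, Pi.zero_apply]
        ring)
    rw [sub_eq_zero.1 h, map_add, map_sum]
  have hmin : ∀ i, ∃ j, ∀ j', H (A i j) ≤ H (A i j') := fun i =>
    Finite.exists_min fun j => H (A i j)
  choose ch hchmin using hmin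
  refine ⟨fun k => H (A (tri k) (pos k)) - H (A (tri k) (ch (tri k))) + H (G ch) / 4,
    fun k => ?_, fun q hq => ?_⟩
  · have h1 := hchmin (tri k) (pos k)
    have h2 := hpos ch
    linarith
  · set T := ∑ j, q (f0 (triEl 0 j)) with hT
    have hTi : ∀ i, ∑ j, q (f0 (triEl i j)) = T := fun i => Vor_aux_tri hq i
    have h := ext (q - (T • G 0 + ∑ i, ∑ j, q (f0 (triEl i j)) • A i j))
      (hq.sub (((hG 0).const_smul T).add (isQF_sum _ _ fun i _ => isQF_sum _ _ fun j _ =>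
        (hAq i j).const_smul _))) (fun i j => by
        have h1 : ∀ i', ∑ j', q (f0 (triEl i' j')) * A i' j' (f0 (triEl i j)) =
            if i = i' then q (f0 (triEl i j)) - T * (if j = 0 then 1 else 0) else 0 := by
          intro i'
          by_cases h : i = i'
          · subst h
            simp only [hAv, if_true, mul_sub, Finset.sum_sub_distrib, ← Finset.sum_mul, hTi]
            simp
          · simp [hAv, h]
        simp only [Pi.sub_apply, Pi.add_apply, Finset.sum_apply, Pi.smul_apply, smul_eq_mul, h1,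
          hv, Finset.sum_ite_eq, Finset.mem_univ, if_true, Pi.zero_apply]
        ring)
    have e : H q = T * H (G 0) + ∑ i, ∑ j, q (f0 (triEl i j)) * H (A i j) := by
      conv_lhs => rw [sub_eq_zero.1 h]
      simp only [map_add, map_sum, map_smul, smul_eq_mul]
    rw [e, Hc_apply, Vor_aux_sum12]
    simp only [tri_triEl, hp]
    have e2 : ∀ i, ∑ j, (H (A i j) - H (A i (ch i)) + H (G ch) / 4) * q (f0 (triEl i j)) =
        ∑ j, q (f0 (triEl i j)) * H (A i j) + (H (G ch) / 4 - H (A i (ch i))) * T := by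
      intro i
      rw [← hTi i, Finset.mul_sum, ← Finset.sum_add_distrib]
      exact Finset.sum_congr rfl fun j _ => by ring
    simp only [e2]
    rw [Finset.sum_add_distrib, ← Finset.sum_mul, Finset.sum_sub_distrib, hch ch]
    simp only [Finset.sum_const, Finset.card_univ, Fintype.card_fin, nsmul_eq_mul]
    push_cast
    ring

/-- Minimise `H (qf q ∘ g)` over `q ∈ {q0, q1}` and all `g`; the values `Hi (qf q ∘ g)` are
natural numbers by `sum_q0`, `sum_q1` (with `ext0`, `ext1`). At the minimum `H.fr g` is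
non-negative on the facet forms `F = qf q' ∘ g' - qf q` of `nbr_q0`, `nbr_q1`. For type 1 every
form is `∑ q (f1 k) / 2 • F k`. For type 0 normalise `F ch` to have values `0, 1`, put
`B = F 0`, `A i j = F (update 0 i j) - B`; then `F ch = B + ∑ i, A i (ch i)` and
`q = ∑ i j, q (f0 (triEl i j)) • A i j + q (T) • B` where `A i 0 = 0` and `q (T)` is the common sum
over a triangle (`rel_tri`). With `u i j = H (A i j)`, `m i = min over j of u i j`,
`μ = H B + ∑ m i ≥ 0` take `c (triEl i j) = u i j - m i + μ / 4`. -/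
theorem voronoi3 {H : Herm} (hH : Adm H) : ∃ g : GLw,
    (∃ c : Fin 12 → ℝ, (∀ k, 0 ≤ c k) ∧ ∀ q, IsQF q → H.fr g q = Hc f0 c q) ∨
    (∃ c : Fin 9 → ℝ, (∀ k, 0 ≤ c k) ∧ ∀ q, IsQF q → H.fr g q = Hc f1 c q) := by
  obtain ⟨t0, h0⟩ := Vor_aux_sum0
  obtain ⟨t1, h1⟩ := Vor_aux_sum1
  obtain ⟨⟨b, g⟩, hmin⟩ := Vor_aux_min hH
    (fun x : Bool × GLw => Vor_aux_Q (if x.1 then q1 else q0) x.2)
    (fun x => Vor_aux_Q_qf _ _) (fun x l => ⟨_, rfl⟩) (by
      rintro ⟨b, g⟩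
      cases b
      · exact ⟨9, 1 / 3, _, by norm_num, Vor_aux_shift h0 g⟩
      · exact ⟨12, 1 / 4, _, by norm_num, Vor_aux_shift h1 g⟩)
  have key : ∀ (b' : Bool) (g' : GLw), 0 ≤ H.fr g (Vor_aux_Q (if b' then q1 else q0) g' -
      Vor_aux_Q (if b then q1 else q0) 1) := by
    intro b' g'
    rw [map_sub, Vor_aux_fr, Vor_aux_fr, mul_one]
    exact sub_nonneg.2 (hmin (b', g * g'))
  refine ⟨g, ?_⟩
  cases b
  · left
    have hex : ∀ ch : Fin 4 → Fin 3, ∃ G : Lam → ℝ, IsQF G ∧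
        (∀ i j, G (f0 (triEl i j)) = if j = ch i then 1 else 0) ∧ 0 ≤ H.fr g G := by
      intro ch
      have hiff : ∀ i j, triEl i j = triEl (tri (triEl i j)) (ch (tri (triEl i j))) ↔ j = ch i := by
        intro i j
        rw [tri_triEl]
        exact ⟨triEl_inj _ _ _, fun h => by rw [h]⟩
      obtain ⟨g', h | h⟩ := nbr_q0 ch
      · refine ⟨(1 / 2 : ℝ) • (Vor_aux_Q q0 g' - Vor_aux_Q q0 1),
          ((Vor_aux_Q_qf _ _).sub (Vor_aux_Q_qf _ _)).const_smul _, fun i j => ?_, ?_⟩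
        · have h2 := congrArg (Int.cast : ℤ → ℝ) (h (triEl i j))
          simp only [hiff] at h2
          simp only [Pi.smul_apply, Pi.sub_apply, Vor_aux_Q, vm_one, smul_eq_mul]
          push_cast at h2
          rw [h2]
          split_ifs <;> norm_num
        · rw [map_smul]
          exact smul_nonneg (by norm_num) (key false g')
      · refine ⟨Vor_aux_Q q1 g' - Vor_aux_Q q0 1,
          (Vor_aux_Q_qf _ _).sub (Vor_aux_Q_qf _ _), fun i j => ?_, key true g'⟩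
        have h2 := congrArg (Int.cast : ℤ → ℝ) (h (triEl i j))
        simp only [hiff] at h2
        simp only [Pi.sub_apply, Vor_aux_Q, vm_one]
        push_cast at h2
        exact h2
    choose G hG hv hpos using hex
    exact Vor_aux_type0 (H.fr g) G hG hv hpos
  · right
    choose gk hgk using nbr_q1
    have hF : ∀ k₀ k, (Vor_aux_Q q0 (gk k₀) - Vor_aux_Q q1 1) (f1 k) =
        if k = k₀ then 2 else 0 := by
      intro k₀ k
      have h2 := congrArg (Int.cast : ℤ → ℝ) (hgk k₀ k)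
      simp only [Pi.sub_apply, Vor_aux_Q, vm_one]
      push_cast at h2
      exact h2
    refine ⟨fun k => H.fr g (Vor_aux_Q q0 (gk k) - Vor_aux_Q q1 1) / 2,
      fun k => div_nonneg (key false (gk k)) (by norm_num), fun q hq => ?_⟩
    refine Vor_aux_eval (H.fr g) f1 (fun k => Vor_aux_Q q0 (gk k) - Vor_aux_Q q1 1) q ?_
    exact (hq.sub (isQF_sum _ _ fun k _ =>
      ((Vor_aux_Q_qf _ _).sub (Vor_aux_Q_qf _ _)).const_smul _)).ext1
        (Vor_aux_dual f1 _ hF q)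

theorem voronoi2 {H : Herm} (hH : Adm H) : ∃ g : GLw, Blk g ∧ ∃ c : Fin 4 → ℝ, (∀ k, 0 ≤ c k) ∧
    ∀ q, IsQF q → (∀ l, q l = q (Function.update l 2 0)) → H.fr g q = Hc f2 c q := by
  obtain ⟨t2, h2⟩ := Vor_aux_sum2
  have : Nonempty {g : GLw // Blk g} := ⟨⟨1, Blk.one⟩⟩
  obtain ⟨⟨g, hg⟩, hmin⟩ := Vor_aux_min hH (fun x : {g : GLw // Blk g} => Vor_aux_Q q2 x.1)
    (fun x => Vor_aux_Q_qf _ _) (fun x l => ⟨_, rfl⟩)
    (fun x => ⟨4, 2 / 3, _, by norm_num, Vor_aux_shift h2 x.1⟩)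
  have key : ∀ g' : GLw, Blk g' → 0 ≤ H.fr g (Vor_aux_Q q2 g' - Vor_aux_Q q2 1) := by
    intro g' hg'
    rw [map_sub, Vor_aux_fr, Vor_aux_fr, mul_one]
    exact sub_nonneg.2 (hmin ⟨g * g', hg.mul hg'⟩)
  choose gk hb hgk using nbr_q2
  have hF : ∀ k₀ k, (Vor_aux_Q q2 (gk k₀) - Vor_aux_Q q2 1) (f2 k) =
      if k = k₀ then 2 else 0 := by
    intro k₀ k
    have h3 := congrArg (Int.cast : ℤ → ℝ) (hgk k₀ k)
    simp only [Pi.sub_apply, Vor_aux_Q, vm_one]
    push_cast at h3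
    exact h3
  refine ⟨g, hg, fun k => H.fr g (Vor_aux_Q q2 (gk k) - Vor_aux_Q q2 1) / 2,
    fun k => div_nonneg (key _ (hb k)) (by norm_num), fun q hq hu => ?_⟩
  refine Vor_aux_eval (H.fr g) f2 (fun k => Vor_aux_Q q2 (gk k) - Vor_aux_Q q2 1) q ?_
  refine (hq.sub (isQF_sum _ _ fun k _ =>
    ((Vor_aux_Q_qf _ _).sub (Vor_aux_Q_qf _ _)).const_smul _)).ext2 (fun l => ?_)
      (Vor_aux_dual f2 _ hF q)
  simp only [Pi.sub_apply, Finset.sum_apply, Pi.smul_apply, Vor_aux_Q_update (hb _),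
    Vor_aux_Q_update Blk.one, ← hu l]

end Pool.Agent.MP_95da86_ag
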