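import Pool.Agent.MP_95da86_ag.PFinA
import Pool.Agent.MP_95da86_ag.Vor
import Pool.Agent.MP_95da86_ag.Cover

/-! The finite systems are equivalent to all test inequalities; decompositions. -/

namespace Pool.Agent.MP_95da86_ag

variable {a : F3 → ℝ}

theorem PFin_aux_mk {ι : Type} [Fintype ι] {H : Herm} {R : Lam → Prop} {Q : (Lam → ℝ) → Prop}
    {S : F3 → Prop} (y : ι → ℝ) (l : ι → Lam) (τ : ι → ZMod 3) (h1 : ∀ j, 0 ≤ y j)
    (h2 : ∀ j, R (l j)) (h3 : ∀ q, IsQF q → Q q → H q = ∑ j, y j * q (l j))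
    (h4 : ∀ p, S p → a p ≤ ∑ j, if dotb (l j) p = τ j then y j else 0) :
    ∃ (n : ℕ) (y : Fin n → ℝ) (l : Fin n → Lam) (τ : Fin n → ZMod 3), (∀ j, 0 ≤ y j) ∧
      (∀ j, R (l j)) ∧ (∀ q, IsQF q → Q q → H q = ∑ j, y j * q (l j)) ∧
      ∀ p, S p → a p ≤ ∑ j with dotb (l j) p = τ j, y j := by
  let e := (Fintype.equivFin ι).symm
  refine ⟨_, fun j => y (e j), fun j => l (e j), fun j => τ (e j), fun j => h1 _, fun j => h2 _,
    fun q hq hq' => ?_, fun p hp => ?_⟩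
  · rw [h3 q hq hq', ← e.sum_comp]
  · rw [Finset.sum_filter]
    exact (h4 p hp).trans_eq (e.sum_comp _).symm

theorem PFin_aux_mk' {ι : Type} [Fintype ι] {H : Herm} (y : ι → ℝ) (l : ι → Lam) (τ : ι → ZMod 3)
    (h1 : ∀ j, 0 ≤ y j) (h2 : ∀ j, ∃ g : GLw, g.val 2 = l j)
    (h3 : ∀ q, IsQF q → H q = ∑ j, y j * q (l j))
    (h4 : ∀ p, a p ≤ ∑ j, if dotb (l j) p = τ j then y j else 0) : Decomp H a := by
  obtain ⟨n, y, l, τ, k1, k2, k3, k4⟩ := PFin_aux_mk (R := fun l => ∃ g : GLw, g.val 2 = l)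
    (Q := fun _ => True) (S := fun _ => True) y l τ h1 h2 (fun q hq _ => h3 q hq) fun p _ => h4 p
  exact ⟨n, y, l, τ, k1, k2, fun q hq => k3 q hq trivial, fun p => k4 p trivial⟩

theorem PFin_aux_tri {q : Lam → ℝ} (hq : IsQF q) {s : Fin 4 → ℝ} (hs : ∑ i, s i = 0) :
    ∑ k, s (tri k) * q (f0 k) = 0 := by
  have h1 : ∀ i : Fin 4, ∑ k, ((if tri k = i then 1 else 0) - (if tri k = 0 then 1 else 0) : ℤ) •
      vec (f0 k) = 0 := by decide +kernel
  have h2 : ∀ i : Fin 4, ∑ k, (if tri k = i then q (f0 k) else 0) =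
      ∑ k, if tri k = 0 then q (f0 k) else 0 := fun i => by
    have := hq.rel Finset.univ _ f0 (h1 i)
    simpa [sub_mul, Finset.sum_sub_distrib, sub_eq_zero] using this
  calc ∑ k, s (tri k) * q (f0 k) = ∑ k, ∑ i, s i * if tri k = i then q (f0 k) else 0 := by simp
    _ = 0 := by
      rw [Finset.sum_comm]
      simp only [← Finset.mul_sum, h2]
      rw [← Finset.sum_mul, hs, zero_mul]

theorem decomp0 {c : Fin 12 → ℝ} (hc : ∀ k, 0 ≤ c k) (h : Fin0 c a) : Decomp (Hc f0 c) a := by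
  obtain ⟨y, s, h1, h2, h3, h4⟩ := cover0 hc h
  refine PFin_aux_mk' (ι := Fin 12 × ZMod 3) (fun j => y j.1 j.2) (fun j => f0 j.1) Prod.snd
    (fun j => h1 _ _) (fun j => row_f0 _) (fun q hq => ?_) fun p => ?_
  · rw [Hc_apply, Fintype.sum_prod_type]
    simp only [← Finset.sum_mul, h3, add_mul, Finset.sum_add_distrib, PFin_aux_tri hq h2, add_zero]
  · rw [Fintype.sum_prod_type]
    simpa using h4 p

/-- The weight `s` is put on the planes of the twelve long forms through `b`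
(`rel_long`, `count_long`). -/
theorem decomp1 {c : Fin 9 → ℝ} (hc : ∀ k, 0 ≤ c k) (h : Fin1 c a) : Decomp (Hc f1 c) a := by
  obtain ⟨y, s, b, h1, h2, h3, h4⟩ := cover1 hc h
  refine PFin_aux_mk' (ι := Fin 9 × ZMod 3 ⊕ Fin 12) (Sum.elim (fun j => y j.1 j.2) fun _ => s)
    (Sum.elim (fun j => f1 j.1) fl) (Sum.elim Prod.snd fun k => dotb (fl k) b)
    (Sum.rec (fun j => h1 _ _) fun _ => h2) (Sum.rec (fun j => row_f1 _) row_fl)
    (fun q hq => ?_) fun p => ?_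
  · have h5 := hq.rel (ι := Fin 12 ⊕ Fin 9) Finset.univ (Sum.elim (fun _ => 1) fun _ => -2)
      (Sum.elim fl f1) (by decide +kernel)
    simp only [Fintype.sum_sum_type, Sum.elim_inl, Sum.elim_inr, ← Finset.mul_sum] at h5
    rw [Hc_apply, Fintype.sum_sum_type, Fintype.sum_prod_type]
    simp only [Sum.elim_inl, Sum.elim_inr, ← Finset.sum_mul, ← h3, add_mul,
      Finset.sum_add_distrib, ← Finset.mul_sum]
    push_cast at h5
    linear_combination -s * h5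
  · rw [Fintype.sum_sum_type, Fintype.sum_prod_type]
    simp only [Sum.elim_inl, Sum.elim_inr]
    rw [← Finset.sum_filter, Finset.sum_const, count_long, nsmul_eq_mul, mul_comm]
    simpa using h4 p

theorem Decomp.congr {H H' : Herm} (h : Decomp H a) (e : ∀ q, IsQF q → H' q = H q) :
    Decomp H' a := by
  obtain ⟨n, y, l, τ, h1, h2, h3, h4⟩ := h
  exact ⟨n, y, l, τ, h1, h2, fun q hq => (e q hq).trans (h3 q hq), h4⟩

theorem PFin_aux_vm (l : Lam) (g : GLw) : vm (vm l g) g⁻¹ = l := by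
  rw [← vm_mul, mul_inv_cancel, vm_one]

theorem PFin_aux_vm' (l : Lam) (g : GLw) : vm (vm l g⁻¹) g = l := by
  rw [← vm_mul, inv_mul_cancel, vm_one]

theorem PFin_aux_fr (H : Herm) (g : GLw) (q : Lam → ℝ) :
    H q = H.fr g fun l => q (vm l g⁻¹) := by
  simp only [fr_apply, PFin_aux_vm]

theorem PFin_aux_row (g h : GLw) (i : Fin 3) : (g * h).val i = vm (g.val i) h := by
  rw [← vm_single, ← vm_single, vm_mul]

theorem Decomp.of_fr {H : Herm} (g : GLw) (b : F3)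
    (h : Decomp (H.fr g) fun p => a ((gbar g).mulVec p + b)) : Decomp H a := by
  obtain ⟨n, y, l, τ, h1, h2, h3, h4⟩ := h
  refine ⟨n, y, fun j => vm (l j) g⁻¹, fun j => τ j + dotb (vm (l j) g⁻¹) b, h1, fun j => ?_,
    fun q hq => ?_, fun p => ?_⟩
  · obtain ⟨g', e⟩ := h2 j
    exact ⟨g' * g⁻¹, by rw [PFin_aux_row, e]⟩
  · rw [PFin_aux_fr H g, h3 _ (hq.comp_vm g⁻¹)]
  · obtain ⟨p, rfl⟩ := (aff_bij g b).2 p
    simpa only [dotb_add, ← dotb_vm, PFin_aux_vm', add_left_inj] using h4 p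

theorem decomp3 {H : Herm} (hH : Adm H) (h : PP H a) : Decomp H a := by
  obtain ⟨g, ⟨c, hc, e⟩ | ⟨c, hc, e⟩⟩ := voronoi3 hH
  · exact .of_fr g 0 ((decomp0 hc (fin0_of_pp ((h.fr g 0).congr fun q hq => (e q hq).symm))).congr e)
  · exact .of_fr g 0 ((decomp1 hc (fin1_of_pp ((h.fr g 0).congr fun q hq => (e q hq).symm))).congr e)

/-- Rank two: the part of `a` on the plane `p 2 = 0`. -/
theorem decomp2 {H : Herm} (hH : Adm H) (h : PP H a) :
    ∃ (n : ℕ) (y : Fin n → ℝ) (l : Fin n → Lam) (τ : Fin n → ZMod 3), (∀ j, 0 ≤ y j) ∧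
      (∀ j, ∃ g : GLw, Blk g ∧ g.val 1 = l j) ∧
      (∀ q, IsQF q → (∀ l, q l = q (Function.update l 2 0)) → H q = ∑ j, y j * q (l j)) ∧
      ∀ p, p 2 = 0 → a p ≤ ∑ j with dotb (l j) p = τ j, y j := by
  obtain ⟨g, hg, c, hc, e⟩ := voronoi2 hH
  have hF : Fin2 c fun p => if p 2 = 0 then a ((gbar g).mulVec p) else 0 := by
    refine ⟨fun p => ?_, fun p hp => if_neg hp, fun d b hd h2 => ?_⟩
    · dsimp only
      split_ifs
      exacts [h.1 _, le_rfl]
    by_cases hb : b 2 = 0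
    swap
    · simpa [h2, hb] using Finset.sum_nonneg fun k _ => hc k
    obtain ⟨g', h3, h4, h5⟩ := test_f2 d hd h2
    have h6 := (h.fr g 0).2 g' b
    rw [e _ (isQF_tf g') fun l => by simp [tf, h3.vm_update], Hc_apply] at h6
    simp only [mulVec_single_zero, h4, add_zero, tf, h5] at h6
    simpa [h2, hb, Finset.sum_filter] using h6
  obtain ⟨y, h1, h2, h3⟩ := cover2 hc hF
  refine PFin_aux_mk (ι := Fin 4 × ZMod 3) (R := fun l => ∃ g : GLw, Blk g ∧ g.val 1 = l)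
    (fun j => y j.1 j.2) (fun j => vm (f2 j.1) g⁻¹) Prod.snd (fun j => h1 _ _) (fun j => ?_)
    (fun q hq hq' => ?_) fun p hp => ?_
  · obtain ⟨g', h4, h5⟩ := row_f2 j.1
    exact ⟨g' * g⁻¹, h4.mul hg.inv, by rw [PFin_aux_row, h5]⟩
  · rw [PFin_aux_fr H g, e _ (hq.comp_vm g⁻¹) fun l => by rw [hg.inv.vm_update, ← hq'], Hc_apply,
      Fintype.sum_prod_type]
    simp only [← Finset.sum_mul, h2]
  · have h4 := h3 ((gbar g⁻¹).mulVec p)
    rw [if_pos (by
        simp only [Matrix.mulVec, dotProduct, gbar, Matrix.map_apply, (hg.inv _).1]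
        simp [hp]),
      Matrix.mulVec_mulVec, ← gbar_mul, mul_inv_cancel, gbar_one, Matrix.one_mulVec] at h4
    rw [Fintype.sum_prod_type]
    simpa [dotb_vm] using h4

end Pool.Agent.MP_95da86_ag
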