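import Pool.Agent.MP_95da86_ag.QF
import Pool.Agent.MP_95da86_ag.PDefs

/-! The finite systems are equivalent to all test inequalities; decompositions. -/

namespace Pool.Agent.MP_95da86_ag

variable {a : F3 → ℝ}

theorem PFinA_aux_sum {n : ℕ} (c : Fin n → ℝ) (P : Fin n → Prop) [DecidablePred P] (Q : Prop)
    [Decidable Q] (k₀ : Fin n) :
    ∑ k with P k, c k + (if Q then 3 * c k₀ else 0) =
      ∑ k, c k * (((if P k then 1 else 0) + if Q ∧ k = k₀ then 3 else 0 : ℤ) : ℝ) := by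
  rw [Finset.sum_filter, ← Fintype.sum_ite_eq' k₀ fun k => if Q then 3 * c k else 0,
    ← Finset.sum_add_distrib]
  refine Finset.sum_congr rfl fun k _ => ?_
  by_cases h1 : P k <;> by_cases h2 : Q <;> by_cases h3 : k = k₀ <;> simp [h1, h2, h3] <;>
    split_ifs <;> ring

theorem PFinA_aux_pp {n : ℕ} (f : Fin n → Lam) (c : Fin n → ℝ) (g : GLw) (b : F3) :
    (∑ τ : ZMod 3, a ((gbar g).mulVec (Pi.single 0 τ) + b) ≤ Hc f c (tf g)) ↔
      ∑ τ : ZMod 3, a ((τ • fun i => bar (g.val i 0)) + b) ≤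
        ∑ k, c k * (nm (vm (f k) g 0) : ℝ) := by
  simp only [Hc_apply, mulVec_single_zero, tf]

theorem PFinA_aux_one {l : Lam} {g : GLw} (h : dotb l (fun i => bar (g.val i 0)) ≠ 0) :
    ∃ n : ℤ, 0 ≤ n ∧ nm (vm l g 0) = 3 * n + 1 := by
  rw [← bar_vm_zero] at h
  obtain ⟨n, hn⟩ := (nm_mod _).2 h
  have := nm_nonneg (vm l g 0)
  exact ⟨n, by omega, hn⟩

theorem PFinA_aux_zero {l : Lam} {g : GLw} (h : dotb l (fun i => bar (g.val i 0)) = 0) :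
    ∃ n : ℤ, 0 ≤ n ∧ nm (vm l g 0) = 3 * n := by
  rw [← bar_vm_zero] at h
  obtain ⟨n, hn⟩ := (nm_mod _).1 h
  have := nm_nonneg (vm l g 0)
  exact ⟨n, by omega, hn⟩

theorem PFinA_aux_rel (g : GLw) : ∃ φ : (Fin 9 → ℤ) →+ ℝ, ∀ l, φ (vec l) = nm (vm l g 0) := by
  obtain ⟨γ, hγ⟩ := (isQF_tf g).coords
  refine ⟨⟨⟨fun v => ∑ i, γ i * v i, by simp⟩, fun v w => ?_⟩, fun l => (hγ l).symm⟩
  simp [mul_add, Finset.sum_add_distrib]

theorem PFinA_aux_le {n : ℕ} {c : Fin n → ℝ} (hc : ∀ k, 0 ≤ c k) {x y : Fin n → ℤ}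
    (h : ∀ k, x k ≤ y k) : ∑ k, c k * (x k : ℝ) ≤ ∑ k, c k * (y k : ℝ) :=
  Finset.sum_le_sum fun k _ => mul_le_mul_of_nonneg_left (Int.cast_le.2 (h k)) (hc k)

theorem fin0_of_pp {c : Fin 12 → ℝ} (h : PP (Hc f0 c) a) : Fin0 c a := by
  refine ⟨h.1, fun d b k₀ hd hk => ?_⟩
  obtain ⟨g, rfl, hg⟩ := test_f0 d hd k₀ hk
  refine ((PFinA_aux_pp f0 c g b).1 (h.2 g b)).trans_eq ?_
  rw [PFinA_aux_sum]
  refine Finset.sum_congr rfl fun k _ => ?_
  rw [hg k]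
  congr 2
  split_ifs with h1 h2 h2
  · exact absurd (h2.2 ▸ hk h2.1) h1
  all_goals rfl

theorem fin1_of_pp {c : Fin 9 → ℝ} (h : PP (Hc f1 c) a) : Fin1 c a := by
  refine ⟨h.1, fun d b k₀ hd => ?_⟩
  obtain ⟨g, rfl, hg⟩ := test_f1 d hd k₀
  refine ((PFinA_aux_pp f1 c g b).1 (h.2 g b)).trans_eq ?_
  rw [PFinA_aux_sum]
  refine Finset.sum_congr rfl fun k _ => ?_
  rw [hg k]
  simp only [and_assoc]

/-- `nm ≥ 1` off the prime, and for a direction `d` in the plane some member of the triangle of `d`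
does not vanish on the column, since the triangles have equal sums (`rel_tri`, `tri_dir`). -/
theorem pp_of_fin0 {c : Fin 12 → ℝ} (hc : ∀ k, 0 ≤ c k) (h : Fin0 c a) : PP (Hc f0 c) a := by
  refine ⟨h.1, fun g b => (PFinA_aux_pp f0 c g b).2 ?_⟩
  have key : ∃ k₀, bar (g.val 2 0) = 0 →
      dotb (f0 k₀) (fun i => bar (g.val i 0)) = 0 ∧ 3 ≤ nm (vm (f0 k₀) g 0) := by
    by_cases h2 : bar (g.val 2 0) = 0
    swap
    · exact ⟨0, fun h3 => absurd h3 h2⟩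
    obtain ⟨i, hi⟩ := tri_dir _ (col_ne_zero g) h2
    obtain ⟨i', hi'⟩ := exists_ne i
    obtain ⟨φ, hφ⟩ := PFinA_aux_rel g
    have h3 := congrArg φ (rel_tri i i')
    simp only [map_sum, hφ] at h3
    have h4 : ∑ j, nm (vm (f0 (triEl i j)) g 0) = ∑ j, nm (vm (f0 (triEl i' j)) g 0) := by
      exact_mod_cast h3
    have h5 := fun j => (hi (triEl i j)).2 (tri_triEl i j)
    have h6 := fun j => PFinA_aux_one fun e => hi' ((tri_triEl i' j).symm.trans ((hi _).1 e))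
    by_contra hn
    push Not at hn
    obtain ⟨n0, g0, e0⟩ := PFinA_aux_zero (h5 0)
    obtain ⟨n1, g1, e1⟩ := PFinA_aux_zero (h5 1)
    obtain ⟨n2, g2, e2⟩ := PFinA_aux_zero (h5 2)
    obtain ⟨m0, g3, e3⟩ := h6 0
    obtain ⟨m1, g4, e4⟩ := h6 1
    obtain ⟨m2, g5, e5⟩ := h6 2
    have t0 := (hn _).2 (h5 0)
    have t1 := (hn _).2 (h5 1)
    have t2 := (hn _).2 (h5 2)
    rw [Fin.sum_univ_three, Fin.sum_univ_three] at h4
    omega
  obtain ⟨k₀, hk⟩ := key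
  refine (h.2 _ b k₀ (col_ne_zero g) fun h2 => (hk h2).1).trans ?_
  rw [PFinA_aux_sum]
  refine PFinA_aux_le hc fun k => ?_
  have := nm_nonneg (vm (f0 k) g 0)
  split_ifs with h1 h2 h2
  · exact absurd (h2.2 ▸ (hk h2.1).1) h1
  · obtain ⟨n, h3, h4⟩ := PFinA_aux_one h1
    omega
  · have := (hk h2.1).2
    rw [h2.2]
    omega
  · omega

theorem PFinA_aux_ax : ∀ d : F3, d ≠ 0 → d 0 = 0 ∧ d 1 = 0 → ∀ k, dotb (f1 k) d ≠ 0 := by
  decide +kernel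

/-- For `d = (0, 0, ± 1)` all nine norms are `1 mod 3` and not all `1` (`rel_long_one`: parity). -/
theorem pp_of_fin1 {c : Fin 9 → ℝ} (hc : ∀ k, 0 ≤ c k) (h : Fin1 c a) : PP (Hc f1 c) a := by
  refine ⟨h.1, fun g b => (PFinA_aux_pp f1 c g b).2 ?_⟩
  have key : ∃ k₀, bar (g.val 0 0) = 0 ∧ bar (g.val 1 0) = 0 → 4 ≤ nm (vm (f1 k₀) g 0) := by
    by_contra hn
    push Not at hn
    have h1 : ∀ k, nm (vm (f1 k) g 0) = 1 := fun k => by
      obtain ⟨n, h2, h3⟩ := PFinA_aux_one (PFinA_aux_ax _ (col_ne_zero g) (hn k).1 k)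
      have := (hn k).2
      omega
    obtain ⟨φ, hφ⟩ := PFinA_aux_rel g
    have h3 := congrArg φ rel_long_one
    simp only [map_sum, map_nsmul, map_zsmul, hφ, h1] at h3
    have h4 : 2 * nm (vm (fl 0) g 0) =
        ∑ k, (![-1, -1, -1, 1, 1, 1, 1, 1, 1] : Fin 9 → ℤ) k := by
      simp only [nsmul_eq_mul, zsmul_eq_mul, Int.cast_one, mul_one] at h3
      exact_mod_cast h3
    rw [show ∑ k, (![-1, -1, -1, 1, 1, 1, 1, 1, 1] : Fin 9 → ℤ) k = 3 by decide] at h4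
    omega
  obtain ⟨k₀, hk⟩ := key
  refine (h.2 _ b k₀ (col_ne_zero g)).trans ?_
  rw [PFinA_aux_sum]
  refine PFinA_aux_le hc fun k => ?_
  have := nm_nonneg (vm (f1 k) g 0)
  split_ifs with h1 h2 h2
  · have := hk h2.1
    rw [h2.2]
    omega
  · obtain ⟨n, h3, h4⟩ := PFinA_aux_one h1
    omega
  · have := hk h2.1
    rw [h2.2]
    omega
  · omega

end Pool.Agent.MP_95da86_ag
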