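import Pool.Agent.MP_95da86_ag.Ord

/-! Function fields in one variable and their places. -/

namespace Pool.Agent.MP_95da86_ag

variable {k M : Type} [Field k] [Field M] [Algebra k M]

theorem Place_aux_indep {t : M} (ht : Transcendental k t) :
    AlgebraicIndependent k (fun _ : Unit => t) :=
  algebraicIndependent_unique_type_iff.2 ht

theorem Place_aux_ess (h : IsFF k M) : Algebra.EssFiniteType k M := by
  obtain ⟨t, -, hfin⟩ := h
  have h1 : Algebra.EssFiniteType k (IntermediateField.adjoin k {t}) :=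
    IntermediateField.essFiniteType_iff.2 ⟨{t}, by simp⟩
  exact Algebra.EssFiniteType.comp k (IntermediateField.adjoin k {t}) M

theorem Place_aux_trdeg (h : IsFF k M) : Algebra.trdeg k M = 1 := by
  obtain ⟨t, ht, hfin⟩ := h
  have hb : IsTranscendenceBasis k (fun _ : Unit => t) := by
    rw [(Place_aux_indep ht).isTranscendenceBasis_iff_isAlgebraic, Set.range_const]
    open IntermediateField.algebraAdjoinAdjoin in
    exact Algebra.IsAlgebraic.trans (Algebra.adjoin k {t}) (IntermediateField.adjoin k {t}) M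
  rw [← hb.cardinalMk_eq_trdeg]
  simp

theorem Place_aux_fin [Algebra.EssFiniteType k M] (h1 : Algebra.trdeg k M = 1) {t : M}
    (ht : Transcendental k t) : FiniteDimensional (IntermediateField.adjoin k {t}) M := by
  have hb : IsTranscendenceBasis k (fun _ : Unit => t) :=
    (Place_aux_indep ht).isTranscendenceBasis_of_trdeg_le_of_finite (by simp [h1])
  have ha := hb.isAlgebraic_field
  rw [Set.range_const] at ha
  have := Algebra.EssFiniteType.of_comp k (IntermediateField.adjoin k {t}) M
  exact Algebra.finite_of_essFiniteType_of_isAlgebraic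

theorem Place_aux_isFF [Algebra.EssFiniteType k M] (h1 : Algebra.trdeg k M = 1) : IsFF k M := by
  have h : Algebra.Transcendental k M := trdeg_ne_zero_iff.1 (by simp [h1])
  obtain ⟨t, ht⟩ := h.transcendental
  exact ⟨t, ht, Place_aux_fin h1 ht⟩

theorem IsFF.finite_of_tr (h : IsFF k M) {t : M} (ht : Transcendental k t) :
    FiniteDimensional (IntermediateField.adjoin k {t}) M :=
  have := Place_aux_ess h
  Place_aux_fin (Place_aux_trdeg h) ht

theorem IsFF.trdeg (h : IsFF k M) : Algebra.trdeg k M = 1 := Place_aux_trdeg h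

theorem isFF_of_gens {S : Set M} (hS : S.Finite) (hgen : IntermediateField.adjoin k S = ⊤)
    (h1 : Algebra.trdeg k M = 1) : IsFF k M := by
  have : Algebra.EssFiniteType k M :=
    IntermediateField.fg_top_iff.1 ⟨hS.toFinset, by simpa using hgen⟩
  exact Place_aux_isFF h1

/-- A subfield of a function field containing a transcendental element. -/
theorem IsFF.of_algHom {N : Type} [Field N] [Algebra k N] (h : IsFF k N) (φ : M →ₐ[k] N) {t : M}
    (ht : Transcendental k t) : IsFF k M := by
  refine ⟨t, ht, ?_⟩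
  have ht' : Transcendental k (φ t) := fun ha =>
    ht ((isAlgebraic_algHom_iff φ φ.toRingHom.injective).1 ha)
  have hfin := h.finite_of_tr ht'
  let : Algebra M N := φ.toRingHom.toAlgebra
  let : Algebra (IntermediateField.adjoin k {t}) N :=
    (φ.toRingHom.comp (algebraMap (IntermediateField.adjoin k {t}) M)).toAlgebra
  have : IsScalarTower (IntermediateField.adjoin k {t}) M N :=
    IsScalarTower.of_algebraMap_eq fun _ => rfl
  have he : (IntermediateField.adjoin k {t}).map φ = IntermediateField.adjoin k {φ t} := by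
    rw [IntermediateField.adjoin_map, Set.image_singleton]
  let e : IntermediateField.adjoin k {t} ≃ₐ[k] IntermediateField.adjoin k {φ t} :=
    ((IntermediateField.adjoin k {t}).equivMap φ).trans (IntermediateField.equivOfEq he)
  have : Module.Finite (IntermediateField.adjoin k {t}) N := by
    refine Module.Finite.of_equiv_equiv e.symm.toRingEquiv (RingEquiv.refl N) ?_
    ext x
    obtain ⟨y, rfl⟩ := e.surjective x
    change φ ((e.symm (e y) : IntermediateField.adjoin k {t}) : M) = (e y : N)
    rw [e.symm_apply_apply]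
    rfl
  exact Module.Finite.left (IntermediateField.adjoin k {t}) M N

theorem IsFF.finite_tower {M' : Type} [Field M'] [Algebra k M'] [Algebra M M'] [IsScalarTower k M M']
    (h : IsFF k M) (h' : IsFF k M') : FiniteDimensional M M' := by
  have := Place_aux_ess h'
  have := Algebra.EssFiniteType.of_comp k M M'
  have h3 := trdeg_add_eq k M (A := M')
  rw [h.trdeg, h'.trdeg] at h3
  have h4 : Algebra.trdeg M M' = 0 := by
    have h5 : (1 : Cardinal) + Algebra.trdeg M M' = 1 + 0 := by rw [h3, add_zero]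
    exact (Cardinal.add_one_inj).1 (by rwa [add_comm 1, add_comm 1] at h5)
  have : Algebra.IsAlgebraic M M' := trdeg_eq_zero_iff.1 h4
  exact Algebra.finite_of_essFiniteType_of_isAlgebraic

theorem IsFF.of_finite {M' : Type} [Field M'] [Algebra k M'] [Algebra M M'] [IsScalarTower k M M']
    (h : IsFF k M) [FiniteDimensional M M'] : IsFF k M' := by
  have := Place_aux_ess h
  have := Algebra.EssFiniteType.comp k M M'
  have h3 := trdeg_add_eq k M (A := M')
  rw [h.trdeg, trdeg_eq_zero (R := M) (A := M'), add_zero] at h3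
  exact Place_aux_isFF h3.symm

theorem Place_aux_int {R : Type} [CommRing R] [Algebra R M] (V : ValuationSubring M)
    (hR : ∀ r, algebraMap R M r ∈ V) {x : M} (hx : IsIntegral R x) : x ∈ V := by
  let : Algebra R V := ((algebraMap R M).codRestrict V hR).toAlgebra
  have : IsScalarTower R V M := IsScalarTower.of_algebraMap_eq fun _ => rfl
  obtain ⟨y, hy⟩ := IsIntegrallyClosed.isIntegral_iff.1 (hx.tower_top (A := V))
  rw [← hy]
  exact y.2

theorem Place_aux_adjoin (V : ValuationSubring M) (hV : ∀ c : k, algebraMap k M c ∈ V) {t : M}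
    (ht : t ∈ V) {x : M} (hx : x ∈ Algebra.adjoin k {t}) : x ∈ V := by
  induction hx using Algebra.adjoin_induction with
  | mem x hx => rw [Set.mem_singleton_iff.1 hx]; exact ht
  | algebraMap c => exact hV c
  | add x y _ _ hx hy => exact add_mem hx hy
  | mul x y _ _ hx hy => exact mul_mem hx hy

open IsDedekindDomain in
theorem Place_aux_prime {B : Type} [CommRing B] [IsDedekindDomain B] [Algebra B M]
    [IsFractionRing B M] (V : ValuationSubring M) (hV : V ≠ ⊤) (hB : ∀ b, algebraMap B M b ∈ V) :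
    ∃ v : HeightOneSpectrum B, V = v.valuationSubringAtPrime M ∧
      ∀ b, b ∈ v.asIdeal ↔ algebraMap B M b ∈ V.nonunits := by
  let ι : B →+* V := (algebraMap B M).codRestrict V hB
  let P : Ideal B := (IsLocalRing.maximalIdeal V).comap ι
  have hP : ∀ b, b ∈ P ↔ algebraMap B M b ∈ V.nonunits := fun b => by
    rw [Ideal.mem_comap, ← V.coe_mem_nonunits_iff]
    rfl
  have hinv : ∀ b, b ∉ P → (algebraMap B M b)⁻¹ ∈ V := fun b hb => by
    rw [hP, V.mem_nonunits_iff_or, not_or, not_not] at hb
    exact hb.2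
  have hP0 : P ≠ ⊥ := by
    intro h0
    apply hV
    rw [eq_top_iff]
    intro x _
    obtain ⟨a, b, hb, rfl⟩ := IsFractionRing.div_surjective (A := B) x
    rw [div_eq_mul_inv]
    refine mul_mem (hB a) (hinv b ?_)
    rw [h0, Ideal.mem_bot]
    exact nonZeroDivisors.ne_zero hb
  let v : HeightOneSpectrum B := ⟨P, inferInstance, hP0⟩
  refine ⟨v, (ValuationSubring.eq_of_le_of_ne_top _ ?_ hV).symm, hP⟩
  rintro x ⟨a, s, hs, rfl⟩
  exact mul_mem (hB a) (hinv s hs)

theorem Place_aux_model [CharZero k] (h : IsFF k M) {t : M} (ht : Transcendental k t) :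
    ∃ B : Subring M, IsDedekindDomain B ∧ IsFractionRing B M ∧
      ∀ V : Pl k M, t ∈ V.1 → ∀ b : B, algebraMap B M b ∈ V.1 := by
  have hfin := h.finite_of_tr ht
  have hpid : IsPrincipalIdealRing (Algebra.adjoin k {t}) :=
    IsPrincipalIdealRing.of_surjective (Polynomial.algEquivOfTranscendental k t ht).toRingHom
      (Polynomial.algEquivOfTranscendental k t ht).surjective
  have hcz : CharZero (IntermediateField.adjoin k {t}) := algebraRat.charZero _
  open IntermediateField.algebraAdjoinAdjoin in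
  refine ⟨(integralClosure (Algebra.adjoin k {t}) M).toSubring,
    integralClosure.isDedekindDomain (Algebra.adjoin k {t}) (IntermediateField.adjoin k {t}) M,
    integralClosure.isFractionRing_of_finite_extension (IntermediateField.adjoin k {t}) M, ?_⟩
  intro V hV b
  exact Place_aux_int V.1 (fun r => Place_aux_adjoin V.1 V.2.2 hV r.2) b.2

theorem Place_aux_inv {t : M} (ht : Transcendental k t) : Transcendental k t⁻¹ :=
  fun ha => ht (IsAlgebraic.inv_iff.1 ha)

/-- Places are discrete: if `t ∈ V` (else use `t⁻¹`), `V` contains the integral closure of `k[t]`,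
a Dedekind domain, and is its localisation at a non-zero prime. -/
theorem IsFF.dvr [CharZero k] (h : IsFF k M) (V : Pl k M) : IsDiscreteValuationRing V.1 := by
  have key : ∀ t : M, Transcendental k t → t ∈ V.1 → IsDiscreteValuationRing V.1 := by
    intro t ht htV
    obtain ⟨B, h1, h2, h3⟩ := Place_aux_model h ht
    obtain ⟨v, hv, -⟩ := Place_aux_prime V.1 V.2.1 (h3 V htV)
    rw [hv]
    exact IsLocalization.AtPrime.isDiscreteValuationRing_of_dedekind_domain B v.ne_bot _
  obtain ⟨t, ht, -⟩ := id h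
  rcases V.1.mem_or_inv_mem t with h1 | h1
  · exact key t ht h1
  · exact key t⁻¹ (Place_aux_inv ht) h1

theorem Place_aux_ord_fin [CharZero k] (h : IsFF k M) {t : M} (ht : Transcendental k t) {f : M}
    (hf : f ≠ 0) : {V : Pl k M | t ∈ V.1 ∧ ord V.1 f ≠ 0}.Finite := by
  obtain ⟨B, h1, h2, h3⟩ := Place_aux_model h ht
  obtain ⟨a, b, hb, rfl⟩ := IsFractionRing.div_surjective (A := B) f
  have ha0 : a ≠ 0 := by
    rintro rfl
    simp at hf
  have hb0 : b ≠ 0 := nonZeroDivisors.ne_zero hb
  have hI : Ideal.span {a * b} ≠ (0 : Ideal B) := by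
    simpa [Ideal.span_singleton_eq_bot] using ⟨ha0, hb0⟩
  have hfin := (Ideal.finite_factors hI).image
    (fun v : IsDedekindDomain.HeightOneSpectrum B => v.valuationSubringAtPrime M)
  refine (hfin.preimage (f := fun V : Pl k M => V.1) (Subtype.val_injective.injOn)).subset ?_
  rintro V ⟨htV, hord⟩
  obtain ⟨v, hv, hmem⟩ := Place_aux_prime V.1 V.2.1 (h3 V htV)
  refine ⟨v, ?_, hv.symm⟩
  have := h.dvr V
  change v.asIdeal ∣ Ideal.span {a * b}
  rw [Ideal.dvd_span_singleton]
  by_contra hab
  apply hord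
  have ha : a ∉ v.asIdeal := fun hh => hab (Ideal.mul_mem_right _ _ hh)
  have hb' : b ∉ v.asIdeal := fun hh => hab (Ideal.mul_mem_left _ _ hh)
  rw [hmem, V.1.mem_nonunits_iff_or, not_or, not_not] at ha hb'
  rw [ord_eq_zero_iff, inv_div, div_eq_mul_inv, div_eq_mul_inv]
  exact ⟨mul_mem (h3 V htV a) hb'.2, mul_mem (h3 V htV b) ha.2⟩

theorem IsFF.ord_fin [CharZero k] (h : IsFF k M) (f : M) :
    (Function.support fun V : Pl k M => ord V.1 f).Finite := by
  by_cases hf : f = 0
  · refine Set.finite_empty.subset fun V hV => hV ?_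
    have := h.dvr V
    change ord V.1 f = 0
    rw [hf, ord_zero]
  obtain ⟨t, ht, -⟩ := id h
  refine ((Place_aux_ord_fin h ht hf).union
    (Place_aux_ord_fin h (Place_aux_inv ht) hf)).subset fun V hV => ?_
  rcases V.1.mem_or_inv_mem t with h1 | h1
  · exact Or.inl ⟨h1, hV⟩
  · exact Or.inr ⟨h1, hV⟩

theorem Place_aux_const [IsAlgClosed k] {f : M} (hf : IsAlgebraic k f) :
    ∃ c : k, f = algebraMap k M c := by
  have hi := hf.isIntegral
  obtain ⟨c, hc⟩ := minpoly.mem_range_of_degree_eq_one k f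
    (IsAlgClosed.degree_eq_one_of_irreducible k (minpoly.irreducible hi))
  exact ⟨c, hc.symm⟩

/-- The residue field is algebraic over `k`. -/
theorem IsFF.exists_const [CharZero k] [IsAlgClosed k] (h : IsFF k M) (V : Pl k M) {f : M}
    (hf : f ∈ V.1) : ∃ c : k, f - algebraMap k M c ∈ V.1.nonunits := by
  by_cases ha : IsAlgebraic k f
  · obtain ⟨c, hc⟩ := Place_aux_const ha
    exact ⟨c, by rw [hc, sub_self]; exact zero_mem _⟩
  by_contra hcon
  have hu : ∀ c : k, (f - algebraMap k M c)⁻¹ ∈ V.1 := fun c => by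
    by_contra hc
    exact hcon ⟨c, V.1.mem_nonunits_iff_or.2 (Or.inr hc)⟩
  have hp : ∀ s : Polynomial k, (Polynomial.aeval f s)⁻¹ ∈ V.1 := fun s => by
    rw [(IsAlgClosed.splits s).eq_prod_roots, map_mul, Polynomial.aeval_C, mul_inv, ← map_inv₀]
    refine mul_mem (V.2.2 _) ?_
    rw [map_multiset_prod]
    refine Multiset.prod_induction (fun x : M => x⁻¹ ∈ V.1) _ ?_ ?_ ?_
    · intro x y hx hy
      rw [mul_inv]
      exact mul_mem hx hy
    · rw [inv_one]
      exact one_mem _
    · intro x hx
      simp only [Multiset.map_map, Multiset.mem_map, Function.comp_apply, map_sub,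
        Polynomial.aeval_X, Polynomial.aeval_C] at hx
      obtain ⟨c, -, rfl⟩ := hx
      exact hu c
  have hfin := h.finite_of_tr ha
  apply V.2.1
  rw [eq_top_iff]
  intro x _
  refine Place_aux_int (R := IntermediateField.adjoin k {f}) V.1 ?_ (Algebra.IsIntegral.isIntegral x)
  rintro ⟨r, hr⟩
  obtain ⟨p, q, rfl⟩ := (IntermediateField.mem_adjoin_simple_iff k r).1 hr
  change Polynomial.aeval f p / Polynomial.aeval f q ∈ V.1
  rw [div_eq_mul_inv]
  exact mul_mem (Place_aux_adjoin V.1 V.2.2 hf (Polynomial.aeval_mem_adjoin_singleton k f)) (hp q)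

/-- A transcendental element has a pole (a valuation ring dominating `k[1/f]` at `1/f`). -/
theorem exists_pole {f : M} (hf : Transcendental k f) : ∃ V : Pl k M, f ∉ V.1 := by
  have hg := Place_aux_inv hf
  have hf0 : f ≠ 0 := by
    rintro rfl
    exact hf isAlgebraic_zero
  let A : Subring M := (Algebra.adjoin k {f⁻¹}).toSubring
  let g : A := ⟨f⁻¹, Algebra.self_mem_adjoin_singleton k f⁻¹⟩
  have hI : Ideal.span {g} ≠ ⊤ := by
    rw [Ne, Ideal.span_singleton_eq_top, isUnit_iff_exists_inv]
    rintro ⟨⟨y, hy⟩, hy1⟩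
    have hy2 : f⁻¹ * y = 1 := congrArg Subtype.val hy1
    have hy3 : y ∈ Algebra.adjoin k {f⁻¹} := hy
    rw [Algebra.adjoin_singleton_eq_range_aeval] at hy3
    obtain ⟨p, hp⟩ := hy3
    have hp' : Polynomial.aeval f⁻¹ p = y := hp
    apply hg
    refine ⟨Polynomial.X * p - 1, fun h0 => ?_, ?_⟩
    · have := congrArg (Polynomial.eval 0) h0
      simp at this
    · rw [map_sub, map_mul, Polynomial.aeval_X, hp', hy2, map_one, sub_self]
  obtain ⟨B, hAB, hB⟩ := Ideal.image_subset_nonunits_valuationSubring _ hI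
  have hgB : f⁻¹ ∈ B.nonunits := hB ⟨g, Ideal.mem_span_singleton_self g, rfl⟩
  have hfB : f ∉ B := (B.inv_mem_nonunits_iff.1 hgB).resolve_left hf0
  refine ⟨⟨B, fun h => hfB (h ▸ ValuationSubring.mem_top f), fun c => hAB ?_⟩, hfB⟩
  exact (Algebra.adjoin k {f⁻¹}).algebraMap_mem c

theorem const_of_no_pole [IsAlgClosed k] {f : M} (hf : ∀ V : Pl k M, f ∈ V.1) :
    ∃ c : k, f = algebraMap k M c := by
  apply Place_aux_const
  by_contra ha
  obtain ⟨V, hV⟩ := exists_pole ha
  exact hV (hf V)

/-- Restriction of a place along an algebraic extension. -/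
theorem exists_under {M' : Type} [Field M'] [Algebra k M'] [Algebra M M'] [IsScalarTower k M M']
    [Algebra.IsAlgebraic M M'] (V' : Pl k M') :
    ∃ V : Pl k M, ∀ f, algebraMap M M' f ∈ V'.1 ↔ f ∈ V.1 := by
  refine ⟨⟨V'.1.comap (algebraMap M M'), fun h => V'.2.1 ?_, fun c => ?_⟩, fun f => Iff.rfl⟩
  · rw [eq_top_iff]
    intro x _
    refine Place_aux_int (R := M) V'.1 (fun r => ?_) (Algebra.IsIntegral.isIntegral x)
    have hr : r ∈ V'.1.comap (algebraMap M M') := h ▸ ValuationSubring.mem_top r
    exact hr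
  · rw [ValuationSubring.mem_comap, ← IsScalarTower.algebraMap_apply]
    exact V'.2.2 c

/-- Extension of a place. -/
theorem exists_over {M' : Type} [Field M'] [Algebra k M'] [Algebra M M'] [IsScalarTower k M M']
    (V : Pl k M) : ∃ V' : Pl k M', ∀ f, algebraMap M M' f ∈ V'.1 ↔ f ∈ V.1 := by
  obtain ⟨A, hA, hloc⟩ :=
    IsLocalRing.exists_factor_valuationRing ((algebraMap M M').comp V.1.subtype)
  have key : ∀ f, algebraMap M M' f ∈ A ↔ f ∈ V.1 := by
    intro f
    refine ⟨fun hf => ?_, fun hf => hA ⟨f, hf⟩⟩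
    by_contra hfV
    have hf0 : f ≠ 0 := by
      rintro rfl
      exact hfV (zero_mem _)
    have hi : f⁻¹ ∈ V.1 := (V.1.mem_or_inv_mem f).resolve_left hfV
    have hu : IsUnit (⟨f⁻¹, hi⟩ : V.1) := by
      apply hloc.map_nonunit
      refine isUnit_iff_exists_inv.2 ⟨⟨algebraMap M M' f, hf⟩, Subtype.ext ?_⟩
      change algebraMap M M' f⁻¹ * algebraMap M M' f = 1
      rw [← map_mul, inv_mul_cancel₀ hf0, map_one]
    have hn : f⁻¹ ∈ V.1.nonunits := V.1.inv_mem_nonunits_iff.2 (Or.inr hfV)
    exact (V.1.coe_mem_nonunits_iff (a := ⟨f⁻¹, hi⟩)).1 hn hu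
  refine ⟨⟨A, fun h => V.2.1 ?_, fun c => ?_⟩, key⟩
  · rw [eq_top_iff]
    intro x _
    exact (key x).1 (h ▸ ValuationSubring.mem_top _)
  · rw [IsScalarTower.algebraMap_apply k M M', key]
    exact V.2.2 c

end Pool.Agent.MP_95da86_ag
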