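import Pool.Agent.MP_95da86_ag.Tab

/-! Invariant quadratic forms on `ℤ[ω] ^ 3`. -/

namespace Pool.Agent.MP_95da86_ag

variable {q q' : Lam → ℝ}

theorem nm_nonneg (a : Zw) : 0 ≤ nm a := by
  unfold nm
  nlinarith [sq_nonneg (2 * a.re - a.im), sq_nonneg a.im]

theorem nm_eq_zero {a : Zw} : nm a = 0 ↔ a = 0 := by
  refine ⟨fun h => ?_, fun h => by simp [h, nm]⟩
  unfold nm at h
  have h₁ : a.im = 0 := by nlinarith [sq_nonneg (2 * a.re - a.im), sq_nonneg a.im]
  have h₂ : a.re = 0 := by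
    rw [h₁] at h
    simpa using h
  exact QuadraticAlgebra.ext h₂ h₁

theorem nm_mul (a b : Zw) : nm (a * b) = nm a * nm b := by
  simp only [nm, QuadraticAlgebra.re_mul, QuadraticAlgebra.im_mul]
  ring

theorem nm_mod (a : Zw) : (bar a = 0 → ∃ n : ℤ, nm a = 3 * n) ∧
    (bar a ≠ 0 → ∃ n : ℤ, nm a = 3 * n + 1) := by
  have e : bar a = 0 ↔ (3 : ℤ) ∣ a.re + a.im := by
    rw [bar_def, ← Int.cast_add]
    exact ZMod.intCast_zmod_eq_zero_iff_dvd _ 3
  have f : nm a = (a.re + a.im) ^ 2 - 3 * (a.re * a.im) := by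
    unfold nm
    ring
  rw [Ne, e, f]
  generalize a.re + a.im = s
  generalize a.re * a.im = t
  refine ⟨fun ⟨k, hk⟩ => ⟨3 * k ^ 2 - t, by rw [hk]; ring⟩, fun h => ?_⟩
  obtain ⟨k, hk | hk⟩ : ∃ k, s = 3 * k + 1 ∨ s = 3 * k + 2 := ⟨s / 3, by omega⟩
  · exact ⟨3 * k ^ 2 + 2 * k - t, by rw [hk]; ring⟩
  · exact ⟨3 * k ^ 2 + 4 * k + 1 - t, by rw [hk]; ring⟩

theorem vm_mul (l : Lam) (g h : GLw) : vm l (g * h) = vm (vm l g) h := by
  simp only [vm, Units.val_mul, Matrix.vecMul_vecMul]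

theorem vm_one (l : Lam) : vm l 1 = l := by simp only [vm, Units.val_one, Matrix.vecMul_one]

theorem vm_single (i : Fin 3) (g : GLw) : vm (Pi.single i 1) g = g.val i := by
  funext j
  simp [vm, Matrix.vecMul, dotProduct, Pi.single_apply]

theorem gbar_mul (g h : GLw) : gbar (g * h) = gbar g * gbar h := by
  simp only [gbar, Units.val_mul, Matrix.map_mul]

theorem gbar_one : gbar 1 = 1 := by
  simp only [gbar, Units.val_one]
  exact Matrix.map_one _ (map_zero _) (map_one _)

theorem dotb_vm (l : Lam) (g : GLw) (p : F3) :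
    dotb (vm l g) p = dotb l ((gbar g).mulVec p) := by
  simp only [dotb, vm, gbar, Matrix.vecMul, Matrix.mulVec, dotProduct, Fin.sum_univ_three, map_add,
    map_mul, Matrix.map_apply]
  ring

theorem dotb_add (l : Lam) (p p' : F3) : dotb l (p + p') = dotb l p + dotb l p' := by
  simp only [dotb, Pi.add_apply, mul_add, Finset.sum_add_distrib]

theorem dotb_smul (l : Lam) (τ : ZMod 3) (p : F3) : dotb l (τ • p) = τ * dotb l p := by
  simp only [dotb, Pi.smul_apply, smul_eq_mul, Fin.sum_univ_three]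
  ring

theorem bar_vm_zero (l : Lam) (g : GLw) :
    bar (vm l g 0) = dotb l fun i => bar (g.val i 0) := by
  simp only [dotb, vm, Matrix.vecMul, dotProduct, Fin.sum_univ_three, map_add, map_mul]

theorem mulVec_single_zero (g : GLw) (τ : ZMod 3) :
    (gbar g).mulVec (Pi.single 0 τ) = τ • fun i => bar (g.val i 0) := by
  funext i
  simp [gbar, Matrix.mulVec, dotProduct, Pi.single_apply, mul_comm]

theorem QFA_aux_inv (g : GLw) : gbar g⁻¹ * gbar g = 1 := by
  rw [← gbar_mul, inv_mul_cancel, gbar_one]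

theorem QFA_aux_inv' (g : GLw) : gbar g * gbar g⁻¹ = 1 := by
  rw [← gbar_mul, mul_inv_cancel, gbar_one]

theorem col_ne_zero (g : GLw) : (fun i => bar (g.val i 0)) ≠ 0 := by
  intro h
  have e := congrFun (congrFun (QFA_aux_inv g) 0) 0
  have h' : ∀ i, gbar g i 0 = 0 := congrFun h
  simp [Matrix.mul_apply, h'] at e

theorem row_bar_ne (g : GLw) (i : Fin 3) : ∃ j, bar (g.val i j) ≠ 0 := by
  by_contra h
  push Not at h
  have e := congrFun (congrFun (QFA_aux_inv' g) i) i
  have h' : ∀ j, gbar g i j = 0 := h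
  simp [Matrix.mul_apply, h'] at e

theorem bar_vm_ne {l : Lam} (h : ∃ i, bar (l i) ≠ 0) (g : GLw) : ∃ i, bar (vm l g i) ≠ 0 := by
  by_contra c
  push Not at c
  obtain ⟨i, hi⟩ := h
  apply hi
  rw [← vm_one l, ← mul_inv_cancel g, vm_mul]
  generalize vm l g = l' at c
  simp only [vm, Matrix.vecMul, dotProduct, map_sum, map_mul, c, zero_mul, Finset.sum_const_zero]

/-- The affine map `p ↦ g p + b` of `𝔽₃ ^ 3` is bijective. -/
theorem aff_bij (g : GLw) (b : F3) :
    Function.Bijective fun p : F3 => (gbar g).mulVec p + b := by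
  refine Function.bijective_iff_has_inverse.2
    ⟨fun p => (gbar g⁻¹).mulVec (p - b), fun p => ?_, fun p => ?_⟩
  · simp only [add_sub_cancel_right, Matrix.mulVec_mulVec, QFA_aux_inv, Matrix.one_mulVec]
  · simp only [Matrix.mulVec_mulVec, QFA_aux_inv', Matrix.one_mulVec, sub_add_cancel]

theorem Blk.one : Blk 1 := fun i => by
  simp only [Units.val_one, Matrix.one_apply, eq_comm (a := (2 : Fin 3)), and_self]

theorem Blk.mul {g h : GLw} (hg : Blk g) (hh : Blk h) : Blk (g * h) := fun i => by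
  simp only [Units.val_mul, Matrix.mul_apply, fun j => (hg j).1, fun j => (hh j).2, ite_mul,
    mul_ite, one_mul, zero_mul, mul_one, mul_zero, Finset.sum_ite_eq', Finset.mem_univ, if_true]
  exact ⟨(hh i).1, (hg i).2⟩

theorem Blk.inv {g : GLw} (hg : Blk g) : Blk g⁻¹ := fun i => by
  have e₁ := congrFun (congrFun g.mul_inv 2) i
  have e₂ := congrFun (congrFun g.inv_mul i) 2
  simp only [Matrix.mul_apply, fun j => (hg j).1, fun j => (hg j).2, ite_mul,
    mul_ite, one_mul, zero_mul, mul_one, mul_zero, Finset.sum_ite_eq', Finset.mem_univ, if_true,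
    Matrix.one_apply, eq_comm (a := (2 : Fin 3))] at e₁ e₂
  exact ⟨e₁, e₂⟩

theorem Blk.vm_update {g : GLw} (hg : Blk g) (l : Lam) :
    vm (Function.update l 2 0) g = Function.update (vm l g) 2 0 := by
  funext j
  have h₀ := hg 0
  have h₁ := hg 1
  fin_cases j <;> simp_all [vm, Matrix.vecMul, dotProduct, Fin.sum_univ_three]

end Pool.Agent.MP_95da86_ag
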