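import Pool.Agent.MP_95da86_ag.QuotA

/-! The quotient map. -/

namespace Pool.Agent.MP_95da86_ag

variable {L : Type} [Field L] [Algebra ℂ L] {P : Fin 3 → EP L} {σ : L ≃ₐ[ℂ] L} {ξ : Pt L}

theorem exists_resHom (F : IntermediateField ℂ L) (ξ : Pt L) :
    ∃ ι : RF (qpt F ξ) →ₐ[ℂ] RF ξ, ∀ f : F, ι (res (qpt F ξ) f) = res ξ (f : L) := by
  let φ : (qpt F ξ).1 →ₐ[ℂ] RF ξ :=
    { toFun := fun f => res ξ ((f : F) : L)
      map_one' := res_one ξ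
      map_mul' := fun f g => res_mul (O := ξ) f.2 g.2
      map_zero' := res_zero ξ
      map_add' := fun f g => res_add (O := ξ) f.2 g.2
      commutes' := fun c => res_const ξ c }
  refine ⟨Ideal.Quotient.liftₐ _ φ fun f hf =>
    (res_eq_zero (O := ξ) f.2).2 (mem_mx_qpt.1 (coe_mem_mx.2 hf)), fun f => ?_⟩
  by_cases hf : f ∈ (qpt F ξ).1
  · rw [res_of_mem hf]; rfl
  · rw [res_of_not_mem hf, res_of_not_mem (O := ξ) (mt mem_qpt.2 hf)]
    exact map_zero _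

/-- The residue field of `ξ` is generated by the residues of the finite set `S` of `bl_fin`. -/
theorem Cfg.rf_gens (h : Cfg P σ) (hξ : ξ ∈ blP P σ) : ∃ S : Set L, S.Finite ∧ S ⊆ ξ.1 ∧
    (∀ g ∈ S, σ (g ^ 3) = g ^ 3) ∧ IntermediateField.adjoin ℂ (res ξ '' S) = ⊤ := by
  obtain ⟨S, h1, h2, h3, h4⟩ := h.bl_fin hξ
  refine ⟨S, h1, fun g hg => h3 (Algebra.subset_adjoin hg), fun g hg => ?_, ?_⟩
  · rcases h2 g hg with e | e
    · rw [map_pow, e]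
    · rw [map_pow, e, mul_pow, zt_pow, one_mul]
  · have key : ∀ a ∈ Algebra.adjoin ℂ S, res ξ a ∈ IntermediateField.adjoin ℂ (res ξ '' S) := by
      intro a ha
      induction ha using Algebra.adjoin_induction with
      | mem x hx => exact IntermediateField.subset_adjoin _ _ ⟨x, hx, rfl⟩
      | algebraMap c => rw [res_const]; exact IntermediateField.algebraMap_mem _ c
      | add x y hx hy h1 h2 => rw [res_add (h3 hx) (h3 hy)]; exact add_mem h1 h2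
      | mul x y hx hy h1 h2 => rw [res_mul (h3 hx) (h3 hy)]; exact mul_mem h1 h2
    refine eq_top_iff.2 fun x _ => ?_
    obtain ⟨f, hf, rfl⟩ := res_surj ξ x
    obtain ⟨a, ha, b, hb, hb', rfl⟩ := h4 f hf
    by_cases b0 : b = 0
    · rw [b0, div_zero, res_zero]; exact zero_mem _
    · rw [res_div (h3 ha) ⟨b0, h3 hb, hb'⟩]; exact div_mem (key a ha) (key b hb)

theorem Cfg.isFF_of_trdeg (h : Cfg P σ) (hξ : ξ ∈ blP P σ) (h1 : Algebra.trdeg ℂ (RF ξ) = 1) :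
    IsFF ℂ (RF ξ) := by
  obtain ⟨S, hS, -, -, h4⟩ := h.rf_gens hξ
  exact isFF_of_gens (hS.image _) h4 h1

theorem Quot_aux_alg (h : Cfg P σ) (hξ : ξ ∈ blP P σ) [Algebra (RF (qpt (KK σ) ξ)) (RF ξ)]
    [IsScalarTower ℂ (RF (qpt (KK σ) ξ)) (RF ξ)]
    (hι : ∀ f : KK σ, algebraMap _ (RF ξ) (res (qpt (KK σ) ξ) f) = res ξ (f : L)) :
    Algebra.IsAlgebraic (RF (qpt (KK σ) ξ)) (RF ξ) := by
  obtain ⟨S, -, h2, h3, h4⟩ := h.rf_gens hξ
  have : IntermediateField.adjoin ℂ (res ξ '' S) ≤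
      (algebraicClosure (RF (qpt (KK σ) ξ)) (RF ξ)).restrictScalars ℂ := by
    rw [IntermediateField.adjoin_le_iff]
    rintro _ ⟨g, hg, rfl⟩
    refine mem_algebraicClosure_iff.2 (IsAlgebraic.of_pow (n := 3) (by norm_num) ?_)
    rw [← res_pow (h2 hg), ← coe_toK (h3 g hg), ← hι]
    exact isAlgebraic_algebraMap _
  exact ⟨fun x => mem_algebraicClosure_iff.1 (this (h4 ▸ IntermediateField.mem_top))⟩

theorem Cfg.curve_iff (h : Cfg P σ) (hξ : ξ ∈ blP P σ) :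
    Algebra.trdeg ℂ (RF (qpt (KK σ) ξ)) = 1 ↔ IsFF ℂ (RF ξ) := by
  obtain ⟨ι, hι⟩ := exists_resHom (KK σ) ξ
  let : Algebra (RF (qpt (KK σ) ξ)) (RF ξ) := ι.toRingHom.toAlgebra
  have : IsScalarTower ℂ (RF (qpt (KK σ) ξ)) (RF ξ) :=
    IsScalarTower.of_algebraMap_eq fun c => (ι.commutes c).symm
  have := Quot_aux_alg h hξ hι
  have e := trdeg_add_eq ℂ (RF (qpt (KK σ) ξ)) (A := RF ξ)
  rw [trdeg_eq_zero (A := RF ξ), add_zero] at e
  rw [e]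
  exact ⟨h.isFF_of_trdeg hξ, IsFF.trdeg⟩

theorem Quot_aux_branch {ι : RF (qpt (KK σ) ξ) →ₐ[ℂ] RF ξ}
    (hι : ∀ f : KK σ, ι (res (qpt (KK σ) ξ) f) = res ξ (f : L)) {O : Pt L}
    {V : Pl ℂ (RF (qpt (KK σ) ξ))} {V' : ValuationSubring (RF ξ)}
    (hV : ∀ f, ι f ∈ V' ↔ f ∈ V.1) (hO : (O, V') ∈ branch (blP P σ) ξ) :
    (qpt (KK σ) O, V.1) ∈ branch (XP P σ) (qpt (KK σ) ξ) := by
  obtain ⟨h1, h2, -, h4, h5⟩ := hO
  refine ⟨mem_XP.2 ⟨O, h1, rfl⟩, fun f hf => h2 hf, V.2.1, fun g hg => ?_, fun g hg => ?_⟩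
  · exact (hV _).1 (by rw [hι]; exact h4 _ hg)
  · have := h5 _ (mem_mx_qpt.1 hg)
    rw [← hι, ValuationSubring.mem_nonunits_iff_or, ← map_inv₀, hV, map_eq_zero] at this
    exact (ValuationSubring.mem_nonunits_iff_or _).2 this

theorem Cfg.X_proper (h : Cfg P σ) : Proper (XP P σ) := by
  intro η hη V
  obtain ⟨ξ, hξ, rfl⟩ := mem_XP.1 hη
  obtain ⟨ι, hι⟩ := exists_resHom (KK σ) ξ
  let : Algebra (RF (qpt (KK σ) ξ)) (RF ξ) := ι.toRingHom.toAlgebra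
  have : IsScalarTower ℂ (RF (qpt (KK σ) ξ)) (RF ξ) :=
    IsScalarTower.of_algebraMap_eq fun c => (ι.commutes c).symm
  obtain ⟨V', hV⟩ := exists_over (M' := RF ξ) V
  obtain ⟨O, hO⟩ := h.bl_proper ξ hξ V'
  exact ⟨_, Quot_aux_branch hι hV hO⟩

/-- The centre of a place upstairs maps to the centre of its restriction; apply `finsum_ext` with
`n` the degree of the residue field extension. -/
theorem Cfg.deg_pull (h : Cfg P σ) (hξ : ξ ∈ blP P σ) (hF : IsFF ℂ (RF ξ)) :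
    ∃ n : ℕ, 0 < n ∧ ∀ f, IsCartier (XP P σ) f →
      deg (blP P σ) (pull σ f) ξ = n * deg (XP P σ) f (qpt (KK σ) ξ) := by
  obtain ⟨ι, hι⟩ := exists_resHom (KK σ) ξ
  let : Algebra (RF (qpt (KK σ) ξ)) (RF ξ) := ι.toRingHom.toAlgebra
  have : IsScalarTower ℂ (RF (qpt (KK σ) ξ)) (RF ξ) :=
    IsScalarTower.of_algebraMap_eq fun c => (ι.commutes c).symm
  have := Quot_aux_alg h hξ hι
  have h1 := (h.curve_iff hξ).2 hF
  have : Algebra.Transcendental ℂ (RF (qpt (KK σ) ξ)) :=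
    trdeg_ne_zero_iff.1 (by rw [h1]; exact one_ne_zero)
  obtain ⟨t, ht⟩ := (Algebra.transcendental_def (R := ℂ) (A := RF (qpt (KK σ) ξ))).1 this
  have hF' : IsFF ℂ (RF (qpt (KK σ) ξ)) := hF.of_algHom ι ht
  have := hF'.finite_tower hF
  choose u hu using fun V' : Pl ℂ (RF ξ) => exists_under (M := RF (qpt (KK σ) ξ)) V'
  refine ⟨Module.finrank (RF (qpt (KK σ) ξ)) (RF ξ), Module.finrank_pos, fun f _ => ?_⟩
  rw [deg_eq_finsum h.bl_sep h.bl_proper hξ,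
    deg_eq_finsum h.X_sep h.X_proper (mem_XP.2 ⟨ξ, hξ, rfl⟩)]
  refine Eq.trans (finsum_congr fun V' => ?_) (finsum_ext hF' hF u hu fun V =>
    res (qpt (KK σ) ξ) ((f (cen (XP P σ) (qpt (KK σ) ξ) V) / f (qpt (KK σ) ξ) : (KK σ)ˣ) : KK σ)).2
  rw [cen_eq h.X_sep (Quot_aux_branch hι (hu V') (cen_spec h.bl_proper hξ V'))]
  refine congrArg (ord V'.1) (Eq.trans ?_ (hι _).symm)
  simp [pull]

end Pool.Agent.MP_95da86_ag
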