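import Pool.Agent.MP_95da86_ag.Deg

/-! The quotient map. -/

namespace Pool.Agent.MP_95da86_ag

variable {L : Type} [Field L] [Algebra ℂ L] {P : Fin 3 → EP L} {σ : L ≃ₐ[ℂ] L} {ξ : Pt L}

theorem qpt_sigma (O : Pt L) : qpt (KK σ) (mapPt σ O) = qpt (KK σ) O := by
  refine Subtype.ext (Subalgebra.ext fun f => ?_)
  have e : σ.symm (f : L) = f := by
    rw [AlgEquiv.symm_apply_eq]
    exact (mem_KK.1 f.2).symm
  rw [mem_qpt, mem_qpt, mem_mapPt, e]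

theorem QuotA_aux_avoid {R : Type} [CommRing R] (τ : R →+* R) (h3 : ∀ a, τ (τ (τ a)) = a)
    {p q : Ideal R} (hp : p.IsPrime) (h : ∀ a, τ a = a → a ∈ q → a ∈ p) :
    ∃ k : ℕ, ∀ a ∈ q, τ^[k] a ∈ p := by
  have key : (q : Set R) ⊆ ⋃ i ∈ (↑(Finset.range 3) : Set ℕ), (p.comap (τ ^ i) : Set R) := by
    intro a ha
    have hN : a * τ a * τ (τ a) ∈ p := by
      refine h _ ?_ (Ideal.mul_mem_right _ _ (Ideal.mul_mem_right _ _ ha))
      rw [map_mul, map_mul, h3]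
      ring
    simp only [Set.mem_iUnion, SetLike.mem_coe, Ideal.mem_comap, RingHom.coe_pow]
    rcases hp.mem_or_mem hN with h₁ | h₁
    · rcases hp.mem_or_mem h₁ with h₂ | h₂
      · exact ⟨0, by simp, h₂⟩
      · exact ⟨1, by simp, h₂⟩
    · exact ⟨2, by simp, h₁⟩
  obtain ⟨k, -, hk⟩ := (Ideal.subset_union_prime (f := fun i => p.comap (τ ^ i)) 0 0
    fun i _ _ _ => Ideal.comap_isPrime _ _).1 key
  refine ⟨k, fun a ha => ?_⟩
  have := hk ha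
  rwa [Ideal.mem_comap, RingHom.coe_pow] at this

theorem QuotA_aux_conj {R : Type} [CommRing R] (τ : R →+* R) (h3 : ∀ a, τ (τ (τ a)) = a)
    {p q : Ideal R} (hp : p.IsPrime) (hq : q.IsPrime) (h : ∀ a, τ a = a → (a ∈ q ↔ a ∈ p)) :
    ∃ k : ℕ, ∀ a, a ∈ q ↔ τ^[k] a ∈ p := by
  obtain ⟨k, hk⟩ := QuotA_aux_avoid τ h3 hp fun a e => (h a e).1
  obtain ⟨j, hj⟩ := QuotA_aux_avoid τ h3 hq fun a e => (h a e).2
  have h₁ : ∀ a ∈ q, τ^[j + k] a ∈ q := fun a ha => by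
    rw [Function.iterate_add_apply]
    exact hj _ (hk a ha)
  have h₂ : ∀ (m : ℕ) a, τ^[m] (τ^[m] (τ^[m] a)) = a := fun m a => by
    have e : τ^[3] = id := funext h3
    rw [← Function.iterate_add_apply, ← Function.iterate_add_apply,
      show m + m + m = 3 * m by ring, Function.iterate_mul, e, Function.iterate_id, id]
  refine ⟨k, fun a => ⟨hk a, fun ha => ?_⟩⟩
  have h₃ : τ^[j + k] a ∈ q := by
    rw [Function.iterate_add_apply]
    exact hj _ ha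
  exact h₂ (j + k) a ▸ h₁ _ (h₁ _ h₃)

theorem QuotA_aux_iter (h : Cfg P σ) {O : Pt L} (hO : O ∈ blP P σ) {A : Subalgebra ℂ L}
    (hA : ∀ a ∈ A, σ a ∈ A) (hA' : ∀ a ∈ A, σ.symm a ∈ A) (hs : O ∈ spec A) (k : ℕ) :
    ∃ O' ∈ blP P σ, qpt (KK σ) O' = qpt (KK σ) O ∧ O' ∈ spec A ∧
      ∀ f, f ∈ mx O' ↔ σ^[k] f ∈ mx O := by
  induction k with
  | zero => exact ⟨O, hO, rfl, hs, fun _ => Iff.rfl⟩
  | succ k ih =>
    obtain ⟨O', h₁, h₂, h₃, h₄⟩ := ih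
    have e : A.map (σ.symm : L →ₐ[ℂ] L) = A := by
      refine le_antisymm ?_ fun a ha => ⟨σ a, hA a ha, by simp⟩
      rintro _ ⟨a, ha, rfl⟩
      exact hA' a ha
    refine ⟨mapPt σ.symm O', h.bl_sigma.1 (by rwa [mapPt_mapPt_symm]), ?_,
      e ▸ spec_mapPt σ.symm h₃, fun f => ?_⟩
    · rw [← qpt_sigma, mapPt_mapPt_symm, h₂]
    · rw [mem_mx_mapPt, AlgEquiv.symm_symm, h₄, Function.iterate_succ_apply]

theorem QuotA_aux_dom {A : Subalgebra ℂ L} {O W : Pt L} (hs : O ∈ spec A) (hW : A ≤ W.1)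
    (h : ∀ a ∈ A, (a ∈ mx W ↔ a ∈ mx O)) : Dom O W := by
  obtain ⟨C, hC, hd⟩ := exists_centre A W hW
  have k : ∀ a ∈ A, (a ∈ mx C ↔ a ∈ mx O) := fun a ha =>
    Iff.trans ⟨fun e => hd.2 e, mx_of_le hd.1 (hC.1 ha)⟩ (h a ha)
  have le : ∀ {X Y : Pt L}, X ∈ spec A → Y ∈ spec A → (∀ a ∈ A, a ∈ mx Y → a ∈ mx X) →
      X.1 ≤ Y.1 := by
    intro X Y hX hY H f hf
    obtain ⟨a, ha, b, hb, hb', rfl⟩ := hX.2 f hf
    by_cases h0 : b = 0
    · simp [h0]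
    · rw [div_eq_mul_inv]
      exact mul_mem (hY.1 ha) (isU_of_not_mx (hY.1 hb) fun e =>
        IsU.not_mx ⟨h0, hX.1 hb, hb'⟩ (H b hb e)).2.2
  have e : O = C := Subtype.ext (le_antisymm (le hs hC fun a ha => (k a ha).1)
    (le hC hs fun a ha => (k a ha).2))
  exact e ▸ hd

/-- If a valuation ring `V` of `L` dominates `O ∩ K`, it dominates a conjugate of `O`: with `S` from
`bl_fin`, `A = ℂ[S]` is `σ`-stable and lies in `V` (cubes of the generators are in `O ∩ K`); the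
primes `mx O ∩ A` and `mx V ∩ A` agree on `K`, so they are conjugate (norm `a * σ a * σ σ a`, prime
avoidance). -/
theorem Cfg.exists_conj (h : Cfg P σ) {O : Pt L} (hO : O ∈ blP P σ) (V : ValuationSubring L) (hV)
    (hd : Dom (qpt (KK σ) O) (qpt (KK σ) (vpt V hV))) :
    ∃ O' ∈ blP P σ, qpt (KK σ) O' = qpt (KK σ) O ∧ Dom O' (vpt V hV) := by
  obtain ⟨S, -, hS, hs⟩ := h.bl_fin hO
  have h3 : ∀ a, σ (σ (σ a)) = a := fun a => by
    have := congrArg (fun g : L ≃ₐ[ℂ] L => g a) h.pow_three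
    simpa [pow_succ] using this
  have hA : ∀ a ∈ Algebra.adjoin ℂ S, σ a ∈ Algebra.adjoin ℂ S := by
    have : Algebra.adjoin ℂ S ≤ (Algebra.adjoin ℂ S).comap (σ : L →ₐ[ℂ] L) := by
      refine Algebra.adjoin_le fun g hg => ?_
      change σ g ∈ Algebra.adjoin ℂ S
      rcases hS g hg with e | e <;> rw [e]
      · exact Algebra.subset_adjoin hg
      · exact mul_mem (Subalgebra.algebraMap_mem _ _) (Algebra.subset_adjoin hg)
    exact fun a ha => this ha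
  have hA' : ∀ a ∈ Algebra.adjoin ℂ S, σ.symm a ∈ Algebra.adjoin ℂ S := fun a ha => by
    have e : σ.symm a = σ (σ a) := by rw [AlgEquiv.symm_apply_eq, h3]
    exact e ▸ hA _ (hA a ha)
  have hW : Algebra.adjoin ℂ S ≤ (vpt V hV).1 := by
    refine Algebra.adjoin_le fun g hg => ?_
    have e : σ (g ^ 3) = g ^ 3 := by
      rw [map_pow]
      rcases hS g hg with e | e <;> rw [e]
      rw [mul_pow, zt_pow, one_mul]
    have h₁ : g ^ 3 ∈ V := hd.1 (show (⟨g ^ 3, mem_KK.2 e⟩ : KK σ) ∈ (qpt (KK σ) O).1 from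
      pow_mem (hs.1 (Algebra.subset_adjoin hg)) 3)
    change g ∈ V
    rcases V.mem_or_inv_mem g with h₂ | h₂
    · exact h₂
    · by_cases h0 : g = 0
      · simp [h0]
      · have e' : g = g ^ 3 * (g⁻¹ * g⁻¹) := by field_simp
        exact e' ▸ mul_mem h₁ (mul_mem h₂ h₂)
  let τ : Algebra.adjoin ℂ S →+* Algebra.adjoin ℂ S := (σ : L →+* L).restrict _ _ hA
  have hτ : ∀ a, ((τ a : Algebra.adjoin ℂ S) : L) = σ a := fun _ => rfl
  have hτ' : ∀ (k : ℕ) a, ((τ^[k] a : Algebra.adjoin ℂ S) : L) = σ^[k] a := fun k => by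
    induction k with
    | zero => exact fun _ => rfl
    | succ k ih => exact fun a => by rw [Function.iterate_succ_apply, ih, hτ]; rfl
  have mem : ∀ (X : Pt L) (hX : Algebra.adjoin ℂ S ≤ X.1) (a : Algebra.adjoin ℂ S),
      a ∈ (IsLocalRing.maximalIdeal X.1).comap (Subalgebra.inclusion hX) ↔ (a : L) ∈ mx X :=
    fun X hX a => by rw [Ideal.mem_comap, ← coe_mem_mx, Subalgebra.coe_inclusion]
  obtain ⟨k, hk⟩ := QuotA_aux_conj τ (fun a => Subtype.ext (h3 a))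
    (p := (IsLocalRing.maximalIdeal O.1).comap (Subalgebra.inclusion hs.1))
    (q := (IsLocalRing.maximalIdeal (vpt V hV).1).comap (Subalgebra.inclusion hW))
    (Ideal.comap_isPrime _ _) (Ideal.comap_isPrime _ _) fun a e => by
      have e' : (a : L) ∈ KK σ := mem_KK.2 (congrArg Subtype.val e)
      rw [mem, mem, ← mem_mx_qpt (F := KK σ) (f := ⟨a, e'⟩), ← mem_mx_qpt (F := KK σ) (f := ⟨a, e'⟩)]
      exact ⟨mx_of_le hd.1 (hs.1 a.2), fun e => hd.2 e⟩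
  obtain ⟨O', h₁, h₂, h₃, h₄⟩ := QuotA_aux_iter h hO hA hA' hs k
  refine ⟨O', h₁, h₂, QuotA_aux_dom h₃ hW fun a ha => ?_⟩
  have := hk ⟨a, ha⟩
  rw [mem, mem, hτ'] at this
  rw [h₄]
  exact this

theorem QuotA_aux_val (F : IntermediateField ℂ L) (W : Pt F) :
    ∃ (V : ValuationSubring L) (hV : _), Dom W (qpt F (vpt V hV)) := by
  let W' : Pt L := ⟨W.1.map F.val, isLocal_of _ (by
    rintro _ ⟨f, hf, rfl⟩
    rcases mx_or_isU (O := W) hf with h | h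
    · have := (isU_one W).add_mx (mx_neg h)
      rw [← sub_eq_add_neg] at this
      refine Or.inr ⟨fun h0 => this.1 (Subtype.ext h0), ⟨_, this.2.2, rfl⟩⟩
    · exact Or.inl ⟨fun h0 => h.1 (Subtype.ext h0), ⟨_, h.2.2, rfl⟩⟩)⟩
  obtain ⟨V, hV, hd⟩ := exists_val_dom W'
  refine ⟨V, hV, fun f hf => hd.1 ⟨f, hf, rfl⟩, fun f hf => mem_mx_qpt.2 (hd.2 ?_)⟩
  obtain ⟨h₁, h₂⟩ := mem_mx.1 hf
  refine mem_mx.2 ⟨⟨f, h₁, rfl⟩, fun hu => h₂ ⟨fun h0 => hu.1 (by simp [h0]), h₁, ?_⟩⟩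
  obtain ⟨g, hg, e⟩ := hu.2.2
  have e' : g = f⁻¹ := Subtype.ext e
  exact e' ▸ hg

theorem Cfg.X_sep (h : Cfg P σ) : Sep (XP P σ) := by
  intro X hX Y hY W h₁ h₂
  obtain ⟨O, hO, rfl⟩ := mem_XP.1 hX
  obtain ⟨O', hO', rfl⟩ := mem_XP.1 hY
  obtain ⟨V, hV, hd⟩ := QuotA_aux_val (KK σ) W
  obtain ⟨A, a₁, a₂, a₃⟩ := h.exists_conj hO V hV (h₁.trans hd)
  obtain ⟨B, b₁, b₂, b₃⟩ := h.exists_conj hO' V hV (h₂.trans hd)
  rw [← a₂, ← b₂, h.bl_sep A a₁ B b₁ _ a₃ b₃]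

end Pool.Agent.MP_95da86_ag
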