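import Pool.Agent.MP_95da86_ag.TestsB

/-! The test curves. -/

namespace Pool.Agent.MP_95da86_ag

variable {L : Type} [Field L] [Algebra ℂ L] {P : Fin 3 → EP L} {σ : L ≃ₐ[ℂ] L}

/-- The generators of the chart. -/
private def cx (P : Fin 3 → EP L) (i : Fin 3) : chartA P :=
  ⟨xc (P i), Algebra.subset_adjoin (Or.inl ⟨i, rfl⟩)⟩

private def cy (P : Fin 3 → EP L) (i : Fin 3) : chartA P :=
  ⟨yc (P i), Algebra.subset_adjoin (Or.inr ⟨i, rfl⟩)⟩

private lemma Tests_aux_eqn (hP : Gen3 P) {A : Type} [CommRing A] [Algebra ℂ A]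
    (ψ : chartA P →ₐ[ℂ] A) (i : Fin 3) : ψ (cy P i) ^ 2 = ψ (cx P i) ^ 3 + 1 := by
  have e : cy P i ^ 2 = cx P i ^ 3 + 1 := Subtype.ext (eqn_of_ne (hP.ne i))
  rw [← map_pow, e, map_add, map_pow, map_one]

private lemma Tests_aux_xc_tors {M : Type} [Field M] [Algebra ℂ M] (τ : ZMod 3) :
    xc (tors M τ) = 0 := by
  have : τ = 0 ∨ τ = 1 ∨ τ = 2 := by revert τ; decide
  rcases this with rfl | rfl | rfl
  · simp
  · rw [tors_one]; rfl
  · rw [tors_two, xc_neg]; rfl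

/-- A curve `E × {c₁} × {c₂}` in the affine chart on which `b` does not vanish. -/
private lemma Tests_aux_curve (hP : Gen3 P) (b : chartA P) (hb : b ≠ 0) :
    ∃ O ∈ spec (chartA P), ∃ c₁ c₂ : EP ℂ, IsU O b ∧ xc c₁ ≠ 0 ∧ IsFF ℂ (RF O) ∧
      Transcendental ℂ (xc (red O (P 0))) ∧ red O (P 1) = cst _ c₁ ∧ red O (P 2) = cst _ c₂ := by
  have hx1 : cx P 1 ≠ 0 := fun h => hP.xc_ne 1 (congrArg Subtype.val h)
  obtain ⟨ψ₀, h0⟩ := hP.exists_ev_ne (b * cx P 1) (mul_ne_zero hb hx1)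
  rw [map_mul] at h0
  obtain ⟨T⟩ := hP.tower
  let c₀ : Fin 3 → EP ℂ := fun i => pt (ψ₀ (cx P i)) (ψ₀ (cy P i)) (Tests_aux_eqn hP ψ₀ i)
  let c : Fin 3 → EP T.F1 := ![T.P1, cst _ (c₀ 1), cst _ (c₀ 2)]
  have hcst : ∀ i, cst T.F1 (c₀ i) ≠ 0 := fun i h =>
    pt_ne_zero _ _ _ ((emap_eq_zero _).1 h)
  have hc : ∀ i, c i ≠ 0 := by
    intro i
    fin_cases i
    · exact T.g1.ne
    · exact hcst 1
    · exact hcst 2
  obtain ⟨ψ, hψ⟩ := hP.exists_ev c hc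
  obtain ⟨ev, hev1, hev2⟩ := T.g1.exists_ev (ψ₀ (cx P 0)) (ψ₀ (cy P 0)) (Tests_aux_eqn hP ψ₀ 0)
  have hconst : ∀ z : ℂ, ∃ h : algebraMap ℂ T.F1 z ∈ crd ℂ T.P1, ev ⟨_, h⟩ = z := fun z =>
    ⟨Subalgebra.algebraMap_mem _ z, ev.commutes z⟩
  have key : ∀ (a : L) (ha : a ∈ chartA P), ∃ h : ψ ⟨a, ha⟩ ∈ crd ℂ T.P1,
      ev ⟨_, h⟩ = ψ₀ ⟨a, ha⟩ := by
    intro a ha
    induction ha using Algebra.adjoin_induction with
    | mem a ha =>
      rcases ha with ⟨i, rfl⟩ | ⟨i, rfl⟩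
      · have e : ψ (cx P i) = xc (c i) := (hψ i).1
        change ∃ h : ψ (cx P i) ∈ _, ev ⟨ψ (cx P i), h⟩ = ψ₀ (cx P i)
        rw [e]
        fin_cases i
        · exact ⟨_, hev1⟩
        · exact hconst _
        · exact hconst _
      · have e : ψ (cy P i) = yc (c i) := (hψ i).2
        change ∃ h : ψ (cy P i) ∈ _, ev ⟨ψ (cy P i), h⟩ = ψ₀ (cy P i)
        rw [e]
        fin_cases i
        · exact ⟨_, hev2⟩
        · exact hconst _
        · exact hconst _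
    | algebraMap z =>
      have e : ψ (algebraMap ℂ _ z) = algebraMap ℂ _ z := ψ.commutes z
      have e' : ψ₀ (algebraMap ℂ _ z) = z := ψ₀.commutes z
      change ∃ h : ψ (algebraMap ℂ _ z) ∈ _, ev ⟨ψ (algebraMap ℂ _ z), h⟩ = ψ₀ (algebraMap ℂ _ z)
      rw [e, e']
      exact hconst z
    | add u v hu hv ihu ihv =>
      obtain ⟨h1, e1⟩ := ihu
      obtain ⟨h2, e2⟩ := ihv
      change ∃ h : ψ (⟨u, hu⟩ + ⟨v, hv⟩) ∈ _, ev ⟨ψ (⟨u, hu⟩ + ⟨v, hv⟩), h⟩ = ψ₀ (⟨u, hu⟩ + ⟨v, hv⟩)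
      rw [map_add ψ, map_add ψ₀, ← e1, ← e2, ← map_add ev]
      exact ⟨add_mem h1 h2, rfl⟩
    | mul u v hu hv ihu ihv =>
      obtain ⟨h1, e1⟩ := ihu
      obtain ⟨h2, e2⟩ := ihv
      change ∃ h : ψ (⟨u, hu⟩ * ⟨v, hv⟩) ∈ _, ev ⟨ψ (⟨u, hu⟩ * ⟨v, hv⟩), h⟩ = ψ₀ (⟨u, hu⟩ * ⟨v, hv⟩)
      rw [map_mul ψ, map_mul ψ₀, ← e1, ← e2, ← map_mul ev]
      exact ⟨mul_mem h1 h2, rfl⟩
  have hψb : ψ b ≠ 0 := by
    intro h
    obtain ⟨h1, e1⟩ := key b.1 b.2
    apply left_ne_zero_of_mul h0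
    rw [← e1]
    have : (⟨ψ ⟨b.1, b.2⟩, h1⟩ : crd ℂ T.P1) = 0 := Subtype.ext h
    rw [this, map_zero]
  obtain ⟨O, hO, φ, hφ⟩ := hP.exists_pt_ev ψ
  have hxO : ∀ i, xc (P i) ∈ O.1 := fun i => hO.1 (cx P i).2
  have hyO : ∀ i, yc (P i) ∈ O.1 := fun i => hO.1 (cy P i).2
  have hI : ∀ i, Intg O (P i) := fun i => Or.inl ⟨hxO i, hyO i⟩
  have hred : ∀ i, emap φ (red O (P i)) = c i := by
    intro i
    refine EP.ext' ?_ (hc i) ?_ ?_
    · rw [Ne, emap_eq_zero, red_eq_zero (hI i)]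
      rintro (h | h)
      · exact hP.ne i h
      · exact h (hyO i)
    · rw [xc_emap, xc_red (hI i) (hyO i), ← (hψ i).1]
      exact hφ (cx P i)
    · rw [yc_emap, yc_red (hI i) (hyO i), ← (hψ i).2]
      exact hφ (cy P i)
  have htr : Transcendental ℂ (xc (red O (P 0))) := by
    have h1 : φ (xc (red O (P 0))) = xc T.P1 := by rw [← xc_emap, hred 0]; rfl
    intro h
    apply T.g1.tr
    rw [← h1]
    exact h.algHom φ
  refine ⟨O, hO, c₀ 1, c₀ 2, ?_, right_ne_zero_of_mul h0, IsFF.of_algHom T.g1.isFF φ htr, htr,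
    ?_, ?_⟩
  · refine isU_of_not_mx (hO.1 b.2) fun hm => hψb ?_
    rw [← hφ b, (res_eq_zero (hO.1 b.2)).2 hm, map_zero]
  · apply emap_injective φ
    rw [hred 1, emap_cst]; rfl
  · apply emap_injective φ
    rw [hred 2, emap_cst]; rfl

/-- A common denominator. -/
private lemma Tests_aux_den (hP : Gen3 P) (S : Finset L) : ∃ b : chartA P, b ≠ 0 ∧
    ∀ s ∈ S, s * b ∈ chartA P := by
  classical
  induction S using Finset.induction_on with
  | empty => exact ⟨1, one_ne_zero, by simp⟩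
  | insert s S _ ih =>
    obtain ⟨b, hb, hS⟩ := ih
    obtain ⟨a, ha, b', hb', h0, rfl⟩ := hP.frac s
    have h0' : (⟨b', hb'⟩ : chartA P) ≠ 0 := fun h => h0 (congrArg Subtype.val h)
    refine ⟨b * ⟨b', hb'⟩, mul_ne_zero hb h0', fun t ht => ?_⟩
    rcases Finset.mem_insert.1 ht with rfl | ht
    · have : a / b' * ((b * ⟨b', hb'⟩ : chartA P) : L) = a * b := by
        change a / b' * ((b : L) * b') = a * b
        field_simp
      rw [this]
      exact mul_mem ha b.2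
    · have : t * ((b * ⟨b', hb'⟩ : chartA P) : L) = t * b * b' := by
        change t * ((b : L) * b') = t * b * b'
        ring
      rw [this]
      exact mul_mem (hS t ht) hb'

/-- The exceptional planes do not meet such a curve. -/
private lemma Tests_aux_m (h : Cfg P σ) {ξ : Pt L} (hξ : ξ ∈ blP P σ) (hF : IsFF ℂ (RF ξ))
    {c₁ : EP ℂ} (hc : xc c₁ ≠ 0) (h1 : red ξ (P 1) = cst _ c₁) (p : F3) :
    deg (blP P σ) (pull σ (eX P σ p)) ξ = 0 := by
  have hI : ∀ O ∈ blP P σ, Intg O (sh P p 1) := fun O hO =>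
    (h.bl_intg hO 1).sub (intg_tors _)
  have hr : red ξ (sh P p 1) = cst _ (c₁ - tors ℂ (p 1)) := by
    rw [sh, red_sub (h.bl_intg hξ 1) (intg_tors _), h1, red_tors, map_sub, cst_tors]
  have hy : yc (sh P p 1) ∈ ξ.1 := by
    by_contra hy
    have h0 := (red_eq_zero (hI ξ hξ)).2 (Or.inr hy)
    rw [hr, cst, emap_eq_zero, sub_eq_zero] at h0
    exact hc (by rw [h0, Tests_aux_xc_tors])
  rw [deg_eq_finsum h.bl_sep h.bl_proper hξ]
  refine finsum_eq_zero_of_forall_eq_zero fun V => ?_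
  have hb := cen_spec h.bl_proper hξ V
  have hy' : yc (sh P p 1) ∈ (cen (blP P σ) ξ V).1 := by
    refine ((hI _ hb.1).yc_mem_branch hb.2.1 V.1 hb.2.2.2.1 hb.2.2.2.2 hy).2 ?_
    rw [← yc_red (hI ξ hξ) hy, hr, cst, yc_emap]
    exact V.2.2 _
  have := charZero_of ℂ
  have := hF.dvr V
  rw [term, h.pull_eX_not fun ho => ho 1 hy', h.pull_eX_not fun ho => ho 1 hy]
  simp only [div_one, Units.val_one, res_one, ord_one]

/-- Let `S` be the neighbourhood of the generic point for the pulled-back divisor. Write the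
elements of `S`, `f top` and its inverse as fractions over the affine chart, let `b` be the
product of the denominators and of `x 1`, and choose a complex point with `b ≠ 0`
(`exists_ev_ne`). On the curve `E × {c₁} × {c₂}` through it (`exists_ev`, `exists_pt_ev`; `b` does
not vanish on it because the evaluation at the point factors through `F1`'s coordinate ring) the
equation is a unit. -/
theorem Cfg.test3 (h : Cfg P σ) : ∀ d ∈ effClasses (XP P σ), ∃ c : Curve (XP P σ), ∃ κ : ℝ, 0 < κ ∧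
    (∀ l, qX P σ c l = κ * nm (l 0)) ∧ (∀ p, mX P σ c p = 0) ∧ 0 ≤ d c := by
  classical
  rintro d ⟨f, hf, he, hd⟩
  have hg : IsCartier (blP P σ) (pull σ f) := hf.to_pull
  have hge : ∀ O ∈ blP P σ, (pull σ f O : L) ∈ O.1 := fun O hO => by
    rw [coe_pull]
    exact mem_qpt.1 (he _ (mem_XP.2 ⟨O, hO, rfl⟩))
  obtain ⟨S, -, hS⟩ := isCartier_iff.1 hg _ h.top_mem
  set u : Lˣ := pull σ f (topPt L) with hu
  obtain ⟨b, hb, hbS⟩ := Tests_aux_den h.gen (insert (u : L) (insert (u : L)⁻¹ S))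
  obtain ⟨ξ, hξA, c₁, c₂, hbu, hc₁, hF, htr, h1, h2⟩ := Tests_aux_curve h.gen b hb
  have hmem : ∀ s ∈ insert (u : L) (insert (u : L)⁻¹ S), s ∈ ξ.1 := fun s hs => by
    have e : s = s * b * (b : L)⁻¹ := by rw [mul_inv_cancel_right₀ hbu.1]
    rw [e]
    exact mul_mem (hξA.1 (hbS s hs)) hbu.2.2
  have hξc : ξ ∈ cubeP P := spec_chartA_sub P hξA
  have hI : ∀ i, Intg ξ (P i) := cube_intg hξc
  have hξ : ξ ∈ blP P σ := by
    refine h.bl_iff.2 (Or.inl ⟨hξc, fun p hp => hc₁ ?_⟩)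
    have e := (over_iff_red h.gen hI p).1 hp 1
    rw [h1, ← cst_tors] at e
    rw [emap_injective _ e, Tests_aux_xc_tors]
  have huu : IsU ξ (u : L) := ⟨u.ne_zero, hmem _ (by simp), hmem _ (by simp)⟩
  have hunit : IsU ξ (pull σ f ξ : L) := by
    have := (hS ξ hξ fun s hs => hmem s (by simp [Finset.mem_coe.1 hs])).mul huu
    rwa [← Units.val_mul, div_mul_cancel] at this
  let η : Curve (XP P σ) := ⟨qpt (KK σ) ξ, mem_XP.2 ⟨ξ, hξ, rfl⟩, (h.curve_iff hξ).2 hF⟩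
  obtain ⟨-, n, hn, hdeg, hq, hm⟩ := h.lift_data η hξ rfl
  have hn' : (0 : ℝ) < n := by exact_mod_cast hn
  have hpos : 0 < ht ℂ (red ξ (P 0)) := by
    refine lt_of_le_of_ne (ht_nonneg _) fun h0 => htr ?_
    obtain ⟨c, hc⟩ := (ht_eq_zero hF _).1 h0.symm
    rw [hc, up, xc_emap]
    exact isAlgebraic_algebraMap _
  refine ⟨η, ht ℂ (red ξ (P 0)) / n, div_pos (by exact_mod_cast hpos) hn', fun l => ?_,
    fun p => ?_, ?_⟩
  · have e : (lin l fun i => red ξ (P i)) =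
        l 0 • red ξ (P 0) + up ℂ _ (l 1 • c₁ + l 2 • c₂) := by
      rw [lin, Fin.sum_univ_three, up_eq_cst, map_add, map_smul, map_smul, h1, h2, add_assoc]
    have := hq l
    rw [e, ht_add_up hF, ht_smul hF] at this
    push_cast at this
    field_simp
    linear_combination this
  · have := hm p
    rw [Tests_aux_m h hξ hF hc₁ h1 p] at this
    simpa [hn'.ne'] using this
  · have h0 := deg_nonneg h.bl_sep h.bl_proper hξ hF hg (h.finT hξ hF hg) hge hunit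
    rw [hdeg f hf] at h0
    rw [hd]
    have hn'' : (0 : ℤ) < n := by exact_mod_cast hn
    exact_mod_cast (mul_nonneg_iff_of_pos_left hn'').1 h0

end Pool.Agent.MP_95da86_ag
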