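import Pool.Agent.MP_95da86_ag.CAx

/-! The test curves. -/

namespace Pool.Agent.MP_95da86_ag

variable {L : Type} [Field L] [Algebra ℂ L] {P : Fin 3 → EP L} {σ : L ≃ₐ[ℂ] L}

theorem TestsA_aux_alg {M : Type} [Field M] [Algebra ℂ M] (c : EP ℂ) :
    IsAlgebraic ℂ (xc (cst M c)) := by
  rw [cst, xc_emap]
  exact isAlgebraic_algebraMap (xc c)

/-- The curve `E × {c₁} × {c₂}`: `exists_pt` with `N = F1` and the point `(P1, c₁, c₂)`. -/
theorem Cfg.exists_fibre (h : Cfg P σ) (c₁ c₂ : EP ℂ) : ∃ ξ ∈ blP P σ, IsFF ℂ (RF ξ) ∧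
    (∀ p, ¬ Over ξ P p) ∧ 0 < ht ℂ (red ξ (P 0)) ∧ red ξ (P 1) = cst _ c₁ ∧ red ξ (P 2) = cst _ c₂ := by
  obtain ⟨T⟩ := h.gen.tower
  obtain ⟨O, hO, φ, hφ⟩ := h.gen.exists_pt (N := T.F1) ![T.P1, cst _ c₁, cst _ c₂]
  have h0 : emap φ (red O (P 0)) = T.P1 := hφ 0
  have h1 : emap φ (red O (P 1)) = cst _ c₁ := hφ 1
  have h2 : emap φ (red O (P 2)) = cst _ c₂ := hφ 2
  have htr : Transcendental ℂ (xc (red O (P 0))) := fun ha => by
    have := ha.algHom φ
    rw [← xc_emap, h0] at this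
    exact T.g1.tr this
  have hF : IsFF ℂ (RF O) := T.g1.isFF.of_algHom φ htr
  have hnc : ∀ c : EP ℂ, red O (P 0) ≠ cst _ c := fun c e => htr (e ▸ TestsA_aux_alg c)
  have hno : ∀ p, ¬ Over O P p := fun p hp => by
    have := (over_iff_red h.gen (cube_intg hO) p).1 hp 0
    exact hnc (tors ℂ (p 0)) (by rw [this, cst_tors])
  refine ⟨O, h.bl_iff.2 (Or.inl ⟨hO, hno⟩), hF, hno, ?_, ?_, ?_⟩
  · refine lt_of_le_of_ne (ht_nonneg _) fun e => ?_
    obtain ⟨c, hc⟩ := (ht_eq_zero hF _).1 e.symm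
    exact hnc c (by rw [hc, up_eq_cst])
  · exact emap_injective φ (by rw [h1, emap_cst])
  · exact emap_injective φ (by rw [h2, emap_cst])

theorem TestsA_aux_red (h : Cfg P σ) {ξ : Pt L} (hξ : ξ ∈ blP P σ) (p : F3) (i : Fin 3) :
    Intg ξ (sh P p i) ∧ red ξ (sh P p i) = red ξ (P i) - tors _ (p i) :=
  ⟨(h.bl_intg hξ i).sub (intg_tors _), by
    rw [sh, red_sub (h.bl_intg hξ i) (intg_tors _), red_tors]⟩

/-- A coordinate that does not reduce to the origin along the curve. -/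
theorem TestsA_aux_mem (h : Cfg P σ) {ξ O : Pt L} (hξ : ξ ∈ blP P σ)
    {V : ValuationSubring (RF ξ)} (hb : (O, V) ∈ branch (blP P σ) ξ) (p : F3) (i : Fin 3)
    (hne : red ξ (sh P p i) ≠ 0) : yc (sh P p i) ∈ ξ.1 ∧
      res ξ (yc (sh P p i)) = yc (red ξ (sh P p i)) ∧
      (yc (sh P p i) ∈ O.1 ↔ yc (red ξ (sh P p i)) ∈ V) := by
  have hI := (TestsA_aux_red h hξ p i).1
  have hy : yc (sh P p i) ∈ ξ.1 := by
    by_contra hc
    exact hne ((red_eq_zero hI).2 (Or.inr hc))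
  have e := yc_red hI hy
  refine ⟨hy, e.symm, ?_⟩
  rw [e]
  exact (TestsA_aux_red h hb.1 p i).1.yc_mem_branch hb.2.1 V hb.2.2.2.1 hb.2.2.2.2 hy

theorem TestsA_aux_term0 (h : Cfg P σ) {ξ : Pt L} (hF : IsFF ℂ (RF ξ)) {p : F3}
    (hp : ¬ Over ξ P p) (V : Pl ℂ (RF ξ)) (hV : ¬ Over (cen (blP P σ) ξ V) P p) :
    term (blP P σ) (pull σ (eX P σ p)) ξ V = 0 := by
  have := hF.dvr V
  rw [term, h.pull_eX_not hp, h.pull_eX_not hV, div_one, Units.val_one, res_one, ord_one]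

theorem TestsA_aux_off (h : Cfg P σ) {ξ : Pt L} (hξ : ξ ∈ blP P σ) (hF : IsFF ℂ (RF ξ)) {p : F3}
    (hp : ¬ Over ξ P p) {i : Fin 3} (hi : red ξ (P i) = 0) (hpi : p i ≠ 0) :
    deg (blP P σ) (pull σ (eX P σ p)) ξ = 0 := by
  rw [deg_eq_finsum h.bl_sep h.bl_proper hξ]
  refine finsum_eq_zero_of_forall_eq_zero fun V => TestsA_aux_term0 h hF hp V fun hV => ?_
  have hb := cen_spec h.bl_proper hξ V
  have e : red ξ (sh P p i) = cst _ (-tors ℂ (p i)) := by
    rw [(TestsA_aux_red h hξ p i).2, hi, zero_sub, map_neg, cst_tors]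
  have hne : red ξ (sh P p i) ≠ 0 := by
    rw [(TestsA_aux_red h hξ p i).2, hi, zero_sub, neg_ne_zero]
    exact fun h0 => hpi (tors_eq_zero.1 h0)
  refine hV i ((TestsA_aux_mem h hξ hb p i hne).2.2.2 ?_)
  rw [e, cst, yc_emap]
  exact V.2.2 _

theorem TestsA_aux_on (h : Cfg P σ) {ξ : Pt L} (hξ : ξ ∈ blP P σ) (hF : IsFF ℂ (RF ξ)) {p : F3}
    (hp : ¬ Over ξ P p) (hi : ∀ i, i ≠ 0 → red ξ (sh P p i) = 0) (V : Pl ℂ (RF ξ)) :
    term (blP P σ) (pull σ (eX P σ p)) ξ V = lam V.1 (red ξ (sh P p 0)) := by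
  have := hF.dvr V
  have hb := cen_spec h.bl_proper hξ V
  have hG := h.gen.shift p
  have hny : ∀ i, i ≠ 0 → yc (sh P p i) ∉ ξ.1 := fun i h0 =>
    ((red_eq_zero (TestsA_aux_red h hξ p i).1).1 (hi i h0)).resolve_left (hG.ne i)
  have hne : red ξ (sh P p 0) ≠ 0 := fun h0 => hp fun i => by
    by_cases hi0 : i = 0
    · subst hi0
      exact ((red_eq_zero (TestsA_aux_red h hξ p 0).1).1 h0).resolve_left (hG.ne 0)
    · exact hny i hi0
  obtain ⟨hy, ey, hiff⟩ := TestsA_aux_mem h hξ hb p 0 hne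
  by_cases hV : yc (red ξ (sh P p 0)) ∈ V.1
  · rw [TestsA_aux_term0 h hF hp V fun hO => hO 0 (hiff.2 hV), lam]
    have := (ord_nonneg_iff V.1 _).2 hV
    omega
  · have hO : Over (cen (blP P σ) ξ V) P p := fun i => by
      by_cases hi0 : i = 0
      · subst hi0
        exact fun hm => hV (hiff.1 hm)
      · exact fun hm => hny i hi0 (hb.2.1 hm)
    have hu : IsU ξ (yc (sh P p 0)) := isU_of_not_mx hy fun hm => hV (by
      rw [← ey, (res_eq_zero hy).2 hm]; exact zero_mem _)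
    obtain ⟨i, hur, e⟩ := h.pull_eX_over hb.1 hO
    have hi0 : i = 0 := by
      by_contra hi0
      have hs : sc (sh P p i) ∈ mx ξ := (TestsA_aux_red h hξ p i).1.sc_mem (hny i hi0)
      have hs0 : sc (sh P p i) ≠ 0 := div_ne_zero (hG.xc_ne i) (hG.yc_ne i)
      have h1 : sc (sh P p 0) ∈ mx ξ := by
        have := mx_mul_left (hb.2.1 (hur 0)) hs
        rwa [ur, div_mul_cancel₀ _ hs0] at this
      have h2 : xc (sh P p 0) ∈ mx ξ := by
        have := mx_mul_right h1 hy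
        rwa [sc, div_mul_cancel₀ _ hu.1] at this
      have h3 : xc (red ξ (sh P p 0)) = 0 := by
        rw [xc_red (TestsA_aux_red h hξ p 0).1 hy, res_eq_zero (mx_sub h2)]
        exact h2
      obtain ⟨τ, hτ⟩ := eq_tors_of_xc h3
      refine hV ?_
      rw [hτ, ← cst_tors, cst, yc_emap]
      exact V.2.2 _
    subst hi0
    rw [term, h.pull_eX_not hp, div_one, e, tc, res_inv hu, ey, ord_inv, lam]
    have := (ord_nonneg_iff V.1 (yc (red ξ (sh P p 0)))).not.2 hV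
    omega

/-- For `p = (τ, 0, 0)`: at a place `V` the centre is over `p` iff `φ 0 - τ T` reduces to zero, and
then the index of `pull_eX_over` is `0` (the `s 1, s 2` vanish on the curve), so the local term is
`lam V (φ 0 - τ T)`. -/
theorem Cfg.test1 (h : Cfg P σ) : ∃ c : Curve (XP P σ), ∃ κ : ℝ, 0 < κ ∧
    (∀ l, qX P σ c l = κ * nm (l 0)) ∧
    ∀ p, mX P σ c p = if p 1 = 0 ∧ p 2 = 0 then κ else 0 := by
  obtain ⟨ξ, hξ, hF, hno, hpos, h1, h2⟩ := h.exists_fibre 0 0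
  rw [map_zero] at h1 h2
  let η : Curve (XP P σ) := ⟨qpt (KK σ) ξ, mem_XP.2 ⟨ξ, hξ, rfl⟩, (h.curve_iff hξ).2 hF⟩
  obtain ⟨-, n, hn, -, hq, hm⟩ := h.lift_data η hξ rfl
  have hn' : (0 : ℝ) < n := by exact_mod_cast hn
  refine ⟨η, (ht ℂ (red ξ (P 0)) : ℝ) / n, div_pos (by exact_mod_cast hpos) hn', fun l => ?_,
    fun p => ?_⟩
  · have e : (lin l fun i => red ξ (P i)) = l 0 • red ξ (P 0) := by
      rw [lin, Fin.sum_univ_three, h1, h2, smul_zero, smul_zero, add_zero, add_zero]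
    have := hq l
    rw [e, ht_smul hF] at this
    push_cast at this
    field_simp
    linear_combination this
  · have hp := hm p
    split_ifs with hc
    · have hi : ∀ i, i ≠ 0 → red ξ (sh P p i) = 0 := fun i h0 => by
        rw [(TestsA_aux_red h hξ p i).2]
        fin_cases i
        · exact absurd rfl h0
        · simp [h1, hc.1]
        · simp [h2, hc.2]
      have e : deg (blP P σ) (pull σ (eX P σ p)) ξ = ht ℂ (red ξ (P 0)) := by
        rw [deg_eq_finsum h.bl_sep h.bl_proper hξ,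
          finsum_congr (TestsA_aux_on h hξ hF (hno p) hi)]
        change ht ℂ (red ξ (sh P p 0)) = _
        rw [(TestsA_aux_red h hξ p 0).2, ← cst_tors, sub_eq_add_neg, ← map_neg, ← up_eq_cst,
          ht_add_up hF]
      rw [e] at hp
      rw [eq_div_iff hn'.ne']
      linear_combination hp
    · have e : deg (blP P σ) (pull σ (eX P σ p)) ξ = 0 := by
        by_cases hp1 : p 1 = 0
        · exact TestsA_aux_off h hξ hF (hno p) h2 fun hp2 => hc ⟨hp1, hp2⟩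
        · exact TestsA_aux_off h hξ hF (hno p) h1 hp1
      rw [e, Int.cast_zero] at hp
      exact (mul_eq_zero.1 hp).resolve_left hn'.ne'

end Pool.Agent.MP_95da86_ag
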