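import Pool.Agent.MP_95da86_ag.TestsA

/-! The test curves. -/

namespace Pool.Agent.MP_95da86_ag

variable {L : Type} [Field L] [Algebra ℂ L] {P : Fin 3 → EP L} {σ : L ≃ₐ[ℂ] L}

/-- The local term at `V` is `3 * min (ord (u j)) - 3 * ord (u k₀)`. -/
theorem Cfg.TestsB_aux (h : Cfg P σ) {ξ : Pt L} (hξ : ξ ∈ blP P σ) (hF : IsFF ℂ (RF ξ)) {p : F3}
    (hp : Over ξ P p) (h0 : ∀ j, ur P p 0 j ∈ ξ.1)
    (ht : Transcendental ℂ (res ξ (ur P p 0 1))) :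
    deg (blP P σ) (pull σ (eX P σ p)) ξ < 0 := by
  have hy := (h.gen.shift p).yc_ne
  have hs : ∀ j, sc (sh P p j) ≠ 0 := fun j => div_ne_zero ((h.gen.shift p).xc_ne j) (hy j)
  have hu : ∀ k, ur P p k 0 ∈ ξ.1 → IsU ξ (ur P p 0 k) := fun k hk =>
    ⟨div_ne_zero (hs k) (hs 0), h0 k, by rw [ur, inv_div]; exact hk⟩
  have hm : ∀ j, tc (sh P p j) ^ 2 ∈ mx ξ := fun j => by
    have := (hp.sc_mem (h.bl_intg hξ) j).2
    rw [sq]
    exact mx_mul_left (mx_sub this) this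
  have hw : ∀ j, IsU ξ (1 - tc (sh P p j) ^ 2) := fun j => by
    rw [sub_eq_add_neg]
    exact (isU_one ξ).add_mx (mx_neg (hm j))
  have hw1 : ∀ j, res ξ (1 - tc (sh P p j) ^ 2) = 1 := fun j => by
    rw [res_sub (one_mem _) (mx_sub (hm j)), res_one, (res_eq_zero (mx_sub (hm j))).2 (hm j),
      sub_zero]
  have htc : ∀ j, tc (sh P p j) = sc (sh P p j) ^ 3 / (1 - tc (sh P p j) ^ 2) := fun j =>
    eq_div_of_mul_eq (hw j).1 (tc_eq (hy j))
  obtain ⟨k₀, hk₀, e₀⟩ := h.pull_eX_over hξ hp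
  have u₀ := hu k₀ (hk₀ 0)
  have key : ∀ V : Pl ℂ (RF ξ), ∃ k, IsU ξ (ur P p 0 k) ∧ (∀ j, res ξ (ur P p k j) ∈ V.1) ∧
      (∀ j, ur P p k j ∈ ξ.1) ∧ ord V.1 (res ξ (ur P p 0 k₀) ^ 3)⁻¹ -
        term (blP P σ) (pull σ (eX P σ p)) ξ V = -(3 * ord V.1 (res ξ (ur P p 0 k))) := fun V => by
    have := hF.dvr V
    obtain ⟨c1, c2, -, c3, -⟩ := cen_spec h.bl_proper hξ V
    obtain ⟨k, hk, e⟩ := h.pull_eX_over c1 (hp.of_le c2)
    have u := hu k (c2 (hk 0))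
    refine ⟨k, u, fun j => c3 _ (hk j), fun j => c2 (hk j), ?_⟩
    have e1 : tc (sh P p k) / tc (sh P p k₀) = ur P p 0 k ^ 3 * (1 - tc (sh P p k₀) ^ 2) /
        (ur P p 0 k₀ ^ 3 * (1 - tc (sh P p k) ^ 2)) := by
      have a := hs 0
      have b := hs k₀
      have c := (hw k).1
      have d := (hw k₀).1
      conv_lhs => rw [htc k, htc k₀]
      simp only [ur]
      field_simp
    rw [term, Units.val_div_eq_div_val, e, e₀, e1,
      res_div ((u.pow 3).mul (hw k₀)).2.1 ((u₀.pow 3).mul (hw k)), res_mul (u.pow 3).2.1 (hw k₀).2.1,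
      res_mul (u₀.pow 3).2.1 (hw k).2.1, hw1, hw1, mul_one, mul_one, res_pow u.2.1, res_pow u₀.2.1,
      ord_div _ (pow_ne_zero 3 u.res_ne) (pow_ne_zero 3 u₀.res_ne), ord_inv, ord_pow _ _ 3,
      ord_pow _ _ 3]
    push_cast
    ring
  have f1 := hF.ord_fin (res ξ (ur P p 0 k₀) ^ 3)⁻¹
  have f2 : (Function.support (term (blP P σ) (pull σ (eX P σ p)) ξ)).Finite := h.finT_eX hξ hF p
  have pos := finsum_pos (f := fun V : Pl ℂ (RF ξ) => ord V.1 (res ξ (ur P p 0 k₀) ^ 3)⁻¹ -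
    term (blP P σ) (pull σ (eX P σ p)) ξ V) (fun V => ?_) ?_
    ((f1.union f2).subset (Function.support_sub _ _))
  · rw [finsum_sub_distrib f1 f2, hF.sum_ord, ← deg_eq_finsum h.bl_sep h.bl_proper hξ] at pos
    omega
  · have := hF.dvr V
    obtain ⟨k, u, hk, -, e⟩ := key V
    have h1 := (ord_nonneg_iff V.1 _).2 (hk 0)
    rw [ur, ← inv_div, ← ur, res_inv u, ord_inv] at h1
    omega
  · obtain ⟨V, hV⟩ := exists_pole ht
    have := hF.dvr V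
    obtain ⟨k, u, hk, hk', e⟩ := key V
    have h1 : ¬ 0 ≤ ord V.1 (res ξ (ur P p 0 k)) := fun h1 => hV (by
      have e1 : ur P p 0 1 = ur P p 0 k * ur P p k 1 := by
        have := hs k
        simp only [ur]
        field_simp
      rw [e1, res_mul u.2.1 (hk' 1)]
      exact mul_mem ((ord_nonneg_iff V.1 _).1 h1) (hk 1))
    exact ⟨V, by omega⟩

/-- The curve of `exists_line`. If `m p = 0`, the non-negative local terms of `deg_eff` for the
strict transforms of `e 0` and `e 1` all vanish, so the residue of `s 1 / s 0` has no zero or pole. -/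
theorem Cfg.test2 (h : Cfg P σ) (p₀ : F3) : ∃ c : Curve (XP P σ), ∃ κ : ℝ, 0 < κ ∧
    (∀ l, qX P σ c l = 0) ∧ ∀ p, mX P σ c p = if p = p₀ then -κ else 0 := by
  obtain ⟨Op, hO, hOp⟩ := h.gen.exists_over p₀
  obtain ⟨ξ, h1, h2, hF, htr⟩ := exists_line h.gen hO hOp
  have hξ : ξ ∈ blP P σ := h.bl_iff.2 (Or.inr ⟨p₀, Op, hO, hOp, h2, 0, h1⟩)
  have hp : Over ξ P p₀ := (over_dom (cube_intg hO)
    ⟨fun f hf => h1.1 (Algebra.subset_adjoin (Or.inl hf)), h2⟩ p₀).1 hOp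
  have hneg := h.TestsB_aux hξ hF hp (fun j => h1.1 (Algebra.subset_adjoin (Or.inr ⟨j, rfl⟩))) htr
  let c : Curve (XP P σ) := ⟨qpt (KK σ) ξ, mem_XP.2 ⟨ξ, hξ, rfl⟩, (h.curve_iff hξ).2 hF⟩
  obtain ⟨-, n, hn, -, hq, hm⟩ := h.lift_data c hξ rfl
  have hn' : (0 : ℝ) < n := by exact_mod_cast hn
  refine ⟨c, -mX P σ c p₀, neg_pos.2 ?_, fun l => ?_, fun p => ?_⟩
  · refine neg_of_mul_neg_left ?_ hn'.le
    rw [mul_comm, hm]
    exact_mod_cast hneg
  · have e := hq l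
    rw [funext ((over_iff_red h.gen (h.bl_intg hξ) p₀).1 hp), lin_tors,
      (ht_eq_zero hF _).2 ⟨tors ℂ (dotb l p₀), by rw [up_eq_cst, cst_tors]⟩, Int.cast_zero] at e
    exact (mul_eq_zero.1 e).resolve_left hn'.ne'
  · split_ifs with hpp
    · rw [hpp, neg_neg]
    · have e := hm p
      rw [h.m_other hξ hF hp hpp, Int.cast_zero] at e
      exact (mul_eq_zero.1 e).resolve_left hn'.ne'

end Pool.Agent.MP_95da86_ag
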