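import Pool.Agent.MP_95da86_ag.Cube
import Pool.Agent.MP_95da86_ag.Ord

/-! The valuation of an exceptional plane. -/

namespace Pool.Agent.MP_95da86_ag

variable {L : Type} [Field L] [Algebra ℂ L] {P : Fin 3 → EP L} {Op : Pt L} {p : F3}

open IsLocalRing MvPolynomial in
theorem WpA_aux_div (hO : Op ∈ cubeP P) (h : Over Op P p) (i : Fin 3) (N : ℕ) :
    ∀ r : Op.1, r ∈ maximalIdeal Op.1 ^ N → (r : L) / sc (sh P p i) ^ N ∈ Bl Op P p i := by
  have hle : ∀ f ∈ Op.1, f ∈ Bl Op P p i := fun f hf => Algebra.subset_adjoin (Or.inl hf)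
  induction N with
  | zero => intro r _; simpa using hle _ r.2
  | succ N ih =>
    intro r hr
    rw [pow_succ'] at hr
    refine Submodule.mul_induction_on hr (fun a ha b hb => ?_) fun a b ha hb => ?_
    · obtain ⟨c, hc, e⟩ := over_gen hO h (coe_mem_mx.2 ha)
      have e2 : ((a * b : Op.1) : L) / sc (sh P p i) ^ (N + 1) =
          (∑ j, c j * ur P p i j) * ((b : L) / sc (sh P p i) ^ N) := by
        simp only [ur, ← mul_div_assoc, ← Finset.sum_div, ← e]
        rw [pow_succ', MulMemClass.coe_mul, div_mul_eq_mul_div, div_div]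
      rw [e2]
      exact mul_mem (sum_mem fun j _ => mul_mem (hle _ (hc j))
        (Algebra.subset_adjoin (Or.inr ⟨j, rfl⟩))) (ih b hb)
    · rw [AddMemClass.coe_add, add_div]
      exact add_mem ha hb

theorem WpA_aux_sc_ne (hP : Gen3 P) (p : F3) (i : Fin 3) : sc (sh P p i) ≠ 0 :=
  div_ne_zero ((hP.shift p).xc_ne i) ((hP.shift p).yc_ne i)

open IsLocalRing MvPolynomial in
theorem WpA_aux_lead {A : Type} [CommRing A] [Algebra ℂ A] (m : Ideal A) (s : Fin 3 → A)
    (hs : ∀ j, s j ∈ m) (h0 : ∀ r : A, ∃ c : ℂ, r - algebraMap ℂ A c ∈ m)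
    (h1 : ∀ r ∈ m, ∃ a : Fin 3 → A, r = ∑ j, a j * s j) (N : ℕ) :
    ∀ r ∈ m ^ N, ∃ H : MvPolynomial (Fin 3) ℂ, H.totalDegree ≤ N ∧ r - aeval s H ∈ m ^ (N + 1) := by
  induction N with
  | zero =>
    intro r _
    obtain ⟨c, hc⟩ := h0 r
    exact ⟨C c, (totalDegree_C c).le, by simpa using hc⟩
  | succ N ih =>
    intro r hr
    rw [pow_succ'] at hr
    refine Submodule.mul_induction_on hr (fun a ha b hb => ?_) fun a b ha hb => ?_
    · obtain ⟨H, hH, hb'⟩ := ih b hb
      obtain ⟨c, rfl⟩ := h1 a ha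
      choose k hk using fun j => h0 (c j)
      refine ⟨∑ j, C (k j) * X j * H, (totalDegree_finsetSum _ _).trans (Finset.sup_le fun j _ => ?_), ?_⟩
      · refine (totalDegree_mul _ _).trans ?_
        have := totalDegree_mul (C (k j)) (X j : MvPolynomial (Fin 3) ℂ)
        rw [totalDegree_C, totalDegree_X] at this
        omega
      · rw [map_sum, Finset.sum_mul, ← Finset.sum_sub_distrib]
        refine sum_mem fun j _ => ?_
        have e : c j * s j * b - aeval s (C (k j) * X j * H) =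
            (c j - algebraMap ℂ A (k j)) * (s j * b) +
              algebraMap ℂ A (k j) * (s j * (b - aeval s H)) := by
          simp only [map_mul, aeval_C, aeval_X]
          ring
        rw [e]
        refine add_mem ?_ (Ideal.mul_mem_left _ _ ?_)
        · rw [pow_succ', pow_succ']
          exact Ideal.mul_mem_mul (hk j) (Ideal.mul_mem_mul (hs j) hb)
        · rw [pow_succ']
          exact Ideal.mul_mem_mul (hs j) hb'
    · obtain ⟨H, hH, ha'⟩ := ha
      obtain ⟨H', hH', hb'⟩ := hb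
      refine ⟨H + H', (totalDegree_add _ _).trans (max_le hH hH'), ?_⟩
      rw [map_add, add_sub_add_comm]
      exact add_mem ha' hb'

open MvPolynomial in
theorem WpA_aux_res {ι : Type} (O : Pt L) (v : ι → L) (hv : ∀ j, v j ∈ O.1)
    (F : MvPolynomial ι ℂ) :
    aeval v F ∈ O.1 ∧ res O (aeval v F) = aeval (fun j => res O (v j)) F := by
  induction F using MvPolynomial.induction_on with
  | C c => exact ⟨by simp, by rw [aeval_C, aeval_C, res_const]⟩
  | add F G hF hG =>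
    rw [map_add, map_add, res_add hF.1 hG.1, hF.2, hG.2]
    exact ⟨add_mem hF.1 hG.1, rfl⟩
  | mul_X F j hF =>
    rw [map_mul, map_mul, aeval_X, aeval_X, res_mul hF.1 (hv j), hF.2]
    exact ⟨mul_mem hF.1 (hv j), rfl⟩

open MvPolynomial in
theorem WpA_aux_loc {z : Fin 3 → L} (hz : AlgebraicIndependent ℂ z) :
    ∃ O : Pt L, z 0 ∈ mx O ∧
      ∀ F : MvPolynomial (Fin 2) ℂ, F ≠ 0 → IsU O (aeval ![z 1, z 2] F) := by
  let ψ : MvPolynomial (Fin 3) ℂ →ₐ[ℂ] MvPolynomial (Fin 2) ℂ := aeval ![0, X 0, X 1]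
  have hinj : Function.Injective (aeval z : MvPolynomial (Fin 3) ℂ →ₐ[ℂ] L) := hz
  have hne : ∀ b, ψ b ≠ 0 → aeval z b ≠ 0 := fun b hb h0 =>
    hb (by rw [hinj (h0.trans (map_zero _).symm), map_zero])
  let A : Subalgebra ℂ L :=
    { carrier := {f | ∃ a b, ψ b ≠ 0 ∧ f = aeval z a / aeval z b}
      mul_mem' := by
        rintro _ _ ⟨a, b, hb, rfl⟩ ⟨a', b', hb', rfl⟩
        exact ⟨a * a', b * b', by rw [map_mul]; exact mul_ne_zero hb hb', by
          rw [map_mul, map_mul, div_mul_div_comm]⟩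
      add_mem' := by
        rintro _ _ ⟨a, b, hb, rfl⟩ ⟨a', b', hb', rfl⟩
        exact ⟨a * b' + b * a', b * b', by rw [map_mul]; exact mul_ne_zero hb hb', by
          rw [map_add, map_mul, map_mul, map_mul, div_add_div _ _ (hne b hb) (hne b' hb')]⟩
      algebraMap_mem' c := ⟨C c, 1, by simp, by simp⟩ }
  have hloc : IsLocalRing A := isLocal_of _ <| by
    rintro _ ⟨a, b, hb, rfl⟩
    by_cases ha : ψ a = 0
    · have h1 : ψ (b - a) ≠ 0 := by rwa [map_sub, ha, sub_zero]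
      have e : 1 - aeval z a / aeval z b = aeval z (b - a) / aeval z b := by
        rw [map_sub, sub_div, div_self (hne b hb)]
      rw [e]
      exact Or.inr ⟨div_ne_zero (hne _ h1) (hne _ hb), b, b - a, h1, inv_div _ _⟩
    · exact Or.inl ⟨div_ne_zero (hne _ ha) (hne _ hb), b, a, ha, inv_div _ _⟩
  refine ⟨⟨A, hloc⟩, mem_mx.2 ⟨⟨X 0, 1, by simp, by simp⟩, ?_⟩, fun F hF => ?_⟩
  · rintro ⟨h0, -, a, b, hb, e⟩
    have e2 : aeval z b = aeval z (X 0 * a) := by
      rw [map_mul, aeval_X]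
      have := hne b hb
      field_simp at e
      linear_combination e
    exact hb (by rw [hinj e2]; simp [ψ])
  · have e1 : aeval ![z 1, z 2] F = aeval z (rename Fin.succ F) := by
      rw [aeval_rename]
      congr 2
      funext j
      fin_cases j <;> rfl
    have e2 : ψ (rename Fin.succ F) = F := by
      rw [aeval_rename]
      have : (![0, X 0, X 1] : Fin 3 → MvPolynomial (Fin 2) ℂ) ∘ Fin.succ = X := by
        funext j
        fin_cases j <;> rfl
      rw [this, aeval_X_left_apply]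
    have h1 : ψ (rename Fin.succ F) ≠ 0 := by rwa [e2]
    rw [e1]
    exact ⟨hne _ h1, ⟨rename Fin.succ F, 1, by simp, by simp⟩, 1, _, h1, by simp⟩

theorem WpA_aux_ind {Q : Fin 3 → EP L} (hQ : Gen3 Q) :
    AlgebraicIndependent ℂ ![xc (Q 0), xc (Q 1) / xc (Q 0), xc (Q 2) / xc (Q 0)] := by
  have hb := hQ.ind.isTranscendenceBasis_of_trdeg_le_of_finite (by rw [hQ.trdeg]; simp)
  set z := ![xc (Q 0), xc (Q 1) / xc (Q 0), xc (Q 2) / xc (Q 0)] with hz
  have hm : ∀ j, z j ∈ Algebra.adjoin ℂ (Set.range z) := fun j => Algebra.subset_adjoin ⟨j, rfl⟩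
  have hle : Algebra.adjoin ℂ (Set.range fun i => xc (Q i)) ≤ Algebra.adjoin ℂ (Set.range z) := by
    refine Algebra.adjoin_le ?_
    rintro _ ⟨j, rfl⟩
    fin_cases j
    · exact hm 0
    · have := mul_mem (hm 1) (hm 0)
      rwa [show z 1 * z 0 = xc (Q 1) from div_mul_cancel₀ _ (hQ.xc_ne 0)] at this
    · have := mul_mem (hm 2) (hm 0)
      rwa [show z 2 * z 0 = xc (Q 2) from div_mul_cancel₀ _ (hQ.xc_ne 0)] at this
  have : Algebra.IsAlgebraic (Algebra.adjoin ℂ (Set.range z)) L :=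
    ⟨fun f => (hb.isAlgebraic.isAlgebraic f).tower_top_of_subalgebra_le hle⟩
  exact (Algebra.IsAlgebraic.isTranscendenceBasis_of_le_trdeg_of_finite ℂ z
    (by rw [hQ.trdeg]; simp)).1

open MvPolynomial in
theorem WpA_aux_val {Q : Fin 3 → EP L} (hQ : Gen3 Q) :
    ∃ (W : ValuationSubring L) (hW : ∀ c : ℂ, algebraMap ℂ L c ∈ W),
      (∀ i, yc (Q i) - 1 ∈ mx (vpt W hW)) ∧ ∀ F : MvPolynomial (Fin 2) ℂ, F ≠ 0 →
        IsU (vpt W hW) (aeval ![xc (Q 1) / xc (Q 0), xc (Q 2) / xc (Q 0)] F) := by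
  classical
  obtain ⟨O, h0, hU⟩ := WpA_aux_loc (WpA_aux_ind hQ)
  obtain ⟨V, hV, hd⟩ := exists_val_dom O
  have hx : ∀ i, xc (Q i) ∈ mx (vpt V hV) := fun i => by
    have h0' : xc (Q 0) ∈ mx (vpt V hV) := hd.2 h0
    fin_cases i
    · exact h0'
    · have h1 : xc (Q 1) / xc (Q 0) ∈ O.1 := by simpa using (hU (X 0) (X_ne_zero _)).2.1
      have := mx_mul_left (hd.1 h1) h0'
      rwa [div_mul_cancel₀ _ (hQ.xc_ne 0)] at this
    · have h1 : xc (Q 2) / xc (Q 0) ∈ O.1 := by simpa using (hU (X 1) (X_ne_zero _)).2.1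
      have := mx_mul_left (hd.1 h1) h0'
      rwa [div_mul_cancel₀ _ (hQ.xc_ne 0)] at this
  have hy : ∀ i, yc (Q i) - 1 ∈ mx (vpt V hV) ∨ yc (Q i) + 1 ∈ mx (vpt V hV) := fun i => by
    have e := eqn_of_ne (hQ.ne i)
    have h3 : xc (Q i) ^ 3 ∈ mx (vpt V hV) := by
      rw [pow_succ]
      exact mx_mul_left (pow_mem (mx_sub (hx i)) 2) (hx i)
    have hy : yc (Q i) ∈ (vpt V hV).1 := by
      refine (V.mem_or_inv_mem (yc (Q i))).elim id fun h => ?_
      have : yc (Q i) ^ 2 * (yc (Q i))⁻¹ ∈ (vpt V hV).1 :=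
        mul_mem (e ▸ add_mem (mx_sub h3) (one_mem _)) h
      rwa [pow_two, mul_inv_cancel_right₀ (hQ.yc_ne i)] at this
    refine mx_prime (sub_mem hy (one_mem _)) (add_mem hy (one_mem _)) ?_
    rwa [show (yc (Q i) - 1) * (yc (Q i) + 1) = xc (Q i) ^ 3 by linear_combination e]
  let Q' : Fin 3 → EP L := fun i => if yc (Q i) - 1 ∈ mx (vpt V hV) then Q i else -Q i
  have ex : ∀ i, xc (Q' i) = xc (Q i) := fun i => by
    simp only [Q']
    split_ifs
    exacts [rfl, xc_neg _]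
  have ey : ∀ i, yc (Q' i) - 1 ∈ mx (vpt V hV) ∧ (yc (Q i) = yc (Q' i) ∨ yc (Q i) = -yc (Q' i)) :=
    fun i => by
      simp only [Q']
      split_ifs with h
      · exact ⟨h, Or.inl rfl⟩
      · refine ⟨?_, Or.inr (by simp)⟩
        have := mx_neg ((hy i).resolve_left h)
        rwa [neg_add, ← yc_neg, ← sub_eq_add_neg] at this
  have hQ' : Gen3 Q' := by
    refine ⟨fun i h => hQ.xc_ne i (by rw [← ex, h, xc_zero]), by simpa only [ex] using hQ.ind, ?_⟩
    rw [eq_top_iff, ← hQ.gen, IntermediateField.adjoin_le_iff]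
    rintro _ (⟨i, rfl⟩ | ⟨i, rfl⟩)
    · exact IntermediateField.subset_adjoin _ _ (Or.inl ⟨i, ex i⟩)
    · have := IntermediateField.subset_adjoin ℂ
        (Set.range (fun i => xc (Q' i)) ∪ Set.range fun i => yc (Q' i)) (Or.inr ⟨i, rfl⟩)
      show yc (Q i) ∈ _
      rcases (ey i).2 with e | e <;> rw [e]
      exacts [this, neg_mem this]
  obtain ⟨γ, hγ⟩ := hQ.exists_aut hQ'
  have gx : ∀ i, γ (xc (Q i)) = xc (Q i) := fun i => by
    conv_rhs => rw [← ex, ← hγ, xc_emap]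
    rfl
  have gy : ∀ i, γ (yc (Q i)) = yc (Q' i) := fun i => by
    rw [← hγ, yc_emap]
    rfl
  obtain ⟨W, hW, hd'⟩ := exists_val_dom (mapPt γ.symm (vpt V hV))
  refine ⟨W, hW, fun i => hd'.2 (mem_mx_mapPt.2 ?_), fun F hF => IsU.mono hd'.1 (isU_mapPt.2 ?_)⟩
  · rw [AlgEquiv.symm_symm, map_sub, map_one, gy]
    exact (ey i).1
  · have e := comp_aeval_apply ![xc (Q 1) / xc (Q 0), xc (Q 2) / xc (Q 0)] (γ : L →ₐ[ℂ] L) F
    have e2 : (fun i => (γ : L →ₐ[ℂ] L) (![xc (Q 1) / xc (Q 0), xc (Q 2) / xc (Q 0)] i)) =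
        ![xc (Q 1) / xc (Q 0), xc (Q 2) / xc (Q 0)] := by
      funext j
      fin_cases j <;> simp [gx]
    rw [e2] at e
    rw [AlgEquiv.symm_symm, show γ _ = _ from e]
    exact (hU F hF).mono hd.1

/-- Every element of the chart is `r / s i ^ N` with `r` in the `N`-th power of the maximal ideal. -/
theorem mem_Bl_iff (hP : Gen3 P) (hO : Op ∈ cubeP P) (h : Over Op P p) (i : Fin 3) (g : L) :
    g ∈ Bl Op P p i ↔ ∃ (N : ℕ) (r : Op.1), r ∈ IsLocalRing.maximalIdeal Op.1 ^ N ∧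
      g = r / sc (sh P p i) ^ N := by
  refine ⟨fun hg => ?_, ?_⟩
  · have hs := (h.sc_mem (cube_intg hO) i).1
    have h0 := WpA_aux_sc_ne hP p i
    let s : Op.1 := ⟨_, mx_sub hs⟩
    have hs' : s ∈ IsLocalRing.maximalIdeal Op.1 := coe_mem_mx.1 hs
    induction hg using Algebra.adjoin_induction with
    | mem g hg =>
      rcases hg with hg | ⟨j, rfl⟩
      · exact ⟨0, ⟨g, hg⟩, by simp, by simp⟩
      · have hj := (h.sc_mem (cube_intg hO) j).1
        exact ⟨1, ⟨_, mx_sub hj⟩, by rw [pow_one]; exact coe_mem_mx.1 hj, by rw [pow_one]; rfl⟩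
    | algebraMap c => exact ⟨0, ⟨_, Op.1.algebraMap_mem c⟩, by simp, by simp⟩
    | add f g _ _ hf hg =>
      obtain ⟨N, r, hr, rfl⟩ := hf
      obtain ⟨N', r', hr', rfl⟩ := hg
      refine ⟨N + N', r * s ^ N' + s ^ N * r', ?_, ?_⟩
      · rw [pow_add]
        exact add_mem (Ideal.mul_mem_mul hr (Ideal.pow_mem_pow hs' _))
          (Ideal.mul_mem_mul (Ideal.pow_mem_pow hs' _) hr')
      · rw [div_add_div _ _ (pow_ne_zero _ h0) (pow_ne_zero _ h0), pow_add]
        rfl
    | mul f g _ _ hf hg =>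
      obtain ⟨N, r, hr, rfl⟩ := hf
      obtain ⟨N', r', hr', rfl⟩ := hg
      refine ⟨N + N', r * r', ?_, ?_⟩
      · rw [pow_add]
        exact Ideal.mul_mem_mul hr hr'
      · rw [div_mul_div_comm, pow_add]
        rfl
  · rintro ⟨N, r, hr, rfl⟩
    exact WpA_aux_div hO h i N r hr

/-- Taylor expansion. -/
theorem taylor (hP : Gen3 P) (hO : Op ∈ cubeP P) (h : Over Op P p) (r : Op.1) (N : ℕ) :
    ∃ (G : MvPolynomial (Fin 3) ℂ) (r' : Op.1), (G = 0 ∨ G.totalDegree < N) ∧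
      r' ∈ IsLocalRing.maximalIdeal Op.1 ^ N ∧
      (r : L) = MvPolynomial.aeval (fun j => sc (sh P p j)) G + r' := by
  have _ := hP
  have hs := fun j => (h.sc_mem (cube_intg hO) j).1
  let s : Fin 3 → Op.1 := fun j => ⟨_, mx_sub (hs j)⟩
  have key := WpA_aux_lead (IsLocalRing.maximalIdeal Op.1) s (fun j => coe_mem_mx.1 (hs j))
    (fun r => by
      obtain ⟨c, hc⟩ := over_const hO h r.2
      exact ⟨c, coe_mem_mx.1 hc⟩)
    (fun r hr => by
      obtain ⟨a, ha, e⟩ := over_gen hO h (coe_mem_mx.2 hr)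
      refine ⟨fun j => ⟨a j, ha j⟩, Subtype.ext ?_⟩
      rw [e, AddSubmonoidClass.coe_finsetSum]
      rfl)
  induction N with
  | zero => exact ⟨0, r, Or.inl rfl, by simp, by simp⟩
  | succ N ih =>
    obtain ⟨G, r', hG, hr', e⟩ := ih
    obtain ⟨H, hH, hr⟩ := key N r' hr'
    refine ⟨G + H, _, Or.inr ?_, hr, ?_⟩
    · refine (MvPolynomial.totalDegree_add _ _).trans_lt (max_lt ?_ (by omega))
      rcases hG with rfl | hG
      · simp
      · omega
    · have e2 : MvPolynomial.aeval (fun j => sc (sh P p j)) H =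
          ((MvPolynomial.aeval s H : Op.1) : L) := (MvPolynomial.comp_aeval_apply s Op.1.val H).symm
      rw [e, map_add, e2, AddSubgroupClass.coe_sub]
      ring

/-- A valuation ring in which `s 0` is a non-unit and the residues of `s 1 / s 0`, `s 2 / s 0` are
algebraically independent, centred at `p`. Put `P' = sh P p + T`, `x' i = -2 s i / (1 + t i)`.
The elements `x' 0, x' 1 / x' 0, x' 2 / x' 0` are algebraically independent; localise the
polynomial ring they generate at `x' 0` and take a dominating valuation ring `V` of `L`. Then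
`y' i ≡ ± 1`; move `V` by the automorphism `P' i ↦ ± P' i` (`exists_aut`), which fixes the `x' i`,
to get `y' i ≡ 1`, that is `Over V P p`; the centre on the cube is `Op` (`over_unique`). -/
theorem exists_W0 (hP : Gen3 P) (hO : Op ∈ cubeP P) (h : Over Op P p) :
    ∃ (W : ValuationSubring L) (hW : ∀ c : ℂ, algebraMap ℂ L c ∈ W), Dom Op (vpt W hW) ∧
      (∀ j, ur P p 0 j ∈ W) ∧
      AlgebraicIndependent ℂ ![res (vpt W hW) (ur P p 0 1), res (vpt W hW) (ur P p 0 2)] := by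
  have hS := hP.shift p
  have hQ := hS.add_tors fun _ => 1
  obtain ⟨W, hW, hy, hU⟩ := WpA_aux_val hQ
  have hb : ∀ i, yc (sh P p i) + 1 ≠ 0 := fun i h0 => hQ.ne i (by
    show sh P p i + tors L 1 = 0
    rw [tors_one, ← pt_xc_yc (hS.ne i)]
    exact pt_add_tT_eq_zero _ _ _ h0)
  have hc : ∀ i, xc (sh P p i + tors L 1) = -2 * xc (sh P p i) / (yc (sh P p i) + 1) ∧
      yc (sh P p i + tors L 1) = (yc (sh P p i) - 3) / (yc (sh P p i) + 1) := fun i => by
    obtain ⟨h', e⟩ := pt_add_tT _ _ (eqn_of_ne (hS.ne i)) (hb i)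
    rw [pt_xc_yc (hS.ne i)] at e
    rw [tors_one, e]
    exact ⟨rfl, rfl⟩
  have hov : Over (vpt W hW) P p := fun i hi => by
    have h1 := mx_mul_left (add_mem hi (one_mem _)) (hy i)
    have e : (yc (sh P p i) + 1) * (yc (sh P p i + tors L 1) - 1) = algebraMap ℂ L (-4) := by
      rw [(hc i).2, map_neg, map_ofNat, mul_sub, mul_div_cancel₀ _ (hb i)]
      ring
    rw [e] at h1
    exact (isU_const _ (by norm_num)).not_mx h1
  obtain ⟨O, hO', hd⟩ := cube_centre (P := P) fun i => intg_val W hW (P i)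
  obtain rfl : O = Op := over_unique hO' hO ((over_dom (cube_intg hO') hd p).2 hov) h
  have ht : ∀ i, IsU (vpt W hW) (1 + tc (sh P p i)) ∧ res (vpt W hW) (1 + tc (sh P p i)) = 1 :=
    fun i => by
      have h1 := (hov.sc_mem (fun i => intg_val W hW (P i)) i).2
      exact ⟨(isU_one _).add_mx h1, by
        rw [res_add (one_mem _) (mx_sub h1), res_one, (res_eq_zero (mx_sub h1)).2 h1, add_zero]⟩
  have hu : ∀ j, ur P p 0 j = xc (sh P p j + tors L 1) / xc (sh P p 0 + tors L 1) *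
      ((1 + tc (sh P p j)) / (1 + tc (sh P p 0))) := fun j => by
    have := charZero_of L
    have h1 := hS.xc_ne 0
    have h2 := hS.yc_ne 0
    have h3 := hS.yc_ne j
    have h4 := hb 0
    have h5 := hb j
    rw [(hc j).1, (hc 0).1, ur, sc, sc, tc, tc]
    field_simp
  have hz : ∀ j, xc (sh P p j + tors L 1) / xc (sh P p 0 + tors L 1) ∈ (vpt W hW).1 := fun j => by
    fin_cases j
    · exact (div_self (hQ.xc_ne 0)).symm ▸ one_mem _
    · simpa using (hU (MvPolynomial.X 0) (MvPolynomial.X_ne_zero _)).2.1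
    · simpa using (hU (MvPolynomial.X 1) (MvPolynomial.X_ne_zero _)).2.1
  have hr : ∀ j, res (vpt W hW) (ur P p 0 j) =
      res (vpt W hW) (xc (sh P p j + tors L 1) / xc (sh P p 0 + tors L 1)) := fun j => by
    rw [hu, res_mul (hz j) ((ht j).1.div (ht 0).1).2.1, res_div (ht j).1.2.1 (ht 0).1, (ht j).2,
      (ht 0).2, div_one, mul_one]
  refine ⟨W, hW, hd, fun j => ?_, algebraicIndependent_iff.2 fun F hF => by_contra fun h0 => ?_⟩
  · rw [hu]
    exact mul_mem (hz j) ((ht j).1.div (ht 0).1).2.1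
  · refine (hU F h0).res_ne ?_
    rw [(WpA_aux_res _ _ (fun j => by fin_cases j; exacts [hz 1, hz 2]) F).2, ← hF]
    congr 2
    funext j
    fin_cases j
    exacts [(hr 1).symm, (hr 2).symm]

end Pool.Agent.MP_95da86_ag
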