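import Pool.Agent.MP_95da86_ag.Inner

/-! Dirichlet domains (after Looijenga). -/

namespace Pool.Agent.MP_95da86_ag

theorem Wt_aux_sep {C : Type} (m : ℕ) : ∀ V : Submodule ℝ (C → ℝ), FiniteDimensional ℝ V →
    Module.finrank ℝ V ≤ m → ∃ S : Finset C, ∀ v ∈ V, (∀ c ∈ S, v c = 0) → v = 0 := by
  classical
  induction m with
  | zero =>
    intro V hV h
    refine ⟨∅, fun v hv _ => ?_⟩
    have h0 : V = ⊥ := Submodule.finrank_eq_zero.1 (Nat.le_zero.1 h)
    rw [h0] at hv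
    exact (Submodule.mem_bot ℝ).1 hv
  | succ m ih =>
    intro V hV h
    by_cases h0 : ∀ v ∈ V, v = 0
    · exact ⟨∅, fun v hv _ => h0 v hv⟩
    push Not at h0
    obtain ⟨v0, hv0, hne⟩ := h0
    obtain ⟨c0, hc0⟩ : ∃ c0, v0 c0 ≠ 0 := Function.ne_iff.1 hne
    let V' : Submodule ℝ (C → ℝ) := V ⊓ LinearMap.ker (LinearMap.proj c0 : (C → ℝ) →ₗ[ℝ] ℝ)
    have hlt : V' < V := by
      refine lt_of_le_of_ne inf_le_left fun he => hc0 ?_
      have : v0 ∈ V' := he ▸ hv0
      exact this.2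
    have hfd : FiniteDimensional ℝ V' := Submodule.finiteDimensional_of_le hlt.le
    have hr : Module.finrank ℝ V' < Module.finrank ℝ V := Submodule.finrank_lt_finrank_of_lt hlt
    obtain ⟨S, hS⟩ := ih V' hfd (by omega)
    refine ⟨insert c0 S, fun v hv hz => hS v ⟨hv, hz c0 (Finset.mem_insert_self _ _)⟩ ?_⟩
    exact fun c hc => hz c (Finset.mem_insert_of_mem hc)

theorem Wt_aux_digits {n N : ℕ} (a b : Fin n → ℕ) (hb : 2 * ∑ k, b k < N)
    (h : ∑ k : Fin n, (N ^ n + N ^ (k : ℕ)) * a k = ∑ k : Fin n, (N ^ n + N ^ (k : ℕ)) * b k) :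
    a = b := by
  have hN : 0 < N := by omega
  have hP : 0 < N ^ n := pow_pos hN n
  have hle : ∀ k : Fin n, N ^ (k : ℕ) ≤ N ^ n := fun k => Nat.pow_le_pow_right hN k.2.le
  have hR : ∑ k : Fin n, (N ^ n + N ^ (k : ℕ)) * b k ≤ N ^ n * (2 * ∑ k, b k) := by
    rw [Finset.mul_sum, Finset.mul_sum]
    refine Finset.sum_le_sum fun k _ => ?_
    have := hle k
    nlinarith [Nat.zero_le (b k)]
  have ha : ∀ j, a j < N := by
    intro j
    have h1 : (N ^ n + N ^ (j : ℕ)) * a j ≤ ∑ k : Fin n, (N ^ n + N ^ (k : ℕ)) * a k :=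
      Finset.single_le_sum (f := fun k : Fin n => (N ^ n + N ^ (k : ℕ)) * a k)
        (fun _ _ => Nat.zero_le _) (Finset.mem_univ j)
    have h2 : N ^ n * a j ≤ N ^ n * (2 * ∑ k, b k) := by
      have : N ^ n * a j ≤ (N ^ n + N ^ (j : ℕ)) * a j :=
        Nat.mul_le_mul_right _ (Nat.le_add_right _ _)
      omega
    have := Nat.le_of_mul_le_mul_left h2 hP
    omega
  have hb' : ∀ j, b j < N := by
    intro j
    have h1 : b j ≤ ∑ k, b k :=
      Finset.single_le_sum (f := b) (fun _ _ => Nat.zero_le _) (Finset.mem_univ j)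
    omega
  let a' : Fin n → Fin N := fun k => ⟨a k, ha k⟩
  let b' : Fin n → Fin N := fun k => ⟨b k, hb' k⟩
  have key : ∀ (x : Fin n → ℕ) (x' : Fin n → Fin N), (∀ k, (x' k : ℕ) = x k) →
      (∑ k : Fin n, (N ^ n + N ^ (k : ℕ)) * x k) % N ^ n = (finFunctionFinEquiv x' : ℕ) := by
    intro x x' hx
    have e1 : ∑ k : Fin n, (N ^ n + N ^ (k : ℕ)) * x k
        = (finFunctionFinEquiv x' : ℕ) + N ^ n * ∑ k, x k := by
      rw [finFunctionFinEquiv_apply, Finset.mul_sum, ← Finset.sum_add_distrib]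
      refine Finset.sum_congr rfl fun k _ => ?_
      rw [hx k]
      ring
    rw [e1, Nat.add_mul_mod_self_left, Nat.mod_eq_of_lt (finFunctionFinEquiv x').2]
  have e : (finFunctionFinEquiv a' : ℕ) = finFunctionFinEquiv b' := by
    rw [← key a a' (fun _ => rfl), ← key b b' (fun _ => rfl), h]
  have e2 : a' = b' := finFunctionFinEquiv.injective (Fin.ext e)
  funext k
  exact congrArg Fin.val (congrFun e2 k)

/-- A positive integral functional with trivial stabiliser. Choose finitely many `c k` separating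
the points of the span of `U`. For weights in `[1, 2]` a `g` fixing `ξ w = ∑ w k • ev (c k)` sends
each `u ∈ U` into the finite set of non-negative elements of `Cart` with bounded values at the
`c k`, so only finitely many maps occur; each non-trivial one excludes the roots of a non-zero
polynomial for `w k = 1 + t ^ (k + 1)`, `t = 1 / n`; clear denominators. -/
theorem exists_weights {C : Type} (Cart : AddSubgroup (C → ℝ))
    (hint : ∀ d ∈ Cart, ∀ c, ∃ n : ℤ, d c = n) (G : Subgroup (Equiv.Perm C))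
    (hG : ∀ g ∈ G, ∀ d ∈ Cart, d ∘ g ∈ Cart) (U : Finset (C → ℝ)) (hU : ∀ u ∈ U, u ∈ Cart)
    (hU0 : ∀ u ∈ U, ∀ c, 0 ≤ u c)
    (hspan : ∀ d ∈ Cart, d ∈ Submodule.span ℝ (U : Set (C → ℝ))) :
    ∃ (n : ℕ) (c : Fin n → C) (w : Fin n → ℕ), ∀ g ∈ G,
      (∀ u ∈ U, ∑ k, w k * u (g (c k)) = ∑ k, w k * u (c k)) → ∀ u ∈ U, u ∘ g = u := by
  classical
  let V : Submodule ℝ (C → ℝ) := Submodule.span ℝ (U : Set (C → ℝ))
  have hfd : FiniteDimensional ℝ V := FiniteDimensional.span_finset ℝ U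
  obtain ⟨S, hS⟩ := Wt_aux_sep _ V hfd le_rfl
  have hnat : ∀ u ∈ U, ∀ x, ∃ m : ℕ, u x = m := by
    intro u hu x
    obtain ⟨z, hz⟩ := hint u (hU u hu) x
    have h0 : (0 : ℝ) ≤ z := hz ▸ hU0 u hu x
    have h1 : 0 ≤ z := by exact_mod_cast h0
    refine ⟨z.toNat, ?_⟩
    rw [hz]
    exact_mod_cast (Int.toNat_of_nonneg h1).symm
  let val : (C → ℝ) → C → ℕ := fun u x => ⌊u x⌋₊
  have hval : ∀ u ∈ U, ∀ x, (val u x : ℝ) = u x := by
    intro u hu x
    obtain ⟨m, hm⟩ := hnat u hu x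
    simp only [val, hm, Nat.floor_natCast]
  let n := S.card
  let c : Fin n → C := fun k => (S.equivFin.symm k : C)
  let N : ℕ := ∑ u ∈ U, 2 * ∑ k, val u (c k) + 1
  refine ⟨n, c, fun k => N ^ n + N ^ (k : ℕ), fun g hg h u hu => ?_⟩
  have hb : 2 * ∑ k, val u (c k) < N :=
    Nat.lt_succ_of_le (Finset.single_le_sum (f := fun u => 2 * ∑ k, val u (c k))
      (fun _ _ => Nat.zero_le _) hu)
  have h1 : ∑ k : Fin n, (N ^ n + N ^ (k : ℕ)) * val u (g (c k))
      = ∑ k : Fin n, (N ^ n + N ^ (k : ℕ)) * val u (c k) := by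
    have h2 := h u hu
    have h3 : ((∑ k : Fin n, (N ^ n + N ^ (k : ℕ)) * val u (g (c k)) : ℕ) : ℝ)
        = ((∑ k : Fin n, (N ^ n + N ^ (k : ℕ)) * val u (c k) : ℕ) : ℝ) := by
      rw [Nat.cast_sum, Nat.cast_sum]
      simp only [Nat.cast_mul, hval u hu]
      exact h2
    exact_mod_cast h3
  have h4 := Wt_aux_digits (fun k => val u (g (c k))) (fun k => val u (c k)) hb h1
  have hmem : u ∘ g - u ∈ V :=
    V.sub_mem (hspan _ (hG g hg u (hU u hu))) (hspan _ (hU u hu))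
  have h5 : u ∘ g - u = 0 := by
    refine hS _ hmem fun x hx => ?_
    have h6 := congrFun h4 (S.equivFin ⟨x, hx⟩)
    simp only [c, Equiv.symm_apply_apply] at h6
    have h7 : u (g x) = u x := by rw [← hval u hu, ← hval u hu x, h6]
    simp [h7]
  exact sub_eq_zero.1 h5

end Pool.Agent.MP_95da86_ag
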